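import Pool.Agent.Run7.h916.Main

set_option autoImplicit false
set_option linter.unusedSectionVars false

/-!
From flexible blocks to the Borel chromatic index of the Schreier graph.
-/

namespace Run7.h916

open Set Relation
open scoped Pointwise

universe u v

variable {Γ : Type u} [Group Γ] {X : Type v} [MulAction Γ X]

theorem schreier_adj {S : Finset Γ} (hS : ∀ s ∈ S, s⁻¹ ∈ S) {x y : X} :
    (schreierGraph S X).Adj x y ↔ x ≠ y ∧ ∃ s ∈ S, s • x = y := by
  unfold schreierGraph
  rw [SimpleGraph.fromRel_adj]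
  constructor
  · rintro ⟨h, h' | ⟨s, hs, h'⟩⟩
    · exact ⟨h, h'⟩
    · exact ⟨h, s⁻¹, hS s hs, by rw [← h', inv_smul_smul]⟩
  · rintro ⟨h, h'⟩
    exact ⟨h, Or.inl h'⟩

/-- Points reached by an element of the ball are at bounded path distance. -/
theorem exists_walk {S : Finset Γ} (hS : ∀ s ∈ S, s⁻¹ ∈ S) {n : ℕ} {m : Γ}
    (hm : m ∈ (insert 1 (S : Set Γ)) ^ n) (x y : X) (hxy : m • x = y) :
    ∃ p : (schreierGraph S X).Walk x y, p.length ≤ n := by
  induction n generalizing m x with
  | zero =>
    have : m = 1 := by simpa using hm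
    subst this
    rw [one_smul] at hxy
    subst hxy
    exact ⟨SimpleGraph.Walk.nil, by simp⟩
  | succ k ih =>
    rw [pow_succ] at hm
    obtain ⟨a, ha, b, hb, rfl⟩ := hm
    simp only at *
    rw [mul_smul] at hxy
    by_cases hbx : x = b • x
    · rw [← hbx] at hxy
      obtain ⟨p, hp⟩ := ih ha x hxy
      exact ⟨p, by omega⟩
    · obtain ⟨p, hp⟩ := ih ha (b • x) hxy
      have hadj : (schreierGraph S X).Adj x (b • x) := by
        rw [schreier_adj hS]
        refine ⟨hbx, b, ?_, rfl⟩
        rcases hb with rfl | hb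
        · exact absurd (one_smul Γ x).symm hbx
        · exact hb
      exact ⟨SimpleGraph.Walk.cons hadj p, by simp; omega⟩

theorem sepAct_of_hasSeparation [MeasurableSpace X] {S : Finset Γ} (hS : ∀ s ∈ S, s⁻¹ ∈ S)
    (h : HasSeparation (schreierGraph S X) 1) : SepAct (insert 1 (S : Set Γ)) X := by
  intro N
  obtain ⟨U, hUm, hUp, hUf⟩ := h (max N 1) (le_max_right _ _)
  have hcompl : (U 0)ᶜ = U 1 := by
    ext x
    obtain ⟨i, hi, hi'⟩ := hUp x
    constructor
    · intro hx
      have : i = 1 := by
        rcases Fin.eq_zero_or_eq_succ i with h | ⟨j, h⟩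
        · rw [h] at hi; exact absurd hi hx
        · rw [h]; fin_cases j; rfl
      rwa [this] at hi
    · intro hx hx0
      have h1 := hi' 1 hx
      have h0 := hi' 0 hx0
      have : (0 : Fin 2) = 1 := h0.trans h1.symm
      exact absurd this (by decide)
  have key : ∀ i, ∀ x ∈ U i, {y | Conn ((insert 1 (S : Set Γ)) ^ N) (U i) x y}.Finite := by
    intro i x hx
    set G := (powerGraph (schreierGraph S X) (max N 1)).induce (U i) with hG
    have hsub : {y | Conn ((insert 1 (S : Set Γ)) ^ N) (U i) x y} ⊆
        Subtype.val '' (G.connectedComponentMk ⟨x, hx⟩).supp := by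
      intro y hy
      have hy' : Conn ((insert 1 (S : Set Γ)) ^ N) (U i) x y := hy
      clear hy
      have : ∃ hyU : y ∈ U i, G.Reachable ⟨x, hx⟩ ⟨y, hyU⟩ := by
        induction hy' with
        | refl => exact ⟨hx, SimpleGraph.Reachable.refl _⟩
        | @tail b c hb hc ih =>
          obtain ⟨hbU, hr⟩ := ih
          obtain ⟨hcU, m, hm, hmc⟩ := hc
          refine ⟨hcU, hr.trans ?_⟩
          by_cases hbc : b = c
          · subst hbc
            exact SimpleGraph.Reachable.refl _
          · apply SimpleGraph.Adj.reachable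
            rw [hG, SimpleGraph.comap_adj]
            simp only [Function.Embedding.subtype_apply]
            unfold powerGraph
            rw [SimpleGraph.fromRel_adj]
            refine ⟨hbc, Or.inl ?_⟩
            obtain ⟨p, hp⟩ := exists_walk (X := X) hS hm b c hmc
            exact ⟨p, hp.trans (le_max_left _ _)⟩
      obtain ⟨hyU, hr⟩ := this
      refine ⟨⟨y, hyU⟩, ?_, rfl⟩
      rw [SimpleGraph.ConnectedComponent.mem_supp_iff, SimpleGraph.ConnectedComponent.eq]
      exact hr.symm
    exact ((hUf i _).image _).subset hsub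
  refine ⟨U 0, hUm 0, key 0, ?_⟩
  rw [hcompl]
  exact key 1

theorem hasSeparation_one_of_asiB [MeasurableSpace X] {G : SimpleGraph X} (h : asiB G = 1) :
    HasSeparation G 1 := by
  by_contra hne
  unfold asiB at h
  by_cases h0 : HasSeparation G 0
  · have : (⨅ (s : ℕ) (_ : HasSeparation G s), (s : ℕ∞)) ≤ 0 := by
      refine (iInf_le _ 0).trans ((iInf_le _ h0).trans ?_)
      simp
    rw [h] at this
    exact absurd this (by simp)
  · have : (2 : ℕ∞) ≤ ⨅ (s : ℕ) (_ : HasSeparation G s), (s : ℕ∞) := by
      refine le_iInf fun s => le_iInf fun hs => ?_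
      have : 2 ≤ s := by
        rcases s with _ | _ | s
        · exact absurd hs h0
        · exact absurd hs hne
        · omega
      exact_mod_cast this
    rw [h] at this
    exact absurd this (by decide)

theorem nonempty_of_asiB [MeasurableSpace X] {G : SimpleGraph X} (h : asiB G = 1) :
    Nonempty X := by
  by_contra hne
  rw [not_nonempty_iff] at hne
  have h0 : HasSeparation G 0 := by
    intro N _
    refine ⟨fun _ => univ, fun _ => MeasurableSet.univ, fun x => (hne.false x).elim, ?_⟩
    intro i C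
    exact (Set.toFinite _)
  unfold asiB at h
  have : (⨅ (s : ℕ) (_ : HasSeparation G s), (s : ℕ∞)) ≤ 0 := by
    refine (iInf_le _ 0).trans ((iInf_le _ h0).trans ?_)
    simp
  rw [h] at this
  exact absurd this (by simp)

/-- Blocks with disjoint sets of directions can be coloured independently. -/
theorem BorelBlock.iUnion [MeasurableSpace X] {ι : Type*} {B : ι → Set Γ}
    (hdisj : ∀ i j s, s ∈ B i → s ∈ B j → i = j) (hinv : ∀ i, ∀ s ∈ B i, s⁻¹ ∈ B i)
    (h : ∀ i, BorelBlock (B i) X) : BorelBlock (⋃ i, B i) X := by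
  classical
  choose c hc1 hc2 hc3 hc4 using h
  let idx : ∀ s : Γ, (∃ i, s ∈ B i) → ι := fun s h => h.choose
  let c' : X → Γ → Γ := fun x s => if h : ∃ i, s ∈ B i then c (h.choose) x s else 1
  have hc' : ∀ x s i, s ∈ B i → c' x s = c i x s := by
    intro x s i hs
    have h : ∃ i, s ∈ B i := ⟨i, hs⟩
    have e : h.choose = i := hdisj _ _ s h.choose_spec hs
    simp only [c']
    rw [dif_pos h, e]
  refine ⟨c', ?_, ?_, ?_, ?_⟩
  · intro s γ
    by_cases h : ∃ i, s ∈ B i
    · obtain ⟨i, hi⟩ := h
      have : {x | c' x s = γ} = {x | c i x s = γ} := by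
        ext x
        simp only [mem_ofPred_eq]
        rw [hc' x s i hi]
      rw [this]
      exact hc1 i s γ
    · have : {x | c' x s = γ} = {x | (1 : Γ) = γ} := by
        ext x
        simp only [mem_ofPred_eq, c']
        rw [dif_neg h]
      rw [this]
      exact MeasurableSet.const _
  · intro x s hs
    obtain ⟨i, hi⟩ := mem_iUnion.mp hs
    rw [hc' x s i hi]
    exact mem_iUnion.mpr ⟨i, hc2 i x s hi⟩
  · intro x s hs t ht hst
    obtain ⟨i, hi⟩ := mem_iUnion.mp hs
    obtain ⟨j, hj⟩ := mem_iUnion.mp ht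
    rw [hc' x s i hi, hc' x t j hj] at hst
    have h1 := hc2 i x s hi
    have h2 := hc2 j x t hj
    rw [hst] at h1
    have : i = j := hdisj i j _ h1 h2
    subst this
    exact hc3 i x hi hj hst
  · intro x s hs
    obtain ⟨i, hi⟩ := mem_iUnion.mp hs
    rw [hc' x s i hi, hc' _ s⁻¹ i (hinv i s hi)]
    exact hc4 i x s hi

open Classical in
/-- A Borel colouring of all directions gives a Borel edge colouring of the Schreier graph. -/
theorem borelEdgeColorable_of_block [MeasurableSpace X] [StandardBorelSpace X]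
    (hX : IsFreeBorel Γ X) {S : Finset Γ} (hS : ∀ s ∈ S, s⁻¹ ∈ S)
    (h : BorelBlock (S : Set Γ) X) : BorelEdgeColorable (schreierGraph S X) S.card := by
  obtain ⟨c, hc1, hc2, hc3, hc4⟩ := h
  have huniq : ∀ (s t : Γ) (x : X), s • x = t • x → s = t := by
    intro s t x hst
    have : (t⁻¹ * s) • x = x := by rw [mul_smul, hst, inv_smul_smul]
    have := hX.free _ _ this
    rw [inv_mul_eq_one] at this
    exact this.symm
  have hex : ∀ p : {p : X × X // (schreierGraph S X).Adj p.1 p.2}, ∃ s ∈ S, s • p.1.1 = p.1.2 :=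
    fun p => ((schreier_adj hS).mp p.2).2
  let σ : {p : X × X // (schreierGraph S X).Adj p.1 p.2} → Γ := fun p => (hex p).choose
  have hσ : ∀ p, σ p ∈ S ∧ σ p • p.1.1 = p.1.2 := fun p => (hex p).choose_spec
  let e : S ≃ Fin S.card := S.equivFin
  let C : {p : X × X // (schreierGraph S X).Adj p.1 p.2} → Fin S.card := fun p =>
    e ⟨c p.1.1 (σ p), hc2 _ _ (hσ p).1⟩
  refine ⟨C, ?_, ?_, ?_⟩
  · refine measurable_to_countable' fun k => ?_
    have : C ⁻¹' {k} = ⋃ s ∈ S, {p : {p : X × X // (schreierGraph S X).Adj p.1 p.2} |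
        s • p.1.1 = p.1.2} ∩ {p | c p.1.1 s = (e.symm k : Γ)} := by
      ext p
      simp only [mem_preimage, mem_singleton_iff, mem_iUnion, mem_inter_iff, mem_ofPred_eq,
        exists_prop, C]
      constructor
      · intro h
        refine ⟨σ p, (hσ p).1, (hσ p).2, ?_⟩
        rw [← h, Equiv.symm_apply_apply]
      · rintro ⟨s, hs, h1, h2⟩
        have : σ p = s := huniq _ _ _ ((hσ p).2.trans h1.symm)
        have h3 : (⟨c p.1.1 (σ p), hc2 _ _ (hσ p).1⟩ : S) = e.symm k := by
          apply Subtype.ext
          simp only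
          rw [this, h2]
        rw [h3, Equiv.apply_symm_apply]
    rw [this]
    refine Finset.measurableSet_biUnion _ fun s _ => ?_
    have hm1 : Measurable (fun p : {p : X × X // (schreierGraph S X).Adj p.1 p.2} => p.1.1) :=
      measurable_fst.comp measurable_subtype_coe
    have hm2 : Measurable (fun p : {p : X × X // (schreierGraph S X).Adj p.1 p.2} => p.1.2) :=
      measurable_snd.comp measurable_subtype_coe
    refine MeasurableSet.inter ?_ ?_
    · exact measurableSet_eq_fun ((hX.measurable_smul s).comp hm1) hm2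
    · exact hm1 (hc1 s _)
  · intro x y h
    simp only [C]
    congr 1
    apply Subtype.ext
    simp only
    have h1 := hσ ⟨(x, y), h⟩
    have h2 := hσ ⟨(y, x), h.symm⟩
    simp only at h1 h2
    have h3 : σ ⟨(y, x), h.symm⟩ = (σ ⟨(x, y), h⟩)⁻¹ := by
      apply huniq _ _ y
      rw [h2.2]
      nth_rewrite 2 [← h1.2]
      rw [inv_smul_smul]
    rw [h3]
    have := hc4 x (σ ⟨(x, y), h⟩) h1.1
    rw [h1.2] at this
    exact this.symm
  · intro x y z h h' hyz heq
    simp only [C] at heq
    have heq' := congrArg Subtype.val (e.injective heq)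
    simp only at heq'
    have h1 := hσ ⟨(x, y), h⟩
    have h2 := hσ ⟨(x, z), h'⟩
    simp only at h1 h2
    have := hc3 x h1.1 h2.1 heq'
    apply hyz
    rw [← h1.2, ← h2.2, this]

theorem card_le_of_colorable [MeasurableSpace X] [Nonempty X] (hX : IsFreeBorel Γ X)
    {S : Finset Γ} (hS : ∀ s ∈ S, s⁻¹ ∈ S) (h1 : (1 : Γ) ∉ S) {n : ℕ}
    (h : BorelEdgeColorable (schreierGraph S X) n) : S.card ≤ n := by
  obtain ⟨c, _, _, hc⟩ := h
  obtain ⟨x⟩ := ‹Nonempty X›
  have hadj : ∀ s : S, (schreierGraph S X).Adj x ((s : Γ) • x) := by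
    intro s
    rw [schreier_adj hS]
    refine ⟨fun h => ?_, s, s.2, rfl⟩
    have := hX.free _ _ h.symm
    exact h1 (this ▸ s.2)
  have hinj : Function.Injective (fun s : S => c ⟨(x, (s : Γ) • x), hadj s⟩) := by
    intro s t hst
    by_contra hne
    refine hc x _ _ (hadj s) (hadj t) ?_ hst
    intro h
    have : ((t : Γ)⁻¹ * s) • x = x := by rw [mul_smul, h, inv_smul_smul]
    have := hX.free _ _ this
    rw [inv_mul_eq_one] at this
    exact hne (Subtype.ext this.symm)
  have := Fintype.card_le_of_injective _ hinj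
  simpa using this

/-- If the directions can be divided into flexible blocks then the Borel chromatic index of every
free Borel action of Borel asymptotic separation index one is the degree. -/
theorem chromaticIndex_eq_of_blocks [MeasurableSpace X] [StandardBorelSpace X] {S : Finset Γ}
    (hS : IsMarking S) (hH : HypH S X) {ι : Type*} {B : ι → Set Γ}
    (hdisj : ∀ i j s, s ∈ B i → s ∈ B j → i = j) (hinv : ∀ i, ∀ s ∈ B i, s⁻¹ ∈ B i)
    (hB : (⋃ i, B i) = (S : Set Γ)) (hflex : ∀ i, Flexible (B i)) :
    borelChromaticIndex (schreierGraph S X) = S.card := by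
  have hX := hH.freeBorel
  have hne := nonempty_of_asiB hH.asi
  have hsep := sepAct_of_hasSeparation hS.inv_mem (hasSeparation_one_of_asiB hH.asi)
  have hT : ∀ m ∈ insert 1 (S : Set Γ), m⁻¹ ∈ insert 1 (S : Set Γ) := by
    rintro m (rfl | hm)
    · left; simp
    · right; exact hS.inv_mem m hm
  have hgen : Subgroup.closure (insert 1 (S : Set Γ)) = ⊤ := by
    rw [eq_top_iff, ← hS.closure_eq]
    exact Subgroup.closure_mono (Set.subset_insert _ _)
  have hcount : Countable Γ := by
    have hfin : ∀ D : ℕ, ((insert 1 (S : Set Γ)) ^ D).Finite := by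
      intro D
      induction D with
      | zero => simp
      | succ k ih =>
        rw [pow_succ]
        exact ih.mul (S.finite_toSet.insert 1)
    have hc : (⋃ D : ℕ, (insert 1 (S : Set Γ)) ^ D).Countable :=
      Set.countable_iUnion fun D => (hfin D).countable
    refine Set.countable_univ_iff.mp (hc.mono fun g _ => ?_)
    obtain ⟨D, hD⟩ := exists_subset_pow (Set.mem_insert _ _) hT hgen (Set.finite_singleton g)
    exact mem_iUnion.mpr ⟨D, hD rfl⟩
  have hblock : ∀ i, BorelBlock (B i) X := fun i =>
    borelBlock_of_flexible hX (Set.mem_insert _ _) hT hgen hsep (hinv i)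
      (fun s hs => Set.mem_insert_of_mem _ (hB ▸ Set.mem_iUnion.mpr ⟨i, hs⟩)) (hflex i)
  have hall : BorelBlock (S : Set Γ) X := by
    rw [← hB]
    exact BorelBlock.iUnion hdisj hinv hblock
  have hcol := borelEdgeColorable_of_block hX hS.inv_mem hall
  unfold borelChromaticIndex
  apply le_antisymm
  · exact (iInf_le _ S.card).trans (iInf_le _ hcol)
  · refine le_iInf fun n => le_iInf fun hn => ?_
    exact_mod_cast card_le_of_colorable hX hS.inv_mem hS.one_notMem hn

end Run7.h916
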