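import Pool.Agent.Run7.h916.Defs

set_option autoImplicit false

/-!
Borel choice of base points in the finite pieces of a Borel set.
-/

namespace Run7.h916

open Set Relation

universe u v

variable {Γ : Type u} [Group Γ] {X : Type v} [MulAction Γ X]

/-- One step inside `U` by an element of `M`. -/
def StepRel (M : Set Γ) (U : Set X) (x y : X) : Prop := y ∈ U ∧ ∃ m ∈ M, m • x = y

/-- Reachability inside `U` by steps in `M`. -/
def Conn (M : Set Γ) (U : Set X) : X → X → Prop := ReflTransGen (StepRel M U)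

theorem Conn.mem {M : Set Γ} {U : Set X} {x y : X} (h : Conn M U x y) (hx : x ∈ U) : y ∈ U := by
  induction h with
  | refl => exact hx
  | tail _ h _ => exact h.1

theorem Conn.symm {M : Set Γ} (hM : ∀ m ∈ M, m⁻¹ ∈ M) {U : Set X} {x y : X}
    (h : Conn M U x y) (hx : x ∈ U) : Conn M U y x := by
  induction h with
  | refl => exact ReflTransGen.refl
  | @tail b c hb hc ih =>
    obtain ⟨hcU, m, hm, rfl⟩ := hc
    exact ReflTransGen.head ⟨Conn.mem hb hx, m⁻¹, hM m hm, by simp⟩ ih

/-- The relation `Conn` restricted to an orbit is Borel. -/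
theorem measurable_conn [MeasurableSpace X] [Countable Γ]
    (hmeas : ∀ γ : Γ, Measurable (fun x : X => γ • x))
    (M : Set Γ) {U : Set X} (hU : MeasurableSet U) (hfree : ∀ (γ : Γ) (x : X), γ • x = x → γ = 1)
    (γ : Γ) : MeasurableSet {x : X | x ∈ U ∧ Conn M U x (γ • x)} := by
  -- reach in exactly k steps
  let R : ℕ → Γ → Set X := fun k => Nat.rec (fun γ => {x | x ∈ U ∧ γ = 1})
    (fun _ R γ => {x | γ • x ∈ U ∧ ∃ m ∈ M, x ∈ R (m⁻¹ * γ)}) k
  have hR0 : ∀ γ, R 0 γ = {x | x ∈ U ∧ γ = 1} := fun _ => rfl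
  have hRs : ∀ k γ, R (k+1) γ = {x | γ • x ∈ U ∧ ∃ m ∈ M, x ∈ R k (m⁻¹ * γ)} := fun _ _ => rfl
  have hRm : ∀ k γ, MeasurableSet (R k γ) := by
    intro k
    induction k with
    | zero =>
      intro γ
      rw [hR0]
      by_cases h : γ = 1
      · simpa [h] using hU
      · simp [h]
    | succ k ih =>
      intro γ
      rw [hRs]
      have : {x : X | γ • x ∈ U ∧ ∃ m ∈ M, x ∈ R k (m⁻¹ * γ)}
          = ((fun x => γ • x) ⁻¹' U) ∩ ⋃ m : M, R k ((m : Γ)⁻¹ * γ) := by
        ext x
        simp
      rw [this]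
      exact ((hmeas γ) hU).inter (MeasurableSet.iUnion fun m => ih _)
  have key : {x : X | x ∈ U ∧ Conn M U x (γ • x)} = ⋃ k, R k γ := by
    ext x
    simp only [mem_ofPred_eq, mem_iUnion]
    constructor
    · rintro ⟨hx, h⟩
      have : ∀ y, Conn M U x y → ∀ γ : Γ, γ • x = y → ∃ k, x ∈ R k γ := by
        intro y hy
        induction hy with
        | refl =>
          intro γ hγ
          have := hfree γ x hγ
          exact ⟨0, by rw [hR0]; exact ⟨hx, this⟩⟩
        | @tail b c hb hc ih =>
          intro γ hγ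
          obtain ⟨hcU, m, hm, hmc⟩ := hc
          have hb' : (m⁻¹ * γ) • x = b := by
            rw [mul_smul, hγ, ← hmc, inv_smul_smul]
          obtain ⟨k, hk⟩ := ih (m⁻¹ * γ) hb'
          refine ⟨k+1, ?_⟩
          rw [hRs]
          exact ⟨by rw [hγ]; exact hcU, m, hm, hk⟩
      exact this _ h γ rfl
    · rintro ⟨k, hk⟩
      have : ∀ k (γ : Γ), x ∈ R k γ → x ∈ U ∧ Conn M U x (γ • x) := by
        intro k
        induction k with
        | zero =>
          intro γ h
          rw [hR0] at h
          obtain ⟨h1, rfl⟩ := h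
          exact ⟨h1, by rw [one_smul]; exact ReflTransGen.refl⟩
        | succ k ih =>
          intro γ h
          rw [hRs] at h
          obtain ⟨h1, m, hm, h2⟩ := h
          obtain ⟨h3, h4⟩ := ih _ h2
          refine ⟨h3, ReflTransGen.tail h4 ⟨h1, m, hm, ?_⟩⟩
          rw [← mul_smul]
          simp
      exact this k γ hk
  rw [key]
  exact MeasurableSet.iUnion fun k => hRm k γ

/-- Base points: if all components of `U` are finite, there is a Borel map `β` such that
`β x • x` depends only on the component of `x`. -/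
theorem exists_base [MeasurableSpace X] [StandardBorelSpace X] [Countable Γ]
    (hmeas : ∀ γ : Γ, Measurable (fun x : X => γ • x))
    (hfree : ∀ (γ : Γ) (x : X), γ • x = x → γ = 1)
    (M : Set Γ) (hM : ∀ m ∈ M, m⁻¹ ∈ M) {U : Set X} (hU : MeasurableSet U)
    (hfin : ∀ x ∈ U, {y | Conn M U x y}.Finite) :
    ∃ β : X → Γ, (∀ γ, MeasurableSet {x | β x = γ}) ∧
      ∀ x ∈ U, ∀ m ∈ M, m • x ∈ U → β (m • x) * m = β x := by
  classical
  obtain ⟨φ, hφ⟩ := MeasureTheory.exists_measurableEmbedding_real X
  have hφi : Function.Injective φ := hφ.injective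
  -- the predicate
  let P : X → Γ → Prop := fun x γ => x ∈ U ∧ Conn M U x (γ • x) ∧
    ∀ γ' : Γ, Conn M U x (γ' • x) → φ (γ • x) ≤ φ (γ' • x)
  have hP_ex : ∀ x ∈ U, ∃ γ, P x γ := by
    intro x hx
    have hfs : {γ : Γ | Conn M U x (γ • x)}.Finite := by
      have hinj : InjOn (fun γ : Γ => γ • x) {γ : Γ | Conn M U x (γ • x)} := by
        intro a _ b _ hab
        have : (b⁻¹ * a) • x = x := by
          rw [mul_smul]; simp only at hab; rw [hab, inv_smul_smul]
        have := hfree _ _ this
        rw [inv_mul_eq_one] at this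
        exact this.symm
      refine Set.Finite.of_finite_image ?_ hinj
      refine (hfin x hx).subset ?_
      rintro _ ⟨γ, hγ, rfl⟩
      exact hγ
    obtain ⟨γ, hγ, hmin⟩ := hfs.exists_minimalFor (fun γ : Γ => φ (γ • x)) _
      ⟨1, by simp only [mem_ofPred_eq, one_smul]; exact ReflTransGen.refl⟩
    refine ⟨γ, hx, hγ, fun γ' hγ' => ?_⟩
    rcases le_total (φ (γ • x)) (φ (γ' • x)) with h | h
    · exact h
    · exact hmin hγ' h
  have hP_eq : ∀ x y γ γ', x ∈ U → Conn M U x y → P x γ → P y γ' → γ • x = γ' • y := by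
    intro x y γ γ' hx hxy h1 h2
    have hyx := hxy.symm hM hx
    have hyU := hxy.mem hx
    -- y = η • x
    have hη : ∀ z w, Conn M U z w → ∃ η : Γ, η • z = w := by
      intro z w h
      induction h with
      | refl => exact ⟨1, one_smul _ _⟩
      | tail _ hc ih =>
        obtain ⟨η, hη⟩ := ih
        obtain ⟨_, m, _, hm⟩ := hc
        exact ⟨m * η, by rw [mul_smul, hη, hm]⟩
    obtain ⟨η, rfl⟩ := hη x y hxy
    apply hφi
    apply le_antisymm
    · have := h1.2.2 (γ' * η) (by
        rw [mul_smul]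
        exact hxy.trans h2.2.1)
      rwa [mul_smul] at this
    · have := h2.2.2 (γ * η⁻¹) (by
        rw [mul_smul, inv_smul_smul]
        exact hyx.trans h1.2.1)
      rwa [mul_smul, inv_smul_smul] at this
  have hP_uniq : ∀ x γ γ', P x γ → P x γ' → γ = γ' := by
    intro x γ γ' h h'
    have := hP_eq x x γ γ' h.1 ReflTransGen.refl h h'
    have : (γ'⁻¹ * γ) • x = x := by
      rw [mul_smul, this, inv_smul_smul]
    have := hfree _ _ this
    rw [inv_mul_eq_one] at this
    exact this.symm
  have hPm : ∀ γ, MeasurableSet {x | P x γ} := by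
    intro γ
    have : {x | P x γ} = {x : X | x ∈ U ∧ Conn M U x (γ • x)} ∩
        ⋂ γ' : Γ, ({x : X | x ∈ U ∧ Conn M U x (γ' • x)}ᶜ ∪ {x | φ (γ • x) ≤ φ (γ' • x)}) := by
      ext x
      simp only [mem_inter_iff, mem_ofPred_eq, mem_iInter, mem_union, mem_compl_iff, P]
      constructor
      · rintro ⟨h1, h2, h3⟩
        refine ⟨⟨h1, h2⟩, fun γ' => ?_⟩
        by_cases h : Conn M U x (γ' • x)
        · exact Or.inr (h3 γ' h)
        · exact Or.inl (fun h' => h h'.2)
      · rintro ⟨⟨h1, h2⟩, h3⟩
        refine ⟨h1, h2, fun γ' h => ?_⟩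
        rcases h3 γ' with h' | h'
        · exact absurd ⟨h1, h⟩ h'
        · exact h'
    rw [this]
    refine (measurable_conn hmeas M hU hfree γ).inter (MeasurableSet.iInter fun γ' => ?_)
    refine (measurable_conn hmeas M hU hfree γ').compl.union ?_
    exact measurableSet_le (hφ.measurable.comp (hmeas γ)) (hφ.measurable.comp (hmeas γ'))
  refine ⟨fun x => if h : ∃ γ, P x γ then h.choose else 1, ?_, ?_⟩
  · intro γ
    have : {x | (if h : ∃ γ, P x γ then h.choose else 1) = γ}
        = {x | P x γ} ∪ ({x | γ = 1} ∩ (⋃ γ' : Γ, {x | P x γ'})ᶜ) := by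
      ext x
      simp only [mem_ofPred_eq, mem_union, mem_inter_iff, mem_compl_iff, mem_iUnion]
      by_cases h : ∃ γ, P x γ
      · rw [dif_pos h]
        constructor
        · intro h'
          left
          rw [← h']
          exact h.choose_spec
        · rintro (h' | h')
          · exact hP_uniq x _ _ h.choose_spec h'
          · exact absurd h h'.2
      · rw [dif_neg h]
        constructor
        · intro h'
          right
          exact ⟨h'.symm, h⟩
        · rintro (h' | h')
          · exact absurd ⟨γ, h'⟩ h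
          · exact h'.1.symm
    rw [this]
    refine (hPm γ).union (MeasurableSet.inter ?_ (MeasurableSet.iUnion hPm).compl)
    exact MeasurableSet.const _
  · intro x hx m hm hmx
    have h1 := hP_ex x hx
    have h2 := hP_ex (m • x) hmx
    simp only
    rw [dif_pos h1, dif_pos h2]
    have hc : Conn M U x (m • x) := ReflTransGen.single ⟨hmx, m, hm, rfl⟩
    have := hP_eq x (m • x) _ _ hx hc h1.choose_spec h2.choose_spec
    have h3 : (h1.choose⁻¹ * (h2.choose * m)) • x = x := by
      rw [mul_smul, mul_smul, ← this, inv_smul_smul]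
    have := hfree _ _ h3
    rw [inv_mul_eq_one] at this
    exact this.symm

end Run7.h916
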