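import Pool.Agent.Run7.h916.Phase

set_option autoImplicit false
set_option linter.unusedSectionVars false

/-!
Flexibility of a block from changes of single phases; directions of finite order.
-/

namespace Run7.h916

open Set Relation
open scoped Pointwise

universe u v

variable {Γ : Type u} [Group Γ]

theorem setPhase_self {f : Γ → Γ → ZMod 2} {v s : Γ} {φ : Γ → ZMod 2} (h : s = v ∨ s = v⁻¹) :
    setPhase f v φ s = φ := by unfold setPhase; rw [if_pos h]

theorem setPhase_other {f : Γ → Γ → ZMod 2} {v s : Γ} {φ : Γ → ZMod 2}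
    (h : ¬ (s = v ∨ s = v⁻¹)) : setPhase f v φ s = f s := by unfold setPhase; rw [if_neg h]

/-- Families of phases taken from prescribed classes of phase functions. -/
structure InClass (B : Set Γ) (P : Γ → Set (Γ → ZMod 2)) (f : Γ → Γ → ZMod 2) : Prop where
  inv : ∀ s ∈ B, f s⁻¹ = f s
  mem : ∀ s ∈ B, f s ∈ P s

/-- A block is flexible if single phases can be changed. -/
theorem flexible_of_flips {B : Set Γ} (hBf : B.Finite) (hB : ∀ s ∈ B, s⁻¹ ∈ B)
    (P : Γ → Set (Γ → ZMod 2))
    (hP1 : ∀ s ∈ B, ∀ φ ∈ P s, s ≠ s⁻¹ → ∀ γ, φ (s * γ) = φ γ + 1)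
    (hP2 : ∀ s ∈ B, P s⁻¹ = P s)
    (hP3 : ∀ s ∈ B, ∀ φ ∈ P s, ∀ g, (fun γ => φ (γ * g)) ∈ P s)
    (hne : ∀ s ∈ B, (P s).Nonempty)
    (hflip : ∀ v ∈ B, v ≠ v⁻¹ → ∃ (n : ℕ) (E : Set Γ), E.Finite ∧ ∀ f, InClass B P f →
      ∀ φ ∈ P v, Reach B E n (kap f) (kap (setPhase f v φ))) : Flexible B := by
  classical
  have hphase : ∀ f, InClass B P f → IsPhase B f := fun f hf =>
    ⟨hf.inv, fun s hs hss γ => hP1 s hs _ (hf.mem s hs) hss γ⟩
  -- the main induction
  have main : ∀ R : Finset Γ, (∀ s ∈ R, s ∈ B) → ∃ (n : ℕ) (E : Set Γ), E.Finite ∧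
      ∀ f f', InClass B P f → InClass B P f' →
        (∀ s ∈ B, s ∉ R → s⁻¹ ∉ R → f s = f' s) → Reach B E n (kap f) (kap f') := by
    intro R
    induction R using Finset.induction_on with
    | empty =>
      intro _
      refine ⟨0, {1}, Set.finite_singleton _, fun f f' hf hf' h => ?_⟩
      refine Reach.refl (Set.mem_singleton _) ((hphase f hf).locCol hB) ?_
      intro γ s hs
      unfold kap
      rw [h s hs (Finset.notMem_empty _) (Finset.notMem_empty _)]
    | @insert v R _ ih =>
      intro hR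
      obtain ⟨n, E, hE, hreach⟩ := ih fun s hs => hR s (Finset.mem_insert_of_mem hs)
      have hvB : v ∈ B := hR v (Finset.mem_insert_self _ _)
      have hviB := hB v hvB
      have hset : ∀ f f', InClass B P f → InClass B P f' → InClass B P (setPhase f v (f' v)) := by
        intro f f' hf hf'
        refine ⟨fun s hs => ?_, fun s hs => ?_⟩
        · by_cases h : s = v ∨ s = v⁻¹
          · rw [setPhase_self h, setPhase_self]
            rcases h with h | h
            · right; rw [h]
            · left; rw [h, inv_inv]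
          · rw [setPhase_other h, setPhase_other, hf.inv s hs]
            intro h'
            apply h
            rcases h' with h' | h'
            · right; rw [← h', inv_inv]
            · left; exact inv_injective h'
        · by_cases h : s = v ∨ s = v⁻¹
          · rw [setPhase_self h]
            rcases h with h | h
            · rw [h]; exact hf'.mem v hvB
            · rw [h, hP2 v hvB]; exact hf'.mem v hvB
          · rw [setPhase_other h]
            exact hf.mem s hs
      have hagree : ∀ f f', InClass B P f → InClass B P f' →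
          (∀ s ∈ B, s ∉ insert v R → s⁻¹ ∉ insert v R → f s = f' s) →
          ∀ s ∈ B, s ∉ R → s⁻¹ ∉ R → setPhase f v (f' v) s = f' s := by
        intro f f' hf hf' hff s hs h1 h2
        by_cases h : s = v ∨ s = v⁻¹
        · rw [setPhase_self h]
          rcases h with h | h
          · rw [h]
          · rw [h, hf'.inv v hvB]
        · rw [setPhase_other h]
          push Not at h
          refine hff s hs ?_ ?_
          · rw [Finset.mem_insert]; push Not; exact ⟨h.1, h1⟩
          · rw [Finset.mem_insert]; push Not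
            exact ⟨fun h' => h.2 (by rw [← h', inv_inv]), h2⟩
      by_cases hvv : v = v⁻¹
      · refine ⟨n, E, hE, fun f f' hf hf' hff => ?_⟩
        have h1 := hreach (setPhase f v (f' v)) f' (hset f f' hf hf') hf'
          (hagree f f' hf hf' hff)
        refine h1.congr_left ?_
        intro γ s hs
        unfold kap
        by_cases h : s = v ∨ s = v⁻¹
        · have : s = s⁻¹ := by
            rcases h with h | h
            · rw [h]; exact hvv
            · rw [h, inv_inv]; exact hvv.symm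
          rw [← this]
          simp
        · rw [setPhase_other h]
      · obtain ⟨n', E', hE', hflip'⟩ := hflip v hvB hvv
        refine ⟨n' + n, E' ∪ E, hE'.union hE, fun f f' hf hf' hff => ?_⟩
        have h1 := hflip' f hf (f' v) (hf'.mem v hvB)
        have h2 := hreach (setPhase f v (f' v)) f' (hset f f' hf hf') hf'
          (hagree f f' hf hf' hff)
        exact (h1.mono Set.subset_union_left le_rfl).trans
          (h2.mono Set.subset_union_right le_rfl)
  obtain ⟨n, E, hE, hreach⟩ := main hBf.toFinset (fun s hs => hBf.mem_toFinset.mp hs)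
  -- choose a family
  have hch : ∀ s : Γ, ∃ φ : Γ → ZMod 2, s ∈ B → φ ∈ P s := by
    intro s
    by_cases h : s ∈ B
    · obtain ⟨φ, hφ⟩ := hne s h
      exact ⟨φ, fun _ => hφ⟩
    · exact ⟨0, fun h' => absurd h' h⟩
  choose F hF using hch
  -- choose representatives of inverse pairs
  let rep : Γ → Γ := fun s => if WellOrderingRel s s⁻¹ then s else s⁻¹
  have hrep : ∀ s, rep s⁻¹ = rep s := by
    intro s
    simp only [rep, inv_inv]
    rcases trichotomous_of WellOrderingRel s s⁻¹ with h | h | h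
    · rw [if_pos h, if_neg (fun h' => asymm_of WellOrderingRel h h')]
    · have e : s⁻¹ = s := h.symm
      simp only [e]
    · rw [if_pos h, if_neg (fun h' => asymm_of WellOrderingRel h h')]
  let f0 : Γ → Γ → ZMod 2 := fun s => F (rep s)
  have hf0 : InClass B P f0 := by
    refine ⟨fun s _ => ?_, fun s hs => ?_⟩
    · simp only [f0, hrep]
    · have : rep s = s ∨ rep s = s⁻¹ := by
        simp only [rep]
        split_ifs
        · exact Or.inl rfl
        · exact Or.inr rfl
      rcases this with h | h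
      · simp only [f0, h]
        exact hF s hs
      · simp only [f0, h]
        rw [← hP2 s hs]
        exact hF _ (hB s hs)
  refine ⟨kap f0, n, E, hE, fun g => ?_⟩
  have hf1 : InClass B P (fun s γ => f0 s (γ * g)) := by
    refine ⟨fun s hs => ?_, fun s hs => hP3 s hs _ (hf0.mem s hs) g⟩
    rw [hf0.inv s hs]
  refine hreach f0 _ hf0 hf1 fun s hs h1 _ => ?_
  exact absurd (hBf.mem_toFinset.mpr hs) h1

/-- Change of the phase of a direction of finite order. -/
theorem flip_torsion {B : Set Γ} (hB : ∀ s ∈ B, s⁻¹ ∈ B) {f : Γ → Γ → ZMod 2}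
    (hf : IsPhase B f) {v : Γ} (hv : v ∈ B) (hvv : v ≠ v⁻¹) {φ : Γ → ZMod 2}
    (hφ : ∀ γ, φ (v * γ) = φ γ + 1) :
    Reach B (Subgroup.zpowers v : Set Γ) 1 (kap f) (kap (setPhase f v φ)) := by
  classical
  set Λ : Set Γ := {γ | φ γ ≠ f v γ} with hΛdef
  have hfv : ∀ γ, f v (v * γ) = f v γ + 1 := hf.step v hv hvv
  have hv1 : ∀ γ, (v * γ ∈ Λ ↔ γ ∈ Λ) := by
    intro γ
    simp only [hΛdef, mem_ofPred_eq, hφ, hfv]
    constructor
    · intro h h'
      exact h (by rw [h'])
    · intro h h'
      exact h (add_right_cancel h')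
  have hv2 : ∀ γ, (v⁻¹ * γ ∈ Λ ↔ γ ∈ Λ) := by
    intro γ
    have := hv1 (v⁻¹ * γ)
    rw [mul_inv_cancel_left] at this
    exact this.symm
  have hnb : ∀ c, (c = v ∨ c = v⁻¹) → ∀ γ, (γ ∈ Λ ↔ nb c (f c) γ ∈ Λ) := by
    rintro c (rfl | rfl) γ
    · unfold nb
      split_ifs
      · exact (hv1 γ).symm
      · exact (hv2 γ).symm
    · unfold nb
      split_ifs
      · exact (hv2 γ).symm
      · rw [inv_inv]; exact (hv1 γ).symm
  let q : Γ → Γ := fun γ => Quotient.out (Quotient.mk (QuotientGroup.rightRel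
    (Subgroup.zpowers v)) γ)
  have hq : ∀ γ, γ * (q γ)⁻¹ ∈ Subgroup.zpowers v := by
    intro γ
    have : (QuotientGroup.rightRel (Subgroup.zpowers v)).r (q γ) γ :=
      Quotient.exact (Quotient.out_eq _)
    exact QuotientGroup.rightRel_apply.mp this
  have hqe : ∀ γ, ∀ k ∈ Subgroup.zpowers v, q (k * γ) = q γ := by
    intro γ k hk
    have : Quotient.mk (QuotientGroup.rightRel (Subgroup.zpowers v)) (k * γ) =
        Quotient.mk (QuotientGroup.rightRel (Subgroup.zpowers v)) γ := by
      apply Quotient.sound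
      apply QuotientGroup.rightRel_apply.mpr
      rw [mul_inv_rev, ← mul_assoc, mul_inv_cancel, one_mul]
      exact inv_mem hk
    simp only [q, this]
  have hqn : ∀ c, (c = v ∨ c = v⁻¹) → ∀ γ, q (nb c (f c) γ) = q γ := by
    rintro c (rfl | rfl) γ
    · unfold nb
      split_ifs
      · exact hqe _ _ (Subgroup.mem_zpowers _)
      · exact hqe _ _ (inv_mem (Subgroup.mem_zpowers _))
    · unfold nb
      split_ifs
      · exact hqe _ _ (inv_mem (Subgroup.mem_zpowers _))
      · rw [inv_inv]; exact hqe _ _ (Subgroup.mem_zpowers _)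
  have h1F : (1 : Γ) ∈ (Subgroup.zpowers v : Set Γ) := one_mem _
  have hE : ∀ a ∈ (Subgroup.zpowers v : Set Γ), ∀ b ∈ (Subgroup.zpowers v : Set Γ),
      a * b⁻¹ ∈ (Subgroup.zpowers v : Set Γ) := fun a ha b hb => mul_mem ha (inv_mem hb)
  have hloc := hf.locCol hB
  have hloc' : LocCol B (permOn (Equiv.swap v v⁻¹) Λ (kap f)) := by
    refine hloc.permOn ?_ ?_
    · intro c hc
      rcases eq_or_ne c v with h | h
      · rw [h, Equiv.swap_apply_left]; exact hB v hv
      · rcases eq_or_ne c v⁻¹ with h' | h'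
        · rw [h', Equiv.swap_apply_right]; exact hv
        · rw [Equiv.swap_apply_of_ne_of_ne h h']; exact hc
    · intro γ s hs hne
      have : kap f γ s = v ∨ kap f γ s = v⁻¹ := by
        by_contra h
        push Not at h
        exact hne (Equiv.swap_apply_of_ne_of_ne h.1 h.2)
      rw [kap_eq hf hs rfl]
      exact hnb _ this γ
  have hstep : Step B (Subgroup.zpowers v : Set Γ) (kap f)
      (permOn (Equiv.swap v v⁻¹) Λ (kap f)) := by
    have := step_perm (π := 1) (B := B) (κ := kap f) (i := v) (j := v⁻¹) (Λ := Λ) h1F hE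
      (fun γ s hs h => by rw [kap_eq hf hs rfl]; exact hnb _ h γ) q
      (fun γ _ s hs h => by rw [kap_eq hf hs rfl]; exact hqn _ h γ) (fun γ _ => hq γ)
    rwa [permOn_one, one_mul] at this
  have := Reach.single h1F hloc hloc' hstep
  exact this.congr_right hB (permOn_kap hf hv Λ φ fun γ => Iff.rfl)

/-- Alternating paths controlled by a finite subgroup. -/
theorem cross_fin {v z : Γ} {φ ψ : Γ → ZMod 2} (hφv : ∀ γ, φ (v * γ) = φ γ + 1)
    (K : Subgroup Γ)
    (hrel : ((∀ γ, φ (z * γ) = φ γ) ∧ z ∈ K ∧ v⁻¹ * z * v ∈ K) ∨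
      ((∀ γ, φ (z * γ) = φ γ + 1) ∧ z * v ∈ K ∧ z⁻¹ * v ∈ K)) (Λ : Set Γ) :
    CrossOK v z φ ψ ({1, v} * (K : Set Γ)) Λ := by
  classical
  have one_add : (1 : ZMod 2) + 1 = 0 := by decide
  have hne : (1 : ZMod 2) ≠ 0 := by decide
  have hφv' : ∀ γ, φ (v⁻¹ * γ) = φ γ + 1 := by
    intro γ
    have := hφv (v⁻¹ * γ)
    rw [mul_inv_cancel_left] at this
    rw [this, add_assoc, one_add, add_zero]
  let q : Γ → Γ := fun γ => Quotient.out (Quotient.mk (QuotientGroup.rightRel K) γ)
  have hq : ∀ γ, γ * (q γ)⁻¹ ∈ K := by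
    intro γ
    have : (QuotientGroup.rightRel K).r (q γ) γ := Quotient.exact (Quotient.out_eq _)
    exact QuotientGroup.rightRel_apply.mp this
  have hqe : ∀ γ γ', γ' * γ⁻¹ ∈ K → q γ' = q γ := by
    intro γ γ' hk
    have : Quotient.mk (QuotientGroup.rightRel K) γ' =
        Quotient.mk (QuotientGroup.rightRel K) γ := by
      apply Quotient.sound
      apply QuotientGroup.rightRel_apply.mpr
      have := inv_mem hk
      rwa [mul_inv_rev, inv_inv] at this
    simp only [q, this]
  let δ : Γ → Γ := fun γ => if φ γ = 0 then γ else v⁻¹ * γ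
  have hδ0 : ∀ γ, φ γ = 0 → δ γ = γ := fun γ h => by simp only [δ, h, if_true]
  have hδ1 : ∀ γ, φ γ = 1 → δ γ = v⁻¹ * γ := fun γ h => by simp only [δ, h, if_neg hne]
  have hz : ∀ γ, δ (z * γ) * (δ γ)⁻¹ ∈ K := by
    intro γ
    rcases hrel with ⟨h, h1, h2⟩ | ⟨h, h1, h2⟩
    · rcases zmod2_cases (φ γ) with hp | hp
      · rw [hδ0 γ hp, hδ0 _ (by rw [h, hp])]
        simpa using h1
      · rw [hδ1 γ hp, hδ1 _ (by rw [h, hp])]
        have : v⁻¹ * (z * γ) * (v⁻¹ * γ)⁻¹ = v⁻¹ * z * v := by group
        rw [this]; exact h2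
    · rcases zmod2_cases (φ γ) with hp | hp
      · rw [hδ0 γ hp, hδ1 _ (by rw [h, hp, zero_add])]
        have : v⁻¹ * (z * γ) * γ⁻¹ = (z⁻¹ * v)⁻¹ := by group
        rw [this]; exact inv_mem h2
      · rw [hδ1 γ hp, hδ0 _ (by rw [h, hp, one_add])]
        have : z * γ * (v⁻¹ * γ)⁻¹ = z * v := by group
        rw [this]; exact h1
  have hz' : ∀ γ, δ (z⁻¹ * γ) * (δ γ)⁻¹ ∈ K := by
    intro γ
    have := inv_mem (hz (z⁻¹ * γ))
    rw [mul_inv_cancel_left, mul_inv_rev, inv_inv] at this
    exact this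
  refine ⟨fun γ => q (δ γ), fun γ _ => ⟨?_, ?_, ?_⟩⟩
  · unfold nb
    rcases zmod2_cases (φ γ) with hp | hp
    · rw [if_pos hp]
      simp only
      rw [hδ0 γ hp, hδ1 (v * γ) (by rw [hφv, hp, zero_add]), inv_mul_cancel_left]
    · rw [if_neg (by rw [hp]; exact hne)]
      simp only
      rw [hδ1 γ hp, hδ0 (v⁻¹ * γ) (by rw [hφv', hp, one_add])]
  · unfold nb
    split_ifs
    · exact hqe _ _ (hz γ)
    · exact hqe _ _ (hz' γ)
  · simp only
    rcases zmod2_cases (φ γ) with hp | hp
    · rw [hδ0 γ hp]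
      exact ⟨1, by simp, _, hq γ, by simp⟩
    · rw [hδ1 γ hp]
      refine ⟨v, by simp, _, hq (v⁻¹ * γ), ?_⟩
      simp only
      group

end Run7.h916
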