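import Pool.Agent.Run7.h916.Hall
import Pool.Agent.Run7.h916.Base

set_option autoImplicit false
set_option linter.unusedSectionVars false
set_option linter.unusedVariables false

/-!
Borel rounding of fractional degree constrained subgraphs of Borel graphs with finite components.
-/

namespace Run7.h916

open Set Relation

universe u v w

/-- Rounding in a finite bipartite multigraph, with a finite set of edges. -/
theorem hall_round_finset {ι : Type u} {A : Type v} {B : Type w} [DecidableEq ι]
    [DecidableEq A] [DecidableEq B] (S : Finset ι) (s : ι → A) (t : ι → B) (f : ι → ℝ)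
    (h0 : ∀ e ∈ S, 0 ≤ f e) (h1 : ∀ e ∈ S, f e ≤ 1) (n : A → ℕ) (m : B → ℕ)
    (hn : ∀ x, ∑ e ∈ S with s e = x, f e = n x) (hm : ∀ y, ∑ e ∈ S with t e = y, f e = m y) :
    ∃ F : Finset ι, F ⊆ S ∧ (∀ x, (F.filter (fun e => s e = x)).card = n x) ∧
      ∀ y, (F.filter (fun e => t e = y)).card = m y := by
  classical
  obtain ⟨F, hF1, hF2⟩ := hall_round (ι := S) (fun e => s e) (fun e => t e) (fun e => f e)
    (fun e => h0 e e.2) (fun e => h1 e e.2) n m (fun x => by
      rw [Finset.sum_filter, ← hn x, Finset.sum_filter]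
      exact Finset.sum_coe_sort S (fun e => if s e = x then f e else 0)) (fun y => by
      rw [Finset.sum_filter, ← hm y, Finset.sum_filter]
      exact Finset.sum_coe_sort S (fun e => if t e = y then f e else 0))
  refine ⟨F.map (Function.Embedding.subtype _), ?_, ?_, ?_⟩
  · intro e he
    rw [Finset.mem_map] at he
    obtain ⟨e', _, rfl⟩ := he
    exact e'.2
  · intro x
    rw [Finset.filter_map, Finset.card_map, ← hF1 x]
    rfl
  · intro y
    rw [Finset.filter_map, Finset.card_map, ← hF2 y]
    rfl

variable {Γ : Type u} [Group Γ] {X : Type v} [MulAction Γ X] {I : Type w}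

/-- One step in a graph given by letters. -/
def EStep (val : I → Γ) (E : X → I → Prop) (x y : X) : Prop := ∃ i, E x i ∧ val i • x = y

/-- Connectedness in a graph given by letters. -/
def EConn (val : I → Γ) (E : X → I → Prop) : X → X → Prop := ReflTransGen (EStep val E)

theorem EConn.symm {val : I → Γ} {inv : I → I} (hval : ∀ i, val (inv i) = (val i)⁻¹)
    {E : X → I → Prop} (hE : ∀ x i, E x i → E (val i • x) (inv i)) {x y : X}
    (h : EConn val E x y) : EConn val E y x := by
  induction h with
  | refl => exact ReflTransGen.refl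
  | @tail b c hb hc ih =>
    obtain ⟨i, hi, rfl⟩ := hc
    exact ReflTransGen.head ⟨inv i, hE _ _ hi, by rw [hval, inv_smul_smul]⟩ ih

theorem EConn.exists_smul {val : I → Γ} {E : X → I → Prop} {x y : X}
    (h : EConn val E x y) : ∃ γ : Γ, γ • x = y := by
  induction h with
  | refl => exact ⟨1, one_smul _ _⟩
  | tail _ hc ih =>
    obtain ⟨η, hη⟩ := ih
    obtain ⟨i, _, hi⟩ := hc
    exact ⟨val i * η, by rw [mul_smul, hη, hi]⟩

theorem measurable_econn [MeasurableSpace X] [Countable Γ] [Countable I]
    (hmeas : ∀ γ : Γ, Measurable (fun x : X => γ • x))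
    (hfree : ∀ (γ : Γ) (x : X), γ • x = x → γ = 1) (val : I → Γ) {E : X → I → Prop}
    (hE : ∀ i, MeasurableSet {x | E x i}) (γ : Γ) :
    MeasurableSet {x : X | EConn val E x (γ • x)} := by
  let R : ℕ → Γ → Set X := fun k => Nat.rec (fun γ => {x | γ = 1})
    (fun _ R γ => {x | ∃ i, E (((val i)⁻¹ * γ) • x) i ∧ x ∈ R ((val i)⁻¹ * γ)}) k
  have hR0 : ∀ γ, R 0 γ = {x | γ = 1} := fun _ => rfl
  have hRs : ∀ k γ, R (k + 1) γ =
      {x | ∃ i, E (((val i)⁻¹ * γ) • x) i ∧ x ∈ R k ((val i)⁻¹ * γ)} := fun _ _ => rfl
  have hRm : ∀ k γ, MeasurableSet (R k γ) := by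
    intro k
    induction k with
    | zero =>
      intro γ
      rw [hR0]
      exact MeasurableSet.const _
    | succ k ih =>
      intro γ
      rw [hRs]
      have : {x | ∃ i, E (((val i)⁻¹ * γ) • x) i ∧ x ∈ R k ((val i)⁻¹ * γ)} =
          ⋃ i : I, ((fun x => ((val i)⁻¹ * γ) • x) ⁻¹' {x | E x i}) ∩ R k ((val i)⁻¹ * γ) := by
        ext x
        simp
      rw [this]
      exact MeasurableSet.iUnion fun i => ((hmeas _) (hE i)).inter (ih _)
  have key : {x : X | EConn val E x (γ • x)} = ⋃ k, R k γ := by
    ext x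
    simp only [mem_ofPred_eq, mem_iUnion]
    constructor
    · intro h
      have : ∀ y, EConn val E x y → ∀ γ : Γ, γ • x = y → ∃ k, x ∈ R k γ := by
        intro y hy
        induction hy with
        | refl =>
          intro γ hγ
          exact ⟨0, by rw [hR0]; exact hfree γ x hγ⟩
        | @tail b c hb hc ih =>
          intro γ hγ
          obtain ⟨i, hi, hic⟩ := hc
          have hb' : ((val i)⁻¹ * γ) • x = b := by
            rw [mul_smul, hγ, ← hic, inv_smul_smul]
          obtain ⟨k, hk⟩ := ih _ hb'
          refine ⟨k + 1, ?_⟩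
          rw [hRs]
          exact ⟨i, by rw [hb']; exact hi, hk⟩
      exact this _ h γ rfl
    · rintro ⟨k, hk⟩
      have : ∀ k (γ : Γ), x ∈ R k γ → EConn val E x (γ • x) := by
        intro k
        induction k with
        | zero =>
          intro γ h
          rw [hR0] at h
          have : γ = 1 := h
          rw [this, one_smul]
          exact ReflTransGen.refl
        | succ k ih =>
          intro γ h
          rw [hRs] at h
          obtain ⟨i, h1, h2⟩ := h
          refine ReflTransGen.tail (ih _ h2) ⟨i, h1, ?_⟩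
          rw [← mul_smul]
          simp
      exact this k γ hk
  rw [key]
  exact MeasurableSet.iUnion fun k => hRm k γ

/-- Base points of the components of a Borel graph with finite components. -/
theorem exists_ebase [MeasurableSpace X] [StandardBorelSpace X] [Countable Γ] [Countable I]
    (hmeas : ∀ γ : Γ, Measurable (fun x : X => γ • x))
    (hfree : ∀ (γ : Γ) (x : X), γ • x = x → γ = 1) {val : I → Γ} {inv : I → I}
    (hval : ∀ i, val (inv i) = (val i)⁻¹) {E : X → I → Prop}
    (hEm : ∀ i, MeasurableSet {x | E x i}) (hEs : ∀ x i, E x i → E (val i • x) (inv i))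
    (hfin : ∀ x, {y | EConn val E x y}.Finite) :
    ∃ β : X → Γ, (∀ γ, MeasurableSet {x | β x = γ}) ∧ (∀ x, EConn val E x (β x • x)) ∧
      ∀ x i, E x i → β (val i • x) * val i = β x := by
  classical
  obtain ⟨φ, hφ⟩ := MeasureTheory.exists_measurableEmbedding_real X
  have hφi : Function.Injective φ := hφ.injective
  let P : X → Γ → Prop := fun x γ => EConn val E x (γ • x) ∧
    ∀ γ' : Γ, EConn val E x (γ' • x) → φ (γ • x) ≤ φ (γ' • x)
  have hP_ex : ∀ x, ∃ γ, P x γ := by
    intro x
    have hfs : {γ : Γ | EConn val E x (γ • x)}.Finite := by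
      have hinj : InjOn (fun γ : Γ => γ • x) {γ : Γ | EConn val E x (γ • x)} := by
        intro a _ b _ hab
        have : (b⁻¹ * a) • x = x := by
          rw [mul_smul]; simp only at hab; rw [hab, inv_smul_smul]
        have := hfree _ _ this
        rw [inv_mul_eq_one] at this
        exact this.symm
      refine Set.Finite.of_finite_image ?_ hinj
      refine (hfin x).subset ?_
      rintro _ ⟨γ, hγ, rfl⟩
      exact hγ
    obtain ⟨γ, hγ, hmin⟩ := hfs.exists_minimalFor (fun γ : Γ => φ (γ • x)) _
      ⟨1, by simp only [mem_ofPred_eq, one_smul]; exact ReflTransGen.refl⟩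
    refine ⟨γ, hγ, fun γ' hγ' => ?_⟩
    rcases le_total (φ (γ • x)) (φ (γ' • x)) with h | h
    · exact h
    · exact hmin hγ' h
  have hP_eq : ∀ x y γ γ', EConn val E x y → P x γ → P y γ' → γ • x = γ' • y := by
    intro x y γ γ' hxy h1 h2
    have hyx := hxy.symm hval hEs
    obtain ⟨η, rfl⟩ := hxy.exists_smul
    apply hφi
    apply le_antisymm
    · have := h1.2 (γ' * η) (by
        rw [mul_smul]
        exact hxy.trans h2.1)
      rwa [mul_smul] at this
    · have := h2.2 (γ * η⁻¹) (by
        rw [mul_smul, inv_smul_smul]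
        exact hyx.trans h1.1)
      rwa [mul_smul, inv_smul_smul] at this
  have hcancel : ∀ (x : X) (γ γ' : Γ), γ • x = γ' • x → γ = γ' := by
    intro x γ γ' h
    have : (γ'⁻¹ * γ) • x = x := by rw [mul_smul, h, inv_smul_smul]
    have := hfree _ _ this
    rw [inv_mul_eq_one] at this
    exact this.symm
  choose β hβ using hP_ex
  have hPm : ∀ γ, MeasurableSet {x | P x γ} := by
    intro γ
    have : {x | P x γ} = {x : X | EConn val E x (γ • x)} ∩
        ⋂ γ' : Γ, ({x : X | EConn val E x (γ' • x)}ᶜ ∪ {x | φ (γ • x) ≤ φ (γ' • x)}) := by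
      ext x
      simp only [mem_inter_iff, mem_ofPred_eq, mem_iInter, mem_union, mem_compl_iff, P]
      constructor
      · rintro ⟨h2, h3⟩
        refine ⟨h2, fun γ' => ?_⟩
        by_cases h : EConn val E x (γ' • x)
        · exact Or.inr (h3 γ' h)
        · exact Or.inl h
      · rintro ⟨h2, h3⟩
        refine ⟨h2, fun γ' h => ?_⟩
        rcases h3 γ' with h' | h'
        · exact absurd h h'
        · exact h'
    rw [this]
    refine (measurable_econn hmeas hfree val hEm γ).inter (MeasurableSet.iInter fun γ' => ?_)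
    refine (measurable_econn hmeas hfree val hEm γ').compl.union ?_
    exact measurableSet_le (hφ.measurable.comp (hmeas γ)) (hφ.measurable.comp (hmeas γ'))
  refine ⟨β, fun γ => ?_, fun x => (hβ x).1, fun x i hi => ?_⟩
  · have : {x | β x = γ} = {x | P x γ} := by
      ext x
      constructor
      · rintro rfl
        exact hβ x
      · intro h
        exact hcancel x _ _ (hP_eq x x _ _ ReflTransGen.refl (hβ x) h)
    rw [this]
    exact hPm γ
  · have h := hP_eq x (val i • x) _ _ (ReflTransGen.single ⟨i, hi, rfl⟩) (hβ x) (hβ _)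
    apply hcancel x
    rw [mul_smul]
    exact h.symm

/-- Measurable selection from countably many codes. -/
theorem exists_select {A : Type w} [Countable A] {X : Type v} [MeasurableSpace X] (V : A → Set X)
    (hV : ∀ a, MeasurableSet (V a)) (hex : ∀ x, ∃ a, x ∈ V a) :
    ∃ τ : X → A, (∀ a, MeasurableSet {x | τ x = a}) ∧ ∀ x, x ∈ V (τ x) := by
  classical
  obtain ⟨c, hc⟩ := Countable.exists_injective_nat A
  have hne : ∀ x, ∃ k, ∃ a, c a = k ∧ x ∈ V a := fun x => by
    obtain ⟨a, ha⟩ := hex x
    exact ⟨c a, a, rfl, ha⟩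
  let τ : X → A := fun x => (Nat.find_spec (hne x)).choose
  have hτ : ∀ x, c (τ x) = Nat.find (hne x) ∧ x ∈ V (τ x) := fun x =>
    (Nat.find_spec (hne x)).choose_spec
  refine ⟨τ, fun a => ?_, fun x => (hτ x).2⟩
  have : {x | τ x = a} = V a ∩ ⋂ b : A, ({x | x ∈ V b}ᶜ ∪ {x | c a ≤ c b}) := by
    ext x
    simp only [mem_ofPred_eq, mem_inter_iff, mem_iInter, mem_union, mem_compl_iff]
    constructor
    · rintro rfl
      refine ⟨(hτ x).2, fun b => ?_⟩
      by_cases hb : x ∈ V b
      · right
        rw [(hτ x).1]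
        exact Nat.find_min' (hne x) ⟨b, rfl, hb⟩
      · exact Or.inl hb
    · rintro ⟨h1, h2⟩
      apply hc
      apply le_antisymm
      · rw [(hτ x).1]
        exact Nat.find_min' (hne x) ⟨a, rfl, h1⟩
      · rcases h2 (τ x) with h | h
        · exact absurd (hτ x).2 h
        · exact h
  rw [this]
  exact (hV a).inter (MeasurableSet.iInter fun b => (hV b).compl.union (MeasurableSet.const _))

/-- Rounding in a finite component. -/
theorem local_round [Fintype I] {val : I → Γ} {inv : I → I}
    (hval : ∀ i, val (inv i) = (val i)⁻¹) (hinv : ∀ i, inv (inv i) = i) {E : X → I → Prop}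
    (hEs : ∀ x i, E x i → E (val i • x) (inv i)) {o : X}
    (hfin : {y | EConn val E o y}.Finite) (n : X → ℕ) (f : X → I → ℝ)
    (hf0 : ∀ x i, EConn val E o x → 0 ≤ f x i) (hf1 : ∀ x i, EConn val E o x → f x i ≤ 1)
    (hfs : ∀ x i, EConn val E o x → E x i → f (val i • x) (inv i) = f x i)
    (hfE : ∀ x i, EConn val E o x → ¬ E x i → f x i = 0)
    (hsum : ∀ x, EConn val E o x → ∑ i, f x i = n x) (par : X → Prop)
    (hpar : ∀ x i, EConn val E o x → E x i → (par (val i • x) ↔ ¬ par x)) :
    ∃ F : X → I → Prop, (∀ x i, F x i → E x i) ∧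
      (∀ x i, F x i ↔ F (val i • x) (inv i)) ∧
      ∀ x, EConn val E o x → {i | F x i}.ncard = n x := by
  classical
  let C : Finset X := hfin.toFinset
  have hC : ∀ x, x ∈ C ↔ EConn val E o x := fun x => by simp [C]
  let S : Finset (X × I) := (C ×ˢ Finset.univ).filter (fun e => par e.1 ∧ E e.1 e.2)
  have hS : ∀ x i, (x, i) ∈ S ↔ EConn val E o x ∧ par x ∧ E x i := by
    intro x i
    simp only [S, Finset.mem_filter, Finset.mem_product, Finset.mem_univ, and_true, hC]
  have hback : ∀ (x : X) (i : I), val (inv i) • val i • x = x := fun x i => by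
    rw [hval, inv_smul_smul]
  have hstep : ∀ x i, EConn val E o x → E x i → EConn val E o (val i • x) := fun x i h hi =>
    ReflTransGen.tail h ⟨i, hi, rfl⟩
  obtain ⟨F, hFS, hF1, hF2⟩ := hall_round_finset S (fun e => e.1) (fun e => val e.2 • e.1)
    (fun e => f e.1 e.2) (fun e he => hf0 _ _ ((hS e.1 e.2).mp he).1)
    (fun e he => hf1 _ _ ((hS e.1 e.2).mp he).1)
    (fun x => if EConn val E o x ∧ par x then n x else 0)
    (fun y => if EConn val E o y ∧ ¬ par y then n y else 0)
    (by
      intro x
      by_cases hx : EConn val E o x ∧ par x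
      · rw [if_pos hx, ← hsum x hx.1]
        have e1 : ∑ i, f x i = ∑ i with E x i, f x i := by
          rw [Finset.sum_filter]
          refine Finset.sum_congr rfl fun i _ => ?_
          split_ifs with h
          · rfl
          · exact hfE x i hx.1 h
        rw [e1]
        refine Finset.sum_nbij' (fun e => e.2) (fun i => (x, i)) ?_ ?_ ?_ ?_ ?_
        · rintro ⟨x', i⟩ he
          rw [Finset.mem_filter] at he ⊢
          obtain ⟨he, hxx⟩ := he
          simp only at hxx
          subst hxx
          exact ⟨Finset.mem_univ _, ((hS _ _).mp he).2.2⟩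
        · intro i hi
          rw [Finset.mem_filter] at hi ⊢
          exact ⟨(hS _ _).mpr ⟨hx.1, hx.2, hi.2⟩, rfl⟩
        · rintro ⟨x', i⟩ he
          rw [Finset.mem_filter] at he
          obtain ⟨he, hxx⟩ := he
          simp only at hxx
          subst hxx
          rfl
        · intro i _; rfl
        · rintro ⟨x', i⟩ he
          rw [Finset.mem_filter] at he
          obtain ⟨he, hxx⟩ := he
          simp only at hxx
          subst hxx
          rfl
      · rw [if_neg hx, Nat.cast_zero]
        apply Finset.sum_eq_zero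
        rintro ⟨x', i⟩ he
        rw [Finset.mem_filter] at he
        obtain ⟨he, hxx⟩ := he
        simp only at hxx
        subst hxx
        exact absurd ⟨((hS _ _).mp he).1, ((hS _ _).mp he).2.1⟩ hx)
    (by
      intro y
      by_cases hy : EConn val E o y ∧ ¬ par y
      · rw [if_pos hy, ← hsum y hy.1]
        have e1 : ∑ i, f y i = ∑ i with E y i, f y i := by
          rw [Finset.sum_filter]
          refine Finset.sum_congr rfl fun i _ => ?_
          split_ifs with h
          · rfl
          · exact hfE y i hy.1 h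
        rw [e1]
        refine Finset.sum_nbij' (fun e => inv e.2) (fun j => (val j • y, inv j)) ?_ ?_ ?_ ?_ ?_
        · rintro ⟨x', i⟩ he
          rw [Finset.mem_filter] at he ⊢
          obtain ⟨he, hxx⟩ := he
          simp only at hxx
          subst hxx
          exact ⟨Finset.mem_univ _, hEs _ _ ((hS _ _).mp he).2.2⟩
        · intro j hj
          rw [Finset.mem_filter] at hj ⊢
          refine ⟨(hS _ _).mpr ⟨hstep _ _ hy.1 hj.2, ?_, hEs _ _ hj.2⟩, hback y j⟩
          exact (hpar y j hy.1 hj.2).mpr hy.2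
        · rintro ⟨x', i⟩ he
          rw [Finset.mem_filter] at he
          obtain ⟨he, hxx⟩ := he
          simp only at hxx
          subst hxx
          simp only
          rw [hback, hinv]
        · intro j _
          simp only
          rw [hinv]
        · rintro ⟨x', i⟩ he
          rw [Finset.mem_filter] at he
          obtain ⟨he, hxx⟩ := he
          simp only at hxx
          subst hxx
          simp only
          exact (hfs _ _ ((hS _ _).mp he).1 ((hS _ _).mp he).2.2).symm
      · rw [if_neg hy, Nat.cast_zero]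
        apply Finset.sum_eq_zero
        rintro ⟨x', i⟩ he
        rw [Finset.mem_filter] at he
        obtain ⟨he, hxx⟩ := he
        simp only at hxx
        subst hxx
        have h3 := (hS _ _).mp he
        refine absurd ⟨hstep _ _ h3.1 h3.2.2, ?_⟩ hy
        rw [hpar _ _ h3.1 h3.2.2]
        exact not_not.mpr h3.2.1)
  have hFS' : ∀ x i, (x, i) ∈ F → EConn val E o x ∧ par x ∧ E x i := fun x i h =>
    (hS x i).mp (hFS h)
  let F0 : X → I → Prop := fun x i => (x, i) ∈ F ∨ (val i • x, inv i) ∈ F
  refine ⟨F0, ?_, ?_, ?_⟩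
  · rintro x i (h | h)
    · exact (hFS' _ _ h).2.2
    · have := hEs _ _ (hFS' _ _ h).2.2
      rwa [hback, hinv] at this
  · intro x i
    simp only [F0]
    rw [hback, hinv]
    tauto
  · intro x hx
    by_cases hp : par x
    · have h2 := hF1 x
      rw [if_pos ⟨hx, hp⟩] at h2
      rw [← h2, ← Set.ncard_coe_finset]
      refine Set.ncard_congr (fun i _ => (x, i)) ?_ ?_ ?_
      · intro i hi
        rw [Finset.mem_coe, Finset.mem_filter]
        refine ⟨?_, rfl⟩
        rcases hi with h | h
        · exact h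
        · exfalso
          have h3 := hFS' _ _ h
          have h4 := hEs _ _ h3.2.2
          rw [hback, hinv] at h4
          exact (hpar x i hx h4).mp h3.2.1 hp
      · intro i j _ _ hij
        exact (Prod.mk.injEq _ _ _ _ ▸ hij).2
      · rintro ⟨x', i⟩ he
        rw [Finset.mem_coe, Finset.mem_filter] at he
        obtain ⟨he, hxx⟩ := he
        simp only at hxx
        subst hxx
        exact ⟨i, Or.inl he, rfl⟩
    · have h2 := hF2 x
      rw [if_pos ⟨hx, hp⟩] at h2
      rw [← h2, ← Set.ncard_coe_finset]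
      refine Set.ncard_congr (fun i _ => (val i • x, inv i)) ?_ ?_ ?_
      · intro i hi
        rw [Finset.mem_coe, Finset.mem_filter]
        refine ⟨?_, hback x i⟩
        rcases hi with h | h
        · exact absurd (hFS' _ _ h).2.1 hp
        · exact h
      · intro i j _ _ hij
        have h3 := congrArg Prod.snd hij
        simp only at h3
        rw [← hinv i, h3, hinv]
      · rintro ⟨x', i⟩ he
        rw [Finset.mem_coe, Finset.mem_filter] at he
        obtain ⟨he, hxx⟩ := he
        simp only at hxx
        subst hxx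
        refine ⟨inv i, Or.inr ?_, ?_⟩
        · rw [hback, hinv]; exact he
        · rw [hback, hinv]

/-- **Borel rounding**. -/
theorem borel_round [MeasurableSpace X] [StandardBorelSpace X] [Countable Γ] [Fintype I]
    (hmeas : ∀ γ : Γ, Measurable (fun x : X => γ • x))
    (hfree : ∀ (γ : Γ) (x : X), γ • x = x → γ = 1) {val : I → Γ} {inv : I → I}
    (hval : ∀ i, val (inv i) = (val i)⁻¹) (hinv : ∀ i, inv (inv i) = i) {E : X → I → Prop}
    (hEm : ∀ i, MeasurableSet {x | E x i}) (hEs : ∀ x i, E x i → E (val i • x) (inv i))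
    (hfin : ∀ x, {y | EConn val E x y}.Finite) (n : X → ℕ) (hn : ∀ k, MeasurableSet {x | n x = k})
    (hloc : ∀ o, ∃ (f : X → I → ℝ) (par : X → Prop),
      (∀ x i, EConn val E o x → 0 ≤ f x i) ∧ (∀ x i, EConn val E o x → f x i ≤ 1) ∧
      (∀ x i, EConn val E o x → E x i → f (val i • x) (inv i) = f x i) ∧
      (∀ x i, EConn val E o x → ¬ E x i → f x i = 0) ∧
      (∀ x, EConn val E o x → ∑ i, f x i = n x) ∧
      ∀ x i, EConn val E o x → E x i → (par (val i • x) ↔ ¬ par x)) :
    ∃ F : X → I → Prop, (∀ i, MeasurableSet {x | F x i}) ∧ (∀ x i, F x i → E x i) ∧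
      (∀ x i, F x i ↔ F (val i • x) (inv i)) ∧ ∀ x, {i | F x i}.ncard = n x := by
  classical
  obtain ⟨β, hβm, hβc, hβe⟩ := exists_ebase hmeas hfree hval hEm hEs hfin
  let V : Finset (Γ × I) → Set X := fun σ => {o | ∀ γ : Γ, EConn val E o (γ • o) →
    (∀ i, (γ, i) ∈ σ → E (γ • o) i) ∧
    (∀ i, E (γ • o) i → ((γ, i) ∈ σ ↔ (val i * γ, inv i) ∈ σ)) ∧
    {i | (γ, i) ∈ σ}.ncard = n (γ • o)}
  have hVm : ∀ σ, MeasurableSet (V σ) := by
    intro σ
    have : V σ = ⋂ γ : Γ, ({o | EConn val E o (γ • o)}ᶜ ∪
        ((⋂ i : I, ({o | (γ, i) ∈ σ}ᶜ ∪ (fun o => γ • o) ⁻¹' {x | E x i})) ∩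
        ((⋂ i : I, (((fun o => γ • o) ⁻¹' {x | E x i})ᶜ ∪
          {o | (γ, i) ∈ σ ↔ (val i * γ, inv i) ∈ σ})) ∩
          (fun o => γ • o) ⁻¹' {x | n x = {i | (γ, i) ∈ σ}.ncard}))) := by
      ext o
      simp only [V, mem_ofPred_eq, mem_iInter, mem_union, mem_compl_iff, mem_inter_iff,
        mem_preimage]
      constructor
      · intro h γ
        by_cases hγ : EConn val E o (γ • o)
        · right
          obtain ⟨h1, h2, h3⟩ := h γ hγ
          refine ⟨fun i => ?_, fun i => ?_, h3.symm⟩
          · by_cases h' : (γ, i) ∈ σ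
            · exact Or.inr (h1 i h')
            · exact Or.inl h'
          · by_cases h' : E (γ • o) i
            · exact Or.inr (h2 i h')
            · exact Or.inl h'
        · exact Or.inl hγ
      · intro h γ hγ
        rcases h γ with h' | ⟨h1, h2, h3⟩
        · exact absurd hγ h'
        · refine ⟨fun i hi => ?_, fun i hi => ?_, h3.symm⟩
          · rcases h1 i with h' | h'
            · exact absurd hi h'
            · exact h'
          · rcases h2 i with h' | h'
            · exact absurd hi h'
            · exact h'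
    rw [this]
    refine MeasurableSet.iInter fun γ => ?_
    refine (measurable_econn hmeas hfree val hEm γ).compl.union (MeasurableSet.inter ?_
      (MeasurableSet.inter ?_ ?_))
    · exact MeasurableSet.iInter fun i => (MeasurableSet.const _).compl.union ((hmeas γ) (hEm i))
    · exact MeasurableSet.iInter fun i => ((hmeas γ) (hEm i)).compl.union (MeasurableSet.const _)
    · exact (hmeas γ) (hn _)
  have hVex : ∀ o, ∃ σ, o ∈ V σ := by
    intro o
    obtain ⟨f, par, hf0, hf1, hfs, hfE, hsum, hpar⟩ := hloc o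
    obtain ⟨F, hF1, hF2, hF3⟩ := local_round hval hinv hEs (hfin o) n f hf0 hf1 hfs hfE hsum par
      hpar
    have hσfin : {p : Γ × I | EConn val E o (p.1 • o) ∧ F (p.1 • o) p.2}.Finite := by
      have hinj : InjOn (fun p : Γ × I => (p.1 • o, p.2))
          {p : Γ × I | EConn val E o (p.1 • o) ∧ F (p.1 • o) p.2} := by
        rintro ⟨a, i⟩ _ ⟨b, j⟩ _ hab
        simp only [Prod.mk.injEq] at hab ⊢
        refine ⟨?_, hab.2⟩
        have : (b⁻¹ * a) • o = o := by rw [mul_smul, hab.1, inv_smul_smul]
        have := hfree _ _ this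
        rw [inv_mul_eq_one] at this
        exact this.symm
      refine Set.Finite.of_finite_image ?_ hinj
      refine ((hfin o).prod (Set.finite_univ (α := I))).subset ?_
      rintro _ ⟨p, hp, rfl⟩
      exact ⟨hp.1, Set.mem_univ _⟩
    refine ⟨hσfin.toFinset, ?_⟩
    intro γ hγ
    have hmem : ∀ i, (γ, i) ∈ hσfin.toFinset ↔ F (γ • o) i := by
      intro i
      rw [Set.Finite.mem_toFinset]
      exact ⟨fun h => h.2, fun h => ⟨hγ, h⟩⟩
    refine ⟨fun i hi => hF1 _ _ ((hmem i).mp hi), fun i hi => ?_, ?_⟩
    · rw [hmem, hF2, Set.Finite.mem_toFinset]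
      have e : (val i * γ) • o = val i • γ • o := mul_smul _ _ _
      constructor
      · intro h
        refine ⟨?_, ?_⟩
        · rw [e]
          exact ReflTransGen.tail hγ ⟨i, hi, rfl⟩
        · rw [e]; exact h
      · rintro ⟨_, h⟩
        simp only at h
        rwa [e] at h
    · rw [← hF3 _ hγ]
      congr 1
      ext i
      exact hmem i
  obtain ⟨τ, hτm, hτV⟩ := exists_select V hVm hVex
  have hγo : ∀ x : X, (β x)⁻¹ • β x • x = x := fun x => inv_smul_smul _ _
  have hconn : ∀ x, EConn val E (β x • x) ((β x)⁻¹ • β x • x) := fun x => by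
    rw [hγo]
    exact (hβc x).symm hval hEs
  have hV := fun x => hτV (β x • x) _ (hconn x)
  simp only [hγo] at hV
  let F : X → I → Prop := fun x i => ((β x)⁻¹, i) ∈ τ (β x • x)
  have hFE : ∀ x i, F x i → E x i := fun x i h => (hV x).1 i h
  have hFs : ∀ x i, E x i → (F x i ↔ F (val i • x) (inv i)) := by
    intro x i hi
    have h1 := (hV x).2.1 i hi
    have h2 := hβe x i hi
    have h3 : (β (val i • x))⁻¹ = val i * (β x)⁻¹ := by rw [← h2]; group
    have h4 : β (val i • x) • val i • x = β x • x := by rw [← mul_smul, h2]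
    simp only [F]
    rw [h1, h3, h4]
  refine ⟨F, fun i => ?_, hFE, fun x i => ?_, fun x => ?_⟩
  · have : {x | F x i} = ⋃ γ : Γ, ⋃ σ : Finset (Γ × I), {x | β x = γ} ∩
        ((fun x => γ • x) ⁻¹' {x | τ x = σ}) ∩ {x | (γ⁻¹, i) ∈ σ} := by
      ext x
      simp only [F, mem_ofPred_eq, mem_iUnion, mem_inter_iff, mem_preimage]
      constructor
      · intro h
        exact ⟨β x, τ (β x • x), ⟨rfl, rfl⟩, h⟩
      · rintro ⟨γ, σ, ⟨rfl, rfl⟩, h⟩
        exact h
    rw [this]
    exact MeasurableSet.iUnion fun γ => MeasurableSet.iUnion fun σ =>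
      ((hβm γ).inter ((hmeas γ) (hτm σ))).inter (MeasurableSet.const _)
  · by_cases hi : E x i
    · exact hFs x i hi
    · constructor
      · intro h
        exact absurd (hFE x i h) hi
      · intro h
        have h5 := hEs _ _ (hFE _ _ h)
        rw [hval, inv_smul_smul, hinv] at h5
        exact absurd h5 hi
  · exact (hV x).2.2

end Run7.h916
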