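import Pool.Agent.Run7.h916.Helpers

set_option autoImplicit false
set_option linter.unusedSectionVars false

/-!
Phases in torsion-free groups of class at most two.
-/

namespace Run7.h916

open Subgroup
open scoped Pointwise commutatorElement

universe u v

/-- Torsion-free nilpotent groups of class at most two. -/
structure TF2 (G : Type u) [Group G] : Prop where
  cen : ∀ x y w : G, w * ⁅x, y⁆ = ⁅x, y⁆ * w
  tf : ∀ (g : G) (n : ℤ), g ^ n = 1 → n ≠ 0 → g = 1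

variable {G : Type u} [Group G]

namespace TF2

variable (hG : TF2 G)

include hG

theorem mul_left (x y w : G) : ⁅x * y, w⁆ = ⁅x, w⁆ * ⁅y, w⁆ := by
  have h := hG.cen y w x
  rw [commutatorElement_def, commutatorElement_def, commutatorElement_def] at *
  have e : x * y * w * (x * y)⁻¹ * w⁻¹ = x * (y * w * y⁻¹ * w⁻¹) * (w * x⁻¹ * w⁻¹) := by group
  rw [e, h]
  have h2 := hG.cen y w (x * (w * x⁻¹ * w⁻¹))
  rw [commutatorElement_def] at h2
  have e2 : y * w * y⁻¹ * w⁻¹ * x * (w * x⁻¹ * w⁻¹) =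
      y * w * y⁻¹ * w⁻¹ * (x * (w * x⁻¹ * w⁻¹)) := by group
  rw [e2, ← h2]
  group

/-- The commutator with a fixed element is a homomorphism. -/
def cm (w : G) : G →* G :=
  { toFun := fun x => ⁅x, w⁆
    map_one' := by rw [commutatorElement_one_left]
    map_mul' := fun x y => hG.mul_left x y w }

theorem zpow_left (x w : G) (n : ℤ) : ⁅x ^ n, w⁆ = ⁅x, w⁆ ^ n := map_zpow (hG.cm w) x n

theorem zpow_right (x w : G) (n : ℤ) : ⁅x, w ^ n⁆ = ⁅x, w⁆ ^ n := by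
  rw [← commutatorElement_inv, hG.zpow_left, ← commutatorElement_inv x w, inv_zpow, inv_inv]

theorem comm_iff (x y : G) : x * y = y * x ↔ ⁅x, y⁆ = 1 :=
  (commutatorElement_eq_one_iff_mul_comm).symm

theorem comm_of_zpow {x y : G} {n m : ℤ} (hn : n ≠ 0) (hm : m ≠ 0)
    (h : ⁅x ^ n, y ^ m⁆ = 1) : ⁅x, y⁆ = 1 := by
  rw [hG.zpow_left, hG.zpow_right, ← zpow_mul] at h
  exact hG.tf _ _ h (mul_ne_zero hm hn)

end TF2

/-- Two elements are parallel if they have a common nontrivial power. -/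
def Par (x y : G) : Prop := ∃ m n : ℤ, m ≠ 0 ∧ n ≠ 0 ∧ x ^ m = y ^ n

theorem Par.refl (x : G) : Par x x := ⟨1, 1, one_ne_zero, one_ne_zero, rfl⟩

theorem Par.symm {x y : G} (h : Par x y) : Par y x := by
  obtain ⟨m, n, hm, hn, h⟩ := h
  exact ⟨n, m, hn, hm, h.symm⟩

theorem Par.trans {x y z : G} (h : Par x y) (h' : Par y z) : Par x z := by
  obtain ⟨m, n, hm, hn, h⟩ := h
  obtain ⟨p, q, hp, hq, h'⟩ := h'
  refine ⟨m * p, q * n, mul_ne_zero hm hp, mul_ne_zero hq hn, ?_⟩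
  rw [zpow_mul, h, ← zpow_mul, mul_comm n p, zpow_mul, h', ← zpow_mul]

theorem Par.inv_left {x y : G} (h : Par x y) : Par x⁻¹ y := by
  obtain ⟨m, n, hm, hn, h⟩ := h
  exact ⟨-m, n, neg_ne_zero.mpr hm, hn, by rw [inv_zpow', neg_neg, h]⟩

theorem par_inv_left {x y : G} : Par x⁻¹ y ↔ Par x y :=
  ⟨fun h => by have := h.inv_left; rwa [inv_inv] at this, Par.inv_left⟩

theorem par_inv_right {x y : G} : Par x y⁻¹ ↔ Par x y :=
  ⟨fun h => (par_inv_left.mp h.symm).symm, fun h => (par_inv_left.mpr h.symm).symm⟩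

theorem TF2.indep (hG : TF2 G) {x y : G} (hx : x ≠ 1) (hy : y ≠ 1) (h : ¬ Par x y) {m n : ℤ}
    (e : x ^ m = y ^ n) : m = 0 ∧ n = 0 := by
  by_cases hm : m = 0
  · refine ⟨hm, ?_⟩
    by_contra hn
    rw [hm, zpow_zero] at e
    exact hy (hG.tf _ _ e.symm hn)
  · exfalso
    by_cases hn : n = 0
    · rw [hn, zpow_zero] at e
      exact hx (hG.tf _ _ e hm)
    · exact h ⟨m, n, hm, hn, e⟩

theorem TF2.par_comm (hG : TF2 G) {x y : G} (h : Par x y) : ⁅x, y⁆ = 1 := by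
  obtain ⟨m, n, hm, hn, h⟩ := h
  apply hG.comm_of_zpow hm hn
  rw [h]
  exact commutatorElement_self _

/-- Phases from `exists_phase` on a subgroup commuting with the direction. -/
theorem phaseOn_of_comm {M : Subgroup G} {V : G} (hc : ∀ m ∈ M, V * m = m * V)
    (h : ∀ k : ℤ, V ^ k ∈ M → (2 : ℤ) ∣ k) : ∃ φ, PhaseOn M V φ := by
  obtain ⟨F, h1, h2⟩ := exists_phase M V 2 (fun m hm => by
    rw [hc m hm, mul_inv_cancel_right]; exact hm) (fun m hm => by
    rw [mul_assoc, ← hc m hm, inv_mul_cancel_left]; exact hm) (by exact_mod_cast h)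
  exact ⟨F, h1, h2⟩

/-- The phases of a leaf which commutes with the centre. -/
theorem TF2.phase_comm (hG : TF2 G) {V Z : G} (hV : V ≠ 1) (hZ : Z ≠ 1) (hp : ¬ Par V Z)
    (hc : V * Z = Z * V) : ∃ φ, PhaseOn (zpowers Z) V φ := by
  refine phaseOn_of_comm (fun m hm => ?_) (fun k hk => ?_)
  · obtain ⟨j, rfl⟩ := mem_zpowers_iff.mp hm
    exact (show Commute V Z from hc).zpow_right j
  · obtain ⟨j, hj⟩ := mem_zpowers_iff.mp hk
    rw [(hG.indep hV hZ hp hj.symm).1]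
    exact dvd_zero _

/-- The subgroup generated by the conjugates of `V` by `Z` and `Z⁻¹`. -/
def conjSub (V : G) (Zs : Set G) : Subgroup G :=
  closure {x | ∃ Z ∈ Zs, x = Z⁻¹ * V * Z ∨ x = Z * V * Z⁻¹}

theorem conj_eq (V Z : G) : Z * V * Z⁻¹ = V * ⁅V⁻¹, Z⁆ := by
  rw [commutatorElement_def]; group

theorem TF2.conj_eq' (hG : TF2 G) (V Z : G) : Z * V * Z⁻¹ = V * ⁅Z, V⁆ := by
  have h := hG.cen Z V V
  rw [h, commutatorElement_def]; group

theorem TF2.conj_eq'' (hG : TF2 G) (V Z : G) : Z⁻¹ * V * Z = V * ⁅Z, V⁆⁻¹ := by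
  have h := hG.conj_eq' V Z⁻¹
  rw [inv_inv] at h
  rw [h]
  congr 1
  have := hG.zpow_left Z V (-1)
  rwa [zpow_neg_one, zpow_neg_one] at this

/-- The phases of a leaf of Heisenberg type. -/
theorem TF2.phase_conj (hG : TF2 G) {V Z : G} (hc : ⁅Z, V⁆ ≠ 1) :
    ∃ φ, PhaseOn (conjSub V {Z}) V φ := by
  have hform : ∀ x ∈ conjSub V {Z}, ∃ n m : ℤ, x = V ^ n * ⁅Z, V⁆ ^ m ∧ Even (n + m) := by
    have hcV : ∀ n m : ℤ, ⁅Z, V⁆ ^ m * V ^ n = V ^ n * ⁅Z, V⁆ ^ m := fun n m =>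
      ((show Commute V ⁅Z, V⁆ from hG.cen Z V V).zpow_zpow n m).symm.eq
    intro x hx
    refine closure_induction (p := fun x _ => ∃ n m : ℤ, x = V ^ n * ⁅Z, V⁆ ^ m ∧ Even (n + m))
      ?_ ?_ ?_ ?_ hx
    · rintro x ⟨Z', hZ', hx⟩
      rw [Set.mem_singleton_iff] at hZ'
      rw [hZ'] at hx
      rcases hx with rfl | rfl
      · exact ⟨1, -1, by rw [hG.conj_eq'']; simp, by decide⟩
      · exact ⟨1, 1, by rw [hG.conj_eq']; simp, by decide⟩
    · exact ⟨0, 0, by simp, by simp⟩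
    · rintro x y _ _ ⟨n, m, rfl, h1⟩ ⟨n', m', rfl, h2⟩
      refine ⟨n + n', m + m', ?_, ?_⟩
      · rw [zpow_add, zpow_add]
        have := hcV n' m
        calc V ^ n * ⁅Z, V⁆ ^ m * (V ^ n' * ⁅Z, V⁆ ^ m')
            = V ^ n * (⁅Z, V⁆ ^ m * V ^ n') * ⁅Z, V⁆ ^ m' := by simp only [mul_assoc]
          _ = _ := by rw [this]; simp only [mul_assoc]
      · have : n + n' + (m + m') = (n + m) + (n' + m') := by ring
        rw [this]; exact h1.add h2
    · rintro x _ ⟨n, m, rfl, h1⟩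
      refine ⟨-n, -m, ?_, ?_⟩
      · rw [mul_inv_rev, ← zpow_neg, ← zpow_neg, hcV]
      · have : -n + -m = -(n + m) := by ring
        rw [this]; exact h1.neg
  refine phaseOn_of_comm (fun m hm => ?_) (fun k hk => ?_)
  · obtain ⟨n, l, rfl, _⟩ := hform m hm
    exact (((Commute.refl V).zpow_right n).mul_right
      ((show Commute V ⁅Z, V⁆ from hG.cen Z V V).zpow_right l)).eq
  · obtain ⟨n, l, h, he⟩ := hform _ hk
    have h1 : V ^ (k - n) = ⁅Z, V⁆ ^ l := by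
      rw [sub_eq_neg_add, zpow_add, h, ← mul_assoc, ← zpow_add, neg_add_cancel, zpow_zero,
        one_mul]
    have h2 : ⁅Z, V⁆ ^ (k - n) = 1 := by
      rw [← hG.zpow_right, h1, ← hG.comm_iff]
      exact ((show Commute Z ⁅Z, V⁆ from hG.cen Z V Z).zpow_right l).eq
    have h3 : k - n = 0 := by
      by_contra h3
      exact hc (hG.tf _ _ h2 h3)
    have h4 : l = 0 := by
      by_contra h4
      rw [h3, zpow_zero] at h1
      exact hc (hG.tf _ _ h1.symm h4)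
    rw [h4, add_zero] at he
    have : k = n := by omega
    rw [this]
    exact he.two_dvd

/-- The auxiliary coordinate modulo four. -/
theorem TF2.phase_four (hG : TF2 G) {V Z : G} (hc : ⁅Z, V⁆ ≠ 1) :
    ∃ X : G → ZMod 4, (∀ g, X (V * g) = X g + 1) ∧ ∀ g, X (Z⁻¹ * V * Z * g) = X g := by
  have hcomm : V * (Z⁻¹ * V * Z) = (Z⁻¹ * V * Z) * V := by
    rw [hG.conj_eq'']
    exact (((Commute.refl V).mul_right
      ((show Commute V ⁅Z, V⁆ from hG.cen Z V V).inv_right))).eq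
  obtain ⟨X, h1, h2⟩ := exists_phase (zpowers (Z⁻¹ * V * Z)) V 4 (fun m hm => by
    obtain ⟨j, rfl⟩ := mem_zpowers_iff.mp hm
    rw [((show Commute V (Z⁻¹ * V * Z) from hcomm).zpow_right j).eq, mul_inv_cancel_right]
    exact hm) (fun m hm => by
    obtain ⟨j, rfl⟩ := mem_zpowers_iff.mp hm
    have e := ((show Commute V (Z⁻¹ * V * Z) from hcomm).zpow_right j).eq
    have e2 : V⁻¹ * (Z⁻¹ * V * Z) ^ j * V = (Z⁻¹ * V * Z) ^ j := by
      rw [mul_assoc V⁻¹, ← e, inv_mul_cancel_left]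
    rw [e2]
    exact hm) (fun k hk => by
    obtain ⟨j, hj⟩ := mem_zpowers_iff.mp hk
    have e : (Z⁻¹ * V * Z) ^ j = V ^ j * ⁅Z, V⁆ ^ (-j) := by
      rw [hG.conj_eq'', (show Commute V ⁅Z, V⁆⁻¹ from
        (show Commute V ⁅Z, V⁆ from hG.cen Z V V).inv_right).mul_zpow, inv_zpow']
    rw [e] at hj
    have h1 : V ^ (k - j) = ⁅Z, V⁆ ^ (-j) := by
      rw [sub_eq_neg_add, zpow_add, ← hj, ← mul_assoc, ← zpow_add, neg_add_cancel, zpow_zero,
        one_mul]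
    have h2 : ⁅Z, V⁆ ^ (k - j) = 1 := by
      rw [← hG.zpow_right, h1, ← hG.comm_iff]
      exact ((show Commute Z ⁅Z, V⁆ from hG.cen Z V Z).zpow_right (-j)).eq
    have h3 : k - j = 0 := by
      by_contra h3
      exact hc (hG.tf _ _ h2 h3)
    have h4 : -j = 0 := by
      by_contra h4
      rw [h3, zpow_zero] at h1
      exact hc (hG.tf _ _ h1.symm h4)
    have : k = 0 := by omega
    rw [this]
    exact dvd_zero _)
  exact ⟨X, h1, fun g => h2 _ (mem_zpowers _) g⟩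

/-- The subgroup of invariance of the centre of a star. -/
def cenSub (Z : G) (Vs : Set G) : Subgroup G :=
  closure (Vs ∪ {x | ∃ V ∈ Vs, x = ⁅Z, V⁆})

theorem TF2.cenSub_conj (hG : TF2 G) (Z : G) (Vs : Set G) :
    ∀ m ∈ cenSub Z Vs, Z * m * Z⁻¹ ∈ cenSub Z Vs := by
  have hgenV : ∀ V ∈ Vs, V ∈ cenSub Z Vs := fun V hV => subset_closure (Or.inl hV)
  have hgenC : ∀ V ∈ Vs, ⁅Z, V⁆ ∈ cenSub Z Vs := fun V hV => subset_closure (Or.inr ⟨V, hV, rfl⟩)
  intro m hm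
  refine closure_induction (p := fun m _ => Z * m * Z⁻¹ ∈ cenSub Z Vs) ?_ ?_ ?_ ?_ hm
  · rintro x (hx | ⟨V, hV, rfl⟩)
    · rw [hG.conj_eq']
      exact mul_mem (hgenV x hx) (hgenC x hx)
    · rw [hG.cen Z V Z, mul_inv_cancel_right]
      exact hgenC V hV
  · rw [mul_one, mul_inv_cancel]; exact one_mem _
  · intro x y _ _ hx hy
    have : Z * (x * y) * Z⁻¹ = (Z * x * Z⁻¹) * (Z * y * Z⁻¹) := by group
    rw [this]; exact mul_mem hx hy
  · intro x _ hx
    have : Z * x⁻¹ * Z⁻¹ = (Z * x * Z⁻¹)⁻¹ := by group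
    rw [this]; exact inv_mem hx

theorem TF2.cenSub_conj' (hG : TF2 G) (Z : G) (Vs : Set G) :
    ∀ m ∈ cenSub Z Vs, Z⁻¹ * m * Z ∈ cenSub Z Vs := by
  have hgenV : ∀ V ∈ Vs, V ∈ cenSub Z Vs := fun V hV => subset_closure (Or.inl hV)
  have hgenC : ∀ V ∈ Vs, ⁅Z, V⁆ ∈ cenSub Z Vs := fun V hV => subset_closure (Or.inr ⟨V, hV, rfl⟩)
  intro m hm
  refine closure_induction (p := fun m _ => Z⁻¹ * m * Z ∈ cenSub Z Vs) ?_ ?_ ?_ ?_ hm
  · rintro x (hx | ⟨V, hV, rfl⟩)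
    · rw [hG.conj_eq'']
      exact mul_mem (hgenV x hx) (inv_mem (hgenC x hx))
    · rw [mul_assoc, ← hG.cen Z V Z, inv_mul_cancel_left]
      exact hgenC V hV
  · rw [mul_one, inv_mul_cancel]; exact one_mem _
  · intro x y _ _ hx hy
    have : Z⁻¹ * (x * y) * Z = (Z⁻¹ * x * Z) * (Z⁻¹ * y * Z) := by group
    rw [this]; exact mul_mem hx hy
  · intro x _ hx
    have : Z⁻¹ * x⁻¹ * Z = (Z⁻¹ * x * Z)⁻¹ := by group
    rw [this]; exact inv_mem hx

theorem TF2.phase_of_dvd (hG : TF2 G) {Z : G} {Vs : Set G}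
    (h : ∀ k : ℤ, Z ^ k ∈ cenSub Z Vs → (2 : ℤ) ∣ k) : ∃ φ, PhaseOn (cenSub Z Vs) Z φ := by
  obtain ⟨F, h1, h2⟩ := exists_phase (cenSub Z Vs) Z 2 (hG.cenSub_conj Z Vs)
    (hG.cenSub_conj' Z Vs) (by exact_mod_cast h)
  exact ⟨F, h1, h2⟩

/-- The phases of the centre of a star with parallel leaves. -/
theorem TF2.phase_cen (hG : TF2 G) {Z : G} (hZ : Z ≠ 1) {Vs : Set G} {V0 : G} (hV0 : V0 ∈ Vs)
    (hVs1 : V0 ≠ 1) (hpar : ∀ V ∈ Vs, Par V V0) (hnp : ¬ Par V0 Z) :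
    ∃ φ, PhaseOn (cenSub Z Vs) Z φ := by
  -- commutation with `V0`
  have hcV0 : ∀ m ∈ cenSub Z Vs, ⁅m, V0⁆ = 1 := by
    intro m hm
    have hle : cenSub Z Vs ≤ (hG.cm V0).ker := by
      unfold cenSub
      rw [closure_le]
      rintro x (hx | ⟨V, _, rfl⟩)
      · exact hG.par_comm (hpar x hx)
      · show ⁅⁅Z, V⁆, V0⁆ = 1
        rw [← hG.comm_iff]
        exact (hG.cen Z V V0).symm
    exact hle hm
  refine hG.phase_of_dvd (fun k hk => by
    have h1 : ⁅Z, V0⁆ ^ k = 1 := by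
      rw [← hG.zpow_left]; exact hcV0 _ hk
    by_cases hc0 : ⁅Z, V0⁆ = 1
    · -- everything commutes with `Z`
      have hpow : ∀ m ∈ cenSub Z Vs, ∃ n a : ℤ, n ≠ 0 ∧ m ^ n = V0 ^ a := by
        intro m hm
        refine closure_induction (p := fun m _ => ∃ n a : ℤ, n ≠ 0 ∧ m ^ n = V0 ^ a)
          ?_ ?_ ?_ ?_ hm
        · rintro x (hx | ⟨V, hV, rfl⟩)
          · obtain ⟨n, a, hn, _, h⟩ := hpar x hx
            exact ⟨n, a, hn, h⟩
          · obtain ⟨n, a, hn, ha, h⟩ := hpar V hV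
            have : ⁅Z, V⁆ = 1 := by
              have h3 : ⁅Z, V⁆ ^ n = 1 := by
                rw [← hG.zpow_right, h, hG.zpow_right, hc0, one_zpow]
              exact hG.tf _ _ h3 hn
            exact ⟨1, 0, one_ne_zero, by rw [this]; simp⟩
        · exact ⟨1, 0, one_ne_zero, by simp⟩
        · rintro x y _ _ ⟨n, a, hn, hx⟩ ⟨n', a', hn', hy⟩
          have hxy : ⁅x, y⁆ = 1 := by
            apply hG.comm_of_zpow hn hn'
            rw [hx, hy, ← hG.comm_iff, ← zpow_add, ← zpow_add, add_comm]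
          have hxy' : Commute x y := (hG.comm_iff x y).mpr hxy
          refine ⟨n * n', a * n' + a' * n, mul_ne_zero hn hn', ?_⟩
          rw [hxy'.mul_zpow, zpow_mul, hx, mul_comm n n', zpow_mul, hy, ← zpow_mul, ← zpow_mul,
            zpow_add]
        · rintro x _ ⟨n, a, hn, hx⟩
          exact ⟨n, -a, hn, by rw [inv_zpow, hx, zpow_neg]⟩
      obtain ⟨n, a, hn, h⟩ := hpow _ hk
      rw [← zpow_mul] at h
      have := (hG.indep hVs1 hZ hnp h.symm).2
      have : k = 0 := by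
        rcases mul_eq_zero.mp this with h | h
        · exact h
        · exact absurd h hn
      rw [this]
      exact dvd_zero _
    · have : k = 0 := by
        by_contra h3
        exact hc0 (hG.tf _ _ h1 h3)
      rw [this]
      exact dvd_zero _)

end Run7.h916
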