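import Pool.Agent.Run7.h916.TwoEnded

set_option autoImplicit false
set_option linter.unusedSectionVars false

/-!
Partners of finite order.
-/

namespace Run7.h916

open Set Relation
open scoped Pointwise

universe u v

variable {Γ : Type u} [Group Γ]

/-- The data needed to change the phase of `v` with the help of `z`. -/
def PartnerData (v z : Γ) (ε : ZMod 2) : Prop :=
  (∃ φ : Γ → ZMod 2, (∀ γ, φ (v * γ) = φ γ + 1) ∧ ∀ γ, φ (z * γ) = φ γ + ε) ∧
    ∀ w : Γ, (w = v ∨ w = v⁻¹) → ∃ K : Subgroup Γ, Finite K ∧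
      (ε = 0 → z ∈ K ∧ w⁻¹ * z * w ∈ K) ∧ (ε = 1 → z * w ∈ K ∧ z⁻¹ * w ∈ K)

theorem PartnerData.inv {v z : Γ} {ε : ZMod 2} (h : PartnerData v z ε) :
    PartnerData v⁻¹ z ε := by
  obtain ⟨⟨φ, h1, h2⟩, h3⟩ := h
  refine ⟨⟨φ, phase_inv h1, h2⟩, fun w hw => h3 w ?_⟩
  rw [inv_inv] at hw
  exact hw.symm

/-- A representative of the pair `s`, `s⁻¹`. -/
noncomputable def rep (s : Γ) : Γ := by
  classical
  exact if WellOrderingRel s s⁻¹ then s else s⁻¹

theorem rep_inv (s : Γ) : rep s⁻¹ = rep s := by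
  classical
  simp only [rep, inv_inv]
  rcases trichotomous_of WellOrderingRel s s⁻¹ with h | h | h
  · rw [if_pos h, if_neg (fun h' => asymm_of WellOrderingRel h h')]
  · have e : s⁻¹ = s := h.symm
    simp only [e]
  · rw [if_pos h, if_neg (fun h' => asymm_of WellOrderingRel h h')]

theorem rep_eq (s : Γ) : rep s = s ∨ rep s = s⁻¹ := by
  classical
  simp only [rep]
  split_ifs
  · exact Or.inl rfl
  · exact Or.inr rfl

/-- A block in which every direction of infinite order has a partner of finite order. -/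
theorem flexible_partner {S : Set Γ} (hSf : S.Finite) (hS : ∀ s ∈ S, s⁻¹ ∈ S)
    (hodd : ∀ s ∈ S, ¬ Odd (orderOf s))
    (hrel : ∀ v ∈ S, ¬ IsOfFinOrder v → ∃ z ∈ S, IsOfFinOrder z ∧ ∃ ε, PartnerData v z ε) :
    Flexible S := by
  classical
  have one_add : (1 : ZMod 2) + 1 = 0 := by decide
  -- choose the partners
  have hch : ∀ v : Γ, ∃ z : Γ, ∃ ε : ZMod 2, v ∈ S → ¬ IsOfFinOrder v →
      z ∈ S ∧ IsOfFinOrder z ∧ PartnerData v z ε := by
    intro v
    by_cases h : v ∈ S ∧ ¬ IsOfFinOrder v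
    · obtain ⟨z, hz, hzf, ε, hε⟩ := hrel v h.1 h.2
      exact ⟨z, ε, fun _ _ => ⟨hz, hzf, hε⟩⟩
    · exact ⟨1, 0, fun h1 h2 => absurd ⟨h1, h2⟩ h⟩
  choose zz0 ee0 hze0 using hch
  let zz : Γ → Γ := fun s => zz0 (rep s)
  let ee : Γ → ZMod 2 := fun s => ee0 (rep s)
  have hzz : ∀ s, zz s⁻¹ = zz s := fun s => by simp only [zz, rep_inv]
  have hee : ∀ s, ee s⁻¹ = ee s := fun s => by simp only [ee, rep_inv]
  have hze : ∀ v ∈ S, ¬ IsOfFinOrder v → zz v ∈ S ∧ IsOfFinOrder (zz v) ∧
      PartnerData v (zz v) (ee v) := by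
    intro v hv hvi
    rcases rep_eq v with h | h
    · have := hze0 v hv hvi
      simp only [zz, ee, h]
      exact this
    · have := hze0 v⁻¹ (hS v hv) (by rwa [isOfFinOrder_inv_iff])
      simp only [zz, ee, h]
      refine ⟨this.1, this.2.1, ?_⟩
      have := this.2.2.inv
      rwa [inv_inv] at this
  let P : Γ → Set (Γ → ZMod 2) := fun s => {φ | (s ≠ s⁻¹ → ∀ γ, φ (s * γ) = φ γ + 1) ∧
    (¬ IsOfFinOrder s → ∀ γ, φ (zz s * γ) = φ γ + ee s)}
  have hPdef : ∀ s φ, φ ∈ P s ↔ (s ≠ s⁻¹ → ∀ γ, φ (s * γ) = φ γ + 1) ∧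
    (¬ IsOfFinOrder s → ∀ γ, φ (zz s * γ) = φ γ + ee s) := fun s φ => Iff.rfl
  refine flexible_of_flips hSf hS P (fun s hs φ hφ => hφ.1) ?_ ?_ ?_ ?_
  · intro s hs
    ext φ
    rw [hPdef, hPdef, inv_inv, isOfFinOrder_inv_iff, hzz, hee]
    constructor
    · rintro ⟨h1, h2⟩
      exact ⟨fun hs' => phase_inv_iff.mp (h1 (Ne.symm hs')), h2⟩
    · rintro ⟨h1, h2⟩
      exact ⟨fun hs' => phase_inv_iff.mpr (h1 (Ne.symm hs')), h2⟩
  · intro s hs φ hφ g
    rw [hPdef] at hφ ⊢
    refine ⟨fun h γ => ?_, fun h γ => ?_⟩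
    · rw [mul_assoc, hφ.1 h]
    · rw [mul_assoc, hφ.2 h]
  · intro s hs
    by_cases hs1 : IsOfFinOrder s
    · obtain ⟨φ, hφ⟩ := torsion_phase (hodd s hs)
      exact ⟨φ, fun _ => hφ, fun h => absurd hs1 h⟩
    · obtain ⟨_, _, ⟨φ, h1, h2⟩, _⟩ := hze s hs hs1
      exact ⟨φ, fun _ => h1, fun _ => h2⟩
  · intro v hv hvv
    by_cases hv1 : IsOfFinOrder v
    · refine ⟨1, Subgroup.zpowers v, finite_zpowers.mpr hv1, fun f hf φ hφ => ?_⟩
      refine flip_torsion hS ⟨hf.inv, fun s hs hss γ => (hf.mem s hs).1 hss γ⟩ hv hvv (hφ.1 hvv)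
    · obtain ⟨hz, hzf, _, hK⟩ := hze v hv hv1
      set z := zz v with hzdef
      have hvz : v ≠ z := fun h => hv1 (h ▸ hzf)
      have hvz' : v⁻¹ ≠ z := fun h => hv1 (isOfFinOrder_inv_iff.mp (h ▸ hzf))
      obtain ⟨K1, hK1, hK10, hK11⟩ := hK v (Or.inl rfl)
      obtain ⟨K2, hK2, hK20, hK21⟩ := hK v⁻¹ (Or.inr rfl)
      set F : Set Γ := ({1, v} * (K1 : Set Γ)) ∪ ({1, v⁻¹} * (K2 : Set Γ)) with hFdef
      have hFfin : F.Finite := by
        refine Set.Finite.union ?_ ?_
        · exact (Set.toFinite _).mul (Set.toFinite _)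
        · exact (Set.toFinite _).mul (Set.toFinite _)
      have h1F : (1 : Γ) ∈ F := Or.inl ⟨1, by simp, 1, K1.one_mem, by simp⟩
      refine ⟨3, _, finite_quot hFfin, fun f hf φ hφ => ?_⟩
      have hph : IsPhase S f := ⟨hf.inv, fun s hs hss γ => (hf.mem s hs).1 hss γ⟩
      have hfv := hf.mem v hv
      have hcase : ∀ (w : Γ) (K : Subgroup Γ), (ee v = 0 → z ∈ K ∧ w⁻¹ * z * w ∈ K) →
          (ee v = 1 → z * w ∈ K ∧ z⁻¹ * w ∈ K) →
          ((∀ γ, f v (z * γ) = f v γ) ∧ z ∈ K ∧ w⁻¹ * z * w ∈ K) ∨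
            ((∀ γ, f v (z * γ) = f v γ + 1) ∧ z * w ∈ K ∧ z⁻¹ * w ∈ K) := by
        intro w K h0 h1
        rcases zmod2_cases (ee v) with h | h
        · left
          refine ⟨fun γ => ?_, h0 h⟩
          rw [hfv.2 hv1, h, add_zero]
        · right
          refine ⟨fun γ => ?_, h1 h⟩
          rw [hfv.2 hv1, h]
      refine flip_perm (F := F) hS hph hv hz hvv hvz hvz' (hφ.1 hvv) h1F
        (fun a ha b hb => ⟨a, ha, b, hb, rfl⟩) ?_ ?_ ?_
      · intro γ
        rw [hφ.2 hv1, hfv.2 hv1]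
        constructor
        · intro h3 h4; exact h3 (by rw [h4])
        · intro h3 h4; exact h3 (add_right_cancel h4)
      · exact (cross_fin (hfv.1 hvv) K1 (hcase v K1 hK10 hK11) _).mono
          Set.subset_union_left le_rfl
      · exact (cross_fin (phase_inv (hfv.1 hvv)) K2 (hcase v⁻¹ K2 hK20 hK21) _).mono
          Set.subset_union_right le_rfl

/-- Coordinates along the right cosets of a subgroup. -/
theorem exists_coord (H : Subgroup Γ) : ∃ ρ : Γ → H, ∀ (h : H) (γ : Γ), ρ (h * γ) = h * ρ γ := by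
  classical
  let q : Γ → Γ := fun γ => Quotient.out (Quotient.mk (QuotientGroup.rightRel H) γ)
  have hq : ∀ γ, γ * (q γ)⁻¹ ∈ H := by
    intro γ
    have : (QuotientGroup.rightRel H).r (q γ) γ := Quotient.exact (Quotient.out_eq _)
    exact QuotientGroup.rightRel_apply.mp this
  have hqe : ∀ (h : H) γ, q (h * γ) = q γ := by
    intro h γ
    have : Quotient.mk (QuotientGroup.rightRel H) ((h : Γ) * γ) =
        Quotient.mk (QuotientGroup.rightRel H) γ := by
      apply Quotient.sound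
      apply QuotientGroup.rightRel_apply.mpr
      rw [mul_inv_rev, ← mul_assoc, mul_inv_cancel, one_mul]
      exact inv_mem h.2
    simp only [q, this]
  refine ⟨fun γ => ⟨γ * (q γ)⁻¹, hq γ⟩, fun h γ => ?_⟩
  apply Subtype.ext
  simp only [hqe, Subgroup.coe_mul, mul_assoc]

/-- Partner data pass from a subgroup to the group. -/
theorem PartnerData.of_subgroup {H : Subgroup Γ} {v z : H} {ε : ZMod 2}
    (h : PartnerData v z ε) : PartnerData (v : Γ) (z : Γ) ε := by
  obtain ⟨ρ, hρ⟩ := exists_coord H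
  obtain ⟨⟨φ, h1, h2⟩, h3⟩ := h
  refine ⟨⟨fun γ => φ (ρ γ), fun γ => ?_, fun γ => ?_⟩, ?_⟩
  · simp only [hρ, h1]
  · simp only [hρ, h2]
  · intro w hw
    have : ∃ w' : H, (w' : Γ) = w ∧ (w' = v ∨ w' = v⁻¹) := by
      rcases hw with rfl | rfl
      · exact ⟨v, rfl, Or.inl rfl⟩
      · exact ⟨v⁻¹, by simp, Or.inr rfl⟩
    obtain ⟨w', rfl, hw'⟩ := this
    obtain ⟨K, hK, hK0, hK1⟩ := h3 w' hw'
    refine ⟨K.map H.subtype, ?_, ?_, ?_⟩
    · have hinj : Function.Injective H.subtype := Subtype.val_injective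
      exact Finite.of_equiv _ (K.equivMapOfInjective H.subtype hinj).toEquiv
    · intro hε
      exact ⟨⟨z, (hK0 hε).1, rfl⟩, ⟨_, (hK0 hε).2, by simp⟩⟩
    · intro hε
      exact ⟨⟨_, (hK1 hε).1, by simp⟩, ⟨_, (hK1 hε).2, by simp⟩⟩

theorem partnerData_of_normal {L : Subgroup Γ} [hLn : L.Normal] (hL : IsLocallyFinite L)
    {v z : Γ} (hz : IsOfFinOrder z) (hv : ¬ IsOfFinOrder v)
    (hrel : z * v * z⁻¹ * v⁻¹ ∈ L ∨ z * v * z⁻¹ * v ∈ L) : ∃ ε, PartnerData v z ε := by
  have h01 : (0 : ZMod 2) ≠ 1 := by decide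
  rcases hrel with h | h
  · refine ⟨0, ?_, fun w hw => ?_⟩
    · obtain ⟨φ, h1, h2⟩ := pivot_phase_comm hL hz hv h
      exact ⟨φ, h1, fun γ => by rw [h2, add_zero]⟩
    · have hw' : z * w * z⁻¹ * w⁻¹ ∈ L := by
        rcases hw with rfl | rfl
        · exact h
        · exact comm_mem_inv h
      refine ⟨_, pivot_finite_comm hL hz hw', fun _ => ⟨?_, ?_⟩, fun h' => absurd h' h01⟩
      · exact Subgroup.subset_closure (by simp)
      · exact Subgroup.subset_closure (by simp)
  · refine ⟨1, ?_, fun w hw => ?_⟩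
    · exact pivot_phase_inv hL hz hv h
    · have hw' : z * w * z⁻¹ * w ∈ L := by
        rcases hw with rfl | rfl
        · exact h
        · exact inv_mem_inv h
      refine ⟨_, pivot_finite_inv hL hz hw', fun h' => absurd h'.symm h01, fun _ => ⟨?_, ?_⟩⟩
      · exact Subgroup.subset_closure (by simp)
      · exact Subgroup.subset_closure (by simp)

theorem isOfFinOrder_subgroup {H : Subgroup Γ} {x : H} :
    IsOfFinOrder x ↔ IsOfFinOrder (x : Γ) :=
  ⟨fun h => MonoidHom.isOfFinOrder H.subtype h, fun h => by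
    rw [isOfFinOrder_iff_pow_eq_one] at h ⊢
    obtain ⟨n, hn, h⟩ := h
    exact ⟨n, hn, Subtype.ext (by simpa using h)⟩⟩

/-- In a finite extension of `ℤ` an element of finite order lies in a finite normal subgroup. -/
theorem mem_of_finiteExtension {G : Type u} [Group G] (h : FiniteExtensionOfInt G) :
    ∃ L : Subgroup G, L.Normal ∧ IsLocallyFinite L ∧ ∀ z : G, IsOfFinOrder z → z ∈ L := by
  obtain ⟨Δ, hn, hfin, ⟨e⟩⟩ := h
  refine ⟨Δ, hn, ?_, ?_⟩
  · intro K hK _
    exact Finite.of_injective (Subgroup.inclusion hK) (Subgroup.inclusion_injective hK)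
  · intro z hz
    have h1 : IsOfFinOrder (e (QuotientGroup.mk' Δ z)) :=
      MonoidHom.isOfFinOrder e.toMonoidHom (MonoidHom.isOfFinOrder _ hz)
    have h2 : e (QuotientGroup.mk' Δ z) = 1 := by
      rw [isOfFinOrder_iff_pow_eq_one] at h1
      obtain ⟨n, hn', h1⟩ := h1
      have := congrArg Multiplicative.toAdd h1
      rw [toAdd_pow, toAdd_one] at this
      have h3 : Multiplicative.toAdd (e (QuotientGroup.mk' Δ z)) = 0 := by
        rw [nsmul_eq_mul] at this
        rcases mul_eq_zero.mp this with h | h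
        · exfalso
          have : n = 0 := by exact_mod_cast h
          omega
        · exact h
      exact h3
    have h3 : QuotientGroup.mk' Δ z = 1 := by
      have := congrArg e.symm h2
      simpa using this
    exact (QuotientGroup.eq_one_iff z).mp h3

/-- The partner theorem: every direction `v` of infinite order has a partner `z` of finite order
such that `⟨v, z⟩` is virtually infinite cyclic, or `z` lies in a locally finite normal subgroup
of `⟨v, z⟩`. -/
theorem chromaticIndex_partner {X : Type v} [MulAction Γ X] [MeasurableSpace X]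
    [StandardBorelSpace X] {S : Finset Γ} (hS : IsMarking S) (hH : HypH S X)
    (hrel : ∀ v ∈ S, ¬ IsOfFinOrder v → ∃ z ∈ S, IsOfFinOrder z ∧
      (VirtuallyInfiniteCyclic (Subgroup.closure {v, z} : Subgroup Γ) ∨
        ∃ L : Subgroup (Subgroup.closure {v, z} : Subgroup Γ), L.Normal ∧ IsLocallyFinite L ∧
          ∃ y ∈ L, (y : Γ) = z)) :
    borelChromaticIndex (schreierGraph S X) = S.card := by
  refine chromaticIndex_eq_of_blocks hS hH (ι := Unit) (B := fun _ => (S : Set Γ)) ?_ ?_ ?_ ?_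
  · intro i j s _ _
    rfl
  · intro _ s hs
    exact hS.inv_mem s hs
  · exact Set.iUnion_const _
  · intro _
    refine flexible_partner S.finite_toSet hS.inv_mem hH.not_odd fun v hv hvi => ?_
    obtain ⟨z, hz, hzf, hor⟩ := hrel v hv hvi
    refine ⟨z, hz, hzf, ?_⟩
    set H : Subgroup Γ := Subgroup.closure {v, z} with hHdef
    have hvH : v ∈ H := Subgroup.subset_closure (by simp)
    have hzH : z ∈ H := Subgroup.subset_closure (by simp)
    let v' : H := ⟨v, hvH⟩
    let z' : H := ⟨z, hzH⟩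
    have hv' : ¬ IsOfFinOrder v' := fun h => hvi (isOfFinOrder_subgroup.mp h)
    have hz' : IsOfFinOrder z' := isOfFinOrder_subgroup.mpr hzf
    -- a locally finite normal subgroup containing `z'`
    have hcomm : ∀ L : Subgroup H, L.Normal → IsLocallyFinite L → z' ∈ L →
        ∃ ε, PartnerData v z ε := by
      intro L hLn hL hzL
      obtain ⟨ε, hε⟩ := partnerData_of_normal hL hz' hv' (Or.inl (by
        have := L.mul_mem hzL (hLn.conj_mem _ (L.inv_mem hzL) v')
        have e : z' * v' * z'⁻¹ * v'⁻¹ = z' * (v' * z'⁻¹ * v'⁻¹) := by group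
        rw [e]; exact this))
      exact ⟨ε, hε.of_subgroup⟩
    rcases hor with hvc | ⟨L, hLn, hL, y, hy, hyz⟩
    · by_cases hfe : FiniteExtensionOfInt H
      · obtain ⟨L, hLn, hL, hmem⟩ := mem_of_finiteExtension hfe
        exact hcomm L hLn hL (hmem z' hz')
      · have hgen : Subgroup.closure ({v', z'} : Set H) = ⊤ := by
          have h1 : ({v', z'} : Set H) = Subtype.val ⁻¹' ({v, z} : Set Γ) := by
            ext x
            simp only [Set.mem_insert_iff, Set.mem_singleton_iff, Set.mem_preimage]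
            constructor
            · rintro (rfl | rfl)
              · exact Or.inl rfl
              · exact Or.inr rfl
            · rintro (h | h)
              · exact Or.inl (Subtype.ext h)
              · exact Or.inr (Subtype.ext h)
          rw [h1]
          exact Subgroup.closure_closure_coe_preimage
        obtain ⟨L, hLn, hL, z1, hz1, hz1f, hz1r⟩ := two_ended_structure hgen hvc hfe
        have : z1 = z' := by
          rcases hz1 with h | h
          · exact absurd (h ▸ hz1f) hv'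
          · exact h
        rw [this] at hz1r
        obtain ⟨ε, hε⟩ := partnerData_of_normal hL hz' hv' (Or.inr (hz1r v' hv'))
        exact ⟨ε, hε.of_subgroup⟩
    · have : y = z' := Subtype.ext hyz
      exact hcomm L hLn hL (this ▸ hy)

end Run7.h916
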