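import Pool.Agent.Run7.h916.ZoneFactor
import Pool.Agent.Run7.h916.Partner

set_option autoImplicit false
set_option linter.unusedSectionVars false
set_option linter.unusedVariables false

/-!
Division of a block of directions into classes with finite components, and the colouring of the
block.
-/

namespace Run7.h916

open Set Relation
open scoped Pointwise

universe u v w

variable {Γ : Type u} [Group Γ] {X : Type v} [MulAction Γ X]

theorem rep_rep (s : Γ) : rep (rep s) = rep s := by
  rcases rep_eq s with h | h
  · rw [h]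
    exact h
  · rw [h, rep_inv]
    exact h

/-- A division of the directions of a block at every point into pairs, with finite components. -/
structure Classes (B : Finset Γ) (X : Type v) [MulAction Γ X] [MeasurableSpace X]
    (cls : X → Γ → Γ) : Prop where
  /-- The division is Borel. -/
  meas : ∀ s c, MeasurableSet {x | cls x s = c}
  /-- The classes are named by representatives. -/
  mem : ∀ x, ∀ s ∈ B, cls x s ∈ B ∧ rep (cls x s) = cls x s
  /-- The division is symmetric. -/
  symm : ∀ x, ∀ s ∈ B, cls (s • x) s⁻¹ = cls x s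
  /-- Every class has two directions at every point. -/
  two : ∀ x, ∀ c ∈ B, rep c = c → {s | s ∈ B ∧ cls x s = c}.ncard = 2
  /-- The components of every class are finite. -/
  fin : ∀ c ∈ B, rep c = c → ∀ x,
    {y | EConn (fun s : B => (s : Γ)) (fun x (s : B) => cls x s = c) x y}.Finite

/-- The block can be coloured if it has a division into classes and a parity. -/
theorem block_of_classes [MeasurableSpace X] [StandardBorelSpace X] [Countable Γ]
    (hX : IsFreeBorel Γ X) {B : Finset Γ} (hB : ∀ s ∈ B, s⁻¹ ∈ B) (hne : ∀ s ∈ B, s ≠ s⁻¹)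
    {cls : X → Γ → Γ} (hc : Classes B X cls)
    (hpar : ∀ o : X, ∃ par : X → Prop, ∀ x, ∀ s ∈ B,
      (∃ γ ∈ Subgroup.closure (B : Set Γ), γ • o = x) → (par (s • x) ↔ ¬ par x)) :
    BorelBlock (B : Set Γ) X := by
  classical
  let inv : B → B := fun s => ⟨(s : Γ)⁻¹, hB s s.2⟩
  have hval : ∀ i : B, ((inv i : B) : Γ) = (i : Γ)⁻¹ := fun i => rfl
  have hinv : ∀ i, inv (inv i) = i := fun i => Subtype.ext (inv_inv _)
  have hround : ∀ c : Γ, ∃ M : X → B → Prop, (∀ i, MeasurableSet {x | M x i}) ∧
      (c ∈ B → rep c = c → (∀ x i, M x i → cls x i = c) ∧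
      (∀ x i, M x i ↔ M ((i : Γ) • x) (inv i)) ∧ ∀ x, {i | M x i}.ncard = 1) := by
    intro c
    by_cases h : c ∈ B ∧ rep c = c
    · obtain ⟨hcB, hcr⟩ := h
      have hEs : ∀ x (i : B), cls x i = c → cls ((i : Γ) • x) (inv i) = c := by
        intro x i hi
        rw [hval, hc.symm x i i.2, hi]
      obtain ⟨M, h1, h2, h3, h4⟩ := borel_round hX.measurable_smul hX.free
        (val := fun s : B => (s : Γ)) (inv := inv) hval hinv (E := fun x i => cls x i = c)
        (fun i => hc.meas i c) hEs (hc.fin c hcB hcr) (fun _ => 1)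
        (fun k => MeasurableSet.const _) (fun o => by
          obtain ⟨par, hp⟩ := hpar o
          have hcl : ∀ x, EConn (fun s : B => (s : Γ)) (fun x (s : B) => cls x s = c) o x →
              ∃ γ ∈ Subgroup.closure (B : Set Γ), γ • o = x := by
            intro x hx
            induction hx with
            | refl => exact ⟨1, one_mem _, one_smul _ _⟩
            | @tail b e hb he ih =>
              obtain ⟨γ, hγ, rfl⟩ := ih
              obtain ⟨i, _, rfl⟩ := he
              exact ⟨i * γ, mul_mem (Subgroup.subset_closure i.2) hγ, mul_smul _ _ _⟩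
          refine ⟨fun x i => if cls x i = c then 1 / 2 else 0, par, ?_, ?_, ?_, ?_, ?_, ?_⟩
          · intro x i _
            simp only
            split_ifs <;> norm_num
          · intro x i _
            simp only
            split_ifs <;> norm_num
          · intro x i _ hi
            simp only
            rw [if_pos hi, if_pos (hEs x i hi)]
          · intro x i _ hi
            simp only
            rw [if_neg hi]
          · intro x _
            rw [← Finset.sum_filter, Finset.sum_const, nsmul_eq_mul]
            have h2 := hc.two x c hcB hcr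
            have h3 : (Finset.univ.filter (fun i : B => cls x i = c)).card = 2 := by
              rw [← h2, ← Set.ncard_coe_finset]
              refine Set.ncard_congr (fun i _ => (i : Γ)) ?_ ?_ ?_
              · intro i hi
                rw [Finset.mem_coe, Finset.mem_filter] at hi
                exact ⟨i.2, hi.2⟩
              · intro i j _ _ hij
                exact Subtype.ext hij
              · rintro s ⟨hs1, hs2⟩
                refine ⟨⟨s, hs1⟩, ?_, rfl⟩
                rw [Finset.mem_coe, Finset.mem_filter]
                exact ⟨Finset.mem_univ _, hs2⟩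
            rw [h3]
            norm_num
          · intro x i hx hi
            exact hp x i i.2 (hcl x hx))
      exact ⟨M, h1, fun _ _ => ⟨h2, h3, h4⟩⟩
    · refine ⟨fun _ _ => False, fun i => MeasurableSet.const _, fun h1 h2 => absurd ⟨h1, h2⟩ h⟩
  choose M hMm hM using hround
  let κ : X → Γ → Γ := fun x s => if h : s ∈ B then
    (if M (cls x s) x ⟨s, h⟩ then cls x s else (cls x s)⁻¹) else 1
  have hκ : ∀ x s (h : s ∈ B), κ x s = if M (cls x s) x ⟨s, h⟩ then cls x s else (cls x s)⁻¹ := by
    intro x s h
    simp only [κ]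
    rw [dif_pos h]
  have hκ2 : ∀ x s, s ∈ B → κ x s = cls x s ∨ κ x s = (cls x s)⁻¹ := by
    intro x s h
    rw [hκ x s h]
    split_ifs
    · exact Or.inl rfl
    · exact Or.inr rfl
  have hκrep : ∀ x s, s ∈ B → rep (κ x s) = cls x s := by
    intro x s h
    have h1 := (hc.mem x s h).2
    rcases hκ2 x s h with h2 | h2
    · rw [h2, h1]
    · rw [h2, rep_inv, h1]
  refine ⟨κ, ?_, ?_, ?_, ?_⟩
  · intro s γ
    by_cases h : s ∈ B
    · have : {x | κ x s = γ} = ⋃ c : Γ, {x | cls x s = c} ∩ (({x | M c x ⟨s, h⟩} ∩ {x | c = γ}) ∪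
          ({x | M c x ⟨s, h⟩}ᶜ ∩ {x | c⁻¹ = γ})) := by
        ext x
        simp only [mem_ofPred_eq, mem_iUnion, mem_inter_iff, mem_union, mem_compl_iff]
        rw [hκ x s h]
        constructor
        · intro h2
          refine ⟨cls x s, rfl, ?_⟩
          by_cases h3 : M (cls x s) x ⟨s, h⟩
          · rw [if_pos h3] at h2
            exact Or.inl ⟨h3, h2⟩
          · rw [if_neg h3] at h2
            exact Or.inr ⟨h3, h2⟩
        · rintro ⟨c, rfl, ⟨h2, h3⟩ | ⟨h2, h3⟩⟩
          · rw [if_pos h2]; exact h3
          · rw [if_neg h2]; exact h3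
      rw [this]
      exact MeasurableSet.iUnion fun c => (hc.meas s c).inter
        (((hMm c _).inter (MeasurableSet.const _)).union
          ((hMm c _).compl.inter (MeasurableSet.const _)))
    · have : {x | κ x s = γ} = {x | (1 : Γ) = γ} := by
        ext x
        simp only [mem_ofPred_eq, κ]
        rw [dif_neg h]
      rw [this]
      exact MeasurableSet.const _
  · intro x s hs
    have h1 := (hc.mem x s hs).1
    rcases hκ2 x s hs with h2 | h2
    · rw [h2]; exact h1
    · rw [h2]; exact hB _ h1
  · intro x s hs t ht hst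
    have hsB : s ∈ B := hs
    have htB : t ∈ B := ht
    have h1 : cls x s = cls x t := by
      rw [← hκrep x s hsB, ← hκrep x t htB, hst]
    obtain ⟨hc1, hc2⟩ := hc.mem x s hsB
    set c := cls x s with hcdef
    obtain ⟨hM1, hM2, hM3⟩ := hM c hc1 hc2
    have h2 := hκ x s hsB
    have h3 := hκ x t htB
    rw [← hcdef] at h2
    rw [← h1] at h3
    have hcc := hne c hc1
    by_cases h4 : M c x ⟨s, hsB⟩
    · by_cases h5 : M c x ⟨t, htB⟩
      · obtain ⟨i, hi⟩ := Set.ncard_eq_one.mp (hM3 x)
        have h6 : (⟨s, hsB⟩ : B) ∈ {i | M c x i} := h4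
        have h7 : (⟨t, htB⟩ : B) ∈ {i | M c x i} := h5
        rw [hi] at h6 h7
        have := h6.trans h7.symm
        exact congrArg Subtype.val this
      · rw [if_pos h4] at h2
        rw [if_neg h5] at h3
        exact absurd (h2.symm.trans (hst.trans h3)) hcc
    · by_cases h5 : M c x ⟨t, htB⟩
      · rw [if_neg h4] at h2
        rw [if_pos h5] at h3
        exact absurd (h3.symm.trans (hst.symm.trans h2)) hcc
      · have h6 := hc.two x c hc1 hc2
        obtain ⟨i, hi⟩ := Set.ncard_eq_one.mp (hM3 x)
        have h7 : M c x i := by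
          have : i ∈ {i | M c x i} := by rw [hi]; rfl
          exact this
        have h8 : (i : Γ) ∈ {s | s ∈ B ∧ cls x s = c} := ⟨i.2, hM1 x i h7⟩
        have h9 : s ≠ i := by
          rintro rfl
          exact h4 h7
        have h10 : t ≠ i := by
          rintro rfl
          exact h5 h7
        by_contra h11
        have hsub : ({(i : Γ), s, t} : Set Γ) ⊆ {s | s ∈ B ∧ cls x s = c} := by
          rintro y (rfl | rfl | rfl)
          · exact h8
          · exact ⟨hsB, rfl⟩
          · exact ⟨htB, h1.symm⟩
        have hfin : {s | s ∈ B ∧ cls x s = c}.Finite :=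
          B.finite_toSet.subset fun y hy => hy.1
        have h12 := Set.ncard_le_ncard hsub hfin
        rw [h6, Set.ncard_eq_three.mpr ⟨_, _, _, Ne.symm h9, Ne.symm h10, h11, rfl⟩] at h12
        omega
  · intro x s hs
    have hsB : s ∈ B := hs
    have h1 := hc.symm x s hsB
    obtain ⟨hc1, hc2⟩ := hc.mem x s hsB
    obtain ⟨hM1, hM2, hM3⟩ := hM _ hc1 hc2
    rw [hκ x s hsB, hκ (s • x) s⁻¹ (hB s hsB), h1]
    have h2 := hM2 x ⟨s, hsB⟩
    have h3 : inv ⟨s, hsB⟩ = ⟨s⁻¹, hB s hsB⟩ := rfl
    rw [h3] at h2
    simp only at h2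
    by_cases h4 : M (cls x s) x ⟨s, hsB⟩
    · rw [if_pos h4, if_pos (h2.mp h4)]
    · rw [if_neg h4, if_neg (fun h5 => h4 (h2.mpr h5))]

end Run7.h916
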