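import Pool.Agent.Run7.h916.Partition
import Pool.Agent.Run7.h916.Partner

set_option autoImplicit false
set_option linter.unusedSectionVars false

/-!
Groups which are locally finite by nilpotent of class at most two.
-/

namespace Run7.h916

open Subgroup
open scoped Pointwise commutatorElement

universe u v

section

variable {G : Type u} [Group G]

theorem cen_mul_left (hG : ∀ x y w : G, w * ⁅x, y⁆ = ⁅x, y⁆ * w) (x y w : G) :
    ⁅x * y, w⁆ = ⁅x, w⁆ * ⁅y, w⁆ := by
  have h := hG y w x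
  rw [commutatorElement_def, commutatorElement_def, commutatorElement_def] at *
  have e : x * y * w * (x * y)⁻¹ * w⁻¹ = x * (y * w * y⁻¹ * w⁻¹) * (w * x⁻¹ * w⁻¹) := by group
  rw [e, h]
  have h2 := hG y w (x * (w * x⁻¹ * w⁻¹))
  rw [commutatorElement_def] at h2
  have e2 : y * w * y⁻¹ * w⁻¹ * x * (w * x⁻¹ * w⁻¹) =
      y * w * y⁻¹ * w⁻¹ * (x * (w * x⁻¹ * w⁻¹)) := by group
  rw [e2, ← h2]
  group

theorem cen_zpow_left (hG : ∀ x y w : G, w * ⁅x, y⁆ = ⁅x, y⁆ * w) (x w : G) (n : ℤ) :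
    ⁅x ^ n, w⁆ = ⁅x, w⁆ ^ n := by
  let f : G →* G := { toFun := fun x => ⁅x, w⁆
                      map_one' := by rw [commutatorElement_one_left]
                      map_mul' := fun x y => cen_mul_left hG x y w }
  exact map_zpow f x n

theorem pow_mul_form (hG : ∀ x y w : G, w * ⁅x, y⁆ = ⁅x, y⁆ * w) (x y : G) (k : ℕ) :
    ∃ j : ℤ, (x * y) ^ k = x ^ k * y ^ k * ⁅x, y⁆ ^ j := by
  induction k with
  | zero => exact ⟨0, by simp⟩
  | succ k ih =>
    obtain ⟨j, hj⟩ := ih
    have hc : ∀ (w : G) (n : ℤ), w * ⁅x, y⁆ ^ n = ⁅x, y⁆ ^ n * w := fun w n =>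
      ((show Commute w ⁅x, y⁆ from hG x y w).zpow_right n).eq
    have h1 : y ^ k * x = x * y ^ k * ⁅x, y⁆ ^ (-(k : ℤ)) := by
      have h2 : ⁅y ^ k, x⁆ = ⁅x, y⁆ ^ (-(k : ℤ)) := by
        rw [← zpow_natCast, cen_zpow_left hG, ← commutatorElement_inv x y, inv_zpow, zpow_neg]
      rw [hc, ← h2, commutatorElement_def]
      group
    refine ⟨j - k, ?_⟩
    rw [pow_succ, hj, pow_succ x, pow_succ y]
    calc x ^ k * y ^ k * ⁅x, y⁆ ^ j * (x * y)
        = x ^ k * (y ^ k * (⁅x, y⁆ ^ j * x)) * y := by simp only [mul_assoc]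
      _ = x ^ k * (y ^ k * x) * (⁅x, y⁆ ^ j * y) := by rw [← hc x j]; simp only [mul_assoc]
      _ = x ^ k * x * y ^ k * (⁅x, y⁆ ^ (-(k : ℤ)) * y * ⁅x, y⁆ ^ j) := by
          rw [h1, ← hc y j]; simp only [mul_assoc]
      _ = x ^ k * x * y ^ k * (y * (⁅x, y⁆ ^ (-(k : ℤ)) * ⁅x, y⁆ ^ j)) := by
          rw [← hc y (-(k : ℤ))]; simp only [mul_assoc]
      _ = x ^ k * x * (y ^ k * y) * ⁅x, y⁆ ^ (j - k) := by
          rw [← zpow_add]
          have : -(k : ℤ) + j = j - k := by ring
          rw [this]; simp only [mul_assoc]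

/-- The product of two elements of finite order in a group of class at most two. -/
theorem torsion_mul (hG : ∀ x y w : G, w * ⁅x, y⁆ = ⁅x, y⁆ * w) {x y : G}
    (hx : IsOfFinOrder x) (hy : IsOfFinOrder y) : IsOfFinOrder (x * y) := by
  obtain ⟨n, hn, hxn⟩ := isOfFinOrder_iff_pow_eq_one.mp hx
  obtain ⟨m, hm, hym⟩ := isOfFinOrder_iff_pow_eq_one.mp hy
  obtain ⟨j, hj⟩ := pow_mul_form hG x y (n * m)
  have hx' : x ^ (n * m) = 1 := by rw [pow_mul, hxn, one_pow]
  have hy' : y ^ (n * m) = 1 := by rw [mul_comm, pow_mul, hym, one_pow]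
  rw [hx', hy', one_mul, one_mul] at hj
  have hc : ⁅x, y⁆ ^ (n : ℤ) = 1 := by
    rw [← cen_zpow_left hG, zpow_natCast, hxn, commutatorElement_one_left]
  rw [isOfFinOrder_iff_pow_eq_one]
  refine ⟨n * m * n, Nat.mul_pos (Nat.mul_pos hn hm) hn, ?_⟩
  rw [pow_mul, hj, ← zpow_natCast, ← zpow_mul, mul_comm j, zpow_mul, hc, one_zpow]

/-- Finitely generated torsion groups of class at most two are finite. -/
theorem finite_of_fg_torsion_class2 [hfg : Group.FG G]
    (hG : ∀ x y w : G, w * ⁅x, y⁆ = ⁅x, y⁆ * w)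
    (ht : ∀ x : G, IsOfFinOrder x) : Finite G := by
  have hfga : Group.FG (Abelianization G) := QuotientGroup.fg (commutator G)
  have h1 : Finite (Abelianization G) := by
    refine CommGroup.finite_of_fg_isMulTorsion _ ?_
    intro x
    obtain ⟨y, rfl⟩ := QuotientGroup.mk_surjective x
    exact MonoidHom.isOfFinOrder (QuotientGroup.mk' (commutator G)) (ht y)
  have h1' : Finite (G ⧸ commutator G) := h1
  have hfi : (commutator G).FiniteIndex := Subgroup.finiteIndex_of_finite_quotient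
  have hfg' : Group.FG (commutator G) := Subgroup.fg_of_index_ne_zero (commutator G)
  have hle : commutator G ≤ center G := by
    rw [_root_.commutator_def, commutator_le]
    intro x _ y _
    rw [mem_center_iff]
    exact fun w => hG x y w
  let _ : CommGroup (commutator G) :=
    { (inferInstance : Group (commutator G)) with
      mul_comm := fun a b => Subtype.ext (mem_center_iff.mp (hle b.2) a) }
  have h2 : Finite (commutator G) := by
    refine CommGroup.finite_of_fg_isMulTorsion _ ?_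
    intro x
    exact isOfFinOrder_subgroup.mpr (ht x)
  exact Finite.of_equiv _ (Subgroup.groupEquivQuotientProdSubgroup (s := commutator G)).symm

end

variable {Γ : Type u} [Group Γ]

/-- The isolator of a locally finite normal subgroup with quotient of class at most two. -/
theorem exists_isolator {L : Subgroup Γ} [hLn : L.Normal] (hL : IsLocallyFinite L)
    (h2 : ∀ x y w : Γ, ⁅⁅x, y⁆, w⁆ ∈ L) :
    ∃ K : Subgroup Γ, ∃ _ : K.Normal, IsLocallyFinite K ∧ TF2 (Γ ⧸ K) := by
  have hcen : ∀ x y w : Γ ⧸ L, w * ⁅x, y⁆ = ⁅x, y⁆ * w := by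
    intro x y w
    obtain ⟨x, rfl⟩ := QuotientGroup.mk_surjective x
    obtain ⟨y, rfl⟩ := QuotientGroup.mk_surjective y
    obtain ⟨w, rfl⟩ := QuotientGroup.mk_surjective w
    have h := (QuotientGroup.eq_one_iff (N := L) _).mpr (h2 x y w)
    have h3 : ⁅⁅(QuotientGroup.mk' L x : Γ ⧸ L), QuotientGroup.mk' L y⁆, QuotientGroup.mk' L w⁆ =
        1 := by
      rw [← map_commutatorElement, ← map_commutatorElement]
      exact h
    exact ((commutatorElement_eq_one_iff_mul_comm).mp h3).symm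
  let K : Subgroup Γ :=
    { carrier := {x | IsOfFinOrder (QuotientGroup.mk x : Γ ⧸ L)}
      one_mem' := by
        show IsOfFinOrder (QuotientGroup.mk 1 : Γ ⧸ L)
        exact IsOfFinOrder.one
      mul_mem' := fun {a b} ha hb => torsion_mul hcen ha hb
      inv_mem' := fun {a} ha => by
        show IsOfFinOrder (QuotientGroup.mk a : Γ ⧸ L)⁻¹
        exact isOfFinOrder_inv_iff.mpr ha }
  have hKmem : ∀ x, x ∈ K ↔ IsOfFinOrder (QuotientGroup.mk x : Γ ⧸ L) := fun x => Iff.rfl
  have hKn : K.Normal := ⟨fun a ha g => by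
    rw [hKmem] at ha ⊢
    obtain ⟨n, hn, h⟩ := isOfFinOrder_iff_pow_eq_one.mp ha
    rw [isOfFinOrder_iff_pow_eq_one]
    refine ⟨n, hn, ?_⟩
    show ((QuotientGroup.mk g : Γ ⧸ L) * QuotientGroup.mk a * (QuotientGroup.mk g)⁻¹) ^ n = 1
    rw [conj_pow, h, mul_one, mul_inv_cancel]⟩
  have hLK : ∀ x ∈ L, x ∈ K := by
    intro x hx
    rw [hKmem, (QuotientGroup.eq_one_iff x).mpr hx]
    exact IsOfFinOrder.one
  refine ⟨K, hKn, ?_, ?_, ?_⟩
  · intro F hFK hF
    refine finite_of_finite_map hL hF ?_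
    have hmapfg : (F.map (QuotientGroup.mk' L)).FG := by
      obtain ⟨s, hs⟩ := hF
      classical
      refine ⟨s.image (QuotientGroup.mk' L), ?_⟩
      rw [Finset.coe_image, ← MonoidHom.map_closure, hs]
    have : Group.FG (F.map (QuotientGroup.mk' L)) := (Group.fg_iff_subgroup_fg _).mpr hmapfg
    have hfin : Finite (F.map (QuotientGroup.mk' L)) := by
      refine finite_of_fg_torsion_class2 ?_ ?_
      · intro x y w
        apply Subtype.ext
        exact hcen x y w
      · rintro ⟨x, y, hy, rfl⟩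
        rw [isOfFinOrder_subgroup]
        exact (hKmem y).mp (hFK hy)
    exact Set.toFinite _
  · intro x y w
    obtain ⟨x, rfl⟩ := QuotientGroup.mk_surjective x
    obtain ⟨y, rfl⟩ := QuotientGroup.mk_surjective y
    obtain ⟨w, rfl⟩ := QuotientGroup.mk_surjective w
    have h := (QuotientGroup.eq_one_iff (N := K) _).mpr (hLK _ (h2 x y w))
    have h3 : ⁅⁅(QuotientGroup.mk' K x : Γ ⧸ K), QuotientGroup.mk' K y⁆, QuotientGroup.mk' K w⁆ =
        1 := by
      rw [← map_commutatorElement, ← map_commutatorElement]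
      exact h
    exact ((commutatorElement_eq_one_iff_mul_comm).mp h3).symm
  · intro g n hg hn
    obtain ⟨x, rfl⟩ := QuotientGroup.mk_surjective g
    have h1 : x ^ n ∈ K := by
      rw [← QuotientGroup.eq_one_iff]
      exact hg
    rw [QuotientGroup.eq_one_iff, hKmem]
    rw [hKmem] at h1
    obtain ⟨m, hm, h⟩ := isOfFinOrder_iff_pow_eq_one.mp h1
    rw [isOfFinOrder_iff_zpow_eq_one]
    refine ⟨n * m, mul_ne_zero hn (by exact_mod_cast hm.ne'), ?_⟩
    rw [zpow_mul, zpow_natCast]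
    exact h

/-- **The chromatic index for groups which are locally finite by nilpotent of class at most
two.** -/
theorem chromaticIndex_class2 {X : Type v} [MulAction Γ X] [MeasurableSpace X]
    [StandardBorelSpace X] {S : Finset Γ} (hS : IsMarking S) (hH : HypH S X)
    {L : Subgroup Γ} (hLn : L.Normal) (hL : IsLocallyFinite L)
    (h2 : ∀ x y w : Γ, ⁅⁅x, y⁆, w⁆ ∈ L)
    (hcyc : ∀ (K : Subgroup Γ) (_ : K.Normal), IsLocallyFinite K → ¬ IsCyclic (Γ ⧸ K)) :
    borelChromaticIndex (schreierGraph S X) = S.card := by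
  obtain ⟨K, hKn, hK, hG⟩ := exists_isolator hL h2
  exact chromaticIndex_tf2 hS hH hK hG (hcyc K hKn hK)

end Run7.h916
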