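import Pool.Agent.Run7.h916.ComPair

set_option autoImplicit false
set_option linter.unusedSectionVars false
set_option linter.unusedVariables false

/-!
Blocks with pairs whose commutator has finite order.
-/

namespace Run7.h916

open Set Relation
open scoped Pointwise commutatorElement

universe u v w

variable {Γ : Type u} [Group Γ]

/-- The commutator of `s` and `t` has finite order, and there are homomorphisms from `⟨s, t⟩` to
`ℤ/2` nontrivial at `s` and trivial at `t`, respectively trivial at `s` and nontrivial at `t`. -/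
def ComPair (s t : Γ) : Prop :=
  IsOfFinOrder ⁅s, t⁆ ∧
  ∃ φ ψ : (Subgroup.closure {s, t} : Subgroup Γ) →* Multiplicative (ZMod 2),
    φ ⟨s, Subgroup.subset_closure (by simp)⟩ ≠ 1 ∧ φ ⟨t, Subgroup.subset_closure (by simp)⟩ = 1 ∧
    ψ ⟨s, Subgroup.subset_closure (by simp)⟩ = 1 ∧ ψ ⟨t, Subgroup.subset_closure (by simp)⟩ ≠ 1

/-- Pairs of one of the two kinds. -/
def GenPair (s t : Γ) : Prop := NilPair s t ∨ ComPair s t

theorem ComPair.signs {s t : Γ} (h : ComPair s t) : ∃ F Q : Γ → ℝ,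
    (∀ x, F x = 1 ∨ F x = -1) ∧ (∀ x, Q x = 1 ∨ Q x = -1) ∧ (∀ x, F (s * x) = - F x) ∧
    (∀ x, F (t * x) = F x) ∧ (∀ x, Q (s * x) = Q x) ∧ ∀ x, Q (t * x) = - Q x := by
  obtain ⟨_, φ, ψ, h1, h2, h3, h4⟩ := h
  obtain ⟨F, hF1, hF2, hF3⟩ := exists_sign_sub _ φ
  obtain ⟨Q, hQ1, hQ2, hQ3⟩ := exists_sign_sub _ ψ
  exact ⟨F, Q, hF1, hQ1, fun x => hF3 _ h1 x, fun x => hF2 _ h2 x, fun x => hQ2 _ h3 x,
    fun x => hQ3 _ h4 x⟩

theorem ComPair.package {s t : Γ} (h : ComPair s t) : ∃ F Q : Γ → ℝ,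
    Package (pr s t) (fun x => F x * Q x) F Q := by
  obtain ⟨F, Q, hF1, hQ1, Fv, Fw, Qv, Qw⟩ := h.signs
  obtain ⟨n, hn, hc⟩ := isOfFinOrder_iff_pow_eq_one.mp h.1
  exact ⟨F, Q, package_of_comm (g := pr s t) hF1 hQ1 Fv Fw Qv Qw hn hc⟩

theorem ComPair.ne {s t : Γ} (h : ComPair s t) : t ≠ s ∧ t ≠ s⁻¹ := by
  obtain ⟨F, Q, hF1, hQ1, Fv, Fw, Qv, Qw⟩ := h.signs
  have h1 := hF1 1
  refine ⟨fun e => ?_, fun e => ?_⟩
  · have h2 := Fv 1
    have h3 := Fw 1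
    rw [e, h2] at h3
    rcases h1 with h | h <;> rw [h] at h3 <;> norm_num at h3
  · have h2 := odd_inv Fv 1
    have h3 := Fw 1
    rw [e, h2] at h3
    rcases h1 with h | h <;> rw [h] at h3 <;> norm_num at h3

section zones

variable {X : Type v} [MulAction Γ X] [MeasurableSpace X] [StandardBorelSpace X] [Countable Γ]
  (hX : IsFreeBorel Γ X) {T : Set Γ} (hT1 : (1 : Γ) ∈ T) (hT : ∀ m ∈ T, m⁻¹ ∈ T)
  (hTfin : T.Finite) (hsep : SepAct T X)

include hX hT in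
theorem hasZone_of_comPair {s t : Γ} (hs : s ∈ T) (ht : t ∈ T) (h : ComPair s t) :
    HasZone X T s t := by
  obtain ⟨F, Q, hpk⟩ := h.package
  exact exists_zone (X := X) hpk (MonoidHom.id Γ) (fun γ => γ) (fun _ _ => rfl) hX hT (by
    intro l
    obtain ⟨i, j⟩ := l
    cases i <;> cases j <;> simp [lval, pr, hs, ht, hT s hs, hT t ht])

include hX hT1 hT hTfin hsep in
/-- Parity blocks. -/
theorem parity_block_of_zones {B : Finset Γ} (hBT : ∀ s ∈ B, s ∈ T)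
    (hB : ∀ s ∈ B, s⁻¹ ∈ B) (hne : ∀ s ∈ B, s ≠ s⁻¹)
    (S : Γ → ℝ) (hS1 : ∀ k, S k = 1 ∨ S k = -1) (hSo : ∀ s ∈ B, ∀ k, S (s * k) = - S k)
    (hpart : ∀ s ∈ B, ∃ t ∈ B, GenPair s t) : BorelBlock (B : Set Γ) X := by
  classical
  obtain ⟨cls, hcls⟩ := exists_classes hX hT1 hT hTfin hsep hBT hB hne (by
    intro a ha
    obtain ⟨t, ht, h | h⟩ := hpart a ha
    · exact ⟨t, ht, h.ne.1, h.ne.2, hasZone_of_nilPair hX hT (hBT a ha) (hBT t ht) h⟩
    · exact ⟨t, ht, h.ne.1, h.ne.2, hasZone_of_comPair hX hT (hBT a ha) (hBT t ht) h⟩)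
  refine block_of_classes hX hB hne hcls fun o => ?_
  refine ⟨fun z => ∃ γ : Γ, γ • o = z ∧ S γ = 1, ?_⟩
  rintro z s hs ⟨γ, _, rfl⟩
  have huniq : ∀ γ1 γ2 : Γ, γ1 • o = γ2 • o → γ1 = γ2 := by
    intro γ1 γ2 h
    have h1 : (γ2⁻¹ * γ1) • o = o := by rw [mul_smul, h, inv_smul_smul]
    have := hX.free _ _ h1
    rw [inv_mul_eq_one] at this
    exact this.symm
  have h1 : (∃ γ' : Γ, γ' • o = γ • o ∧ S γ' = 1) ↔ S γ = 1 := by
    constructor
    · rintro ⟨γ', h2, h3⟩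
      rw [← huniq _ _ h2]
      exact h3
    · intro h
      exact ⟨γ, rfl, h⟩
  have h2 : (∃ γ' : Γ, γ' • o = s • γ • o ∧ S γ' = 1) ↔ - S γ = 1 := by
    constructor
    · rintro ⟨γ', h2, h3⟩
      rw [← mul_smul] at h2
      rw [← hSo s hs, ← huniq _ _ h2]
      exact h3
    · intro h
      exact ⟨s * γ, mul_smul _ _ _, by rw [hSo s hs]; exact h⟩
  change (∃ γ' : Γ, γ' • o = γ • o ∧ S γ' = 1) ↔ _ at h1
  change (∃ γ' : Γ, γ' • o = s • γ • o ∧ S γ' = 1) ↔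
    ¬ (∃ γ' : Γ, γ' • o = γ • o ∧ S γ' = 1)
  rw [h1, h2]
  rcases hS1 γ with h | h <;> rw [h] <;> norm_num

end zones

end Run7.h916
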