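import Pool.Agent.Run7.h916.ComHub

set_option autoImplicit false
set_option linter.unusedSectionVars false
set_option linter.unusedVariables false
set_option linter.unusedTactic false

/-!
The cubic graph of a pair whose commutator has finite order: mobility of the pattern.
-/

namespace Run7.h916

open Set Relation
open scoped Pointwise commutatorElement

universe u v w

section group

variable {K : Type u} [Group K] {g : Bool → K}

theorem wpow_pres {W : List Lt} {P : K → Prop} (h : ∀ y, P y → P (wval g W * y)) (k : ℕ) :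
    ∀ y, P y → P (wval g (wpow W k) * y) := by
  induction k with
  | zero => intro y hy; simpa [wpow] using hy
  | succ k ih =>
    intro y hy
    rw [wpow, wval_append, mul_assoc]
    exact ih _ (h y hy)

variable {f Q : K → ℝ} (hf1 : ∀ x, f x = 1 ∨ f x = -1) (hQ1 : ∀ x, Q x = 1 ∨ Q x = -1)
  (fv : ∀ x, f (g false * x) = - f x) (fw : ∀ x, f (g true * x) = f x)
  (Qv : ∀ x, Q (g false * x) = Q x) (Qw : ∀ x, Q (g true * x) = - Q x)

include hf1 hQ1 fv fw Qv Qw in
theorem mobA_cubic {n : ℕ} (hn : 0 < n) (hc : ⁅g false, g true⁆ ^ n = 1) :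
    Mobile g (sg (DP (fun x => f x * Q x) ((1 : ℕ) / (3 : ℕ)) (Hc Q) (PAc f))) := by
  refine ⟨4 * n + n * (8 * n), ?_⟩
  intro y l hl
  rw [da_pos hf1 hQ1] at hl
  obtain ⟨k, rfl⟩ : ∃ k, n = k + 1 := ⟨n - 1, by omega⟩
  have hQb : ∃ b : Bool, lsg (true, b) * Q y = 1 := by
    rcases hQ1 y with h | h <;> rw [h]
    · exact ⟨false, by simp [lsg]⟩
    · exact ⟨true, by simp [lsg]⟩
  have hfb : ∃ b : Bool, lsg (false, b) * f y = -1 := by
    rcases hf1 y with h | h <;> rw [h]
    · exact ⟨true, by simp [lsg]⟩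
    · exact ⟨false, by simp [lsg]⟩
  obtain ⟨bQ, hbQ⟩ := hQb
  obtain ⟨bf, hbf⟩ := hfb
  have short : ∀ m : Lt, m.1 = (!l.1) →
      (∀ z, (f z = f y ∧ Q z = Q y) → Directed g
        (sg (DP (fun x => f x * Q x) ((1 : ℕ) / (3 : ℕ)) (Hc Q) (PAc f))) z (cword l m)) →
      ∃ w : List Lt, w.length ≤ 4 * (k + 1) + (k + 1) * (8 * (k + 1)) ∧ wval g (l :: w) = 1 ∧
        Directed g (sg (DP (fun x => f x * Q x) ((1 : ℕ) / (3 : ℕ)) (Hc Q) (PAc f))) y
          (l :: w) := by
    intro m hm1 hd
    have hw1 : wpow (cword l m) (k + 1) = l :: ([m, linv l, linv m] ++ wpow (cword l m) k) := rfl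
    refine ⟨[m, linv l, linv m] ++ wpow (cword l m) k, ?_, ?_, ?_⟩
    · rw [List.length_append, wpow_length]
      simp [cword]
      nlinarith
    · rw [← hw1, wval_wpow, wval_cword_pow hc hm1]
    · rw [← hw1]
      refine directed_wpow_of (P := fun z => f z = f y ∧ Q z = Q y) hd ?_ (k + 1) y ⟨rfl, rfl⟩
      rintro z ⟨hz1, hz2⟩
      rw [F_cword fv fw, Q_cword Qv Qw]
      exact ⟨hz1, hz2⟩
  rcases hl with ⟨hl1, hl2, hl3⟩ | ⟨hl1, hl2, hl3⟩ | ⟨hl1, hl2, hl3⟩
  · -- a rung
    refine short (false, bf) (by rw [hl1]; rfl) ?_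
    rintro z ⟨hz1, hz2⟩
    obtain ⟨i, j⟩ := l
    simp only at hl1
    subst hl1
    refine ⟨?_, ?_, ?_, ?_, trivial⟩ <;> rw [da_pos hf1 hQ1] <;>
      simp only [smul_eq_mul, F_lval fv fw, Q_lval Qv Qw, hz1, hz2, linv, lsg] at hl2 hl3 hbf ⊢ <;>
      clear hz1 hz2 hbQ <;>
      rcases hf1 y with h | h <;> rcases hQ1 y with h' | h' <;>
      rw [h, h'] at hl3 ⊢ <;> rw [h'] at hl2 <;> rw [h] at hbf <;> cases j <;> cases bf <;>
      first
        | (norm_num; done)
        | (norm_num at hl3; done)
        | (norm_num at hl2; done)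
        | (norm_num at hbf; done)
  · -- an edge of the pattern
    refine short (true, bQ) (by rw [hl1]; rfl) ?_
    rintro z ⟨hz1, hz2⟩
    obtain ⟨i, j⟩ := l
    simp only at hl1
    subst hl1
    refine ⟨?_, ?_, ?_, ?_, trivial⟩ <;> rw [da_pos hf1 hQ1] <;>
      simp only [smul_eq_mul, F_lval fv fw, Q_lval Qv Qw, hz1, hz2, linv, lsg] at hl2 hl3 hbQ ⊢ <;>
      clear hz1 hz2 hbf <;>
      rcases hf1 y with h | h <;> rcases hQ1 y with h' | h' <;>
      rw [h, h'] at hl3 ⊢ <;> rw [h] at hl2 <;> rw [h'] at hbQ <;> cases j <;> cases bQ <;>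
      first
        | (norm_num; done)
        | (norm_num at hl3; done)
        | (norm_num at hl2; done)
        | (norm_num at hbQ; done)
  · -- the other edges of the lines
    obtain ⟨i, j⟩ := l
    simp only at hl1
    subst hl1
    set l : Lt := (false, j) with hldef
    set r : Lt := (true, bQ) with hrdef
    set D := sg (DP (fun x => f x * Q x) ((1 : ℕ) / (3 : ℕ)) (Hc Q) (PAc f)) with hD
    let P : K → Prop := fun z => f z = f y ∧ Q z = Q y
    have d1 : ∀ z, P z → Directed g D z [l, l] := by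
      rintro z ⟨hz1, hz2⟩
      rw [hD]
      refine ⟨?_, ?_, trivial⟩ <;> rw [da_pos hf1 hQ1] <;>
        simp only [smul_eq_mul, F_lval fv fw, Q_lval Qv Qw, hz1, hz2, linv, lsg, hldef, hrdef]
          at hl2 hl3 hbQ ⊢ <;>
        clear hz1 hz2 hbf <;>
        rcases hf1 y with h | h <;> rcases hQ1 y with h' | h' <;>
        rw [h, h'] at hl3 ⊢ <;> rw [h] at hl2 <;> rw [h'] at hbQ <;> cases j <;> cases bQ <;>
        first
          | (norm_num; done)
          | (norm_num at hl3; done)
          | (norm_num at hl2; done)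
          | (norm_num at hbQ; done)
    have d2 : ∀ z, P z → Directed g D z [r, linv l, linv r, l] := by
      rintro z ⟨hz1, hz2⟩
      rw [hD]
      refine ⟨?_, ?_, ?_, ?_, trivial⟩ <;> rw [da_pos hf1 hQ1] <;>
        simp only [smul_eq_mul, F_lval fv fw, Q_lval Qv Qw, hz1, hz2, linv, lsg, hldef, hrdef]
          at hl2 hl3 hbQ ⊢ <;>
        clear hz1 hz2 hbf <;>
        rcases hf1 y with h | h <;> rcases hQ1 y with h' | h' <;>
        rw [h, h'] at hl3 ⊢ <;> rw [h] at hl2 <;> rw [h'] at hbQ <;> cases j <;> cases bQ <;>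
        first
          | (norm_num; done)
          | (norm_num at hl3; done)
          | (norm_num at hl2; done)
          | (norm_num at hbQ; done)
    have d3 : ∀ z, P z → Directed g D z [r, linv l, linv l, linv l, linv r, l] := by
      rintro z ⟨hz1, hz2⟩
      rw [hD]
      refine ⟨?_, ?_, ?_, ?_, ?_, ?_, trivial⟩ <;> rw [da_pos hf1 hQ1] <;>
        simp only [smul_eq_mul, F_lval fv fw, Q_lval Qv Qw, hz1, hz2, linv, lsg, hldef, hrdef]
          at hl2 hl3 hbQ ⊢ <;>
        clear hz1 hz2 hbf <;>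
        rcases hf1 y with h | h <;> rcases hQ1 y with h' | h' <;>
        rw [h, h'] at hl3 ⊢ <;> rw [h] at hl2 <;> rw [h'] at hbQ <;> cases j <;> cases bQ <;>
        first
          | (norm_num; done)
          | (norm_num at hl3; done)
          | (norm_num at hl2; done)
          | (norm_num at hbQ; done)
    have p1 : ∀ z, P z → P (wval g [l, l] * z) := by
      rintro z ⟨hz1, hz2⟩
      refine ⟨?_, ?_⟩ <;>
        simp [mul_assoc, F_lval fv fw, Q_lval Qv Qw, hz1, hz2, linv, hldef, hrdef]
    have p2 : ∀ z, P z → P (wval g [r, linv l, linv r, l] * z) := by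
      rintro z ⟨hz1, hz2⟩
      have e : wval g [r, linv l, linv r, l] * z = lval g l * (lval g (linv r) *
          (lval g (linv l) * (lval g r * z))) := by
        simp only [wval_cons, wval_nil, one_mul, mul_assoc]
      rw [e]
      refine ⟨?_, ?_⟩ <;>
        simp only [F_lval fv fw, Q_lval Qv Qw, hz1, hz2, linv, hldef, hrdef] <;> simp
    have p3 : ∀ z, P z → P (wval g [r, linv l, linv l, linv l, linv r, l] * z) := by
      rintro z ⟨hz1, hz2⟩
      have e : wval g [r, linv l, linv l, linv l, linv r, l] * z = lval g l * (lval g (linv r) *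
          (lval g (linv l) * (lval g (linv l) * (lval g (linv l) * (lval g r * z))))) := by
        simp only [wval_cons, wval_nil, one_mul, mul_assoc]
      rw [e]
      refine ⟨?_, ?_⟩ <;>
        simp only [F_lval fv fw, Q_lval Qv Qw, hz1, hz2, linv, hldef, hrdef] <;> simp
    set M2 : List Lt := [r, linv l, linv r, l] with hM2
    set M3 : List Lt := [r, linv l, linv l, linv l, linv r, l] with hM3
    set Wst : List Lt := [l, l] ++ (wpow M2 k ++ (M3 ++ wpow M2 k)) with hWst
    have dW : ∀ z, P z → Directed g D z Wst := by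
      intro z hz
      have h1 := p1 z hz
      have h2 := wpow_pres (g := g) p2 k _ h1
      have h3 := p3 _ h2
      refine (d1 z hz).append ((directed_wpow_of d2 p2 k _ h1).append ?_)
      exact (d3 _ h2).append (directed_wpow_of d2 p2 k _ h3)
    have pW : ∀ z, P z → P (wval g Wst * z) := by
      intro z hz
      have h1 := p1 z hz
      have h2 := wpow_pres (g := g) p2 k _ h1
      have h3 := p3 _ h2
      have h4 := wpow_pres (g := g) p2 k _ h3
      rw [hWst, wval_append, wval_append, wval_append]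
      simp only [mul_assoc] at h4 ⊢
      exact h4
    have hκ : wval g M2 ^ (k + 1) = 1 := by
      have e : wval g M2 = ⁅lval g l, (lval g r)⁻¹⁆ := by
        simp [hM2, commutatorElement_def, mul_assoc]
      rw [e]
      exact comm_pow_inv_right (comm_pow_lval hc rfl)
    have hκ' : wval g M2 ^ k = (wval g M2)⁻¹ := by
      rw [pow_succ] at hκ
      exact eq_inv_of_mul_eq_one_left hκ
    have hW : wval g Wst ^ (k + 1) = 1 := by
      have e : wval g Wst = (lval g l)⁻¹ * wval g M2 * (lval g l)⁻¹⁻¹ := by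
        rw [hWst, wval_append, wval_append, wval_append, wval_wpow, hκ']
        simp only [hM2, hM3, wval_cons, wval_nil, one_mul, lval_linv]
        group
      rw [e, conj_pow, hκ, mul_one, mul_inv_cancel]
    have hw1 : wpow Wst (k + 1) = l :: (([l] ++ (wpow M2 k ++ (M3 ++ wpow M2 k))) ++
        wpow Wst k) := rfl
    refine ⟨([l] ++ (wpow M2 k ++ (M3 ++ wpow M2 k))) ++ wpow Wst k, ?_, ?_, ?_⟩
    · have e1 : M2.length = 4 := rfl
      have e2 : M3.length = 6 := rfl
      have e3 : Wst.length = 8 * (k + 1) := by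
        rw [hWst]
        simp only [List.length_append, wpow_length, e1, e2, List.length_cons, List.length_nil]
        ring
      simp only [List.length_append, wpow_length, e1, e2, e3, List.length_cons, List.length_nil]
      nlinarith
    · rw [← hw1, wval_wpow, hW]
    · rw [← hw1]
      exact directed_wpow_of dW pW (k + 1) y ⟨rfl, rfl⟩

end group

end Run7.h916
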