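import Pool.Agent.Run7.h916.ComCubic

set_option autoImplicit false
set_option linter.unusedSectionVars false
set_option linter.unusedVariables false
set_option linter.unusedTactic false

/-!
Stars with pairs whose commutator has finite order, and the block theorem.
-/

namespace Run7.h916

open Set Relation
open scoped Pointwise commutatorElement

universe u v w

section group

variable {K : Type u} [Group K] {g : Bool → K}

theorem facData_cubic_com {f Q : K → ℝ} (hf1 : ∀ x, f x = 1 ∨ f x = -1)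
    (hQ1 : ∀ x, Q x = 1 ∨ Q x = -1)
    (fv : ∀ x, f (g false * x) = - f x) (fw : ∀ x, f (g true * x) = f x)
    (Qv : ∀ x, Q (g false * x) = Q x) (Qw : ∀ x, Q (g true * x) = - Q x) {n : ℕ} (hn : 0 < n)
    (hc : ⁅g false, g true⁆ ^ n = 1) :
    FacData g (fun x => f x * Q x) 3 1 (Hc Q) (PAc f) (PLc Q) := by
  classical
  have hE1 : ∀ x, f x * Q x = 1 ∨ f x * Q x = -1 := by
    intro x
    rcases hf1 x with h | h <;> rcases hQ1 x with h' | h' <;> rw [h, h'] <;> norm_num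
  have hEg : ∀ i x, f (g i * x) * Q (g i * x) = - (f x * Q x) := by
    intro i x
    cases i
    · rw [fv, Qv]; ring
    · rw [fw, Qw]; ring
  have hQwi := odd_inv Qw
  have hQvi := even_inv Qv
  have hfvi := odd_inv fv
  have hadm : ∀ x, Q x = 1 → Adm g (Hc Q) x (cword (false, false) (true, false)) := by
    intro x hx
    refine ⟨Or.inl rfl, Or.inr ?_, Or.inl rfl, Or.inr ?_, trivial⟩
    · simp [lval, Qv, hx]
    · simp [lval, linv, hQvi, Qw, Qv, hx]
  have hw := wval_cword_pow hc (l := (false, false)) (m := (true, false)) rfl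
  have hL : NullH g (Hc Q) (DP (fun x => f x * Q x) ((1 : ℕ) / (3 : ℕ)) (Hc Q) (PLc Q)) := by
    refine (nullH_torsion (a := fun x => (-1 / 3) * (if Q x = 1 then f x * Q x else 0)) (C := 1)
      hn hw ?_ ?_ zero_le_one ?_).congr
      (fun y s => DLc_eq (E := fun x => f x * Q x) hE1 hEg hQ1 Qv Qw y s)
    · intro x
      simp only [smul_eq_mul]
      rw [F_cword fv fw, Q_cword Qv Qw]
    · intro x hx
      refine hadm x ?_
      by_contra h
      simp only [if_neg h, mul_zero] at hx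
      exact hx rfl
    · intro x
      split_ifs
      · rcases hE1 x with h | h <;> rw [h] <;> norm_num
      · norm_num
  have hN : NullH g (Hc Q) (conv g (fun x => f x * (f x * Q x)) [(false, false)]) := by
    have e : (fun x => f x * (f x * Q x)) = Q := by
      funext x
      rcases hf1 x with h | h <;> rw [h] <;> ring
    rw [e]
    refine (nullH_torsion (a := fun x => if Q x = 1 then 1 else 0) (C := 1)
      hn hw ?_ ?_ zero_le_one ?_).congr (fun y s => convQ_cword hQ1 Qv Qw y s)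
    · intro x
      simp only [smul_eq_mul, Q_cword Qv Qw]
    · intro x hx
      refine hadm x ?_
      by_contra h
      simp only [if_neg h] at hx
      exact hx rfl
    · intro x
      split_ifs <;> norm_num
  have hA : NullH g (Hc Q) (DP (fun x => f x * Q x) ((1 : ℕ) / (3 : ℕ)) (Hc Q) (PAc f)) := by
    exact ((hL.smul (-1 / 2)).add (hN.smul (-1 / 2))).congr
      (DAc_eq (E := fun x => f x * Q x) hE1 hEg hf1 fv hQ1 Qv Qw)
  refine ⟨le_rfl, by norm_num, hE1, hEg, Hc_symm Qw, ?_,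
    fun x l h => Or.inl h.1, fun x l h => Or.inr h.2, ?_, ?_, ?_, ?_, hA, hL,
    mobA_cubic hf1 hQ1 fv fw Qv Qw hn hc, mobL_cubic hf1 hQ1 fv fw Qv Qw hn hc⟩
  · intro x
    rcases hQ1 x with h | h
    · have : {l | Hc Q x l} = {((false, false) : Lt), ((false, true) : Lt), ((true, false) : Lt)} := by
        ext ⟨i, j⟩
        cases i <;> cases j <;> simp [Hc, h]
        norm_num
      rw [this]
      refine Set.ncard_eq_three.mpr ⟨_, _, _, by simp, by simp, by simp, rfl⟩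
    · have : {l | Hc Q x l} = {((false, false) : Lt), ((false, true) : Lt), ((true, true) : Lt)} := by
        ext ⟨i, j⟩
        cases i <;> cases j <;> simp [Hc, h]
        norm_num
      rw [this]
      refine Set.ncard_eq_three.mpr ⟨_, _, _, by simp, by simp, by simp, rfl⟩
  · intro y l
    unfold PAc
    obtain ⟨i, j⟩ := l
    cases i <;> cases j <;> simp [linv, lval, fv, hfvi]
  · intro y l
    unfold PLc
    obtain ⟨i, j⟩ := l
    cases i <;> cases j <;> simp [linv, lval, Qw, hQwi]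
  · intro x
    rw [Set.ncard_eq_one]
    rcases hf1 x with h | h
    · refine ⟨(false, true), ?_⟩
      ext ⟨i, j⟩
      cases i <;> cases j <;> simp [PAc, h]
      norm_num
    · refine ⟨(false, false), ?_⟩
      ext ⟨i, j⟩
      cases i <;> cases j <;> simp [PAc, h]
      norm_num
  · intro x
    rw [Set.ncard_eq_one]
    rcases hQ1 x with h | h
    · refine ⟨(true, false), ?_⟩
      ext ⟨i, j⟩
      cases i <;> cases j <;> simp [PLc, h]
      norm_num
    · refine ⟨(true, true), ?_⟩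
      ext ⟨i, j⟩
      cases i <;> cases j <;> simp [PLc, h]
      norm_num

end group

variable {Γ : Type u} [Group Γ]

/-- The data of the main leaf. -/
def PD4 (x y : Γ) (Q : Γ → ℝ) : Prop :=
  ∃ E F : Γ → ℝ, FacData (pr x y) E 4 2 (fun _ _ => True) (fun k l => APat F Q k l)
    (fun _ l => l.1 = false) ∧ (∀ k, F k = 1 ∨ F k = -1) ∧ (∀ k, F (x * k) = - F k) ∧
    ∃ N, 1 ≤ N ∧ ∀ k, (fun k => pst y Q (pst x F k))^[N] k = k

/-- The data of a leaf. -/
def PD3 (c y : Γ) (Q : Γ → ℝ) : Prop :=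
  ∃ E f : Γ → ℝ, FacData (pr c y) E 3 1 (Hc Q) (PAc f) (PLc Q) ∧
    (∀ k, f k = 1 ∨ f k = -1) ∧ (∀ k, f (c * k) = - f k) ∧
    ∃ N, 1 ≤ N ∧ ∀ k, (fun k => pst y Q (pst c f k))^[N] k = k

theorem hasHub_of_PD {X : Type v} [MulAction Γ X] [MeasurableSpace X] [StandardBorelSpace X]
    [Countable Γ] (hX : IsFreeBorel Γ X) {T : Set Γ} (hT : ∀ m ∈ T, m⁻¹ ∈ T) {x y c : Γ}
    (hx : x ∈ T) (hy : y ∈ T) (hc : c ∈ T) {Q : Γ → ℝ} (h4 : PD4 x y Q) (h3 : PD3 c y Q)
    (hQ1 : ∀ γ, Q γ = 1 ∨ Q γ = -1) (hQy : ∀ γ, Q (y * γ) = - Q γ) : HasHub X T x y c := by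
  obtain ⟨E1, F, hfd1, F1, Fv, per1⟩ := h4
  obtain ⟨E2, f, hfd2, f1, fv, per2⟩ := h3
  exact exists_hubZone (K := Γ) (g1 := pr x y) (g2 := pr c y) hfd1 hfd2 hQ1 F1 f1 Fv fv hQy hQy
    per1 per2 (MonoidHom.id Γ) (fun γ => γ) (fun _ _ => rfl) hX hT hx hy hc rfl rfl

theorem NilPair.pd4 {x y : Γ} (h1 : NilPair x y) {Q : Γ → ℝ}
    (hQ1 : ∀ γ, Q γ = 1 ∨ Q γ = -1) (hQx : ∀ γ, Q (x * γ) = Q γ)
    (hQy : ∀ γ, Q (y * γ) = - Q γ) : PD4 x y Q := by
  classical
  obtain ⟨G1, _, _, π1, hsurj1, hπ1, hTF1, hnc1⟩ := h1.data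
  let K1 : Subgroup Γ := Subgroup.closure {x, y}
  let g1 : Bool → K1 := fun i => if i then ⟨y, Subgroup.subset_closure (by simp)⟩ else
    ⟨x, Subgroup.subset_closure (by simp)⟩
  obtain ⟨⟨E1, hE11, hE1x, hE1y⟩, s1, hs11, hs1x, hs1y⟩ := exists_pair_sign hTF1 hnc1
  obtain ⟨ρ1, hρ1, hQ1'⟩ := exists_coord_sign π1 hsurj1 hs11 hs1x hs1y hQ1 hQx hQy
  have hE1g : ∀ i k, E1 (π1 (g1 i) * k) = - E1 k := by
    intro i k
    cases i
    · exact hE1x k
    · exact hE1y k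
  have habs : ∀ k, |E1 k| ≤ 1 := by
    intro k
    rcases hE11 k with h | h <;> rw [h] <;> norm_num
  obtain ⟨cl, hcl⟩ := Subgroup.nilpotent_iff_lowerCentralSeries.mp
    (inferInstance : Group.IsNilpotent G1)
  obtain ⟨F, hP⟩ := exists_patternH (g := fun i => π1 (g1 i)) hTF1 habs (hE1g false)
    hcl cl 0 (by omega) [(true, false)] (π1 (g1 true)) (by simp [lval]) (by simp) hnc1
    (hE1g true) s1 hs11 hs1x hs1y
  have hpk := package_of_pattern hE11 hE1g (isPat_of_isPatH hP)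
  have hfd1 := ((facData_pair hpk).lift (g := g1) (π := π1) hπ1).coord K1.subtype ρ1 hρ1
  have hQe1 : Q = fun γ => s1 (π1 (ρ1 γ)) := funext hQ1'
  have hg : (fun i => K1.subtype (g1 i)) = pr x y := by
    funext i
    cases i <;> rfl
  refine ⟨fun γ => E1 (π1 (ρ1 γ)), fun γ => F (π1 (ρ1 γ)), ?_, fun k => hpk.F1 _, ?_, ?_⟩
  · rw [hQe1, ← hg]
    exact hfd1
  · intro k
    have := hρ1 (g1 false) k
    change ρ1 (K1.subtype (g1 false) * k) = _ at this
    change F (π1 (ρ1 (K1.subtype (g1 false) * k))) = _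
    rw [this, map_mul]
    exact hpk.Fv _
  · rw [hQe1]
    exact per_coord K1.subtype ρ1 hρ1 (per_lift hsurj1 hπ1 hpk.per)

theorem NilPair.pd3 {c y : Γ} (h2 : NilPair c y) {Q : Γ → ℝ}
    (hQ1 : ∀ γ, Q γ = 1 ∨ Q γ = -1) (hQc : ∀ γ, Q (c * γ) = Q γ)
    (hQy : ∀ γ, Q (y * γ) = - Q γ) : PD3 c y Q := by
  classical
  obtain ⟨G2, _, _, π2, hsurj2, hπ2, hTF2, hnc2⟩ := h2.data
  let K2 : Subgroup Γ := Subgroup.closure {c, y}
  let g2 : Bool → K2 := fun i => if i then ⟨y, Subgroup.subset_closure (by simp)⟩ else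
    ⟨c, Subgroup.subset_closure (by simp)⟩
  obtain ⟨⟨E2, hE21, hE2c, hE2y⟩, s2, hs21, hs2c, hs2y⟩ := exists_pair_sign hTF2 hnc2
  obtain ⟨ρ2, hρ2, hQ2'⟩ := exists_coord_sign π2 hsurj2 hs21 hs2c hs2y hQ1 hQc hQy
  have hE2g : ∀ i k, E2 (π2 (g2 i) * k) = - E2 k := by
    intro i k
    cases i
    · exact hE2c k
    · exact hE2y k
  obtain ⟨f, hf1, hfv, hfper, hfnull⟩ := exists_cubic (g := fun i => π2 (g2 i)) hTF2 hE21 hE2g hs21
    hs2c hs2y hnc2
  have hfd2 := ((facData_cubic hE21 hE2g hf1 hfv hs21 hs2c hs2y hfnull).lift (g := g2) (π := π2)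
    hπ2).coord K2.subtype ρ2 hρ2
  have hQe2 : Q = fun γ => s2 (π2 (ρ2 γ)) := funext hQ2'
  have hg : (fun i => K2.subtype (g2 i)) = pr c y := by
    funext i
    cases i <;> rfl
  refine ⟨fun γ => E2 (π2 (ρ2 γ)), fun γ => f (π2 (ρ2 γ)), ?_, fun k => hf1 _, ?_, ?_⟩
  · rw [hQe2, ← hg]
    exact hfd2
  · intro k
    have := hρ2 (g2 false) k
    change ρ2 (K2.subtype (g2 false) * k) = _ at this
    change f (π2 (ρ2 (K2.subtype (g2 false) * k))) = _
    rw [this, map_mul]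
    exact hfv _
  · rw [hQe2]
    exact per_coord K2.subtype ρ2 hρ2 (per_lift hsurj2 hπ2 hfper)

theorem ComPair.pd {x y : Γ} (h : ComPair x y) {Q : Γ → ℝ}
    (hQ1 : ∀ γ, Q γ = 1 ∨ Q γ = -1) (hQx : ∀ γ, Q (x * γ) = Q γ)
    (hQy : ∀ γ, Q (y * γ) = - Q γ) : PD4 x y Q ∧ PD3 x y Q := by
  obtain ⟨F, _, hF1, _, Fv, Fw, _, _⟩ := h.signs
  obtain ⟨n, hn, hc⟩ := isOfFinOrder_iff_pow_eq_one.mp h.1
  have hpk := package_of_comm (g := pr x y) hF1 hQ1 Fv Fw hQx hQy hn hc
  exact ⟨⟨_, F, facData_pair' hpk, hF1, Fv, hpk.per⟩,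
    ⟨_, F, facData_cubic_com (g := pr x y) hF1 hQ1 Fv Fw hQx hQy hn hc, hF1, Fv, hpk.per⟩⟩

theorem GenPair.pd {x y : Γ} (h : GenPair x y) {Q : Γ → ℝ}
    (hQ1 : ∀ γ, Q γ = 1 ∨ Q γ = -1) (hQx : ∀ γ, Q (x * γ) = Q γ)
    (hQy : ∀ γ, Q (y * γ) = - Q γ) : PD4 x y Q ∧ PD3 x y Q := by
  rcases h with h | h
  · exact ⟨h.pd4 hQ1 hQx hQy, h.pd3 hQ1 hQx hQy⟩
  · exact h.pd hQ1 hQx hQy

theorem ComPair.symm {s t : Γ} (h : ComPair s t) : ComPair t s := by
  obtain ⟨h0, φ, ψ, h1, h2, h3, h4⟩ := h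
  have e : Subgroup.closure ({t, s} : Set Γ) ≤ Subgroup.closure ({s, t} : Set Γ) := by
    rw [Set.pair_comm]
  refine ⟨?_, ψ.comp (Subgroup.inclusion e), φ.comp (Subgroup.inclusion e), h4, h3, h2, h1⟩
  rw [← commutatorElement_inv]
  exact isOfFinOrder_inv_iff.mpr h0

theorem GenPair.symm {s t : Γ} (h : GenPair s t) : GenPair t s :=
  h.imp NilPair.symm ComPair.symm

theorem GenPair.ne {s t : Γ} (h : GenPair s t) : t ≠ s ∧ t ≠ s⁻¹ := by
  rcases h with h | h
  · exact h.ne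
  · exact h.ne

section zones

variable {X : Type v} [MulAction Γ X] [MeasurableSpace X] [StandardBorelSpace X] [Countable Γ]
  (hX : IsFreeBorel Γ X) {T : Set Γ} (hT1 : (1 : Γ) ∈ T) (hT : ∀ m ∈ T, m⁻¹ ∈ T)
  (hTfin : T.Finite) (hsep : SepAct T X)

include hX hT in
theorem hasZone_of_genPair {s t : Γ} (hs : s ∈ T) (ht : t ∈ T) (h : GenPair s t) :
    HasZone X T s t := by
  rcases h with h | h
  · exact hasZone_of_nilPair hX hT hs ht h
  · exact hasZone_of_comPair hX hT hs ht h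

theorem parOK_of_genPair (hfree : ∀ (γ : Γ) (x : X), γ • x = x → γ = 1) {s t : Γ}
    (h : GenPair s t) : ParOK X s t := by
  rcases h with h | h
  · exact parOK_of_nilPair hfree h
  · obtain ⟨F, Q, hF1, hQ1, Fv, Fw, Qv, Qw⟩ := h.signs
    refine parOK_of_sign hfree (fun x => F x * Q x) ?_ ?_ ?_
    · intro x
      rcases hF1 x with h | h <;> rcases hQ1 x with h' | h' <;> rw [h, h'] <;> norm_num
    · intro x
      rw [Fv, Qv]; ring
    · intro x
      rw [Fw, Qw]; ring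

include hX hT hT1 hTfin hsep in
/-- **Hub blocks can be coloured**. -/
theorem hub_block_of_genPairs {B : Finset Γ}
    (hBT : ∀ s ∈ B, s ∈ T) (hB : ∀ s ∈ B, s⁻¹ ∈ B) (hne : ∀ s ∈ B, s ≠ s⁻¹)
    {y : Γ} (hy : y ∈ B) (hx : ∃ x ∈ B, x ≠ y ∧ x ≠ y⁻¹)
    (Q : Γ → ℝ) (hQ1 : ∀ k, Q k = 1 ∨ Q k = -1) (hQy : ∀ k, Q (y * k) = - Q k)
    (hQc : ∀ c ∈ B, c ≠ y → c ≠ y⁻¹ → ∀ k, Q (c * k) = Q k)
    (hnc : ∀ c ∈ B, c ≠ y → c ≠ y⁻¹ → GenPair c y) :
    BorelBlock (B : Set Γ) X := by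
  classical
  obtain ⟨x0, hx0, hx01, hx02⟩ := hx
  have hrB : ∀ s ∈ B, rep s ∈ B := by
    intro s hs
    rcases rep_eq s with h | h
    · rw [h]; exact hs
    · rw [h]; exact hB s hs
  -- pairs do not depend on inverses
  have hclR : ∀ a b : Γ, ({a, b⁻¹} : Set Γ) ⊆ Subgroup.closure ({a, b} : Set Γ) := by
    intro a b z hz
    rcases hz with rfl | rfl
    · exact Subgroup.subset_closure (by simp)
    · exact inv_mem (Subgroup.subset_closure (by simp))
  have hcl : ∀ a b : Γ, Subgroup.closure ({a, b⁻¹} : Set Γ) = Subgroup.closure {a, b} := by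
    intro a b
    apply le_antisymm
    · exact (Subgroup.closure_le _).mpr (hclR a b)
    · have := (Subgroup.closure_le _).mpr (hclR a b⁻¹)
      rwa [inv_inv] at this
  have hpinv : ∀ a b : Γ, GenPair a b → GenPair a b⁻¹ := by
    intro a b h
    rcases h with h | h
    · left
      unfold NilPair at h ⊢
      rwa [hcl]
    · right
      obtain ⟨h0, φ, ψ, h1, h2, h3, h4⟩ := h
      refine ⟨?_, ?_⟩
      · obtain ⟨n, hn, hc⟩ := isOfFinOrder_iff_pow_eq_one.mp h0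
        exact isOfFinOrder_iff_pow_eq_one.mpr ⟨n, hn, comm_pow_inv_right hc⟩
      · let j : (Subgroup.closure ({a, b⁻¹} : Set Γ) : Subgroup Γ) →*
            (Subgroup.closure ({a, b} : Set Γ) : Subgroup Γ) :=
          Subgroup.inclusion (hcl a b).le
        have ja : j ⟨a, Subgroup.subset_closure (by simp)⟩ =
            ⟨a, Subgroup.subset_closure (by simp)⟩ := rfl
        have jb : j ⟨b⁻¹, Subgroup.subset_closure (by simp)⟩ =
            (⟨b, Subgroup.subset_closure (by simp)⟩ :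
              (Subgroup.closure ({a, b} : Set Γ) : Subgroup Γ))⁻¹ := rfl
        refine ⟨φ.comp j, ψ.comp j, ?_, ?_, ?_, ?_⟩
        · rw [MonoidHom.comp_apply, ja]; exact h1
        · rw [MonoidHom.comp_apply, jb, map_inv, h2, inv_one]
        · rw [MonoidHom.comp_apply, ja]; exact h3
        · rw [MonoidHom.comp_apply, jb, map_inv]
          intro hh
          exact h4 (inv_eq_one.mp hh)
  -- representatives
  set y' := rep y with hy'def
  set x := rep x0 with hxdef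
  have hy' : y' ∈ B := hrB y hy
  have hx : x ∈ B := hrB x0 hx0
  have hyr : rep y' = y' := rep_rep y
  have hxr : rep x = x := rep_rep x0
  have hyy : y' = y ∨ y' = y⁻¹ := rep_eq y
  have hne1 : ∀ c : Γ, c ≠ y' → c ≠ y'⁻¹ → c ≠ y ∧ c ≠ y⁻¹ := by
    intro c h1 h2
    rcases hyy with h | h
    · rw [h] at h1 h2
      exact ⟨h1, h2⟩
    · rw [h] at h1 h2
      rw [inv_inv] at h2
      exact ⟨h2, h1⟩
  have hxy : y' ≠ x := by
    intro h
    rcases rep_eq y with h1 | h1 <;> rcases rep_eq x0 with h2 | h2 <;>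
      rw [← hy'def] at h1 <;> rw [← hxdef] at h2 <;> rw [h1, h2] at h
    · exact hx01 h.symm
    · apply hx02
      rw [h, inv_inv]
    · exact hx02 h.symm
    · exact hx01 (inv_injective h).symm
  have hxy' : y' ≠ x⁻¹ := by
    intro h
    have h1 := hyr
    rw [h, rep_inv, hxr] at h1
    exact hne x hx h1
  have hQy' : ∀ k, Q (y' * k) = - Q k := by
    rcases hyy with h | h
    · rw [h]
      exact hQy
    · rw [h]
      exact odd_inv hQy
  have hncy : ∀ c ∈ B, c ≠ y' → c ≠ y'⁻¹ → GenPair c y' := by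
    intro c hc h1 h2
    obtain ⟨h3, h4⟩ := hne1 c h1 h2
    rcases hyy with h | h
    · rw [h]
      exact hnc c hc h3 h4
    · rw [h]
      exact hpinv _ _ (hnc c hc h3 h4)
  have hne2 : ∀ c ∈ B, rep c = c → c ≠ y' → c ≠ y'⁻¹ := by
    intro c hc hcr h1 h2
    rw [h2, rep_inv, hyr] at hcr
    exact hne y' hy' hcr
  have hx1 : x ≠ y' := fun h => hxy h.symm
  have hx2 : x ≠ y'⁻¹ := hne2 x hx hxr hx1
  have hpx := hncy x hx hx1 hx2
  refine hub_block hX hT1 hT hTfin hsep hBT hB hne hx hy' hxr hyr hxy hxy'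
    (hasZone_of_genPair hX hT (hBT x hx) (hBT y' hy') hpx)
    (hasZone_of_genPair hX hT (hBT y' hy') (hBT x hx) hpx.symm) ?_
    (parOK_of_genPair hX.free hpx) ?_
  · intro c hc hcr hcx hcy
    have h2 := hne2 c hc hcr hcy
    obtain ⟨h3, h4⟩ := hne1 c hcy h2
    obtain ⟨h5, h6⟩ := hne1 x hx1 hx2
    exact hasHub_of_PD hX hT (hBT x hx) (hBT y' hy') (hBT c hc)
      (hpx.pd hQ1 (hQc x hx h5 h6) hQy').1 ((hncy c hc hcy h2).pd hQ1 (hQc c hc h3 h4) hQy').2
      hQ1 hQy'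
  · intro c hc hcr hcx hcy
    exact parOK_of_genPair hX.free (hncy c hc hcy (hne2 c hc hcr hcy))

end zones

end Run7.h916
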