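import Pool.Agent.Run7.h916.ComBlocks

set_option autoImplicit false
set_option linter.unusedSectionVars false
set_option linter.unusedVariables false

/-!
The data of the cubic graph for pairs whose commutator has finite order.
-/

namespace Run7.h916

open Set Relation
open scoped Pointwise commutatorElement

universe u v w

section group

variable {K : Type u} [Group K] {g : Bool → K}

theorem nullH_torsion {H : K → Lt → Prop} {a : K → ℝ} {W : List Lt} {n : ℕ} (hn : 0 < n)
    (hw : wval g W ^ n = 1) (hinv : ∀ x, a (wval g W • x) = a x)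
    (hadm : ∀ x, a x ≠ 0 → Adm g H x W) {C : ℝ} (hC : 0 ≤ C) (ha : ∀ x, |a x| ≤ C) :
    NullH g H (conv g a W) := by
  have hn' : (0 : ℝ) < n := by exact_mod_cast hn
  have hn1 : (1 : ℝ) ≤ n := by exact_mod_cast hn
  have hp : ∀ (k : ℕ) (x : K), a x ≠ 0 → Adm g H x (wpow W k) := by
    intro k
    induction k with
    | zero => intro x _; trivial
    | succ k ih =>
      intro x hx
      exact (hadm x hx).append (ih _ (by rw [hinv]; exact hx))
  refine ⟨[(fun x => (n : ℝ)⁻¹ * a x, wpow W n)], C, hC, ?_, ?_⟩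
  · intro p hp'
    simp only [List.mem_singleton] at hp'
    subst hp'
    refine ⟨by rw [wval_wpow, hw], fun x => ?_, fun x hx => ?_⟩
    · simp only
      rw [abs_mul, abs_of_pos (inv_pos.mpr hn')]
      have h1 : (n : ℝ)⁻¹ ≤ 1 := inv_le_one_of_one_le₀ hn1
      have h2 : 0 ≤ |a x| := abs_nonneg _
      have h3 := ha x
      nlinarith
    · refine hp n x fun h => hx ?_
      simp only
      rw [h, mul_zero]
  · intro y s
    simp only [List.map_cons, List.map_nil, List.sum_cons, List.sum_nil, add_zero]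
    rw [conv_smul, conv_wpow hinv, ← mul_assoc, inv_mul_cancel₀ hn'.ne', one_mul]

theorem sg_half {D D' : K → Lt → ℝ} (h : ∀ y s, D' y s = (1 / 2) * D y s)
    (hD : ∀ y s, D y s = 1 ∨ D y s = -1) : sg D' = D := by
  funext y s
  unfold sg
  rw [h]
  rcases hD y s with h1 | h1 <;> rw [h1] <;> norm_num

/-- The data of a pair: lines and pattern. -/
theorem facData_pair' {E F Q : K → ℝ} (h : Package g E F Q) :
    FacData g E 4 2 (fun _ _ => True) (fun k l => APat F Q k l) (fun _ l => l.1 = false) := by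
  classical
  have hEE : ∀ x, E x * E x = 1 := by
    intro x
    rcases h.E1 x with h | h <;> rw [h] <;> norm_num
  have eA : ∀ y s, DP E ((2 : ℕ) / (4 : ℕ)) (fun _ _ => True) (fun k l => APat F Q k l) y s =
      (1 / 2) * DA E F Q y s := by
    intro y s
    rw [DP_on trivial]
    have h1 := DA_val h y s
    have h2 := hEE y
    have h3 : E y * (E y * DA E F Q y s) = DA E F Q y s := by rw [← mul_assoc, h2, one_mul]
    push_cast
    rw [← h1]
    linear_combination (1 / 2 : ℝ) * h3
  have eL : ∀ y s, DP E ((2 : ℕ) / (4 : ℕ)) (fun _ _ => True) (fun _ l => l.1 = false) y s =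
      (1 / 2) * DL E y s := by
    intro y s
    rw [DP_on trivial]
    have h1 := DL_val h y s
    have h2 := hEE y
    have h3 : E y * (E y * DL E y s) = DL E y s := by rw [← mul_assoc, h2, one_mul]
    push_cast
    rw [← h1]
    linear_combination (1 / 2 : ℝ) * h3
  refine ⟨by norm_num, by norm_num, h.E1, h.Eg, fun _ _ => Iff.rfl, ?_,
    fun _ _ _ => trivial, fun _ _ _ => trivial, fun y l => APat.symm h y l,
    fun _ _ => Iff.rfl, apat_ncard h, ?_, ?_, ?_, ?_, ?_⟩
  · intro x
    have : {l : Lt | True} = Set.univ := by ext; simp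
    rw [this, Set.ncard_univ, Nat.card_eq_fintype_card]
    rfl
  · intro x
    have : {l : Lt | l.1 = false} = {((false, false) : Lt), ((false, true) : Lt)} := by
      ext ⟨i, j⟩
      cases i <;> cases j <;> simp
    rw [this, Set.ncard_pair (by simp)]
  · exact ((nullH_of_null h.nullA (H := fun _ _ => True) (fun _ _ => trivial)).smul
      (1 / 2)).congr eA
  · exact ((nullH_of_null h.nullL (H := fun _ _ => True) (fun _ _ => trivial)).smul
      (1 / 2)).congr eL
  · have := sg_half eA (DA_pm h.E1 h.F1 h.Q1)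
    push_cast at this ⊢
    rw [this]
    exact h.mobA
  · have := sg_half eL (DL_pm h.E1)
    push_cast at this ⊢
    rw [this]
    exact h.mobL

/-- The sign of a letter. -/
def lsg (l : Lt) : ℝ := if l.2 then -1 else 1

theorem dp_pos {E : K → ℝ} (hE : ∀ x, E x = 1 ∨ E x = -1) {H P : K → Lt → Prop} {y : K} {l : Lt} :
    sg (DP E ((1 : ℕ) / (3 : ℕ)) H P) y l = 1 ↔
      (H y l ∧ P y l ∧ E y = 1) ∨ (H y l ∧ ¬ P y l ∧ E y = -1) := by
  classical
  rw [sg_eq_one]
  unfold DP
  by_cases h1 : H y l <;> by_cases h2 : P y l <;> rcases hE y with h | h <;>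
    simp [h1, h2, h] <;> norm_num

variable {f Q : K → ℝ} (hf1 : ∀ x, f x = 1 ∨ f x = -1) (hQ1 : ∀ x, Q x = 1 ∨ Q x = -1)
  (fv : ∀ x, f (g false * x) = - f x) (fw : ∀ x, f (g true * x) = f x)
  (Qv : ∀ x, Q (g false * x) = Q x) (Qw : ∀ x, Q (g true * x) = - Q x)

include hf1 hQ1 in
theorem dl_pos (y : K) (l : Lt) :
    sg (DP (fun x => f x * Q x) ((1 : ℕ) / (3 : ℕ)) (Hc Q) (PLc Q)) y l = 1 ↔
      (l.1 = true ∧ lsg l * Q y = 1 ∧ f y * Q y = 1) ∨ (l.1 = false ∧ f y * Q y = -1) := by
  have hE : ∀ x, f x * Q x = 1 ∨ f x * Q x = -1 := by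
    intro x
    rcases hf1 x with h | h <;> rcases hQ1 x with h' | h' <;> rw [h, h'] <;> norm_num
  rw [dp_pos (E := fun x => f x * Q x) hE]
  unfold Hc PLc lsg
  obtain ⟨i, j⟩ := l
  cases i <;> simp
  tauto

include hf1 hQ1 in
theorem da_pos (y : K) (l : Lt) :
    sg (DP (fun x => f x * Q x) ((1 : ℕ) / (3 : ℕ)) (Hc Q) (PAc f)) y l = 1 ↔
      (l.1 = true ∧ lsg l * Q y = 1 ∧ f y * Q y = -1) ∨
      (l.1 = false ∧ lsg l * f y = -1 ∧ f y * Q y = 1) ∨
      (l.1 = false ∧ lsg l * f y = 1 ∧ f y * Q y = -1) := by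
  have hE : ∀ x, f x * Q x = 1 ∨ f x * Q x = -1 := by
    intro x
    rcases hf1 x with h | h <;> rcases hQ1 x with h' | h' <;> rw [h, h'] <;> norm_num
  rw [dp_pos (E := fun x => f x * Q x) hE]
  unfold Hc PAc lsg
  obtain ⟨i, j⟩ := l
  cases i
  · rcases hf1 y with h | h <;> rw [h] <;> cases j <;> simp <;> norm_num
  · simp

include hQ1 Qv Qw in
/-- The flow directed along the lines. -/
theorem convQ_cword (y : K) (s : Lt) [∀ x, Decidable (Q x = 1)] :
    conv g Q [(false, false)] y s =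
      conv g (fun x => if Q x = 1 then 1 else 0) (cword (false, false) (true, false)) y s := by
  have q1 := even_inv Qv
  have q2 := odd_inv Qw
  have n1 : (-1 : ℝ) ≠ 1 := by norm_num
  unfold cword
  simp only [conv_cons, conv_nil, smul_eq_mul]
  obtain ⟨i, j⟩ := s
  cases i <;> cases j <;> rcases hQ1 y with h | h <;>
    simp [linv, lval, Qv, Qw, q1, q2, h, n1]

include hf1 hQ1 fv fw Qv Qw in
theorem mobL_cubic {n : ℕ} (hn : 0 < n) (hc : ⁅g false, g true⁆ ^ n = 1) :
    Mobile g (sg (DP (fun x => f x * Q x) ((1 : ℕ) / (3 : ℕ)) (Hc Q) (PLc Q))) := by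
  refine ⟨4 * n, ?_⟩
  intro y l hl
  rw [dl_pos hf1 hQ1] at hl
  have key : ∀ m : Lt, m.1 = (!l.1) →
      (l.1 = false → lsg m * Q y = 1) →
      ∃ w : List Lt, w.length ≤ 4 * n ∧ wval g (l :: w) = 1 ∧
        Directed g (sg (DP (fun x => f x * Q x) ((1 : ℕ) / (3 : ℕ)) (Hc Q) (PLc Q))) y
          (l :: w) := by
    intro m hm1 hm2
    obtain ⟨k, rfl⟩ : ∃ k, n = k + 1 := ⟨n - 1, by omega⟩
    have hw1 : wpow (cword l m) (k + 1) = l :: ([m, linv l, linv m] ++ wpow (cword l m) k) := rfl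
    refine ⟨[m, linv l, linv m] ++ wpow (cword l m) k, ?_, ?_, ?_⟩
    · rw [List.length_append, wpow_length]
      simp [cword]
      omega
    · rw [← hw1, wval_wpow, wval_cword_pow hc hm1]
    · rw [← hw1]
      refine directed_wpow_of (P := fun z => f z = f y ∧ Q z = Q y) ?_ ?_ (k + 1) y ⟨rfl, rfl⟩
      · rintro z ⟨hz1, hz2⟩
        obtain ⟨i, j⟩ := l
        obtain ⟨i', j'⟩ := m
        simp only at hm1
        subst hm1
        refine ⟨?_, ?_, ?_, ?_, trivial⟩ <;> rw [dl_pos hf1 hQ1] <;>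
          simp only [smul_eq_mul, F_lval fv fw, Q_lval Qv Qw, hz1, hz2, linv, lsg] at hl hm2 ⊢ <;>
          clear hz1 hz2 <;>
          rcases hf1 y with h | h <;> rcases hQ1 y with h' | h' <;>
          rw [h, h'] at hl ⊢ <;> (try rw [h'] at hm2) <;> cases i <;> cases j <;> cases j' <;>
          first
            | (norm_num; done)
            | (norm_num at hl; done)
            | (norm_num at hm2; done)
      · rintro z ⟨hz1, hz2⟩
        rw [F_cword fv fw, Q_cword Qv Qw]
        exact ⟨hz1, hz2⟩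
  have hm : ∃ b : Bool, l.1 = false → lsg (!l.1, b) * Q y = 1 := by
    rcases hQ1 y with h | h <;> rw [h]
    · exact ⟨false, fun _ => by simp [lsg]⟩
    · exact ⟨true, fun _ => by simp [lsg]⟩
  obtain ⟨b, hb⟩ := hm
  exact key (!l.1, b) rfl hb

end group

end Run7.h916
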