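import Pool.Agent.Run7.h916.GenBlocks

set_option autoImplicit false
set_option linter.unusedSectionVars false
set_option linter.unusedVariables false

/-!
Pairs of directions whose commutator has finite order.
-/

namespace Run7.h916

open Set Relation
open scoped Pointwise commutatorElement

universe u v w

section group

variable {K : Type u} [Group K] {g : Bool → K}

theorem comm_pow_swap {x y : K} {n : ℕ} (h : ⁅x, y⁆ ^ n = 1) : ⁅y, x⁆ ^ n = 1 := by
  rw [← commutatorElement_inv, inv_pow, h, inv_one]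

theorem comm_pow_inv {x y : K} {n : ℕ} (h : ⁅x, y⁆ ^ n = 1) : ⁅x⁻¹, y⁆ ^ n = 1 := by
  have h1 : ⁅x⁻¹, y⁆ = x⁻¹ * ⁅y, x⁆ * (x⁻¹)⁻¹ := by
    rw [commutatorElement_def, commutatorElement_def]
    group
  rw [h1, conj_pow, comm_pow_swap h, mul_one, mul_inv_cancel]

theorem comm_pow_inv_right {x y : K} {n : ℕ} (h : ⁅x, y⁆ ^ n = 1) : ⁅x, y⁻¹⁆ ^ n = 1 :=
  comm_pow_swap (comm_pow_inv (comm_pow_swap h))

theorem comm_pow_lval {n : ℕ} (h : ⁅g false, g true⁆ ^ n = 1) {l m : Lt} (hlm : m.1 = !l.1) :
    ⁅lval g l, lval g m⁆ ^ n = 1 := by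
  obtain ⟨i, j⟩ := l
  obtain ⟨i', j'⟩ := m
  simp only at hlm
  subst hlm
  have h' := comm_pow_swap h
  cases i <;> cases j <;> cases j' <;>
    simp only [lval, Bool.not_false, Bool.not_true, if_true, if_false, Bool.false_eq_true] <;>
    first
      | exact h
      | exact h'
      | exact comm_pow_inv h
      | exact comm_pow_inv h'
      | exact comm_pow_inv_right h
      | exact comm_pow_inv_right h'
      | exact comm_pow_inv (comm_pow_inv_right h)
      | exact comm_pow_inv (comm_pow_inv_right h')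

/-- The closed words. -/
def cword (l m : Lt) : List Lt := [l, m, linv l, linv m]

theorem wval_cword_pow {n : ℕ} (h : ⁅g false, g true⁆ ^ n = 1) {l m : Lt} (hlm : m.1 = !l.1) :
    wval g (cword l m) ^ n = 1 := by
  have e : wval g (cword l m) = ⁅(lval g m)⁻¹, (lval g l)⁻¹⁆ := by
    simp [cword, commutatorElement_def, mul_assoc]
  rw [e]
  exact comm_pow_inv (comm_pow_inv_right (comm_pow_swap (comm_pow_lval h hlm)))

theorem null_torsion {a : K → ℝ} {W : List Lt} {n : ℕ} (hn : 0 < n) (hw : wval g W ^ n = 1)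
    (hinv : ∀ x, a (wval g W • x) = a x) {C : ℝ} (hC : 0 ≤ C) (ha : ∀ x, |a x| ≤ C) :
    Null g (conv g a W) := by
  have hn' : (0 : ℝ) < n := by exact_mod_cast hn
  have hn1 : (1 : ℝ) ≤ n := by exact_mod_cast hn
  refine (null_closed (a := fun x => (n : ℝ)⁻¹ * a x) (w := wpow W n) hC
    (by rw [wval_wpow, hw]) (fun x => ?_)).congr (fun y s => ?_)
  · rw [abs_mul, abs_of_pos (inv_pos.mpr hn')]
    have h1 : (n : ℝ)⁻¹ ≤ 1 := inv_le_one_of_one_le₀ hn1
    have h2 : 0 ≤ |a x| := abs_nonneg _
    have h3 := ha x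
    nlinarith
  · rw [conv_smul, conv_wpow hinv, ← mul_assoc, inv_mul_cancel₀ hn'.ne', one_mul]

theorem directed_wpow_of {D : K → Lt → ℝ} {W : List Lt} {P : K → Prop}
    (h1 : ∀ y, P y → Directed g D y W) (h2 : ∀ y, P y → P (wval g W * y)) (k : ℕ) :
    ∀ y, P y → Directed g D y (wpow W k) := by
  induction k with
  | zero => intro y _; trivial
  | succ k ih =>
    intro y hy
    exact (h1 y hy).append (ih _ (h2 y hy))

variable {F Q : K → ℝ} (hF1 : ∀ x, F x = 1 ∨ F x = -1) (hQ1 : ∀ x, Q x = 1 ∨ Q x = -1)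
  (Fv : ∀ x, F (g false * x) = - F x) (Fw : ∀ x, F (g true * x) = F x)
  (Qv : ∀ x, Q (g false * x) = Q x) (Qw : ∀ x, Q (g true * x) = - Q x)

include Fv Fw in
theorem F_lval (l : Lt) (x : K) : F (lval g l * x) = if l.1 then F x else - F x := by
  obtain ⟨i, j⟩ := l
  have h1 := odd_inv Fv x
  have h2 := even_inv Fw x
  cases i <;> cases j <;> simp [lval, Fv, Fw, h1, h2]

include Qv Qw in
theorem Q_lval (l : Lt) (x : K) : Q (lval g l * x) = if l.1 then - Q x else Q x := by
  obtain ⟨i, j⟩ := l
  have h1 := even_inv Qv x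
  have h2 := odd_inv Qw x
  cases i <;> cases j <;> simp [lval, Qv, Qw, h1, h2]

include Fv Fw in
theorem F_cword {l m : Lt} (x : K) : F (wval g (cword l m) * x) = F x := by
  have e : wval g (cword l m) * x = lval g (linv m) * (lval g (linv l) *
      (lval g m * (lval g l * x))) := by
    simp [cword, mul_assoc]
  rw [e, F_lval Fv Fw, F_lval Fv Fw, F_lval Fv Fw, F_lval Fv Fw]
  obtain ⟨i, j⟩ := l
  obtain ⟨i', j'⟩ := m
  cases i <;> cases i' <;> simp [linv]

include Qv Qw in
theorem Q_cword {l m : Lt} (x : K) : Q (wval g (cword l m) * x) = Q x := by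
  have e : wval g (cword l m) * x = lval g (linv m) * (lval g (linv l) *
      (lval g m * (lval g l * x))) := by
    simp [cword, mul_assoc]
  rw [e, Q_lval Qv Qw, Q_lval Qv Qw, Q_lval Qv Qw, Q_lval Qv Qw]
  obtain ⟨i, j⟩ := l
  obtain ⟨i', j'⟩ := m
  cases i <;> cases i' <;> simp [linv]

include hF1 hQ1 Fv Fw Qv Qw in
theorem DA_cword (y : K) (s : Lt) : DA (fun x => F x * Q x) F Q y s =
    conv g (fun x => (1 / 2) * (Q x - F x)) (cword (false, false) (true, false)) y s := by
  have f1 := odd_inv Fv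
  have f2 := even_inv Fw
  have q1 := even_inv Qv
  have q2 := odd_inv Qw
  unfold cword
  simp only [conv_cons, conv_nil, smul_eq_mul]
  unfold DA
  obtain ⟨i, j⟩ := s
  cases i <;> cases j <;> simp [linv, lval, Fv, Fw, Qv, Qw, f1, f2, q1, q2] <;>
    rcases hF1 y with h | h <;> rcases hQ1 y with h' | h' <;> rw [h, h'] <;> norm_num

include hF1 hQ1 Fv Fw Qv Qw in
/-- The data for pairs whose commutator has finite order. -/
theorem package_of_comm {n : ℕ} (hn : 0 < n) (hc : ⁅g false, g true⁆ ^ n = 1) :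
    Package g (fun x => F x * Q x) F Q := by
  have hE1 : ∀ x, F x * Q x = 1 ∨ F x * Q x = -1 := by
    intro x
    rcases hF1 x with h | h <;> rcases hQ1 x with h' | h' <;> rw [h, h'] <;> norm_num
  have hEg : ∀ i x, F (g i * x) * Q (g i * x) = - (F x * Q x) := by
    intro i x
    cases i
    · rw [Fv, Qv]; ring
    · rw [Fw, Qw]; ring
  have hEl : ∀ l x, F (lval g l * x) * Q (lval g l * x) = - (F x * Q x) := fun l x =>
    odd_lval (E := fun x => F x * Q x) hEg l x
  have absF : ∀ x, |F x| = 1 := fun x => by rcases hF1 x with h | h <;> rw [h] <;> norm_num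
  have absQ : ∀ x, |Q x| = 1 := fun x => by rcases hQ1 x with h | h <;> rw [h] <;> norm_num
  have hlen : ∀ l m : Lt, ∃ w, wpow (cword l m) n = l :: w ∧ w.length ≤ 4 * n := by
    intro l m
    obtain ⟨k, rfl⟩ : ∃ k, n = k + 1 := ⟨n - 1, by omega⟩
    refine ⟨[m, linv l, linv m] ++ wpow (cword l m) k, rfl, ?_⟩
    rw [List.length_append, wpow_length]
    simp [cword]
    omega
  refine ⟨hE1, hF1, hQ1, hEg, Fv, Qv, Qw, ⟨2 * n, by omega, ?_⟩, ?_, ?_, ⟨4 * n, ?_⟩,
    ⟨4 * n, ?_⟩⟩
  · -- periods
    have hσ : ∀ x, (fun x => pst (g true) Q (pst (g false) F x))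
        ((fun x => pst (g true) Q (pst (g false) F x)) x) =
        wval g (cword (false, decide (F x = -1)) (true, decide (Q x = -1))) * x := by
      intro x
      have f1 := odd_inv Fv
      have f2 := even_inv Fw
      have q1 := even_inv Qv
      have q2 := odd_inv Qw
      have n1 : (-1 : ℝ) ≠ 1 := by norm_num
      have n2 : (1 : ℝ) ≠ -1 := by norm_num
      rcases hF1 x with h | h <;> rcases hQ1 x with h' | h' <;>
        simp [pst, cword, lval, linv, Fv, Fw, Qv, Qw, f1, f2, q1, q2, h, h', n1, n2, mul_assoc]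
    have hit : ∀ (k : ℕ) (x : K), (fun x => pst (g true) Q (pst (g false) F x))^[2 * k] x =
        wval g (cword (false, decide (F x = -1)) (true, decide (Q x = -1))) ^ k * x := by
      intro k
      induction k with
      | zero => intro x; simp
      | succ k ih =>
        intro x
        rw [Nat.mul_succ, Function.iterate_add_apply]
        have h2 : (fun x => pst (g true) Q (pst (g false) F x))^[2] x =
            wval g (cword (false, decide (F x = -1)) (true, decide (Q x = -1))) * x := hσ x
        rw [h2, ih, F_cword Fv Fw, Q_cword Qv Qw, pow_succ, mul_assoc]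
    intro x
    rw [hit, wval_cword_pow hc rfl, one_mul]
  · -- the flow of lines
    refine (null_torsion (a := fun x => (1 / 2) * (F x * Q x)) (C := 1) hn
      (wval_cword_pow hc (l := (false, false)) (m := (true, false)) rfl) ?_ zero_le_one
      ?_).congr (DL_eq (E := fun x => F x * Q x) hEg)
    · intro x
      simp only [smul_eq_mul]
      rw [F_cword Fv Fw, Q_cword Qv Qw]
    · intro x
      rw [abs_mul, abs_mul, absF, absQ, abs_of_nonneg (by norm_num)]
      norm_num
  · -- the flow of the pattern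
    refine (null_torsion (a := fun x => (1 / 2) * (Q x - F x)) (C := 1) hn
      (wval_cword_pow hc (l := (false, false)) (m := (true, false)) rfl) ?_ zero_le_one
      ?_).congr (DA_cword hF1 hQ1 Fv Fw Qv Qw)
    · intro x
      simp only [smul_eq_mul]
      rw [F_cword Fv Fw, Q_cword Qv Qw]
    · intro x
      rcases hF1 x with h | h <;> rcases hQ1 x with h' | h' <;> rw [h, h'] <;> norm_num
  · -- mobility of the lines
    intro y l hl
    obtain ⟨w, hw1, hw2⟩ := hlen l (!l.1, false)
    refine ⟨w, hw2, ?_, ?_⟩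
    · rw [← hw1, wval_wpow, wval_cword_pow hc rfl]
    · rw [← hw1]
      refine directed_wpow_of (P := fun z => F z * Q z = F y * Q y) ?_ ?_ n y rfl
      · intro z hz
        have hl' : (F z * Q z) * (if l.1 then -1 else 1) = 1 := by
          rw [hz]
          exact hl
        clear hl hz
        obtain ⟨i, j⟩ := l
        simp only at hl'
        refine ⟨hl', ?_, ?_, ?_, trivial⟩ <;> unfold DL <;>
          simp only [smul_eq_mul, hEl, linv] <;>
          rcases hE1 z with he | he <;> rw [he] at hl' ⊢ <;> cases i <;>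
          simp at hl' ⊢ <;> linarith
      · intro z hz
        rw [F_cword Fv Fw, Q_cword Qv Qw]
        exact hz
  · -- mobility of the pattern
    intro y l hl
    have key : ∀ m : Lt, m.1 = (!l.1) →
        (if m.2 then (-1 : ℝ) else 1) = (if l.1 then - Q y else - F y) →
        ∃ w : List Lt, w.length ≤ 4 * n ∧ wval g (l :: w) = 1 ∧
          Directed g (DA (fun x => F x * Q x) F Q) y (l :: w) := by
      intro m hm1 hm2
      obtain ⟨w, hw1, hw2⟩ := hlen l m
      refine ⟨w, hw2, ?_, ?_⟩
      · rw [← hw1, wval_wpow, wval_cword_pow hc hm1]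
      · rw [← hw1]
        refine directed_wpow_of (P := fun z => F z = F y ∧ Q z = Q y) ?_ ?_ n y ⟨rfl, rfl⟩
        · rintro z ⟨hz1, hz2⟩
          obtain ⟨i, j⟩ := l
          obtain ⟨i', j'⟩ := m
          simp only at hm1
          subst hm1
          unfold DA at hl
          simp only at hl hm2
          refine ⟨?_, ?_, ?_, ?_, trivial⟩ <;> unfold DA <;>
            simp only [smul_eq_mul, F_lval Fv Fw, Q_lval Qv Qw, hz1, hz2, linv] <;>
            clear hz1 hz2 <;>
            rcases hF1 y with h | h <;> rcases hQ1 y with h' | h' <;>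
            rw [h, h'] at hl hm2 ⊢ <;> cases i <;> cases j <;> cases j' <;>
            simp at hl hm2 ⊢ <;> linarith
        · rintro z ⟨hz1, hz2⟩
          rw [F_cword Fv Fw, Q_cword Qv Qw]
          exact ⟨hz1, hz2⟩
    have hm : ∃ b : Bool, (if b then (-1 : ℝ) else 1) = (if l.1 then - Q y else - F y) := by
      cases l.1
      · rcases hF1 y with h | h <;> rw [h]
        · exact ⟨true, by simp⟩
        · exact ⟨false, by simp⟩
      · rcases hQ1 y with h | h <;> rw [h]
        · exact ⟨true, by simp⟩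
        · exact ⟨false, by simp⟩
    obtain ⟨b, hb⟩ := hm
    exact key (!l.1, b) rfl hb

end group

end Run7.h916
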