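import Pool.Agent.Run7.h916.Defs

set_option autoImplicit false
set_option linter.unusedSectionVars false

/-!
Flows on the Schreier graph of two generators: the flow carried by the translates of a word.
-/

namespace Run7.h916

open Set

universe u v w

/-- Letters: a generator (`false` or `true`) and a sign. -/
abbrev Lt := Bool × Bool

/-- The inverse letter. -/
def linv (l : Lt) : Lt := (l.1, !l.2)

@[simp] theorem linv_linv (l : Lt) : linv (linv l) = l := by
  simp [linv]

theorem linv_ne (l : Lt) : linv l ≠ l := by
  intro h
  have := congrArg Prod.snd h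
  simp [linv] at this

theorem eq_linv_comm {l m : Lt} : l = linv m ↔ m = linv l := by
  constructor
  · rintro rfl; simp
  · rintro rfl; simp

variable {K : Type u} [Group K]

/-- The value of a letter. -/
def lval (g : Bool → K) (l : Lt) : K := if l.2 then (g l.1)⁻¹ else g l.1

@[simp] theorem lval_linv (g : Bool → K) (l : Lt) : lval g (linv l) = (lval g l)⁻¹ := by
  unfold lval linv
  cases l.2 <;> simp

/-- The value of a word; the letters act from left to right. -/
def wval (g : Bool → K) : List Lt → K
  | [] => 1
  | l :: w => wval g w * lval g l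

@[simp] theorem wval_nil (g : Bool → K) : wval g [] = 1 := rfl
@[simp] theorem wval_cons (g : Bool → K) (l : Lt) (w : List Lt) :
    wval g (l :: w) = wval g w * lval g l := rfl

theorem wval_append (g : Bool → K) (u w : List Lt) : wval g (u ++ w) = wval g w * wval g u := by
  induction u with
  | nil => simp
  | cons l u ih => simp [ih, mul_assoc]

/-- The inverse word. -/
def winv (w : List Lt) : List Lt := (w.map linv).reverse

theorem wval_winv (g : Bool → K) (w : List Lt) : wval g (winv w) = (wval g w)⁻¹ := by
  induction w with
  | nil => simp [winv]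
  | cons l w ih =>
    have : winv (l :: w) = winv w ++ [linv l] := by simp [winv]
    rw [this, wval_append, ih]
    simp

/-- Powers of a word. -/
def wpow (w : List Lt) : ℕ → List Lt
  | 0 => []
  | n + 1 => w ++ wpow w n

theorem wval_wpow (g : Bool → K) (w : List Lt) (n : ℕ) : wval g (wpow w n) = (wval g w) ^ n := by
  induction n with
  | zero => simp [wpow]
  | succ n ih => rw [wpow, wval_append, ih, pow_succ]

variable {Y : Type v} [MulAction K Y]

/-- The flow at the edge from `y` in direction `s` carried by the translates of the word `w`,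
where the path with word `w` starting at `x` carries the flow `a x`. -/
noncomputable def conv (g : Bool → K) : (Y → ℝ) → List Lt → Y → Lt → ℝ
  | _, [], _, _ => 0
  | a, l :: w, y, s => (if s = l then a y else 0) - (if s = linv l then a (lval g s • y) else 0) +
      conv g (fun x => a ((lval g l)⁻¹ • x)) w y s

variable {g : Bool → K}

@[simp] theorem conv_nil (a : Y → ℝ) (y : Y) (s : Lt) : conv g a [] y s = 0 := rfl

theorem conv_cons (a : Y → ℝ) (l : Lt) (w : List Lt) (y : Y) (s : Lt) :
    conv g a (l :: w) y s = (if s = l then a y else 0) -
      (if s = linv l then a (lval g s • y) else 0) +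
      conv g (fun x => a ((lval g l)⁻¹ • x)) w y s := rfl

/-- A flow is antisymmetric. -/
def Antisym (g : Bool → K) (f : Y → Lt → ℝ) : Prop := ∀ y s, f (lval g s • y) (linv s) = - f y s

theorem conv_antisym (a : Y → ℝ) (w : List Lt) : Antisym g (conv g a w) := by
  induction w generalizing a with
  | nil => intro y s; simp
  | cons l w ih =>
    intro y s
    rw [conv_cons, conv_cons, ih]
    have e1 : lval g (linv s) • lval g s • y = y := by simp
    by_cases h1 : s = l
    · subst h1
      have h2 : linv s ≠ s := linv_ne s
      have h3 : s ≠ linv s := fun h => h2 h.symm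
      simp only [h2, h3, if_false, if_true, e1]
      ring
    · by_cases h2 : s = linv l
      · subst h2
        have h3 : linv l ≠ l := linv_ne l
        have h4 : l ≠ linv l := fun h => h3 h.symm
        simp only [linv_linv, h3, h4, if_true, if_false]
        ring
      · have h3 : linv s ≠ l := fun h => h2 (by rw [← h]; simp)
        have h4 : linv s ≠ linv l := fun h => h1 (by rw [← linv_linv s, h, linv_linv])
        simp only [h1, h2, h3, h4, if_false]
        ring

theorem sum_lt_eq (f : Lt → ℝ) (l : Lt) : (∑ s, if s = l then f s else 0) = f l := by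
  simp

/-- The divergence of the flow of a word. -/
theorem conv_div (a : Y → ℝ) (w : List Lt) (y : Y) :
    ∑ s, conv g a w y s = a y - a ((wval g w)⁻¹ • y) := by
  induction w generalizing a with
  | nil => simp
  | cons l w ih =>
    simp only [conv_cons, Finset.sum_add_distrib, Finset.sum_sub_distrib]
    rw [ih]
    simp only [Finset.sum_ite_eq', Finset.mem_univ, if_true]
    simp [mul_smul]

theorem conv_append (a : Y → ℝ) (u w : List Lt) (y : Y) (s : Lt) :
    conv g a (u ++ w) y s = conv g a u y s + conv g (fun x => a ((wval g u)⁻¹ • x)) w y s := by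
  induction u generalizing a with
  | nil => simp
  | cons l u ih =>
    rw [List.cons_append, conv_cons, ih, conv_cons]
    simp only [wval_cons, mul_inv_rev, mul_smul]
    ring

theorem conv_add (a b : Y → ℝ) (w : List Lt) (y : Y) (s : Lt) :
    conv g (fun x => a x + b x) w y s = conv g a w y s + conv g b w y s := by
  induction w generalizing a b with
  | nil => simp
  | cons l w ih =>
    rw [conv_cons, conv_cons, conv_cons, ih]
    split_ifs <;> ring

theorem conv_smul (c : ℝ) (a : Y → ℝ) (w : List Lt) (y : Y) (s : Lt) :
    conv g (fun x => c * a x) w y s = c * conv g a w y s := by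
  induction w generalizing a with
  | nil => simp
  | cons l w ih =>
    rw [conv_cons, conv_cons, ih]
    split_ifs <;> ring

theorem conv_winv (a : Y → ℝ) (w : List Lt) (y : Y) (s : Lt) :
    conv g a (winv w) y s = - conv g (fun x => a (wval g w • x)) w y s := by
  induction w generalizing a with
  | nil => simp [winv]
  | cons l w ih =>
    have : winv (l :: w) = winv w ++ [linv l] := by simp [winv]
    rw [this, conv_append, ih, conv_cons, conv_cons, conv_nil]
    simp only [wval_winv, inv_inv, linv_linv]
    have e1 : ∀ x : Y, wval g (l :: w) • (lval g l)⁻¹ • x = wval g w • x := by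
      intro x; simp [mul_smul]
    simp only [e1]
    have h3 : (if s = l then a (wval g w • lval g s • y) else 0) =
        if s = l then a (wval g (l :: w) • y) else 0 := by
      split_ifs with h
      · rw [h]; simp [mul_smul]
      · rfl
    have h4 : (if s = linv l then a (wval g (l :: w) • lval g s • y) else 0) =
        if s = linv l then a (wval g w • y) else 0 := by
      split_ifs with h
      · rw [h]; simp [mul_smul]
      · rfl
    rw [h3, h4]
    ring

/-- Points reached from `y` by at most `n` letters. -/
def Ball (g : Bool → K) (n : ℕ) (y : Y) : Set Y := {x | ∃ w : List Lt, w.length ≤ n ∧ wval g w • y = x}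

theorem mem_ball_self (n : ℕ) (y : Y) : y ∈ Ball g n y := ⟨[], by simp, by simp⟩

theorem Ball.mono {n m : ℕ} (h : n ≤ m) (y : Y) : Ball g n y ⊆ Ball g m y := by
  rintro x ⟨w, hw, rfl⟩
  exact ⟨w, hw.trans h, rfl⟩

theorem Ball.step {n : ℕ} {y x : Y} (h : x ∈ Ball g n y) (l : Lt) : lval g l • x ∈ Ball g (n + 1) y := by
  obtain ⟨w, hw, rfl⟩ := h
  exact ⟨w ++ [l], by simp; omega, by rw [wval_append]; simp [mul_smul]⟩

theorem Ball.of_step {n : ℕ} {y x : Y} (l : Lt) (h : x ∈ Ball g n (lval g l • y)) :
    x ∈ Ball g (n + 1) y := by
  obtain ⟨w, hw, rfl⟩ := h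
  exact ⟨l :: w, by simp; omega, by simp [mul_smul]⟩

theorem Ball.trans {n m : ℕ} {y x z : Y} (h : x ∈ Ball g n y) (h' : z ∈ Ball g m x) :
    z ∈ Ball g (n + m) y := by
  obtain ⟨w, hw, rfl⟩ := h
  obtain ⟨w', hw', rfl⟩ := h'
  exact ⟨w ++ w', by simp; omega, by rw [wval_append, mul_smul]⟩

theorem Ball.symm {n : ℕ} {y x : Y} (h : x ∈ Ball g n y) : y ∈ Ball g n x := by
  obtain ⟨w, hw, rfl⟩ := h
  exact ⟨winv w, by simpa [winv] using hw, by rw [wval_winv, inv_smul_smul]⟩

/-- The flow of a word at `y` depends only on the weights near `y`, and is carried by equivariant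
maps. -/
theorem conv_transport {K' : Type*} [Group K'] {g' : Bool → K'} {Z : Type w} [MulAction K' Z]
    {q : Y → Z} (c : ℝ) (w : List Lt) :
    ∀ (a : Y → ℝ) (b : Z → ℝ) (y : Y),
      (∀ x ∈ Ball g w.length y, a x = c * b (q x)) →
      (∀ x ∈ Ball g w.length y, ∀ l, q (lval g l • x) = lval g' l • q x) → ∀ s,
      conv g a w y s = c * conv g' b w (q y) s := by
  induction w with
  | nil => intro a b y _ _ s; simp
  | cons l w ih =>
    intro a b y ha hq s
    have hy := mem_ball_self (g := g) (l :: w).length y
    rw [conv_cons, conv_cons]
    have h1 : (if s = l then a y else 0) = c * (if s = l then b (q y) else 0) := by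
      split_ifs
      · exact ha y hy
      · ring
    have h2 : (if s = linv l then a (lval g s • y) else 0) =
        c * (if s = linv l then b (lval g' s • q y) else 0) := by
      split_ifs
      · rw [ha _ ⟨[s], by simp, by simp⟩, hq y hy]
      · ring
    have h3 := ih (fun x => a ((lval g l)⁻¹ • x)) (fun x => b ((lval g' l)⁻¹ • x)) y
      (fun x hx => by
        have hx' : x ∈ Ball g (l :: w).length y := Ball.mono (by simp) y hx
        have hx2 := Ball.step hx (linv l)
        rw [lval_linv] at hx2
        rw [ha _ (by simpa using hx2)]
        have := hq x hx' (linv l)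
        rw [lval_linv, lval_linv] at this
        rw [this])
      (fun x hx l' => hq x (Ball.mono (by simp) y hx) l') s
    rw [h1, h2, h3]
    ring

theorem conv_congr {a b : Y → ℝ} {w : List Lt} {y : Y} (h : ∀ x ∈ Ball g w.length y, a x = b x)
    (s : Lt) : conv g a w y s = conv g b w y s := by
  have := conv_transport (g := g) (g' := g) (q := fun x : Y => x) 1 w a b y
    (fun x hx => by rw [h x hx, one_mul]) (fun _ _ _ => rfl) s
  rw [this, one_mul]

theorem conv_zero (w : List Lt) (y : Y) (s : Lt) : conv g (fun _ : Y => (0 : ℝ)) w y s = 0 := by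
  induction w generalizing y with
  | nil => simp
  | cons l w ih => rw [conv_cons, ih]; simp

theorem abs_conv_le {C : ℝ} (hC : 0 ≤ C) (w : List Lt) :
    ∀ (a : Y → ℝ) (y : Y), (∀ x ∈ Ball g w.length y, |a x| ≤ C) → ∀ s,
      |conv g a w y s| ≤ w.length * C := by
  induction w with
  | nil => intro a y _ s; simp
  | cons l w ih =>
    intro a y ha s
    rw [conv_cons]
    have h3 := ih (fun x => a ((lval g l)⁻¹ • x)) y (fun x hx => by
      have hx2 := Ball.step hx (linv l)
      rw [lval_linv] at hx2
      exact ha _ (by simpa using hx2)) s
    have h12 : |(if s = l then a y else 0) - (if s = linv l then a (lval g s • y) else 0)| ≤ C := by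
      by_cases h1 : s = l
      · have h2 : s ≠ linv l := by rw [h1]; exact fun h => linv_ne l h.symm
        rw [if_pos h1, if_neg h2, sub_zero]
        exact ha y (mem_ball_self _ y)
      · rw [if_neg h1, zero_sub, abs_neg]
        split_ifs
        · exact ha _ ⟨[s], by simp, by simp⟩
        · simpa using hC
    have := abs_add_le ((if s = l then a y else 0) - (if s = linv l then a (lval g s • y) else 0))
      (conv g (fun x => a ((lval g l)⁻¹ • x)) w y s)
    simp only [List.length_cons, Nat.cast_add, Nat.cast_one]
    nlinarith

/-- A word which is directed at `y` for the orientation `D`. -/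
def Directed (g : Bool → K) (D : Y → Lt → ℝ) : Y → List Lt → Prop
  | _, [] => True
  | y, l :: w => D y l = 1 ∧ Directed g D (lval g l • y) w

/-- The flow of directed words has the sign of the orientation. -/
theorem conv_directed_nonneg {D : Y → Lt → ℝ} (hD : Antisym g D) (w : List Lt) :
    ∀ (a : Y → ℝ), (∀ x, 0 ≤ a x) → (∀ x, a x ≠ 0 → Directed g D x w) → ∀ y s,
      0 ≤ D y s * conv g a w y s := by
  induction w with
  | nil => intro a _ _ y s; simp
  | cons l w ih =>
    intro a ha hd y s
    rw [conv_cons, mul_add]
    have h3 := ih (fun x => a ((lval g l)⁻¹ • x)) (fun x => ha _) (fun x hx => by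
      have := (hd _ hx).2
      rwa [smul_inv_smul] at this) y s
    have h12 : 0 ≤ D y s * ((if s = l then a y else 0) -
        (if s = linv l then a (lval g s • y) else 0)) := by
      by_cases h1 : s = l
      · have h2 : s ≠ linv l := by rw [h1]; exact fun h => linv_ne l h.symm
        rw [if_pos h1, if_neg h2, sub_zero]
        by_cases h0 : a y = 0
        · rw [h0, mul_zero]
        · rw [h1, (hd y h0).1, one_mul]
          exact ha y
      · rw [if_neg h1, zero_sub]
        split_ifs with h2
        · by_cases h0 : a (lval g s • y) = 0
          · rw [h0]; simp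
          · have h4 := (hd _ h0).1
            have h5 := hD y s
            have h6 : linv s = l := by rw [h2]; simp
            rw [h6, h4] at h5
            have h7 : D y s = -1 := by linarith
            rw [h7]
            have := ha (lval g s • y)
            linarith
        · simp
    linarith

/-- Lower bound for the flow of directed words. -/
theorem conv_directed_ge {D : Y → Lt → ℝ} (hD : Antisym g D) {l : Lt} {w : List Lt}
    {a : Y → ℝ} (ha : ∀ x, 0 ≤ a x) (hd : ∀ x, a x ≠ 0 → Directed g D x (l :: w)) (y : Y) :
    a y ≤ conv g a (l :: w) y l ∨ D y l ≠ 1 := by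
  by_cases h : D y l = 1
  · left
    rw [conv_cons]
    have h2 : l ≠ linv l := fun h => linv_ne l h.symm
    rw [if_pos rfl, if_neg h2, sub_zero]
    have := conv_directed_nonneg hD w (fun x => a ((lval g l)⁻¹ • x)) (fun x => ha _)
      (fun x hx => by
        have := (hd _ hx).2
        rwa [smul_inv_smul] at this) y l
    rw [h, one_mul] at this
    linarith
  · right; exact h

end Run7.h916
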