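import Pool.Agent.Run7.h916.Null

set_option autoImplicit false
set_option linter.unusedSectionVars false
set_option linter.unusedVariables false

/-!
Null flows in a set of admissible edges.
-/

namespace Run7.h916

open Set
open scoped commutatorElement

universe u v w

variable {K : Type u} [Group K] {g : Bool → K}

section basic

variable {Y : Type v} [MulAction K Y]

/-- The path with word `w` from `y` uses admissible edges. -/
def Adm (g : Bool → K) (H : Y → Lt → Prop) : Y → List Lt → Prop
  | _, [] => True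
  | y, l :: w => H y l ∧ Adm g H (lval g l • y) w

/-- A symmetric set of edges. -/
def SymmE (g : Bool → K) (H : Y → Lt → Prop) : Prop :=
  ∀ y l, H y l ↔ H (lval g l • y) (linv l)

variable {H : Y → Lt → Prop}

theorem Adm.append {u w : List Lt} {y : Y} (h : Adm g H y u)
    (h' : Adm g H (wval g u • y) w) : Adm g H y (u ++ w) := by
  induction u generalizing y with
  | nil => simpa using h'
  | cons l u ih =>
    refine ⟨h.1, ih h.2 ?_⟩
    rw [wval_cons, mul_smul] at h'
    exact h'

theorem Adm.winv (hH : SymmE g H) {w : List Lt} {y : Y} (h : Adm g H y w) :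
    Adm g H (wval g w • y) (winv w) := by
  induction w generalizing y with
  | nil => trivial
  | cons l w ih =>
    have e : Run7.h916.winv (l :: w) = Run7.h916.winv w ++ [linv l] := by
      simp [Run7.h916.winv]
    rw [e]
    have h1 := ih h.2
    rw [wval_cons, mul_smul]
    refine h1.append ⟨?_, trivial⟩
    rw [wval_winv, inv_smul_smul]
    exact (hH y l).mp h.1

theorem conv_adm (hH : SymmE g H) (w : List Lt) :
    ∀ (a : Y → ℝ), (∀ x, a x ≠ 0 → Adm g H x w) → ∀ y s, ¬ H y s → conv g a w y s = 0 := by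
  induction w with
  | nil => intro a _ y s _; simp
  | cons l w ih =>
    intro a ha y s hs
    rw [conv_cons, ih (fun x => a ((lval g l)⁻¹ • x)) (fun x hx => by
      have := (ha _ hx).2
      rwa [smul_inv_smul] at this) y s hs, add_zero]
    have h1 : (if s = l then a y else 0) = 0 := by
      split_ifs with h
      · by_contra hne
        rw [h] at hs
        exact hs (ha y hne).1
      · rfl
    have h2 : (if s = linv l then a (lval g s • y) else 0) = 0 := by
      split_ifs with h
      · by_contra hne
        apply hs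
        rw [hH y s]
        have h3 := (ha _ hne).1
        have h4 : linv s = l := by rw [h]; simp
        rw [h4]
        exact h3
      · rfl
    rw [h1, h2, sub_zero]

end basic

/-- Null flows in a set of admissible edges. -/
def NullH (g : Bool → K) (H : K → Lt → Prop) (D : K → Lt → ℝ) : Prop :=
  ∃ (L : List ((K → ℝ) × List Lt)) (C : ℝ), 0 ≤ C ∧
    (∀ p ∈ L, wval g p.2 = 1 ∧ (∀ x, |p.1 x| ≤ C) ∧ ∀ x, p.1 x ≠ 0 → Adm g H x p.2) ∧
    ∀ y s, D y s = (L.map (fun p => conv g p.1 p.2 y s)).sum

variable {H : K → Lt → Prop}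

theorem NullH.congr {D E : K → Lt → ℝ} (h : NullH g H D) (hE : ∀ y s, E y s = D y s) :
    NullH g H E := by
  obtain ⟨L, C, h0, h1, h2⟩ := h
  exact ⟨L, C, h0, h1, fun y s => by rw [hE, h2]⟩

theorem NullH.add {D E : K → Lt → ℝ} (h : NullH g H D) (h' : NullH g H E) :
    NullH g H (fun y s => D y s + E y s) := by
  obtain ⟨L, C, h0, h1, h2⟩ := h
  obtain ⟨L', C', h0', h1', h2'⟩ := h'
  refine ⟨L ++ L', C + C', by positivity, ?_, ?_⟩
  · intro p hp
    rcases List.mem_append.mp hp with hp | hp
    · exact ⟨(h1 p hp).1, fun x => ((h1 p hp).2.1 x).trans (by linarith), (h1 p hp).2.2⟩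
    · exact ⟨(h1' p hp).1, fun x => ((h1' p hp).2.1 x).trans (by linarith), (h1' p hp).2.2⟩
  · intro y s
    simp only [List.map_append, List.sum_append]
    rw [h2, h2']

theorem NullH.smul {D : K → Lt → ℝ} (h : NullH g H D) (c : ℝ) :
    NullH g H (fun y s => c * D y s) := by
  obtain ⟨L, C, h0, h1, h2⟩ := h
  refine ⟨L.map (fun p => (fun x => c * p.1 x, p.2)), |c| * C, by positivity, ?_, ?_⟩
  · intro p hp
    obtain ⟨p', hp', rfl⟩ := List.mem_map.mp hp
    refine ⟨(h1 p' hp').1, fun x => ?_, fun x hx => ?_⟩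
    · simp only
      rw [abs_mul]
      exact mul_le_mul_of_nonneg_left ((h1 p' hp').2.1 x) (abs_nonneg _)
    · exact (h1 p' hp').2.2 x (fun h3 => hx (by simp only; rw [h3, mul_zero]))
  · intro y s
    simp only
    rw [h2, List.map_map]
    have : ∀ L : List ((K → ℝ) × List Lt), c * (L.map (fun p => conv g p.1 p.2 y s)).sum =
        (L.map ((fun p => conv g p.1 p.2 y s) ∘ fun p => (fun x => c * p.1 x, p.2))).sum := by
      intro L
      induction L with
      | nil => simp
      | cons p L ih =>
        simp only [List.map_cons, List.sum_cons, Function.comp]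
        rw [mul_add, ih, conv_smul]
    exact this L

theorem nullH_of_null {D : K → Lt → ℝ} (h : Null g D) (hH : ∀ y l, H y l) : NullH g H D := by
  obtain ⟨L, C, h0, h1, h2⟩ := h
  refine ⟨L, C, h0, fun p hp => ⟨(h1 p hp).1, (h1 p hp).2, fun x _ => ?_⟩, h2⟩
  have : ∀ (w : List Lt) (x : K), Adm g H x w := by
    intro w
    induction w with
    | nil => intro x; trivial
    | cons l w ih => intro x; exact ⟨hH _ _, ih _⟩
  exact this _ _

theorem NullH.mono {H' : K → Lt → Prop} {D : K → Lt → ℝ} (h : NullH g H D)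
    (hHH : ∀ y l, H y l → H' y l) : NullH g H' D := by
  obtain ⟨L, C, h0, h1, h2⟩ := h
  have : ∀ (w : List Lt) (x : K), Adm g H x w → Adm g H' x w := by
    intro w
    induction w with
    | nil => intro x _; trivial
    | cons l w ih => intro x h; exact ⟨hHH _ _ h.1, ih _ h.2⟩
  exact ⟨L, C, h0, fun p hp => ⟨(h1 p hp).1, (h1 p hp).2.1, fun x hx =>
    this _ _ ((h1 p hp).2.2 x hx)⟩, h2⟩

/-- Words which are loops at the points of `Z`. -/
structure Loop (g : Bool → K) (H : K → Lt → Prop) (Z : K → Prop) (w : List Lt) : Prop where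
  /-- The word is admissible. -/
  adm : ∀ x, Z x → Adm g H x w
  /-- The word preserves the set. -/
  inv : ∀ x, Z (wval g w * x) ↔ Z x

theorem Loop.append {Z : K → Prop} {u w : List Lt} (h : Loop g H Z u) (h' : Loop g H Z w) :
    Loop g H Z (u ++ w) := by
  refine ⟨fun x hx => (h.adm x hx).append (h'.adm _ ((h.inv x).mpr hx)), fun x => ?_⟩
  rw [wval_append, mul_assoc, h'.inv, h.inv]

theorem Loop.winv (hH : SymmE g H) {Z : K → Prop} {w : List Lt} (h : Loop g H Z w) :
    Loop g H Z (winv w) := by
  have hi : ∀ x, Z ((wval g w)⁻¹ * x) ↔ Z x := by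
    intro x
    rw [← h.inv, mul_inv_cancel_left]
  refine ⟨fun x hx => ?_, fun x => ?_⟩
  · have h1 := (h.adm _ ((hi x).mpr hx)).winv hH
    rwa [smul_eq_mul, mul_inv_cancel_left] at h1
  · rw [wval_winv]
    exact hi x

theorem Loop.hseq (hH : SymmE g H) {Z : K → Prop} {Wt w : List Lt} (ht : Loop g H Z Wt)
    (h : Loop g H Z w) (k : ℕ) : Loop g H Z (hseq Wt w k) := by
  induction k with
  | zero => exact h
  | succ k ih => exact (ht.winv hH).append (ih.append (ht.append (ih.winv hH)))

/-- **Crossing lemma** in a set of admissible edges. -/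
theorem nullH_crossing [Group.IsNilpotent K] (hH : SymmE g H) {Z : K → Prop} {Wt w : List Lt}
    {a : K → ℝ} {C : ℝ} (hC : 0 ≤ C) (ha : ∀ x, |a x| ≤ C) (haZ : ∀ x, a x ≠ 0 → Z x)
    (hLt : Loop g H Z Wt) (hLw : Loop g H Z w)
    (hh : ∀ x, a (wval g w * x) = a x) (ht : ∀ x, a (wval g Wt * x) = - a x) :
    NullH g H (conv g a w) := by
  obtain ⟨n, hn⟩ := Subgroup.nilpotent_iff_lowerCentralSeries.mp (inferInstance : Group.IsNilpotent K)
  have h1 : wval g (Run7.h916.hseq Wt w n) = 1 := by
    have := hseq_mem (g := g) Wt w n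
    rw [hn] at this
    simpa using this
  refine ⟨[(fun x => (-1 / 2) ^ n * a x, Run7.h916.hseq Wt w n)], C, hC, ?_, ?_⟩
  · intro p hp
    simp only [List.mem_singleton] at hp
    subst hp
    refine ⟨h1, fun x => ?_, fun x hx => ?_⟩
    · simp only
      rw [abs_mul, abs_pow]
      have : |(-1 / 2 : ℝ)| ^ n ≤ 1 := by
        apply pow_le_one₀ (abs_nonneg _)
        rw [abs_le]; constructor <;> norm_num
      have h0 := abs_nonneg (a x)
      have := ha x
      nlinarith [abs_nonneg (a x)]
    · have hax : a x ≠ 0 := fun h => hx (by simp only; rw [h, mul_zero])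
      exact (Loop.hseq hH hLt hLw n).adm x (haZ x hax)
  · intro y s
    simp only [List.map_cons, List.map_nil, List.sum_cons, List.sum_nil, add_zero]
    exact conv_hseq' hh ht n y s

theorem nullH_closed {a : K → ℝ} {w : List Lt} {C : ℝ} (hC : 0 ≤ C) (hw : wval g w = 1)
    (ha : ∀ x, |a x| ≤ C) (hadm : ∀ x, a x ≠ 0 → Adm g H x w) : NullH g H (conv g a w) := by
  refine ⟨[(a, w)], C, hC, ?_, ?_⟩
  · intro p hp
    simp only [List.mem_singleton] at hp
    subst hp
    exact ⟨hw, ha, hadm⟩
  · intro y s; simp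

theorem adm_lift {G : Type w} [Group G] {π : K →* G} {H : G → Lt → Prop} (W : List Lt) :
    ∀ y : K, Adm (fun i => π (g i)) H (π y) W → Adm g (fun k s => H (π k) s) y W := by
  induction W with
  | nil => intro y _; trivial
  | cons l W ih =>
    intro y h
    refine ⟨h.1, ih _ ?_⟩
    have := h.2
    rw [smul_eq_mul, ← map_lval, ← map_mul] at this
    exact this

theorem adm_wpow {G : Type w} [Group G] {π : K →* G} {H : G → Lt → Prop} {W : List Lt}
    (hW : π (wval g W) = 1) (m : ℕ) :
    ∀ y : K, Adm (fun i => π (g i)) H (π y) W →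
      Adm g (fun k s => H (π k) s) y (wpow W m) := by
  induction m with
  | zero => intro y _; trivial
  | succ m ih =>
    intro y h
    refine (adm_lift W y h).append (ih _ ?_)
    rw [smul_eq_mul, map_mul, hW, one_mul]
    exact h

/-- Null flows can be lifted along homomorphisms whose kernel is a torsion group. -/
theorem NullH.lift {G : Type w} [Group G] {π : K →* G} (hπ : ∀ k, π k = 1 → IsOfFinOrder k)
    {H : G → Lt → Prop} {D : G → Lt → ℝ} (h : NullH (fun i => π (g i)) H D) :
    NullH g (fun k s => H (π k) s) (fun k s => D (π k) s) := by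
  classical
  obtain ⟨L, C, h0, h1, h2⟩ := h
  let m : List Lt → ℕ := fun W => if IsOfFinOrder (wval g W) then orderOf (wval g W) else 1
  have hm : ∀ W, 1 ≤ m W := by
    intro W
    simp only [m]
    split_ifs with h
    · exact h.orderOf_pos
    · exact le_rfl
  refine ⟨L.map (fun p => (fun k => (m p.2 : ℝ)⁻¹ * p.1 (π k), wpow p.2 (m p.2))), C, h0, ?_, ?_⟩
  · intro p hp
    obtain ⟨p', hp', rfl⟩ := List.mem_map.mp hp
    obtain ⟨h3, h4, h5⟩ := h1 p' hp'
    have hf : IsOfFinOrder (wval g p'.2) := hπ _ (by rw [map_wval]; exact h3)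
    refine ⟨?_, ?_, ?_⟩
    · simp only
      rw [wval_wpow]
      simp only [m]
      rw [if_pos hf, pow_orderOf_eq_one]
    · intro x
      simp only
      rw [abs_mul]
      have h5 : |((m p'.2 : ℝ))⁻¹| ≤ 1 := by
        rw [abs_of_nonneg (by positivity)]
        apply inv_le_one_of_one_le₀
        exact_mod_cast hm p'.2
      have h6 := h4 (π x)
      nlinarith [abs_nonneg (p'.1 (π x)), abs_nonneg ((m p'.2 : ℝ))⁻¹]
    · intro x hx
      simp only at hx
      refine adm_wpow (by rw [map_wval]; exact h3) _ x (h5 _ ?_)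
      intro h6
      rw [h6, mul_zero] at hx
      exact hx rfl
  · intro y s
    simp only
    rw [h2, List.map_map]
    congr 1
    refine List.map_congr_left fun p hp => ?_
    obtain ⟨h3, h4, _⟩ := h1 p hp
    simp only [Function.comp]
    rw [conv_smul, conv_wpow (a := fun k : K => p.1 (π k))]
    · have hne : (m p.2 : ℝ) ≠ 0 := by
        have := hm p.2
        positivity
      rw [← mul_assoc, inv_mul_cancel₀ hne, one_mul]
      have := conv_transport (g := g) (g' := fun i => π (g i)) (q := fun k : K => π k) 1 p.2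
        (fun k => p.1 (π k)) p.1 y (fun x _ => by rw [one_mul])
        (fun x _ l => by rw [smul_eq_mul, smul_eq_mul, map_mul, map_lval]) s
      rw [one_mul] at this
      exact this.symm
    · intro x
      rw [smul_eq_mul, map_mul, map_wval, h3, one_mul]

end Run7.h916
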