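import Mathlib

set_option autoImplicit false

/-!
Definitions for Borel edge colourings of Schreier graphs of free Borel actions: Schreier graphs,
powers of a graph, the Borel asymptotic separation index, the Borel chromatic index.
-/

namespace Run7.h916

open Set

universe u v

/-- The Schreier graph of an action with respect to a finite set `S` of group elements: distinct
points `x`, `y` are adjacent if some `s ∈ S` carries one to the other. -/
def schreierGraph {Γ : Type u} [Group Γ] (S : Finset Γ) (X : Type v) [MulAction Γ X] :
    SimpleGraph X :=
  SimpleGraph.fromRel (fun x y => ∃ s ∈ S, s • x = y)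

/-- The power `G^{≤ N}` of a graph: distinct points are adjacent if they are at path distance at
most `N`. -/
def powerGraph {X : Type v} (G : SimpleGraph X) (N : ℕ) : SimpleGraph X :=
  SimpleGraph.fromRel (fun x y => ∃ p : G.Walk x y, p.length ≤ N)

/-- `G` has Borel separation index at most `s`: for every `N ≥ 1` there is a partition of the
vertex set into Borel sets `U 0, …, U s` such that every connected component of each graph
induced by the power `G^{≤ N}` on `U i` is finite. -/
def HasSeparation {X : Type v} [MeasurableSpace X] (G : SimpleGraph X) (s : ℕ) : Prop :=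
  ∀ N : ℕ, 1 ≤ N → ∃ U : Fin (s + 1) → Set X,
    (∀ i, MeasurableSet (U i)) ∧ (∀ x, ∃! i, x ∈ U i) ∧
    ∀ (i : Fin (s + 1)) (C : ((powerGraph G N).induce (U i)).ConnectedComponent), C.supp.Finite

/-- The Borel asymptotic separation index of a graph, the least `s` such that `HasSeparation G s`
(`⊤` if there is none). -/
noncomputable def asiB {X : Type v} [MeasurableSpace X] (G : SimpleGraph X) : ℕ∞ :=
  ⨅ (s : ℕ) (_ : HasSeparation G s), (s : ℕ∞)

/-- The graph `G` has a Borel edge colouring with `n` colours: there is a Borel map from the set of
edges to `Fin n` which gives distinct values to any two distinct edges that share a vertex. -/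
def BorelEdgeColorable {X : Type v} [MeasurableSpace X] (G : SimpleGraph X) (n : ℕ) : Prop :=
  ∃ c : {p : X × X // G.Adj p.1 p.2} → Fin n, Measurable c ∧
    (∀ (x y : X) (h : G.Adj x y), c ⟨(x, y), h⟩ = c ⟨(y, x), h.symm⟩) ∧
    ∀ (x y z : X) (h : G.Adj x y) (h' : G.Adj x z), y ≠ z → c ⟨(x, y), h⟩ ≠ c ⟨(x, z), h'⟩

/-- The Borel chromatic index of a graph: the least number of colours of a Borel edge colouring
(`⊤` if there is no such colouring with finitely many colours). -/
noncomputable def borelChromaticIndex {X : Type v} [MeasurableSpace X] (G : SimpleGraph X) : ℕ∞ :=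
  ⨅ (n : ℕ) (_ : BorelEdgeColorable G n), (n : ℕ∞)

/-- A marked group: `S` is a finite symmetric generating set of `Γ` with `1 ∉ S`. -/
structure IsMarking {Γ : Type u} [Group Γ] (S : Finset Γ) : Prop where
  /-- The set is symmetric. -/
  inv_mem : ∀ s ∈ S, s⁻¹ ∈ S
  /-- It does not contain the neutral element. -/
  one_notMem : (1 : Γ) ∉ S
  /-- It generates the group. -/
  closure_eq : Subgroup.closure (S : Set Γ) = ⊤

/-- A free Borel action of a countable group: every group element acts by a Borel map, and only the
neutral element has a fixed point. -/
structure IsFreeBorel (Γ : Type u) [Group Γ] (X : Type v) [MeasurableSpace X] [MulAction Γ X] :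
    Prop where
  /-- Every group element acts by a Borel map. -/
  measurable_smul : ∀ γ : Γ, Measurable (fun x : X => γ • x)
  /-- The action is free. -/
  free : ∀ (γ : Γ) (x : X), γ • x = x → γ = 1

/-- Hypothesis (H): the action is a free Borel action on `X` with Borel asymptotic separation
index `1`, and no element of `S` has odd (finite) order. -/
structure HypH {Γ : Type u} [Group Γ] (S : Finset Γ) (X : Type v) [MeasurableSpace X]
    [MulAction Γ X] : Prop where
  /-- The action is a free Borel action. -/
  freeBorel : IsFreeBorel Γ X
  /-- Its Borel asymptotic separation index is `1`. -/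
  asi : asiB (schreierGraph S X) = 1
  /-- No element of `S` has odd order (`orderOf s = 0` if `s` has infinite order). -/
  not_odd : ∀ s ∈ S, ¬ Odd (orderOf s)

/-- `Γ` is a finite extension of `ℤ`: it has a finite normal subgroup with quotient `ℤ`. -/
def FiniteExtensionOfInt (Γ : Type u) [Group Γ] : Prop :=
  ∃ (Δ : Subgroup Γ) (_ : Δ.Normal), Finite Δ ∧ Nonempty (Γ ⧸ Δ ≃* Multiplicative ℤ)

/-- A group is virtually infinite cyclic if it has an infinite cyclic subgroup of finite index. -/
def VirtuallyInfiniteCyclic (G : Type u) [Group G] : Prop :=
  ∃ N : Subgroup G, N.FiniteIndex ∧ Nonempty (N ≃* Multiplicative ℤ)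

/-- A subgroup is locally finite if all of its finitely generated subgroups are finite. -/
def IsLocallyFinite {Γ : Type u} [Group Γ] (L : Subgroup Γ) : Prop :=
  ∀ K : Subgroup Γ, K ≤ L → K.FG → Finite K

end Run7.h916
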