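import Pool.Agent.Run7.h916.Main

set_option autoImplicit false
set_option linter.unusedSectionVars false
set_option linter.unusedVariables false

/-!
A radial function and coordinates near a Borel set with finite pieces.
-/

namespace Run7.h916

open Set Relation
open scoped Pointwise

universe u v w

variable {Γ : Type u} [Group Γ] {X : Type v} [MulAction Γ X]

/-- Radial functions with coordinates near the centre. -/
structure Radial (T : Set Γ) (R : ℕ) (d : X → ℕ) (δ : X → Γ) [MeasurableSpace X] : Prop where
  /-- The function is Borel. -/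
  dm : ∀ k, MeasurableSet {x | d x = k}
  /-- The coordinates are Borel. -/
  δm : ∀ γ, MeasurableSet {x | δ x = γ}
  /-- The function has small steps. -/
  lip : ∀ s ∈ T, ∀ x, d (s • x) ≤ d x + 1
  /-- The coordinates are equivariant near the centre. -/
  coord : ∀ s ∈ T, ∀ x, d x ≤ R → d (s • x) ≤ R → δ (s • x) * s = δ x
  /-- The pieces near the centre are finite. -/
  fin0 : ∀ x, d x ≤ R → {y | Conn T {z | d z ≤ R} x y}.Finite
  /-- The pieces away from the centre are finite. -/
  fin1 : ∀ x, 1 ≤ d x → {y | Conn T {z | 1 ≤ d z} x y}.Finite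

theorem Conn.mono {M M' : Set Γ} {U U' : Set X} (hM : M ⊆ M') (hU : U ⊆ U') {x y : X}
    (h : Conn M U x y) : Conn M' U' x y := by
  refine rtg_mono ?_ h
  rintro a b ⟨hb, m, hm, hab⟩
  exact ⟨hU hb, m, hM hm, hab⟩

theorem exists_radial [MeasurableSpace X] [StandardBorelSpace X] [Countable Γ]
    (hX : IsFreeBorel Γ X) {T : Set Γ} (h1 : (1 : Γ) ∈ T) (hT : ∀ m ∈ T, m⁻¹ ∈ T)
    (hTfin : T.Finite) (hsep : SepAct T X) (R : ℕ) :
    ∃ (d : X → ℕ) (δ : X → Γ), Radial T R d δ := by
  classical
  have hmeas := hX.measurable_smul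
  have hfree := hX.free
  obtain ⟨U, hU, hfin0, hfin1⟩ := hsep (2 * R + 1)
  have hMinv : ∀ m ∈ T ^ (2 * R + 1), m⁻¹ ∈ T ^ (2 * R + 1) := fun m hm => inv_mem_pow hT hm
  obtain ⟨β0, hβ0m, hβ0⟩ := exists_base hmeas hfree (T ^ (2 * R + 1)) hMinv hU hfin0
  have hTR' : ∀ n, (T ^ n).Finite := by
    intro n
    induction n with
    | zero => simp
    | succ n ih => rw [pow_succ]; exact ih.mul hTfin
  have hTR := hTR' R
  -- the map `δ`
  have hwd : ∀ x : X, ∀ m ∈ T ^ R, m • x ∈ U → ∀ m' ∈ T ^ R, ∀ h ∈ T ^ 1, m' • h • x ∈ U →
      β0 (m' • h • x) * m' * h = β0 (m • x) * m := by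
    intro x m hm hmx m' hm' h hh hmx'
    have e : m' • h • x = (m' * h * m⁻¹) • (m • x) := by
      simp [mul_smul]
    have hmem : m' * h * m⁻¹ ∈ T ^ (2 * R + 1) := by
      have := mul_mem_pow (mul_mem_pow hm' hh) (inv_mem_pow hT hm)
      exact mem_pow_mono h1 (by omega) this
    have := hβ0 (m • x) hmx (m' * h * m⁻¹) hmem (by rw [← e]; exact hmx')
    rw [← e] at this
    rw [← this]
    group
  let δ : X → Γ := fun x => if h : ∃ m ∈ T ^ R, m • x ∈ U then β0 (h.choose • x) * h.choose else 1
  have hδ : ∀ x : X, ∀ m ∈ T ^ R, m • x ∈ U → δ x = β0 (m • x) * m := by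
    intro x m hm hmx
    have h : ∃ m ∈ T ^ R, m • x ∈ U := ⟨m, hm, hmx⟩
    have e : δ x = β0 (h.choose • x) * h.choose := by
      simp only [δ]
      rw [dif_pos h]
    rw [e]
    have := hwd x m hm hmx h.choose h.choose_spec.1 1 (one_mem_pow h1 1)
      (by rw [one_smul]; exact h.choose_spec.2)
    rwa [one_smul, mul_one] at this
  have hδedge : ∀ x : X, ∀ h ∈ T, ¬ Far T U R x → ¬ Far T U R (h • x) → δ (h • x) * h = δ x := by
    intro x h hh hx hhx
    unfold Far at hx hhx
    push Not at hx hhx
    obtain ⟨m, hm, hmx⟩ := hx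
    obtain ⟨m', hm', hmx'⟩ := hhx
    rw [hδ x m hm hmx, hδ (h • x) m' hm' hmx']
    exact hwd x m hm hmx m' hm' h (by simpa using hh) hmx'
  have hfarm : ∀ k, MeasurableSet {x : X | Far T U k x} := by
    intro k
    have := measurableSet_far hmeas T hU k (1 : Γ)
    simpa using this
  have hδm : ∀ γ, MeasurableSet {x | δ x = γ} := by
    intro γ
    have : {x | δ x = γ} = (⋃ m : (T ^ R : Set Γ), ((fun x => (m : Γ) • x) ⁻¹' U) ∩
        ((fun x => (m : Γ) • x) ⁻¹' {x | β0 x = γ * (m : Γ)⁻¹})) ∪
        ({x : X | Far T U R x} ∩ {x | (1 : Γ) = γ}) := by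
      ext x
      simp only [mem_ofPred_eq, mem_union, mem_iUnion, mem_inter_iff, mem_preimage]
      by_cases hx : Far T U R x
      · have e : δ x = 1 := by
          simp only [δ]
          rw [dif_neg]
          rintro ⟨m, hm, hmx⟩
          exact hx m hm hmx
        rw [e]
        constructor
        · intro h
          exact Or.inr ⟨hx, h⟩
        · rintro (⟨m, hm, _⟩ | h)
          · exact absurd hm (hx m m.2)
          · exact h.2
      · have hx' := hx
        unfold Far at hx'
        push Not at hx'
        obtain ⟨m, hm, hmx⟩ := hx'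
        constructor
        · intro h
          left
          refine ⟨⟨m, hm⟩, hmx, ?_⟩
          rw [← h, hδ x m hm hmx]
          simp
        · rintro (⟨m, hm, hm2⟩ | h)
          · rw [hδ x m m.2 hm, hm2]
            simp
          · exact absurd h.1 hx
    rw [this]
    refine MeasurableSet.union (MeasurableSet.iUnion fun m => ?_) ((hfarm R).inter
      (MeasurableSet.const _))
    exact ((hmeas _) hU).inter ((hmeas _) (hβ0m _))
  -- the radial function
  let d : X → ℕ := fun x => ((Finset.range (R + 1)).filter (fun n => Far T U n x)).card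
  have hd : ∀ k x, k ≤ R → (k < d x ↔ Far T U k x) := by
    intro k x hk
    constructor
    · intro h
      by_contra hne
      have : (Finset.range (R + 1)).filter (fun n => Far T U n x) ⊆ Finset.range k := by
        intro n hn
        rw [Finset.mem_filter] at hn
        rw [Finset.mem_range]
        by_contra hkn
        exact hne (hn.2.mono h1 (by omega))
      have := Finset.card_le_card this
      rw [Finset.card_range] at this
      simp only [d] at h
      omega
    · intro h
      have : Finset.range (k + 1) ⊆ (Finset.range (R + 1)).filter (fun n => Far T U n x) := by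
        intro n hn
        rw [Finset.mem_range] at hn
        rw [Finset.mem_filter, Finset.mem_range]
        exact ⟨by omega, h.mono h1 (by omega)⟩
      have := Finset.card_le_card this
      rw [Finset.card_range] at this
      simp only [d]
      omega
  have hdR : ∀ x, d x ≤ R + 1 := by
    intro x
    have := Finset.card_filter_le (Finset.range (R + 1)) (fun n => Far T U n x)
    rwa [Finset.card_range] at this
  have hnear : ∀ x, d x ≤ R ↔ ¬ Far T U R x := by
    intro x
    rw [← hd R x le_rfl, not_lt]
  have hpos : ∀ x, 1 ≤ d x ↔ x ∉ U := by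
    intro x
    have := hd 0 x (Nat.zero_le _)
    rw [show 1 ≤ d x ↔ 0 < d x from Iff.rfl, this]
    simp [Far]
  refine ⟨d, δ, ?_, hδm, ?_, ?_, ?_, ?_⟩
  · intro k
    have hlt : ∀ k, MeasurableSet {x | k < d x} := by
      intro k
      by_cases hk : k ≤ R
      · have : {x | k < d x} = {x : X | Far T U k x} := by
          ext x
          exact hd k x hk
        rw [this]
        exact hfarm k
      · have : {x | k < d x} = ∅ := by
          ext x
          simp only [mem_ofPred_eq, mem_empty_iff_false, iff_false]
          have := hdR x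
          omega
        rw [this]
        exact MeasurableSet.empty
    cases k with
    | zero =>
      have : {x | d x = 0} = {x | 0 < d x}ᶜ := by
        ext x
        simp only [mem_ofPred_eq, mem_compl_iff]
        omega
      rw [this]
      exact (hlt 0).compl
    | succ k =>
      have : {x | d x = k + 1} = {x | k < d x} \ {x | k + 1 < d x} := by
        ext x
        simp only [mem_ofPred_eq, mem_sdiff]
        omega
      rw [this]
      exact (hlt k).diff (hlt (k + 1))
  · intro s hs x
    by_cases hk : d x + 1 ≤ R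
    · by_contra hne
      push Not at hne
      have h2 := (hd (d x + 1) (s • x) hk).mp hne
      have h3 : Far T U (d x) (s⁻¹ • s • x) := h2.smul (by simpa using hT s hs)
      rw [inv_smul_smul] at h3
      have := (hd (d x) x (by omega)).mpr h3
      omega
    · have := hdR (s • x)
      omega
  · intro s hs x hx hsx
    exact hδedge x s hs ((hnear x).mp hx) ((hnear _).mp hsx)
  · intro x hx
    have hx' := (hnear x).mp hx
    unfold Far at hx'
    push Not at hx'
    obtain ⟨m, hm, hmx⟩ := hx'
    have hsub : {y | Conn T {z | d z ≤ R} x y} ⊆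
        ⋃ m' ∈ T ^ R, (fun z => m'⁻¹ • z) '' {y | Conn (T ^ (2 * R + 1)) U (m • x) y} := by
      intro y hy
      have hy' : Conn T {z | d z ≤ R} x y := hy
      clear hy
      have : ∃ m' ∈ T ^ R, m' • y ∈ U ∧ Conn (T ^ (2 * R + 1)) U (m • x) (m' • y) := by
        induction hy' with
        | refl => exact ⟨m, hm, hmx, ReflTransGen.refl⟩
        | @tail b c hb hc ih =>
          obtain ⟨m', hm', hmb, hconn⟩ := ih
          obtain ⟨hcU, s, hs, rfl⟩ := hc
          have hc' := (hnear _).mp hcU
          unfold Far at hc'
          push Not at hc'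
          obtain ⟨m'', hm'', hmc⟩ := hc'
          refine ⟨m'', hm'', hmc, ReflTransGen.tail hconn ⟨hmc, m'' * s * m'⁻¹, ?_, ?_⟩⟩
          · have hs1 : s ∈ T ^ 1 := by simpa using hs
            have := mul_mem_pow (mul_mem_pow hm'' hs1) (inv_mem_pow hT hm')
            exact mem_pow_mono h1 (by omega) this
          · simp [mul_smul]
      obtain ⟨m', hm', _, hconn⟩ := this
      rw [mem_iUnion₂]
      exact ⟨m', hm', m' • y, hconn, inv_smul_smul _ _⟩
    exact (hTR.biUnion fun m' _ => (hfin0 _ hmx).image _).subset hsub
  · intro x hx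
    refine (hfin1 x ((hpos x).mp hx)).subset ?_
    intro y hy
    refine Conn.mono (M := T) (U := {z | 1 ≤ d z}) ?_ ?_ hy
    · intro s hs
      exact mem_pow_mono h1 (show 1 ≤ 2 * R + 1 by omega) (by simpa using hs)
    · intro z hz
      exact (hpos z).mp hz

end Run7.h916
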