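import Pool.Agent.Run7.h916.Package
import Pool.Agent.Run7.h916.BorelRound
import Pool.Agent.Run7.h916.Radial

set_option autoImplicit false
set_option linter.unusedSectionVars false
set_option linter.unusedVariables false

/-!
Borel 2-factors in the graph of a pair, equal to the lines of the first element of the pair outside
a zone, with finite components in the middle of the zone.
-/

namespace Run7.h916

open Set Relation
open scoped Pointwise

universe u v w

/-- The distance from the middle of the zone. -/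
def exc {X : Type v} (d : X → ℕ) (m : ℕ) (y : X) : ℕ := ((d y : ℤ) - m).natAbs

variable {Γ : Type u} [Group Γ] {X : Type v} [MulAction Γ X]

/-- A 2-factor of the graph of a pair, adapted to a zone. -/
structure ZoneFactor [MeasurableSpace X] (g' : Bool → Γ) (d : X → ℕ) (m W : ℕ)
    (FF : X → Lt → Prop) : Prop where
  /-- It is Borel. -/
  meas : ∀ l, MeasurableSet {y | FF y l}
  /-- It is symmetric. -/
  symm : ∀ y l, FF y l ↔ FF (lval g' l • y) (linv l)
  /-- It is a 2-factor. -/
  two : ∀ y, {l | FF y l}.ncard = 2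
  /-- Outside the zone it consists of lines. -/
  out : ∀ y l, W < exc d m y → (FF y l ↔ l.1 = false)
  /-- In the middle of the zone the components are finite. -/
  core : ∀ y, d y = m → {x | EConn (lval g') FF y x}.Finite ∧
    ∀ x, EConn (lval g') FF y x → exc d m x ≤ W

/-- The pattern. -/
def APat {K : Type w} (F Q : K → ℝ) (k : K) (l : Lt) : Prop :=
  (if l.2 then (-1 : ℝ) else 1) * (if l.1 then Q k else F k) = 1

section pattern

variable {K : Type w} [Group K] {g : Bool → K} {E F Q : K → ℝ}

theorem apat_iff_DA (h : Package g E F Q) (k : K) (l : Lt) :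
    APat F Q k l ↔ (1 + E k * DA E F Q k l) / 2 = 1 := by
  unfold APat DA
  rcases h.E1 k with h1 | h1 <;> rcases h.F1 k with h2 | h2 <;> rcases h.Q1 k with h3 | h3 <;>
    rw [h1, h2, h3] <;> split_ifs <;> norm_num

theorem DA_val (h : Package g E F Q) (k : K) (l : Lt) [Decidable (APat F Q k l)] :
    (1 + E k * DA E F Q k l) / 2 = if APat F Q k l then 1 else 0 := by
  by_cases hA : APat F Q k l
  · rw [if_pos hA]
    exact (apat_iff_DA h k l).mp hA
  · rw [if_neg hA]
    have h2 : E k * E k = 1 := by rcases h.E1 k with h1 | h1 <;> rw [h1] <;> norm_num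
    have hne := fun h' => hA ((apat_iff_DA h k l).mpr h')
    rcases DA_pm h.E1 h.F1 h.Q1 k l with h3 | h3 <;> rcases h.E1 k with h4 | h4 <;>
      rw [h3, h4] at hne <;> rw [h3, h4] <;> revert hne <;> norm_num

theorem DL_val (h : Package g E F Q) (k : K) (l : Lt) :
    (1 + E k * DL E k l) / 2 = if l.1 = false then 1 else 0 := by
  unfold DL
  rcases h.E1 k with h4 | h4 <;> rw [h4] <;> obtain ⟨i, j⟩ := l <;> cases i <;> norm_num

theorem APat.symm (h : Package g E F Q) (k : K) (l : Lt) :
    APat F Q k l ↔ APat F Q (lval g l * k) (linv l) := by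
  have h1 := h.Fv k
  have h2 := h.Qw k
  have h3 := odd_inv h.Fv k
  have h4 := odd_inv h.Qw k
  unfold APat
  obtain ⟨i, j⟩ := l
  cases i <;> cases j <;> simp [linv, lval, h1, h2, h3, h4]

theorem apat_cases (h : Package g E F Q) {k : K} {l : Lt} (hA : APat F Q k l) :
    lval g l * k = pst (g false) F k ∨ lval g l * k = pst (g true) Q k := by
  unfold APat at hA
  obtain ⟨i, j⟩ := l
  cases i <;> cases j
  · left
    simp at hA
    simp [pst, lval, hA]
  · left
    simp at hA
    have : F k = -1 := by linarith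
    have h' : ¬ F k = 1 := by rw [this]; norm_num
    simp [pst, lval, h']
  · right
    simp at hA
    simp [pst, lval, hA]
  · right
    simp at hA
    have : Q k = -1 := by linarith
    have h' : ¬ Q k = 1 := by rw [this]; norm_num
    simp [pst, lval, h']

theorem apat_ncard (h : Package g E F Q) (k : K) : {l | APat F Q k l}.ncard = 2 := by
  have key : {l | APat F Q k l} =
      {((false, decide (F k = -1)) : Lt), ((true, decide (Q k = -1)) : Lt)} := by
    ext ⟨i, j⟩
    simp only [mem_ofPred_eq, mem_insert_iff, mem_singleton_iff, Prod.mk.injEq, APat]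
    rcases h.F1 k with h2 | h2 <;> rcases h.Q1 k with h3 | h3 <;> rw [h2, h3] <;>
      cases i <;> cases j <;> norm_num
  rw [key, Set.ncard_pair]
  intro h
  have := congrArg Prod.fst h
  simp at this

/-- The orbit of a point under the pattern. -/
theorem orbit_closed (h : Package g E F Q) {N : ℕ} (hN : 1 ≤ N)
    (hper : ∀ x, (fun x => pst (g true) Q (pst (g false) F x))^[N] x = x) (k : K) :
    ∃ O : Set K, k ∈ O ∧ O ⊆ Ball g (2 * N) k ∧ ∀ x ∈ O, ∀ l, APat F Q x l → lval g l * x ∈ O := by
  set σ : K → K := fun x => pst (g true) Q (pst (g false) F x) with hσ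
  have hpst : ∀ i (F : K → ℝ) x, ∃ l, pst (g i) F x = lval g l • x := by
    intro i F x
    unfold pst
    split_ifs
    · exact ⟨(i, false), by simp [lval]⟩
    · exact ⟨(i, true), by simp [lval]⟩
  have hstep : ∀ i (F : K → ℝ) x n, x ∈ Ball g n k → pst (g i) F x ∈ Ball g (n + 1) k := by
    intro i F x n hx
    obtain ⟨l, hl⟩ := hpst i F x
    rw [hl]
    exact Ball.step hx l
  have hit : ∀ i, σ^[i] k ∈ Ball g (2 * i) k := by
    intro i
    induction i with
    | zero => exact mem_ball_self _ _
    | succ i ih =>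
      rw [Function.iterate_succ_apply']
      have := hstep true Q _ _ (hstep false F _ _ ih)
      exact Ball.mono (by omega) k this
  have hmod : ∀ i, σ^[i] k = σ^[i % N] k := by
    intro i
    have h1 : ∀ j, (σ^[N])^[j] (σ^[i % N] k) = σ^[i % N] k := by
      intro j
      induction j with
      | zero => rfl
      | succ j ih => rw [Function.iterate_succ_apply', ih, hper]
    conv_lhs => rw [← Nat.mod_add_div i N, add_comm, Function.iterate_add_apply,
      Function.iterate_mul]
    exact h1 _
  let O : Set K := {x | ∃ i, x = σ^[i] k ∨ x = pst (g false) F (σ^[i] k)}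
  refine ⟨O, ⟨0, Or.inl rfl⟩, ?_, ?_⟩
  · rintro x ⟨i, hx | hx⟩
    · rw [hx, hmod]
      exact Ball.mono (by have := Nat.mod_lt i hN; omega) k (hit _)
    · rw [hx, hmod]
      exact Ball.mono (by have := Nat.mod_lt i hN; omega) k (hstep false F _ _ (hit (i % N)))
  · intro x hx l hA
    rcases apat_cases h hA with h1 | h1
    · rw [h1]
      obtain ⟨i, hx | hx⟩ := hx
      · exact ⟨i, Or.inr (by rw [hx])⟩
      · refine ⟨i, Or.inl ?_⟩
        rw [hx, pst_pst h.F1 h.Fv]
    · rw [h1]
      obtain ⟨i, hx | hx⟩ := hx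
      · refine ⟨i + (N - 1), Or.inr ?_⟩
        have h2 : σ^[i] k = σ (σ^[i + (N - 1)] k) := by
          rw [← Function.iterate_succ_apply' σ]
          have : (i + (N - 1)).succ = i + N := by omega
          rw [this, Function.iterate_add_apply, hper]
        rw [hx, h2]
        simp only [hσ]
        rw [pst_pst h.Q1 h.Qw]
      · refine ⟨i + 1, Or.inl ?_⟩
        rw [hx, Function.iterate_succ_apply']

end pattern

theorem exc_step {T : Set Γ} {R : ℕ} {d : X → ℕ} {δ : X → Γ} [MeasurableSpace X]
    (hrad : Radial T R d δ) (hT : ∀ s ∈ T, s⁻¹ ∈ T) (m : ℕ) {s : Γ} (hs : s ∈ T) (x : X) :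
    exc d m (s • x) ≤ exc d m x + 1 ∧ exc d m x ≤ exc d m (s • x) + 1 ∧ d (s • x) ≤ d x + 1 ∧
      d x ≤ d (s • x) + 1 := by
  have h1 := hrad.lip s hs x
  have h2 := hrad.lip s⁻¹ (hT s hs) (s • x)
  rw [inv_smul_smul] at h2
  unfold exc
  omega

open Classical in
/-- **Zone factors exist**. -/
theorem exists_zone {K : Type w} [Group K] {g : Bool → K} {E F Q : K → ℝ}
    (hpk : Package g E F Q) (ι : K →* Γ) (ρ : Γ → K) (hρ : ∀ k γ, ρ (ι k * γ) = k * ρ γ)
    [MeasurableSpace X] [StandardBorelSpace X] [Countable Γ] (hX : IsFreeBorel Γ X)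
    {T : Set Γ} (hT : ∀ s ∈ T, s⁻¹ ∈ T) (hgT : ∀ l, lval (fun i => ι (g i)) l ∈ T) :
    ∃ W M : ℕ, ∀ (R : ℕ) (d : X → ℕ) (δ : X → Γ), Radial T R d δ → ∀ m : ℕ, W < m → m + M ≤ R →
      ∃ FF : X → Lt → Prop, ZoneFactor (fun i => ι (g i)) d m W FF := by
  obtain ⟨HA, RA, hA⟩ := exists_interp.{w, u, v} (DA_pm hpk.E1 hpk.F1 hpk.Q1)
    (DA_antisym hpk.Eg hpk.Fv hpk.Qw) hpk.nullA hpk.mobA
  obtain ⟨HL, RL, hL⟩ := exists_interp.{w, u, v} (DL_pm hpk.E1) (DL_antisym hpk.Eg) hpk.nullL
    hpk.mobL
  obtain ⟨N, hN, hper⟩ := hpk.per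
  set g' : Bool → Γ := fun i => ι (g i) with hg'
  let R0 : ℕ := max RA RL
  let w0 : ℕ := 2 * N + 1
  let Rc : ℕ := HA + HL + 1
  refine ⟨w0 + Rc, w0 + Rc + R0 + 3, ?_⟩
  intro R d δ hrad m hm hmR
  let e : X → ℕ := exc d m
  let q : X → K := fun x => ρ ((δ x)⁻¹)
  have hmeas := hX.measurable_smul
  have hfree := hX.free
  have hest : ∀ (y : X) (l : Lt), e (lval g' l • y) ≤ e y + 1 ∧ e y ≤ e (lval g' l • y) + 1 ∧
      d (lval g' l • y) ≤ d y + 1 ∧ d y ≤ d (lval g' l • y) + 1 := fun y l =>
    exc_step hrad hT m (hgT l) y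
  have hed : ∀ y, d y ≤ m + e y := fun y => by simp only [e, exc]; omega
  have hed2 : ∀ y, m ≤ d y + e y := fun y => by simp only [e, exc]; omega
  have hq : ∀ x, d x + 1 ≤ R → ∀ l, q (lval g' l • x) = lval g l * q x := by
    intro x hx l
    have h1 := (hest x l).2.2.1
    have h2 := hrad.coord _ (hgT l) x (by omega) (by omega)
    simp only [q]
    rw [← h2]
    have h3 : (δ (lval g' l • x) * lval g' l)⁻¹ = (lval g' l)⁻¹ * (δ (lval g' l • x))⁻¹ := by
      group
    rw [h3]
    have h4 : (δ (lval g' l • x))⁻¹ = ι (lval g l) * ((lval g' l)⁻¹ * (δ (lval g' l • x))⁻¹) := by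
      rw [map_lval]
      simp only [hg']
      group
    conv_lhs => rw [h4, hρ]
  have hdball : ∀ n (y x : X), x ∈ Ball g' n y → d x ≤ d y + n ∧ e x ≤ e y + n := by
    intro n y x hx
    obtain ⟨w, hw, rfl⟩ := hx
    have : ∀ w : List Lt, d (wval g' w • y) ≤ d y + w.length ∧
        e (wval g' w • y) ≤ e y + w.length := by
      intro w
      induction w using List.reverseRecOn with
      | nil => simp
      | append_singleton w l ih =>
        have h2 : wval g' [l] = lval g' l := by simp
        rw [wval_append, mul_smul, h2, List.length_append]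
        have := hest (wval g' w • y) l
        simp only [List.length_cons, List.length_nil]
        omega
    have := this w
    omega
  -- the flows
  have hlipe : ∀ (y : X) (l : Lt), |((e (lval g' l • y) : ℕ) : ℝ) - (e y : ℝ)| ≤ 1 := by
    intro y l
    have h1 := hest y l
    have h2 : ((e (lval g' l • y) : ℕ) : ℝ) ≤ e y + 1 := by exact_mod_cast h1.1
    have h3 : (e y : ℝ) ≤ (e (lval g' l • y) : ℕ) + 1 := by exact_mod_cast h1.2.1
    rw [abs_le]
    constructor <;> linarith
  obtain ⟨φA, hA1, hA2, hA3, hA4⟩ := hA ι (fun y => (e y : ℝ) - w0) (fun y l => by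
    have := hlipe y l
    have e1 : ((e (lval g' l • y) : ℕ) : ℝ) - w0 - ((e y : ℝ) - w0) =
      ((e (lval g' l • y) : ℕ) : ℝ) - e y := by ring
    rw [e1]
    exact this) q
  obtain ⟨φL, hL1, hL2, hL3, hL4⟩ := hL ι (fun y => ((w0 + Rc + 1 : ℕ) : ℝ) - e y) (fun y l => by
    have := hlipe y l
    have e1 : ((w0 + Rc + 1 : ℕ) : ℝ) - ((e (lval g' l • y) : ℕ) : ℝ) -
        (((w0 + Rc + 1 : ℕ) : ℝ) - (e y : ℝ)) = -(((e (lval g' l • y) : ℕ) : ℝ) - e y) := by ring
    rw [e1, abs_neg]
    exact this) q
  have hnear : ∀ y, e y ≤ w0 + Rc + 1 → ∀ n, n ≤ R0 → ∀ x ∈ Ball g' n y, ∀ l,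
      q (lval g' l • x) = lval g l * q x := by
    intro y hy n hn x hx l
    apply hq
    have h1 := (hdball n y x hx).1
    have h2 := hed y
    omega
  have hA5 : ∀ y, e y ≤ w0 + Rc + 1 → (∀ l, |φA y l| ≤ 1) ∧
      (e y ≤ w0 → ∀ l, φA y l = DA E F Q (q y) l) := by
    intro y hy
    obtain ⟨h1, h2⟩ := hA3 y (hnear y hy RA (le_max_left _ _))
    refine ⟨h1, fun hy2 => h2 ?_⟩
    have : (e y : ℝ) ≤ w0 := by exact_mod_cast hy2
    linarith
  have hL5 : ∀ y, e y ≤ w0 + Rc + 1 → (∀ l, |φL y l| ≤ 1) ∧
      (w0 + Rc + 1 ≤ e y → ∀ l, φL y l = DL E (q y) l) := by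
    intro y hy
    obtain ⟨h1, h2⟩ := hL3 y (hnear y hy RL (le_max_right _ _))
    refine ⟨h1, fun hy2 => h2 ?_⟩
    have : ((w0 + Rc + 1 : ℕ) : ℝ) ≤ e y := by exact_mod_cast hy2
    linarith
  have hA6 : ∀ y, w0 + HA ≤ e y → ∀ l, φA y l = 0 := by
    intro y hy
    apply hA4
    have : ((w0 + HA : ℕ) : ℝ) ≤ e y := by exact_mod_cast hy
    push_cast at this
    linarith
  have hL6 : ∀ y, e y + HL ≤ w0 + Rc + 1 → ∀ l, φL y l = 0 := by
    intro y hy
    apply hL4
    have : ((e y + HL : ℕ) : ℝ) ≤ ((w0 + Rc + 1 : ℕ) : ℝ) := by exact_mod_cast hy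
    push_cast at this ⊢
    linarith
  let f : X → Lt → ℝ := fun y l => φA y l + φL y l
  have hfabs : ∀ y, e y ≤ w0 + Rc + 1 → ∀ l, |f y l| ≤ 1 := by
    intro y hy l
    simp only [f]
    by_cases h : w0 + HA ≤ e y
    · rw [hA6 y h, zero_add]
      exact (hL5 y hy).1 l
    · rw [hL6 y (by simp only [Rc]; omega), add_zero]
      exact (hA5 y hy).1 l
  have hfanti : Antisym g' f := by
    intro y s
    simp only [f]
    rw [hA1, hL1]
    ring
  have hfdiv : ∀ y, ∑ s, f y s = 0 := by
    intro y
    simp only [f]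
    rw [Finset.sum_add_distrib, hA2, hL2, add_zero]
  have hfA : ∀ y, e y ≤ w0 → ∀ l, f y l = DA E F Q (q y) l := by
    intro y hy l
    simp only [f]
    rw [(hA5 y (by omega)).2 hy l, hL6 y (by simp only [Rc]; omega), add_zero]
  have hfL : ∀ y, e y = w0 + Rc + 1 → ∀ l, f y l = DL E (q y) l := by
    intro y hy l
    simp only [f]
    rw [(hL5 y (by omega)).2 (by omega) l, hA6 y (by simp only [Rc] at hy ⊢; omega), zero_add]
  -- the fixed edges
  let fx : X → Lt → Prop := fun y l => if e y ≤ w0 ∨ e (lval g' l • y) ≤ w0 then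
    APat F Q (q y) l else l.1 = false
  have hback : ∀ (y : X) (l : Lt), lval g' (linv l) • lval g' l • y = y := fun y l => by
    rw [lval_linv, inv_smul_smul]
  have hqn : ∀ y, e y ≤ w0 + Rc + 1 → ∀ l, q (lval g' l • y) = lval g l * q y := fun y hy l =>
    hnear y hy 0 (Nat.zero_le _) y (mem_ball_self _ _) l
  have hfxs : ∀ y l, fx y l ↔ fx (lval g' l • y) (linv l) := by
    intro y l
    simp only [fx, hback]
    by_cases h : e y ≤ w0 ∨ e (lval g' l • y) ≤ w0
    · have h' : e (lval g' l • y) ≤ w0 ∨ e y ≤ w0 := h.symm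
      rw [if_pos h, if_pos h', hqn y (by have := hest y l; omega) l]
      exact APat.symm hpk _ _
    · have h' : ¬ (e (lval g' l • y) ≤ w0 ∨ e y ≤ w0) := fun h2 => h h2.symm
      rw [if_neg h, if_neg h']
      rfl
  -- the collar
  let C : Set X := {y | w0 < e y ∧ e y ≤ w0 + Rc}
  let Eg : X → Lt → Prop := fun y l => y ∈ C ∧ lval g' l • y ∈ C
  have hval : ∀ (y : X) (l : Lt), y ∈ C → lval g' l • y ∉ C →
      (1 + E (q y) * f y l) / 2 = if fx y l then 1 else 0 := by
    intro y l hy hly
    have hst := hest y l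
    have hy' : w0 < e y ∧ e y ≤ w0 + Rc := hy
    have hly' : ¬ (w0 < e (lval g' l • y) ∧ e (lval g' l • y) ≤ w0 + Rc) := hly
    have hqy := hqn y (by omega) l
    have hanti : f y l = - f (lval g' l • y) (linv l) := by
      rw [hfanti, neg_neg]
    by_cases h : e (lval g' l • y) ≤ w0
    · have h2 : fx y l ↔ APat F Q (q y) l := by
        simp only [fx]
        rw [if_pos (Or.inr h)]
      have h3 : f y l = DA E F Q (q y) l := by
        rw [hanti, hfA _ h, hqy]
        have := DA_antisym hpk.Eg hpk.Fv hpk.Qw (q y) l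
        rw [smul_eq_mul] at this
        rw [this, neg_neg]
      rw [h3, DA_val hpk]
      simp only [h2]
    · have h4 : e (lval g' l • y) = w0 + Rc + 1 := by omega
      have h2 : fx y l ↔ l.1 = false := by
        simp only [fx]
        rw [if_neg (by omega)]
      have h3 : f y l = DL E (q y) l := by
        rw [hanti, hfL _ h4, hqy]
        have := DL_antisym hpk.Eg (q y) l
        rw [smul_eq_mul] at this
        rw [this, neg_neg]
      rw [h3, DL_val hpk]
      simp only [h2]
  let cnt : X → ℕ := fun y => (Finset.univ.filter (fun l => lval g' l • y ∉ C ∧ fx y l)).card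
  let n : X → ℕ := fun y => if y ∈ C then 2 - cnt y else 0
  let ft : X → Lt → ℝ := fun y l => if Eg y l then (1 + E (q y) * f y l) / 2 else 0
  have hrange : ∀ y, e y ≤ w0 + Rc + 1 → ∀ l, 0 ≤ (1 + E (q y) * f y l) / 2 ∧
      (1 + E (q y) * f y l) / 2 ≤ 1 := by
    intro y hy l
    have h1 := abs_le.mp (hfabs y hy l)
    rcases hpk.E1 (q y) with h | h <;> rw [h] <;> constructor <;> linarith
  have hsumC : ∀ y ∈ C, ∑ l, ft y l + cnt y = 2 := by
    intro y hy
    have h1 : ∑ l, (1 + E (q y) * f y l) / 2 = 2 := by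
      have : ∀ l, (1 + E (q y) * f y l) / 2 = 1 / 2 + (E (q y) / 2) * f y l := fun l => by ring
      simp only [this]
      rw [Finset.sum_add_distrib, ← Finset.mul_sum, hfdiv, mul_zero, add_zero]
      simp
      norm_num
    have h2 : (cnt y : ℝ) = ∑ l, if lval g' l • y ∉ C ∧ fx y l then (1 : ℝ) else 0 := by
      simp only [cnt]
      rw [Finset.natCast_card_filter]
    rw [h2, ← Finset.sum_add_distrib, ← h1]
    refine Finset.sum_congr rfl fun l _ => ?_
    simp only [ft, Eg]
    by_cases hl : lval g' l • y ∈ C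
    · rw [if_pos ⟨hy, hl⟩, if_neg (fun h => h.1 hl), add_zero]
    · rw [if_neg (fun h => hl h.2), zero_add, hval y l hy hl]
      by_cases hfx : fx y l
      · rw [if_pos ⟨hl, hfx⟩, if_pos hfx]
      · rw [if_neg (fun h => hfx h.2), if_neg hfx]
  have hcnt2 : ∀ y ∈ C, cnt y ≤ 2 := by
    intro y hy
    have h1 := hsumC y hy
    have hy' : w0 < e y ∧ e y ≤ w0 + Rc := hy
    have h2 : 0 ≤ ∑ l, ft y l := by
      refine Finset.sum_nonneg fun l _ => ?_
      simp only [ft]
      split_ifs
      · exact (hrange y (by omega) l).1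
      · exact le_rfl
    have : (cnt y : ℝ) ≤ 2 := by linarith
    exact_mod_cast this
  -- measurability
  have hem : ∀ k, MeasurableSet {y | e y = k} := by
    intro k
    have : {y | e y = k} = ⋃ j : ℕ, {y | d y = j} ∩ {y | ((j : ℤ) - m).natAbs = k} := by
      ext y
      simp only [mem_ofPred_eq, mem_iUnion, mem_inter_iff]
      constructor
      · intro h
        exact ⟨d y, rfl, h⟩
      · rintro ⟨j, rfl, h⟩
        exact h
    rw [this]
    exact MeasurableSet.iUnion fun j => (hrad.dm j).inter (MeasurableSet.const _)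
  have hep : ∀ P : ℕ → Prop, MeasurableSet {y | P (e y)} := by
    intro P
    have : {y | P (e y)} = ⋃ j : ℕ, {y | e y = j} ∩ {y | P j} := by
      ext y
      simp only [mem_ofPred_eq, mem_iUnion, mem_inter_iff]
      constructor
      · intro h
        exact ⟨e y, rfl, h⟩
      · rintro ⟨j, rfl, h⟩
        exact h
    rw [this]
    exact MeasurableSet.iUnion fun j => (hem j).inter (MeasurableSet.const _)
  have hCm : MeasurableSet C := hep (fun k => w0 < k ∧ k ≤ w0 + Rc)
  have hqm : ∀ P : K → Prop, MeasurableSet {y | P (q y)} := by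
    intro P
    have : {y | P (q y)} = ⋃ γ : Γ, {y | δ y = γ} ∩ {y | P (ρ γ⁻¹)} := by
      ext y
      simp only [mem_ofPred_eq, mem_iUnion, mem_inter_iff]
      constructor
      · intro h
        exact ⟨δ y, rfl, h⟩
      · rintro ⟨γ, rfl, h⟩
        exact h
    rw [this]
    exact MeasurableSet.iUnion fun γ => (hrad.δm γ).inter (MeasurableSet.const _)
  have hfxm : ∀ l, MeasurableSet {y | fx y l} := by
    intro l
    have : {y | fx y l} = (({y | e y ≤ w0} ∪ (fun y => lval g' l • y) ⁻¹' {y | e y ≤ w0}) ∩
        {y | APat F Q (q y) l}) ∪ (({y | e y ≤ w0} ∪ (fun y => lval g' l • y) ⁻¹'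
          {y | e y ≤ w0})ᶜ ∩ {y | l.1 = false}) := by
      ext y
      simp only [fx, mem_ofPred_eq, mem_union, mem_inter_iff, mem_preimage, mem_compl_iff]
      by_cases h : e y ≤ w0 ∨ e (lval g' l • y) ≤ w0
      · rw [if_pos h]; tauto
      · rw [if_neg h]; tauto
    rw [this]
    have h1 := (hep (fun k => k ≤ w0)).union ((hmeas (lval g' l)) (hep (fun k => k ≤ w0)))
    exact (h1.inter (hqm fun k => APat F Q k l)).union (h1.compl.inter (MeasurableSet.const _))
  have hEgm : ∀ l, MeasurableSet {y | Eg y l} := fun l => hCm.inter ((hmeas _) hCm)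
  have hnm : ∀ k, MeasurableSet {y | n y = k} := by
    have hcm : ∀ k, MeasurableSet {y | cnt y = k} := by
      intro k
      have : {y | cnt y = k} = ⋃ S : Finset Lt, {y | S.card = k} ∩
          ⋂ l : Lt, {y | (lval g' l • y ∉ C ∧ fx y l) ↔ l ∈ S} := by
        ext y
        simp only [mem_ofPred_eq, mem_iUnion, mem_inter_iff, mem_iInter]
        constructor
        · intro h
          refine ⟨Finset.univ.filter (fun l => lval g' l • y ∉ C ∧ fx y l), h, fun l => ?_⟩
          rw [Finset.mem_filter]
          simp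
        · rintro ⟨S, h1, h2⟩
          rw [← h1]
          simp only [cnt]
          congr 1
          ext l
          rw [Finset.mem_filter]
          simp [h2 l]
      rw [this]
      refine MeasurableSet.iUnion fun S => (MeasurableSet.const _).inter
        (MeasurableSet.iInter fun l => ?_)
      have h1 : MeasurableSet {y | lval g' l • y ∉ C ∧ fx y l} :=
        ((hmeas _) hCm).compl.inter (hfxm l)
      by_cases hl : l ∈ S
      · simpa [hl] using h1
      · have h2 : {y | (lval g' l • y ∉ C ∧ fx y l) ↔ l ∈ S} =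
            {y | lval g' l • y ∉ C ∧ fx y l}ᶜ := by
          ext y
          simp only [mem_ofPred_eq, mem_compl_iff, hl, iff_false]
        rw [h2]
        exact h1.compl
    intro k
    have : {y | n y = k} = (C ∩ ⋃ j : ℕ, {y | cnt y = j} ∩ {y | 2 - j = k}) ∪
        (Cᶜ ∩ {y | 0 = k}) := by
      ext y
      simp only [n, mem_ofPred_eq, mem_union, mem_inter_iff, mem_iUnion, mem_compl_iff]
      by_cases h : y ∈ C
      · rw [if_pos h]
        constructor
        · intro h2
          exact Or.inl ⟨h, cnt y, rfl, h2⟩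
        · rintro (⟨_, j, rfl, h2⟩ | ⟨h2, _⟩)
          · exact h2
          · exact absurd h h2
      · rw [if_neg h]
        tauto
    rw [this]
    exact (hCm.inter (MeasurableSet.iUnion fun j => (hcm j).inter (MeasurableSet.const _))).union
      (hCm.compl.inter (MeasurableSet.const _))
  have hEgs : ∀ y l, Eg y l → Eg (lval g' l • y) (linv l) := by
    intro y l h
    refine ⟨h.2, ?_⟩
    rw [hback]
    exact h.1
  have hfin : ∀ y, {x | EConn (lval g') Eg y x}.Finite := by
    intro y
    by_cases hy : 1 ≤ d y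
    · refine (hrad.fin1 y hy).subset ?_
      intro x hx
      have hx' : EConn (lval g') Eg y x := hx
      clear hx
      change Conn T {z | 1 ≤ d z} y x
      refine rtg_mono ?_ hx'
      rintro a b ⟨l, hl, rfl⟩
      have h1 : w0 < e (lval g' l • a) ∧ e (lval g' l • a) ≤ w0 + Rc := hl.2
      refine ⟨?_, lval g' l, hgT l, rfl⟩
      have := hed2 (lval g' l • a)
      simp only [mem_ofPred_eq]
      omega
    · refine (Set.finite_singleton y).subset ?_
      intro x hx
      have hx' : EConn (lval g') Eg y x := hx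
      clear hx
      rcases (ReflTransGen.cases_head hx') with h | ⟨b, ⟨l, hl, _⟩, _⟩
      · exact h.symm
      · exfalso
        have h1 : w0 < e y ∧ e y ≤ w0 + Rc := hl.1
        have := hed2 y
        omega
  obtain ⟨FR, hFR1, hFR2, hFR3, hFR4⟩ := borel_round hmeas hfree
    (val := lval g') (inv := linv) (fun l => lval_linv g' l) (fun l => linv_linv l) hEgm hEgs hfin
    n hnm (fun o => ⟨ft, fun y => E (q y) = 1, by
      intro x l _
      simp only [ft]
      split_ifs with h
      · have h1 : w0 < e x ∧ e x ≤ w0 + Rc := h.1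
        exact (hrange x (by omega) l).1
      · exact le_rfl, by
      intro x l _
      simp only [ft]
      split_ifs with h
      · have h1 : w0 < e x ∧ e x ≤ w0 + Rc := h.1
        exact (hrange x (by omega) l).2
      · exact zero_le_one, by
      intro x l _ hl
      simp only [ft]
      have h1 : w0 < e x ∧ e x ≤ w0 + Rc := hl.1
      rw [if_pos hl, if_pos (hEgs x l hl), hfanti, hqn x (by omega), odd_lval hpk.Eg]
      ring, by
      intro x l _ hl
      simp only [ft]
      rw [if_neg hl], by
      intro x _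
      simp only [n]
      by_cases hx : x ∈ C
      · rw [if_pos hx, Nat.cast_sub (hcnt2 x hx)]
        have := hsumC x hx
        push_cast
        linarith
      · rw [if_neg hx, Nat.cast_zero]
        refine Finset.sum_eq_zero fun l _ => ?_
        simp only [ft]
        rw [if_neg (fun h => hx h.1)], by
      intro x l _ hl
      have h1 : w0 < e x ∧ e x ≤ w0 + Rc := hl.1
      simp only
      rw [hqn x (by omega), odd_lval hpk.Eg]
      rcases hpk.E1 (q x) with h | h <;> rw [h] <;> norm_num⟩)
  -- the 2-factor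
  let FF : X → Lt → Prop := fun y l => FR y l ∨ (¬ Eg y l ∧ fx y l)
  have hFFC : ∀ y l, y ∉ C → (FF y l ↔ fx y l) := by
    intro y l hy
    simp only [FF]
    constructor
    · rintro (h | h)
      · exact absurd (hFR2 _ _ h).1 hy
      · exact h.2
    · intro h
      exact Or.inr ⟨fun h2 => hy h2.1, h⟩
  have hapin : ∀ y, e y ≤ w0 → ∀ l, FF y l ↔ APat F Q (q y) l := by
    intro y hy l
    rw [hFFC y l (fun h => by have h1 : w0 < e y ∧ e y ≤ w0 + Rc := h; omega)]
    simp only [fx]
    rw [if_pos (Or.inl hy)]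
  refine ⟨FF, ?_, ?_, ?_, ?_, ?_⟩
  · intro l
    exact (hFR1 l).union ((hEgm l).compl.inter (hfxm l))
  · intro y l
    simp only [FF]
    have h1 : Eg y l ↔ Eg (lval g' l • y) (linv l) := by
      constructor
      · exact hEgs y l
      · intro h
        have := hEgs _ _ h
        rw [hback, linv_linv] at this
        exact this
    rw [hFR3 y l, h1, hfxs y l]
  · intro y
    by_cases hy : y ∈ C
    · have hdisj : Disjoint {l | FR y l} {l | lval g' l • y ∉ C ∧ fx y l} := by
        rw [Set.disjoint_left]
        intro l h1 h2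
        exact h2.1 (hFR2 _ _ h1).2
      have hu : {l | FF y l} = {l | FR y l} ∪ {l | lval g' l • y ∉ C ∧ fx y l} := by
        ext l
        simp only [FF, mem_ofPred_eq, mem_union]
        constructor
        · rintro (h | ⟨h1, h2⟩)
          · exact Or.inl h
          · exact Or.inr ⟨fun h3 => h1 ⟨hy, h3⟩, h2⟩
        · rintro (h | ⟨h1, h2⟩)
          · exact Or.inl h
          · exact Or.inr ⟨fun h3 => h1 h3.2, h2⟩
      rw [hu, Set.ncard_union_eq hdisj, hFR4]
      have h3 : {l | lval g' l • y ∉ C ∧ fx y l}.ncard = cnt y := by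
        rw [Set.ncard_eq_toFinset_card']
        simp only [cnt]
        congr 1
        ext l
        simp
      rw [h3]
      simp only [n]
      rw [if_pos hy]
      have := hcnt2 y hy
      omega
    · have hu : {l | FF y l} = {l | fx y l} := by
        ext l
        exact hFFC y l hy
      rw [hu]
      by_cases h : e y ≤ w0
      · have : {l | fx y l} = {l | APat F Q (q y) l} := by
          ext l
          simp only [fx, mem_ofPred_eq]
          rw [if_pos (Or.inl h)]
        rw [this]
        exact apat_ncard hpk _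
      · have h2 : w0 + Rc < e y := by
          by_contra h3
          exact hy ⟨by omega, by omega⟩
        have : {l | fx y l} = {((false, false) : Lt), ((false, true) : Lt)} := by
          ext ⟨i, j⟩
          simp only [fx, mem_ofPred_eq]
          have h4 := hest y (i, j)
          rw [if_neg (by simp only [Rc] at h2; omega)]
          cases i <;> cases j <;> simp
        rw [this, Set.ncard_pair (by simp)]
  · intro y l hy
    have hy' : w0 + Rc < e y := hy
    rw [hFFC y l (fun h => by have h1 : w0 < e y ∧ e y ≤ w0 + Rc := h; omega)]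
    simp only [fx]
    have h4 := hest y l
    rw [if_neg (by simp only [Rc] at hy'; omega)]
  · intro y hy
    have hey : e y = 0 := by
      simp only [e, exc]
      omega
    obtain ⟨O, hO1, hO2, hO3⟩ := orbit_closed hpk hN hper (q y)
    let o : K → X := fun k => ι (k * (q y)⁻¹) • y
    have ho : ∀ k l, o (lval g l * k) = lval g' l • o k := by
      intro k l
      simp only [o]
      rw [mul_assoc, map_mul, mul_smul, map_lval]
    have hoy : o (q y) = y := by simp [o]
    have hob : ∀ k ∈ Ball g (2 * N) (q y), q (o k) = k ∧ e (o k) ≤ 2 * N := by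
      rintro _ ⟨w, hw, rfl⟩
      have : ∀ w : List Lt, w.length ≤ 2 * N → q (o (wval g w * q y)) = wval g w * q y ∧
          e (o (wval g w * q y)) ≤ w.length := by
        intro w
        induction w using List.reverseRecOn with
        | nil =>
          intro _
          simp only [wval_nil, one_mul]
          rw [hoy]
          simp [hey]
        | append_singleton w l ih =>
          intro hw
          rw [List.length_append] at hw
          simp only [List.length_cons, List.length_nil] at hw
          have h2 : wval g [l] = lval g l := by simp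
          obtain ⟨ih1, ih2⟩ := ih (by omega)
          rw [wval_append, h2, mul_assoc, ho, hqn _ (by simp only [w0]; omega), ih1]
          refine ⟨rfl, ?_⟩
          have := hest (o (wval g w * q y)) l
          rw [List.length_append]
          simp only [List.length_cons, List.length_nil]
          omega
      obtain ⟨h1, h2⟩ := this w hw
      rw [smul_eq_mul]
      exact ⟨h1, by omega⟩
    have hcomp : ∀ x, EConn (lval g') FF y x → ∃ k ∈ O, x = o k := by
      intro x hx
      induction hx with
      | refl => exact ⟨q y, hO1, hoy.symm⟩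
      | @tail b c hb hc ih =>
        obtain ⟨k, hk, rfl⟩ := ih
        obtain ⟨l, hl, rfl⟩ := hc
        obtain ⟨h1, h2⟩ := hob k (hO2 hk)
        rw [hapin _ (by simp only [w0]; omega), h1] at hl
        exact ⟨lval g l * k, hO3 k hk l hl, (ho k l).symm⟩
    refine ⟨?_, ?_⟩
    · have hOfin : O.Finite := (ball_finite (2 * N) (q y)).subset hO2
      refine (hOfin.image o).subset ?_
      intro x hx
      obtain ⟨k, hk, rfl⟩ := hcomp x hx
      exact ⟨k, hk, rfl⟩
    · intro x hx
      obtain ⟨k, hk, rfl⟩ := hcomp x hx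
      have := (hob k (hO2 hk)).2
      change e (o k) ≤ w0 + Rc
      simp only [w0]
      omega

end Run7.h916
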