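import Pool.Agent.Run7.h916.PatternH
import Pool.Agent.Run7.h916.ZoneFactor

set_option autoImplicit false
set_option linter.unusedSectionVars false
set_option linter.unusedVariables false

/-!
Pairs of factors of a regular set of edges in the group, with null and mobile flows.
-/

namespace Run7.h916

open Set

universe u v w

variable {K : Type u} [Group K] {g : Bool → K}

open Classical in
/-- The flow of a factor `P` of a set of edges `H`. -/
noncomputable def DP (E : K → ℝ) (lam : ℝ) (H P : K → Lt → Prop) (k : K) (l : Lt) : ℝ :=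
  if H k l then E k * ((if P k l then 1 else 0) - lam) else 0

/-- Two factors of a regular set of edges in the group. -/
structure FacData (g : Bool → K) (E : K → ℝ) (r k : ℕ) (H PA PL : K → Lt → Prop) : Prop where
  /-- The degree is positive. -/
  k1 : 1 ≤ k
  /-- The degree is not full. -/
  kr : k < r
  /-- The parity is a sign. -/
  E1 : ∀ x, E x = 1 ∨ E x = -1
  /-- The parity is odd. -/
  Eg : ∀ i x, E (g i * x) = - E x
  /-- The set of edges is symmetric. -/
  HS : SymmE g H
  /-- The set of edges is regular. -/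
  Hr : ∀ x, {l | H x l}.ncard = r
  /-- The first factor is contained in the set of edges. -/
  AH : ∀ x l, PA x l → H x l
  /-- The second factor is contained in the set of edges. -/
  LH : ∀ x l, PL x l → H x l
  /-- The first factor is symmetric. -/
  AS : SymmE g PA
  /-- The second factor is symmetric. -/
  LS : SymmE g PL
  /-- The degree of the first factor. -/
  Ak : ∀ x, {l | PA x l}.ncard = k
  /-- The degree of the second factor. -/
  Lk : ∀ x, {l | PL x l}.ncard = k
  /-- The flow of the first factor is null. -/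
  nullA : NullH g H (DP E (k / r) H PA)
  /-- The flow of the second factor is null. -/
  nullL : NullH g H (DP E (k / r) H PL)
  /-- The flow of the first factor is mobile. -/
  mobA : Mobile g (sg (DP E (k / r) H PA))
  /-- The flow of the second factor is mobile. -/
  mobL : Mobile g (sg (DP E (k / r) H PL))

theorem DP_antisym {E : K → ℝ} (hEg : ∀ i x, E (g i * x) = - E x) {lam : ℝ}
    {H P : K → Lt → Prop} (hH : SymmE g H) (hP : SymmE g P) : Antisym g (DP E lam H P) := by
  classical
  intro y s
  have h1 := hH y s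
  have h2 := hP y s
  unfold DP
  rw [smul_eq_mul] at *
  rw [odd_lval hEg]
  by_cases hh : H y s
  · by_cases hp : P y s
    · rw [if_pos hh, if_pos (h1.mp hh), if_pos hp, if_pos (h2.mp hp)]; ring
    · rw [if_pos hh, if_pos (h1.mp hh), if_neg hp, if_neg (fun h => hp (h2.mpr h))]; ring
  · rw [if_neg hh, if_neg (fun h => hh (h1.mpr h))]; ring

theorem DP_off {E : K → ℝ} {lam : ℝ} {H P : K → Lt → Prop} (y : K) (l : Lt) (h : ¬ H y l) :
    DP E lam H P y l = 0 := by
  unfold DP
  rw [if_neg h]

theorem DP_on {E : K → ℝ} {lam : ℝ} {H P : K → Lt → Prop} {y : K} {l : Lt} (h : H y l)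
    [Decidable (P y l)] : DP E lam H P y l = E y * ((if P y l then 1 else 0) - lam) := by
  unfold DP
  rw [if_pos h]
  congr

theorem DP_bound {E : K → ℝ} (hE : ∀ x, E x = 1 ∨ E x = -1) {k r : ℕ} (hk : 1 ≤ k) (hkr : k < r)
    {H P : K → Lt → Prop} (y : K) (l : Lt) (h : H y l) :
    (1 / r : ℝ) ≤ |DP E (k / r) H P y l| ∧ |DP E (k / r) H P y l| ≤ 1 - 1 / r := by
  classical
  have hr : (0 : ℝ) < r := by
    have : 0 < r := by omega
    exact_mod_cast this
  have h1 : (1 / r : ℝ) ≤ k / r := by
    have : (1 : ℝ) ≤ k := by exact_mod_cast hk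
    exact div_le_div_of_nonneg_right this hr.le
  have h2 : (k / r : ℝ) ≤ 1 - 1 / r := by
    have : (k : ℝ) + 1 ≤ r := by exact_mod_cast hkr
    have e : (1 : ℝ) - 1 / r = (r - 1) / r := by field_simp
    rw [e]
    exact div_le_div_of_nonneg_right (by linarith) hr.le
  have h3 : (0 : ℝ) < 1 / r := by positivity
  rw [DP_on h, abs_mul]
  have hE' : |E y| = 1 := by rcases hE y with h | h <;> rw [h] <;> norm_num
  rw [hE', one_mul]
  split_ifs
  · rw [abs_of_nonneg (by linarith)]
    constructor <;> linarith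
  · rw [zero_sub, abs_neg, abs_of_nonneg (by linarith)]
    constructor <;> linarith

theorem FacData.mk' {E : K → ℝ} {r k : ℕ} {H PA PL : K → Lt → Prop} (k1 : 1 ≤ k) (kr : k < r)
    (E1 : ∀ x, E x = 1 ∨ E x = -1) (Eg : ∀ i x, E (g i * x) = - E x) (HS : SymmE g H)
    (Hr : ∀ x, {l | H x l}.ncard = r) (AH : ∀ x l, PA x l → H x l) (LH : ∀ x l, PL x l → H x l)
    (AS : SymmE g PA) (LS : SymmE g PL) (Ak : ∀ x, {l | PA x l}.ncard = k)
    (Lk : ∀ x, {l | PL x l}.ncard = k) (nullA : NullH g H (DP E (k / r) H PA))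
    (nullL : NullH g H (DP E (k / r) H PL)) (hgr : PolyGrowth g) :
    FacData g E r k H PA PL := by
  have hκ : (0 : ℝ) < 1 / r := by
    have : (0 : ℝ) < r := by
      have : 0 < r := by omega
      exact_mod_cast this
    positivity
  exact ⟨k1, kr, E1, Eg, HS, Hr, AH, LH, AS, LS, Ak, Lk, nullA, nullL,
    mobile_of_nullH HS hκ DP_off (fun y l h => (DP_bound E1 k1 kr y l h).1)
      (DP_antisym Eg HS AS) nullA hgr,
    mobile_of_nullH HS hκ DP_off (fun y l h => (DP_bound E1 k1 kr y l h).1)
      (DP_antisym Eg HS LS) nullL hgr⟩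

/-- The data can be lifted along homomorphisms with torsion kernel. -/
theorem FacData.lift {G : Type w} [Group G] {π : K →* G} (hπ : ∀ k, π k = 1 → IsOfFinOrder k)
    {E : G → ℝ} {r k : ℕ} {H PA PL : G → Lt → Prop} (h : FacData (fun i => π (g i)) E r k H PA PL) :
    FacData g (fun x => E (π x)) r k (fun x => H (π x)) (fun x => PA (π x))
      (fun x => PL (π x)) := by
  have hs : ∀ P : G → Lt → Prop, SymmE (fun i => π (g i)) P → SymmE g (fun x => P (π x)) := by
    intro P hP y l
    have := hP (π y) l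
    rw [smul_eq_mul, ← map_lval, ← map_mul] at this
    exact this
  exact ⟨h.k1, h.kr, fun x => h.E1 _, fun i x => by simp only [map_mul]; exact h.Eg i _,
    hs _ h.HS, fun x => h.Hr _, fun x l => h.AH _ l, fun x l => h.LH _ l, hs _ h.AS, hs _ h.LS,
    fun x => h.Ak _, fun x => h.Lk _, NullH.lift hπ h.nullA, NullH.lift hπ h.nullL,
    Mobile.lift hπ h.mobA, Mobile.lift hπ h.mobL⟩

/-- The data of a pair: lines and pattern. -/
theorem facData_pair [Group.IsNilpotent K] {E F Q : K → ℝ} (h : Package g E F Q) :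
    FacData g E 4 2 (fun _ _ => True) (fun k l => APat F Q k l) (fun _ l => l.1 = false) := by
  classical
  have hEE : ∀ x, E x * E x = 1 := by
    intro x
    rcases h.E1 x with h | h <;> rw [h] <;> norm_num
  refine FacData.mk' (by norm_num) (by norm_num) h.E1 h.Eg (fun _ _ => Iff.rfl) ?_
    (fun _ _ _ => trivial) (fun _ _ _ => trivial) (fun y l => APat.symm h y l)
    (fun _ _ => Iff.rfl) (apat_ncard h) ?_ ?_ ?_ (polyGrowth_of_nilpotent g)
  · intro x
    have : {l : Lt | True} = Set.univ := by ext; simp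
    rw [this, Set.ncard_univ, Nat.card_eq_fintype_card]
    rfl
  · intro x
    have : {l : Lt | l.1 = false} = {((false, false) : Lt), ((false, true) : Lt)} := by
      ext ⟨i, j⟩
      cases i <;> cases j <;> simp
    rw [this, Set.ncard_pair (by simp)]
  · refine ((nullH_of_null h.nullA (H := fun _ _ => True) (fun _ _ => trivial)).smul
      (1 / 2)).congr fun y s => ?_
    rw [DP_on trivial]
    have h1 := DA_val h y s
    have h2 := hEE y
    have h3 : E y * (E y * DA E F Q y s) = DA E F Q y s := by rw [← mul_assoc, h2, one_mul]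
    push_cast
    rw [← h1]
    linear_combination (1 / 2 : ℝ) * h3
  · refine ((nullH_of_null h.nullL (H := fun _ _ => True) (fun _ _ => trivial)).smul
      (1 / 2)).congr fun y s => ?_
    rw [DP_on trivial]
    have h1 := DL_val h y s
    have h2 := hEE y
    have h3 : E y * (E y * DL E y s) = DL E y s := by rw [← mul_assoc, h2, one_mul]
    push_cast
    rw [← h1]
    linear_combination (1 / 2 : ℝ) * h3

/-- The edges of the second direction in the cubic graph. -/
def PLc (Q : K → ℝ) (k : K) (l : Lt) : Prop := l.1 = true ∧ (if l.2 then (-1 : ℝ) else 1) * Q k = 1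

/-- A matching of the lines of the first direction. -/
def PAc (F : K → ℝ) (k : K) (l : Lt) : Prop :=
  l.1 = false ∧ (if l.2 then (-1 : ℝ) else 1) * F k = -1

/-- The flow of the matching of the second direction. -/
theorem DLc_eq {E Q : K → ℝ} (hE1 : ∀ x, E x = 1 ∨ E x = -1)
    (hEg : ∀ i x, E (g i * x) = - E x)
    (hQ1 : ∀ x, Q x = 1 ∨ Q x = -1) (hQv : ∀ x, Q (g false * x) = Q x)
    (hQw : ∀ x, Q (g true * x) = - Q x) (y : K) (s : Lt) [∀ x, Decidable (Q x = 1)] :
    DP E ((1 : ℕ) / (3 : ℕ)) (Hc Q) (PLc Q) y s =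
      conv g (fun x => (-1 / 3) * (if Q x = 1 then E x else 0))
        [(false, false), (true, false), (false, true), (true, true)] y s := by
  classical
  have hEv := hEg false
  have hEw := hEg true
  have hQwi := odd_inv hQw
  have hEwi := odd_inv hEw
  have hEvi := odd_inv hEv
  have hQvi := even_inv hQv
  simp only [conv_cons, conv_nil, smul_eq_mul]
  unfold DP Hc PLc
  obtain ⟨i, j⟩ := s
  have hy := hQ1 y
  cases i <;> cases j <;>
    rcases hy with hy | hy <;>
    simp [linv, lval, hQv, hQvi, hQw, hQwi, hEv, hEvi, hEw, hEwi, hy] <;>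
    norm_num <;> try ring

/-- The flow of the matching of the first direction. -/
theorem DAc_eq {E F Q : K → ℝ} (hE1 : ∀ x, E x = 1 ∨ E x = -1)
    (hEg : ∀ i x, E (g i * x) = - E x) (hF1 : ∀ x, F x = 1 ∨ F x = -1)
    (hFv : ∀ x, F (g false * x) = - F x)
    (hQ1 : ∀ x, Q x = 1 ∨ Q x = -1) (hQv : ∀ x, Q (g false * x) = Q x)
    (hQw : ∀ x, Q (g true * x) = - Q x) (y : K) (s : Lt) :
    DP E ((1 : ℕ) / (3 : ℕ)) (Hc Q) (PAc F) y s =
      (-1 / 2) * DP E ((1 : ℕ) / (3 : ℕ)) (Hc Q) (PLc Q) y s +
      (-1 / 2) * conv g (fun x => F x * E x) [(false, false)] y s := by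
  classical
  have hEvi := odd_inv (hEg false) y
  have hFvi := odd_inv hFv y
  simp only [conv_cons, conv_nil, smul_eq_mul]
  unfold DP Hc PLc PAc
  obtain ⟨i, j⟩ := s
  cases i <;> cases j <;>
    rcases hQ1 y with hy | hy <;> rcases hF1 y with hf | hf <;>
    simp [linv, lval, hEvi, hFvi, hy, hf] <;>
    norm_num <;> try ring

/-- The data of the cubic graph. -/
theorem facData_cubic [Group.IsNilpotent K] {E F Q : K → ℝ} (hE1 : ∀ x, E x = 1 ∨ E x = -1)
    (hEg : ∀ i x, E (g i * x) = - E x) (hF1 : ∀ x, F x = 1 ∨ F x = -1)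
    (hFv : ∀ x, F (g false * x) = - F x)
    (hQ1 : ∀ x, Q x = 1 ∨ Q x = -1) (hQv : ∀ x, Q (g false * x) = Q x)
    (hQw : ∀ x, Q (g true * x) = - Q x)
    (hnull : NullH g (Hc Q) (conv g (fun x => F x * E x) [(false, false)])) :
    FacData g E 3 1 (Hc Q) (PAc F) (PLc Q) := by
  classical
  have hEv := hEg false
  have hEw := hEg true
  have hQwi := odd_inv hQw
  have hEwi := odd_inv hEw
  have hEvi := odd_inv hEv
  have hQvi := even_inv hQv
  have hFvi := odd_inv hFv
  have e0 : wval g [(false, false)] = g false := by simp [lval]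
  have hL : NullH g (Hc Q) (DP E ((1 : ℕ) / (3 : ℕ)) (Hc Q) (PLc Q)) := by
    refine NullH.congr ?_ (fun y s => DLc_eq hE1 hEg hQ1 hQv hQw y s)
    refine nullH_crossing (Hc_symm hQw) (Z := fun x => Q x = 1) (Wt := [(false, false)]) (C := 1)
      zero_le_one ?_ ?_ ?_ ?_ ?_ ?_
    · intro x
      split_ifs
      · rcases hE1 x with h | h <;> rw [h] <;> norm_num
      · norm_num
    · intro x hx
      by_contra h
      rw [if_neg h, mul_zero] at hx
      exact hx rfl
    · refine ⟨fun x _ => ⟨Or.inl rfl, trivial⟩, fun x => ?_⟩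
      rw [e0, hQv]
    · refine ⟨fun x hx => ⟨Or.inl rfl, Or.inr ?_, Or.inl rfl, Or.inr ?_, trivial⟩, fun x => ?_⟩
      · simp [lval, hQv, hx]
      · simp [lval, hQvi, hQw, hQv, hx]
      · simp only [wval_cons, wval_nil, lval, one_mul]
        simp only [Bool.false_eq_true, if_false, if_true, mul_assoc]
        rw [hQwi, hQvi, hQw, hQv, neg_neg]
    · intro x
      simp only [wval_cons, wval_nil, lval, one_mul]
      simp only [Bool.false_eq_true, if_false, if_true, mul_assoc]
      simp only [hQwi, hQvi, hQw, hQv, neg_neg, hEwi, hEvi, hEw, hEv]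
    · intro x
      rw [e0, hQv, hEv]
      split_ifs <;> ring
  have hA : NullH g (Hc Q) (DP E ((1 : ℕ) / (3 : ℕ)) (Hc Q) (PAc F)) := by
    exact ((hL.smul (-1 / 2)).add (hnull.smul (-1 / 2))).congr
      (DAc_eq hE1 hEg hF1 hFv hQ1 hQv hQw)
  refine FacData.mk' le_rfl (by norm_num) hE1 hEg (Hc_symm hQw) ?_
    (fun x l h => Or.inl h.1) (fun x l h => Or.inr h.2) ?_ ?_ ?_ ?_ hA hL
    (polyGrowth_of_nilpotent g)
  · intro x
    rcases hQ1 x with h | h
    · have : {l | Hc Q x l} = {((false, false) : Lt), ((false, true) : Lt), ((true, false) : Lt)} := by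
        ext ⟨i, j⟩
        cases i <;> cases j <;> simp [Hc, h]
        norm_num
      rw [this]
      refine Set.ncard_eq_three.mpr ⟨_, _, _, by simp, by simp, by simp, rfl⟩
    · have : {l | Hc Q x l} = {((false, false) : Lt), ((false, true) : Lt), ((true, true) : Lt)} := by
        ext ⟨i, j⟩
        cases i <;> cases j <;> simp [Hc, h]
        norm_num
      rw [this]
      refine Set.ncard_eq_three.mpr ⟨_, _, _, by simp, by simp, by simp, rfl⟩
  · intro y l
    unfold PAc
    obtain ⟨i, j⟩ := l
    cases i <;> cases j <;> simp [linv, lval, hFv, hFvi]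
  · intro y l
    unfold PLc
    obtain ⟨i, j⟩ := l
    cases i <;> cases j <;> simp [linv, lval, hQw, hQwi]
  · intro x
    rw [Set.ncard_eq_one]
    rcases hF1 x with h | h
    · refine ⟨(false, true), ?_⟩
      ext ⟨i, j⟩
      cases i <;> cases j <;> simp [PAc, h]
      norm_num
    · refine ⟨(false, false), ?_⟩
      ext ⟨i, j⟩
      cases i <;> cases j <;> simp [PAc, h]
      norm_num
  · intro x
    rw [Set.ncard_eq_one]
    rcases hQ1 x with h | h
    · refine ⟨(true, false), ?_⟩
      ext ⟨i, j⟩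
      cases i <;> cases j <;> simp [PLc, h]
      norm_num
    · refine ⟨(true, true), ?_⟩
      ext ⟨i, j⟩
      cases i <;> cases j <;> simp [PLc, h]
      norm_num

end Run7.h916
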