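import Pool.Agent.Run7.h916.Kempe

set_option autoImplicit false
set_option linter.unusedSectionVars false

/-!
Changing the phase of one direction with the help of another one.
-/

namespace Run7.h916

open Set Relation
open scoped Pointwise

universe u v

variable {Γ : Type u} [Group Γ]

/-- The alternating paths in the colours `c`, `d` at the points of `Λ` are bounded by `F`. -/
def CrossOK (c d : Γ) (φ ψ : Γ → ZMod 2) (F Λ : Set Γ) : Prop :=
  ∃ o : Γ → Γ, ∀ γ ∈ Λ, o (nb c φ γ) = o γ ∧ o (nb d ψ γ) = o γ ∧ γ * (o γ)⁻¹ ∈ F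

theorem CrossOK.mono {c d : Γ} {φ ψ : Γ → ZMod 2} {F F' Λ Λ' : Set Γ}
    (h : CrossOK c d φ ψ F Λ) (hF : F ⊆ F') (hΛ : Λ' ⊆ Λ) : CrossOK c d φ ψ F' Λ' := by
  obtain ⟨o, ho⟩ := h
  exact ⟨o, fun γ hγ => ⟨(ho γ (hΛ hγ)).1, (ho γ (hΛ hγ)).2.1, hF (ho γ (hΛ hγ)).2.2⟩⟩

theorem CrossOK.swap {c d : Γ} {φ ψ : Γ → ZMod 2} {F Λ : Set Γ}
    (h : CrossOK c d φ ψ F Λ) : CrossOK d c ψ φ F Λ := by
  obtain ⟨o, ho⟩ := h
  exact ⟨o, fun γ hγ => ⟨(ho γ hγ).2.1, (ho γ hγ).1, (ho γ hγ).2.2⟩⟩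

/-- Change of the phase of `v` with the help of the colour `z`. -/
theorem flip_perm {B E F : Set Γ} (hB : ∀ s ∈ B, s⁻¹ ∈ B) {f : Γ → Γ → ZMod 2}
    (hf : IsPhase B f) {v z : Γ} (hv : v ∈ B) (hz : z ∈ B) (hvv : v ≠ v⁻¹) (hvz : v ≠ z)
    (hvz' : v⁻¹ ≠ z) {φ : Γ → ZMod 2} (hφ : ∀ γ, φ (v * γ) = φ γ + 1)
    (h1F : (1 : Γ) ∈ F) (hE : ∀ a ∈ F, ∀ b ∈ F, a * b⁻¹ ∈ E)
    (hΛ : ∀ γ, φ (z * γ) ≠ f v (z * γ) ↔ φ γ ≠ f v γ)
    (h1 : CrossOK v z (f v) (f z) F {γ | φ γ ≠ f v γ})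
    (h2 : CrossOK v⁻¹ z (f v) (f z) F {γ | φ γ ≠ f v γ}) :
    Reach B E 3 (kap f) (kap (setPhase f v φ)) := by
  classical
  obtain ⟨o, ho⟩ := h1
  obtain ⟨o', ho'⟩ := h2
  set Λ : Set Γ := {γ | φ γ ≠ f v γ} with hΛdef
  have hfv : ∀ γ, f v (v * γ) = f v γ + 1 := hf.step v hv hvv
  have hv1 : ∀ γ, (v * γ ∈ Λ ↔ γ ∈ Λ) := by
    intro γ
    simp only [hΛdef, mem_ofPred_eq, hφ, hfv]
    constructor
    · intro h h'
      exact h (by rw [h'])
    · intro h h'
      exact h (add_right_cancel h')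
  have hv2 : ∀ γ, (v⁻¹ * γ ∈ Λ ↔ γ ∈ Λ) := by
    intro γ
    have := hv1 (v⁻¹ * γ)
    rw [mul_inv_cancel_left] at this
    exact this.symm
  have hz1 : ∀ γ, (z * γ ∈ Λ ↔ γ ∈ Λ) := fun γ => hΛ γ
  have hz2 : ∀ γ, (z⁻¹ * γ ∈ Λ ↔ γ ∈ Λ) := by
    intro γ
    have := hz1 (z⁻¹ * γ)
    rw [mul_inv_cancel_left] at this
    exact this.symm
  have hnb : ∀ c, (c = v ∨ c = v⁻¹ ∨ c = z) → ∀ γ, (γ ∈ Λ ↔ nb c (f c) γ ∈ Λ) := by
    rintro c (rfl | rfl | rfl) γ
    · unfold nb
      split_ifs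
      · exact (hv1 γ).symm
      · exact (hv2 γ).symm
    · unfold nb
      split_ifs
      · exact (hv2 γ).symm
      · rw [inv_inv]; exact (hv1 γ).symm
    · unfold nb
      split_ifs
      · exact (hz1 γ).symm
      · exact (hz2 γ).symm
  have key : Reach B E 3 (kap f) (permOn (Equiv.swap v v⁻¹) Λ (kap f)) := by
    refine reach_swap (hf.locCol hB) hv (hB v hv) hz hvv hvz hvz' h1F hE ?_ o ?_ ?_ o' ?_ ?_
    · intro γ s hs h
      rw [kap_eq hf hs rfl]
      exact hnb _ h γ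
    · intro γ hγ s hs h
      rcases h with h | h
      · rw [kap_eq hf hs h]
        exact (ho γ hγ).1
      · rw [kap_eq hf hs h]
        exact (ho γ hγ).2.1
    · intro γ hγ
      exact (ho γ hγ).2.2
    · intro γ hγ s hs h
      rcases h with h | h
      · rw [kap_eq hf hs h, hf.inv v hv]
        exact (ho' γ hγ).1
      · rw [kap_eq hf hs h]
        exact (ho' γ hγ).2.1
    · intro γ hγ
      exact (ho' γ hγ).2.2
  exact key.congr_right hB (permOn_kap hf hv Λ φ fun γ => Iff.rfl)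

/-- Alternating paths for two directions which commute, or one of which inverts the other. -/
theorem cross_comm {v z : Γ} {φ ψ : Γ → ZMod 2} (hφv : ∀ γ, φ (v * γ) = φ γ + 1)
    (hψz : ∀ γ, ψ (z * γ) = ψ γ + 1) (hψv : ∀ γ, ψ (v * γ) = ψ γ)
    (hrel : (v * z = z * v ∧ ∀ γ, φ (z * γ) = φ γ) ∨
      (v * z = z * v⁻¹ ∧ ∀ γ, φ (z * γ) = φ γ + 1)) (Λ : Set Γ) :
    CrossOK v z φ ψ {1, v, z, z * v} Λ := by
  classical
  have one_add : (1 : ZMod 2) + 1 = 0 := by decide
  have hne : (1 : ZMod 2) ≠ 0 := by decide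
  have hφv' : ∀ γ, φ (v⁻¹ * γ) = φ γ + 1 := by
    intro γ
    have := hφv (v⁻¹ * γ)
    rw [mul_inv_cancel_left] at this
    rw [this, add_assoc, one_add, add_zero]
  have hψz' : ∀ γ, ψ (z⁻¹ * γ) = ψ γ + 1 := by
    intro γ
    have := hψz (z⁻¹ * γ)
    rw [mul_inv_cancel_left] at this
    rw [this, add_assoc, one_add, add_zero]
  have hψv' : ∀ γ, ψ (v⁻¹ * γ) = ψ γ := by
    intro γ
    have := hψv (v⁻¹ * γ)
    rw [mul_inv_cancel_left] at this
    exact this.symm
  let g : Γ → Γ := fun γ => if ψ γ = 0 then γ else z⁻¹ * γ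
  let o : Γ → Γ := fun γ => if φ (g γ) = 0 then g γ else v⁻¹ * g γ
  have ho_of : ∀ γ γ' : Γ, g γ' = g γ → o γ' = o γ := fun γ γ' h => by simp only [o, h]
  have ho_v : ∀ γ γ' : Γ, φ (g γ) = 0 → g γ' = v * g γ → o γ' = o γ := by
    intro γ γ' h0 h
    simp only [o, h, hφv, h0, zero_add, if_true, if_neg hne]
    rw [inv_mul_cancel_left]
  refine ⟨o, fun γ _ => ⟨?_, ?_, ?_⟩⟩
  · -- the colour `v`
    unfold nb
    rcases zmod2_cases (ψ γ) with hq | hq
    · have hg : g γ = γ := by simp only [g, hq, if_true]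
      rcases zmod2_cases (φ γ) with hp | hp
      · rw [if_pos hp]
        refine ho_v _ _ (by rw [hg]; exact hp) ?_
        simp only [g, hψv, hq, if_true]
      · rw [if_neg (by rw [hp]; exact hne)]
        symm
        have hg' : g (v⁻¹ * γ) = v⁻¹ * γ := by simp only [g, hψv', hq, if_true]
        refine ho_v _ _ (by rw [hg', hφv', hp, one_add]) ?_
        rw [hg, hg', mul_inv_cancel_left]
    · have hg : g γ = z⁻¹ * γ := by simp only [g, hq, if_neg hne]
      have hg1 : g (v * γ) = z⁻¹ * (v * γ) := by simp only [g, hψv, hq, if_neg hne]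
      have hg2 : g (v⁻¹ * γ) = z⁻¹ * (v⁻¹ * γ) := by simp only [g, hψv', hq, if_neg hne]
      rcases hrel with ⟨hc, hφz⟩ | ⟨hc, hφz⟩
      · have hφz' : ∀ γ, φ (z⁻¹ * γ) = φ γ := by
          intro γ
          have := hφz (z⁻¹ * γ)
          rw [mul_inv_cancel_left] at this
          exact this.symm
        have hc1 : z⁻¹ * (v * γ) = v * (z⁻¹ * γ) := by
          have : z⁻¹ * v = v * z⁻¹ := by
            rw [inv_mul_eq_iff_eq_mul, ← mul_assoc, ← hc, mul_assoc, mul_inv_cancel, mul_one]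
          rw [← mul_assoc, this, mul_assoc]
        have hc2 : v * (z⁻¹ * (v⁻¹ * γ)) = z⁻¹ * γ := by
          have : z⁻¹ * v = v * z⁻¹ := by
            rw [inv_mul_eq_iff_eq_mul, ← mul_assoc, ← hc, mul_assoc, mul_inv_cancel, mul_one]
          rw [← mul_assoc v, ← this]
          group
        rcases zmod2_cases (φ γ) with hp | hp
        · rw [if_pos hp]
          refine ho_v _ _ (by rw [hg, hφz', hp]) ?_
          rw [hg, hg1, hc1]
        · rw [if_neg (by rw [hp]; exact hne)]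
          symm
          refine ho_v _ _ (by rw [hg2, hφz', hφv', hp, one_add]) ?_
          rw [hg, hg2, hc2]
      · have hφz' : ∀ γ, φ (z⁻¹ * γ) = φ γ + 1 := by
          intro γ
          have := hφz (z⁻¹ * γ)
          rw [mul_inv_cancel_left] at this
          rw [this, add_assoc, one_add, add_zero]
        have hzi : z⁻¹ * v = v⁻¹ * z⁻¹ := by
          rw [inv_mul_eq_iff_eq_mul, ← mul_assoc, ← hc, mul_assoc, mul_inv_cancel, mul_one]
        have hc1 : v * (z⁻¹ * (v * γ)) = z⁻¹ * γ := by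
          rw [← mul_assoc z⁻¹, hzi]
          group
        have hc2 : z⁻¹ * (v⁻¹ * γ) = v * (z⁻¹ * γ) := by
          have : z⁻¹ * v⁻¹ = v * z⁻¹ := by
            rw [mul_inv_eq_iff_eq_mul, mul_assoc, hzi, mul_inv_cancel_left]
          rw [← mul_assoc, this, mul_assoc]
        rcases zmod2_cases (φ γ) with hp | hp
        · rw [if_pos hp]
          symm
          refine ho_v _ _ (by rw [hg1, hφz', hφv, hp, zero_add, one_add]) ?_
          rw [hg, hg1, hc1]
        · rw [if_neg (by rw [hp]; exact hne)]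
          refine ho_v _ _ (by rw [hg, hφz', hp, one_add]) ?_
          rw [hg, hg2, hc2]
  · -- the colour `z`
    unfold nb
    rcases zmod2_cases (ψ γ) with hq | hq
    · rw [if_pos hq]
      apply ho_of
      simp only [g, hψz, hq, zero_add, if_neg hne, if_true, inv_mul_cancel_left]
    · rw [if_neg (by rw [hq]; exact hne)]
      apply ho_of
      simp only [g, hψz', hq, one_add, if_true, if_neg hne]
  · have hgo : g γ = o γ ∨ g γ = v * o γ := by
      simp only [o]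
      split_ifs
      · exact Or.inl rfl
      · right; rw [mul_inv_cancel_left]
    have hγg : γ = g γ ∨ γ = z * g γ := by
      simp only [g]
      split_ifs
      · exact Or.inl rfl
      · right; rw [mul_inv_cancel_left]
    simp only [mem_insert_iff, mem_singleton_iff]
    rcases hγg with h | h <;> rcases hgo with h' | h'
    · left; rw [← h', ← h, mul_inv_cancel]
    · right; left
      rw [mul_inv_eq_iff_eq_mul, ← h', ← h]
    · right; right; left
      rw [mul_inv_eq_iff_eq_mul, ← h', ← h]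
    · right; right; right
      rw [mul_inv_eq_iff_eq_mul, mul_assoc, ← h', ← h]

/-- Alternating paths when `v` commutes with its conjugates by `z^{±1}`. -/
theorem cross_heis {v z : Γ} {φ ψ : Γ → ZMod 2} (hφv : ∀ γ, φ (v * γ) = φ γ + 1)
    (hψz : ∀ γ, ψ (z * γ) = ψ γ + 1) (hψv : ∀ γ, ψ (v * γ) = ψ γ)
    (hc : v * (z⁻¹ * v * z) = (z⁻¹ * v * z) * v)
    (hφ1 : ∀ γ, φ (z⁻¹ * v * z * γ) = φ γ) (hφ2 : ∀ γ, φ (z * v * z⁻¹ * γ) = φ γ) (Λ : Set Γ) :
    CrossOK v z φ ψ {a | ∃ q x y : Fin 2, a = z ^ (q : ℕ) * (v ^ (x : ℕ) *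
      (z⁻¹ * v * z) ^ (y : ℕ))} Λ := by
  classical
  have one_add : (1 : ZMod 2) + 1 = 0 := by decide
  have hne : (1 : ZMod 2) ≠ 0 := by decide
  have hφv' : ∀ γ, φ (v⁻¹ * γ) = φ γ + 1 := by
    intro γ
    have := hφv (v⁻¹ * γ)
    rw [mul_inv_cancel_left] at this
    rw [this, add_assoc, one_add, add_zero]
  have hψz' : ∀ γ, ψ (z⁻¹ * γ) = ψ γ + 1 := by
    intro γ
    have := hψz (z⁻¹ * γ)
    rw [mul_inv_cancel_left] at this
    rw [this, add_assoc, one_add, add_zero]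
  have hψv' : ∀ γ, ψ (v⁻¹ * γ) = ψ γ := by
    intro γ
    have := hψv (v⁻¹ * γ)
    rw [mul_inv_cancel_left] at this
    exact this.symm
  set u := z⁻¹ * v * z with hu
  have hφ1' : ∀ γ, φ (u⁻¹ * γ) = φ γ := by
    intro γ
    have := hφ1 (u⁻¹ * γ)
    rw [mul_inv_cancel_left] at this
    exact this.symm
  have hc' : ∀ γ, u⁻¹ * (v⁻¹ * γ) = v⁻¹ * (u⁻¹ * γ) := by
    intro γ
    rw [← mul_assoc, ← mul_assoc, ← mul_inv_rev, ← mul_inv_rev, hc]
  let g : Γ → Γ := fun γ => if ψ γ = 0 then γ else z⁻¹ * γ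
  let o1 : Γ → Γ := fun δ => if φ δ = 0 then δ else v⁻¹ * δ
  let o2 : Γ → Γ := fun δ => if φ (z * δ) = 0 then δ else u⁻¹ * δ
  let o : Γ → Γ := fun γ => o2 (o1 (g γ))
  -- invariance of `o2 ∘ o1` under `v` when the phase is zero
  have key1 : ∀ δ, φ δ = 0 → o1 (v * δ) = o1 δ := by
    intro δ h0
    simp only [o1, hφv, h0, zero_add, if_true, if_neg hne, inv_mul_cancel_left]
  have hzu : ∀ δ, φ (z * (u * δ)) = φ (z * δ) + 1 := by
    intro δ
    have : z * (u * δ) = v * (z * δ) := by rw [hu]; group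
    rw [this, hφv]
  have hzv : ∀ δ, φ (z * (v⁻¹ * δ)) = φ (z * δ) := by
    intro δ
    have h := hφ2 (z * (v⁻¹ * δ))
    have : z * v * z⁻¹ * (z * (v⁻¹ * δ)) = z * δ := by group
    rw [this] at h
    exact h.symm
  have key2 : ∀ δ, φ (z * δ) = 0 → o2 (o1 (u * δ)) = o2 (o1 δ) := by
    intro δ h0
    rcases zmod2_cases (φ δ) with hp | hp
    · have e1 : o1 (u * δ) = u * δ := by simp only [o1, hφ1, hp, if_true]
      have e2 : o1 δ = δ := by simp only [o1, hp, if_true]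
      rw [e1, e2]
      simp only [o2, hzu, h0, zero_add, if_true, if_neg hne, inv_mul_cancel_left]
    · have e1 : o1 (u * δ) = v⁻¹ * (u * δ) := by simp only [o1, hφ1, hp, if_neg hne]
      have e2 : o1 δ = v⁻¹ * δ := by simp only [o1, hp, if_neg hne]
      rw [e1, e2]
      simp only [o2, hzv, hzu, h0, zero_add, if_true, if_neg hne]
      rw [hc', inv_mul_cancel_left]
  refine ⟨o, fun γ _ => ⟨?_, ?_, ?_⟩⟩
  · unfold nb
    rcases zmod2_cases (ψ γ) with hq | hq
    · have hg : g γ = γ := by simp only [g, hq, if_true]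
      have hg1 : g (v * γ) = v * γ := by simp only [g, hψv, hq, if_true]
      have hg2 : g (v⁻¹ * γ) = v⁻¹ * γ := by simp only [g, hψv', hq, if_true]
      rcases zmod2_cases (φ γ) with hp | hp
      · rw [if_pos hp]
        simp only [o, hg, hg1]
        rw [key1 γ hp]
      · rw [if_neg (by rw [hp]; exact hne)]
        simp only [o, hg, hg2]
        rw [← key1 (v⁻¹ * γ) (by rw [hφv', hp, one_add]), mul_inv_cancel_left]
    · have hg : g γ = z⁻¹ * γ := by simp only [g, hq, if_neg hne]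
      have hg1 : g (v * γ) = u * (z⁻¹ * γ) := by
        simp only [g, hψv, hq, if_neg hne, hu]; group
      have hg2 : u * g (v⁻¹ * γ) = z⁻¹ * γ := by
        simp only [g, hψv', hq, if_neg hne, hu]; group
      have hg3 : g (v⁻¹ * γ) = z⁻¹ * (v⁻¹ * γ) := by simp only [g, hψv', hq, if_neg hne]
      rcases zmod2_cases (φ γ) with hp | hp
      · rw [if_pos hp]
        simp only [o, hg, hg1]
        exact key2 _ (by rw [mul_inv_cancel_left]; exact hp)
      · rw [if_neg (by rw [hp]; exact hne)]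
        simp only [o, hg]
        have := key2 (g (v⁻¹ * γ)) (by rw [hg3, mul_inv_cancel_left, hφv', hp, one_add])
        rw [hg2] at this
        exact this.symm
  · unfold nb
    rcases zmod2_cases (ψ γ) with hq | hq
    · rw [if_pos hq]
      have : g (z * γ) = g γ := by
        simp only [g, hψz, hq, zero_add, if_neg hne, if_true, inv_mul_cancel_left]
      simp only [o, this]
    · rw [if_neg (by rw [hq]; exact hne)]
      have : g (z⁻¹ * γ) = g γ := by
        simp only [g, hψz', hq, one_add, if_true, if_neg hne]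
      simp only [o, this]
  · -- bound
    have hb2 : ∀ δ, ∃ y : Fin 2, δ = u ^ (y : ℕ) * o2 δ := by
      intro δ
      simp only [o2]
      split_ifs
      · exact ⟨0, by simp⟩
      · exact ⟨1, by simp⟩
    have hb1 : ∀ δ, ∃ x : Fin 2, δ = v ^ (x : ℕ) * o1 δ := by
      intro δ
      simp only [o1]
      split_ifs
      · exact ⟨0, by simp⟩
      · exact ⟨1, by simp⟩
    have hb0 : ∃ q : Fin 2, γ = z ^ (q : ℕ) * g γ := by
      simp only [g]
      split_ifs
      · exact ⟨0, by simp⟩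
      · exact ⟨1, by simp⟩
    obtain ⟨q, hq⟩ := hb0
    obtain ⟨x, hx⟩ := hb1 (g γ)
    obtain ⟨y, hy⟩ := hb2 (o1 (g γ))
    refine ⟨q, x, y, ?_⟩
    rw [mul_inv_eq_iff_eq_mul, mul_assoc, mul_assoc]
    simp only [o]
    rw [← hy, ← hx, ← hq]

end Run7.h916
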