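import Pool.Agent.Run7.h916.HubPair

set_option autoImplicit false
set_option linter.unusedSectionVars false
set_option linter.unusedVariables false

/-!
Hub blocks in which every leaf forms a nilpotent pair with the hub.
-/

namespace Run7.h916

open Set Relation
open scoped Pointwise commutatorElement

universe u v w w'

variable {Γ : Type u} [Group Γ]

/-- The sign of a pair. -/
theorem exists_pair_sign {G : Type w} [Group G] [Group.IsNilpotent G] (hTF : TF G) {a b : G}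
    (hnc : ¬ IsCyclic (Subgroup.closure {a, b} : Subgroup G)) :
    (∃ E : G → ℝ, (∀ x, E x = 1 ∨ E x = -1) ∧ (∀ x, E (a * x) = - E x) ∧
      ∀ x, E (b * x) = - E x) ∧
    ∃ s : G → ℝ, (∀ x, s x = 1 ∨ s x = -1) ∧ (∀ x, s (a * x) = s x) ∧
      ∀ x, s (b * x) = - s x := by
  obtain ⟨φ, ψ, h1, h2, h3, h4⟩ := exists_homs_closure hTF hnc
  obtain ⟨E, hE1, hE2, hE3⟩ := exists_sign _ (φ * ψ)
  obtain ⟨s, hs1, hs2, hs3⟩ := exists_sign _ ψ
  refine ⟨⟨E, hE1, ?_, ?_⟩, s, hs1, fun x => hs2 _ x h3, fun x => hs3 _ x h4⟩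
  · intro x
    exact hE3 _ x (by rw [MonoidHom.mul_apply, h1, h3, mul_one])
  · intro x
    exact hE3 _ x (by rw [MonoidHom.mul_apply, h2, h4, one_mul])

theorem parOK_of_nilPair {X : Type v} [MulAction Γ X]
    (hfree : ∀ (γ : Γ) (x : X), γ • x = x → γ = 1) {s t : Γ} (h : NilPair s t) : ParOK X s t := by
  obtain ⟨G, _, _, π, hsurj, hπ, hTF, hnc⟩ := h.data
  obtain ⟨⟨E, hE1, hEs, hEt⟩, _⟩ := exists_pair_sign hTF hnc
  obtain ⟨ρ, hρ⟩ := exists_coord (Subgroup.closure {s, t} : Subgroup Γ)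
  refine parOK_of_sign hfree (fun γ => E (π (ρ γ))) (fun γ => hE1 _) ?_ ?_
  · intro γ
    have := hρ ⟨s, Subgroup.subset_closure (by simp)⟩ γ
    simp only at this
    rw [this, map_mul]
    exact hEs _
  · intro γ
    have := hρ ⟨t, Subgroup.subset_closure (by simp)⟩ γ
    simp only at this
    rw [this, map_mul]
    exact hEt _

theorem hasHub_of_pairs {X : Type v} [MulAction Γ X] [MeasurableSpace X] [StandardBorelSpace X]
    [Countable Γ] (hX : IsFreeBorel Γ X) {T : Set Γ} (hT : ∀ m ∈ T, m⁻¹ ∈ T) {x y c : Γ}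
    (hx : x ∈ T) (hy : y ∈ T) (hc : c ∈ T) (h1 : NilPair x y) (h2 : NilPair c y) (Q : Γ → ℝ)
    (hQ1 : ∀ γ, Q γ = 1 ∨ Q γ = -1) (hQx : ∀ γ, Q (x * γ) = Q γ) (hQc : ∀ γ, Q (c * γ) = Q γ)
    (hQy : ∀ γ, Q (y * γ) = - Q γ) : HasHub X T x y c := by
  classical
  obtain ⟨G1, _, _, π1, hsurj1, hπ1, hTF1, hnc1⟩ := h1.data
  obtain ⟨G2, _, _, π2, hsurj2, hπ2, hTF2, hnc2⟩ := h2.data
  let K1 : Subgroup Γ := Subgroup.closure {x, y}
  let K2 : Subgroup Γ := Subgroup.closure {c, y}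
  let g1 : Bool → K1 := fun i => if i then ⟨y, Subgroup.subset_closure (by simp)⟩ else
    ⟨x, Subgroup.subset_closure (by simp)⟩
  let g2 : Bool → K2 := fun i => if i then ⟨y, Subgroup.subset_closure (by simp)⟩ else
    ⟨c, Subgroup.subset_closure (by simp)⟩
  obtain ⟨⟨E1, hE11, hE1x, hE1y⟩, s1, hs11, hs1x, hs1y⟩ := exists_pair_sign hTF1 hnc1
  obtain ⟨⟨E2, hE21, hE2c, hE2y⟩, s2, hs21, hs2c, hs2y⟩ := exists_pair_sign hTF2 hnc2
  obtain ⟨ρ1, hρ1, hQ1'⟩ := exists_coord_sign π1 hsurj1 hs11 hs1x hs1y hQ1 hQx hQy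
  obtain ⟨ρ2, hρ2, hQ2'⟩ := exists_coord_sign π2 hsurj2 hs21 hs2c hs2y hQ1 hQc hQy
  have hE1g : ∀ i k, E1 (π1 (g1 i) * k) = - E1 k := by
    intro i k
    cases i
    · exact hE1x k
    · exact hE1y k
  have hE2g : ∀ i k, E2 (π2 (g2 i) * k) = - E2 k := by
    intro i k
    cases i
    · exact hE2c k
    · exact hE2y k
  have habs : ∀ k, |E1 k| ≤ 1 := by
    intro k
    rcases hE11 k with h | h <;> rw [h] <;> norm_num
  obtain ⟨cl, hcl⟩ := Subgroup.nilpotent_iff_lowerCentralSeries.mp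
    (inferInstance : Group.IsNilpotent G1)
  obtain ⟨F, hP⟩ := exists_patternH (g := fun i => π1 (g1 i)) hTF1 habs (hE1g false)
    hcl cl 0 (by omega) [(true, false)] (π1 (g1 true)) (by simp [lval]) (by simp) hnc1
    (hE1g true) s1 hs11 hs1x hs1y
  have hpk := package_of_pattern hE11 hE1g (isPat_of_isPatH hP)
  obtain ⟨f, hf1, hfv, hfper, hfnull⟩ := exists_cubic (g := fun i => π2 (g2 i)) hTF2 hE21 hE2g hs21
    hs2c hs2y hnc2
  have hfd1 := ((facData_pair hpk).lift (g := g1) (π := π1) hπ1).coord K1.subtype ρ1 hρ1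
  have hfd2 := ((facData_cubic hE21 hE2g hf1 hfv hs21 hs2c hs2y hfnull).lift (g := g2) (π := π2)
    hπ2).coord K2.subtype ρ2 hρ2
  have hQe1 : Q = fun γ => s1 (π1 (ρ1 γ)) := funext hQ1'
  have hQe2 : Q = fun γ => s2 (π2 (ρ2 γ)) := funext hQ2'
  refine exists_hubZone (K := Γ) (g1 := fun i => K1.subtype (g1 i))
    (g2 := fun i => K2.subtype (g2 i)) (E1 := fun γ => E1 (π1 (ρ1 γ)))
    (E2 := fun γ => E2 (π2 (ρ2 γ))) (F := fun γ => F (π1 (ρ1 γ))) (f := fun γ => f (π2 (ρ2 γ)))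
    (Q := Q) ?_ ?_ hQ1 (fun k => hpk.F1 _) (fun k => hf1 _) ?_ ?_ hQy hQy ?_ ?_
    (MonoidHom.id Γ) (fun γ => γ) (fun _ _ => rfl) hX hT hx hy hc ?_ ?_
  · rw [hQe1]
    exact hfd1
  · rw [hQe2]
    exact hfd2
  · intro k
    have := hρ1 (g1 false) k
    change ρ1 (K1.subtype (g1 false) * k) = _ at this
    rw [this, map_mul]
    exact hpk.Fv _
  · intro k
    have := hρ2 (g2 false) k
    change ρ2 (K2.subtype (g2 false) * k) = _ at this
    rw [this, map_mul]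
    exact hfv _
  · rw [hQe1]
    exact per_coord K1.subtype ρ1 hρ1 (per_lift hsurj1 hπ1 hpk.per)
  · rw [hQe2]
    exact per_coord K2.subtype ρ2 hρ2 (per_lift hsurj2 hπ2 hfper)
  · funext i
    cases i <;> rfl
  · funext i
    cases i <;> rfl

/-- **Hub blocks can be coloured**. -/
theorem hub_block_of_pairs {X : Type v} [MulAction Γ X] [MeasurableSpace X] [StandardBorelSpace X]
    [Countable Γ] (hX : IsFreeBorel Γ X) {T : Set Γ} (hT : ∀ m ∈ T, m⁻¹ ∈ T)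
    (hT1 : (1 : Γ) ∈ T) (hTfin : T.Finite) (hsep : SepAct T X) {B : Finset Γ}
    (hBT : ∀ s ∈ B, s ∈ T) (hB : ∀ s ∈ B, s⁻¹ ∈ B) (hne : ∀ s ∈ B, s ≠ s⁻¹)
    {y : Γ} (hy : y ∈ B) (hx : ∃ x ∈ B, x ≠ y ∧ x ≠ y⁻¹)
    (Q : Γ → ℝ) (hQ1 : ∀ k, Q k = 1 ∨ Q k = -1) (hQy : ∀ k, Q (y * k) = - Q k)
    (hQc : ∀ c ∈ B, c ≠ y → c ≠ y⁻¹ → ∀ k, Q (c * k) = Q k)
    (hnc : ∀ c ∈ B, c ≠ y → c ≠ y⁻¹ → NilPair c y) :
    BorelBlock (B : Set Γ) X := by
  classical
  obtain ⟨x0, hx0, hx01, hx02⟩ := hx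
  have hrB : ∀ s ∈ B, rep s ∈ B := by
    intro s hs
    rcases rep_eq s with h | h
    · rw [h]; exact hs
    · rw [h]; exact hB s hs
  -- pairs do not depend on inverses
  have hclR : ∀ a b : Γ, ({a, b⁻¹} : Set Γ) ⊆ Subgroup.closure ({a, b} : Set Γ) := by
    intro a b z hz
    rcases hz with rfl | rfl
    · exact Subgroup.subset_closure (by simp)
    · exact inv_mem (Subgroup.subset_closure (by simp))
  have hcl : ∀ a b : Γ, Subgroup.closure ({a, b⁻¹} : Set Γ) = Subgroup.closure {a, b} := by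
    intro a b
    apply le_antisymm
    · exact (Subgroup.closure_le _).mpr (hclR a b)
    · have := (Subgroup.closure_le _).mpr (hclR a b⁻¹)
      rwa [inv_inv] at this
  have hpinv : ∀ a b : Γ, NilPair a b → NilPair a b⁻¹ := by
    intro a b h
    unfold NilPair at h ⊢
    rwa [hcl]
  -- representatives
  set y' := rep y with hy'def
  set x := rep x0 with hxdef
  have hy' : y' ∈ B := hrB y hy
  have hx : x ∈ B := hrB x0 hx0
  have hyr : rep y' = y' := rep_rep y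
  have hxr : rep x = x := rep_rep x0
  have hyy : y' = y ∨ y' = y⁻¹ := rep_eq y
  have hne1 : ∀ c : Γ, c ≠ y' → c ≠ y'⁻¹ → c ≠ y ∧ c ≠ y⁻¹ := by
    intro c h1 h2
    rcases hyy with h | h
    · rw [h] at h1 h2
      exact ⟨h1, h2⟩
    · rw [h] at h1 h2
      rw [inv_inv] at h2
      exact ⟨h2, h1⟩
  have hxy : y' ≠ x := by
    intro h
    rcases rep_eq y with h1 | h1 <;> rcases rep_eq x0 with h2 | h2 <;>
      rw [← hy'def] at h1 <;> rw [← hxdef] at h2 <;> rw [h1, h2] at h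
    · exact hx01 h.symm
    · apply hx02
      rw [h, inv_inv]
    · exact hx02 h.symm
    · exact hx01 (inv_injective h).symm
  have hxy' : y' ≠ x⁻¹ := by
    intro h
    have h1 := hyr
    rw [h, rep_inv, hxr] at h1
    exact hne x hx h1
  have hQy' : ∀ k, Q (y' * k) = - Q k := by
    rcases hyy with h | h
    · rw [h]
      exact hQy
    · rw [h]
      exact odd_inv hQy
  have hncy : ∀ c ∈ B, c ≠ y' → c ≠ y'⁻¹ → NilPair c y' := by
    intro c hc h1 h2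
    obtain ⟨h3, h4⟩ := hne1 c h1 h2
    rcases hyy with h | h
    · rw [h]
      exact hnc c hc h3 h4
    · rw [h]
      exact hpinv _ _ (hnc c hc h3 h4)
  have hne2 : ∀ c ∈ B, rep c = c → c ≠ y' → c ≠ y'⁻¹ := by
    intro c hc hcr h1 h2
    rw [h2, rep_inv, hyr] at hcr
    exact hne y' hy' hcr
  have hx1 : x ≠ y' := fun h => hxy h.symm
  have hx2 : x ≠ y'⁻¹ := hne2 x hx hxr hx1
  have hpx := hncy x hx hx1 hx2
  refine hub_block hX hT1 hT hTfin hsep hBT hB hne hx hy' hxr hyr hxy hxy'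
    (hasZone_of_nilPair hX hT (hBT x hx) (hBT y' hy') hpx)
    (hasZone_of_nilPair hX hT (hBT y' hy') (hBT x hx) hpx.symm) ?_
    (parOK_of_nilPair hX.free hpx) ?_
  · intro c hc hcr hcx hcy
    have h2 := hne2 c hc hcr hcy
    obtain ⟨h3, h4⟩ := hne1 c hcy h2
    obtain ⟨h5, h6⟩ := hne1 x hx1 hx2
    exact hasHub_of_pairs hX hT (hBT x hx) (hBT y' hy') (hBT c hc) hpx (hncy c hc hcy h2) Q hQ1
      (hQc x hx h5 h6) (hQc c hc h3 h4) hQy'
  · intro c hc hcr hcx hcy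
    exact parOK_of_nilPair hX.free (hncy c hc hcy (hne2 c hc hcr hcy))

end Run7.h916
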