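import Pool.Agent.Run7.h916.NilBlock
import Pool.Agent.Run7.h916.HubPairs

set_option autoImplicit false
set_option linter.unusedSectionVars false
set_option linter.unusedVariables false

/-!
Blocks of directions of infinite order: blocks with torsion partners, parity blocks, hub blocks and
nilpotent blocks.
-/

namespace Run7.h916

open Subgroup
open scoped Pointwise commutatorElement

universe u v

variable {Γ : Type u} [Group Γ]

/-- Every element `v` of `B` has a partner `z` in `S` of finite order such that `⟨v, z⟩` is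
virtually infinite cyclic, or `z` lies in a locally finite normal subgroup of `⟨v, z⟩`. -/
def TorsionBlock (S : Finset Γ) (B : Set Γ) : Prop :=
  ∀ v ∈ B, ∃ z ∈ S, IsOfFinOrder z ∧
    (VirtuallyInfiniteCyclic (Subgroup.closure {v, z} : Subgroup Γ) ∨
      ∃ L : Subgroup (Subgroup.closure {v, z} : Subgroup Γ), L.Normal ∧ IsLocallyFinite L ∧
        ∃ y ∈ L, (y : Γ) = z)

/-- There is a homomorphism from `⟨B⟩` to `ℤ/2` which is nontrivial on every element of `B`, and
every element of `B` forms a nilpotent pair with an element of `B`. -/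
def ParityBlock (B : Set Γ) : Prop :=
  (∃ ε : (Subgroup.closure B : Subgroup Γ) →* Multiplicative (ZMod 2),
    ∀ (s : Γ) (hs : s ∈ B), ε ⟨s, Subgroup.subset_closure hs⟩ ≠ 1) ∧
  ∀ s ∈ B, ∃ t ∈ B, NilPair s t

/-- There are `y` in `B` and a homomorphism from `⟨B⟩` to `ℤ/2` which among the elements of `B` is
nontrivial exactly on `y` and `y⁻¹`, and all other elements of `B` (there is at least one) form
nilpotent pairs with `y`. -/
def StarBlock (B : Set Γ) : Prop :=
  ∃ y ∈ B, (∃ ε : (Subgroup.closure B : Subgroup Γ) →* Multiplicative (ZMod 2),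
    ∀ (s : Γ) (hs : s ∈ B), ε ⟨s, Subgroup.subset_closure hs⟩ ≠ 1 ↔ s = y ∨ s = y⁻¹) ∧
  (∃ c ∈ B, c ≠ y ∧ c ≠ y⁻¹) ∧ ∀ c ∈ B, c ≠ y → c ≠ y⁻¹ → NilPair c y

/-- The group `⟨B⟩` has a locally finite normal subgroup `L` with nilpotent quotient, but no locally
finite normal subgroup with cyclic quotient, and either `B` does not have exactly six elements or
the quotient by `L` has class at most two. -/
def NilpotentBlock (B : Set Γ) : Prop :=
  (∃ (L : Subgroup (Subgroup.closure B : Subgroup Γ)) (_ : L.Normal), IsLocallyFinite L ∧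
    Group.IsNilpotent ((Subgroup.closure B : Subgroup Γ) ⧸ L) ∧
    (B.ncard ≠ 6 ∨ ∀ x y w : (Subgroup.closure B : Subgroup Γ), ⁅⁅x, y⁆, w⁆ ∈ L)) ∧
  ∀ (K : Subgroup (Subgroup.closure B : Subgroup Γ)) (_ : K.Normal), IsLocallyFinite K →
    ¬ IsCyclic ((Subgroup.closure B : Subgroup Γ) ⧸ K)

theorem partnerData_of_torsionBlock {S : Finset Γ} {B : Set Γ} (h : TorsionBlock S B) {v : Γ}
    (hv : v ∈ B) (hvi : ¬ IsOfFinOrder v) :
    ∃ z ∈ S, IsOfFinOrder z ∧ ∃ ε, PartnerData v z ε := by
  obtain ⟨z, hz, hzf, hor⟩ := h v hv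
  refine ⟨z, hz, hzf, ?_⟩
  set H : Subgroup Γ := Subgroup.closure {v, z} with hHdef
  have hvH : v ∈ H := Subgroup.subset_closure (by simp)
  have hzH : z ∈ H := Subgroup.subset_closure (by simp)
  let v' : H := ⟨v, hvH⟩
  let z' : H := ⟨z, hzH⟩
  have hv' : ¬ IsOfFinOrder v' := fun h => hvi (isOfFinOrder_subgroup.mp h)
  have hz' : IsOfFinOrder z' := isOfFinOrder_subgroup.mpr hzf
  -- a locally finite normal subgroup containing `z'`
  have hcomm : ∀ L : Subgroup H, L.Normal → IsLocallyFinite L → z' ∈ L →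
      ∃ ε, PartnerData v z ε := by
    intro L hLn hL hzL
    obtain ⟨ε, hε⟩ := partnerData_of_normal hL hz' hv' (Or.inl (by
      have := L.mul_mem hzL (hLn.conj_mem _ (L.inv_mem hzL) v')
      have e : z' * v' * z'⁻¹ * v'⁻¹ = z' * (v' * z'⁻¹ * v'⁻¹) := by group
      rw [e]; exact this))
    exact ⟨ε, hε.of_subgroup⟩
  rcases hor with hvc | ⟨L, hLn, hL, y, hy, hyz⟩
  · by_cases hfe : FiniteExtensionOfInt H
    · obtain ⟨L, hLn, hL, hmem⟩ := mem_of_finiteExtension hfe
      exact hcomm L hLn hL (hmem z' hz')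
    · have hgen : Subgroup.closure ({v', z'} : Set H) = ⊤ := by
        have h1 : ({v', z'} : Set H) = Subtype.val ⁻¹' ({v, z} : Set Γ) := by
          ext x
          simp only [Set.mem_insert_iff, Set.mem_singleton_iff, Set.mem_preimage]
          constructor
          · rintro (rfl | rfl)
            · exact Or.inl rfl
            · exact Or.inr rfl
          · rintro (h | h)
            · exact Or.inl (Subtype.ext h)
            · exact Or.inr (Subtype.ext h)
        rw [h1]
        exact Subgroup.closure_closure_coe_preimage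
      obtain ⟨L, hLn, hL, z1, hz1, hz1f, hz1r⟩ := two_ended_structure hgen hvc hfe
      have : z1 = z' := by
        rcases hz1 with h | h
        · exact absurd (h ▸ hz1f) hv'
        · exact h
      rw [this] at hz1r
      obtain ⟨ε, hε⟩ := partnerData_of_normal hL hz' hv' (Or.inr (hz1r v' hv'))
      exact ⟨ε, hε.of_subgroup⟩
  · have : y = z' := Subtype.ext hyz
    exact hcomm L hLn hL (this ▸ hy)

theorem exists_sign_sub (H : Subgroup Γ) (ε : H →* Multiplicative (ZMod 2)) :
    ∃ Q : Γ → ℝ, (∀ γ, Q γ = 1 ∨ Q γ = -1) ∧ (∀ h : H, ε h = 1 → ∀ γ, Q (h * γ) = Q γ) ∧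
      ∀ h : H, ε h ≠ 1 → ∀ γ, Q (h * γ) = - Q γ := by
  obtain ⟨s, hs1, hs2, hs3⟩ := exists_sign_two ε
  obtain ⟨ρ, hρ⟩ := exists_coord H
  refine ⟨fun γ => s (ρ γ), fun γ => hs1 _, fun h hh γ => ?_, fun h hh γ => ?_⟩
  · simp only [hρ]
    exact hs2 h hh _
  · simp only [hρ]
    exact hs3 h hh _

section blocks

variable {X : Type v} [MulAction Γ X] [MeasurableSpace X] [StandardBorelSpace X] [Countable Γ]
  (hX : IsFreeBorel Γ X) {T : Set Γ} (hT1 : (1 : Γ) ∈ T) (hT : ∀ m ∈ T, m⁻¹ ∈ T)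
  (hTfin : T.Finite) (hsep : SepAct T X)

include hX hT1 hT hTfin hsep in
/-- Parity blocks. -/
theorem parity_block_of_pairs {B : Finset Γ} (hBT : ∀ s ∈ B, s ∈ T)
    (hB : ∀ s ∈ B, s⁻¹ ∈ B) (hne : ∀ s ∈ B, s ≠ s⁻¹)
    (S : Γ → ℝ) (hS1 : ∀ k, S k = 1 ∨ S k = -1) (hSo : ∀ s ∈ B, ∀ k, S (s * k) = - S k)
    (hpart : ∀ s ∈ B, ∃ t ∈ B, NilPair s t) : BorelBlock (B : Set Γ) X := by
  classical
  obtain ⟨cls, hcls⟩ := exists_classes hX hT1 hT hTfin hsep hBT hB hne (by
    intro a ha
    obtain ⟨t, ht, h⟩ := hpart a ha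
    exact ⟨t, ht, h.ne.1, h.ne.2, hasZone_of_nilPair hX hT (hBT a ha) (hBT t ht) h⟩)
  refine block_of_classes hX hB hne hcls fun o => ?_
  refine ⟨fun z => ∃ γ : Γ, γ • o = z ∧ S γ = 1, ?_⟩
  rintro z s hs ⟨γ, _, rfl⟩
  have huniq : ∀ γ1 γ2 : Γ, γ1 • o = γ2 • o → γ1 = γ2 := by
    intro γ1 γ2 h
    have h1 : (γ2⁻¹ * γ1) • o = o := by rw [mul_smul, h, inv_smul_smul]
    have := hX.free _ _ h1
    rw [inv_mul_eq_one] at this
    exact this.symm
  have h1 : (∃ γ' : Γ, γ' • o = γ • o ∧ S γ' = 1) ↔ S γ = 1 := by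
    constructor
    · rintro ⟨γ', h2, h3⟩
      rw [← huniq _ _ h2]
      exact h3
    · intro h
      exact ⟨γ, rfl, h⟩
  have h2 : (∃ γ' : Γ, γ' • o = s • γ • o ∧ S γ' = 1) ↔ - S γ = 1 := by
    constructor
    · rintro ⟨γ', h2, h3⟩
      rw [← mul_smul] at h2
      rw [← hSo s hs, ← huniq _ _ h2]
      exact h3
    · intro h
      exact ⟨s * γ, mul_smul _ _ _, by rw [hSo s hs]; exact h⟩
  change (∃ γ' : Γ, γ' • o = s • γ • o ∧ S γ' = 1) ↔
    ¬ (∃ γ' : Γ, γ' • o = γ • o ∧ S γ' = 1)
  rw [h1, h2]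
  rcases hS1 γ with h | h <;> rw [h] <;> norm_num

include hX hT1 hT hTfin hsep in
/-- Blocks can be coloured. -/
theorem block_of_types {B : Finset Γ} (hBT : ∀ s ∈ B, s ∈ T) (hB : ∀ s ∈ B, s⁻¹ ∈ B)
    (hinf : ∀ s ∈ B, ¬ IsOfFinOrder s)
    (h : ParityBlock (B : Set Γ) ∨ StarBlock (B : Set Γ) ∨ NilpotentBlock (B : Set Γ)) :
    BorelBlock (B : Set Γ) X := by
  classical
  have hne : ∀ s ∈ B, s ≠ s⁻¹ := fun s hs => not_isOfFinOrder_ne_inv (hinf s hs)
  rcases h with ⟨⟨ε, hε⟩, hpart⟩ | ⟨y, hy, ⟨ε, hε⟩, hc, hpair⟩ | ⟨⟨L, hLn, hL, hnil, hex⟩, hcyc⟩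
  · obtain ⟨Q, hQ1, hQ2, hQ3⟩ := exists_sign_sub _ ε
    refine parity_block_of_pairs hX hT1 hT hTfin hsep hBT hB hne Q hQ1 ?_ hpart
    intro s hs k
    exact hQ3 ⟨s, Subgroup.subset_closure hs⟩ (hε s hs) k
  · obtain ⟨Q, hQ1, hQ2, hQ3⟩ := exists_sign_sub _ ε
    refine hub_block_of_pairs hX hT hT1 hTfin hsep hBT hB hne hy hc Q hQ1 ?_ ?_ hpair
    · intro k
      exact hQ3 ⟨y, Subgroup.subset_closure hy⟩ ((hε y hy).mpr (Or.inl rfl)) k
    · intro c hc h1 h2 k
      refine hQ2 ⟨c, Subgroup.subset_closure hc⟩ ?_ k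
      by_contra hcon
      rcases (hε c hc).mp hcon with h | h
      · exact h1 h
      · exact h2 h
  · -- restrict the action to the subgroup
    set N : Subgroup Γ := Subgroup.closure (B : Set Γ) with hN
    have hBN : ∀ s ∈ B, s ∈ N := fun s hs => Subgroup.subset_closure hs
    have hinj : Function.Injective (fun s : B => (⟨s.1, hBN s.1 s.2⟩ : N)) := by
      intro s t hst
      have h1 : (s : Γ) = t := congrArg (fun z : N => (z : Γ)) hst
      exact Subtype.ext h1
    let B' : Finset N := B.attach.map ⟨fun s => (⟨s.1, hBN s.1 s.2⟩ : N), hinj⟩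
    have hmem : ∀ s : N, s ∈ B' ↔ (s : Γ) ∈ B := by
      intro s
      simp only [B', Finset.mem_map, Finset.mem_attach, true_and, Subtype.exists]
      constructor
      · rintro ⟨t, ht, h⟩
        rw [← h]
        exact ht
      · intro h
        exact ⟨s, h, rfl⟩
    have hval : (Subtype.val '' (B' : Set N) : Set Γ) = (B : Set Γ) := by
      ext s
      constructor
      · rintro ⟨t, ht, rfl⟩
        exact (hmem t).mp ht
      · intro hs
        exact ⟨⟨s, hBN s hs⟩, (hmem _).mpr hs, rfl⟩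
    have hpre : (B' : Set N) = Subtype.val ⁻¹' (B : Set Γ) := by
      ext s
      exact hmem s
    rw [← hval]
    apply BorelBlock.of_subgroup
    refine block_nilpotent (hX.restrict N) (S := B') ?_ ?_ ?_ ?_ hLn hL hnil hcyc ?_
    · intro s hs
      rw [hmem] at hs ⊢
      exact hB _ hs
    · rw [hpre]
      exact Subgroup.closure_closure_coe_preimage
    · intro s hs h
      exact hinf s ((hmem s).mp hs) (isOfFinOrder_subgroup.mp h)
    · refine hsep.restrict N ?_
      rintro t (rfl | ht)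
      · exact hT1
      · exact hBT _ ((hmem t).mp ht)
    · rcases hex with h | h
      · left
        intro h6
        apply h
        rw [Set.ncard_coe_finset]
        have : B'.card = B.card := by
          rw [Finset.card_map, Finset.card_attach]
        omega
      · exact Or.inr h

end blocks

/-- **The block theorem**. -/
theorem chromaticIndex_types {X : Type v} [MulAction Γ X] [MeasurableSpace X]
    [StandardBorelSpace X] {S : Finset Γ} (hS : IsMarking S) (hH : HypH S X) (b : Γ → ℕ)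
    (hb : ∀ s ∈ S, b s⁻¹ = b s)
    (h : ∀ n, TorsionBlock S {s | s ∈ S ∧ ¬ IsOfFinOrder s ∧ b s = n} ∨
      ParityBlock {s | s ∈ S ∧ ¬ IsOfFinOrder s ∧ b s = n} ∨
      StarBlock {s | s ∈ S ∧ ¬ IsOfFinOrder s ∧ b s = n} ∨
      NilpotentBlock {s | s ∈ S ∧ ¬ IsOfFinOrder s ∧ b s = n}) :
    borelChromaticIndex (schreierGraph S X) = S.card := by
  classical
  obtain ⟨hX, hcount, T, hT1, hT, hTfin, hgen, hST, hsep⟩ := exists_setup hS hH
  let TT : ℕ → Prop := fun n => TorsionBlock S {s | s ∈ S ∧ ¬ IsOfFinOrder s ∧ b s = n}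
  let B : Option ℕ → Set Γ := fun i => match i with
    | none => {s | s ∈ S ∧ (IsOfFinOrder s ∨ TT (b s))}
    | some n => {s | s ∈ S ∧ ¬ IsOfFinOrder s ∧ b s = n ∧ ¬ TT n}
  refine chromaticIndex_of_borelBlocks hS hH (B := B) ?_ ?_ ?_ ?_
  · intro i j s hi hj
    cases i with
    | none =>
      cases j with
      | none => rfl
      | some n =>
        have h1 : IsOfFinOrder s ∨ TT (b s) := hi.2
        have h2 : ¬ IsOfFinOrder s ∧ b s = n ∧ ¬ TT n := hj.2
        rcases h1 with h1 | h1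
        · exact absurd h1 h2.1
        · rw [h2.2.1] at h1
          exact absurd h1 h2.2.2
    | some m =>
      cases j with
      | none =>
        have h1 : IsOfFinOrder s ∨ TT (b s) := hj.2
        have h2 : ¬ IsOfFinOrder s ∧ b s = m ∧ ¬ TT m := hi.2
        rcases h1 with h1 | h1
        · exact absurd h1 h2.1
        · rw [h2.2.1] at h1
          exact absurd h1 h2.2.2
      | some n =>
        have h1 : b s = m := hi.2.2.1
        have h2 : b s = n := hj.2.2.1
        rw [← h1, h2]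
  · intro i s hs
    cases i with
    | none =>
      have h1 : s ∈ S ∧ (IsOfFinOrder s ∨ TT (b s)) := hs
      refine ⟨hS.inv_mem s h1.1, ?_⟩
      rw [isOfFinOrder_inv_iff, hb s h1.1]
      exact h1.2
    | some n =>
      have h1 : s ∈ S ∧ ¬ IsOfFinOrder s ∧ b s = n ∧ ¬ TT n := hs
      refine ⟨hS.inv_mem s h1.1, ?_⟩
      rw [isOfFinOrder_inv_iff, hb s h1.1]
      exact h1.2
  · ext s
    simp only [Set.mem_iUnion]
    constructor
    · rintro ⟨i, hi⟩
      cases i with
      | none => exact hi.1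
      | some n => exact hi.1
    · intro hs
      by_cases h : IsOfFinOrder s ∨ TT (b s)
      · exact ⟨none, hs, h⟩
      · push Not at h
        exact ⟨some (b s), hs, h.1, rfl, h.2⟩
  · intro i
    cases i with
    | none =>
      have hinv : ∀ s ∈ B none, s⁻¹ ∈ B none := by
        intro s hs
        have h1 : s ∈ S ∧ (IsOfFinOrder s ∨ TT (b s)) := hs
        refine ⟨hS.inv_mem s h1.1, ?_⟩
        rw [isOfFinOrder_inv_iff, hb s h1.1]
        exact h1.2
      refine borelBlock_of_flexible hX hT1 hT hgen hsep hinv (fun s hs => hST s hs.1) ?_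
      refine flexible_partner (S.finite_toSet.subset fun s hs => hs.1) hinv
        (fun s hs => hH.not_odd s hs.1) fun v hv hvi => ?_
      have h1 : v ∈ S ∧ (IsOfFinOrder v ∨ TT (b v)) := hv
      have h2 : TT (b v) := h1.2.resolve_left hvi
      obtain ⟨z, hz, hzf, hε⟩ := partnerData_of_torsionBlock h2 (v := v) ⟨h1.1, hvi, rfl⟩ hvi
      exact ⟨z, ⟨hz, Or.inl hzf⟩, hzf, hε⟩
    | some n =>
      by_cases hTn : TT n
      · have : B (some n) = ∅ := by
          ext s
          simp only [Set.mem_empty_iff_false, iff_false]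
          rintro ⟨_, _, _, h⟩
          exact h hTn
        rw [this]
        exact borelBlock_empty X
      · have h3 := (h n).resolve_left hTn
        set B' : Finset Γ := S.filter (fun s => ¬ IsOfFinOrder s ∧ b s = n) with hB'
        have hmem : ∀ s, s ∈ B' ↔ s ∈ S ∧ ¬ IsOfFinOrder s ∧ b s = n := by
          intro s
          rw [hB', Finset.mem_filter]
        have hBB : B (some n) = (B' : Set Γ) := by
          ext s
          rw [Finset.mem_coe, hmem]
          constructor
          · rintro ⟨h1, h2, h3, _⟩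
            exact ⟨h1, h2, h3⟩
          · rintro ⟨h1, h2, h3⟩
            exact ⟨h1, h2, h3, hTn⟩
        have hBB' : {s | s ∈ S ∧ ¬ IsOfFinOrder s ∧ b s = n} = (B' : Set Γ) := by
          ext s
          rw [Finset.mem_coe, hmem]
          rfl
        rw [hBB'] at h3
        rw [hBB]
        refine block_of_types hX hT1 hT hTfin hsep (fun s hs => hST s ((hmem s).mp hs).1) ?_
          (fun s hs => ((hmem s).mp hs).2.1) h3
        intro s hs
        rw [hmem] at hs ⊢
        refine ⟨hS.inv_mem s hs.1, ?_⟩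
        rw [isOfFinOrder_inv_iff, hb s hs.1]
        exact hs.2

end Run7.h916
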