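import Pool.Agent.Run7.h916.Base

set_option autoImplicit false
set_option linter.unusedSectionVars false

/-!
Local colourings of Cayley graphs, local reconfiguration, and the gluing theorem.
-/

namespace Run7.h916

open Set Relation
open scoped Pointwise

universe u v

theorem rtg_mono {α : Type*} {r p : α → α → Prop} (h : ∀ a b, r a b → p a b) {a b : α}
    (hr : ReflTransGen r a b) : ReflTransGen p a b := by
  induction hr with
  | refl => exact ReflTransGen.refl
  | tail _ hc ih => exact ih.tail (h _ _ hc)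

variable {Γ : Type u} [Group Γ]

/-- A proper edge colouring of the Cayley graph of the block `B` (edges `γ — s * γ`) whose colours
are the elements of `B`; `κ γ s` is the colour of the edge from `γ` to `s * γ`. -/
structure LocCol (B : Set Γ) (κ : Γ → Γ → Γ) : Prop where
  mem : ∀ γ, ∀ s ∈ B, κ γ s ∈ B
  inj : ∀ γ, InjOn (κ γ) B
  symm : ∀ γ, ∀ s ∈ B, κ (s * γ) s⁻¹ = κ γ s

/-- Equality of colourings on the block `B`. -/
def EqB (B : Set Γ) (κ κ' : Γ → Γ → Γ) : Prop := ∀ γ, ∀ s ∈ B, κ γ s = κ' γ s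

/-- Two group elements joined by an edge on which the colourings differ. -/
def DiffRel (B : Set Γ) (κ κ' : Γ → Γ → Γ) (γ γ' : Γ) : Prop :=
  ∃ s ∈ B, γ' = s * γ ∧ κ γ s ≠ κ' γ s

/-- The two colourings differ by a local change: all components of the set of edges on which they
differ are translates of subsets of `E`. -/
def Step (B E : Set Γ) (κ κ' : Γ → Γ → Γ) : Prop :=
  ∀ γ γ', ReflTransGen (DiffRel B κ κ') γ γ' → γ' * γ⁻¹ ∈ E

/-- `κ'` is reached from `κ` by at most `n` local changes, each bounded by `E`. -/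
def Reach (B E : Set Γ) (n : ℕ) (κ κ' : Γ → Γ → Γ) : Prop :=
  ∃ p : ℕ → Γ → Γ → Γ, EqB B (p 0) κ ∧ (∀ i, n ≤ i → EqB B (p i) κ') ∧
    (∀ i, LocCol B (p i)) ∧ ∀ i, Step B E (p i) (p (i + 1))

/-- The translate of a colouring by a group element on the right. -/
def rtrans (κ : Γ → Γ → Γ) (g : Γ) : Γ → Γ → Γ := fun γ s => κ (γ * g) s

/-- The block `B` is flexible: it has a colouring such that all of its translates can be reached
by uniformly many uniformly local changes. -/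
def Flexible (B : Set Γ) : Prop :=
  ∃ (κ : Γ → Γ → Γ) (n : ℕ) (E : Set Γ), E.Finite ∧ ∀ g, Reach B E n κ (rtrans κ g)

theorem EqB.refl {B : Set Γ} (κ : Γ → Γ → Γ) : EqB B κ κ := fun _ _ _ => rfl

theorem EqB.symm {B : Set Γ} {κ κ' : Γ → Γ → Γ} (h : EqB B κ κ') : EqB B κ' κ :=
  fun γ s hs => (h γ s hs).symm

theorem EqB.trans {B : Set Γ} {κ κ' κ'' : Γ → Γ → Γ} (h : EqB B κ κ') (h' : EqB B κ' κ'') :
    EqB B κ κ'' := fun γ s hs => (h γ s hs).trans (h' γ s hs)

theorem DiffRel.congr {B : Set Γ} {κ κ' η η' : Γ → Γ → Γ} (h : EqB B κ η) (h' : EqB B κ' η')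
    {γ γ' : Γ} (hd : DiffRel B κ κ' γ γ') : DiffRel B η η' γ γ' := by
  obtain ⟨s, hs, e, hne⟩ := hd
  exact ⟨s, hs, e, by rw [← h γ s hs, ← h' γ s hs]; exact hne⟩

theorem Step.congr {B E : Set Γ} {κ κ' η η' : Γ → Γ → Γ} (h : EqB B κ η) (h' : EqB B κ' η')
    (hs : Step B E κ κ') : Step B E η η' := by
  intro γ γ' hr
  exact hs γ γ' (rtg_mono (fun a b hab => hab.congr h.symm h'.symm) hr)

theorem Step.mono {B E E' : Set Γ} {κ κ' : Γ → Γ → Γ} (h : Step B E κ κ') (hE : E ⊆ E') :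
    Step B E' κ κ' := fun γ γ' hr => hE (h γ γ' hr)

theorem Step.of_eqB {B E : Set Γ} {κ κ' : Γ → Γ → Γ} (h : EqB B κ κ') (hE : 1 ∈ E) :
    Step B E κ κ' := by
  intro γ γ' hr
  have : γ = γ' := by
    induction hr with
    | refl => rfl
    | tail _ hc _ =>
      obtain ⟨s, hs, _, hne⟩ := hc
      exact absurd (h _ s hs) hne
  rw [this, mul_inv_cancel]
  exact hE

theorem LocCol.congr {B : Set Γ} (hB : ∀ s ∈ B, s⁻¹ ∈ B) {κ κ' : Γ → Γ → Γ} (h : EqB B κ κ')
    (hk : LocCol B κ) : LocCol B κ' where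
  mem γ s hs := by rw [← h γ s hs]; exact hk.mem γ s hs
  inj γ := by
    intro a ha b hb hab
    rw [← h γ a ha, ← h γ b hb] at hab
    exact hk.inj γ ha hb hab
  symm γ s hs := by
    rw [← h γ s hs, ← h _ s⁻¹ (hB s hs)]
    exact hk.symm γ s hs

theorem Reach.one_mem {B E : Set Γ} {n : ℕ} {κ κ' : Γ → Γ → Γ} (h : Reach B E n κ κ') :
    (1 : Γ) ∈ E := by
  obtain ⟨p, _, _, _, hp⟩ := h
  have := hp 0 1 1 ReflTransGen.refl
  simpa using this

theorem Reach.locCol {B E : Set Γ} (hB : ∀ s ∈ B, s⁻¹ ∈ B) {n : ℕ} {κ κ' : Γ → Γ → Γ}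
    (h : Reach B E n κ κ') : LocCol B κ := by
  obtain ⟨p, h0, _, h1, _⟩ := h
  exact (h1 0).congr hB h0

theorem Reach.locCol' {B E : Set Γ} (hB : ∀ s ∈ B, s⁻¹ ∈ B) {n : ℕ} {κ κ' : Γ → Γ → Γ}
    (h : Reach B E n κ κ') : LocCol B κ' := by
  obtain ⟨p, _, h0, h1, _⟩ := h
  exact (h1 n).congr hB (h0 n le_rfl)

theorem Reach.refl {B E : Set Γ} (hE : 1 ∈ E) {κ κ' : Γ → Γ → Γ} (h : LocCol B κ)
    (he : EqB B κ κ') : Reach B E 0 κ κ' :=
  ⟨fun _ => κ, EqB.refl κ, fun _ _ => he, fun _ => h, fun _ => Step.of_eqB (EqB.refl κ) hE⟩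

theorem Reach.mono {B E E' : Set Γ} {n n' : ℕ} {κ κ' : Γ → Γ → Γ} (h : Reach B E n κ κ')
    (hE : E ⊆ E') (hn : n ≤ n') : Reach B E' n' κ κ' := by
  obtain ⟨p, h0, h1, h2, h3⟩ := h
  exact ⟨p, h0, fun i hi => h1 i (hn.trans hi), h2, fun i => (h3 i).mono hE⟩

theorem Reach.single {B E : Set Γ} (hE : 1 ∈ E) {κ κ' : Γ → Γ → Γ} (h : LocCol B κ)
    (h' : LocCol B κ') (hs : Step B E κ κ') : Reach B E 1 κ κ' := by
  refine ⟨fun i => if i = 0 then κ else κ', ?_, ?_, ?_, ?_⟩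
  · simp [EqB.refl]
  · intro i hi
    dsimp only
    rw [if_neg (by omega)]
    exact EqB.refl _
  · intro i
    dsimp only
    split_ifs
    · exact h
    · exact h'
  · intro i
    dsimp only
    rcases Nat.eq_zero_or_pos i with hi | hi
    · rw [if_pos hi, if_neg (by omega)]
      exact hs
    · rw [if_neg (by omega), if_neg (by omega)]
      exact Step.of_eqB (EqB.refl _) hE

theorem Reach.trans {B E : Set Γ} {n m : ℕ} {κ κ' κ'' : Γ → Γ → Γ}
    (h : Reach B E n κ κ') (h' : Reach B E m κ' κ'') : Reach B E (n + m) κ κ'' := by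
  have hE := h.one_mem
  obtain ⟨p, p0, p1, p2, p3⟩ := h
  obtain ⟨q, q0, q1, q2, q3⟩ := h'
  refine ⟨fun i => if i < n then p i else q (i - n), ?_, ?_, ?_, ?_⟩
  · by_cases hn : 0 < n
    · simp only [if_pos hn]
      exact p0
    · have : n = 0 := by omega
      subst this
      simp only [lt_self_iff_false, if_false, Nat.sub_zero]
      exact (q0.trans (p1 0 le_rfl).symm).trans p0
  · intro i hi
    dsimp only
    rw [if_neg (by omega)]
    exact q1 _ (by omega)
  · intro i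
    dsimp only
    split_ifs
    · exact p2 i
    · exact q2 _
  · intro i
    dsimp only
    by_cases h1 : i + 1 < n
    · rw [if_pos (by omega), if_pos h1]
      exact p3 i
    · by_cases h2 : i < n
      · have : n = i + 1 := by omega
        rw [if_pos h2, if_neg h1]
        have h3 : i + 1 - n = 0 := by omega
        rw [h3]
        exact (p3 i).congr (EqB.refl _) ((p1 (i+1) (by omega)).trans q0.symm)
      · rw [if_neg h2, if_neg h1]
        have h3 : i + 1 - n = (i - n) + 1 := by omega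
        rw [h3]
        exact q3 _

theorem Reach.congr_right {B E : Set Γ} (hB : ∀ s ∈ B, s⁻¹ ∈ B) {n : ℕ} {κ κ' κ'' : Γ → Γ → Γ}
    (h : Reach B E n κ κ') (he : EqB B κ' κ'') : Reach B E n κ κ'' := by
  have := h.trans (Reach.refl h.one_mem (h.locCol' hB) he)
  simpa using this

theorem Reach.congr_left {B E : Set Γ} {n : ℕ} {κ κ' κ'' : Γ → Γ → Γ}
    (h : Reach B E n κ κ') (he : EqB B κ κ'') : Reach B E n κ'' κ' := by
  obtain ⟨p, h0, h1, h2, h3⟩ := h
  exact ⟨p, h0.trans he, h1, h2, h3⟩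

/-- A Borel colouring of the edges in the directions of `B` by elements of `B`. -/
def BorelBlock (B : Set Γ) (X : Type v) [MeasurableSpace X] [MulAction Γ X] : Prop :=
  ∃ c : X → Γ → Γ, (∀ s γ, MeasurableSet {x | c x s = γ}) ∧ (∀ x, ∀ s ∈ B, c x s ∈ B) ∧
    (∀ x, InjOn (c x) B) ∧ ∀ x, ∀ s ∈ B, c (s • x) s⁻¹ = c x s

section Glue

variable {X : Type v} [MulAction Γ X]

/-- The point `x` is not carried into `U` by the elements of `T ^ r`. -/
def Far (T : Set Γ) (U : Set X) (r : ℕ) (x : X) : Prop := ∀ m ∈ T ^ r, m • x ∉ U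

theorem mem_pow_mono {T : Set Γ} (h1 : (1 : Γ) ∈ T) {a b : ℕ} (h : a ≤ b) {m : Γ}
    (hm : m ∈ T ^ a) : m ∈ T ^ b := Set.pow_subset_pow_right h1 h hm

theorem one_mem_pow {T : Set Γ} (h1 : (1 : Γ) ∈ T) (a : ℕ) : (1 : Γ) ∈ T ^ a :=
  mem_pow_mono h1 (Nat.zero_le a) (by simp)

theorem mul_mem_pow {T : Set Γ} {a b : ℕ} {m m' : Γ} (hm : m ∈ T ^ a) (hm' : m' ∈ T ^ b) :
    m * m' ∈ T ^ (a + b) := by
  rw [pow_add]
  exact Set.mul_mem_mul hm hm'

theorem inv_mem_pow {T : Set Γ} (hT : ∀ m ∈ T, m⁻¹ ∈ T) {a : ℕ} {m : Γ} (hm : m ∈ T ^ a) :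
    m⁻¹ ∈ T ^ a := by
  induction a generalizing m with
  | zero => simp at hm; simp [hm]
  | succ k ih =>
    rw [pow_succ] at hm
    obtain ⟨y, hy, z, hz, rfl⟩ := hm
    rw [mul_inv_rev, pow_succ']
    exact Set.mul_mem_mul (hT z hz) (ih hy)

theorem Far.mono {T : Set Γ} (h1 : (1 : Γ) ∈ T) {U : Set X} {a b : ℕ} (h : a ≤ b) {x : X}
    (hx : Far T U b x) : Far T U a x := fun m hm => hx m (mem_pow_mono h1 h hm)

theorem Far.smul {T : Set Γ} {U : Set X} {a b : ℕ} {x : X} (hx : Far T U (a + b) x) {m : Γ}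
    (hm : m ∈ T ^ b) : Far T U a (m • x) := by
  intro m' hm' h
  rw [← mul_smul] at h
  exact hx _ (mul_mem_pow hm' hm) h

/-- The condition that the `i`-th local change is carried out at `x`. -/
def Act (B T : Set Γ) (U : Set X) (D : ℕ) (p : Γ → ℕ → Γ → Γ → Γ) (g γ : Γ) (i : ℕ) (x : X) :
    Prop :=
  ∀ γ', ReflTransGen (DiffRel B (p g i) (p g (i + 1))) γ γ' →
    Far T U ((i + 1) * (D + 1)) ((γ' * γ⁻¹) • x)

open Classical in
/-- The level of `x`: the number of local changes carried out at `x`. -/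
noncomputable def lev (B T : Set Γ) (U : Set X) (D n : ℕ) (p : Γ → ℕ → Γ → Γ → Γ) (g γ : Γ)
    (x : X) : ℕ :=
  Nat.findGreatest (fun k => ∀ i < k, Act B T U D p g γ i x) n

theorem lev_spec (B T : Set Γ) (U : Set X) (D n : ℕ) (p : Γ → ℕ → Γ → Γ → Γ) (g γ : Γ)
    (x : X) : ∀ i < lev B T U D n p g γ x, Act B T U D p g γ i x := by
  classical
  unfold lev
  exact Nat.findGreatest_spec (P := fun k => ∀ i < k, Act B T U D p g γ i x) (Nat.zero_le n)
    (fun i hi => absurd hi (Nat.not_lt_zero i))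

theorem lev_le (B T : Set Γ) (U : Set X) (D n : ℕ) (p : Γ → ℕ → Γ → Γ → Γ) (g γ : Γ)
    (x : X) : lev B T U D n p g γ x ≤ n := by
  classical
  unfold lev
  exact Nat.findGreatest_le n

theorem le_lev {B T : Set Γ} {U : Set X} {D n : ℕ} {p : Γ → ℕ → Γ → Γ → Γ} {g γ : Γ}
    {x : X} {k : ℕ} (hk : k ≤ n) (h : ∀ i < k, Act B T U D p g γ i x) :
    k ≤ lev B T U D n p g γ x := by
  classical
  unfold lev
  exact Nat.le_findGreatest hk h

theorem not_act_lev {B T : Set Γ} {U : Set X} {D n : ℕ} {p : Γ → ℕ → Γ → Γ → Γ} {g γ : Γ}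
    {x : X} (h : lev B T U D n p g γ x < n) :
    ¬ Act B T U D p g γ (lev B T U D n p g γ x) x := by
  intro ha
  have : lev B T U D n p g γ x + 1 ≤ lev B T U D n p g γ x := by
    refine le_lev h fun i hi => ?_
    rcases Nat.lt_succ_iff_lt_or_eq.mp hi with h' | h'
    · exact lev_spec _ _ _ _ _ _ _ _ _ i h'
    · rw [h']; exact ha
  omega

/-- The levels are compatible with the colourings along edges, one half. -/
theorem lev_edge_lt {B T : Set Γ} {U : Set X} {D n : ℕ} {p : Γ → ℕ → Γ → Γ → Γ} {g γ : Γ}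
    {x : X} {s : Γ} (h1 : (1 : Γ) ∈ T) (hB : ∀ s ∈ B, s⁻¹ ∈ B) (hBT : B ⊆ T)
    (hloc : ∀ i, LocCol B (p g i)) (hstep : ∀ i, Step B (T ^ D) (p g i) (p g (i + 1)))
    (hs : s ∈ B)
    (hlt : lev B T U D n p g γ x < lev B T U D n p g (s * γ) (s • x)) :
    p g (lev B T U D n p g γ x) γ s = p g (lev B T U D n p g (s * γ) (s • x)) γ s := by
  set i := lev B T U D n p g γ x with hi
  set j := lev B T U D n p g (s * γ) (s • x) with hj
  have hjn : j ≤ n := lev_le _ _ _ _ _ _ _ _ _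
  have hact : ∀ k < j, Act B T U D p g (s * γ) k (s • x) := lev_spec _ _ _ _ _ _ _ _ _
  have hsinv : s⁻¹ ∈ T := hBT (hB s hs)
  -- the first claim
  have hij : j ≤ i + 1 := by
    have : j - 1 ≤ i := by
      rw [hi]
      refine le_lev (by omega) fun k hk γ' hγ' => ?_
      have ha := hact (k + 1) (by omega) (s * γ) ReflTransGen.refl
      rw [mul_inv_cancel, one_smul] at ha
      have he : γ' * γ⁻¹ ∈ T ^ D := hstep k γ γ' hγ'
      have hm : (γ' * γ⁻¹) * s⁻¹ ∈ T ^ (D + 1) :=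
        mul_mem_pow he (by simpa using hsinv)
      have ha' : Far T U ((k + 1) * (D + 1) + (D + 1)) (s • x) :=
        ha.mono h1 (le_of_eq (by ring))
      have := ha'.smul hm
      rwa [mul_smul, inv_smul_smul] at this
    omega
  have hji : j = i + 1 := by omega
  by_contra hne
  rw [hji] at hne
  have hna : ¬ Act B T U D p g γ i x := not_act_lev (by omega)
  apply hna
  intro γ' hγ'
  have hd : DiffRel B (p g i) (p g (i + 1)) (s * γ) γ := by
    refine ⟨s⁻¹, hB s hs, by simp, ?_⟩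
    rw [(hloc i).symm γ s hs, (hloc (i+1)).symm γ s hs]
    exact hne
  have := hact i (by omega) γ' (ReflTransGen.head hd hγ')
  rw [mul_inv_rev, ← mul_assoc, mul_smul, inv_smul_smul] at this
  exact this

/-- The levels are compatible with the colourings along edges. -/
theorem lev_edge {B T : Set Γ} {U : Set X} {D n : ℕ} {p : Γ → ℕ → Γ → Γ → Γ} {g γ : Γ}
    {x : X} {s : Γ} (h1 : (1 : Γ) ∈ T) (hB : ∀ s ∈ B, s⁻¹ ∈ B) (hBT : B ⊆ T)
    (hloc : ∀ i, LocCol B (p g i)) (hstep : ∀ i, Step B (T ^ D) (p g i) (p g (i + 1)))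
    (hs : s ∈ B) :
    p g (lev B T U D n p g γ x) γ s = p g (lev B T U D n p g (s * γ) (s • x)) γ s := by
  rcases lt_trichotomy (lev B T U D n p g γ x) (lev B T U D n p g (s * γ) (s • x)) with h | h | h
  · exact lev_edge_lt h1 hB hBT hloc hstep hs h
  · rw [h]
  · have hx : s⁻¹ • s • x = x := inv_smul_smul s x
    have hγ : s⁻¹ * (s * γ) = γ := inv_mul_cancel_left s γ
    have h' : lev B T U D n p g (s * γ) (s • x)
        < lev B T U D n p g (s⁻¹ * (s * γ)) (s⁻¹ • s • x) := by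
      rwa [hx, hγ]
    have := lev_edge_lt h1 hB hBT hloc hstep (hB s hs) h'
    rw [hx, hγ] at this
    rw [(hloc _).symm γ s hs, (hloc _).symm γ s hs] at this
    exact this.symm

end Glue

end Run7.h916
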