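import Pool.Agent.Run7.h916.Interp

set_option autoImplicit false
set_option linter.unusedSectionVars false
set_option linter.unusedVariables false

/-!
Polynomial growth of finite subsets of nilpotent groups.
-/

namespace Run7.h916

open Set
open scoped Pointwise commutatorElement

universe u v w

variable {K : Type u} [Group K]

/-- Polynomial growth of a set. -/
def PG (Y : Set K) : Prop := ∃ C d : ℕ, ∀ n, (Y ^ n).ncard ≤ C * (n + 1) ^ d

/-- Iterated commutators. -/
def icom (a y : K) : ℕ → K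
  | 0 => y
  | k + 1 => (icom a y k)⁻¹ * (a⁻¹ * icom a y k * a)

theorem conj_icom (a y : K) (k : ℕ) : a⁻¹ * icom a y k * a = icom a y k * icom a y (k + 1) := by
  rw [icom]; group

theorem icom_mem (a y : K) {i : ℕ} (hy : y ∈ (⊤ : Subgroup K).lowerCentralSeries i) (k : ℕ) :
    icom a y k ∈ (⊤ : Subgroup K).lowerCentralSeries (i + k) := by
  induction k with
  | zero => simpa [icom] using hy
  | succ k ih =>
    have : icom a y (k + 1) = ⁅(icom a y k)⁻¹, a⁻¹⁆ := by
      rw [icom, commutatorElement_def]; group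
    rw [this, ← add_assoc]
    exact Subgroup.commutator_mem_commutator (inv_mem ih) (Subgroup.mem_top _)

theorem pow_mono_set {Y : Set K} (h1 : (1 : K) ∈ Y) {a b : ℕ} (h : a ≤ b) : Y ^ a ⊆ Y ^ b :=
  Set.pow_subset_pow_right h1 h

theorem finite_pow_set {Y : Set K} (h : Y.Finite) (n : ℕ) : (Y ^ n).Finite := by
  induction n with
  | zero => simp
  | succ n ih => rw [pow_succ]; exact ih.mul h

theorem conj_mem_pow {a y : K} {Y : Set K} (h1 : (1 : K) ∈ Y) (hY : ∀ k, icom a y k ∈ Y) {c : ℕ}
    (hc : ∀ k, c ≤ k → icom a y k = 1) (j : ℕ) : ∀ k, c ≤ k + j → ∀ m : ℕ,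
      (a⁻¹) ^ m * icom a y k * a ^ m ∈ Y ^ ((m + 1) ^ j) := by
  induction j with
  | zero =>
    intro k hk m
    rw [hc k (by omega)]
    simpa using h1
  | succ j ih =>
    intro k hk m
    induction m with
    | zero => simpa using hY k
    | succ m ihm =>
      have e : (a⁻¹) ^ (m + 1) * icom a y k * a ^ (m + 1) =
          ((a⁻¹) ^ m * icom a y k * a ^ m) * ((a⁻¹) ^ m * icom a y (k + 1) * a ^ m) := by
        have h2 : (a⁻¹) ^ (m + 1) * icom a y k * a ^ (m + 1) =
            (a⁻¹) ^ m * (a⁻¹ * icom a y k * a) * a ^ m := by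
          rw [pow_succ, pow_succ']
          simp only [mul_assoc]
        rw [h2, conj_icom]
        simp only [inv_pow]
        group
      rw [e]
      have h3 := ih (k + 1) (by omega) m
      have h4 := Set.mul_mem_mul ihm h3
      rw [← pow_add] at h4
      refine pow_mono_set h1 ?_ h4
      have h5 : (m + 1) ^ j ≤ (m + 2) ^ j := Nat.pow_le_pow_left (by omega) j
      have h6 : (m + 1 + 1) ^ (j + 1) = (m + 2) ^ j * (m + 2) := by rw [pow_succ]
      have h7 : (m + 1) ^ (j + 1) = (m + 1) ^ j * (m + 1) := by rw [pow_succ]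
      rw [h6, h7]
      nlinarith

theorem pg_step {c : ℕ} (hc : (⊤ : Subgroup K).lowerCentralSeries c = ⊥) (i : ℕ)
    (hi : ∀ Y : Set K, Y.Finite → (1 : K) ∈ Y →
      (∀ y ∈ Y, y ∈ (⊤ : Subgroup K).lowerCentralSeries (i + 1)) → PG Y) (m : ℕ) :
    ∀ Y : Set K, Y.Finite → (1 : K) ∈ Y →
      (∀ y ∈ Y, y ∈ (⊤ : Subgroup K).lowerCentralSeries i) →
      (Y \ ((⊤ : Subgroup K).lowerCentralSeries (i + 1) : Set K)).ncard ≤ m → PG Y := by
  induction m with
  | zero =>
    intro Y hfin h1 hY hcard
    refine hi Y hfin h1 fun y hy => ?_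
    by_contra hne
    have h2 : y ∈ Y \ ((⊤ : Subgroup K).lowerCentralSeries (i + 1) : Set K) := ⟨hy, hne⟩
    have h3 : (Y \ ((⊤ : Subgroup K).lowerCentralSeries (i + 1) : Set K)).Finite := hfin.sdiff
    have := (Set.ncard_pos h3).mpr ⟨y, h2⟩
    omega
  | succ m ih =>
    intro Y hfin h1 hY hcard
    by_cases hall : ∀ y ∈ Y, y ∈ (⊤ : Subgroup K).lowerCentralSeries (i + 1)
    · exact hi Y hfin h1 hall
    push Not at hall
    obtain ⟨a, haY, ha⟩ := hall
    have hane : (1 : K) ≠ a := by
      rintro rfl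
      exact ha (one_mem _)
    have hic : ∀ y, ∀ k, c ≤ k → icom a y k = 1 := by
      intro y k hk
      have h2 := icom_mem a y (i := 0) (by simp) k
      have h3 : (⊤ : Subgroup K).lowerCentralSeries (0 + k) ≤
          (⊤ : Subgroup K).lowerCentralSeries c :=
        Subgroup.lowerCentralSeries_antitone _ (by omega)
      have := h3 h2
      rw [hc] at this
      simpa using this
    let Y' : Set K := (Y \ {a}) ∪ ⋃ y ∈ Y, ⋃ k ∈ Finset.range c, {icom a y (k + 1)}
    have hY'fin : Y'.Finite := by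
      refine (hfin.sdiff).union ?_
      refine hfin.biUnion fun y _ => ?_
      exact (Finset.finite_toSet _).biUnion fun k _ => Set.finite_singleton _
    have h1' : (1 : K) ∈ Y' := Or.inl ⟨h1, hane⟩
    have hic' : ∀ y ∈ Y, y ≠ a → ∀ k, icom a y k ∈ Y' := by
      intro y hy hya k
      cases k with
      | zero => exact Or.inl ⟨hy, hya⟩
      | succ k =>
        by_cases hk : k < c
        · right
          simp only [mem_iUnion]
          exact ⟨y, hy, k, Finset.mem_range.mpr hk, rfl⟩
        · rw [hic y (k + 1) (by omega)]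
          exact h1'
    have hY'i : ∀ y ∈ Y', y ∈ (⊤ : Subgroup K).lowerCentralSeries i := by
      rintro y (hy | hy)
      · exact hY y hy.1
      · simp only [mem_iUnion] at hy
        obtain ⟨y', hy', k, _, rfl⟩ := hy
        exact Subgroup.lowerCentralSeries_antitone _ (by omega) (icom_mem a y' (hY y' hy') (k + 1))
    have hsub : Y' \ ((⊤ : Subgroup K).lowerCentralSeries (i + 1) : Set K) ⊆
        (Y \ ((⊤ : Subgroup K).lowerCentralSeries (i + 1) : Set K)) \ {a} := by
      rintro y ⟨hy | hy, hy2⟩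
      · exact ⟨⟨hy.1, hy2⟩, hy.2⟩
      · exfalso
        simp only [mem_iUnion] at hy
        obtain ⟨y', hy', k, _, rfl⟩ := hy
        exact hy2 (Subgroup.lowerCentralSeries_antitone _ (by omega)
          (icom_mem a y' (hY y' hy') (k + 1)))
    have hcard' : (Y' \ ((⊤ : Subgroup K).lowerCentralSeries (i + 1) : Set K)).ncard ≤ m := by
      have h2 := Set.ncard_le_ncard hsub ((hfin.sdiff).sdiff)
      have h3 : a ∈ Y \ ((⊤ : Subgroup K).lowerCentralSeries (i + 1) : Set K) := ⟨haY, ha⟩
      have h4 := Set.ncard_sdiff_singleton_add_one h3 (hfin.sdiff)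
      omega
    obtain ⟨C, d, hCd⟩ := ih Y' hY'fin h1' hY'i hcard'
    have hword : ∀ n0 n : ℕ, n ≤ n0 → ∀ x ∈ Y ^ n, ∃ k, k ≤ n ∧
        ∃ z ∈ Y' ^ (n * (n0 + 1) ^ c), x = a ^ k * z := by
      intro n0 n
      induction n with
      | zero =>
        intro _ x hx
        refine ⟨0, le_rfl, 1, ?_, ?_⟩
        · simp
        · simpa using hx
      | succ n ihn =>
        intro hn x hx
        rw [pow_succ'] at hx
        obtain ⟨y, hy, x', hx', rfl⟩ := hx
        obtain ⟨k, hk, z, hz, rfl⟩ := ihn (by omega) x' hx'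
        simp only
        by_cases hya : y = a
        · refine ⟨k + 1, by omega, z, ?_, ?_⟩
          · refine pow_mono_set h1' ?_ hz
            exact Nat.mul_le_mul_right _ (by omega)
          · rw [hya, pow_succ', mul_assoc]
        · have h2 := conj_mem_pow h1' (hic' y hy hya) (hic y) c 0 (by omega) k
          have h3 : (a⁻¹) ^ k * icom a y 0 * a ^ k ∈ Y' ^ ((n0 + 1) ^ c) :=
            pow_mono_set h1' (Nat.pow_le_pow_left (by omega) c) h2
          refine ⟨k, by omega, ((a⁻¹) ^ k * icom a y 0 * a ^ k) * z, ?_, ?_⟩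
          · have h4 := Set.mul_mem_mul h3 hz
            rw [← pow_add] at h4
            refine pow_mono_set h1' (le_of_eq ?_) h4
            ring
          · simp only [icom, inv_pow]
            group
    refine ⟨C, 1 + (c + 1) * d, fun n => ?_⟩
    have hsub2 : Y ^ n ⊆ (fun p : ℕ × K => a ^ p.1 * p.2) '' ((Set.Iic n) ×ˢ
        (Y' ^ (n * (n + 1) ^ c))) := by
      intro x hx
      obtain ⟨k, hk, z, hz, rfl⟩ := hword n n le_rfl x hx
      exact ⟨(k, z), ⟨hk, hz⟩, rfl⟩
    have hfinp : (Y' ^ (n * (n + 1) ^ c)).Finite := finite_pow_set hY'fin _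
    have hfinprod : ((Set.Iic n) ×ˢ (Y' ^ (n * (n + 1) ^ c))).Finite :=
      (Set.finite_Iic n).prod hfinp
    have h2 := Set.ncard_le_ncard hsub2 (hfinprod.image _)
    have h3 := Set.ncard_image_le (f := fun p : ℕ × K => a ^ p.1 * p.2) hfinprod
    rw [Set.ncard_prod] at h3
    have h4 : (Set.Iic n).ncard = n + 1 := by
      rw [Set.ncard_eq_toFinset_card']
      simp
    rw [h4] at h3
    have h5 := hCd (n * (n + 1) ^ c)
    have h6 : n * (n + 1) ^ c + 1 ≤ (n + 1) ^ (c + 1) := by
      rw [pow_succ]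
      have : 1 ≤ (n + 1) ^ c := Nat.one_le_pow _ _ (by omega)
      nlinarith
    have h7 : (n * (n + 1) ^ c + 1) ^ d ≤ ((n + 1) ^ (c + 1)) ^ d := Nat.pow_le_pow_left h6 d
    calc (Y ^ n).ncard ≤ (n + 1) * (Y' ^ (n * (n + 1) ^ c)).ncard := h2.trans h3
      _ ≤ (n + 1) * (C * ((n + 1) ^ (c + 1)) ^ d) :=
        Nat.mul_le_mul_left _ (h5.trans (Nat.mul_le_mul_left _ h7))
      _ = C * (n + 1) ^ (1 + (c + 1) * d) := by
        rw [← pow_mul, pow_add, pow_one]; ring

theorem pg_of_nilpotent [Group.IsNilpotent K] {Y : Set K} (hfin : Y.Finite) (h1 : (1 : K) ∈ Y) :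
    PG Y := by
  obtain ⟨c, hc⟩ := Subgroup.nilpotent_iff_lowerCentralSeries.mp (inferInstance :
    Group.IsNilpotent K)
  have key : ∀ j i, i + j = c → ∀ Y : Set K, Y.Finite → (1 : K) ∈ Y →
      (∀ y ∈ Y, y ∈ (⊤ : Subgroup K).lowerCentralSeries i) → PG Y := by
    intro j
    induction j with
    | zero =>
      intro i hi Y hfin h1 hY
      refine ⟨1, 0, fun n => ?_⟩
      have : Y ⊆ {1} := by
        intro y hy
        have := hY y hy
        rw [show i = c by omega, hc] at this
        simpa using this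
      have h2 : Y ^ n ⊆ {1} := by
        refine (Set.pow_subset_pow_left this).trans ?_
        simp
      have := Set.ncard_le_ncard h2 (Set.finite_singleton _)
      simpa using this
    | succ j ih =>
      intro i hi Y hfin h1 hY
      exact pg_step hc i (ih (i + 1) (by omega)) _ Y hfin h1 hY le_rfl
  exact key c 0 (by omega) Y hfin h1 (fun y _ => by simp)

theorem polyGrowth_of_nilpotent [Group.IsNilpotent K] (g : Bool → K) : PolyGrowth g := by
  let Y : Set K := insert 1 (Set.range (lval g))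
  have hfin : Y.Finite := (Set.finite_range _).insert _
  obtain ⟨C, d, hCd⟩ := pg_of_nilpotent hfin (Set.mem_insert _ _)
  refine ⟨C, d, fun n => (Set.ncard_le_ncard ?_ (finite_pow_set hfin n)).trans (hCd n)⟩
  rintro _ ⟨w, hw, rfl⟩
  have : ∀ w : List Lt, wval g w ∈ Y ^ w.length := by
    intro w
    induction w with
    | nil => simp
    | cons l w ih =>
      rw [wval_cons, List.length_cons, pow_succ]
      exact Set.mul_mem_mul ih (Set.mem_insert_of_mem _ (Set.mem_range_self _))
  rw [smul_eq_mul, mul_one]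
  exact pow_mono_set (Set.mem_insert _ _) hw (this w)

end Run7.h916
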