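import Mathlib

set_option autoImplicit false
set_option linter.unusedSectionVars false
set_option linter.unusedVariables false

/-!
Rounding of fractional degree constrained subgraphs of finite bipartite multigraphs.
-/

namespace Run7.h916

open Finset

universe u v w

/-- Rounding in a finite bipartite multigraph. -/
theorem hall_round {ι : Type u} {A : Type v} {B : Type w} [Fintype ι] [DecidableEq ι]
    [DecidableEq A] [DecidableEq B] (s : ι → A) (t : ι → B) (f : ι → ℝ) (h0 : ∀ e, 0 ≤ f e)
    (h1 : ∀ e, f e ≤ 1) (n : A → ℕ) (m : B → ℕ)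
    (hn : ∀ x, ∑ e with s e = x, f e = n x) (hm : ∀ y, ∑ e with t e = y, f e = m y) :
    ∃ F : Finset ι, (∀ x, (F.filter (fun e => s e = x)).card = n x) ∧
      ∀ y, (F.filter (fun e => t e = y)).card = m y := by
  classical
  let dg : B → ℕ := fun y => (univ.filter (fun e => t e = y)).card
  have hmd : ∀ y, m y ≤ dg y := by
    intro y
    have h2 : ∑ e with t e = y, f e ≤ ∑ e with t e = y, (1 : ℝ) := sum_le_sum fun e _ => h1 e
    rw [hm] at h2
    simp only [sum_const, nsmul_eq_mul, mul_one] at h2
    exact_mod_cast h2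
  let T : ι → Finset ((A × ℕ) ⊕ (B × ℕ)) := fun e =>
    (({s e} ×ˢ range (n (s e))).map ⟨Sum.inl, Sum.inl_injective⟩) ∪
    (({t e} ×ˢ range (dg (t e) - m (t e))).map ⟨Sum.inr, Sum.inr_injective⟩)
  have hTl : ∀ e (x : A) (k : ℕ), Sum.inl (x, k) ∈ T e ↔ x = s e ∧ k < n (s e) := by
    intro e x k
    simp only [T, mem_union, mem_map, mem_product, mem_singleton, mem_range,
      Function.Embedding.coeFn_mk, Sum.inl.injEq, exists_eq_right, reduceCtorEq, and_false,
      exists_false, or_false]
  have hTr : ∀ e (y : B) (k : ℕ), Sum.inr (y, k) ∈ T e ↔ y = t e ∧ k < dg (t e) - m (t e) := by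
    intro e y k
    simp only [T, mem_union, mem_map, mem_product, mem_singleton, mem_range,
      Function.Embedding.coeFn_mk, Sum.inr.injEq, exists_eq_right, reduceCtorEq, and_false,
      exists_false, false_or]
  have hhall : ∀ S : Finset ι, S.card ≤ (S.biUnion T).card := by
    intro S
    -- the slots
    have hsub : ((S.image s).sigma (fun x => range (n x))).card +
        ((S.image t).sigma (fun y => range (dg y - m y))).card ≤ (S.biUnion T).card := by
      let φ : (Σ _ : A, ℕ) ⊕ (Σ _ : B, ℕ) → (A × ℕ) ⊕ (B × ℕ) :=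
        Sum.map (fun p => (p.1, p.2)) (fun p => (p.1, p.2))
      have hφ : Function.Injective φ := by
        apply Function.Injective.sumMap
        · rintro ⟨a, b⟩ ⟨c, d⟩ h
          simp only [Prod.mk.injEq] at h
          obtain ⟨rfl, rfl⟩ := h
          rfl
        · rintro ⟨a, b⟩ ⟨c, d⟩ h
          simp only [Prod.mk.injEq] at h
          obtain ⟨rfl, rfl⟩ := h
          rfl
      rw [← card_disjSum, ← card_image_of_injective _ hφ]
      apply card_le_card
      intro z hz
      rw [mem_image] at hz
      obtain ⟨p, hp, rfl⟩ := hz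
      rw [mem_biUnion]
      rcases p with ⟨a, k⟩ | ⟨b, k⟩
      · rw [inl_mem_disjSum, mem_sigma, mem_image] at hp
        obtain ⟨⟨e, he, hea⟩, hk⟩ := hp
        simp only at hea
        refine ⟨e, he, ?_⟩
        simp only [φ, Sum.map_inl]
        rw [hTl]
        exact ⟨hea.symm, by rw [hea]; simpa using hk⟩
      · rw [inr_mem_disjSum, mem_sigma, mem_image] at hp
        obtain ⟨⟨e, he, hea⟩, hk⟩ := hp
        simp only at hea
        refine ⟨e, he, ?_⟩
        simp only [φ, Sum.map_inr]
        rw [hTr]
        exact ⟨hea.symm, by rw [hea]; simpa using hk⟩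
    refine le_trans ?_ hsub
    rw [card_sigma, card_sigma]
    simp only [card_range]
    have hR : (S.card : ℝ) ≤ ((∑ x ∈ S.image s, n x : ℕ) : ℝ) +
        ((∑ y ∈ S.image t, (dg y - m y) : ℕ) : ℝ) := by
      push_cast
      have e1 : (S.card : ℝ) = ∑ e ∈ S, f e + ∑ e ∈ S, (1 - f e) := by
        rw [← sum_add_distrib]
        simp
      have e2 : ∑ e ∈ S, f e ≤ ∑ x ∈ S.image s, (n x : ℝ) := by
        rw [← sum_fiberwise_of_maps_to (s := S) (t := S.image s) (g := s)
          (fun e he => mem_image_of_mem s he)]
        refine sum_le_sum fun x _ => ?_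
        rw [← hn x]
        refine sum_le_sum_of_subset_of_nonneg ?_ fun e _ _ => h0 e
        intro e he
        rw [mem_filter] at he ⊢
        exact ⟨mem_univ _, he.2⟩
      have e3 : ∑ e ∈ S, (1 - f e) ≤ ∑ y ∈ S.image t, ((dg y - m y : ℕ) : ℝ) := by
        rw [← sum_fiberwise_of_maps_to (s := S) (t := S.image t) (g := t)
          (fun e he => mem_image_of_mem t he)]
        refine sum_le_sum fun y _ => ?_
        have e4 : ((dg y - m y : ℕ) : ℝ) = ∑ e with t e = y, (1 - f e) := by
          rw [sum_sub_distrib, hm, Nat.cast_sub (hmd y)]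
          simp [dg]
        rw [e4]
        refine sum_le_sum_of_subset_of_nonneg ?_ fun e _ _ => by have := h1 e; linarith
        intro e he
        rw [mem_filter] at he ⊢
        exact ⟨mem_univ _, he.2⟩
      linarith
    exact_mod_cast hR
  obtain ⟨φ, hφi, hφT⟩ := (all_card_le_biUnion_card_iff_exists_injective T).mp hhall
  let F : Finset ι := univ.filter (fun e => (φ e).isLeft = true)
  have hF : ∀ e, e ∈ F ↔ ∃ k, φ e = Sum.inl (s e, k) ∧ k < n (s e) := by
    intro e
    simp only [F, mem_filter, mem_univ, true_and]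
    have h2 := hφT e
    rcases h : φ e with ⟨x, k⟩ | ⟨y, k⟩
    · rw [h, hTl] at h2
      simp only [Sum.isLeft_inl, Sum.inl.injEq, Prod.mk.injEq, true_iff]
      exact ⟨k, ⟨h2.1, rfl⟩, h2.2⟩
    · simp
  have hF' : ∀ e, e ∉ F → ∃ k, φ e = Sum.inr (t e, k) ∧ k < dg (t e) - m (t e) := by
    intro e he
    simp only [F, mem_filter, mem_univ, true_and] at he
    have h2 := hφT e
    rcases h : φ e with ⟨x, k⟩ | ⟨y, k⟩
    · rw [h] at he; simp at he
    · rw [h, hTr] at h2
      simp only [Sum.inr.injEq, Prod.mk.injEq]
      exact ⟨k, ⟨h2.1, rfl⟩, h2.2⟩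
  have hup : ∀ x, (F.filter (fun e => s e = x)).card ≤ n x := by
    intro x
    rw [← card_range (n x)]
    refine card_le_card_of_injOn (fun e => match φ e with
      | Sum.inl p => p.2
      | Sum.inr p => p.2) ?_ ?_
    · intro e he
      simp only [coe_filter, Set.mem_ofPred_eq] at he
      obtain ⟨k, hk, hk2⟩ := (hF e).mp he.1
      simp only [hk, coe_range, Set.mem_Iio]
      rw [← he.2]
      exact hk2
    · intro e he e' he' hee
      simp only [coe_filter, Set.mem_ofPred_eq] at he he'
      obtain ⟨k, hk, _⟩ := (hF e).mp he.1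
      obtain ⟨k', hk', _⟩ := (hF e').mp he'.1
      simp only [hk, hk'] at hee
      apply hφi
      rw [hk, hk', he.2, he'.2, hee]
  have hlow : ∀ y, m y ≤ (F.filter (fun e => t e = y)).card := by
    intro y
    have h2 : ((univ.filter (fun e => t e = y)) \ F).card ≤ dg y - m y := by
      rw [← card_range (dg y - m y)]
      refine card_le_card_of_injOn (fun e => match φ e with
        | Sum.inl p => p.2
        | Sum.inr p => p.2) ?_ ?_
      · intro e he
        rw [mem_coe, mem_sdiff, mem_filter] at he
        obtain ⟨k, hk, hk2⟩ := hF' e he.2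
        simp only [hk, coe_range, Set.mem_Iio]
        rw [← he.1.2]
        exact hk2
      · intro e he e' he' hee
        rw [mem_coe, mem_sdiff, mem_filter] at he he'
        obtain ⟨k, hk, _⟩ := hF' e he.2
        obtain ⟨k', hk', _⟩ := hF' e' he'.2
        simp only [hk, hk'] at hee
        apply hφi
        rw [hk, hk', he.1.2, he'.1.2, hee]
    have h3 : dg y = ((univ.filter (fun e => t e = y)) \ F).card +
        (F.filter (fun e => t e = y)).card := by
      have : F.filter (fun e => t e = y) = (univ.filter (fun e => t e = y)) ∩ F := by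
        ext e
        simp only [mem_filter, mem_inter, mem_univ, true_and]
        tauto
      rw [this, card_sdiff_add_card_inter]
    have := hmd y
    omega
  have htot : ∑ x ∈ univ.image s, n x = ∑ y ∈ univ.image t, m y := by
    have e1 : ((∑ x ∈ univ.image s, n x : ℕ) : ℝ) = ∑ e, f e := by
      push_cast
      rw [← sum_fiberwise_of_maps_to (s := univ) (t := univ.image s) (g := s)
          (fun e he => mem_image_of_mem s he)]
      exact sum_congr rfl fun x _ => (hn x).symm
    have e2 : ((∑ y ∈ univ.image t, m y : ℕ) : ℝ) = ∑ e, f e := by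
      push_cast
      rw [← sum_fiberwise_of_maps_to (s := univ) (t := univ.image t) (g := t)
          (fun e he => mem_image_of_mem t he)]
      exact sum_congr rfl fun y _ => (hm y).symm
    exact_mod_cast e1.trans e2.symm
  have hc1 : F.card = ∑ x ∈ univ.image s, (F.filter (fun e => s e = x)).card :=
    card_eq_sum_card_fiberwise fun e _ => mem_image_of_mem s (mem_univ e)
  have hc2 : F.card = ∑ y ∈ univ.image t, (F.filter (fun e => t e = y)).card :=
    card_eq_sum_card_fiberwise fun e _ => mem_image_of_mem t (mem_univ e)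
  have hle1 : ∑ x ∈ univ.image s, (F.filter (fun e => s e = x)).card ≤
      ∑ x ∈ univ.image s, n x := sum_le_sum fun x _ => hup x
  have hle2 : ∑ y ∈ univ.image t, m y ≤
      ∑ y ∈ univ.image t, (F.filter (fun e => t e = y)).card := sum_le_sum fun y _ => hlow y
  have heq1 : ∑ x ∈ univ.image s, (F.filter (fun e => s e = x)).card =
      ∑ x ∈ univ.image s, n x := by omega
  have heq2 : ∑ y ∈ univ.image t, m y =
      ∑ y ∈ univ.image t, (F.filter (fun e => t e = y)).card := by omega
  have hx := (sum_eq_sum_iff_of_le fun x _ => hup x).mp heq1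
  have hy := (sum_eq_sum_iff_of_le fun y _ => hlow y).mp heq2
  refine ⟨F, fun x => ?_, fun y => ?_⟩
  · by_cases h : x ∈ univ.image s
    · exact hx x h
    · have h2 : ∀ e, s e ≠ x := fun e he => h (by rw [← he]; exact mem_image_of_mem s (mem_univ e))
      have h3 : (n x : ℝ) = 0 := by
        rw [← hn x, filter_false_of_mem (fun e _ => h2 e), sum_empty]
      have h4 : n x = 0 := by exact_mod_cast h3
      rw [h4, filter_false_of_mem (fun e _ => h2 e), card_empty]
  · by_cases h : y ∈ univ.image t
    · exact (hy y h).symm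
    · have h2 : ∀ e, t e ≠ y := fun e he => h (by rw [← he]; exact mem_image_of_mem t (mem_univ e))
      have h3 : (m y : ℝ) = 0 := by
        rw [← hm y, filter_false_of_mem (fun e _ => h2 e), sum_empty]
      have h4 : m y = 0 := by exact_mod_cast h3
      rw [h4, filter_false_of_mem (fun e _ => h2 e), card_empty]

end Run7.h916
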