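import Pool.Agent.Run7.h916.Leaf

set_option autoImplicit false
set_option linter.unusedSectionVars false

/-!
Change of the phase of a direction which commutes with its conjugate.
-/

namespace Run7.h916

open Set Relation
open scoped Pointwise

universe u v

variable {Γ : Type u} [Group Γ]

/-- Change of the phase of `v` with the help of the colour `z`, weaker closure condition. -/
theorem flip_perm' {B E F : Set Γ} (hB : ∀ s ∈ B, s⁻¹ ∈ B) {f : Γ → Γ → ZMod 2}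
    (hf : IsPhase B f) {v z : Γ} (hv : v ∈ B) (hz : z ∈ B) (hvv : v ≠ v⁻¹) (hvz : v ≠ z)
    (hvz' : v⁻¹ ≠ z) (hzz : z ≠ z⁻¹) {φ : Γ → ZMod 2} (hφ : ∀ γ, φ (v * γ) = φ γ + 1)
    (h1F : (1 : Γ) ∈ F) (hE : ∀ a ∈ F, ∀ b ∈ F, a * b⁻¹ ∈ E)
    (hΛ : ∀ γ, f z γ = 0 → (φ (z * γ) ≠ f v (z * γ) ↔ φ γ ≠ f v γ))
    (h1 : CrossOK v z (f v) (f z) F {γ | φ γ ≠ f v γ})
    (h2 : CrossOK v⁻¹ z (f v) (f z) F {γ | φ γ ≠ f v γ}) :
    Reach B E 3 (kap f) (kap (setPhase f v φ)) := by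
  classical
  obtain ⟨o, ho⟩ := h1
  obtain ⟨o', ho'⟩ := h2
  have one_add : (1 : ZMod 2) + 1 = 0 := by decide
  set Λ : Set Γ := {γ | φ γ ≠ f v γ} with hΛdef
  have hfv : ∀ γ, f v (v * γ) = f v γ + 1 := hf.step v hv hvv
  have hfz : ∀ γ, f z (z * γ) = f z γ + 1 := hf.step z hz hzz
  have hv1 : ∀ γ, (v * γ ∈ Λ ↔ γ ∈ Λ) := by
    intro γ
    simp only [hΛdef, mem_ofPred_eq, hφ, hfv]
    constructor
    · intro h h'
      exact h (by rw [h'])
    · intro h h'
      exact h (add_right_cancel h')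
  have hv2 : ∀ γ, (v⁻¹ * γ ∈ Λ ↔ γ ∈ Λ) := by
    intro γ
    have := hv1 (v⁻¹ * γ)
    rw [mul_inv_cancel_left] at this
    exact this.symm
  have hz1 : ∀ γ, f z γ = 0 → (z * γ ∈ Λ ↔ γ ∈ Λ) := fun γ h => hΛ γ h
  have hz2 : ∀ γ, f z γ = 1 → (z⁻¹ * γ ∈ Λ ↔ γ ∈ Λ) := by
    intro γ h
    have := hz1 (z⁻¹ * γ) (by
      have h3 := hfz (z⁻¹ * γ)
      rw [mul_inv_cancel_left, h] at h3
      rcases zmod2_cases (f z (z⁻¹ * γ)) with h4 | h4
      · exact h4
      · rw [h4, one_add] at h3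
        exact absurd h3 (by decide))
    rw [mul_inv_cancel_left] at this
    exact this.symm
  have hnb : ∀ c, (c = v ∨ c = v⁻¹ ∨ c = z) → ∀ γ, (γ ∈ Λ ↔ nb c (f c) γ ∈ Λ) := by
    rintro c (rfl | rfl | rfl) γ
    · unfold nb
      split_ifs
      · exact (hv1 γ).symm
      · exact (hv2 γ).symm
    · unfold nb
      split_ifs
      · exact (hv2 γ).symm
      · rw [inv_inv]; exact (hv1 γ).symm
    · unfold nb
      split_ifs with h
      · exact (hz1 γ h).symm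
      · exact (hz2 γ (zmod2_ne_zero.mp h)).symm
  have key : Reach B E 3 (kap f) (permOn (Equiv.swap v v⁻¹) Λ (kap f)) := by
    refine reach_swap (hf.locCol hB) hv (hB v hv) hz hvv hvz hvz' h1F hE ?_ o ?_ ?_ o' ?_ ?_
    · intro γ s hs h
      rw [kap_eq hf hs rfl]
      exact hnb _ h γ
    · intro γ hγ s hs h
      rcases h with h | h
      · rw [kap_eq hf hs h]
        exact (ho γ hγ).1
      · rw [kap_eq hf hs h]
        exact (ho γ hγ).2.1
    · intro γ hγ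
      exact (ho γ hγ).2.2
    · intro γ hγ s hs h
      rcases h with h | h
      · rw [kap_eq hf hs h, hf.inv v hv]
        exact (ho' γ hγ).1
      · rw [kap_eq hf hs h]
        exact (ho' γ hγ).2.1
    · intro γ hγ
      exact (ho' γ hγ).2.2
  exact key.congr_right hB (permOn_kap hf hv Λ φ fun γ => Iff.rfl)

theorem setPhase_setPhase {f : Γ → Γ → ZMod 2} {v : Γ} {φ φ' : Γ → ZMod 2} :
    setPhase (setPhase f v φ) v φ' = setPhase f v φ' := by
  funext s
  by_cases h : s = v ∨ s = v⁻¹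
  · rw [setPhase_self h, setPhase_self h]
  · rw [setPhase_other h, setPhase_other h, setPhase_other h]

theorem IsPhase.setPhase {B : Set Γ} {f : Γ → Γ → ZMod 2} (hf : IsPhase B f) {v : Γ}
    {φ : Γ → ZMod 2} (hφ : ∀ γ, φ (v * γ) = φ γ + 1) : IsPhase B (setPhase f v φ) where
  inv s hs := by
    by_cases h : s = v ∨ s = v⁻¹
    · rw [setPhase_self h, setPhase_self]
      rcases h with h | h
      · right; rw [h]
      · left; rw [h, inv_inv]
    · rw [setPhase_other h, setPhase_other, hf.inv s hs]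
      intro h'
      apply h
      rcases h' with h' | h'
      · right; rw [← h', inv_inv]
      · left; exact inv_injective h'
  step s hs hss γ := by
    by_cases h : s = v ∨ s = v⁻¹
    · rw [setPhase_self h]
      rcases h with h | h
      · rw [h]; exact hφ γ
      · rw [h]; exact phase_inv hφ γ
    · rw [setPhase_other h]
      exact hf.step s hs hss γ

/-- The bound for the alternating paths of `cross_heis`. -/
def heisSet {G : Type u} [Group G] (V Z : G) : Set G :=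
  {a | ∃ q x y : Fin 2, a = Z ^ (q : ℕ) * (V ^ (x : ℕ) * (Z⁻¹ * V * Z) ^ (y : ℕ))}

theorem heisSet_finite {G : Type u} [Group G] (V Z : G) : (heisSet V Z).Finite := by
  have : heisSet V Z = Set.range (fun p : Fin 2 × Fin 2 × Fin 2 =>
      Z ^ (p.1 : ℕ) * (V ^ (p.2.1 : ℕ) * (Z⁻¹ * V * Z) ^ (p.2.2 : ℕ))) := by
    ext g
    constructor
    · rintro ⟨e, i, j, rfl⟩
      exact ⟨(e, i, j), rfl⟩
    · rintro ⟨⟨e, i, j⟩, rfl⟩
      exact ⟨e, i, j, rfl⟩
  rw [this]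
  exact Set.finite_range _

theorem one_mem_heisSet {G : Type u} [Group G] (V Z : G) : (1 : G) ∈ heisSet V Z :=
  ⟨0, 0, 0, by simp⟩

open Classical in
/-- **Change of the phase of a direction which commutes with its conjugate.** -/
theorem flip_heis {L : Subgroup Γ} [hLn : L.Normal] {B : Set Γ} (hB : ∀ s ∈ B, s⁻¹ ∈ B)
    {f : Γ → Γ → ZMod 2} (hf : IsPhase B f) {v z : Γ} (hv : v ∈ B) (hz : z ∈ B)
    (hvv : v ≠ v⁻¹) (hvz : v ≠ z) (hvz' : v⁻¹ ≠ z) (hzz : z ≠ z⁻¹) {V Z : Γ ⧸ L}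
    (hV : V = QuotientGroup.mk v) (hZ : Z = QuotientGroup.mk z) {fv fz : Γ ⧸ L → ZMod 2}
    (hfv : f v = fun γ => fv (QuotientGroup.mk γ)) (hfz : f z = fun γ => fz (QuotientGroup.mk γ))
    (h1 : ∀ g, fv (V * g) = fv g + 1) (h2 : ∀ g, fz (Z * g) = fz g + 1)
    (h3 : ∀ g, fz (V * g) = fz g) (h4 : ∀ g, fv (Z * V * Z⁻¹ * g) = fv g)
    (h5 : ∀ g, fv (Z⁻¹ * V * Z * g) = fv g)
    (hc : V * (Z⁻¹ * V * Z) = (Z⁻¹ * V * Z) * V)
    (hX : ∃ X : Γ ⧸ L → ZMod 4, (∀ g, X (V * g) = X g + 1) ∧ ∀ g, X (Z⁻¹ * V * Z * g) = X g)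
    {φ : Γ ⧸ L → ZMod 2} (hφ1 : ∀ g, φ (V * g) = φ g + 1)
    (hφ4 : ∀ g, φ (Z * V * Z⁻¹ * g) = φ g) (hφ5 : ∀ g, φ (Z⁻¹ * V * Z * g) = φ g) :
    Reach B (pre L ((heisSet V Z ∪ heisSet V⁻¹ Z) * (heisSet V Z ∪ heisSet V⁻¹ Z)⁻¹ ∪
      leafSet V Z * (leafSet V Z)⁻¹)) 7 (kap f)
      (kap (setPhase f v (fun γ => φ (QuotientGroup.mk γ)))) := by
  have one_add : (1 : ZMod 2) + 1 = 0 := by decide
  have hne : (1 : ZMod 2) ≠ 0 := by decide
  have hmk : ∀ a b : Γ, (QuotientGroup.mk (a * b) : Γ ⧸ L) =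
      QuotientGroup.mk a * QuotientGroup.mk b := fun _ _ => rfl
  have hmki : ∀ a : Γ, (QuotientGroup.mk a⁻¹ : Γ ⧸ L) = (QuotientGroup.mk a)⁻¹ := fun _ => rfl
  have h2' : ∀ g, fz (Z⁻¹ * g) = fz g + 1 := fun g => phase_inv h2 g
  have h3' : ∀ g, fz (V⁻¹ * g) = fz g := fun g => invariant_inv h3 g
  -- the difference
  let h : Γ ⧸ L → ZMod 2 := fun g => φ g + fv g
  have hadd : ∀ a : ZMod 2, a + a = 0 := by decide
  have hhV : ∀ g, h (V * g) = h g := by
    intro g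
    show φ (V * g) + fv (V * g) = φ g + fv g
    rw [hφ1, h1]
    have : φ g + 1 + (fv g + 1) = φ g + fv g + (1 + 1) := by ring
    rw [this, one_add, add_zero]
  have hhU : ∀ g, h (Z⁻¹ * V * Z * g) = h g := by
    intro g
    show φ _ + fv _ = φ g + fv g
    rw [hφ5, h5]
  have hhU' : ∀ g, h (Z * V * Z⁻¹ * g) = h g := by
    intro g
    show φ _ + fv _ = φ g + fv g
    rw [hφ4, h4]
  -- the value on the second sheet
  let h' : Γ ⧸ L → ZMod 2 := fun g => if fz g = 0 then h (Z * g) else h g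
  have hh'0 : ∀ g, fz g = 0 → h' g = h (Z * g) := fun g hg => if_pos hg
  have hh'1 : ∀ g, fz g = 1 → h' g = h g := fun g hg => if_neg (by rw [hg]; exact hne)
  have hh'V : ∀ g, h' (V * g) = h' g := by
    intro g
    rcases zmod2_cases (fz g) with hg | hg
    · rw [hh'0 g hg, hh'0 (V * g) (by rw [h3, hg])]
      have : Z * (V * g) = Z * V * Z⁻¹ * (Z * g) := by group
      rw [this, hhU']
    · rw [hh'1 g hg, hh'1 (V * g) (by rw [h3, hg]), hhV]
  have hfzU : ∀ g, fz (Z⁻¹ * V * Z * g) = fz g := by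
    intro g
    have : Z⁻¹ * V * Z * g = Z⁻¹ * (V * (Z * g)) := by group
    rw [this, h2', h3, h2, add_assoc, one_add, add_zero]
  have hfzU' : ∀ g, fz (Z * V * Z⁻¹ * g) = fz g := by
    intro g
    have : Z * V * Z⁻¹ * g = Z * (V * (Z⁻¹ * g)) := by group
    rw [this, h2, h3, h2', add_assoc, one_add, add_zero]
  have hh'U : ∀ g, h' (Z⁻¹ * V * Z * g) = h' g := by
    intro g
    rcases zmod2_cases (fz g) with hg | hg
    · rw [hh'0 g hg, hh'0 _ (by rw [hfzU, hg])]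
      have : Z * (Z⁻¹ * V * Z * g) = V * (Z * g) := by group
      rw [this, hhV]
    · rw [hh'1 g hg, hh'1 _ (by rw [hfzU, hg]), hhU]
  have hh'U' : ∀ g, fz g = 1 → h' (Z * V * Z⁻¹ * g) = h' g := by
    intro g hg
    rw [hh'1 g hg, hh'1 _ (by rw [hfzU', hg]), hhU']
  have hh'Z : ∀ g, fz g = 0 → h' (Z * g) = h' g := by
    intro g hg
    rw [hh'0 g hg, hh'1 _ (by rw [h2, hg, zero_add])]
  -- the first change
  let f1 : Γ ⧸ L → ZMod 2 := fun g => fv g + h' g
  have hf11 : ∀ g, f1 (V * g) = f1 g + 1 := by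
    intro g
    show fv _ + h' _ = fv g + h' g + 1
    rw [h1, hh'V]; ring
  have hf1ne : ∀ g, f1 g ≠ fv g ↔ h' g ≠ 0 := by
    intro g
    show fv g + h' g ≠ fv g ↔ _
    rw [ne_eq, add_eq_left]
  have r1 : Reach B (pre L ((heisSet V Z ∪ heisSet V⁻¹ Z) *
      (heisSet V Z ∪ heisSet V⁻¹ Z)⁻¹)) 3 (kap f)
      (kap (setPhase f v (fun γ => f1 (QuotientGroup.mk γ)))) := by
    refine flip_perm' (F := pre L (heisSet V Z ∪ heisSet V⁻¹ Z)) hB hf hv hz hvv hvz hvz' hzz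
      ?_ ?_ ?_ ?_ ?_ ?_
    · intro γ
      simp only [hmk, ← hV]
      rw [hf11]
    · exact Or.inl (one_mem_heisSet V Z)
    · intro a ha c hc
      rw [mem_pre, hmk, hmki]
      exact Set.mul_mem_mul ha (by rw [Set.mem_inv, inv_inv]; exact hc)
    · intro γ hγ
      rw [hfz] at hγ
      simp only [hfv, hmk, ← hZ]
      rw [hf1ne, hf1ne, hh'Z _ hγ]
    · have := CrossOK.pull (L := L) (c := v) (d := z) (φ := fv) (ψ := fz) (Λ := Set.univ)
        (F := heisSet V Z) (by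
          rw [← hV, ← hZ]
          exact cross_heis h1 h2 h3 hc h5 h4 _)
      rw [hfv, hfz]
      exact this.mono (fun _ h => Or.inl h) (fun _ _ => Set.mem_univ _)
    · have hc' : V⁻¹ * (Z⁻¹ * V⁻¹ * Z) = (Z⁻¹ * V⁻¹ * Z) * V⁻¹ := by
        have e1 : V⁻¹ * (Z⁻¹ * V⁻¹ * Z) = ((Z⁻¹ * V * Z) * V)⁻¹ := by group
        have e2 : (Z⁻¹ * V⁻¹ * Z) * V⁻¹ = (V * (Z⁻¹ * V * Z))⁻¹ := by group
        rw [e1, e2, hc]
      have h5' : ∀ g, fv (Z⁻¹ * V⁻¹ * Z * g) = fv g := by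
        intro g
        have := invariant_inv h5 g
        have e : (Z⁻¹ * V * Z)⁻¹ * g = Z⁻¹ * V⁻¹ * Z * g := by group
        rwa [e] at this
      have h4' : ∀ g, fv (Z * V⁻¹ * Z⁻¹ * g) = fv g := by
        intro g
        have := invariant_inv h4 g
        have e : (Z * V * Z⁻¹)⁻¹ * g = Z * V⁻¹ * Z⁻¹ * g := by group
        rwa [e] at this
      have := CrossOK.pull (L := L) (c := v⁻¹) (d := z) (φ := fv) (ψ := fz) (Λ := Set.univ)
        (F := heisSet V⁻¹ Z) (by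
          rw [hmki, ← hV, ← hZ]
          exact cross_heis (phase_inv h1) h2 h3' hc' h5' h4' _)
      rw [hfv, hfz]
      exact this.mono (fun _ h => Or.inr h) (fun _ _ => Set.mem_univ _)
  -- the second change
  have hφf1 : ∀ g, φ g ≠ f1 g ↔ (h' g ≠ h g) := by
    intro g
    show φ g ≠ fv g + h' g ↔ h' g ≠ φ g + fv g
    rcases zmod2_cases (φ g) with a | a <;> rcases zmod2_cases (fv g) with b | b <;>
      rcases zmod2_cases (h' g) with c | c <;> rw [a, b, c] <;> decide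
  obtain ⟨X0, hX01, hX02⟩ := hX
  let X : Γ ⧸ L → ZMod 4 := fun g =>
    X0 g + if (f1 g = 0 ↔ (X0 g = 0 ∨ X0 g = 2)) then 0 else 1
  have hpar : ∀ x : ZMod 4, (x + 1 = 0 ∨ x + 1 = 2) ↔ ¬ (x = 0 ∨ x = 2) := by decide
  have hpar2 : ∀ a : ZMod 2, a + 1 = 0 ↔ ¬ a = 0 := by decide
  have hf15 : ∀ g, f1 (Z⁻¹ * V * Z * g) = f1 g := by
    intro g
    show fv _ + h' _ = fv g + h' g
    rw [h5, hh'U]
  have r2 : Reach B (pre L (leafSet V Z * (leafSet V Z)⁻¹)) 4
      (kap (setPhase f v (fun γ => f1 (QuotientGroup.mk γ))))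
      (kap (setPhase (setPhase f v (fun γ => f1 (QuotientGroup.mk γ))) v
        (fun γ => φ (QuotientGroup.mk γ)))) := by
    refine flip_sheet (X := X) (H := {g | h' g ≠ h (if fz g = 0 then g else Z⁻¹ * g)})
      (fv := f1) (fz := fz) hB (hf.setPhase (fun γ => ?_)) hv hz hvv hvz hvz' hV hZ ?_ ?_ hf11
      h2 h3 ?_ hc ?_ ?_ ?_ ?_ ?_ ?_
    · simp only [hmk, ← hV]
      rw [hf11]
    · rw [setPhase_self (Or.inl rfl)]
    · rw [setPhase_other, hfz]
      rintro (h6 | h6)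
      · exact hvz h6.symm
      · exact hvz' h6.symm
    · intro g hg
      show fv _ + h' _ = fv g + h' g
      rw [h4, hh'U' g hg]
    · intro g
      simp only [X]
      rw [hX01, hf11]
      have : (f1 g + 1 = 0 ↔ (X0 g + 1 = 0 ∨ X0 g + 1 = 2)) ↔
          (f1 g = 0 ↔ (X0 g = 0 ∨ X0 g = 2)) := by
        rw [hpar, hpar2]
        tauto
      simp only [this]
      ring
    · intro g
      simp only [X]
      rw [hX02, hf15]
    · intro g _
      simp only [X]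
      by_cases hh : (f1 g = 0 ↔ (X0 g = 0 ∨ X0 g = 2))
      · rw [if_pos hh, add_zero]; exact hh
      · rw [if_neg hh, hpar]
        tauto
    · intro g
      simp only [mem_ofPred_eq]
      rw [hh'V, h3]
      rcases zmod2_cases (fz g) with hg | hg
      · rw [if_pos hg, if_pos hg, hhV]
      · have hg' : ¬ fz g = 0 := by rw [hg]; exact hne
        rw [if_neg hg', if_neg hg']
        have : Z⁻¹ * (V * g) = Z⁻¹ * V * Z * (Z⁻¹ * g) := by group
        rw [this, hhU]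
    · intro g hg
      simp only [mem_ofPred_eq]
      rw [hh'Z g hg, if_pos hg, if_neg (by rw [h2, hg, zero_add]; exact hne),
        inv_mul_cancel_left]
    · intro γ
      rw [setPhase_self (Or.inl rfl)]
      simp only [mem_ofPred_eq]
      rw [hφf1]
      rcases zmod2_cases (fz (QuotientGroup.mk γ)) with hg | hg
      · rw [if_pos hg]
        simp [hg]
      · rw [hh'1 _ hg]
        simp [hg]
  rw [setPhase_setPhase] at r2
  exact (r1.mono (fun _ h => Or.inl h) le_rfl).trans (r2.mono (fun _ h => Or.inr h) le_rfl)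

end Run7.h916
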