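import Pool.Agent.Run7.h916.Heis

set_option autoImplicit false
set_option linter.unusedSectionVars false

/-!
Flexible blocks in which every direction of infinite order has a helper.
-/

namespace Run7.h916

open Set Relation
open scoped Pointwise

universe u v

variable {Γ : Type u} [Group Γ]

/-- The functions on `G` which increase by one along `V` and are invariant under `M`. -/
def PhaseOn {G : Type u} [Group G] (M : Subgroup G) (V : G) (φ : G → ZMod 2) : Prop :=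
  (∀ g, φ (V * g) = φ g + 1) ∧ ∀ m ∈ M, ∀ g, φ (m * g) = φ g

theorem PhaseOn.inv {G : Type u} [Group G] {M : Subgroup G} {V : G} {φ : G → ZMod 2}
    (h : PhaseOn M V φ) : PhaseOn M V⁻¹ φ := ⟨phase_inv h.1, h.2⟩

/-- `T` is a helper of `V`; `M` and `N` are the subgroups of invariance of the phases of `V` and
of `T`. -/
def IsHelper {G : Type u} [Group G] (M : Subgroup G) (V : G) (N : Subgroup G) (T : G) : Prop :=
  (V * T = T * V ∧ T ∈ M ∧ V ∈ N) ∨
  (T * (V⁻¹ * T * V) = (V⁻¹ * T * V) * T ∧ T ∈ M ∧ V⁻¹ * T * V ∈ N ∧ V * T * V⁻¹ ∈ N) ∨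
  (V * (T⁻¹ * V * T) = (T⁻¹ * V * T) * V ∧ V ∈ N ∧ T⁻¹ * V * T ∈ M ∧ T * V * T⁻¹ ∈ M ∧
    ∃ X : G → ZMod 4, (∀ g, X (V * g) = X g + 1) ∧ ∀ g, X (T⁻¹ * V * T * g) = X g)

open Classical in
/-- **Blocks with helpers.** -/
theorem flexible_helpers {L : Subgroup Γ} [hLn : L.Normal] (hL : IsLocallyFinite L)
    {B : Set Γ} (hBf : B.Finite) (hB : ∀ s ∈ B, s⁻¹ ∈ B) (hodd : ∀ s ∈ B, ¬ Odd (orderOf s))
    (M : Γ → Subgroup (Γ ⧸ L)) (hM : ∀ s ∈ B, M s⁻¹ = M s)
    (hne : ∀ s ∈ B, ¬ IsOfFinOrder s → ∃ φ, PhaseOn (M s) (QuotientGroup.mk s) φ)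
    (hhelp : ∀ s ∈ B, ¬ IsOfFinOrder s → ∃ t ∈ B, ¬ IsOfFinOrder t ∧
      IsHelper (M s) (QuotientGroup.mk s) (M t) (QuotientGroup.mk t)) :
    Flexible B := by
  have hne0 : (1 : ZMod 2) ≠ 0 := by decide
  have hmk : ∀ a b : Γ, (QuotientGroup.mk (a * b) : Γ ⧸ L) =
      QuotientGroup.mk a * QuotientGroup.mk b := fun _ _ => rfl
  have hmki : ∀ a : Γ, (QuotientGroup.mk a⁻¹ : Γ ⧸ L) = (QuotientGroup.mk a)⁻¹ := fun _ => rfl
  let P : Γ → Set (Γ → ZMod 2) := fun s => {φ | (s ≠ s⁻¹ → ∀ γ, φ (s * γ) = φ γ + 1) ∧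
    (¬ IsOfFinOrder s → ∃ ψ : Γ ⧸ L → ZMod 2, (φ = fun γ => ψ (QuotientGroup.mk γ)) ∧
      PhaseOn (M s) (QuotientGroup.mk s) ψ)}
  have hPr : ∀ s ∈ B, ¬ IsOfFinOrder s → ∀ ψ : Γ ⧸ L → ZMod 2,
      PhaseOn (M s) (QuotientGroup.mk s) ψ → (fun γ => ψ (QuotientGroup.mk γ)) ∈ P s := by
    intro s _ _ ψ hψ
    exact ⟨fun _ γ => hψ.1 (QuotientGroup.mk γ), fun _ => ⟨ψ, rfl, hψ⟩⟩
  refine flexible_of_flips hBf hB P ?_ ?_ ?_ ?_ ?_
  · intro s _ φ hφ hss
    exact hφ.1 hss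
  · intro s hs
    ext φ
    simp only [P, mem_ofPred_eq, isOfFinOrder_inv_iff, inv_inv, hM s hs, phase_inv_iff]
    constructor
    · rintro ⟨h1, h2⟩
      refine ⟨fun h => h1 (fun h' => h h'.symm), fun h => ?_⟩
      obtain ⟨ψ, hψ, hψ'⟩ := h2 h
      refine ⟨ψ, hψ, ?_⟩
      have := hψ'.inv
      rwa [hmki, inv_inv] at this
    · rintro ⟨h1, h2⟩
      refine ⟨fun h => h1 (fun h' => h h'.symm), fun h => ?_⟩
      obtain ⟨ψ, hψ, hψ'⟩ := h2 h
      exact ⟨ψ, hψ, hψ'.inv⟩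
  · intro s _ φ hφ g
    refine ⟨fun h γ => ?_, fun h => ?_⟩
    · simp only [mul_assoc]
      exact hφ.1 h _
    · obtain ⟨ψ, rfl, hψ⟩ := hφ.2 h
      refine ⟨fun q => ψ (q * QuotientGroup.mk g), ?_, ?_, ?_⟩
      · rfl
      · intro q; simp only [mul_assoc]; exact hψ.1 _
      · intro m hm q; simp only [mul_assoc]; exact hψ.2 m hm _
  · intro s hs
    by_cases h : IsOfFinOrder s
    · obtain ⟨φ, hφ⟩ := torsion_phase (hodd s hs)
      exact ⟨φ, fun _ => hφ, fun h' => absurd h h'⟩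
    · obtain ⟨ψ, hψ⟩ := hne s hs h
      exact ⟨_, hPr s hs h ψ hψ⟩
  · intro v hv hvv
    by_cases hfin : IsOfFinOrder v
    · refine ⟨1, (Subgroup.zpowers v : Set Γ), ?_, fun f hf φ hφ => ?_⟩
      · exact finite_zpowers.mpr hfin
      · exact flip_torsion hB ⟨hf.inv, fun s hs hss γ => (hf.mem s hs).1 hss γ⟩ hv hvv
          (hφ.1 hvv)
    · obtain ⟨z, hz, hzfin, hh⟩ := hhelp v hv hfin
      set V : Γ ⧸ L := QuotientGroup.mk v with hV
      set Z : Γ ⧸ L := QuotientGroup.mk z with hZ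
      obtain ⟨φv, hφv⟩ := hne v hv hfin
      obtain ⟨φz, hφz⟩ := hne z hz hzfin
      have hzz : z ≠ z⁻¹ := not_isOfFinOrder_ne_inv hzfin
      -- the images are different
      have hcontra : ∀ (M' : Subgroup (Γ ⧸ L)) (W : Γ ⧸ L) (φ : Γ ⧸ L → ZMod 2),
          PhaseOn M' W φ → W ∈ M' → False := by
        intro M' W φ h hW
        have h1 := h.1 1
        rw [h.2 W hW 1] at h1
        rcases zmod2_cases (φ 1) with h2 | h2 <;> rw [h2] at h1 <;> revert h1 <;> decide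
      have hVZ : (V ≠ Z ∧ V⁻¹ ≠ Z) ∧ (Z ∈ M v ∨ V ∈ M z) := by
        rcases hh with ⟨_, hh1, _⟩ | ⟨_, hh1, _⟩ | ⟨_, hh1, _⟩
        · refine ⟨⟨fun h => ?_, fun h => ?_⟩, Or.inl hh1⟩
          · exact hcontra _ _ _ hφv (by rw [← h] at hh1; exact hh1)
          · exact hcontra _ _ _ hφv.inv (by rw [← h] at hh1; exact hh1)
        · refine ⟨⟨fun h => ?_, fun h => ?_⟩, Or.inl hh1⟩
          · exact hcontra _ _ _ hφv (by rw [← h] at hh1; exact hh1)
          · exact hcontra _ _ _ hφv.inv (by rw [← h] at hh1; exact hh1)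
        · refine ⟨⟨fun h => ?_, fun h => ?_⟩, Or.inr hh1⟩
          · exact hcontra _ _ _ hφz (by rw [h] at hh1; exact hh1)
          · have h4 : Z ∈ M z := by rw [← h]; exact inv_mem hh1
            exact hcontra _ _ _ hφz h4
      have hvz : v ≠ z := fun h => hVZ.1.1 (by rw [hV, hZ, h])
      have hvz' : v⁻¹ ≠ z := fun h => hVZ.1.2 (by rw [hV, hZ, ← h, hmki])
      rcases hh with ⟨hc, hZM, hVN⟩ | ⟨hc, hZM, hN1, hN2⟩ | ⟨hc, hVN, hM1, hM2, hX⟩
      · -- commuting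
        set F : Set (Γ ⧸ L) := {1, V, Z, Z * V} ∪ {1, V⁻¹, Z, Z * V⁻¹} with hF
        have hFf : F.Finite := (Set.toFinite _).union (Set.toFinite _)
        obtain ⟨E, hE, hEr⟩ := reach_bound hL hBf (hFf.mul hFf.inv)
        refine ⟨3, E, hE, fun f hf φ hφ => hEr _ _ _ ?_⟩
        have hph : IsPhase B f := ⟨hf.inv, fun s hs hss γ => (hf.mem s hs).1 hss γ⟩
        obtain ⟨fv, hfv, hfv'⟩ := (hf.mem v hv).2 hfin
        obtain ⟨fz, hfz, hfz'⟩ := (hf.mem z hz).2 hzfin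
        obtain ⟨ψ, hψ, hψ'⟩ := hφ.2 hfin
        refine flip_perm (F := pre L F) hB hph hv hz hvv hvz hvz' (hφ.1 hvv) ?_ ?_ ?_ ?_ ?_
        · exact Or.inl (by simp)
        · intro a ha c hc
          rw [mem_pre, hmk, hmki]
          exact Set.mul_mem_mul ha (by rw [Set.mem_inv, inv_inv]; exact hc)
        · intro γ
          rw [hψ, hfv]
          simp only [hmk, ← hZ]
          rw [hψ'.2 Z hZM, hfv'.2 Z hZM]
        · have := CrossOK.pull (L := L) (c := v) (d := z) (φ := fv) (ψ := fz) (Λ := Set.univ)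
            (F := {1, V, Z, Z * V}) (by
              rw [← hV, ← hZ]
              exact cross_comm hfv'.1 hfz'.1 (fun g => hfz'.2 V hVN g)
                (Or.inl ⟨hc, fun g => hfv'.2 Z hZM g⟩) _)
          rw [hfv, hfz]
          exact this.mono (fun _ h => Or.inl h) (fun _ _ => Set.mem_univ _)
        · have hc' : V⁻¹ * Z = Z * V⁻¹ := by
            rw [inv_mul_eq_iff_eq_mul, ← mul_assoc, hc, mul_assoc, mul_inv_cancel, mul_one]
          have := CrossOK.pull (L := L) (c := v⁻¹) (d := z) (φ := fv) (ψ := fz) (Λ := Set.univ)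
            (F := {1, V⁻¹, Z, Z * V⁻¹}) (by
              rw [hmki, ← hV, ← hZ]
              exact cross_comm hfv'.inv.1 hfz'.1 (fun g => hfz'.2 V⁻¹ (inv_mem hVN) g)
                (Or.inl ⟨hc', fun g => hfv'.2 Z hZM g⟩) _)
          rw [hfv, hfz]
          exact this.mono (fun _ h => Or.inr h) (fun _ _ => Set.mem_univ _)
      · -- the helper is a leaf of `v`
        set F : Set (Γ ⧸ L) := heisSet Z V ∪ heisSet Z V⁻¹ with hF
        have hFf : F.Finite := (heisSet_finite _ _).union (heisSet_finite _ _)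
        obtain ⟨E, hE, hEr⟩ := reach_bound hL hBf (hFf.mul hFf.inv)
        refine ⟨3, E, hE, fun f hf φ hφ => hEr _ _ _ ?_⟩
        have hph : IsPhase B f := ⟨hf.inv, fun s hs hss γ => (hf.mem s hs).1 hss γ⟩
        obtain ⟨fv, hfv, hfv'⟩ := (hf.mem v hv).2 hfin
        obtain ⟨fz, hfz, hfz'⟩ := (hf.mem z hz).2 hzfin
        obtain ⟨ψ, hψ, hψ'⟩ := hφ.2 hfin
        refine flip_perm (F := pre L F) hB hph hv hz hvv hvz hvz' (hφ.1 hvv) ?_ ?_ ?_ ?_ ?_
        · exact Or.inl (one_mem_heisSet _ _)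
        · intro a ha c hc
          rw [mem_pre, hmk, hmki]
          exact Set.mul_mem_mul ha (by rw [Set.mem_inv, inv_inv]; exact hc)
        · intro γ
          rw [hψ, hfv]
          simp only [hmk, ← hZ]
          rw [hψ'.2 Z hZM, hfv'.2 Z hZM]
        · have := CrossOK.pull (L := L) (c := z) (d := v) (φ := fz) (ψ := fv) (Λ := Set.univ)
            (F := heisSet Z V) (by
              rw [← hV, ← hZ]
              exact cross_heis hfz'.1 hfv'.1 (fun g => hfv'.2 Z hZM g) hc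
                (fun g => hfz'.2 _ hN1 g) (fun g => hfz'.2 _ hN2 g) _)
          rw [hfv, hfz]
          exact (this.swap).mono (fun _ h => Or.inl h) (fun _ _ => Set.mem_univ _)
        · have hc' : Z * (V⁻¹⁻¹ * Z * V⁻¹) = (V⁻¹⁻¹ * Z * V⁻¹) * Z := by
            have e1 : Z * (V⁻¹⁻¹ * Z * V⁻¹) = V * ((V⁻¹ * Z * V) * Z) * V⁻¹ := by group
            have e2 : (V⁻¹⁻¹ * Z * V⁻¹) * Z = V * (Z * (V⁻¹ * Z * V)) * V⁻¹ := by group
            rw [e1, e2, hc]
          have := CrossOK.pull (L := L) (c := z) (d := v⁻¹) (φ := fz) (ψ := fv) (Λ := Set.univ)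
            (F := heisSet Z V⁻¹) (by
              rw [hmki, ← hV, ← hZ]
              exact cross_heis hfz'.1 hfv'.inv.1 (fun g => hfv'.2 Z hZM g) hc'
                (fun g => hfz'.2 _ (by rw [inv_inv]; exact hN2) g)
                (fun g => hfz'.2 _ (by rw [inv_inv]; exact hN1) g) _)
          rw [hfv, hfz]
          exact (this.swap).mono (fun _ h => Or.inr h) (fun _ _ => Set.mem_univ _)
      · -- the helper is the centre of `v`
        set A : Set (Γ ⧸ L) := (heisSet V Z ∪ heisSet V⁻¹ Z) *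
          (heisSet V Z ∪ heisSet V⁻¹ Z)⁻¹ ∪ leafSet V Z * (leafSet V Z)⁻¹ with hA
        have hAf : A.Finite := by
          have h1 := (heisSet_finite V Z).union (heisSet_finite V⁻¹ Z)
          exact (h1.mul h1.inv).union ((leafSet_finite V Z).mul (leafSet_finite V Z).inv)
        obtain ⟨E, hE, hEr⟩ := reach_bound hL hBf hAf
        refine ⟨7, E, hE, fun f hf φ hφ => hEr _ _ _ ?_⟩
        have hph : IsPhase B f := ⟨hf.inv, fun s hs hss γ => (hf.mem s hs).1 hss γ⟩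
        obtain ⟨fv, hfv, hfv'⟩ := (hf.mem v hv).2 hfin
        obtain ⟨fz, hfz, hfz'⟩ := (hf.mem z hz).2 hzfin
        obtain ⟨ψ, rfl, hψ'⟩ := hφ.2 hfin
        exact flip_heis hB hph hv hz hvv hvz hvz' hzz hV hZ hfv hfz hfv'.1 hfz'.1
          (fun g => hfz'.2 V hVN g) (fun g => hfv'.2 _ hM2 g) (fun g => hfv'.2 _ hM1 g) hc hX
          hψ'.1 (fun g => hψ'.2 _ hM2 g) (fun g => hψ'.2 _ hM1 g)

end Run7.h916
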