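import Pool.Agent.Run7.h916.Star

set_option autoImplicit false
set_option linter.unusedSectionVars false

/-!
Hubs are flexible.
-/

namespace Run7.h916

open Subgroup
open scoped Pointwise commutatorElement

universe u v

section

variable {G : Type u} [Group G]

/-- The elements of the subgroup generated by the conjugates. -/
theorem TF2.conjSub_form (hG : TF2 G) {A B C : G} :
    ∀ x ∈ conjSub A {B, C}, ∃ n m l : ℤ, x = A ^ n * (⁅B, A⁆ ^ m * ⁅C, A⁆ ^ l) ∧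
      Even (n + m + l) := by
  intro x hx
  have hcB : ∀ (m : ℤ) (w : G), ⁅B, A⁆ ^ m * w = w * ⁅B, A⁆ ^ m := fun m w =>
    ((show Commute w ⁅B, A⁆ from hG.cen B A w).zpow_right m).symm.eq
  have hcC : ∀ (m : ℤ) (w : G), ⁅C, A⁆ ^ m * w = w * ⁅C, A⁆ ^ m := fun m w =>
    ((show Commute w ⁅C, A⁆ from hG.cen C A w).zpow_right m).symm.eq
  refine closure_induction (p := fun x _ => ∃ n m l : ℤ,
    x = A ^ n * (⁅B, A⁆ ^ m * ⁅C, A⁆ ^ l) ∧ Even (n + m + l)) ?_ ?_ ?_ ?_ hx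
  · rintro x ⟨Z, hZ, hZx⟩
    rcases hZ with hZ | hZ
    · rw [hZ] at hZx
      rcases hZx with rfl | rfl
      · exact ⟨1, -1, 0, by rw [hG.conj_eq'']; simp, by decide⟩
      · exact ⟨1, 1, 0, by rw [hG.conj_eq']; simp, by decide⟩
    · rw [Set.mem_singleton_iff] at hZ
      rw [hZ] at hZx
      rcases hZx with rfl | rfl
      · exact ⟨1, 0, -1, by rw [hG.conj_eq'']; simp, by decide⟩
      · exact ⟨1, 0, 1, by rw [hG.conj_eq']; simp, by decide⟩
  · exact ⟨0, 0, 0, by simp, by simp⟩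
  · rintro x y _ _ ⟨n, m, l, rfl, h1⟩ ⟨n', m', l', rfl, h2⟩
    refine ⟨n + n', m + m', l + l', ?_, ?_⟩
    · rw [zpow_add, zpow_add, zpow_add]
      calc A ^ n * (⁅B, A⁆ ^ m * ⁅C, A⁆ ^ l) * (A ^ n' * (⁅B, A⁆ ^ m' * ⁅C, A⁆ ^ l'))
          = A ^ n * (⁅B, A⁆ ^ m * (⁅C, A⁆ ^ l * A ^ n') * (⁅B, A⁆ ^ m' * ⁅C, A⁆ ^ l')) := by
            simp only [mul_assoc]
        _ = A ^ n * ((⁅B, A⁆ ^ m * A ^ n') * ⁅C, A⁆ ^ l * (⁅B, A⁆ ^ m' * ⁅C, A⁆ ^ l')) := by
            rw [hcC l (A ^ n')]; simp only [mul_assoc]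
        _ = A ^ n * A ^ n' * (⁅B, A⁆ ^ m * (⁅C, A⁆ ^ l * ⁅B, A⁆ ^ m') * ⁅C, A⁆ ^ l') := by
            rw [hcB m (A ^ n')]; simp only [mul_assoc]
        _ = _ := by
            rw [hcC l (⁅B, A⁆ ^ m')]; simp only [mul_assoc]
    · have : n + n' + (m + m') + (l + l') = (n + m + l) + (n' + m' + l') := by ring
      rw [this]; exact h1.add h2
  · rintro x _ ⟨n, m, l, rfl, h1⟩
    refine ⟨-n, -m, -l, ?_, ?_⟩
    · rw [mul_inv_rev, mul_inv_rev, ← zpow_neg, ← zpow_neg, ← zpow_neg, hcC (-l)]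
      rw [hcB (-m) (⁅C, A⁆ ^ (-l)), hcC (-l), mul_assoc, hcC (-l), ← mul_assoc, hcB (-m)]
      simp only [mul_assoc]
    · have : -n + -m + -l = -(n + m + l) := by ring
      rw [this]; exact h1.neg

/-- The phases of a hub. -/
theorem TF2.phase_hub (hG : TF2 G) {A B C : G} (hB : ⁅B, A⁆ ≠ 1)
    (hodd : ∀ m l : ℤ, ⁅B, A⁆ ^ m * ⁅C, A⁆ ^ l = 1 → Even (m + l)) :
    ∃ φ, PhaseOn (conjSub A {B, C}) A φ := by
  refine phaseOn_of_comm (fun x hx => ?_) (fun k hk => ?_)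
  · obtain ⟨n, m, l, rfl, _⟩ := hG.conjSub_form x hx
    exact (((Commute.refl A).zpow_right n).mul_right
      (((show Commute A ⁅B, A⁆ from hG.cen B A A).zpow_right m).mul_right
      ((show Commute A ⁅C, A⁆ from hG.cen C A A).zpow_right l))).eq
  · obtain ⟨n, m, l, h, he⟩ := hG.conjSub_form _ hk
    have h1 : A ^ (k - n) = ⁅B, A⁆ ^ m * ⁅C, A⁆ ^ l := by
      rw [sub_eq_neg_add, zpow_add, h, ← mul_assoc, ← zpow_add, neg_add_cancel, zpow_zero,
        one_mul]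
    have h2 : ⁅B, A⁆ ^ (k - n) = 1 := by
      rw [← hG.zpow_right, h1, ← hG.comm_iff]
      exact (((show Commute B ⁅B, A⁆ from hG.cen B A B).zpow_right m).mul_right
        ((show Commute B ⁅C, A⁆ from hG.cen C A B).zpow_right l)).eq
    have h3 : k - n = 0 := by
      by_contra h3
      exact hB (hG.tf _ _ h2 h3)
    rw [h3, zpow_zero] at h1
    have h4 := hodd m l h1.symm
    have : k = n := by omega
    rw [this]
    have h5 : n = (n + m + l) - (m + l) := by ring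
    rw [h5]
    exact (he.sub h4).two_dvd

end

variable {Γ : Type u} [Group Γ]

open Classical in
/-- **Hubs are flexible.** -/
theorem flexible_hub {L : Subgroup Γ} [hLn : L.Normal] (hL : IsLocallyFinite L)
    (hG : TF2 (Γ ⧸ L)) {a b c : Γ} {A B C : Γ ⧸ L} (hA : A = QuotientGroup.mk a)
    (hB : B = QuotientGroup.mk b) (hC : C = QuotientGroup.mk c)
    (hA1 : A ≠ 1) (hB1 : B ≠ 1) (hC1 : C ≠ 1) (hAB : ¬ Par A B) (hAC : ¬ Par A C)
    (hBC : ¬ Par B C) (hBA : ⁅B, A⁆ ≠ 1)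
    (hodd : ∀ m l : ℤ, ⁅B, A⁆ ^ m * ⁅C, A⁆ ^ l = 1 → Even (m + l)) :
    Flexible (({a, b, c} : Set Γ) ∪ ({a, b, c} : Set Γ)⁻¹) := by
  have hmki : ∀ a : Γ, (QuotientGroup.mk a⁻¹ : Γ ⧸ L) = (QuotientGroup.mk a)⁻¹ := fun _ => rfl
  let M : Γ → Subgroup (Γ ⧸ L) := fun s =>
    if s = a ∨ s = a⁻¹ then conjSub A {B, C}
    else if s = b ∨ s = b⁻¹ then cenSub B {A}
    else cenSub C {A}
  have hMa : M a = conjSub A {B, C} := if_pos (Or.inl rfl)
  have hba : ¬ (b = a ∨ b = a⁻¹) := by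
    rintro (h | h)
    · exact hAB (by rw [hA, hB, h]; exact Par.refl _)
    · exact hAB (by rw [hA, hB, h, hmki]; exact (Par.refl _).inv_left.symm)
  have hca : ¬ (c = a ∨ c = a⁻¹) := by
    rintro (h | h)
    · exact hAC (by rw [hA, hC, h]; exact Par.refl _)
    · exact hAC (by rw [hA, hC, h, hmki]; exact (Par.refl _).inv_left.symm)
  have hcb : ¬ (c = b ∨ c = b⁻¹) := by
    rintro (h | h)
    · exact hBC (by rw [hB, hC, h]; exact Par.refl _)
    · exact hBC (by rw [hB, hC, h, hmki]; exact (Par.refl _).inv_left.symm)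
  have hMb : M b = cenSub B {A} := by
    simp only [M, if_neg hba, true_or, if_true]
  have hMc : M c = cenSub C {A} := by
    simp only [M, if_neg hca, if_neg hcb]
  have hAmB : A ∈ cenSub B {A} := subset_closure (Or.inl rfl)
  have hAmC : A ∈ cenSub C {A} := subset_closure (Or.inl rfl)
  have hconjc : ∀ T : Γ ⧸ L, A * (T⁻¹ * A * T) = (T⁻¹ * A * T) * A := by
    intro T
    rw [hG.conj_eq'']
    exact ((Commute.refl A).mul_right
      ((show Commute A ⁅T, A⁆ from hG.cen T A A).inv_right)).eq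
  refine flexible_of_reps hL hG (Set.toFinite _) ?_ M ?_ ?_ ?_
  · rintro s (rfl | rfl | hs)
    · rw [← hA]; exact hA1
    · rw [← hB]; exact hB1
    · rw [Set.mem_singleton_iff] at hs
      rw [hs, ← hC]; exact hC1
  · intro s _
    have e1 : ∀ x : Γ, (s⁻¹ = x ∨ s⁻¹ = x⁻¹) ↔ (s = x ∨ s = x⁻¹) := by
      intro x
      constructor
      · rintro (h | h)
        · right; rw [← h, inv_inv]
        · left; exact inv_injective h
      · rintro (h | h)
        · right; rw [h]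
        · left; rw [h, inv_inv]
    simp only [M, e1]
  · rintro s (rfl | rfl | hs)
    · rw [hMa, ← hA]
      exact hG.phase_hub hBA hodd
    · rw [hMb, ← hB]
      exact hG.phase_cen hB1 (V0 := A) rfl hA1 (fun V hV => by
        rw [Set.mem_singleton_iff.mp hV]; exact Par.refl _) hAB
    · rw [Set.mem_singleton_iff] at hs
      rw [hs, hMc, ← hC]
      exact hG.phase_cen hC1 (V0 := A) rfl hA1 (fun V hV => by
        rw [Set.mem_singleton_iff.mp hV]; exact Par.refl _) hAC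
  · rintro s (rfl | rfl | hs)
    · refine ⟨b, Or.inr (Or.inl rfl), ?_⟩
      rw [hMa, hMb, ← hA, ← hB]
      refine Or.inr (Or.inr ⟨hconjc B, hAmB, ?_, ?_, hG.phase_four hBA⟩)
      · exact subset_closure ⟨B, Or.inl rfl, Or.inl rfl⟩
      · exact subset_closure ⟨B, Or.inl rfl, Or.inr rfl⟩
    · refine ⟨a, Or.inl rfl, ?_⟩
      rw [hMa, hMb, ← hA, ← hB]
      refine Or.inr (Or.inl ⟨hconjc B, hAmB, ?_, ?_⟩)
      · exact subset_closure ⟨B, Or.inl rfl, Or.inl rfl⟩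
      · exact subset_closure ⟨B, Or.inl rfl, Or.inr rfl⟩
    · rw [Set.mem_singleton_iff] at hs
      rw [hs]
      refine ⟨a, Or.inl rfl, ?_⟩
      rw [hMa, hMc, ← hA, ← hC]
      refine Or.inr (Or.inl ⟨hconjc C, hAmC, ?_, ?_⟩)
      · exact subset_closure ⟨C, Or.inr rfl, Or.inl rfl⟩
      · exact subset_closure ⟨C, Or.inr rfl, Or.inr rfl⟩

end Run7.h916
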