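import Pool.Agent.Run7.h916.HubNames

set_option autoImplicit false
set_option linter.unusedSectionVars false
set_option linter.unusedVariables false

/-!
The division of a hub block.
-/

namespace Run7.h916

open Set Relation
open scoped Pointwise

universe u v w

variable {Γ : Type u} [Group Γ] {X : Type v} [MulAction Γ X]

/-- The global 2-factor of the main leaf and the data of the zones. -/
structure HubGlobal [MeasurableSpace X] (B : Finset Γ) (x y : Γ) (T : Set Γ) (R : ℕ)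
    (d : X → ℕ) (ctr W V : Γ → ℕ) (FFx : X → Lt → Prop) (N : Γ → X → Lt → Prop) : Prop where
  /-- The factor is Borel. -/
  meas : ∀ l, MeasurableSet {z | FFx z l}
  /-- The factor is symmetric. -/
  symm : ∀ z l, FFx z l ↔ FFx (lval (pr x y) l • z) (linv l)
  /-- It is a 2-factor. -/
  two : ∀ z, {l | FFx z l}.ncard = 2
  /-- The components of the factor are finite. -/
  fin : ∀ z, {u | EConn (lval (pr x y)) FFx z u}.Finite
  /-- The components of the complement are finite. -/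
  cfin : ∀ z, {u | EConn (lval (pr x y)) (fun z l => ¬ FFx z l) z u}.Finite
  /-- The zones are disjoint. -/
  dis : ∀ a ∈ B, ∀ a' ∈ B, ∀ x, exc d (ctr a) x ≤ W a → exc d (ctr a') x ≤ W a' + 1 → a = a'
  /-- The centres. -/
  ctr1 : ∀ a ∈ B, 1 ≤ ctr a ∧ ctr a ≤ R
  /-- The factor in the zones of the other leaves. -/
  hub : ∀ a ∈ B, rep a = a → a ≠ x → a ≠ y → ∃ FF : X → Lt → Prop,
    HubZone x y a d (ctr a) (W a) (V a) FF (N a) ∧
    ∀ z, exc d (ctr a) z ≤ W a → ∀ l, (FFx z l ↔ FF z l)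

open Classical in
theorem exists_global [MeasurableSpace X] [StandardBorelSpace X] [Countable Γ]
    (hX : IsFreeBorel Γ X) {T : Set Γ} (hT1 : (1 : Γ) ∈ T) (hT : ∀ m ∈ T, m⁻¹ ∈ T)
    (hTfin : T.Finite) (hsep : SepAct T X) {B : Finset Γ} (hBT : ∀ s ∈ B, s ∈ T)
    (hB : ∀ s ∈ B, s⁻¹ ∈ B) (hne : ∀ s ∈ B, s ≠ s⁻¹) {x y : Γ} (hx : x ∈ B) (hy : y ∈ B)
    (hxr : rep x = x) (hyr : rep y = y) (hxy : y ≠ x) (hxy' : y ≠ x⁻¹)
    (hzx : HasZone X T x y) (hzy : HasZone X T y x)
    (hhub : ∀ c ∈ B, rep c = c → c ≠ x → c ≠ y → HasHub X T x y c) :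
    ∃ (R : ℕ) (d : X → ℕ) (δ : X → Γ) (ctr W V : Γ → ℕ) (FFx : X → Lt → Prop)
      (N : Γ → X → Lt → Prop), Radial T R d δ ∧ HubGlobal B x y T R d ctr W V FFx N := by
  have hch : ∀ a : Γ, ∃ (W V M : ℕ), a ∈ B → rep a = a →
      ∀ (R : ℕ) (d : X → ℕ) (δ : X → Γ), Radial T R d δ → ∀ m : ℕ, W < m → m + M ≤ R →
        ∃ FF N : X → Lt → Prop, AZone x y a d m W V FF N := by
    intro a
    by_cases ha : a ∈ B ∧ rep a = a
    · by_cases hax : a = x
      · subst hax
        obtain ⟨W, M, h⟩ := hzx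
        refine ⟨W, 0, M, fun _ _ R d δ hrad m h1 h2 => ?_⟩
        obtain ⟨FF, hFF⟩ := h R d δ hrad m h1 h2
        exact ⟨_, _, azone_x hxy hFF⟩
      · by_cases hay : a = y
        · subst hay
          obtain ⟨W, M, h⟩ := hzy
          refine ⟨W, 0, M, fun _ _ R d δ hrad m h1 h2 => ?_⟩
          obtain ⟨FF, hFF⟩ := h R d δ hrad m h1 h2
          exact ⟨_, _, azone_y hxy hFF⟩
        · obtain ⟨W, V, M, h⟩ := hhub a ha.1 ha.2 hax hay
          refine ⟨W, V, M, fun _ _ R d δ hrad m h1 h2 => ?_⟩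
          obtain ⟨FF, N, hFF⟩ := h R d δ hrad m h1 h2
          exact ⟨_, _, azone_c hax hay hFF⟩
    · exact ⟨0, 0, 0, fun h1 h2 => absurd ⟨h1, h2⟩ ha⟩
  choose W V M hWM using hch
  obtain ⟨W0, hW0⟩ : ∃ W0, ∀ a ∈ B, W a ≤ W0 :=
    ⟨∑ a ∈ B, W a, fun a ha => Finset.single_le_sum (fun _ _ => Nat.zero_le _) ha⟩
  obtain ⟨M0, hM0⟩ : ∃ M0, ∀ a ∈ B, M a ≤ M0 :=
    ⟨∑ a ∈ B, M a, fun a ha => Finset.single_le_sum (fun _ _ => Nat.zero_le _) ha⟩
  obtain ⟨idx, hidx, hinj⟩ : ∃ idx : Γ → ℕ, (∀ s ∈ B, idx s + 1 ≤ B.card) ∧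
      ∀ s ∈ B, ∀ t ∈ B, idx s = idx t → s = t := by
    refine ⟨fun s => if h : s ∈ B then (B.equivFin ⟨s, h⟩ : ℕ) else 0, ?_, ?_⟩
    · intro s hs
      simp only
      rw [dif_pos hs]
      exact (B.equivFin ⟨s, hs⟩).2
    · intro s hs t ht h
      simp only at h
      rw [dif_pos hs, dif_pos ht] at h
      exact congrArg Subtype.val (B.equivFin.injective (Fin.ext h))
  obtain ⟨q, hq⟩ : ∃ q, q = 2 * W0 + 3 := ⟨_, rfl⟩
  obtain ⟨ctr, hctr⟩ : ∃ ctr : Γ → ℕ, ∀ a, ctr a = (W0 + 1) + idx a * q := ⟨_, fun a => rfl⟩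
  obtain ⟨R, hR⟩ : ∃ R, R = (W0 + 1) + B.card * q + M0 := ⟨_, rfl⟩
  obtain ⟨d, δ, hrad⟩ := exists_radial hX hT1 hT hTfin hsep R
  have hctr1 : ∀ a ∈ B, W a < ctr a := by
    intro a ha
    have := hW0 a ha
    rw [hctr]
    have h2 := Nat.zero_le (idx a * q)
    omega
  have hctr3 : ∀ a ∈ B, ctr a + q ≤ (W0 + 1) + B.card * q := by
    intro a ha
    have h2 := Nat.mul_le_mul_right q (hidx a ha)
    rw [add_mul, one_mul] at h2
    rw [hctr]
    omega
  have hctr2 : ∀ a ∈ B, ctr a + M a ≤ R := by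
    intro a ha
    have := hM0 a ha
    have h2 := hctr3 a ha
    omega
  have hFFex : ∀ a : Γ, ∃ FF N : X → Lt → Prop,
      a ∈ B → rep a = a → AZone x y a d (ctr a) (W a) (V a) FF N := by
    intro a
    by_cases ha : a ∈ B ∧ rep a = a
    · obtain ⟨FF, N, hFF⟩ := hWM a ha.1 ha.2 R d δ hrad (ctr a) (hctr1 a ha.1) (hctr2 a ha.1)
      exact ⟨FF, N, fun _ _ => hFF⟩
    · exact ⟨fun _ _ => False, fun _ _ => False, fun h1 h2 => absurd ⟨h1, h2⟩ ha⟩
  choose FF N hFF using hFFex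
  have hdis : ∀ a ∈ B, ∀ a' ∈ B, ∀ x, exc d (ctr a) x ≤ W a → exc d (ctr a') x ≤ W a' + 1 →
      a = a' := by
    intro a ha a' ha' x h1 h2
    apply hinj a ha a' ha'
    by_contra hne'
    have h3 := hW0 a ha
    have h4 := hW0 a' ha'
    have h5 := hctr a
    have h6 := hctr a'
    unfold exc at h1 h2
    rcases lt_or_gt_of_ne hne' with h | h
    · have h7 := Nat.mul_le_mul_right q (Nat.succ_le_of_lt h)
      rw [Nat.succ_mul] at h7
      omega
    · have h7 := Nat.mul_le_mul_right q (Nat.succ_le_of_lt h)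
      rw [Nat.succ_mul] at h7
      omega
  let FFx : X → Lt → Prop := fun z l =>
    if h : ∃ a, a ∈ B ∧ rep a = a ∧ exc d (ctr a) z ≤ W a then FF h.choose z l else l.1 = false
  have K1 : ∀ a, a ∈ B → rep a = a → ∀ z, exc d (ctr a) z ≤ W a → ∀ l,
      (FFx z l ↔ FF a z l) := by
    intro a ha hra z hz l
    have h : ∃ a, a ∈ B ∧ rep a = a ∧ exc d (ctr a) z ≤ W a := ⟨a, ha, hra, hz⟩
    have e : a = h.choose := hdis a ha _ h.choose_spec.1 z hz
      (h.choose_spec.2.2.trans (Nat.le_succ _))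
    simp only [FFx]
    rw [dif_pos h, ← e]
  have K2 : ∀ z, (∀ a, a ∈ B → rep a = a → ¬ exc d (ctr a) z ≤ W a) → ∀ l,
      (FFx z l ↔ l.1 = false) := by
    intro z hz l
    simp only [FFx]
    rw [dif_neg]
    rintro ⟨a, ha, hra, h⟩
    exact hz a ha hra h
  have K4 : ∀ a, a ∈ B → rep a = a → ∀ z, ∀ t ∈ T, (exc d (ctr a) z ≤ W a ∨
      exc d (ctr a) (t • z) ≤ W a) → ∀ l, (FFx z l ↔ FF a z l) := by
    intro a ha hra z t ht hz l
    by_cases h : exc d (ctr a) z ≤ W a
    · exact K1 a ha hra z h l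
    · rw [(hFF a ha hra).out z l (not_le.mp h)]
      apply K2
      intro a' ha' hra' h'
      have h1 := (exc_step hrad hT (ctr a') ht z).1
      have h2 := hz.resolve_left h
      have := hdis a ha a' ha' (t • z) h2 (by omega)
      rw [this] at h
      exact h h'
  have hem : ∀ m k, MeasurableSet {y | exc d m y ≤ k} := by
    intro m k
    have : {y | exc d m y ≤ k} = ⋃ j : ℕ, {y | d y = j} ∩ {y | ((j : ℤ) - m).natAbs ≤ k} := by
      ext y
      simp only [mem_ofPred_eq, mem_iUnion, mem_inter_iff]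
      constructor
      · intro h
        exact ⟨d y, rfl, h⟩
      · rintro ⟨j, rfl, h⟩
        exact h
    rw [this]
    exact MeasurableSet.iUnion fun j => (hrad.dm j).inter (MeasurableSet.const _)
  have hcases : ∀ z, (∃ a, a ∈ B ∧ rep a = a ∧ exc d (ctr a) z ≤ W a) ∨
      (∀ a, a ∈ B → rep a = a → ¬ exc d (ctr a) z ≤ W a) := by
    intro z
    by_cases h : ∃ a, a ∈ B ∧ rep a = a ∧ exc d (ctr a) z ≤ W a
    · exact Or.inl h
    · push Not at h
      exact Or.inr fun a h1 h2 => not_le.mpr (h a h1 h2)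
  have hlT : ∀ l, lval (pr x y) l ∈ T := by
    rintro ⟨i, j⟩
    cases i <;> cases j <;> simp [lval, pr, hBT x hx, hBT y hy, hBT _ (hB x hx), hBT _ (hB y hy)]
  have hback : ∀ (z : X) (l : Lt), lval (pr x y) (linv l) • lval (pr x y) l • z = z :=
    fun z l => by rw [lval_linv, inv_smul_smul]
  have hsym : ∀ z l, FFx z l ↔ FFx (lval (pr x y) l • z) (linv l) := by
    intro z l
    by_cases h : ∃ a, a ∈ B ∧ rep a = a ∧
        (exc d (ctr a) z ≤ W a ∨ exc d (ctr a) (lval (pr x y) l • z) ≤ W a)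
    · obtain ⟨a, ha, hra, h⟩ := h
      rw [K4 a ha hra z _ (hlT l) h l, K4 a ha hra _ _ (hlT (linv l)) (by
        rw [hback]; exact h.symm) (linv l)]
      exact (hFF a ha hra).symm z l
    · push Not at h
      rw [K2 z (fun a ha hra => not_le.mpr (h a ha hra).1),
        K2 _ (fun a ha hra => not_le.mpr (h a ha hra).2)]
      rfl
  have hfinG : ∀ (E : X → Lt → Prop) (E' : X → Lt → Prop) (a : Γ), a ∈ B → rep a = a →
      (∀ z l, E z l → E (lval (pr x y) l • z) (linv l)) →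
      (∀ z, exc d (ctr a) z ≤ W a → ∀ l, E z l → E' z l) →
      (∀ z, d z = ctr a → {u | EConn (lval (pr x y)) E' z u}.Finite ∧
        ∀ u, EConn (lval (pr x y)) E' z u → exc d (ctr a) u ≤ W a) →
      ∀ z, {u | EConn (lval (pr x y)) E z u}.Finite := by
    intro E E' a ha hra hEs hEE hcore z
    by_cases h : ∃ u, EConn (lval (pr x y)) E z u ∧ d u = ctr a
    · obtain ⟨u, hzu, hu⟩ := h
      obtain ⟨h1, h2⟩ := hcore u hu
      refine h1.subset fun w hw => ?_
      have huz : EConn (lval (pr x y)) E u z := hzu.symm (fun l => lval_linv _ l) hEs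
      exact econn_transfer (fun w hw i hi => hEE w (h2 w hw) i hi) (huz.trans hw)
    · push Not at h
      have h1 := hctr1 a ha
      have h2 := hctr2 a ha
      exact side_finite hT hlT hrad (m := ctr a) (by omega) (by omega) h
  refine ⟨R, d, δ, ctr, W, V, FFx, N, hrad, ?_, hsym, ?_, ?_, ?_, hdis, ?_, ?_⟩
  · intro l
    have : {z | FFx z l} = (⋃ a : {a // a ∈ B ∧ rep a = a}, {z | exc d (ctr a) z ≤ W a} ∩
        {z | FF (a : Γ) z l}) ∪
        ((⋂ a : {a // a ∈ B ∧ rep a = a}, {z | exc d (ctr a) z ≤ W a}ᶜ) ∩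
          {z | l.1 = false}) := by
      ext z
      simp only [mem_ofPred_eq, mem_iUnion, mem_inter_iff, mem_union, mem_iInter, mem_compl_iff,
        Subtype.exists, Subtype.forall]
      constructor
      · intro h
        rcases hcases z with ⟨a, ha, hra, hz⟩ | hz
        · left
          refine ⟨a, ⟨ha, hra⟩, hz, ?_⟩
          rw [← K1 a ha hra z hz]
          exact h
        · right
          refine ⟨fun a ha => hz a ha.1 ha.2, ?_⟩
          rw [← K2 z hz]
          exact h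
      · rintro (⟨a, ⟨ha, hra⟩, hz, h⟩ | ⟨hz, h⟩)
        · rw [K1 a ha hra z hz]
          exact h
        · rw [K2 z (fun a ha hra => hz a ⟨ha, hra⟩)]
          exact h
    rw [this]
    exact MeasurableSet.union (MeasurableSet.iUnion fun a => (hem _ _).inter
      ((hFF a a.2.1 a.2.2).meas l))
      ((MeasurableSet.iInter fun a => (hem _ _).compl).inter (MeasurableSet.const _))
  · intro z
    rcases hcases z with ⟨a, ha, hra, hz⟩ | hz
    · have : {l | FFx z l} = {l | FF a z l} := by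
        ext l
        exact K1 a ha hra z hz l
      rw [this]
      exact (hFF a ha hra).two z
    · have : {l | FFx z l} = {((false, false) : Lt), ((false, true) : Lt)} := by
        ext ⟨i, j⟩
        simp only [mem_ofPred_eq]
        rw [K2 z hz]
        cases i <;> cases j <;> simp
      rw [this, Set.ncard_pair (by simp)]
  · exact hfinG FFx (FF x) x hx hxr (fun z l h => (hsym z l).mp h)
      (fun z hz l h => (K1 x hx hxr z hz l).mp h) ((hFF x hx hxr).cx rfl)
  · exact hfinG (fun z l => ¬ FFx z l) (fun z l => ¬ FF y z l) y hy hyr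
      (fun z l h h' => h ((hsym z l).mpr h'))
      (fun z hz l h h' => h ((K1 y hy hyr z hz l).mpr h')) ((hFF y hy hyr).cy rfl)
  · intro a ha
    have h1 := hctr1 a ha
    have h2 := hctr2 a ha
    omega
  · intro a ha hra hax hay
    exact ⟨FF a, (hFF a ha hra).hub hax hay, K1 a ha hra⟩

end Run7.h916
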