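import Pool.Agent.Run7.h916.HubAssemble

set_option autoImplicit false
set_option linter.unusedSectionVars false
set_option linter.unusedVariables false

/-!
Hub blocks can be coloured.
-/

namespace Run7.h916

open Set Relation
open scoped Pointwise

universe u v w

variable {Γ : Type u} [Group Γ] {X : Type v} [MulAction Γ X]

open Classical in
theorem exists_names [MeasurableSpace X] [StandardBorelSpace X] [Countable Γ]
    (hX : IsFreeBorel Γ X) {T : Set Γ} (hT : ∀ m ∈ T, m⁻¹ ∈ T) {B : Finset Γ}
    (hBT : ∀ s ∈ B, s ∈ T) (hB : ∀ s ∈ B, s⁻¹ ∈ B) (hne : ∀ s ∈ B, s ≠ s⁻¹) {x y : Γ}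
    (hx : x ∈ B) (hy : y ∈ B) (hxr : rep x = x) (hyr : rep y = y) (hxy : y ≠ x)
    (hxy' : y ≠ x⁻¹) {R : ℕ} {d : X → ℕ} {δ : X → Γ} {ctr W V : Γ → ℕ} {FFx : X → Lt → Prop}
    {N : Γ → X → Lt → Prop} (hrad : Radial T R d δ)
    (hG : HubGlobal B x y T R d ctr W V FFx N) (hpxy : ParOK X x y)
    (hpc : ∀ c ∈ B, rep c = c → c ≠ x → c ≠ y → ParOK X c y) :
    ∃ nm, Names B {x, x⁻¹} X nm := by
  have hxne := hne x hx
  have hyne := hne y hy
  have hinj := lval_pr_inj hxne hyne hxy hxy'
  have hlB : ∀ l, lval (pr x y) l ∈ B := by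
    rintro ⟨i, j⟩
    cases i <;> cases j <;> simp [lval, pr, hx, hy, hB x hx, hB y hy]
  -- the leaves
  set Lf : Γ → Prop := fun c => c ∈ B ∧ rep c = c ∧ c ≠ x ∧ c ≠ y with hLf
  have hLx : ∀ c, Lf c → c ≠ x⁻¹ := by
    rintro c ⟨_, h2, h3, _⟩ rfl
    rw [rep_inv, hxr] at h2
    exact hxne h2
  have hLy : ∀ c, Lf c → c ≠ y⁻¹ := by
    rintro c ⟨_, h2, _, h3⟩ rfl
    rw [rep_inv, hyr] at h2
    exact hyne h2
  have hLinj : ∀ c, Lf c → Function.Injective (lval (pr c y)) := by
    intro c hc
    refine lval_pr_inj (hne c hc.1) hyne (fun h => hc.2.2.2 h.symm) (fun h => hLy c hc ?_)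
    rw [h, inv_inv]
  have hLlB : ∀ c, Lf c → ∀ l, lval (pr c y) l ∈ B := by
    rintro c hc ⟨i, j⟩
    cases i <;> cases j <;> simp [lval, pr, hc.1, hy, hB c hc.1, hB y hy]
  -- letters of a leaf
  have hLnot : ∀ c, Lf c → ∀ l, l.1 = false → ∀ l', lval (pr c y) l ≠ lval (pr x y) l' := by
    intro c hc l hl l' h
    have h1 : lval (pr x y) l' = x ∨ lval (pr x y) l' = x⁻¹ ∨ lval (pr x y) l' = y ∨
        lval (pr x y) l' = y⁻¹ := by
      by_cases h2 : l'.1 = false
      · rcases lval_false (a := x) (b := y) h2 with h3 | h3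
        · exact Or.inl h3
        · exact Or.inr (Or.inl h3)
      · simp only [Bool.not_eq_false] at h2
        rcases lval_true' (a := x) (b := y) h2 with h3 | h3
        · exact Or.inr (Or.inr (Or.inl h3))
        · exact Or.inr (Or.inr (Or.inr h3))
    rw [← h] at h1
    rcases lval_false (a := c) (b := y) hl with h2 | h2 <;> rw [h2] at h1
    · rcases h1 with h3 | h3 | h3 | h3
      · exact hc.2.2.1 h3
      · exact hLx c hc h3
      · exact hc.2.2.2 h3
      · exact hLy c hc h3
    · rcases h1 with h3 | h3 | h3 | h3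
      · exact hLx c hc (by rw [← h3, inv_inv])
      · exact hc.2.2.1 (inv_injective h3)
      · exact hLy c hc (by rw [← h3, inv_inv])
      · exact hc.2.2.2 (inv_injective h3)
  -- the data of the leaves
  have hhub : ∀ c, Lf c → ∃ FF : X → Lt → Prop,
      HubZone x y c d (ctr c) (W c) (V c) FF (N c) ∧
      ∀ z, exc d (ctr c) z ≤ W c → ∀ l, (FFx z l ↔ FF z l) :=
    fun c hc => hG.hub c hc.1 hc.2.1 hc.2.2.1 hc.2.2.2
  have hVW : ∀ c, Lf c → V c + 1 ≤ W c := fun c hc => (hhub c hc).choose_spec.1.VW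
  -- the named components
  let Z : X → Prop := fun z => ∃ u, EConn (lval (pr x y)) FFx z u ∧
    ∃ c, Lf c ∧ exc d (ctr c) u ≤ V c + 1
  have hFs : ∀ z l, FFx z l → FFx (lval (pr x y) l • z) (linv l) := fun z l h =>
    (hG.symm z l).mp h
  have hZsub : ∀ z u, EConn (lval (pr x y)) FFx z u → Z u → Z z := by
    rintro z u h ⟨w, h1, h2⟩
    exact ⟨w, h.trans h1, h2⟩
  have hZstep : ∀ z l, FFx z l → (Z (lval (pr x y) l • z) ↔ Z z) := by
    intro z l h
    have h1 : EConn (lval (pr x y)) FFx z (lval (pr x y) l • z) :=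
      ReflTransGen.single ⟨l, h, rfl⟩
    exact ⟨hZsub _ _ h1, hZsub _ _ (h1.symm (fun l => lval_linv _ l) hFs)⟩
  have hem : ∀ m k, MeasurableSet {y | exc d m y ≤ k} := by
    intro m k
    have : {y | exc d m y ≤ k} = ⋃ j : ℕ, {y | d y = j} ∩ {y | ((j : ℤ) - m).natAbs ≤ k} := by
      ext y
      simp only [mem_ofPred_eq, mem_iUnion, mem_inter_iff]
      constructor
      · intro h
        exact ⟨d y, rfl, h⟩
      · rintro ⟨j, rfl, h⟩
        exact h
    rw [this]
    exact MeasurableSet.iUnion fun j => (hrad.dm j).inter (MeasurableSet.const _)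
  have hZm : MeasurableSet {z | Z z} := by
    have : {z | Z z} = ⋃ γ : Γ, {z | EConn (lval (pr x y)) FFx z (γ • z)} ∩
        (fun z => γ • z) ⁻¹' (⋃ c : Γ, {u | Lf c} ∩ {u | exc d (ctr c) u ≤ V c + 1}) := by
      ext z
      simp only [Z, mem_ofPred_eq, mem_iUnion, mem_inter_iff, mem_preimage]
      constructor
      · rintro ⟨u, h1, h2⟩
        obtain ⟨γ, rfl⟩ := h1.exists_smul
        exact ⟨γ, h1, h2⟩
      · rintro ⟨γ, h1, h2⟩
        exact ⟨γ • z, h1, h2⟩
    rw [this]
    exact MeasurableSet.iUnion fun γ => (measurable_econn hX.measurable_smul hX.free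
      (lval (pr x y)) hG.meas γ).inter ((hX.measurable_smul γ)
      (MeasurableSet.iUnion fun c => (MeasurableSet.const _).inter (hem _ _)))
  have hZmat : ∀ z, Z z → {l | FFx z l ∧ l.1 = false}.ncard = 1 := by
    rintro z ⟨u, hzu, c, hc, hu⟩
    obtain ⟨FF, hz, hFF⟩ := hhub c hc
    have huz : EConn (lval (pr x y)) FFx u z := hzu.symm (fun l => lval_linv _ l) hFs
    have h1 : EConn (lval (pr x y)) FF u z := econn_transfer (fun w hw i hi =>
      (hFF w (hz.mat u hu w hw).1 i).mp hi) huz
    obtain ⟨h2, h3⟩ := hz.mat u hu z h1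
    rw [← h3]
    congr 1
    ext l
    simp only [mem_ofPred_eq]
    rw [hFF z h2]
  -- the matching of the main leaf
  let Eα : X → Lt → Prop := fun z l => FFx z l ∧ (Z z → l.1 = false)
  have hEαs : ∀ z l, Eα z l → Eα (lval (pr x y) l • z) (linv l) := by
    rintro z l ⟨h1, h2⟩
    refine ⟨hFs z l h1, fun h3 => ?_⟩
    exact h2 ((hZstep z l h1).mp h3)
  obtain ⟨α, hαm, hαE, hαs, hα1⟩ := borel_round hX.measurable_smul hX.free
    (val := lval (pr x y)) (inv := linv) (fun l => lval_linv _ l) (fun l => linv_linv l)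
    (E := Eα) (fun l => by
      have : {z | Eα z l} = {z | FFx z l} ∩ ({z | Z z}ᶜ ∪ {z | l.1 = false}) := by
        ext z
        simp only [Eα, mem_ofPred_eq, mem_inter_iff, mem_union, mem_compl_iff]
        by_cases hz : Z z
        · simp only [hz, true_implies, not_true_eq_false, false_or]
        · simp only [hz, false_implies, not_false_eq_true, true_or]
      rw [this]
      exact (hG.meas l).inter (hZm.compl.union (MeasurableSet.const _))) hEαs
    (fun z => (hG.fin z).subset fun u hu => econn_transfer (fun w _ i hi => hi.1) hu)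
    (fun _ => 1) (fun k => MeasurableSet.const _) (fun o => by
      obtain ⟨par, hp⟩ := hpxy o
      refine ⟨fun z l => if Eα z l then (if Z z then 1 else 1 / 2) else 0, par,
        ?_, ?_, ?_, ?_, ?_, ?_⟩
      · intro z l _
        simp only
        split_ifs <;> norm_num
      · intro z l _
        simp only
        split_ifs <;> norm_num
      · intro z l _ hl
        simp only
        rw [if_pos hl, if_pos (hEαs z l hl)]
        simp only [hZstep z l hl.1]
      · intro z l _ hl
        simp only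
        rw [if_neg hl]
      · intro z _
        by_cases hz : Z z
        · have h1 : ∀ l, (if Eα z l then (if Z z then (1 : ℝ) else 1 / 2) else 0) =
              if FFx z l ∧ l.1 = false then 1 else 0 := by
            intro l
            simp only [Eα, hz, true_implies, if_true]
          simp only [h1]
          rw [← Finset.sum_filter, Finset.sum_const, nsmul_eq_mul, mul_one]
          have h2 : (Finset.univ.filter (fun l => FFx z l ∧ l.1 = false)).card = 1 := by
            rw [← hZmat z hz, Set.ncard_eq_toFinset_card']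
            congr 1
            ext l
            simp
          rw [h2]
        · have h1 : ∀ l, (if Eα z l then (if Z z then (1 : ℝ) else 1 / 2) else 0) =
              if FFx z l then 1 / 2 else 0 := by
            intro l
            simp only [Eα, hz, false_implies, and_true, if_false]
          simp only [h1]
          rw [← Finset.sum_filter, Finset.sum_const, nsmul_eq_mul]
          have h2 : (Finset.univ.filter (fun l => FFx z l)).card = 2 := by
            rw [← hG.two z, Set.ncard_eq_toFinset_card']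
            congr 1
            ext l
            simp
          rw [h2]
          norm_num
      · intro z l hz _
        exact hp z hz.exists_smul l)
  have hαF : ∀ z l, α z l → FFx z l := fun z l h => (hαE z l h).1
  have hαZ : ∀ z, Z z → ∀ l, (α z l ↔ FFx z l ∧ l.1 = false) := by
    intro z hz l
    have h1 : {l | α z l} = {l | FFx z l ∧ l.1 = false} := by
      refine Set.eq_of_subset_of_ncard_le ?_ ?_ (Set.toFinite _)
      · intro l hl
        have h2 := hαE z l hl
        exact ⟨h2.1, h2.2 hz⟩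
      · rw [hZmat z hz, hα1 z]
    have h2 := Set.ext_iff.mp h1 l
    exact h2
  -- the nested zones
  let nst : Γ → X → Prop := fun c z => Lf c ∧ exc d (ctr c) z ≤ V c
  have hnst_uniq : ∀ c c' z, nst c z → nst c' z → c = c' := by
    rintro c c' z ⟨h1, h2⟩ ⟨h3, h4⟩
    have h5 := hVW c h1
    have h6 := hVW c' h3
    exact hG.dis c h1.1 c' h3.1 z (by omega) (by omega)
  have hnst_near : ∀ c z c', Lf c → exc d (ctr c) z ≤ V c + 1 → nst c' z → c' = c := by
    rintro c z c' h1 h2 ⟨h3, h4⟩
    have h5 := hVW c h1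
    have h6 := hVW c' h3
    exact hG.dis c' h3.1 c h1.1 z (by omega) (by omega)
  have hZn : ∀ c z, Lf c → exc d (ctr c) z ≤ V c + 1 → Z z := fun c z h1 h2 =>
    ⟨z, ReflTransGen.refl, c, h1, h2⟩
  let A : X → Γ → Prop := fun z s => ∃ l, lval (pr x y) l = s ∧ α z l
  let Y : X → Γ → Prop := fun z s => ∃ l, lval (pr x y) l = s ∧ ¬ FFx z l
  let β : X → Γ → Prop := fun z s => (∃ c, nst c z ∧ ∃ l, lval (pr c y) l = s ∧ N c z l) ∨
    ((¬ ∃ c, nst c z) ∧ ∃ l, lval (pr x y) l = s ∧ FFx z l ∧ ¬ α z l)
  let hc : X → Γ := fun z => if h : ∃ c, nst c z then h.choose else 1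
  have hhc : ∀ c z, nst c z → hc z = c := by
    intro c z h
    have h1 : ∃ c, nst c z := ⟨c, h⟩
    simp only [hc]
    rw [dif_pos h1]
    exact hnst_uniq _ _ z h1.choose_spec h
  have hβ1 : ∀ c z, Lf c → exc d (ctr c) z ≤ V c + 1 → ∀ s,
      (β z s ↔ ∃ l, lval (pr c y) l = s ∧ N c z l) := by
    intro c z hcL hz s
    by_cases hn : nst c z
    · constructor
      · rintro (⟨c', h1, h2⟩ | ⟨h1, _⟩)
        · rw [hnst_uniq c c' z hn h1]
          exact h2
        · exact absurd ⟨c, hn⟩ h1
      · intro h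
        exact Or.inl ⟨c, hn, h⟩
    · have hno : ¬ ∃ c, nst c z := by
        rintro ⟨c', h⟩
        rw [hnst_near c z c' hcL hz h] at h
        exact hn h
      have hz' : exc d (ctr c) z = V c + 1 := by
        have : ¬ exc d (ctr c) z ≤ V c := fun h => hn ⟨hcL, h⟩
        omega
      obtain ⟨FF, hzone, hFF⟩ := hhub c hcL
      have h5 := hVW c hcL
      have hkey : ∀ l, (N c z l ↔ l.1 = true ∧ FFx z l) := by
        intro l
        rw [hzone.Nout z l hz', hFF z (by omega) l]
      have hkey2 : ∀ l, (FFx z l ∧ ¬ α z l ↔ l.1 = true ∧ FFx z l) := by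
        intro l
        rw [hαZ z (hZn c z hcL hz)]
        cases l.1 <;> simp
      constructor
      · rintro (⟨c', h1, _⟩ | ⟨_, l, h1, h2⟩)
        · exact absurd ⟨c', h1⟩ hno
        · have h3 := (hkey2 l).mp h2
          refine ⟨l, ?_, (hkey l).mpr h3⟩
          rw [lval_true (c := x) h3.1]
          exact h1
      · rintro ⟨l, h1, h2⟩
        have h3 := (hkey l).mp h2
        refine Or.inr ⟨hno, l, ?_, (hkey2 l).mpr h3⟩
        rw [← lval_true (a := c) h3.1]
        exact h1
  have hβ2 : ∀ z, (¬ ∃ c, nst c z) → ∀ s,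
      (β z s ↔ ∃ l, lval (pr x y) l = s ∧ FFx z l ∧ ¬ α z l) := by
    intro z hz s
    constructor
    · rintro (⟨c, h, _⟩ | ⟨_, h⟩)
      · exact absurd ⟨c, h⟩ hz
      · exact h
    · intro h
      exact Or.inr ⟨hz, h⟩
  -- symmetry
  have hexc : ∀ (a s : Γ) (z : X), s ∈ T → exc d (ctr a) (s • z) ≤ exc d (ctr a) z + 1 ∧
      exc d (ctr a) z ≤ exc d (ctr a) (s • z) + 1 := by
    intro a s z hs
    have := exc_step hrad hT (ctr a) hs z
    exact ⟨this.1, this.2.1⟩
  have hAs : ∀ z s, A (s • z) s⁻¹ ↔ A z s := by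
    intro z s
    refine sym_exists fun l hl => ?_
    rw [← hl]
    exact hαs z l
  have hYs : ∀ z s, Y (s • z) s⁻¹ ↔ Y z s := by
    intro z s
    refine sym_exists (P := fun z l => ¬ FFx z l) fun l hl => ?_
    rw [← hl]
    exact not_congr (hG.symm z l)
  have hβs : ∀ z s, s ∈ T → (β (s • z) s⁻¹ ↔ β z s) := by
    intro z s hs
    by_cases h : ∃ c, nst c z ∨ nst c (s • z)
    · obtain ⟨c, h⟩ := h
      have hcL : Lf c := by
        rcases h with h | h
        · exact h.1
        · exact h.1
      have h1 := hexc c s z hs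
      have h2 : exc d (ctr c) z ≤ V c + 1 ∧ exc d (ctr c) (s • z) ≤ V c + 1 := by
        rcases h with h | h
        · have := h.2
          omega
        · have := h.2
          omega
      rw [hβ1 c z hcL h2.1, hβ1 c _ hcL h2.2]
      obtain ⟨FF, hzone, hFF⟩ := hhub c hcL
      refine sym_exists fun l hl => ?_
      rw [← hl]
      exact hzone.Nsymm z l h2.1
    · push Not at h
      rw [hβ2 z (fun ⟨c, h'⟩ => (h c).1 h'), hβ2 (s • z) (fun ⟨c, h'⟩ => (h c).2 h')]
      refine sym_exists (P := fun z l => FFx z l ∧ ¬ α z l) fun l hl => ?_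
      rw [← hl, ← hG.symm z l, ← hαs z l]
  -- resolution
  have hR1 : ∀ z s, (s = x ∨ s = x⁻¹) → A z s ∨ β z s ∨ Y z s := by
    intro z s hs
    obtain ⟨l, hl, hls⟩ : ∃ l : Lt, l.1 = false ∧ lval (pr x y) l = s := by
      rcases hs with rfl | rfl
      · exact ⟨(false, false), rfl, by simp [lval, pr]⟩
      · exact ⟨(false, true), rfl, by simp [lval, pr]⟩
    by_cases hF : FFx z l
    · by_cases ha : α z l
      · exact Or.inl ⟨l, hls, ha⟩
      · right; left
        have hnZ : ¬ Z z := fun hZ => ha ((hαZ z hZ l).mpr ⟨hF, hl⟩)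
        rw [hβ2 z (fun ⟨c, h⟩ => hnZ (hZn c z h.1 (by have := h.2; omega)))]
        exact ⟨l, hls, hF, ha⟩
    · exact Or.inr (Or.inr ⟨l, hls, hF⟩)
  have hR2 : ∀ z s, (s = y ∨ s = y⁻¹) → ¬ A z s → ¬ β z s → ¬ Y z s →
      ∃ c, nst c z ∧ ∃ l, l.1 = true ∧ lval (pr x y) l = s ∧ FFx z l := by
    intro z s hs h1 h2 h3
    obtain ⟨l, hl, hls⟩ : ∃ l : Lt, l.1 = true ∧ lval (pr x y) l = s := by
      rcases hs with rfl | rfl
      · exact ⟨(true, false), rfl, by simp [lval, pr]⟩
      · exact ⟨(true, true), rfl, by simp [lval, pr]⟩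
    have hF : FFx z l := by
      by_contra h
      exact h3 ⟨l, hls, h⟩
    have ha : ¬ α z l := fun h => h1 ⟨l, hls, h⟩
    by_contra hn
    have hno : ¬ ∃ c, nst c z := by
      rintro ⟨c, hcz⟩
      exact hn ⟨c, hcz, l, hl, hls, hF⟩
    exact h2 ((hβ2 z hno s).mpr ⟨l, hls, hF, ha⟩)
  have hNsub : ∀ c z, nst c z → ∀ l, N c z l → l.1 = false ∨ FFx z l := by
    intro c z h l hl
    obtain ⟨FF, hzone, hFF⟩ := hhub c h.1
    have h5 := hVW c h.1
    have h6 := h.2
    rw [hFF z (by omega) l]
    exact hzone.Nsub z l (by omega) hl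
  have hD1 : ∀ z s, A z s → ¬ β z s := by
    rintro z s ⟨l, hls, hl⟩ (⟨c, h1, l', h2, h3⟩ | ⟨_, l', h2, h3, h4⟩)
    · have hl1 := ((hαZ z (hZn c z h1.1 (by have := h1.2; omega)) l).mp hl).2
      by_cases h5 : l'.1 = false
      · exact hLnot c h1.1 l' h5 l (by rw [h2, hls])
      · simp only [Bool.not_eq_false] at h5
        rw [lval_true (c := x) h5] at h2
        have := hinj (h2.trans hls.symm)
        rw [this, hl1] at h5
        exact absurd h5 (by decide)
    · rw [hinj (h2.trans hls.symm)] at h4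
      exact h4 hl
  have hD2 : ∀ z s, A z s → ¬ Y z s := by
    rintro z s ⟨l, hls, hl⟩ ⟨l', h2, h3⟩
    rw [hinj (h2.trans hls.symm)] at h3
    exact h3 (hαF z l hl)
  have hD3 : ∀ z s, β z s → ¬ Y z s := by
    rintro z s (⟨c, h1, l', h2, h3⟩ | ⟨_, l', h2, h3, h4⟩) ⟨l, hls, hl⟩
    · rcases hNsub c z h1 l' h3 with h5 | h5
      · exact hLnot c h1.1 l' h5 l (by rw [h2, hls])
      · by_cases h6 : l'.1 = false
        · exact hLnot c h1.1 l' h6 l (by rw [h2, hls])
        · simp only [Bool.not_eq_false] at h6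
          rw [lval_true (c := x) h6] at h2
          rw [hinj (h2.trans hls.symm)] at h5
          exact hl h5
    · rw [hinj (h2.trans hls.symm)] at h3
      exact hl h3
  -- the names
  let nm : X → Γ → Γ := fun z s => if A z s then x else if β z s then x⁻¹ else
    if Y z s then y else if s = y ∨ s = y⁻¹ then hc z else rep s
  have hnA : ∀ z s, A z s → nm z s = x := fun z s h => by
    simp only [nm]; rw [if_pos h]
  have hnβ : ∀ z s, β z s → nm z s = x⁻¹ := fun z s h => by
    simp only [nm]; rw [if_neg (fun h' => hD1 z s h' h), if_pos h]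
  have hnY : ∀ z s, Y z s → nm z s = y := fun z s h => by
    simp only [nm]; rw [if_neg (fun h' => hD2 z s h' h), if_neg (fun h' => hD3 z s h' h), if_pos h]
  have hn4 : ∀ z s, ¬ A z s → ¬ β z s → ¬ Y z s → (s = y ∨ s = y⁻¹) →
      ∃ c, nst c z ∧ nm z s = c ∧ ∃ l, l.1 = true ∧ lval (pr x y) l = s ∧ FFx z l := by
    intro z s h1 h2 h3 h4
    obtain ⟨c, h5, h6⟩ := hR2 z s h4 h1 h2 h3
    refine ⟨c, h5, ?_, h6⟩
    simp only [nm]
    rw [if_neg h1, if_neg h2, if_neg h3, if_pos h4]
    exact hhc c z h5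
  have hn5 : ∀ z s, ¬ A z s → ¬ β z s → ¬ Y z s → ¬ (s = y ∨ s = y⁻¹) →
      nm z s = rep s ∧ rep s ≠ x ∧ rep s ≠ y := by
    intro z s h1 h2 h3 h4
    refine ⟨?_, ?_, ?_⟩
    · simp only [nm]
      rw [if_neg h1, if_neg h2, if_neg h3, if_neg h4]
    · intro h5
      have h6 : s = x ∨ s = x⁻¹ := by
        rcases rep_eq s with h | h
        · left; rw [← h, h5]
        · right; rw [← h5, h, inv_inv]
      rcases hR1 z s h6 with h | h | h
      · exact h1 h
      · exact h2 h
      · exact h3 h
    · intro h5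
      apply h4
      rcases rep_eq s with h | h
      · left; rw [← h, h5]
      · right; rw [← h5, h, inv_inv]
  have hrB : ∀ s ∈ B, rep s ∈ B := by
    intro s hs
    rcases rep_eq s with h | h
    · rw [h]; exact hs
    · rw [h]; exact hB s hs
  have hxx : x⁻¹ ≠ x := fun h => hxne h.symm
  -- characterisation of the names
  have hcx : ∀ z, ∀ s ∈ B, (nm z s = x ↔ A z s) := by
    intro z s hs
    constructor
    · intro h
      by_contra h1
      by_cases h2 : β z s
      · rw [hnβ z s h2] at h
        exact hxx h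
      by_cases h3 : Y z s
      · rw [hnY z s h3] at h
        exact hxy h
      by_cases h4 : s = y ∨ s = y⁻¹
      · obtain ⟨c, h5, h6, _⟩ := hn4 z s h1 h2 h3 h4
        rw [h6] at h
        exact h5.1.2.2.1 h
      · obtain ⟨h5, h6, _⟩ := hn5 z s h1 h2 h3 h4
        rw [h5] at h
        exact h6 h
    · exact hnA z s
  have hcx' : ∀ z, ∀ s ∈ B, (nm z s = x⁻¹ ↔ β z s) := by
    intro z s hs
    constructor
    · intro h
      by_contra h2
      by_cases h1 : A z s
      · rw [hnA z s h1] at h
        exact hxne h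
      by_cases h3 : Y z s
      · rw [hnY z s h3] at h
        exact hxy' h
      by_cases h4 : s = y ∨ s = y⁻¹
      · obtain ⟨c, h5, h6, _⟩ := hn4 z s h1 h2 h3 h4
        rw [h6] at h
        exact hLx c h5.1 h
      · obtain ⟨h5, h6, _⟩ := hn5 z s h1 h2 h3 h4
        rw [h5] at h
        have h7 := rep_rep s
        rw [h, rep_inv, hxr] at h7
        exact hxne h7
    · exact hnβ z s
  have hcy : ∀ z, ∀ s ∈ B, (nm z s = y ↔ Y z s) := by
    intro z s hs
    constructor
    · intro h
      by_contra h3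
      by_cases h1 : A z s
      · rw [hnA z s h1] at h
        exact hxy h.symm
      by_cases h2 : β z s
      · rw [hnβ z s h2] at h
        exact hxy' h.symm
      by_cases h4 : s = y ∨ s = y⁻¹
      · obtain ⟨c, h5, h6, _⟩ := hn4 z s h1 h2 h3 h4
        rw [h6] at h
        exact h5.1.2.2.2 h
      · obtain ⟨h5, _, h6⟩ := hn5 z s h1 h2 h3 h4
        rw [h5] at h
        exact h6 h
    · exact hnY z s
  have hcL1 : ∀ c z, nst c z → ∀ s ∈ B, (nm z s = c ↔
      ∃ l, lval (pr c y) l = s ∧ ((l.1 = false ∨ FFx z l) ∧ ¬ N c z l)) := by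
    intro c z hcz s hs
    have hcL := hcz.1
    have hβc := hβ1 c z hcL (by have := hcz.2; omega) s
    constructor
    · intro h
      have h1 : ¬ A z s := fun h1 => by
        rw [hnA z s h1] at h
        exact hcL.2.2.1 h.symm
      have h2 : ¬ β z s := fun h2 => by
        rw [hnβ z s h2] at h
        exact hLx c hcL h.symm
      have h3 : ¬ Y z s := fun h3 => by
        rw [hnY z s h3] at h
        exact hcL.2.2.2 h.symm
      by_cases h4 : s = y ∨ s = y⁻¹
      · obtain ⟨_, _, _, l, h5, h6, h7⟩ := hn4 z s h1 h2 h3 h4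
        have h8 : lval (pr c y) l = s := by
          rw [lval_true (c := x) h5]; exact h6
        refine ⟨l, h8, Or.inr h7, fun h9 => h2 (hβc.mpr ⟨l, h8, h9⟩)⟩
      · obtain ⟨h5, _, _⟩ := hn5 z s h1 h2 h3 h4
        rw [h5] at h
        obtain ⟨l, h6, h7⟩ : ∃ l : Lt, l.1 = false ∧ lval (pr c y) l = s := by
          rcases rep_eq s with h8 | h8
          · exact ⟨(false, false), rfl, by simp [lval, pr, ← h, h8]⟩
          · exact ⟨(false, true), rfl, by simp [lval, pr, ← h, h8]⟩
        exact ⟨l, h7, Or.inl h6, fun h9 => h2 (hβc.mpr ⟨l, h7, h9⟩)⟩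
    · rintro ⟨l, hls, h5, h6⟩
      have h2 : ¬ β z s := by
        rw [hβc]
        rintro ⟨l', h7, h8⟩
        rw [hLinj c hcL (h7.trans hls.symm)] at h8
        exact h6 h8
      by_cases hl : l.1 = false
      · have h1 : ¬ A z s := by
          rintro ⟨l', h7, _⟩
          exact hLnot c hcL l hl l' (by rw [hls, h7])
        have h3 : ¬ Y z s := by
          rintro ⟨l', h7, _⟩
          exact hLnot c hcL l hl l' (by rw [hls, h7])
        have h4 : ¬ (s = y ∨ s = y⁻¹) := by
          rintro (h7 | h7)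
          · exact hLnot c hcL l hl (true, false) (by rw [hls, h7]; simp [lval, pr])
          · exact hLnot c hcL l hl (true, true) (by rw [hls, h7]; simp [lval, pr])
        rw [(hn5 z s h1 h2 h3 h4).1]
        rcases lval_false (a := c) (b := y) hl with h7 | h7
        · rw [← hls, h7]; exact hcL.2.1
        · rw [← hls, h7, rep_inv]; exact hcL.2.1
      · simp only [Bool.not_eq_false] at hl
        have h7 : FFx z l := h5.resolve_left (by rw [hl]; decide)
        have hls' : lval (pr x y) l = s := by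
          rw [← lval_true (a := c) hl]; exact hls
        have h1 : ¬ A z s := by
          rintro ⟨l', h8, h9⟩
          rw [hinj (h8.trans hls'.symm)] at h9
          have h10 := ((hαZ z (hZn c z hcL (by have := hcz.2; omega)) l).mp h9).2
          rw [hl] at h10
          exact absurd h10 (by decide)
        have h3 : ¬ Y z s := by
          rintro ⟨l', h8, h9⟩
          rw [hinj (h8.trans hls'.symm)] at h9
          exact h9 h7
        have h4 : s = y ∨ s = y⁻¹ := by
          rw [← hls]
          exact lval_true' hl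
        obtain ⟨c', h8, h9, _⟩ := hn4 z s h1 h2 h3 h4
        rw [h9]
        exact hnst_uniq c' c z h8 hcz
  have hcL2 : ∀ c z, Lf c → ¬ nst c z → ∀ s ∈ B, (nm z s = c ↔ s = c ∨ s = c⁻¹) := by
    intro c z hcL hcz s hs
    constructor
    · intro h
      have h1 : ¬ A z s := fun h1 => by
        rw [hnA z s h1] at h
        exact hcL.2.2.1 h.symm
      have h2 : ¬ β z s := fun h2 => by
        rw [hnβ z s h2] at h
        exact hLx c hcL h.symm
      have h3 : ¬ Y z s := fun h3 => by
        rw [hnY z s h3] at h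
        exact hcL.2.2.2 h.symm
      by_cases h4 : s = y ∨ s = y⁻¹
      · obtain ⟨c', h5, h6, _⟩ := hn4 z s h1 h2 h3 h4
        rw [h6] at h
        rw [h] at h5
        exact absurd h5 hcz
      · obtain ⟨h5, _, _⟩ := hn5 z s h1 h2 h3 h4
        rw [h5] at h
        rcases rep_eq s with h8 | h8
        · left; rw [← h8, h]
        · right; rw [← h, h8, inv_inv]
    · intro h
      obtain ⟨l, hl, hls⟩ : ∃ l : Lt, l.1 = false ∧ lval (pr c y) l = s := by
        rcases h with rfl | rfl
        · exact ⟨(false, false), rfl, by simp [lval, pr]⟩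
        · exact ⟨(false, true), rfl, by simp [lval, pr]⟩
      have h1 : ¬ A z s := by
        rintro ⟨l', h7, _⟩
        exact hLnot c hcL l hl l' (by rw [hls, h7])
      have h3 : ¬ Y z s := by
        rintro ⟨l', h7, _⟩
        exact hLnot c hcL l hl l' (by rw [hls, h7])
      have h4 : ¬ (s = y ∨ s = y⁻¹) := by
        rintro (h7 | h7)
        · exact hLnot c hcL l hl (true, false) (by rw [hls, h7]; simp [lval, pr])
        · exact hLnot c hcL l hl (true, true) (by rw [hls, h7]; simp [lval, pr])
      have h2 : ¬ β z s := by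
        rintro (⟨c', h5, l', h6, h7⟩ | ⟨_, l', h6, _⟩)
        · by_cases h8 : l'.1 = false
          · have h9 : c' = c := by
              rcases lval_false (a := c') (b := y) h8 with h10 | h10 <;> rw [h6] at h10 <;>
                rcases h with h11 | h11
              · rw [← h10, h11]
              · have h12 : c' = c⁻¹ := by rw [← h10, h11]
                have h13 := h5.1.2.1
                rw [h12, rep_inv, hcL.2.1] at h13
                exact absurd h13 (hne c hcL.1)
              · have h12 : c'⁻¹ = c := by rw [← h10, h11]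
                have h13 := hcL.2.1
                rw [← h12, rep_inv, h5.1.2.1] at h13
                exact absurd h13 (hne c' h5.1.1)
              · exact inv_injective (by rw [← h10, h11])
            rw [h9] at h5
            exact hcz h5
          · simp only [Bool.not_eq_false] at h8
            rw [lval_true (c := x) h8] at h6
            exact hLnot c hcL l hl l' (by rw [hls, h6])
        · exact hLnot c hcL l hl l' (by rw [hls, h6])
      rw [(hn5 z s h1 h2 h3 h4).1]
      rcases h with rfl | rfl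
      · exact hcL.2.1
      · rw [rep_inv]; exact hcL.2.1
  have hYm : ∀ s, MeasurableSet {z | Y z s} := by
    intro s
    have : {z | Y z s} = ⋃ l : Lt, {z | lval (pr x y) l = s} ∩ {z | FFx z l}ᶜ := by
      ext z
      simp only [Y, mem_ofPred_eq, mem_iUnion, mem_inter_iff, mem_compl_iff]
    rw [this]
    exact MeasurableSet.iUnion fun l => (MeasurableSet.const _).inter (hG.meas l).compl
  have hAm : ∀ s, MeasurableSet {z | A z s} := by
    intro s
    have : {z | A z s} = ⋃ l : Lt, {z | lval (pr x y) l = s} ∩ {z | α z l} := by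
      ext z
      simp only [A, mem_ofPred_eq, mem_iUnion, mem_inter_iff]
    rw [this]
    exact MeasurableSet.iUnion fun l => (MeasurableSet.const _).inter (hαm l)
  have hnm0 : ∀ c, MeasurableSet {z | nst c z} := by
    intro c
    exact (MeasurableSet.const _).inter (hem _ _)
  have hnoM : MeasurableSet {z | ∃ c, nst c z} := by
    have : {z | ∃ c, nst c z} = ⋃ c : Γ, {z | nst c z} := by
      ext z
      simp only [mem_ofPred_eq, mem_iUnion]
    rw [this]
    exact MeasurableSet.iUnion hnm0
  have hβm : ∀ s, MeasurableSet {z | β z s} := by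
    intro s
    have : {z | β z s} = (⋃ c : {c // Lf c}, {z | nst c z} ∩
        ⋃ l : Lt, {z | lval (pr (c : Γ) y) l = s} ∩ {z | N c z l}) ∪
        ({z | ∃ c, nst c z}ᶜ ∩ ⋃ l : Lt, {z | lval (pr x y) l = s} ∩
          ({z | FFx z l} ∩ {z | α z l}ᶜ)) := by
      ext z
      simp only [β, mem_ofPred_eq, mem_iUnion, mem_inter_iff, mem_compl_iff, mem_union,
        Subtype.exists]
      constructor
      · rintro (⟨c, h1, l, h2, h3⟩ | ⟨h1, l, h2, h3, h4⟩)
        · exact Or.inl ⟨c, h1.1, h1, l, h2, h3⟩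
        · exact Or.inr ⟨h1, l, h2, h3, h4⟩
      · rintro (⟨c, _, h1, l, h2, h3⟩ | ⟨h1, l, h2, h3, h4⟩)
        · exact Or.inl ⟨c, h1, l, h2, h3⟩
        · exact Or.inr ⟨h1, l, h2, h3, h4⟩
    rw [this]
    have hNm : ∀ (c : {c // Lf c}) (l : Lt), MeasurableSet {z | N (c : Γ) z l} := by
      intro c l
      obtain ⟨FF, hzone, _⟩ := hhub c c.2
      exact hzone.Nmeas l
    exact (MeasurableSet.iUnion fun c : {c // Lf c} => (hnm0 (c : Γ)).inter
      (MeasurableSet.iUnion fun l => (MeasurableSet.const _).inter (hNm c l))).union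
      (hnoM.compl.inter (MeasurableSet.iUnion fun l =>
      (MeasurableSet.const _).inter ((hG.meas l).inter (hαm l).compl)))
  have hhcm : ∀ c', MeasurableSet {z | hc z = c'} := by
    intro c'
    have : {z | hc z = c'} = {z | nst c' z} ∪ ({z | ∃ c, nst c z}ᶜ ∩ {z | (1 : Γ) = c'}) := by
      ext z
      simp only [mem_ofPred_eq, mem_union, mem_inter_iff, mem_compl_iff]
      constructor
      · intro h
        by_cases h1 : ∃ c, nst c z
        · left
          obtain ⟨c, h1⟩ := h1
          rw [hhc c z h1] at h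
          rw [← h]
          exact h1
        · right
          refine ⟨h1, ?_⟩
          simp only [hc] at h
          rw [dif_neg h1] at h
          exact h
      · rintro (h | ⟨h1, h2⟩)
        · exact hhc c' z h
        · simp only [hc]
          rw [dif_neg h1]
          exact h2
    rw [this]
    exact (hnm0 c').union (hnoM.compl.inter (MeasurableSet.const _))
  have hnms : ∀ z, ∀ s ∈ B, nm (s • z) s⁻¹ = nm z s := by
    intro z s hs
    have hsT := hBT s hs
    by_cases h1 : A z s
    · rw [hnA z s h1, hnA _ _ ((hAs z s).mpr h1)]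
    by_cases h2 : β z s
    · rw [hnβ z s h2, hnβ _ _ ((hβs z s hsT).mpr h2)]
    by_cases h3 : Y z s
    · rw [hnY z s h3, hnY _ _ ((hYs z s).mpr h3)]
    have h1' : ¬ A (s • z) s⁻¹ := fun h => h1 ((hAs z s).mp h)
    have h2' : ¬ β (s • z) s⁻¹ := fun h => h2 ((hβs z s hsT).mp h)
    have h3' : ¬ Y (s • z) s⁻¹ := fun h => h3 ((hYs z s).mp h)
    by_cases h4 : s = y ∨ s = y⁻¹
    · have h4' : s⁻¹ = y ∨ s⁻¹ = y⁻¹ := by
        rcases h4 with h4 | h4
        · right; rw [h4]
        · left; rw [h4, inv_inv]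
      obtain ⟨c, h5, h6, _⟩ := hn4 z s h1 h2 h3 h4
      obtain ⟨c', h5', h6', _⟩ := hn4 _ _ h1' h2' h3' h4'
      rw [h6, h6']
      have h7 := (hexc c' s z hsT).2
      have h8 := h5'.2
      exact (hnst_near c' z c h5'.1 (by omega) h5).symm
    · have h4' : ¬ (s⁻¹ = y ∨ s⁻¹ = y⁻¹) := by
        rintro (h | h)
        · exact h4 (Or.inr (by rw [← h, inv_inv]))
        · exact h4 (Or.inl (inv_injective h))
      rw [(hn5 z s h1 h2 h3 h4).1, (hn5 _ _ h1' h2' h3' h4').1, rep_inv]
  refine ⟨nm, ?_, ?_, hnms, ?_, ?_, ?_, ?_⟩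
  · intro s c
    have : {z | nm z s = c} = ({z | A z s} ∩ {z | x = c}) ∪ ({z | A z s}ᶜ ∩
        (({z | β z s} ∩ {z | x⁻¹ = c}) ∪ ({z | β z s}ᶜ ∩
        (({z | Y z s} ∩ {z | y = c}) ∪ ({z | Y z s}ᶜ ∩
        (({z | s = y ∨ s = y⁻¹} ∩ {z | hc z = c}) ∪ ({z | s = y ∨ s = y⁻¹}ᶜ ∩
          {z | rep s = c}))))))) := by
      ext z
      simp only [nm, mem_ofPred_eq, mem_union, mem_inter_iff, mem_compl_iff]
      by_cases h1 : A z s
      · simp [h1]
      · by_cases h2 : β z s
        · simp [h1, h2]
        · by_cases h3 : Y z s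
          · simp [h1, h2, h3]
          · by_cases h4 : s = y ∨ s = y⁻¹
            · simp only [h1, h2, h3, h4, if_false, if_true, false_and, not_false_eq_true,
                true_and, false_or, not_true_eq_false, or_false]
            · simp only [h1, h2, h3, h4, if_false, false_and, not_false_eq_true,
                true_and, false_or]
    rw [this]
    exact ((hAm s).inter (MeasurableSet.const _)).union ((hAm s).compl.inter
      (((hβm s).inter (MeasurableSet.const _)).union ((hβm s).compl.inter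
      (((hYm s).inter (MeasurableSet.const _)).union ((hYm s).compl.inter
      (((MeasurableSet.const _).inter (hhcm c)).union ((MeasurableSet.const _).compl.inter
        (MeasurableSet.const _))))))))
  · intro z s hs
    by_cases h1 : A z s
    · rw [hnA z s h1]
      exact ⟨hx, Or.inl (by simp)⟩
    by_cases h2 : β z s
    · rw [hnβ z s h2]
      exact ⟨hB x hx, Or.inl (by simp)⟩
    by_cases h3 : Y z s
    · rw [hnY z s h3]
      exact ⟨hy, Or.inr hyr⟩
    by_cases h4 : s = y ∨ s = y⁻¹
    · obtain ⟨c, h5, h6, _⟩ := hn4 z s h1 h2 h3 h4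
      rw [h6]
      exact ⟨h5.1.1, Or.inr h5.1.2.1⟩
    · rw [(hn5 z s h1 h2 h3 h4).1]
      exact ⟨hrB s hs, Or.inr (rep_rep s)⟩
  · intro z c hcB hc1
    have himg : ∀ (g' : Bool → Γ) (P : Lt → Prop), Function.Injective (lval g') →
        {s | ∃ l, lval g' l = s ∧ P l}.ncard = {l | P l}.ncard := by
      intro g' P hg'
      have : {s | ∃ l, lval g' l = s ∧ P l} = lval g' '' {l | P l} := by
        ext s
        simp only [mem_ofPred_eq, mem_image]
        constructor
        · rintro ⟨l, h1, h2⟩
          exact ⟨l, h2, h1⟩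
        · rintro ⟨l, h2, h1⟩
          exact ⟨l, h1, h2⟩
      rw [this, Set.ncard_image_of_injective _ hg']
    rcases hc1 with rfl | hc1
    · have : {s | s ∈ B ∧ nm z s = c} = {s | ∃ l, lval (pr c y) l = s ∧ α z l} := by
        ext s
        simp only [mem_ofPred_eq]
        constructor
        · rintro ⟨h1, h2⟩
          exact (hcx z s h1).mp h2
        · rintro ⟨l, rfl, h⟩
          exact ⟨hlB l, (hcx z _ (hlB l)).mpr ⟨l, rfl, h⟩⟩
      rw [this, himg _ _ hinj, hα1 z]
    · rw [Set.mem_singleton_iff] at hc1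
      subst hc1
      by_cases hn : ∃ c, nst c z
      · obtain ⟨c, hcz⟩ := hn
        have hβc := hβ1 c z hcz.1 (by have := hcz.2; omega)
        have : {s | s ∈ B ∧ nm z s = x⁻¹} = {s | ∃ l, lval (pr c y) l = s ∧ N c z l} := by
          ext s
          simp only [mem_ofPred_eq]
          constructor
          · rintro ⟨h1, h2⟩
            exact (hβc s).mp ((hcx' z s h1).mp h2)
          · rintro ⟨l, rfl, h⟩
            exact ⟨hLlB c hcz.1 l, (hcx' z _ (hLlB c hcz.1 l)).mpr ((hβc _).mpr ⟨l, rfl, h⟩)⟩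
        rw [this, himg _ _ (hLinj c hcz.1)]
        obtain ⟨FF, hzone, _⟩ := hhub c hcz.1
        exact hzone.Ncard z
      · have hβc := hβ2 z hn
        have : {s | s ∈ B ∧ nm z s = x⁻¹} =
            {s | ∃ l, lval (pr x y) l = s ∧ (FFx z l ∧ ¬ α z l)} := by
          ext s
          simp only [mem_ofPred_eq]
          constructor
          · rintro ⟨h1, h2⟩
            exact (hβc s).mp ((hcx' z s h1).mp h2)
          · rintro ⟨l, rfl, h⟩
            exact ⟨hlB l, (hcx' z _ (hlB l)).mpr ((hβc _).mpr ⟨l, rfl, h⟩)⟩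
        rw [this, himg _ _ hinj]
        have h1 : {l | FFx z l ∧ ¬ α z l} = {l | FFx z l} \ {l | α z l} := by
          ext l
          simp only [mem_ofPred_eq, mem_sdiff]
        have h2 : {l | α z l} ⊆ {l | FFx z l} := fun l hl => hαF z l hl
        rw [h1, Set.ncard_sdiff h2, hG.two, hα1]
  · intro z c hcB hc1 hcr
    have himg : ∀ (g' : Bool → Γ) (P : Lt → Prop), Function.Injective (lval g') →
        {s | ∃ l, lval g' l = s ∧ P l}.ncard = {l | P l}.ncard := by
      intro g' P hg'
      have : {s | ∃ l, lval g' l = s ∧ P l} = lval g' '' {l | P l} := by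
        ext s
        simp only [mem_ofPred_eq, mem_image]
        constructor
        · rintro ⟨l, h1, h2⟩
          exact ⟨l, h2, h1⟩
        · rintro ⟨l, h2, h1⟩
          exact ⟨l, h1, h2⟩
      rw [this, Set.ncard_image_of_injective _ hg']
    by_cases hcy' : c = y
    · subst hcy'
      have : {s | s ∈ B ∧ nm z s = c} = {s | ∃ l, lval (pr x c) l = s ∧ ¬ FFx z l} := by
        ext s
        simp only [mem_ofPred_eq]
        constructor
        · rintro ⟨h1, h2⟩
          exact (hcy z s h1).mp h2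
        · rintro ⟨l, rfl, h⟩
          exact ⟨hlB l, (hcy z _ (hlB l)).mpr ⟨l, rfl, h⟩⟩
      rw [this, himg _ _ hinj]
      have h1 : {l | ¬ FFx z l} = {l | FFx z l}ᶜ := rfl
      have h4 := Set.ncard_add_ncard_compl {l | FFx z l}
      rw [hG.two, ncard_lt] at h4
      rw [h1]
      omega
    · have hcL : Lf c := ⟨hcB, hcr, fun h => hc1 (by rw [h]; simp), hcy'⟩
      by_cases hcz : nst c z
      · have : {s | s ∈ B ∧ nm z s = c} =
            {s | ∃ l, lval (pr c y) l = s ∧ ((l.1 = false ∨ FFx z l) ∧ ¬ N c z l)} := by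
          ext s
          simp only [mem_ofPred_eq]
          constructor
          · rintro ⟨h1, h2⟩
            exact (hcL1 c z hcz s h1).mp h2
          · rintro ⟨l, rfl, h⟩
            exact ⟨hLlB c hcL l, (hcL1 c z hcz _ (hLlB c hcL l)).mpr ⟨l, rfl, h⟩⟩
        rw [this, himg _ _ (hLinj c hcL)]
        obtain ⟨FF, hzone, _⟩ := hhub c hcL
        have h1 : {l | (l.1 = false ∨ FFx z l) ∧ ¬ N c z l} =
            {l | l.1 = false ∨ FFx z l} \ {l | N c z l} := by
          ext l
          simp only [mem_ofPred_eq, mem_sdiff]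
        have h2 := ncard_three (hG.two z) (hZmat z (hZn c z hcL (by have := hcz.2; omega)))
        have h3 : {l | N c z l} ⊆ {l | l.1 = false ∨ FFx z l} := fun l hl => hNsub c z hcz l hl
        rw [h1, Set.ncard_sdiff h3, h2, hzone.Ncard z]
      · have : {s | s ∈ B ∧ nm z s = c} = {c, c⁻¹} := by
          ext s
          simp only [mem_ofPred_eq, mem_insert_iff, mem_singleton_iff]
          constructor
          · rintro ⟨h1, h2⟩
            exact (hcL2 c z hcL hcz s h1).mp h2
          · intro h
            have hsB : s ∈ B := by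
              rcases h with rfl | rfl
              · exact hcB
              · exact hB _ hcB
            exact ⟨hsB, (hcL2 c z hcL hcz s hsB).mpr h⟩
        rw [this, Set.ncard_pair (hne c hcB)]
  · intro c hcB hc1 hcr z
    by_cases hcy' : c = y
    · subst hcy'
      refine (hG.cfin z).subset fun u hu => ?_
      have hu' : EConn (fun s : B => (s : Γ)) (fun z (s : B) => nm z s = c) z u := hu
      clear hu
      change EConn (lval (pr x c)) (fun z l => ¬ FFx z l) z u
      induction hu' with
      | refl => exact ReflTransGen.refl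
      | @tail u v hu hv ih =>
        obtain ⟨i, hi, rfl⟩ := hv
        obtain ⟨l, h1, h2⟩ := (hcy u i i.2).mp hi
        exact ReflTransGen.tail ih ⟨l, h2, by rw [h1]⟩
    · have hcL : Lf c := ⟨hcB, hcr, fun h => hc1 (by rw [h]; simp), hcy'⟩
      set val : B → Γ := fun s : B => (s : Γ) with hval
      set E : X → B → Prop := fun z (s : B) => nm z s = c with hE
      by_cases h : ∃ u, EConn val E z u ∧ d u = ctr c
      · obtain ⟨u, hzu, hu⟩ := h
        obtain ⟨FF, hzone, hFF⟩ := hhub c hcL
        obtain ⟨h1, h2⟩ := hzone.core u hu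
        have hVWc := hVW c hcL
        have hEs : ∀ z (i : B), E z i → E (val i • z) ⟨(i : Γ)⁻¹, hB i i.2⟩ := by
          intro z i hi
          have hi' : nm z i = c := hi
          change nm ((i : Γ) • z) (i : Γ)⁻¹ = c
          rw [hnms z i i.2]
          exact hi'
        have huz : EConn val E u z := hzu.symm (inv := fun i : B => ⟨(i : Γ)⁻¹, hB i i.2⟩)
          (fun i => rfl) hEs
        refine h1.subset fun w hw => ?_
        have hw' : EConn val E u w := huz.trans hw
        clear hw
        change EConn (lval (pr c y)) (fun z l => (l.1 = false ∨ FF z l) ∧ ¬ N c z l) u w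
        induction hw' with
        | refl => exact ReflTransGen.refl
        | @tail a b ha hb ih =>
          obtain ⟨i, hi, rfl⟩ := hb
          have h3 := h2 a ih
          obtain ⟨l, h4, h5, h6⟩ := (hcL1 c a ⟨hcL, h3⟩ i i.2).mp hi
          rw [hFF a (by omega)] at h5
          exact ReflTransGen.tail ih ⟨l, ⟨h5, h6⟩, by rw [h4]⟩
      · push Not at h
        obtain ⟨h1, h2⟩ := hG.ctr1 c hcB
        exact side_finite hT (fun i : B => hBT i i.2) hrad h1 h2 h
  · intro c hcB hc1 hcr o
    by_cases hcy' : c = y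
    · subst hcy'
      obtain ⟨par, hp⟩ := hpxy o
      refine ⟨par, fun z hz s hs hns => ?_⟩
      obtain ⟨l, h1, _⟩ := (hcy z s hs).mp hns
      rw [← h1]
      exact hp z hz.exists_smul l
    · have hcL : Lf c := ⟨hcB, hcr, fun h => hc1 (by rw [h]; simp), hcy'⟩
      obtain ⟨par, hp⟩ := hpc c hcB hcr hcL.2.2.1 hcy' o
      refine ⟨par, fun z hz s hs hns => ?_⟩
      obtain ⟨l, h1⟩ : ∃ l, lval (pr c y) l = s := by
        by_cases hcz : nst c z
        · obtain ⟨l, h1, _⟩ := (hcL1 c z hcz s hs).mp hns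
          exact ⟨l, h1⟩
        · rcases (hcL2 c z hcL hcz s hs).mp hns with rfl | rfl
          · exact ⟨(false, false), by simp [lval, pr]⟩
          · exact ⟨(false, true), by simp [lval, pr]⟩
      rw [← h1]
      exact hp z hz.exists_smul l

/-- **Hub blocks can be coloured**. -/
theorem hub_block [MeasurableSpace X] [StandardBorelSpace X] [Countable Γ]
    (hX : IsFreeBorel Γ X) {T : Set Γ} (hT1 : (1 : Γ) ∈ T) (hT : ∀ m ∈ T, m⁻¹ ∈ T)
    (hTfin : T.Finite) (hsep : SepAct T X) {B : Finset Γ} (hBT : ∀ s ∈ B, s ∈ T)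
    (hB : ∀ s ∈ B, s⁻¹ ∈ B) (hne : ∀ s ∈ B, s ≠ s⁻¹) {x y : Γ} (hx : x ∈ B) (hy : y ∈ B)
    (hxr : rep x = x) (hyr : rep y = y) (hxy : y ≠ x) (hxy' : y ≠ x⁻¹)
    (hzx : HasZone X T x y) (hzy : HasZone X T y x)
    (hhub : ∀ c ∈ B, rep c = c → c ≠ x → c ≠ y → HasHub X T x y c) (hpxy : ParOK X x y)
    (hpc : ∀ c ∈ B, rep c = c → c ≠ x → c ≠ y → ParOK X c y) :
    BorelBlock (B : Set Γ) X := by
  obtain ⟨R, d, δ, ctr, W, V, FFx, N, hrad, hG⟩ := exists_global hX hT1 hT hTfin hsep hBT hB hne
    hx hy hxr hyr hxy hxy' hzx hzy hhub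
  obtain ⟨nm, hnm⟩ := exists_names hX hT hBT hB hne hx hy hxr hyr hxy hxy' hrad hG hpxy hpc
  refine block_of_names hX hB hne (S1 := {x, x⁻¹}) ?_ hnm
  rintro s (rfl | rfl)
  · simp
  · simp

end Run7.h916
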