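import Pool.Agent.Run7.h916.ZoneClass

set_option autoImplicit false
set_option linter.unusedSectionVars false
set_option linter.unusedVariables false

/-!
Blocks of directions of infinite order with a parity in which every direction has a nilpotent
partner.
-/

namespace Run7.h916

open Set Relation
open scoped Pointwise

universe u v w

variable {Γ : Type u} [Group Γ] {X : Type v} [MulAction Γ X]

/-- The subgroup `⟨s, t⟩` has a locally finite normal subgroup such that the quotient is nilpotent,
torsion-free and not cyclic. -/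
def NilPair (s t : Γ) : Prop :=
  ∃ (L : Subgroup (Subgroup.closure {s, t} : Subgroup Γ)) (_ : L.Normal), IsLocallyFinite L ∧
    Group.IsNilpotent ((Subgroup.closure {s, t} : Subgroup Γ) ⧸ L) ∧
    (∀ (x : (Subgroup.closure {s, t} : Subgroup Γ) ⧸ L) (n : ℕ), 0 < n → x ^ n = 1 → x = 1) ∧
    ¬ IsCyclic ((Subgroup.closure {s, t} : Subgroup Γ) ⧸ L)

theorem hasZone_aux [MeasurableSpace X] [StandardBorelSpace X] [Countable Γ]
    (hX : IsFreeBorel Γ X) {T : Set Γ} (hT : ∀ m ∈ T, m⁻¹ ∈ T) {s t : Γ} (hs : s ∈ T)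
    (ht : t ∈ T) (K : Subgroup Γ) (hsK : s ∈ K) (htK : t ∈ K)
    (hgen : Subgroup.closure ({⟨s, hsK⟩, ⟨t, htK⟩} : Set K) = ⊤) (L : Subgroup K)
    [hLn : L.Normal] (hL : IsLocallyFinite L) (hnil : Group.IsNilpotent (K ⧸ L))
    (hTF : TF (K ⧸ L)) (hnc : ¬ IsCyclic (K ⧸ L)) : HasZone X T s t := by
  let g : Bool → K := fun i => if i then ⟨t, htK⟩ else ⟨s, hsK⟩
  let π : K →* K ⧸ L := QuotientGroup.mk' L
  have hgen2 : Subgroup.closure ({π (g false), π (g true)} : Set (K ⧸ L)) = ⊤ := by
    have h1 : ({π (g false), π (g true)} : Set (K ⧸ L)) = π '' {⟨s, hsK⟩, ⟨t, htK⟩} := by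
      rw [Set.image_pair]
      rfl
    rw [h1, ← MonoidHom.map_closure, hgen, ← MonoidHom.range_eq_map]
    exact MonoidHom.range_eq_top.mpr (QuotientGroup.mk'_surjective L)
  have hnc2 : ¬ IsCyclic (Subgroup.closure ({π (g false), π (g true)} : Set (K ⧸ L)) :
      Subgroup (K ⧸ L)) := by
    rw [hgen2]
    intro h
    exact hnc (isCyclic_of_surjective (Subgroup.topEquiv (G := K ⧸ L))
      (Subgroup.topEquiv (G := K ⧸ L)).surjective)
  obtain ⟨E, F, Q, hpk⟩ := exists_package_tf (g := fun i => π (g i)) hTF hnc2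
  have hpk2 := Package.lift (g := g) (π := π) (QuotientGroup.mk'_surjective L) (fun k hk => by
    have hkL : k ∈ L := (QuotientGroup.eq_one_iff k).mp hk
    exact hL.isOfFinOrder hkL) hpk
  obtain ⟨ρ, hρ⟩ := exists_coord K
  have hpr : (fun i => K.subtype (g i)) = pr s t := by
    funext i
    cases i <;> rfl
  have hzone := exists_zone (X := X) hpk2 K.subtype ρ (fun k γ => hρ k γ) hX hT (by
    intro l
    rw [hpr]
    obtain ⟨i, j⟩ := l
    cases i <;> cases j <;> simp [lval, pr, hs, ht, hT s hs, hT t ht])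
  rw [hpr] at hzone
  exact hzone

theorem hasZone_of_nilPair [MeasurableSpace X] [StandardBorelSpace X] [Countable Γ]
    (hX : IsFreeBorel Γ X) {T : Set Γ} (hT : ∀ m ∈ T, m⁻¹ ∈ T) {s t : Γ} (hs : s ∈ T)
    (ht : t ∈ T) (h : NilPair s t) : HasZone X T s t := by
  obtain ⟨L, hLn, hL, hnil, hTF, hnc⟩ := h
  have hsK : s ∈ Subgroup.closure ({s, t} : Set Γ) := Subgroup.subset_closure (by simp)
  have htK : t ∈ Subgroup.closure ({s, t} : Set Γ) := Subgroup.subset_closure (by simp)
  refine hasZone_aux hX hT hs ht _ hsK htK ?_ L hL hnil hTF hnc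
  have h1 : ({⟨s, hsK⟩, ⟨t, htK⟩} : Set (Subgroup.closure ({s, t} : Set Γ))) =
      Subtype.val ⁻¹' ({s, t} : Set Γ) := by
    ext x
    simp only [Set.mem_insert_iff, Set.mem_singleton_iff, Set.mem_preimage]
    constructor
    · rintro (rfl | rfl)
      · exact Or.inl rfl
      · exact Or.inr rfl
    · rintro (h | h)
      · exact Or.inl (Subtype.ext h)
      · exact Or.inr (Subtype.ext h)
  rw [h1]
  exact Subgroup.closure_closure_coe_preimage

/-- Distinctness of the directions of a pair. -/
theorem NilPair.ne {s t : Γ} (h : NilPair s t) : t ≠ s ∧ t ≠ s⁻¹ := by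
  have key : ∀ n : ℤ, t = s ^ n → False := by
    intro n hn
    obtain ⟨L, hLn, hL, hnil, hTF, hnc⟩ := h
    apply hnc
    have hsK : s ∈ Subgroup.closure {s, t} := Subgroup.subset_closure (by simp)
    refine ⟨⟨QuotientGroup.mk' L ⟨s, hsK⟩, fun y => ?_⟩⟩
    obtain ⟨x, rfl⟩ := QuotientGroup.mk'_surjective L y
    have hx : (x : Γ) ∈ Subgroup.zpowers s := by
      have h1 : Subgroup.closure {s, t} ≤ Subgroup.zpowers s := by
        rw [Subgroup.closure_le]
        rintro y (rfl | rfl)
        · exact Subgroup.mem_zpowers _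
        · rw [hn]
          exact Subgroup.zpow_mem_zpowers _ _
      exact h1 x.2
    obtain ⟨m, hm⟩ := Subgroup.mem_zpowers_iff.mp hx
    refine ⟨m, ?_⟩
    simp only
    rw [← map_zpow]
    congr 1
    exact Subtype.ext (by simpa using hm)
  refine ⟨fun h' => key 1 (by rw [h', zpow_one]), fun h' => key (-1) (by rw [h', zpow_neg_one])⟩

theorem mult_two_cases (a : Multiplicative (ZMod 2)) : a = 1 ∨ a = Multiplicative.ofAdd 1 := by
  rcases zmod2_cases (Multiplicative.toAdd a) with h | h
  · left
    exact h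
  · right
    exact h

/-- The Borel chromatic index is the degree if every direction of infinite order has a torsion
partner, or a nilpotent partner in its block, and the blocks have parities. -/
theorem chromaticIndex_nil [MeasurableSpace X] [StandardBorelSpace X] {S : Finset Γ}
    (hS : IsMarking S) (hH : HypH S X) (b : Γ → ℕ) (hb : ∀ s ∈ S, b s⁻¹ = b s)
    (hpartner : ∀ s ∈ S, ¬ IsOfFinOrder s →
      ∃ t ∈ S, ¬ IsOfFinOrder t ∧ b t = b s ∧ NilPair s t)
    (hpar : ∀ n, ∃ ε : (Subgroup.closure {s | s ∈ S ∧ ¬ IsOfFinOrder s ∧ b s = n} : Subgroup Γ) →*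
      Multiplicative (ZMod 2), ∀ (s : Γ) (hs : s ∈ {s | s ∈ S ∧ ¬ IsOfFinOrder s ∧ b s = n}),
        ε ⟨s, Subgroup.subset_closure hs⟩ ≠ 1) :
    borelChromaticIndex (schreierGraph S X) = S.card := by
  classical
  have hX := hH.freeBorel
  have hne := nonempty_of_asiB hH.asi
  have hsep := sepAct_of_hasSeparation hS.inv_mem (hasSeparation_one_of_asiB hH.asi)
  set T : Set Γ := insert 1 (S : Set Γ) with hTdef
  have hT1 : (1 : Γ) ∈ T := Set.mem_insert _ _
  have hT : ∀ m ∈ T, m⁻¹ ∈ T := by
    rintro m (rfl | hm)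
    · left; simp
    · right; exact hS.inv_mem m hm
  have hTfin : T.Finite := S.finite_toSet.insert 1
  have hgen : Subgroup.closure T = ⊤ := by
    rw [eq_top_iff, ← hS.closure_eq]
    exact Subgroup.closure_mono (Set.subset_insert _ _)
  have hcount : Countable Γ := by
    have hfin : ∀ D : ℕ, (T ^ D).Finite := by
      intro D
      induction D with
      | zero => simp
      | succ k ih =>
        rw [pow_succ]
        exact ih.mul hTfin
    have hc : (⋃ D : ℕ, T ^ D).Countable :=
      Set.countable_iUnion fun D => (hfin D).countable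
    refine Set.countable_univ_iff.mp (hc.mono fun g _ => ?_)
    obtain ⟨D, hD⟩ := exists_subset_pow hT1 hT hgen (Set.finite_singleton g)
    exact mem_iUnion.mpr ⟨D, hD rfl⟩
  let B : Option ℕ → Set Γ := fun i => match i with
    | none => {s | s ∈ S ∧ IsOfFinOrder s}
    | some n => {s | s ∈ S ∧ ¬ IsOfFinOrder s ∧ b s = n}
  have hdisj : ∀ i j s, s ∈ B i → s ∈ B j → i = j := by
    intro i j s hi hj
    cases i with
    | none =>
      cases j with
      | none => rfl
      | some n =>
        have h1 : IsOfFinOrder s := hi.2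
        have h2 : ¬ IsOfFinOrder s := hj.2.1
        exact absurd h1 h2
    | some m =>
      cases j with
      | none =>
        have h1 : IsOfFinOrder s := hj.2
        have h2 : ¬ IsOfFinOrder s := hi.2.1
        exact absurd h1 h2
      | some n =>
        have h1 : b s = m := hi.2.2
        have h2 : b s = n := hj.2.2
        rw [← h1, h2]
  have hinv : ∀ i, ∀ s ∈ B i, s⁻¹ ∈ B i := by
    intro i s hs
    cases i with
    | none => exact ⟨hS.inv_mem s hs.1, isOfFinOrder_inv_iff.mpr hs.2⟩
    | some n =>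
      have h1 : s ∈ S ∧ ¬ IsOfFinOrder s ∧ b s = n := hs
      refine ⟨hS.inv_mem s h1.1, ?_, ?_⟩
      · rw [isOfFinOrder_inv_iff]; exact h1.2.1
      · rw [hb s h1.1]; exact h1.2.2
  have hBall : (⋃ i, B i) = (S : Set Γ) := by
    ext s
    simp only [mem_iUnion]
    constructor
    · rintro ⟨i, hi⟩
      cases i with
      | none => exact hi.1
      | some n => exact hi.1
    · intro hs
      by_cases h : IsOfFinOrder s
      · exact ⟨none, hs, h⟩
      · exact ⟨some (b s), hs, h, rfl⟩
  have hblock : ∀ i, BorelBlock (B i) X := by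
    intro i
    cases i with
    | none =>
      refine borelBlock_of_flexible hX hT1 hT hgen hsep (hinv none)
        (fun s hs => Set.mem_insert_of_mem _ hs.1) ?_
      refine flexible_partner (S.finite_toSet.subset fun s hs => hs.1) (hinv none)
        (fun s hs => hH.not_odd s hs.1) fun v hv hvi => ?_
      exact absurd hv.2 hvi
    | some n =>
      set B' : Finset Γ := S.filter (fun s => ¬ IsOfFinOrder s ∧ b s = n) with hB'
      have hmem : ∀ s, s ∈ B' ↔ s ∈ S ∧ ¬ IsOfFinOrder s ∧ b s = n := by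
        intro s
        rw [hB', Finset.mem_filter]
      have hBB : (B' : Set Γ) = B (some n) := by
        ext s
        rw [Finset.mem_coe, hmem]
        rfl
      have hB'inv : ∀ s ∈ B', s⁻¹ ∈ B' := by
        intro s hs
        rw [← Finset.mem_coe, hBB] at hs ⊢
        exact hinv (some n) s hs
      have hB'ne : ∀ s ∈ B', s ≠ s⁻¹ := fun s hs =>
        not_isOfFinOrder_ne_inv ((hmem s).mp hs).2.1
      obtain ⟨cls, hcls⟩ := exists_classes hX hT1 hT hTfin hsep (B := B')
        (fun s hs => Set.mem_insert_of_mem _ ((hmem s).mp hs).1) hB'inv hB'ne (by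
        intro a ha
        have ha' := (hmem a).mp ha
        obtain ⟨t, ht, hti, hbt, hpair⟩ := hpartner a ha'.1 ha'.2.1
        refine ⟨t, (hmem t).mpr ⟨ht, hti, by rw [hbt, ha'.2.2]⟩, hpair.ne.1, hpair.ne.2, ?_⟩
        exact hasZone_of_nilPair hX hT (Set.mem_insert_of_mem _ ha'.1)
          (Set.mem_insert_of_mem _ ht) hpair)
      rw [← hBB]
      refine block_of_classes hX hB'inv hB'ne hcls fun o => ?_
      obtain ⟨ε, hε⟩ := hpar n
      have hcl : (B' : Set Γ) = {s | s ∈ S ∧ ¬ IsOfFinOrder s ∧ b s = n} := hBB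
      refine ⟨fun x => ∃ (γ : Γ) (h : γ ∈ Subgroup.closure
        {s | s ∈ S ∧ ¬ IsOfFinOrder s ∧ b s = n}), γ • o = x ∧ ε ⟨γ, h⟩ = 1, ?_⟩
      rintro x s hs ⟨γ, hγ, rfl⟩
      rw [hcl] at hγ
      have hs' := (hmem s).mp hs
      have hsub := Subgroup.subset_closure (G := Γ)
        (show s ∈ {s | s ∈ S ∧ ¬ IsOfFinOrder s ∧ b s = n} from hs')
      have hεs := hε s hs'
      have huniq : ∀ (γ1 γ2 : Γ), γ1 • o = γ2 • o → γ1 = γ2 := by
        intro γ1 γ2 h
        have : (γ2⁻¹ * γ1) • o = o := by rw [mul_smul, h, inv_smul_smul]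
        have := hX.free _ _ this
        rw [inv_mul_eq_one] at this
        exact this.symm
      have h1 : (∃ (γ' : Γ) (h : γ' ∈ Subgroup.closure
          {s | s ∈ S ∧ ¬ IsOfFinOrder s ∧ b s = n}), γ' • o = γ • o ∧ ε ⟨γ', h⟩ = 1) ↔
          ε ⟨γ, hγ⟩ = 1 := by
        constructor
        · rintro ⟨γ', h, h2, h3⟩
          have := huniq _ _ h2
          subst this
          exact h3
        · intro h
          exact ⟨γ, hγ, rfl, h⟩
      have h2 : (∃ (γ' : Γ) (h : γ' ∈ Subgroup.closure
          {s | s ∈ S ∧ ¬ IsOfFinOrder s ∧ b s = n}), γ' • o = s • γ • o ∧ ε ⟨γ', h⟩ = 1) ↔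
          ε ⟨s, hsub⟩ * ε ⟨γ, hγ⟩ = 1 := by
        rw [← map_mul]
        constructor
        · rintro ⟨γ', h, h2, h3⟩
          rw [← mul_smul] at h2
          have := huniq _ _ h2
          subst this
          exact h3
        · intro h
          exact ⟨s * γ, mul_mem hsub hγ, mul_smul _ _ _, h⟩
      simp only
      rw [h1, h2]
      have hone : Multiplicative.ofAdd (1 : ZMod 2) ≠ 1 := by decide
      have hone2 : Multiplicative.ofAdd (1 : ZMod 2) * Multiplicative.ofAdd (1 : ZMod 2) = 1 := by
        decide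
      rcases mult_two_cases (ε ⟨s, hsub⟩) with h3 | h3
      · exact absurd h3 hεs
      · rw [h3]
        rcases mult_two_cases (ε ⟨γ, hγ⟩) with h4 | h4
        · rw [h4, mul_one]
          simp [hone]
        · rw [h4, hone2]
          simp [hone]
  have hall : BorelBlock (S : Set Γ) X := by
    rw [← hBall]
    exact BorelBlock.iUnion hdisj hinv hblock
  have hcol := borelEdgeColorable_of_block hX hS.inv_mem hall
  unfold borelChromaticIndex
  apply le_antisymm
  · exact (iInf_le _ S.card).trans (iInf_le _ hcol)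
  · refine le_iInf fun n => le_iInf fun hn => ?_
    exact_mod_cast card_le_of_colorable hX hS.inv_mem hS.one_notMem hn

end Run7.h916
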