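import Pool.Agent.Run7.h916.HubBlock
import Pool.Agent.Run7.h916.NilBip

set_option autoImplicit false
set_option linter.unusedSectionVars false
set_option linter.unusedVariables false

/-!
Hub blocks in locally finite by (torsion-free nilpotent) groups.
-/

namespace Run7.h916

open Set Relation
open scoped Pointwise commutatorElement

universe u v w w'

variable {Γ : Type u} [Group Γ] {X : Type v} [MulAction Γ X]

theorem null_of_nullH {K : Type w} [Group K] {g : Bool → K} {H : K → Lt → Prop}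
    {D : K → Lt → ℝ} (h : NullH g H D) : Null g D := by
  obtain ⟨L, C, h0, h1, h2⟩ := h
  exact ⟨L, C, h0, fun p hp => ⟨(h1 p hp).1, (h1 p hp).2.1⟩, h2⟩

theorem isPat_of_isPatH {G : Type w} [Group G] {g : Bool → G} {Ww : List Lt} {w : G}
    {E F Q : G → ℝ} (h : IsPatH g Ww w E F Q) : IsPat g w E F Q := by
  refine ⟨h.F1, h.Q1, h.Fv, h.Qv, h.Qw, h.per, ?_⟩
  intro χ hχ hχv hχw
  have hadm : ∀ (W : List Lt) (x : G), Adm g (fun _ _ => True) x W := by
    intro W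
    induction W with
    | nil => intro x; trivial
    | cons l W ih => intro x; exact ⟨trivial, ih _⟩
  exact null_of_nullH (h.null (fun _ _ => True) (fun _ _ => Iff.rfl) (fun _ => True)
    ⟨fun x _ => hadm _ x, fun _ => Iff.rfl⟩ ⟨fun x _ => hadm _ x, fun _ => Iff.rfl⟩ χ hχ
    (fun _ _ => trivial) hχv hχw)

/-- Parities from signs. -/
theorem parOK_of_sign (hfree : ∀ (γ : Γ) (x : X), γ • x = x → γ = 1) {a b : Γ} (S : Γ → ℝ)
    (hS1 : ∀ γ, S γ = 1 ∨ S γ = -1) (ha : ∀ γ, S (a * γ) = - S γ)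
    (hb : ∀ γ, S (b * γ) = - S γ) : ParOK X a b := by
  intro o
  refine ⟨fun z => ∃ γ : Γ, γ • o = z ∧ S γ = 1, ?_⟩
  rintro z ⟨γ, rfl⟩ l
  have huniq : ∀ γ1 γ2 : Γ, γ1 • o = γ2 • o → γ1 = γ2 := by
    intro γ1 γ2 h
    have h1 : (γ2⁻¹ * γ1) • o = o := by rw [mul_smul, h, inv_smul_smul]
    have := hfree _ _ h1
    rw [inv_mul_eq_one] at this
    exact this.symm
  have hl : S (lval (pr a b) l * γ) = - S γ := by
    have hai : ∀ γ, S (a⁻¹ * γ) = - S γ := by
      intro γ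
      have := ha (a⁻¹ * γ)
      rw [mul_inv_cancel_left] at this
      linarith
    have hbi : ∀ γ, S (b⁻¹ * γ) = - S γ := by
      intro γ
      have := hb (b⁻¹ * γ)
      rw [mul_inv_cancel_left] at this
      linarith
    obtain ⟨i, j⟩ := l
    cases i <;> cases j <;> simp [lval, pr, ha, hb, hai, hbi]
  have h1 : (∃ γ' : Γ, γ' • o = γ • o ∧ S γ' = 1) ↔ S γ = 1 := by
    constructor
    · rintro ⟨γ', h2, h3⟩
      rw [← huniq _ _ h2]
      exact h3
    · intro h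
      exact ⟨γ, rfl, h⟩
  have h2 : (∃ γ' : Γ, γ' • o = lval (pr a b) l • γ • o ∧ S γ' = 1) ↔ - S γ = 1 := by
    constructor
    · rintro ⟨γ', h2, h3⟩
      rw [← mul_smul] at h2
      rw [← hl, ← huniq _ _ h2]
      exact h3
    · intro h
      exact ⟨lval (pr a b) l * γ, mul_smul _ _ _, by rw [hl]; exact h⟩
  change (∃ γ' : Γ, γ' • o = lval (pr a b) l • γ • o ∧ S γ' = 1) ↔
    ¬ (∃ γ' : Γ, γ' • o = γ • o ∧ S γ' = 1)
  rw [h1, h2]
  rcases hS1 γ with h | h <;> rw [h] <;> norm_num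

section data

variable [MeasurableSpace X] [StandardBorelSpace X] [Countable Γ] (hX : IsFreeBorel Γ X)
  {T : Set Γ} (hT : ∀ m ∈ T, m⁻¹ ∈ T) {K : Type w} [Group K] (ι : K →* Γ) (ρ : Γ → K)
  (hρ : ∀ k γ, ρ (ι k * γ) = k * ρ γ) {G : Type w'} [Group G] [Group.IsNilpotent G]
  (hTF : TF G) (π : K →* G) (hsurj : Function.Surjective π)
  (hπ : ∀ k, π k = 1 → IsOfFinOrder k)

include hX hT hρ hTF hsurj hπ in
theorem hasZone_pair (s t : K) (hs : ι s ∈ T) (ht : ι t ∈ T)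
    (hnc : ¬ IsCyclic (Subgroup.closure ({π s, π t} : Set G) : Subgroup G)) :
    HasZone X T (ι s) (ι t) ∧ ParOK X (ι s) (ι t) := by
  let g : Bool → K := fun i => if i then t else s
  obtain ⟨E, F, Q, hpk⟩ := exists_package_tf (g := fun i => π (g i)) hTF hnc
  have hpk2 := Package.lift (g := g) (π := π) hsurj hπ hpk
  have hpr : (fun i => ι (g i)) = pr (ι s) (ι t) := by
    funext i
    cases i <;> rfl
  have hzone := exists_zone (X := X) hpk2 ι ρ hρ hX hT (by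
    intro l
    rw [hpr]
    obtain ⟨i, j⟩ := l
    cases i <;> cases j <;> simp [lval, pr, hs, ht, hT _ hs, hT _ ht])
  rw [hpr] at hzone
  refine ⟨hzone, parOK_of_sign hX.free (fun γ => E (π (ρ γ))) (fun γ => hpk.E1 _) ?_ ?_⟩
  · intro γ
    rw [hρ]
    exact hpk2.Eg false (ρ γ)
  · intro γ
    rw [hρ]
    exact hpk2.Eg true (ρ γ)

include hX hT hρ hTF hsurj hπ in
theorem hasHub_of_data (x y c : K) (hx : ι x ∈ T) (hy : ι y ∈ T) (hc : ι c ∈ T)
    (hnc1 : ¬ IsCyclic (Subgroup.closure ({π x, π y} : Set G) : Subgroup G))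
    (hnc2 : ¬ IsCyclic (Subgroup.closure ({π c, π y} : Set G) : Subgroup G))
    (Q : G → ℝ) (hQ1 : ∀ k, Q k = 1 ∨ Q k = -1) (hQx : ∀ k, Q (π x * k) = Q k)
    (hQc : ∀ k, Q (π c * k) = Q k) (hQy : ∀ k, Q (π y * k) = - Q k) :
    HasHub X T (ι x) (ι y) (ι c) := by
  let g1 : Bool → K := fun i => if i then y else x
  let g2 : Bool → K := fun i => if i then y else c
  have hodd : ∀ (g : Bool → G),
      ¬ IsCyclic (Subgroup.closure {g false, g true} : Subgroup G) →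
      ∃ E : G → ℝ, (∀ x, E x = 1 ∨ E x = -1) ∧ ∀ i x, E (g i * x) = - E x := by
    intro g hnc
    obtain ⟨φ, ψ, h1, h2, h3, h4⟩ := exists_homs_closure hTF hnc
    obtain ⟨E, hE1, hE2, hE3⟩ := exists_sign _ (φ * ψ)
    refine ⟨E, hE1, ?_⟩
    have hEv : ∀ x, E (g false * x) = - E x := fun x => hE3 _ x (by
      rw [MonoidHom.mul_apply, h1, h3, mul_one])
    have hEw : ∀ x, E (g true * x) = - E x := fun x => hE3 _ x (by
      rw [MonoidHom.mul_apply, h2, h4, one_mul])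
    intro i x
    cases i
    · exact hEv x
    · exact hEw x
  have habs : ∀ E : G → ℝ, (∀ x, E x = 1 ∨ E x = -1) → ∀ x, |E x| ≤ 1 := by
    intro E hE1 x
    rcases hE1 x with h | h <;> rw [h] <;> norm_num
  obtain ⟨E1, hE11, hE1g⟩ := hodd (fun i => π (g1 i)) hnc1
  obtain ⟨E2, hE21, hE2g⟩ := hodd (fun i => π (g2 i)) hnc2
  obtain ⟨cl, hcl⟩ := Subgroup.nilpotent_iff_lowerCentralSeries.mp
    (inferInstance : Group.IsNilpotent G)
  obtain ⟨F, hP⟩ := exists_patternH (g := fun i => π (g1 i)) hTF (habs E1 hE11) (hE1g false)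
    hcl cl 0 (by omega) [(true, false)] (π (g1 true)) (by simp [lval]) (by simp) hnc1
    (hE1g true) Q hQ1 hQx hQy
  have hpk := package_of_pattern hE11 hE1g (isPat_of_isPatH hP)
  obtain ⟨f, hf1, hfv, hfper, hfnull⟩ := exists_cubic (g := fun i => π (g2 i)) hTF hE21 hE2g hQ1
    hQc hQy hnc2
  have hfd1 := (facData_pair hpk).lift (g := g1) (π := π) hπ
  have hfd2 := (facData_cubic hE21 hE2g hf1 hfv hQ1 hQc hQy hfnull).lift (g := g2) (π := π) hπ
  refine exists_hubZone (g1 := g1) (g2 := g2) (E1 := fun k => E1 (π k)) (E2 := fun k => E2 (π k))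
    (F := fun k => F (π k)) (f := fun k => f (π k)) (Q := fun k => Q (π k)) hfd1 hfd2
    (fun k => hQ1 _) (fun k => hpk.F1 _) (fun k => hf1 _) ?_ ?_ ?_ ?_
    (per_lift hsurj hπ hpk.per) (per_lift hsurj hπ hfper) ι ρ hρ hX hT
    hx hy hc ?_ ?_
  · intro k
    simp only [map_mul]
    exact hpk.Fv _
  · intro k
    simp only [map_mul]
    exact hfv _
  · intro k
    simp only [map_mul]
    exact hQy _
  · intro k
    simp only [map_mul]
    exact hQy _
  · funext i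
    cases i <;> rfl
  · funext i
    cases i <;> rfl

include hX hT hρ hTF hsurj hπ in
/-- **Hub blocks can be coloured**. -/
theorem hub_block_of_data (hT1 : (1 : Γ) ∈ T) (hTfin : T.Finite) (hsep : SepAct T X)
    {B : Finset Γ} (hBT : ∀ s ∈ B, s ∈ T)
    (hB : ∀ s ∈ B, s⁻¹ ∈ B) (hne : ∀ s ∈ B, s ≠ s⁻¹) (lf : Γ → K) (hlf : ∀ s ∈ B, ι (lf s) = s)
    {y : Γ} (hy : y ∈ B) (hx : ∃ x ∈ B, x ≠ y ∧ x ≠ y⁻¹)
    (Q : G → ℝ) (hQ1 : ∀ k, Q k = 1 ∨ Q k = -1) (hQy : ∀ k, Q (π (lf y) * k) = - Q k)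
    (hQc : ∀ c ∈ B, c ≠ y → c ≠ y⁻¹ → ∀ k, Q (π (lf c) * k) = Q k)
    (hnc : ∀ c ∈ B, c ≠ y → c ≠ y⁻¹ →
      ¬ IsCyclic (Subgroup.closure ({π (lf c), π (lf y)} : Set G) : Subgroup G)) :
    BorelBlock (B : Set Γ) X := by
  classical
  obtain ⟨x0, hx0, hx01, hx02⟩ := hx
  have hιinj : Function.Injective ι := by
    intro a b hab
    have h1 := hρ a 1
    have h2 := hρ b 1
    rw [hab] at h1
    exact mul_right_cancel (h1.symm.trans h2)
  have hlinv : ∀ s ∈ B, lf s⁻¹ = (lf s)⁻¹ := by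
    intro s hs
    apply hιinj
    rw [hlf _ (hB s hs), map_inv, hlf s hs]
  have hrB : ∀ s ∈ B, rep s ∈ B := by
    intro s hs
    rcases rep_eq s with h | h
    · rw [h]; exact hs
    · rw [h]; exact hB s hs
  -- cyclicity does not depend on inverses
  have hclR : ∀ a b : G, Subgroup.closure ({a, b⁻¹} : Set G) = Subgroup.closure {a, b} := by
    intro a b
    apply le_antisymm
    · rw [Subgroup.closure_le]
      rintro z (rfl | rfl)
      · exact Subgroup.subset_closure (by simp)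
      · exact inv_mem (Subgroup.subset_closure (by simp))
    · rw [Subgroup.closure_le]
      rintro z (rfl | rfl)
      · exact Subgroup.subset_closure (by simp)
      · have : z⁻¹ ∈ Subgroup.closure {a, z⁻¹} := Subgroup.subset_closure (by simp)
        have := inv_mem this
        rwa [inv_inv] at this
  have hclS : ∀ a b : G, Subgroup.closure ({a, b} : Set G) =
      Subgroup.closure {b, a} := fun a b => by rw [Set.pair_comm]
  -- representatives
  set y' := rep y with hy'def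
  set x := rep x0 with hxdef
  have hy' : y' ∈ B := hrB y hy
  have hx : x ∈ B := hrB x0 hx0
  have hyr : rep y' = y' := rep_rep y
  have hxr : rep x = x := rep_rep x0
  have hyy : y' = y ∨ y' = y⁻¹ := rep_eq y
  have hne1 : ∀ c : Γ, c ≠ y' → c ≠ y'⁻¹ → c ≠ y ∧ c ≠ y⁻¹ := by
    intro c h1 h2
    rcases hyy with h | h
    · rw [h] at h1 h2
      exact ⟨h1, h2⟩
    · rw [h] at h1 h2
      rw [inv_inv] at h2
      exact ⟨h2, h1⟩
  have hxy : y' ≠ x := by
    intro h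
    rcases rep_eq y with h1 | h1 <;> rcases rep_eq x0 with h2 | h2 <;>
      rw [← hy'def] at h1 <;> rw [← hxdef] at h2 <;> rw [h1, h2] at h
    · exact hx01 h.symm
    · apply hx02
      rw [h, inv_inv]
    · exact hx02 h.symm
    · exact hx01 (inv_injective h).symm
  have hxy' : y' ≠ x⁻¹ := by
    intro h
    have h1 := hyr
    rw [h, rep_inv, hxr] at h1
    exact hne x hx h1
  have hoinv : ∀ a : G, (∀ k, Q (a * k) = - Q k) → ∀ k, Q (a⁻¹ * k) = - Q k := fun a h k => by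
    have := h (a⁻¹ * k)
    rw [mul_inv_cancel_left] at this
    linarith
  have hQy' : ∀ k, Q (π (lf y') * k) = - Q k := by
    rcases hyy with h | h
    · rw [h]
      exact hQy
    · rw [h, hlinv y hy, map_inv]
      exact hoinv _ hQy
  have hncy : ∀ c ∈ B, c ≠ y' → c ≠ y'⁻¹ →
      ¬ IsCyclic (Subgroup.closure ({π (lf c), π (lf y')} : Set G) : Subgroup G) := by
    intro c hc h1 h2
    obtain ⟨h3, h4⟩ := hne1 c h1 h2
    rcases hyy with h | h
    · rw [h]
      exact hnc c hc h3 h4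
    · rw [h, hlinv y hy, map_inv, hclR]
      exact hnc c hc h3 h4
  have hne2 : ∀ c ∈ B, rep c = c → c ≠ y' → c ≠ y'⁻¹ := by
    intro c hc hcr h1 h2
    rw [h2, rep_inv, hyr] at hcr
    exact hne y' hy' hcr
  have hx1 : x ≠ y' := fun h => hxy h.symm
  have hx2 : x ≠ y'⁻¹ := hne2 x hx hxr hx1
  have hzx := hasZone_pair hX hT ι ρ hρ hTF π hsurj hπ (lf x) (lf y')
    (by rw [hlf x hx]; exact hBT x hx) (by rw [hlf y' hy']; exact hBT y' hy')
    (hncy x hx hx1 hx2)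
  have hzy := hasZone_pair hX hT ι ρ hρ hTF π hsurj hπ (lf y') (lf x)
    (by rw [hlf y' hy']; exact hBT y' hy') (by rw [hlf x hx]; exact hBT x hx)
    (by rw [hclS]; exact hncy x hx hx1 hx2)
  rw [hlf x hx, hlf y' hy'] at hzx hzy
  refine hub_block hX hT1 hT hTfin hsep hBT hB hne hx hy' hxr hyr hxy hxy' hzx.1 hzy.1 ?_ hzx.2 ?_
  · intro c hc hcr hcx hcy
    have h2 := hne2 c hc hcr hcy
    obtain ⟨h3, h4⟩ := hne1 c hcy h2
    obtain ⟨h5, h6⟩ := hne1 x hx1 hx2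
    have := hasHub_of_data hX hT ι ρ hρ hTF π hsurj hπ (lf x) (lf y') (lf c)
      (by rw [hlf x hx]; exact hBT x hx) (by rw [hlf y' hy']; exact hBT y' hy')
      (by rw [hlf c hc]; exact hBT c hc) (hncy x hx hx1 hx2) (hncy c hc hcy h2) Q hQ1
      (hQc x hx h5 h6) (hQc c hc h3 h4) hQy'
    rwa [hlf x hx, hlf y' hy', hlf c hc] at this
  · intro c hc hcr hcx hcy
    have := (hasZone_pair hX hT ι ρ hρ hTF π hsurj hπ (lf c) (lf y')
      (by rw [hlf c hc]; exact hBT c hc) (by rw [hlf y' hy']; exact hBT y' hy')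
      (hncy c hc hcy (hne2 c hc hcr hcy))).2
    rwa [hlf y' hy', hlf c hc] at this

include hX hT hρ hTF hsurj hπ in
/-- **Parity blocks can be coloured**. -/
theorem parity_block_of_data (hT1 : (1 : Γ) ∈ T) (hTfin : T.Finite) (hsep : SepAct T X)
    {B : Finset Γ} (hBT : ∀ s ∈ B, s ∈ T)
    (hB : ∀ s ∈ B, s⁻¹ ∈ B) (hne : ∀ s ∈ B, s ≠ s⁻¹) (lf : Γ → K) (hlf : ∀ s ∈ B, ι (lf s) = s)
    (S : Γ → ℝ) (hS1 : ∀ k, S k = 1 ∨ S k = -1) (hSo : ∀ s ∈ B, ∀ k, S (s * k) = - S k)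
    (hpart : ∀ s ∈ B, ∃ t ∈ B, t ≠ s ∧ t ≠ s⁻¹ ∧
      ¬ IsCyclic (Subgroup.closure ({π (lf s), π (lf t)} : Set G) : Subgroup G)) :
    BorelBlock (B : Set Γ) X := by
  classical
  obtain ⟨cls, hcls⟩ := exists_classes hX hT1 hT hTfin hsep hBT hB hne (by
    intro a ha
    obtain ⟨t, ht, h1, h2, h3⟩ := hpart a ha
    refine ⟨t, ht, h1, h2, ?_⟩
    have := (hasZone_pair hX hT ι ρ hρ hTF π hsurj hπ (lf a) (lf t)
      (by rw [hlf a ha]; exact hBT a ha) (by rw [hlf t ht]; exact hBT t ht) h3).1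
    rwa [hlf a ha, hlf t ht] at this)
  refine block_of_classes hX hB hne hcls fun o => ?_
  refine ⟨fun z => ∃ γ : Γ, γ • o = z ∧ S γ = 1, ?_⟩
  rintro z s hs ⟨γ, _, rfl⟩
  have huniq : ∀ γ1 γ2 : Γ, γ1 • o = γ2 • o → γ1 = γ2 := by
    intro γ1 γ2 h
    have h1 : (γ2⁻¹ * γ1) • o = o := by rw [mul_smul, h, inv_smul_smul]
    have := hX.free _ _ h1
    rw [inv_mul_eq_one] at this
    exact this.symm
  have h1 : (∃ γ' : Γ, γ' • o = γ • o ∧ S γ' = 1) ↔ S γ = 1 := by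
    constructor
    · rintro ⟨γ', h2, h3⟩
      rw [← huniq _ _ h2]
      exact h3
    · intro h
      exact ⟨γ, rfl, h⟩
  have h2 : (∃ γ' : Γ, γ' • o = s • γ • o ∧ S γ' = 1) ↔ - S γ = 1 := by
    constructor
    · rintro ⟨γ', h2, h3⟩
      rw [← mul_smul] at h2
      rw [← hSo s hs, ← huniq _ _ h2]
      exact h3
    · intro h
      exact ⟨s * γ, mul_smul _ _ _, by rw [hSo s hs]; exact h⟩
  change (∃ γ' : Γ, γ' • o = s • γ • o ∧ S γ' = 1) ↔
    ¬ (∃ γ' : Γ, γ' • o = γ • o ∧ S γ' = 1)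
  rw [h1, h2]
  rcases hS1 γ with h | h <;> rw [h] <;> norm_num

end data

end Run7.h916
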