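import Pool.Agent.Run7.h916.HubZone
import Pool.Agent.Run7.h916.Names

set_option autoImplicit false
set_option linter.unusedSectionVars false
set_option linter.unusedVariables false

/-!
Zones of all kinds of a hub block, and auxiliary statements.
-/

namespace Run7.h916

open Set Relation
open scoped Pointwise

universe u v w

variable {Γ : Type u} [Group Γ] {X : Type v} [MulAction Γ X]

/-- A parity for two directions. -/
def ParOK (X : Type v) [MulAction Γ X] (a b : Γ) : Prop :=
  ∀ o : X, ∃ par : X → Prop, ∀ z, (∃ γ : Γ, γ • o = z) → ∀ l,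
    (par (lval (pr a b) l • z) ↔ ¬ par z)

/-- Swapped letters. -/
def lsw (l : Lt) : Lt := (!l.1, l.2)

theorem lsw_lsw (l : Lt) : lsw (lsw l) = l := by simp [lsw]

theorem lval_lsw (a b : Γ) (l : Lt) : lval (pr b a) (lsw l) = lval (pr a b) l := by
  obtain ⟨i, j⟩ := l
  cases i <;> cases j <;> simp [lval, pr, lsw]

theorem lval_false {a b : Γ} {l : Lt} (h : l.1 = false) :
    lval (pr a b) l = a ∨ lval (pr a b) l = a⁻¹ := by
  obtain ⟨i, j⟩ := l
  simp only at h
  subst h
  cases j <;> simp [lval, pr]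

theorem lval_true {a b c : Γ} {l : Lt} (h : l.1 = true) :
    lval (pr a b) l = lval (pr c b) l := by
  obtain ⟨i, j⟩ := l
  simp only at h
  subst h
  cases j <;> simp [lval, pr]

theorem lval_true' {a b : Γ} {l : Lt} (h : l.1 = true) :
    lval (pr a b) l = b ∨ lval (pr a b) l = b⁻¹ := by
  obtain ⟨i, j⟩ := l
  simp only at h
  subst h
  cases j <;> simp [lval, pr]

/-- A zone of the direction `a` of a hub block with hub `y` and main leaf `x`. -/
structure AZone [MeasurableSpace X] (x y a : Γ) (d : X → ℕ) (m W V : ℕ)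
    (FF N : X → Lt → Prop) : Prop where
  /-- The factor is Borel. -/
  meas : ∀ l, MeasurableSet {z | FF z l}
  /-- The factor is symmetric. -/
  symm : ∀ z l, FF z l ↔ FF (lval (pr x y) l • z) (linv l)
  /-- It is a 2-factor. -/
  two : ∀ z, {l | FF z l}.ncard = 2
  /-- Outside the zone it consists of lines. -/
  out : ∀ z l, W < exc d m z → (FF z l ↔ l.1 = false)
  /-- The middle of the zone of the main leaf. -/
  cx : a = x → ∀ z, d z = m → {u | EConn (lval (pr x y)) FF z u}.Finite ∧
    ∀ u, EConn (lval (pr x y)) FF z u → exc d m u ≤ W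
  /-- The middle of the zone of the hub. -/
  cy : a = y → ∀ z, d z = m → {u | EConn (lval (pr x y)) (fun z l => ¬ FF z l) z u}.Finite ∧
    ∀ u, EConn (lval (pr x y)) (fun z l => ¬ FF z l) z u → exc d m u ≤ W
  /-- The zones of the other leaves. -/
  hub : a ≠ x → a ≠ y → HubZone x y a d m W V FF N

theorem azone_x [MeasurableSpace X] {x y : Γ} (hxy : y ≠ x) {d : X → ℕ} {m W : ℕ}
    {FF : X → Lt → Prop} (h : ZoneFactor (pr x y) d m W FF) :
    AZone x y x d m W 0 FF FF :=
  ⟨h.meas, h.symm, h.two, h.out, fun _ => h.core, fun h' => absurd h'.symm hxy,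
    fun h' => absurd rfl h'⟩

theorem azone_y [MeasurableSpace X] {x y : Γ} (hxy : y ≠ x) {d : X → ℕ} {m W : ℕ}
    {FF : X → Lt → Prop} (h : ZoneFactor (pr y x) d m W FF) :
    AZone x y y d m W 0 (fun z l => ¬ FF z (lsw l)) FF := by
  refine ⟨fun l => (h.meas _).compl, ?_, ?_, ?_, fun h' => absurd h' hxy, fun _ => ?_,
    fun _ h' => absurd rfl h'⟩
  · intro z l
    rw [h.symm z (lsw l), lval_lsw]
    rfl
  · intro z
    have h1 : {l | ¬ FF z (lsw l)} = lsw '' {l | FF z l}ᶜ := by
      ext l
      simp only [mem_ofPred_eq, mem_image, mem_compl_iff]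
      constructor
      · intro h'
        exact ⟨lsw l, h', lsw_lsw l⟩
      · rintro ⟨l', h', rfl⟩
        rw [lsw_lsw]
        exact h'
    have hinj : Function.Injective lsw := fun a b hab => by
      rw [← lsw_lsw a, hab, lsw_lsw]
    rw [h1, Set.ncard_image_of_injective _ hinj]
    have h4 := Set.ncard_add_ncard_compl {l | FF z l}
    rw [h.two] at h4
    have h5 : Nat.card Lt = 4 := by
      rw [Nat.card_eq_fintype_card]
      rfl
    omega
  · intro z l hz
    rw [h.out z (lsw l) hz]
    obtain ⟨i, j⟩ := l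
    cases i <;> simp [lsw]
  · intro z hz
    obtain ⟨h1, h2⟩ := h.core z hz
    have h3 : ∀ u, EConn (lval (pr x y)) (fun z l => ¬ ¬ FF z (lsw l)) z u →
        EConn (lval (pr y x)) FF z u := by
      intro u hu
      induction hu with
      | refl => exact ReflTransGen.refl
      | @tail b c hb hc ih =>
        obtain ⟨l, hl, rfl⟩ := hc
        exact ih.tail ⟨lsw l, not_not.mp hl, by rw [lval_lsw]⟩
    exact ⟨h1.subset fun u hu => h3 u hu, fun u hu => h2 u (h3 u hu)⟩

theorem azone_c [MeasurableSpace X] {x y c : Γ} {d : X → ℕ} {m W V : ℕ}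
    {FF N : X → Lt → Prop} (hcx : c ≠ x) (hcy : c ≠ y) (h : HubZone x y c d m W V FF N) :
    AZone x y c d m W V FF N :=
  ⟨h.meas, h.symm, h.two, h.out, fun h' => absurd h' hcx, fun h' => absurd h' hcy,
    fun _ _ => h⟩

theorem econn_transfer {I : Type w} {val : I → Γ} {E E' : X → I → Prop} {u : X}
    (h : ∀ w, EConn val E' u w → ∀ i, E w i → E' w i) {w : X} (hw : EConn val E u w) :
    EConn val E' u w := by
  induction hw with
  | refl => exact ReflTransGen.refl
  | @tail b c hb hc ih =>
    obtain ⟨i, hi, rfl⟩ := hc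
    exact ih.tail ⟨i, h _ ih i hi, rfl⟩

/-- Components which avoid a sphere are finite. -/
theorem side_finite [MeasurableSpace X] {I : Type w} {val : I → Γ} {T : Set Γ}
    (hT : ∀ s ∈ T, s⁻¹ ∈ T) (hval : ∀ i, val i ∈ T) {E : X → I → Prop} {R : ℕ} {d : X → ℕ}
    {δ : X → Γ} (hrad : Radial T R d δ) {m : ℕ} (hm1 : 1 ≤ m) (hmR : m ≤ R) {z : X}
    (h : ∀ u, EConn val E z u → d u ≠ m) : {u | EConn val E z u}.Finite := by
  have hx := h z ReflTransGen.refl
  have hside : ∀ y, EConn val E z y → ((d z < m ↔ d y < m) ∧ (m < d z ↔ m < d y)) := by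
    intro y hy
    induction hy with
    | refl => exact ⟨Iff.rfl, Iff.rfl⟩
    | @tail u v hu hv ih =>
      have h3 := h _ (hu.tail hv)
      have h4 := h _ hu
      obtain ⟨i, _, rfl⟩ := hv
      have h5 := exc_step hrad hT 0 (hval i) u
      have h6 : d (val i • u) ≤ d u + 1 := h5.2.2.1
      have h7 : d u ≤ d (val i • u) + 1 := h5.2.2.2
      omega
  rcases lt_or_gt_of_ne hx with hlt | hgt
  · refine (hrad.fin0 z (by omega)).subset ?_
    intro u hu
    have hz' : EConn val E z u := hu
    clear hu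
    change Conn T {z | d z ≤ R} z u
    induction hz' with
    | refl => exact ReflTransGen.refl
    | @tail u v hu hv ih =>
      have h3 := (hside _ (hu.tail hv)).1.mp hlt
      obtain ⟨i, _, rfl⟩ := hv
      refine ReflTransGen.tail ih ⟨?_, val i, hval i, rfl⟩
      simp only [mem_ofPred_eq]
      omega
  · refine (hrad.fin1 z (by omega)).subset ?_
    intro u hu
    have hz' : EConn val E z u := hu
    clear hu
    change Conn T {z | 1 ≤ d z} z u
    induction hz' with
    | refl => exact ReflTransGen.refl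
    | @tail u v hu hv ih =>
      have h3 := (hside _ (hu.tail hv)).2.mp hgt
      obtain ⟨i, _, rfl⟩ := hv
      refine ReflTransGen.tail ih ⟨?_, val i, hval i, rfl⟩
      simp only [mem_ofPred_eq]
      omega

/-- Symmetry of sets of directions. -/
theorem sym_exists {g' : Bool → Γ} {P : X → Lt → Prop} {z : X} {s : Γ}
    (h : ∀ l, lval g' l = s → (P z l ↔ P (s • z) (linv l))) :
    (∃ l, lval g' l = s⁻¹ ∧ P (s • z) l) ↔ ∃ l, lval g' l = s ∧ P z l := by
  constructor
  · rintro ⟨l, hl, hP⟩
    have h1 : lval g' (linv l) = s := by rw [lval_linv, hl, inv_inv]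
    refine ⟨linv l, h1, ?_⟩
    rw [h _ h1, linv_linv]
    exact hP
  · rintro ⟨l, hl, hP⟩
    refine ⟨linv l, by rw [lval_linv, hl], ?_⟩
    exact (h l hl).mp hP

theorem ncard_lt : Nat.card Lt = 4 := by
  rw [Nat.card_eq_fintype_card]
  rfl

/-- Three edges of the cubic graph. -/
theorem ncard_three {P : Lt → Prop} (h2 : {l | P l}.ncard = 2)
    (h1 : {l | P l ∧ l.1 = false}.ncard = 1) : {l | l.1 = false ∨ P l}.ncard = 3 := by
  have e1 : {l | P l} = {l | P l ∧ l.1 = false} ∪ {l | P l ∧ l.1 = true} := by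
    ext l
    simp only [mem_ofPred_eq, mem_union]
    cases l.1 <;> simp
  have e2 : {l | l.1 = false ∨ P l} = {l : Lt | l.1 = false} ∪ {l | P l ∧ l.1 = true} := by
    ext l
    simp only [mem_ofPred_eq, mem_union]
    cases l.1 <;> simp
  have d1 : Disjoint {l | P l ∧ l.1 = false} {l | P l ∧ l.1 = true} := by
    rw [Set.disjoint_left]
    rintro l ⟨_, h⟩ ⟨_, h'⟩
    rw [h] at h'
    exact absurd h' (by decide)
  have d2 : Disjoint {l : Lt | l.1 = false} {l | P l ∧ l.1 = true} := by
    rw [Set.disjoint_left]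
    rintro l h ⟨_, h'⟩
    have h0 : l.1 = false := h
    rw [h0] at h'
    exact absurd h' (by decide)
  have h3 : {l : Lt | l.1 = false}.ncard = 2 := by
    have : {l : Lt | l.1 = false} = {((false, false) : Lt), ((false, true) : Lt)} := by
      ext ⟨i, j⟩
      cases i <;> cases j <;> simp
    rw [this, Set.ncard_pair (by simp)]
  rw [e1, Set.ncard_union_eq d1] at h2
  rw [e2, Set.ncard_union_eq d2]
  omega

end Run7.h916
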