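import Pool.Agent.Run7.h916.HubData

set_option autoImplicit false
set_option linter.unusedSectionVars false
set_option linter.unusedVariables false

/-!
Hub blocks in which every leaf forms a nilpotent pair with the hub.
-/

namespace Run7.h916

open Set Relation
open scoped Pointwise commutatorElement

universe u v w w'

section coord

variable {Γ : Type u} [Group Γ] {K : Type w} [Group K] (ι : K →* Γ) (ρ : Γ → K)
  (hρ : ∀ k γ, ρ (ι k * γ) = k * ρ γ) {g : Bool → K}

include hρ in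
theorem coord_lval (l : Lt) (γ : Γ) :
    ρ (lval (fun i => ι (g i)) l * γ) = lval g l * ρ γ := by
  rw [← map_lval, hρ]

include hρ in
theorem adm_coord {H : K → Lt → Prop} (W : List Lt) :
    ∀ γ : Γ, Adm g H (ρ γ) W → Adm (fun i => ι (g i)) (fun γ => H (ρ γ)) γ W := by
  induction W with
  | nil => intro γ _; trivial
  | cons l W ih =>
    intro γ h
    refine ⟨h.1, ih _ ?_⟩
    have := h.2
    rw [smul_eq_mul] at this ⊢
    rw [coord_lval ι ρ hρ]
    exact this

include hρ in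
theorem directed_coord {D : K → Lt → ℝ} (W : List Lt) :
    ∀ γ : Γ, Directed g D (ρ γ) W → Directed (fun i => ι (g i)) (fun γ => D (ρ γ)) γ W := by
  induction W with
  | nil => intro γ _; trivial
  | cons l W ih =>
    intro γ h
    refine ⟨h.1, ih _ ?_⟩
    have := h.2
    rw [smul_eq_mul] at this ⊢
    rw [coord_lval ι ρ hρ]
    exact this

include hρ in
theorem NullH.coord {H : K → Lt → Prop} {D : K → Lt → ℝ} (h : NullH g H D) :
    NullH (fun i => ι (g i)) (fun γ => H (ρ γ)) (fun γ => D (ρ γ)) := by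
  obtain ⟨L, C, h0, h1, h2⟩ := h
  refine ⟨L.map (fun p => (fun γ => p.1 (ρ γ), p.2)), C, h0, ?_, ?_⟩
  · intro p hp
    obtain ⟨p', hp', rfl⟩ := List.mem_map.mp hp
    obtain ⟨h3, h4, h5⟩ := h1 p' hp'
    refine ⟨?_, fun x => h4 _, fun x hx => adm_coord ι ρ hρ _ _ (h5 _ hx)⟩
    simp only
    rw [← map_wval, h3, map_one]
  · intro y s
    simp only
    rw [h2, List.map_map]
    congr 1
    refine List.map_congr_left fun p hp => ?_
    simp only [Function.comp]
    have := conv_transport (g := fun i => ι (g i)) (g' := g) (q := ρ) 1 p.2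
      (fun γ => p.1 (ρ γ)) p.1 y (fun x _ => by rw [one_mul])
      (fun x _ l => by rw [smul_eq_mul, smul_eq_mul]; exact coord_lval ι ρ hρ l x) s
    rw [this, one_mul]

include hρ in
theorem Mobile.coord {D : K → Lt → ℝ} (h : Mobile g D) :
    Mobile (fun i => ι (g i)) (fun γ => D (ρ γ)) := by
  obtain ⟨N, hN⟩ := h
  refine ⟨N, fun y l hl => ?_⟩
  obtain ⟨w, h1, h2, h3⟩ := hN (ρ y) l hl
  refine ⟨w, h1, ?_, directed_coord ι ρ hρ _ _ h3⟩
  rw [← map_wval, h2, map_one]

include hρ in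
theorem SymmE.coord {P : K → Lt → Prop} (h : SymmE g P) :
    SymmE (fun i => ι (g i)) (fun γ => P (ρ γ)) := by
  intro y l
  have := h (ρ y) l
  rw [smul_eq_mul] at this ⊢
  show P (ρ y) l ↔ P (ρ (lval (fun i => ι (g i)) l * y)) (linv l)
  rw [coord_lval ι ρ hρ]
  exact this

include hρ in
theorem FacData.coord {E : K → ℝ} {r k : ℕ} {H PA PL : K → Lt → Prop}
    (h : FacData g E r k H PA PL) :
    FacData (fun i => ι (g i)) (fun γ => E (ρ γ)) r k (fun γ => H (ρ γ)) (fun γ => PA (ρ γ))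
      (fun γ => PL (ρ γ)) := by
  refine ⟨h.k1, h.kr, fun x => h.E1 _, fun i x => ?_, h.HS.coord ι ρ hρ, fun x => h.Hr _,
    fun x l => h.AH _ l, fun x l => h.LH _ l, h.AS.coord ι ρ hρ, h.LS.coord ι ρ hρ,
    fun x => h.Ak _, fun x => h.Lk _, NullH.coord ι ρ hρ h.nullA, NullH.coord ι ρ hρ h.nullL,
    Mobile.coord ι ρ hρ h.mobA, Mobile.coord ι ρ hρ h.mobL⟩
  simp only [hρ]
  exact h.Eg i _

include hρ in
theorem per_coord {F Q : K → ℝ} {v w : K}
    (h : ∃ N, 1 ≤ N ∧ ∀ x, (fun x => pst w Q (pst v F x))^[N] x = x) :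
    ∃ N, 1 ≤ N ∧ ∀ x : Γ, (fun x => pst (ι w) (fun γ => Q (ρ γ))
      (pst (ι v) (fun γ => F (ρ γ)) x))^[N] x = x := by
  obtain ⟨N, hN, hper⟩ := h
  set σ : Γ → Γ := fun x => pst (ι w) (fun γ => Q (ρ γ)) (pst (ι v) (fun γ => F (ρ γ)) x) with hσ
  set σ' : K → K := fun x => pst w Q (pst v F x) with hσ'
  have hstep : ∀ (v : K) (F : K → ℝ) (x : Γ),
      pst (ι v) (fun γ => F (ρ γ)) x = ι (pst v F (ρ x) * (ρ x)⁻¹) * x := by
    intro v F x
    unfold pst
    split_ifs
    · rw [mul_inv_cancel_right]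
    · rw [mul_inv_cancel_right, map_inv]
  have hσσ : ∀ x : Γ, σ x = ι (σ' (ρ x) * (ρ x)⁻¹) * x := by
    intro x
    simp only [hσ, hσ']
    rw [hstep w Q, hstep v F x, hρ, inv_mul_cancel_right, ← mul_assoc, ← map_mul]
    congr 2
    group
  have hit : ∀ (n : ℕ) (x : Γ), σ^[n] x = ι (σ'^[n] (ρ x) * (ρ x)⁻¹) * x := by
    intro n
    induction n with
    | zero => intro x; simp
    | succ n ih =>
      intro x
      rw [Function.iterate_succ_apply', ih, hσσ, hρ, inv_mul_cancel_right,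
        Function.iterate_succ_apply', ← mul_assoc, ← map_mul]
      congr 2
      group
  refine ⟨N, hN, fun x => ?_⟩
  rw [hit, hper, mul_inv_cancel, map_one, one_mul]

end coord

variable {Γ : Type u} [Group Γ]

/-- The data of a nilpotent pair. -/
theorem NilPair.data {s t : Γ} (h : NilPair s t) :
    ∃ (G : Type u) (_ : Group G) (_ : Group.IsNilpotent G)
      (π : (Subgroup.closure {s, t} : Subgroup Γ) →* G), Function.Surjective π ∧
      (∀ k, π k = 1 → IsOfFinOrder k) ∧ TF G ∧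
      ¬ IsCyclic (Subgroup.closure ({π ⟨s, Subgroup.subset_closure (by simp)⟩,
        π ⟨t, Subgroup.subset_closure (by simp)⟩} : Set G) : Subgroup G) := by
  obtain ⟨L, hLn, hL, hnil, hTF, hnc⟩ := h
  refine ⟨(Subgroup.closure {s, t} : Subgroup Γ) ⧸ L, inferInstance, hnil, QuotientGroup.mk' L,
    QuotientGroup.mk'_surjective L, fun k hk => hL.isOfFinOrder
    ((QuotientGroup.eq_one_iff k).mp hk), hTF, ?_⟩
  have hsK : s ∈ Subgroup.closure ({s, t} : Set Γ) := Subgroup.subset_closure (by simp)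
  have htK : t ∈ Subgroup.closure ({s, t} : Set Γ) := Subgroup.subset_closure (by simp)
  have h1 : ({⟨s, hsK⟩, ⟨t, htK⟩} : Set (Subgroup.closure ({s, t} : Set Γ))) =
      Subtype.val ⁻¹' ({s, t} : Set Γ) := by
    ext x
    simp only [Set.mem_insert_iff, Set.mem_singleton_iff, Set.mem_preimage]
    constructor
    · rintro (rfl | rfl)
      · exact Or.inl rfl
      · exact Or.inr rfl
    · rintro (h | h)
      · exact Or.inl (Subtype.ext h)
      · exact Or.inr (Subtype.ext h)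
  have hgen : Subgroup.closure ({⟨s, hsK⟩, ⟨t, htK⟩} :
      Set (Subgroup.closure ({s, t} : Set Γ))) = ⊤ := by
    rw [h1]
    exact Subgroup.closure_closure_coe_preimage
  have hgen2 : Subgroup.closure ({QuotientGroup.mk' L ⟨s, hsK⟩, QuotientGroup.mk' L ⟨t, htK⟩} :
      Set ((Subgroup.closure {s, t} : Subgroup Γ) ⧸ L)) = ⊤ := by
    have h1 : ({QuotientGroup.mk' L ⟨s, hsK⟩, QuotientGroup.mk' L ⟨t, htK⟩} :
        Set ((Subgroup.closure {s, t} : Subgroup Γ) ⧸ L)) =
        QuotientGroup.mk' L '' {⟨s, hsK⟩, ⟨t, htK⟩} := by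
      rw [Set.image_pair]
    rw [h1, ← MonoidHom.map_closure, hgen, ← MonoidHom.range_eq_map]
    exact MonoidHom.range_eq_top.mpr (QuotientGroup.mk'_surjective L)
  rw [hgen2]
  intro h
  exact hnc (isCyclic_of_surjective
    (Subgroup.topEquiv (G := (Subgroup.closure {s, t} : Subgroup Γ) ⧸ L))
    (Subgroup.topEquiv (G := (Subgroup.closure {s, t} : Subgroup Γ) ⧸ L)).surjective)

theorem NilPair.symm {s t : Γ} (h : NilPair s t) : NilPair t s := by
  have : ({s, t} : Set Γ) = {t, s} := Set.pair_comm s t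
  unfold NilPair at h ⊢
  rwa [this] at h

/-- Coordinates adapted to a sign. -/
theorem exists_coord_sign {x y : Γ} {G : Type w} [Group G]
    (π : (Subgroup.closure {x, y} : Subgroup Γ) →* G) (hsurj : Function.Surjective π) {s : G → ℝ}
    (hs1 : ∀ k, s k = 1 ∨ s k = -1)
    (hsx : ∀ k, s (π ⟨x, Subgroup.subset_closure (by simp)⟩ * k) = s k)
    (hsy : ∀ k, s (π ⟨y, Subgroup.subset_closure (by simp)⟩ * k) = - s k) {Q : Γ → ℝ}
    (hQ1 : ∀ γ, Q γ = 1 ∨ Q γ = -1) (hQx : ∀ γ, Q (x * γ) = Q γ)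
    (hQy : ∀ γ, Q (y * γ) = - Q γ) :
    ∃ ρ : Γ → (Subgroup.closure {x, y} : Subgroup Γ),
      (∀ (h : (Subgroup.closure {x, y} : Subgroup Γ)) (γ : Γ), ρ ((h : Γ) * γ) = h * ρ γ) ∧
      ∀ γ, Q γ = s (π (ρ γ)) := by
  classical
  obtain ⟨ρ, hρ⟩ := exists_coord (Subgroup.closure {x, y} : Subgroup Γ)
  set yH : (Subgroup.closure {x, y} : Subgroup Γ) := ⟨y, Subgroup.subset_closure (by simp)⟩
    with hyH
  have key : ∀ (h : Γ) (hh : h ∈ Subgroup.closure ({x, y} : Set Γ)),
      ((∀ k, s (π ⟨h, hh⟩ * k) = s k) ∧ ∀ γ, Q (h * γ) = Q γ) ∨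
      ((∀ k, s (π ⟨h, hh⟩ * k) = - s k) ∧ ∀ γ, Q (h * γ) = - Q γ) := by
    intro h hh
    induction hh using Subgroup.closure_induction with
    | mem h hh =>
      rcases hh with rfl | rfl
      · exact Or.inl ⟨hsx, hQx⟩
      · exact Or.inr ⟨hsy, hQy⟩
    | one =>
      left
      have : (⟨1, Subgroup.one_mem _⟩ : (Subgroup.closure {x, y} : Subgroup Γ)) = 1 := rfl
      rw [this, map_one]
      exact ⟨fun k => by rw [one_mul], fun γ => by rw [one_mul]⟩
    | mul a b ha hb iha ihb =>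
      have : (⟨a * b, Subgroup.mul_mem _ ha hb⟩ : (Subgroup.closure {x, y} : Subgroup Γ)) =
        ⟨a, ha⟩ * ⟨b, hb⟩ := rfl
      rw [this, map_mul]
      rcases iha with ⟨h1, h2⟩ | ⟨h1, h2⟩ <;> rcases ihb with ⟨h3, h4⟩ | ⟨h3, h4⟩
      · left
        exact ⟨fun k => by rw [mul_assoc, h1, h3], fun γ => by rw [mul_assoc, h2, h4]⟩
      · right
        exact ⟨fun k => by rw [mul_assoc, h1, h3], fun γ => by rw [mul_assoc, h2, h4]⟩
      · right
        exact ⟨fun k => by rw [mul_assoc, h1, h3], fun γ => by rw [mul_assoc, h2, h4]⟩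
      · left
        exact ⟨fun k => by rw [mul_assoc, h1, h3, neg_neg],
          fun γ => by rw [mul_assoc, h2, h4, neg_neg]⟩
    | inv a ha iha =>
      have : (⟨a⁻¹, Subgroup.inv_mem _ ha⟩ : (Subgroup.closure {x, y} : Subgroup Γ)) =
        (⟨a, ha⟩ : (Subgroup.closure {x, y} : Subgroup Γ))⁻¹ := rfl
      rw [this, map_inv]
      rcases iha with ⟨h1, h2⟩ | ⟨h1, h2⟩
      · left
        exact ⟨fun k => even_inv h1 k, fun γ => even_inv h2 γ⟩
      · right
        exact ⟨fun k => odd_inv h1 k, fun γ => odd_inv h2 γ⟩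
  have hr : ∀ (h : (Subgroup.closure {x, y} : Subgroup Γ)) (γ : Γ),
      Q ((h : Γ) * γ) * s (π (ρ ((h : Γ) * γ))) = Q γ * s (π (ρ γ)) := by
    intro h γ
    rw [hρ, map_mul]
    rcases key h.1 h.2 with ⟨h1, h2⟩ | ⟨h1, h2⟩
    · rw [h1, h2]
    · rw [h1, h2, neg_mul_neg]
  have hright : ∀ k : G, s (k * π yH) = - s k := by
    intro k
    obtain ⟨h, rfl⟩ := hsurj k
    have h1 : s (π yH) = - s 1 := by
      have := hsy 1
      rwa [mul_one] at this
    rcases key h.1 h.2 with ⟨h2, _⟩ | ⟨h2, _⟩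
    · have h3 := h2 1
      rw [mul_one] at h3
      have h4 : s (π h) = s 1 := h3
      have h5 : s (π h * π yH) = s (π yH) := h2 _
      rw [h5, h1, h4]
    · have h3 := h2 1
      rw [mul_one] at h3
      have h4 : s (π h) = - s 1 := h3
      have h5 : s (π h * π yH) = - s (π yH) := h2 _
      rw [h5, h1, h4]
  refine ⟨fun γ => if Q γ * s (π (ρ γ)) = 1 then ρ γ else ρ γ * yH, ?_, ?_⟩
  · intro h γ
    simp only [hr]
    split_ifs
    · exact hρ h γ
    · rw [hρ, mul_assoc]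
  · intro γ
    by_cases h : Q γ * s (π (ρ γ)) = 1
    · simp only [h, if_true]
      rcases hQ1 γ with h1 | h1
      · rw [h1, one_mul] at h
        rw [h1, h]
      · rw [h1] at h ⊢
        linarith
    · simp only [h, if_false]
      rw [map_mul, hright]
      rcases hQ1 γ with h1 | h1
      · rw [h1, one_mul] at h
        rw [h1, (hs1 _).resolve_left h, neg_neg]
      · rcases hs1 (π (ρ γ)) with h2 | h2
        · rw [h1, h2]
        · rw [h1, h2] at h
          exact absurd (by norm_num) h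

end Run7.h916
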