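import Pool.Agent.Run7.h916.ClassBlock

set_option autoImplicit false
set_option linter.unusedSectionVars false
set_option linter.unusedVariables false

/-!
Division of a block into classes with finite components, from zone factors.
-/

namespace Run7.h916

open Set Relation
open scoped Pointwise

universe u v w

variable {Γ : Type u} [Group Γ] {X : Type v} [MulAction Γ X]

/-- A pair of directions. -/
def pr (a b : Γ) : Bool → Γ := fun i => if i then b else a

/-- Zone factors exist for the pair `a`, `b`. -/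
def HasZone (X : Type v) [MulAction Γ X] [MeasurableSpace X] (T : Set Γ) (a b : Γ) : Prop :=
  ∃ W M : ℕ, ∀ (R : ℕ) (d : X → ℕ) (δ : X → Γ), Radial T R d δ → ∀ m : ℕ, W < m → m + M ≤ R →
    ∃ FF : X → Lt → Prop, ZoneFactor (pr a b) d m W FF

theorem lval_pr_inj {a b : Γ} (ha : a ≠ a⁻¹) (hb : b ≠ b⁻¹) (h1 : b ≠ a) (h2 : b ≠ a⁻¹) :
    Function.Injective (lval (pr a b)) := by
  have h3 : a ≠ b⁻¹ := fun h => h2 (by rw [h, inv_inv])
  have h4 : a⁻¹ ≠ b⁻¹ := fun h => h1 (inv_injective h.symm)
  rintro ⟨i, j⟩ ⟨i', j'⟩ h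
  revert h
  cases i <;> cases j <;> cases i' <;> cases j' <;> simp [lval, pr, h1, h2, h3, h4, ha, hb,
    Ne.symm h1, Ne.symm h2, Ne.symm h3, Ne.symm h4, Ne.symm ha, Ne.symm hb]

/-- The class of a direction according to a zone factor. -/
noncomputable def clsa (a b : Γ) (FF : X → Lt → Prop) (x : X) (s : Γ) : Γ := by
  classical
  exact if ∃ l, lval (pr a b) l = s ∧ FF x l then a
    else if ∃ l, lval (pr a b) l = s then rep b else rep s

section

variable {a b : Γ} (ha : a ≠ a⁻¹) (hb : b ≠ b⁻¹) (h1 : b ≠ a) (h2 : b ≠ a⁻¹) (hra : rep a = a)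
  {d : X → ℕ} {m W : ℕ} {FF : X → Lt → Prop} [MeasurableSpace X]
  (hz : ZoneFactor (pr a b) d m W FF)

include ha hb h1 h2 hra in
theorem rep_ne : a ≠ rep b := by
  intro h
  rcases rep_eq b with h3 | h3
  · exact h1 (by rw [h, h3])
  · apply h2
    rw [h, h3, inv_inv]

theorem rep_lval (l : Lt) : rep (lval (pr a b) l) = if l.1 then rep b else rep a := by
  obtain ⟨i, j⟩ := l
  cases i <;> cases j <;> simp [lval, pr, rep_inv]

include ha hb h1 h2 in
theorem clsa_lval (x : X) (l : Lt) [Decidable (FF x l)] :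
    clsa a b FF x (lval (pr a b) l) = if FF x l then a else rep b := by
  classical
  have hinj := lval_pr_inj ha hb h1 h2
  unfold clsa
  by_cases h : FF x l
  · rw [if_pos ⟨l, rfl, h⟩, if_pos h]
  · rw [if_neg, if_pos ⟨l, rfl⟩, if_neg h]
    rintro ⟨l', hl, hl'⟩
    exact h (hinj hl ▸ hl')

theorem clsa_other (x : X) {s : Γ} (hs : ∀ l, lval (pr a b) l ≠ s) :
    clsa a b FF x s = rep s := by
  classical
  unfold clsa
  rw [if_neg, if_neg]
  · rintro ⟨l, hl⟩
    exact hs l hl
  · rintro ⟨l, hl, _⟩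
    exact hs l hl

include ha hb h1 h2 hra hz in
theorem clsa_out {x : X} (hx : W < exc d m x) (s : Γ) : clsa a b FF x s = rep s := by
  classical
  by_cases h : ∃ l, lval (pr a b) l = s
  · obtain ⟨l, rfl⟩ := h
    rw [clsa_lval ha hb h1 h2, rep_lval]
    have h3 := hz.out x l hx
    by_cases h4 : l.1 = false
    · rw [if_pos (h3.mpr h4), h4, hra]
      simp
    · rw [if_neg (fun h => h4 (h3.mp h))]
      simp only [Bool.not_eq_false] at h4
      rw [h4]
      simp
  · push Not at h
    exact clsa_other x h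

include ha hb h1 h2 hz in
theorem clsa_symm (x : X) (s : Γ) : clsa a b FF (s • x) s⁻¹ = clsa a b FF x s := by
  classical
  by_cases h : ∃ l, lval (pr a b) l = s
  · obtain ⟨l, rfl⟩ := h
    have h3 := hz.symm x l
    rw [← lval_linv, clsa_lval ha hb h1 h2, clsa_lval ha hb h1 h2]
    simp only [h3]
  · push Not at h
    have h' : ∀ l, lval (pr a b) l ≠ s⁻¹ := by
      intro l hl
      apply h (linv l)
      rw [lval_linv, hl, inv_inv]
    rw [clsa_other x h, clsa_other _ h', rep_inv]

include ha hb h1 h2 hz in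
theorem clsa_meas (s c : Γ) : MeasurableSet {x | clsa a b FF x s = c} := by
  classical
  by_cases h : ∃ l, lval (pr a b) l = s
  · obtain ⟨l, rfl⟩ := h
    have : {x | clsa a b FF x (lval (pr a b) l) = c} = ({x | FF x l} ∩ {x | a = c}) ∪
        ({x | FF x l}ᶜ ∩ {x | rep b = c}) := by
      ext x
      simp only [mem_ofPred_eq, mem_union, mem_inter_iff, mem_compl_iff]
      rw [clsa_lval ha hb h1 h2]
      by_cases h3 : FF x l
      · simp [h3]
      · simp [h3]
    rw [this]
    exact ((hz.meas l).inter (MeasurableSet.const _)).union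
      ((hz.meas l).compl.inter (MeasurableSet.const _))
  · push Not at h
    have : {x : X | clsa a b FF x s = c} = {x | rep s = c} := by
      ext x
      simp only [mem_ofPred_eq]
      rw [clsa_other x h]
    rw [this]
    exact MeasurableSet.const _

include ha hb h1 h2 hra hz in
theorem clsa_eq_a {x : X} {s : Γ} (h : clsa a b FF x s = a) :
    ∃ l, lval (pr a b) l = s ∧ FF x l := by
  classical
  have hne := rep_ne ha hb h1 h2 hra
  by_cases h3 : ∃ l, lval (pr a b) l = s
  · obtain ⟨l, rfl⟩ := h3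
    rw [clsa_lval ha hb h1 h2] at h
    by_cases h4 : FF x l
    · exact ⟨l, rfl, h4⟩
    · rw [if_neg h4] at h
      exact absurd h.symm hne
  · push Not at h3
    exfalso
    rw [clsa_other x h3] at h
    rcases rep_eq s with h4 | h4
    · apply h3 (false, false)
      rw [← h4, h]
      simp [lval, pr]
    · apply h3 (false, true)
      have : s = (rep s)⁻¹ := by rw [h4, inv_inv]
      rw [this, h]
      simp [lval, pr]

include ha hb h1 h2 hra hz in
theorem clsa_two {B : Finset Γ} (hB : ∀ s ∈ B, s⁻¹ ∈ B) (hne : ∀ s ∈ B, s ≠ s⁻¹) (haB : a ∈ B)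
    (hbB : b ∈ B) (x : X) {c : Γ} (hc : c ∈ B) (hrc : rep c = c) :
    {s | s ∈ B ∧ clsa a b FF x s = c}.ncard = 2 := by
  classical
  have hinj := lval_pr_inj ha hb h1 h2
  have hrne := rep_ne ha hb h1 h2 hra
  have hlB : ∀ l, lval (pr a b) l ∈ B := by
    rintro ⟨i, j⟩
    cases i <;> cases j <;> simp [lval, pr, haB, hbB, hB a haB, hB b hbB]
  have htwo := hz.two x
  by_cases hca : c = a
  · subst hca
    have : {s | s ∈ B ∧ clsa c b FF x s = c} = lval (pr c b) '' {l | FF x l} := by
      ext s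
      simp only [mem_ofPred_eq, mem_image]
      constructor
      · rintro ⟨_, h⟩
        obtain ⟨l, h3, h4⟩ := clsa_eq_a ha hb h1 h2 hra hz h
        exact ⟨l, h4, h3⟩
      · rintro ⟨l, h3, rfl⟩
        refine ⟨hlB l, ?_⟩
        rw [clsa_lval ha hb h1 h2, if_pos h3]
    rw [this, Set.ncard_image_of_injective _ hinj, htwo]
  · by_cases hcb : c = rep b
    · have hset : {s | s ∈ B ∧ clsa a b FF x s = c} = lval (pr a b) '' {l | FF x l}ᶜ := by
        ext s
        simp only [mem_ofPred_eq, mem_image, mem_compl_iff]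
        constructor
        · rintro ⟨_, h⟩
          by_cases h3 : ∃ l, lval (pr a b) l = s
          · obtain ⟨l, rfl⟩ := h3
            refine ⟨l, ?_, rfl⟩
            intro h4
            rw [clsa_lval ha hb h1 h2, if_pos h4] at h
            exact hca h.symm
          · push Not at h3
            exfalso
            rw [clsa_other x h3, hcb] at h
            have hsb : s = b ∨ s = b⁻¹ := by
              rcases rep_eq s with h4 | h4 <;> rcases rep_eq b with h5 | h5 <;>
                rw [h4, h5] at h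
              · exact Or.inl h
              · exact Or.inr h
              · right; rw [← h, inv_inv]
              · left; exact inv_injective h
            rcases hsb with h4 | h4
            · apply h3 (true, false)
              rw [h4]
              simp [lval, pr]
            · apply h3 (true, true)
              rw [h4]
              simp [lval, pr]
        · rintro ⟨l, h3, rfl⟩
          refine ⟨hlB l, ?_⟩
          rw [clsa_lval ha hb h1 h2, if_neg h3, hcb]
      rw [hset, Set.ncard_image_of_injective _ hinj]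
      have h4 := Set.ncard_add_ncard_compl {l | FF x l}
      rw [htwo] at h4
      have h5 : Nat.card Lt = 4 := by
        rw [Nat.card_eq_fintype_card]
        rfl
      omega
    · have : {s | s ∈ B ∧ clsa a b FF x s = c} = {c, c⁻¹} := by
        ext s
        simp only [mem_ofPred_eq, mem_insert_iff, mem_singleton_iff]
        constructor
        · rintro ⟨_, h⟩
          by_cases h3 : ∃ l, lval (pr a b) l = s
          · obtain ⟨l, rfl⟩ := h3
            rw [clsa_lval ha hb h1 h2] at h
            by_cases h4 : FF x l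
            · rw [if_pos h4] at h
              exact absurd h.symm hca
            · rw [if_neg h4] at h
              exact absurd h.symm hcb
          · push Not at h3
            rw [clsa_other x h3] at h
            rcases rep_eq s with h4 | h4
            · left; rw [← h, h4]
            · right; rw [← h, h4, inv_inv]
        · intro h
          have hs : rep s = c := by
            rcases h with rfl | rfl
            · exact hrc
            · rw [rep_inv]; exact hrc
          refine ⟨?_, ?_⟩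
          · rcases h with rfl | rfl
            · exact hc
            · exact hB _ hc
          · rw [clsa_other x, hs]
            rintro l rfl
            rw [rep_lval] at hs
            split_ifs at hs
            · exact hcb hs.symm
            · exact hca (by rw [← hs, hra])
      rw [this, Set.ncard_pair (hne c hc)]

include ha hb h1 h2 hra in
theorem clsa_mem {B : Finset Γ} (hB : ∀ s ∈ B, s⁻¹ ∈ B) (haB : a ∈ B)
    (hbB : b ∈ B) (x : X) {s : Γ} (hs : s ∈ B) :
    clsa a b FF x s ∈ B ∧ rep (clsa a b FF x s) = clsa a b FF x s := by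
  classical
  have hrep : ∀ s ∈ B, rep s ∈ B := by
    intro s hs
    rcases rep_eq s with h | h
    · rw [h]; exact hs
    · rw [h]; exact hB s hs
  unfold clsa
  split_ifs
  · exact ⟨haB, hra⟩
  · exact ⟨hrep b hbB, rep_rep b⟩
  · exact ⟨hrep s hs, rep_rep s⟩

end

theorem rep_two {B : Finset Γ} (hB : ∀ s ∈ B, s⁻¹ ∈ B) (hne : ∀ s ∈ B, s ≠ s⁻¹) {c : Γ}
    (hc : c ∈ B) (hrc : rep c = c) : {s | s ∈ B ∧ rep s = c}.ncard = 2 := by
  have : {s | s ∈ B ∧ rep s = c} = {c, c⁻¹} := by
    ext s
    simp only [mem_ofPred_eq, mem_insert_iff, mem_singleton_iff]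
    constructor
    · rintro ⟨_, h⟩
      rcases rep_eq s with h4 | h4
      · left; rw [← h, h4]
      · right; rw [← h, h4, inv_inv]
    · rintro (rfl | rfl)
      · exact ⟨hc, hrc⟩
      · exact ⟨hB _ hc, by rw [rep_inv]; exact hrc⟩
  rw [this, Set.ncard_pair (hne c hc)]

/-- The division into classes exists. -/
theorem exists_classes [MeasurableSpace X] [StandardBorelSpace X] [Countable Γ]
    (hX : IsFreeBorel Γ X) {T : Set Γ} (hT1 : (1 : Γ) ∈ T) (hT : ∀ m ∈ T, m⁻¹ ∈ T)
    (hTfin : T.Finite) (hsep : SepAct T X) {B : Finset Γ} (hBT : ∀ s ∈ B, s ∈ T)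
    (hB : ∀ s ∈ B, s⁻¹ ∈ B) (hne : ∀ s ∈ B, s ≠ s⁻¹)
    (hzone : ∀ a ∈ B, ∃ b ∈ B, b ≠ a ∧ b ≠ a⁻¹ ∧ HasZone X T a b) :
    ∃ cls, Classes B X cls := by
  classical
  have hch : ∀ a : Γ, ∃ (b : Γ) (W M : ℕ), a ∈ B → b ∈ B ∧ b ≠ a ∧ b ≠ a⁻¹ ∧
      ∀ (R : ℕ) (d : X → ℕ) (δ : X → Γ), Radial T R d δ → ∀ m : ℕ, W < m → m + M ≤ R →
        ∃ FF : X → Lt → Prop, ZoneFactor (pr a b) d m W FF := by
    intro a
    by_cases ha : a ∈ B
    · obtain ⟨b, hb, h1, h2, W, M, h⟩ := hzone a ha
      exact ⟨b, W, M, fun _ => ⟨hb, h1, h2, h⟩⟩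
    · exact ⟨1, 0, 0, fun h => absurd h ha⟩
  choose b W M hbWM using hch
  obtain ⟨W0, hW0⟩ : ∃ W0, ∀ a ∈ B, W a ≤ W0 :=
    ⟨∑ a ∈ B, W a, fun a ha => Finset.single_le_sum (fun _ _ => Nat.zero_le _) ha⟩
  obtain ⟨M0, hM0⟩ : ∃ M0, ∀ a ∈ B, M a ≤ M0 :=
    ⟨∑ a ∈ B, M a, fun a ha => Finset.single_le_sum (fun _ _ => Nat.zero_le _) ha⟩
  obtain ⟨idx, hidx, hinj⟩ : ∃ idx : Γ → ℕ, (∀ s ∈ B, idx s + 1 ≤ B.card) ∧
      ∀ s ∈ B, ∀ t ∈ B, idx s = idx t → s = t := by
    refine ⟨fun s => if h : s ∈ B then (B.equivFin ⟨s, h⟩ : ℕ) else 0, ?_, ?_⟩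
    · intro s hs
      simp only
      rw [dif_pos hs]
      exact (B.equivFin ⟨s, hs⟩).2
    · intro s hs t ht h
      simp only at h
      rw [dif_pos hs, dif_pos ht] at h
      exact congrArg Subtype.val (B.equivFin.injective (Fin.ext h))
  obtain ⟨q, hq⟩ : ∃ q, q = 2 * W0 + 3 := ⟨_, rfl⟩
  obtain ⟨ctr, hctr⟩ : ∃ ctr : Γ → ℕ, ∀ a, ctr a = (W0 + 1) + idx a * q := ⟨_, fun a => rfl⟩
  obtain ⟨R, hR⟩ : ∃ R, R = (W0 + 1) + B.card * q + M0 := ⟨_, rfl⟩
  obtain ⟨d, δ, hrad⟩ := exists_radial hX hT1 hT hTfin hsep R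
  have hctr1 : ∀ a ∈ B, W a < ctr a := by
    intro a ha
    have := hW0 a ha
    rw [hctr]
    have h2 := Nat.zero_le (idx a * q)
    omega
  have hctr3 : ∀ a ∈ B, ctr a + q ≤ (W0 + 1) + B.card * q := by
    intro a ha
    have h2 := Nat.mul_le_mul_right q (hidx a ha)
    rw [add_mul, one_mul] at h2
    rw [hctr]
    omega
  have hctr2 : ∀ a ∈ B, ctr a + M a ≤ R := by
    intro a ha
    have := hM0 a ha
    have h2 := hctr3 a ha
    omega
  have hFFex : ∀ a : Γ, ∃ FF : X → Lt → Prop,
      a ∈ B → ZoneFactor (pr a (b a)) d (ctr a) (W a) FF := by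
    intro a
    by_cases ha : a ∈ B
    · obtain ⟨FF, hFF⟩ := (hbWM a ha).2.2.2 R d δ hrad (ctr a) (hctr1 a ha) (hctr2 a ha)
      exact ⟨FF, fun _ => hFF⟩
    · exact ⟨fun _ _ => False, fun h => absurd h ha⟩
  choose FF hFF using hFFex
  have hdis : ∀ a ∈ B, ∀ a' ∈ B, ∀ x, exc d (ctr a) x ≤ W a → exc d (ctr a') x ≤ W a' + 1 →
      a = a' := by
    intro a ha a' ha' x h1 h2
    apply hinj a ha a' ha'
    by_contra hne'
    have h3 := hW0 a ha
    have h4 := hW0 a' ha'
    have h5 := hctr a
    have h6 := hctr a'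
    unfold exc at h1 h2
    rcases lt_or_gt_of_ne hne' with h | h
    · have h7 := Nat.mul_le_mul_right q (Nat.succ_le_of_lt h)
      rw [Nat.succ_mul] at h7
      omega
    · have h7 := Nat.mul_le_mul_right q (Nat.succ_le_of_lt h)
      rw [Nat.succ_mul] at h7
      omega
  let cls : X → Γ → Γ := fun x s => if h : ∃ a, a ∈ B ∧ rep a = a ∧ exc d (ctr a) x ≤ W a then
    clsa h.choose (b h.choose) (FF h.choose) x s else rep s
  have K1 : ∀ a, a ∈ B → rep a = a → ∀ x, exc d (ctr a) x ≤ W a → ∀ s,
      cls x s = clsa a (b a) (FF a) x s := by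
    intro a ha hra x hx s
    have h : ∃ a, a ∈ B ∧ rep a = a ∧ exc d (ctr a) x ≤ W a := ⟨a, ha, hra, hx⟩
    have e : a = h.choose := hdis a ha _ h.choose_spec.1 x hx
      (h.choose_spec.2.2.trans (Nat.le_succ _))
    simp only [cls]
    rw [dif_pos h, ← e]
  have K2 : ∀ x, (∀ a, a ∈ B → rep a = a → ¬ exc d (ctr a) x ≤ W a) → ∀ s,
      cls x s = rep s := by
    intro x hx s
    simp only [cls]
    rw [dif_neg]
    rintro ⟨a, ha, hra, h⟩
    exact hx a ha hra h
  have K3 : ∀ a, a ∈ B → rep a = a → ∀ x, ¬ exc d (ctr a) x ≤ W a → ∀ s,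
      clsa a (b a) (FF a) x s = rep s := by
    intro a ha hra x hx s
    obtain ⟨hb, h1, h2, _⟩ := hbWM a ha
    exact clsa_out (hne a ha) (hne _ hb) h1 h2 hra (hFF a ha) (not_le.mp hx) s
  have K4 : ∀ a, a ∈ B → rep a = a → ∀ x, ∀ t ∈ T, (exc d (ctr a) x ≤ W a ∨
      exc d (ctr a) (t • x) ≤ W a) → ∀ s, cls x s = clsa a (b a) (FF a) x s := by
    intro a ha hra x t ht hx s
    by_cases h : exc d (ctr a) x ≤ W a
    · exact K1 a ha hra x h s
    · rw [K3 a ha hra x h s]
      apply K2
      intro a' ha' hra' h'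
      have h1 := (exc_step hrad hT (ctr a') ht x).1
      have h2 := hx.resolve_left h
      have := hdis a ha a' ha' (t • x) h2 (by omega)
      rw [this] at h
      exact h h'
  have hem : ∀ m k, MeasurableSet {y | exc d m y ≤ k} := by
    intro m k
    have : {y | exc d m y ≤ k} = ⋃ j : ℕ, {y | d y = j} ∩ {y | ((j : ℤ) - m).natAbs ≤ k} := by
      ext y
      simp only [mem_ofPred_eq, mem_iUnion, mem_inter_iff]
      constructor
      · intro h
        exact ⟨d y, rfl, h⟩
      · rintro ⟨j, rfl, h⟩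
        exact h
    rw [this]
    exact MeasurableSet.iUnion fun j => (hrad.dm j).inter (MeasurableSet.const _)
  have hcases : ∀ x, (∃ a, a ∈ B ∧ rep a = a ∧ exc d (ctr a) x ≤ W a) ∨
      (∀ a, a ∈ B → rep a = a → ¬ exc d (ctr a) x ≤ W a) := by
    intro x
    by_cases h : ∃ a, a ∈ B ∧ rep a = a ∧ exc d (ctr a) x ≤ W a
    · exact Or.inl h
    · push Not at h
      exact Or.inr fun a h1 h2 => not_le.mpr (h a h1 h2)
  refine ⟨cls, ?_, ?_, ?_, ?_, ?_⟩
  · intro s c
    have : {x | cls x s = c} = (⋃ a : {a // a ∈ B ∧ rep a = a}, {x | exc d (ctr a) x ≤ W a} ∩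
        {x | clsa (a : Γ) (b a) (FF a) x s = c}) ∪
        ((⋂ a : {a // a ∈ B ∧ rep a = a}, {x | exc d (ctr a) x ≤ W a}ᶜ) ∩ {x | rep s = c}) := by
      ext x
      simp only [mem_ofPred_eq, mem_iUnion, mem_inter_iff, mem_union, mem_iInter, mem_compl_iff,
        Subtype.exists, Subtype.forall]
      constructor
      · intro h
        rcases hcases x with ⟨a, ha, hra, hx⟩ | hx
        · left
          refine ⟨a, ⟨ha, hra⟩, hx, ?_⟩
          rw [← K1 a ha hra x hx, h]
        · right
          refine ⟨fun a ha => hx a ha.1 ha.2, ?_⟩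
          rw [← K2 x hx, h]
      · rintro (⟨a, ⟨ha, hra⟩, hx, h⟩ | ⟨hx, h⟩)
        · rw [K1 a ha hra x hx, h]
        · rw [K2 x (fun a ha hra => hx a ⟨ha, hra⟩), h]
    rw [this]
    refine MeasurableSet.union (MeasurableSet.iUnion fun a => (hem _ _).inter ?_)
      ((MeasurableSet.iInter fun a => (hem _ _).compl).inter (MeasurableSet.const _))
    obtain ⟨hb, h1, h2, _⟩ := hbWM a a.2.1
    exact clsa_meas (hne a a.2.1) (hne _ hb) h1 h2 (hFF a a.2.1) s c
  · intro x s hs
    rcases hcases x with ⟨a, ha, hra, hx⟩ | hx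
    · rw [K1 a ha hra x hx]
      obtain ⟨hb, h1, h2, _⟩ := hbWM a ha
      exact clsa_mem (hne a ha) (hne _ hb) h1 h2 hra hB ha hb x hs
    · rw [K2 x hx]
      refine ⟨?_, rep_rep s⟩
      rcases rep_eq s with h | h
      · rw [h]; exact hs
      · rw [h]; exact hB s hs
  · intro x s hs
    have hsT := hBT s hs
    by_cases h : ∃ a, a ∈ B ∧ rep a = a ∧ (exc d (ctr a) x ≤ W a ∨ exc d (ctr a) (s • x) ≤ W a)
    · obtain ⟨a, ha, hra, h⟩ := h
      obtain ⟨hb, h1, h2, _⟩ := hbWM a ha
      rw [K4 a ha hra x s hsT h, K4 a ha hra (s • x) s⁻¹ (hT s hsT) (by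
        rw [inv_smul_smul]; exact h.symm)]
      exact clsa_symm (hne a ha) (hne _ hb) h1 h2 (hFF a ha) x s
    · push Not at h
      rw [K2 x (fun a ha hra => not_le.mpr (h a ha hra).1),
        K2 (s • x) (fun a ha hra => not_le.mpr (h a ha hra).2), rep_inv]
  · intro x c hc hrc
    rcases hcases x with ⟨a, ha, hra, hx⟩ | hx
    · have : {s | s ∈ B ∧ cls x s = c} = {s | s ∈ B ∧ clsa a (b a) (FF a) x s = c} := by
        ext s
        simp only [mem_ofPred_eq]
        rw [K1 a ha hra x hx]
      rw [this]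
      obtain ⟨hb, h1, h2, _⟩ := hbWM a ha
      exact clsa_two (hne a ha) (hne _ hb) h1 h2 hra (hFF a ha) hB hne ha hb x hc hrc
    · have : {s | s ∈ B ∧ cls x s = c} = {s | s ∈ B ∧ rep s = c} := by
        ext s
        simp only [mem_ofPred_eq]
        rw [K2 x hx]
      rw [this]
      exact rep_two hB hne hc hrc
  · intro c hc hrc x
    obtain ⟨hb, h1, h2, _⟩ := hbWM c hc
    set E : X → B → Prop := fun x (s : B) => cls x s = c with hE
    set val : B → Γ := fun s : B => (s : Γ) with hval
    by_cases h : ∃ y, EConn val E x y ∧ d y = ctr c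
    · obtain ⟨y, hxy, hy⟩ := h
      obtain ⟨hfin, hcore⟩ := (hFF c hc).core y hy
      have hinvB : ∀ s : B, (s : Γ)⁻¹ ∈ B := fun s => hB s s.2
      have hEs : ∀ x (i : B), E x i → E (val i • x) ⟨(i : Γ)⁻¹, hinvB i⟩ := by
        intro x i hi
        have hi' : cls x i = c := hi
        change cls ((i : Γ) • x) (i : Γ)⁻¹ = c
        by_cases h : ∃ a, a ∈ B ∧ rep a = a ∧
          (exc d (ctr a) x ≤ W a ∨ exc d (ctr a) ((i : Γ) • x) ≤ W a)
        · obtain ⟨a, ha, hra, h⟩ := h
          obtain ⟨hb, h1, h2, _⟩ := hbWM a ha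
          rw [K4 a ha hra ((i : Γ) • x) (i : Γ)⁻¹ (hT _ (hBT _ i.2)) (by
            rw [inv_smul_smul]; exact h.symm),
            clsa_symm (hne a ha) (hne _ hb) h1 h2 (hFF a ha) x i,
            ← K4 a ha hra x i (hBT _ i.2) h]
          exact hi'
        · push Not at h
          rw [K2 _ (fun a ha hra => not_le.mpr (h a ha hra).2), rep_inv,
            ← K2 x (fun a ha hra => not_le.mpr (h a ha hra).1)]
          exact hi'
      have hyx : EConn val E y x :=
        hxy.symm (inv := fun i => ⟨(i : Γ)⁻¹, hinvB i⟩) (fun i => rfl) hEs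
      refine hfin.subset ?_
      intro z hz
      have hz' : EConn val E y z := hxy.symm (inv := fun i => ⟨(i : Γ)⁻¹, hinvB i⟩)
        (fun i => rfl) hEs |>.trans hz
      clear hz
      change EConn (lval (pr c (b c))) (FF c) y z
      induction hz' with
      | refl => exact ReflTransGen.refl
      | @tail u v hu hv ih =>
        obtain ⟨i, hi, rfl⟩ := hv
        have hi' : cls u i = c := hi
        rw [K1 c hc hrc u (hcore u ih)] at hi'
        obtain ⟨l, hl1, hl2⟩ := clsa_eq_a (hne c hc) (hne _ hb) h1 h2 hrc (hFF c hc) hi'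
        exact ReflTransGen.tail ih ⟨l, hl2, by rw [hl1]⟩
    · push Not at h
      have hx := h x ReflTransGen.refl
      have hside : ∀ y, EConn val E x y → ((d x < ctr c ↔ d y < ctr c) ∧
          (ctr c < d x ↔ ctr c < d y)) := by
        intro y hy
        induction hy with
        | refl => exact ⟨Iff.rfl, Iff.rfl⟩
        | @tail u v hu hv ih =>
          have h3 := h _ (hu.tail hv)
          have h4 := h _ hu
          obtain ⟨i, _, rfl⟩ := hv
          have h5 := exc_step hrad hT 0 (hBT _ i.2) u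
          have h6 : d (val i • u) ≤ d u + 1 := h5.2.2.1
          have h7 : d u ≤ d (val i • u) + 1 := h5.2.2.2
          omega
      rcases lt_or_gt_of_ne hx with hlt | hgt
      · have hcR : ctr c ≤ R := by have := hctr2 c hc; omega
        refine (hrad.fin0 x (by omega)).subset ?_
        intro z hz
        have hz' : EConn val E x z := hz
        clear hz
        change Conn T {z | d z ≤ R} x z
        induction hz' with
        | refl => exact ReflTransGen.refl
        | @tail u v hu hv ih =>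
          have h3 := (hside _ (hu.tail hv)).1.mp hlt
          obtain ⟨i, _, rfl⟩ := hv
          refine ReflTransGen.tail ih ⟨?_, i, hBT _ i.2, rfl⟩
          simp only [mem_ofPred_eq]
          omega
      · refine (hrad.fin1 x (by omega)).subset ?_
        intro z hz
        have hz' : EConn val E x z := hz
        clear hz
        change Conn T {z | 1 ≤ d z} x z
        induction hz' with
        | refl => exact ReflTransGen.refl
        | @tail u v hu hv ih =>
          have h3 := (hside _ (hu.tail hv)).2.mp hgt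
          obtain ⟨i, _, rfl⟩ := hv
          refine ReflTransGen.tail ih ⟨?_, i, hBT _ i.2, rfl⟩
          simp only [mem_ofPred_eq]
          omega

end Run7.h916
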