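import Pool.Agent.Run7.h916.ZoneG
import Pool.Agent.Run7.h916.ZoneClass

set_option autoImplicit false
set_option linter.unusedSectionVars false
set_option linter.unusedVariables false

/-!
Zones of the leaves of a hub.
-/

namespace Run7.h916

open Set Relation
open scoped Pointwise

universe u v w

variable {Γ : Type u} [Group Γ] {X : Type v} [MulAction Γ X]

section orbit

variable {K : Type w} [Group K] {g : Bool → K} {F Q : K → ℝ}

/-- The orbit of a point under a pattern. -/
theorem orbit_closed' (F1 : ∀ x, F x = 1 ∨ F x = -1) (Q1 : ∀ x, Q x = 1 ∨ Q x = -1)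
    (Fv : ∀ x, F (g false * x) = - F x) (Qw : ∀ x, Q (g true * x) = - Q x) {N : ℕ} (hN : 1 ≤ N)
    (hper : ∀ x, (fun x => pst (g true) Q (pst (g false) F x))^[N] x = x) (k : K) :
    ∃ O : Set K, k ∈ O ∧ O ⊆ Ball g (2 * N) k ∧ ∀ x ∈ O, ∀ l, APat F Q x l → lval g l * x ∈ O := by
  have hcases : ∀ (k : K) (l : Lt), APat F Q k l →
      lval g l * k = pst (g false) F k ∨ lval g l * k = pst (g true) Q k := by
    intro k l hA
    unfold APat at hA
    obtain ⟨i, j⟩ := l
    cases i <;> cases j
    · left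
      simp at hA
      simp [pst, lval, hA]
    · left
      simp at hA
      have : F k = -1 := by linarith
      have h' : ¬ F k = 1 := by rw [this]; norm_num
      simp [pst, lval, h']
    · right
      simp at hA
      simp [pst, lval, hA]
    · right
      simp at hA
      have : Q k = -1 := by linarith
      have h' : ¬ Q k = 1 := by rw [this]; norm_num
      simp [pst, lval, h']
  set σ : K → K := fun x => pst (g true) Q (pst (g false) F x) with hσ
  have hpst : ∀ i (F : K → ℝ) x, ∃ l, pst (g i) F x = lval g l • x := by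
    intro i F x
    unfold pst
    split_ifs
    · exact ⟨(i, false), by simp [lval]⟩
    · exact ⟨(i, true), by simp [lval]⟩
  have hstep : ∀ i (F : K → ℝ) x n, x ∈ Ball g n k → pst (g i) F x ∈ Ball g (n + 1) k := by
    intro i F x n hx
    obtain ⟨l, hl⟩ := hpst i F x
    rw [hl]
    exact Ball.step hx l
  have hit : ∀ i, σ^[i] k ∈ Ball g (2 * i) k := by
    intro i
    induction i with
    | zero => exact mem_ball_self _ _
    | succ i ih =>
      rw [Function.iterate_succ_apply']
      have := hstep true Q _ _ (hstep false F _ _ ih)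
      exact Ball.mono (by omega) k this
  have hmod : ∀ i, σ^[i] k = σ^[i % N] k := by
    intro i
    have h1 : ∀ j, (σ^[N])^[j] (σ^[i % N] k) = σ^[i % N] k := by
      intro j
      induction j with
      | zero => rfl
      | succ j ih => rw [Function.iterate_succ_apply', ih, hper]
    conv_lhs => rw [← Nat.mod_add_div i N, add_comm, Function.iterate_add_apply,
      Function.iterate_mul]
    exact h1 _
  let O : Set K := {x | ∃ i, x = σ^[i] k ∨ x = pst (g false) F (σ^[i] k)}
  refine ⟨O, ⟨0, Or.inl rfl⟩, ?_, ?_⟩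
  · rintro x ⟨i, hx | hx⟩
    · rw [hx, hmod]
      exact Ball.mono (by have := Nat.mod_lt i hN; omega) k (hit _)
    · rw [hx, hmod]
      exact Ball.mono (by have := Nat.mod_lt i hN; omega) k (hstep false F _ _ (hit (i % N)))
  · intro x hx l hA
    rcases hcases x l hA with h1 | h1
    · rw [h1]
      obtain ⟨i, hx | hx⟩ := hx
      · exact ⟨i, Or.inr (by rw [hx])⟩
      · refine ⟨i, Or.inl ?_⟩
        rw [hx, pst_pst F1 Fv]
    · rw [h1]
      obtain ⟨i, hx | hx⟩ := hx
      · refine ⟨i + (N - 1), Or.inr ?_⟩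
        have h2 : σ^[i] k = σ (σ^[i + (N - 1)] k) := by
          rw [← Function.iterate_succ_apply' σ]
          have : (i + (N - 1)).succ = i + N := by omega
          rw [this, Function.iterate_add_apply, hper]
        rw [hx, h2]
        simp only [hσ]
        rw [pst_pst Q1 Qw]
      · refine ⟨i + 1, Or.inl ?_⟩
        rw [hx, Function.iterate_succ_apply']

/-- The components of a pattern are bounded. -/
theorem comp_pattern (F1 : ∀ x, F x = 1 ∨ F x = -1) (Q1 : ∀ x, Q x = 1 ∨ Q x = -1)
    (Fv : ∀ x, F (g false * x) = - F x) (Qw : ∀ x, Q (g true * x) = - Q x) {N : ℕ} (hN : 1 ≤ N)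
    (hper : ∀ x, (fun x => pst (g true) Q (pst (g false) F x))^[N] x = x) (ι : K →* Γ)
    {q : X → K} {d : X → ℕ} {m w : ℕ} {FF : X → Lt → Prop}
    (hest : ∀ y l, exc d m (lval (fun i => ι (g i)) l • y) ≤ exc d m y + 1)
    (hq : ∀ z, exc d m z ≤ w → ∀ l, q (lval (fun i => ι (g i)) l • z) = lval g l * q z)
    (hFF : ∀ z l, exc d m z ≤ w → FF z l → APat F Q (q z) l) {z : X}
    (hz : exc d m z + 2 * N ≤ w) :
    {u | EConn (lval (fun i => ι (g i))) FF z u}.Finite ∧
      ∀ u, EConn (lval (fun i => ι (g i))) FF z u → exc d m u ≤ exc d m z + 2 * N := by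
  set g' : Bool → Γ := fun i => ι (g i) with hg'
  obtain ⟨O, hO1, hO2, hO3⟩ := orbit_closed' F1 Q1 Fv Qw hN hper (q z)
  let o : K → X := fun k => ι (k * (q z)⁻¹) • z
  have ho : ∀ k l, o (lval g l * k) = lval g' l • o k := by
    intro k l
    simp only [o]
    rw [mul_assoc, map_mul, mul_smul, map_lval]
  have hoy : o (q z) = z := by simp [o]
  have hob : ∀ k ∈ Ball g (2 * N) (q z), q (o k) = k ∧ exc d m (o k) ≤ exc d m z + 2 * N := by
    rintro _ ⟨w', hw, rfl⟩
    have : ∀ w' : List Lt, w'.length ≤ 2 * N → q (o (wval g w' * q z)) = wval g w' * q z ∧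
        exc d m (o (wval g w' * q z)) ≤ exc d m z + w'.length := by
      intro w'
      induction w' using List.reverseRecOn with
      | nil =>
        intro _
        simp only [wval_nil, one_mul]
        rw [hoy]
        simp
      | append_singleton w' l ih =>
        intro hw
        rw [List.length_append] at hw
        simp only [List.length_cons, List.length_nil] at hw
        have h2 : wval g [l] = lval g l := by simp
        obtain ⟨ih1, ih2⟩ := ih (by omega)
        rw [wval_append, h2, mul_assoc, ho, hq _ (by omega), ih1]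
        refine ⟨rfl, ?_⟩
        have := hest (o (wval g w' * q z)) l
        rw [List.length_append]
        simp only [List.length_cons, List.length_nil]
        omega
    obtain ⟨h1, h2⟩ := this w' hw
    rw [smul_eq_mul]
    exact ⟨h1, by omega⟩
  have hcomp : ∀ x, EConn (lval g') FF z x → ∃ k ∈ O, x = o k := by
    intro x hx
    induction hx with
    | refl => exact ⟨q z, hO1, hoy.symm⟩
    | @tail b c hb hc ih =>
      obtain ⟨k, hk, rfl⟩ := ih
      obtain ⟨l, hl, rfl⟩ := hc
      obtain ⟨h1, h2⟩ := hob k (hO2 hk)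
      have hA := hFF _ l (by omega) hl
      rw [h1] at hA
      exact ⟨lval g l * k, hO3 k hk l hA, (ho k l).symm⟩
  refine ⟨?_, ?_⟩
  · have hOfin : O.Finite := (ball_finite (2 * N) (q z)).subset hO2
    refine (hOfin.image o).subset ?_
    intro x hx
    obtain ⟨k, hk, rfl⟩ := hcomp x hx
    exact ⟨k, hk, rfl⟩
  · intro x hx
    obtain ⟨k, hk, rfl⟩ := hcomp x hx
    exact (hob k (hO2 hk)).2

end orbit

/-- A zone of the leaf `c` of a hub `y` with the main leaf `x`: a factor of the graph of `x` and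
`y`, and a perfect matching of a cubic graph inside. -/
structure HubZone [MeasurableSpace X] (x y c : Γ) (d : X → ℕ) (m W V : ℕ)
    (FF N : X → Lt → Prop) : Prop where
  /-- The factor is Borel. -/
  meas : ∀ l, MeasurableSet {z | FF z l}
  /-- The factor is symmetric. -/
  symm : ∀ z l, FF z l ↔ FF (lval (pr x y) l • z) (linv l)
  /-- It is a 2-factor. -/
  two : ∀ z, {l | FF z l}.ncard = 2
  /-- Outside the zone it consists of lines. -/
  out : ∀ z l, W < exc d m z → (FF z l ↔ l.1 = false)
  /-- The widths. -/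
  VW : V + 1 ≤ W
  /-- The components inside are alternating cycles. -/
  mat : ∀ z, exc d m z ≤ V + 1 → ∀ u, EConn (lval (pr x y)) FF z u →
    exc d m u ≤ W ∧ {l | FF u l ∧ l.1 = false}.ncard = 1
  /-- The matching is Borel. -/
  Nmeas : ∀ l, MeasurableSet {z | N z l}
  /-- The matching is symmetric. -/
  Nsymm : ∀ z l, exc d m z ≤ V + 1 → (N z l ↔ N (lval (pr c y) l • z) (linv l))
  /-- The matching is perfect. -/
  Ncard : ∀ z, {l | N z l}.ncard = 1
  /-- The matching is contained in the cubic graph. -/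
  Nsub : ∀ z l, exc d m z ≤ V + 1 → N z l → l.1 = false ∨ FF z l
  /-- The matching outside. -/
  Nout : ∀ z l, exc d m z = V + 1 → (N z l ↔ l.1 = true ∧ FF z l)
  /-- The components in the middle of the zone. -/
  core : ∀ z, d z = m →
    {u | EConn (lval (pr c y)) (fun z l => (l.1 = false ∨ FF z l) ∧ ¬ N z l) z u}.Finite ∧
    ∀ u, EConn (lval (pr c y)) (fun z l => (l.1 = false ∨ FF z l) ∧ ¬ N z l) z u →
      exc d m u ≤ V

/-- Hub zones exist. -/
def HasHub (X : Type v) [MulAction Γ X] [MeasurableSpace X] (T : Set Γ) (x y c : Γ) : Prop :=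
  ∃ W V M : ℕ, ∀ (R : ℕ) (d : X → ℕ) (δ : X → Γ), Radial T R d δ → ∀ m : ℕ, W < m → m + M ≤ R →
    ∃ FF N : X → Lt → Prop, HubZone x y c d m W V FF N

theorem exists_hubZone {K : Type w} [Group K] {g1 g2 : Bool → K} {E1 E2 F f Q : K → ℝ}
    (hfd1 : FacData g1 E1 4 2 (fun _ _ => True) (fun k l => APat F Q k l)
      (fun _ l => l.1 = false))
    (hfd2 : FacData g2 E2 3 1 (Hc Q) (PAc f) (PLc Q))
    (Q1 : ∀ x, Q x = 1 ∨ Q x = -1) (F1 : ∀ x, F x = 1 ∨ F x = -1)
    (f1 : ∀ x, f x = 1 ∨ f x = -1) (Fv : ∀ x, F (g1 false * x) = - F x)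
    (fv : ∀ x, f (g2 false * x) = - f x) (Qw : ∀ x, Q (g1 true * x) = - Q x)
    (Qw2 : ∀ x, Q (g2 true * x) = - Q x)
    (per1 : ∃ N, 1 ≤ N ∧ ∀ x, (fun x => pst (g1 true) Q (pst (g1 false) F x))^[N] x = x)
    (per2 : ∃ N, 1 ≤ N ∧ ∀ x, (fun x => pst (g2 true) Q (pst (g2 false) f x))^[N] x = x)
    (ι : K →* Γ) (ρ : Γ → K) (hρ : ∀ k γ, ρ (ι k * γ) = k * ρ γ)
    [MeasurableSpace X] [StandardBorelSpace X] [Countable Γ] (hX : IsFreeBorel Γ X)
    {T : Set Γ} (hT : ∀ s ∈ T, s⁻¹ ∈ T) {x y c : Γ} (hx : x ∈ T) (hy : y ∈ T) (hc : c ∈ T)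
    (hg1 : (fun i => ι (g1 i)) = pr x y) (hg2 : (fun i => ι (g2 i)) = pr c y) :
    HasHub X T x y c := by
  classical
  have hprT : ∀ a b : Γ, a ∈ T → b ∈ T → ∀ l, lval (pr a b) l ∈ T := by
    intro a b ha hb l
    obtain ⟨i, j⟩ := l
    cases i <;> cases j <;> simp [lval, pr, ha, hb, hT a ha, hT b hb]
  obtain ⟨N1, hN1, hper1⟩ := per1
  obtain ⟨N2, hN2, hper2⟩ := per2
  obtain ⟨W2, M2, hw2, hz2⟩ := exists_zoneG (X := X) hfd2 ι ρ hρ hX hT
    (by rw [hg2]; exact hprT c y hc hy) (2 * N2)
  obtain ⟨W1, M1, hw1, hz1⟩ := exists_zoneG (X := X) hfd1 ι ρ hρ hX hT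
    (by rw [hg1]; exact hprT x y hx hy) (W2 + 1 + 2 * N1)
  refine ⟨W1, W2, M1 + M2 + W1 + 3, ?_⟩
  intro R d δ hrad m hm hmR
  obtain ⟨FF, hF⟩ := hz1 R d δ hrad m hm (by omega)
  obtain ⟨N, hN⟩ := hz2 R d δ hrad m (by omega) (by omega)
  set q : X → K := fun x => ρ ((δ x)⁻¹) with hqdef
  have hdR : ∀ z, exc d m z ≤ W1 + 1 → d z + 1 ≤ R := by
    intro z hz
    unfold exc at hz
    omega
  have hest1 : ∀ z l, exc d m (lval (fun i => ι (g1 i)) l • z) ≤ exc d m z + 1 ∧
      exc d m z ≤ exc d m (lval (fun i => ι (g1 i)) l • z) + 1 := by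
    intro z l
    have := exc_step hrad hT m (s := lval (fun i => ι (g1 i)) l)
      (by rw [hg1]; exact hprT x y hx hy l) z
    exact ⟨this.1, this.2.1⟩
  have hest2 : ∀ z l, exc d m (lval (fun i => ι (g2 i)) l • z) ≤ exc d m z + 1 := by
    intro z l
    have := exc_step hrad hT m (s := lval (fun i => ι (g2 i)) l)
      (by rw [hg2]; exact hprT c y hc hy l) z
    exact this.1
  have hq1 : ∀ z, exc d m z ≤ W1 + 1 → ∀ l,
      q (lval (fun i => ι (g1 i)) l • z) = lval g1 l * q z := by
    intro z hz l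
    exact coord_equiv ι ρ hρ (by rw [hg1]; exact hprT x y hx hy) hrad (hdR z hz) l
  have hq2 : ∀ z, exc d m z ≤ W1 + 1 → ∀ l,
      q (lval (fun i => ι (g2 i)) l • z) = lval g2 l * q z := by
    intro z hz l
    exact coord_equiv ι ρ hρ (by rw [hg2]; exact hprT c y hc hy) hrad (hdR z hz) l
  refine ⟨FF, N, hF.meas, ?_, hF.card, fun z l hz => hF.out z l hz, by omega, ?_, hN.meas, ?_,
    hN.card, ?_, ?_, ?_⟩
  · intro z l
    have h0 := hest1 z l
    rw [← hg1]
    by_cases hz : exc d m z ≤ W1 + 1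
    · exact hF.symm z l (hdR z hz)
    · rw [hF.out z l (by omega), hF.out _ (linv l) (by omega)]
      rfl
  · intro z hz u hu
    rw [← hg1] at hu
    have h1 := (comp_pattern F1 Q1 Fv Qw hN1 hper1 ι (q := q) (w := W2 + 1 + 2 * N1)
      (FF := FF) (fun y l => (hest1 y l).1) (fun z hz => hq1 z (by omega))
      (fun z l hz h => (hF.inn z l hz).mp h) (z := z) (by omega)).2 u hu
    refine ⟨by omega, ?_⟩
    have h2 : {l | FF u l ∧ l.1 = false} = {l | APat F Q (q u) l ∧ l.1 = false} := by
      ext l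
      simp only [mem_ofPred_eq]
      rw [hF.inn u l (by omega)]
    rw [h2, Set.ncard_eq_one]
    rcases F1 (q u) with h | h
    · refine ⟨(false, false), ?_⟩
      ext ⟨i, j⟩
      cases i <;> cases j <;> simp [APat, h]
      norm_num
    · refine ⟨(false, true), ?_⟩
      ext ⟨i, j⟩
      cases i <;> cases j <;> simp [APat, h]
      norm_num
  · intro z l hz
    rw [← hg2]
    exact hN.symm z l (hdR z (by omega))
  · intro z l hz h
    have h1 : Hc Q (q z) l := hN.sub z l h
    rcases h1 with h1 | h1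
    · exact Or.inl h1
    · by_cases hl : l.1 = false
      · exact Or.inl hl
      · right
        rw [hF.inn z l (by omega)]
        simp only [Bool.not_eq_false] at hl
        change APat F Q (q z) l
        unfold APat
        rw [hl]
        simpa using h1
  · intro z l hz
    rw [hN.out z l (by omega), hF.inn z l (by omega)]
    change PLc Q (q z) l ↔ l.1 = true ∧ APat F Q (q z) l
    unfold PLc APat
    by_cases hl : l.1 = true
    · simp [hl]
    · simp [hl]
  · intro z hz
    have h0 : exc d m z = 0 := by unfold exc; omega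
    rw [← hg2]
    have h1 := comp_pattern f1 Q1 fv Qw2 hN2 hper2 ι (q := q) (w := 2 * N2)
      (FF := fun z l => (l.1 = false ∨ FF z l) ∧ ¬ N z l) hest2
      (fun z hz => hq2 z (by omega)) (fun z l hz h => by
        rw [hN.inn z l hz, hF.inn z l (by omega)] at h
        change (l.1 = false ∨ APat F Q (q z) l) ∧ ¬ PAc f (q z) l at h
        obtain ⟨h2, h3⟩ := h
        unfold PAc at h3
        unfold APat at h2 ⊢
        obtain ⟨i, j⟩ := l
        cases i
        · rcases f1 (q z) with h4 | h4 <;> cases j <;> simp [h4] at h3 ⊢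
        · simpa using h2) (z := z) (by omega)
    refine ⟨h1.1, fun u hu => ?_⟩
    have := h1.2 u hu
    omega

end Run7.h916
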