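import Pool.Agent.Run7.h916.Mobility

set_option autoImplicit false
set_option linter.unusedSectionVars false
set_option linter.unusedVariables false

/-!
Interpolation: null and mobile flows can be faded out along a slowly varying function, without
leaving the interval `[-1, 1]`.
-/

namespace Run7.h916

open Set

universe u v w

variable {K : Type u} [Group K] {g : Bool → K}

theorem directed_lift {G : Type w} [Group G] {π : K →* G} {D : G → Lt → ℝ} (W : List Lt) :
    ∀ y : K, Directed (fun i => π (g i)) D (π y) W → Directed g (fun k s => D (π k) s) y W := by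
  induction W with
  | nil => intro y _; trivial
  | cons l W ih =>
    intro y h
    refine ⟨h.1, ih _ ?_⟩
    have := h.2
    rw [smul_eq_mul, ← map_lval, ← map_mul] at this
    exact this

theorem directed_wpow {G : Type w} [Group G] {π : K →* G} {D : G → Lt → ℝ} {W : List Lt}
    (hW : π (wval g W) = 1) (m : ℕ) :
    ∀ y : K, Directed (fun i => π (g i)) D (π y) W →
      Directed g (fun k s => D (π k) s) y (wpow W m) := by
  induction m with
  | zero => intro y _; trivial
  | succ m ih =>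
    intro y h
    refine (directed_lift W y h).append (ih _ ?_)
    rw [smul_eq_mul, map_mul, hW, one_mul]
    exact h

theorem wpow_length (W : List Lt) (m : ℕ) : (wpow W m).length = m * W.length := by
  induction m with
  | zero => simp [wpow]
  | succ m ih => rw [wpow, List.length_append, ih]; ring

theorem Mobile.lift {G : Type w} [Group G] {π : K →* G} (hπ : ∀ k, π k = 1 → IsOfFinOrder k)
    {D : G → Lt → ℝ} (h : Mobile (fun i => π (g i)) D) : Mobile g (fun k s => D (π k) s) := by
  classical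
  obtain ⟨N, hN⟩ := h
  let Q : Finset (List Lt) := (List.finite_length_le Lt (N + 1)).toFinset
  let M : ℕ := ∑ W ∈ Q, orderOf (wval g W) * (N + 1)
  refine ⟨M, ?_⟩
  intro y l hl
  obtain ⟨w, h1, h2, h3⟩ := hN (π y) l hl
  have hfin : IsOfFinOrder (wval g (l :: w)) := hπ _ (by rw [map_wval]; exact h2)
  have hpos := hfin.orderOf_pos
  obtain ⟨m, hm⟩ : ∃ m, orderOf (wval g (l :: w)) = m + 1 := ⟨_, (Nat.sub_add_cancel hpos).symm⟩
  have hp : wpow (l :: w) (m + 1) = l :: (w ++ wpow (l :: w) m) := rfl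
  refine ⟨w ++ wpow (l :: w) m, ?_, ?_, ?_⟩
  · have h4 : (l :: w) ∈ Q := by simp [Q]; omega
    have h5 : orderOf (wval g (l :: w)) * (N + 1) ≤ M :=
      Finset.single_le_sum (f := fun W => orderOf (wval g W) * (N + 1))
        (fun _ _ => Nat.zero_le _) h4
    rw [hm] at h5
    rw [List.length_append, wpow_length]
    simp only [List.length_cons]
    have : m * (w.length + 1) ≤ m * (N + 1) := Nat.mul_le_mul_left _ (by omega)
    nlinarith
  · rw [← hp, wval_wpow, ← hm, pow_orderOf_eq_one]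
  · rw [← hp]
    exact directed_wpow (by rw [map_wval]; exact h2) _ y h3

/-- The cut-off function. -/
noncomputable def tau (h1 η t : ℝ) : ℝ := max 0 (min 1 (1 - η * (t - h1)))

theorem tau_nonneg (h1 η t : ℝ) : 0 ≤ tau h1 η t := le_max_left _ _

theorem tau_le_one (h1 η t : ℝ) : tau h1 η t ≤ 1 := by
  unfold tau
  exact max_le zero_le_one (min_le_left _ _)

theorem tau_eq_one {h1 η t : ℝ} (hη : 0 ≤ η) (ht : t ≤ h1) : tau h1 η t = 1 := by
  unfold tau
  have : η * (t - h1) ≤ 0 := mul_nonpos_of_nonneg_of_nonpos hη (by linarith)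
  rw [min_eq_left (by linarith), max_eq_right zero_le_one]

theorem tau_eq_zero {h1 η t : ℝ} (ht : 1 ≤ η * (t - h1)) : tau h1 η t = 0 := by
  unfold tau
  rw [min_eq_right (by linarith)]
  exact max_eq_left (by linarith)

theorem tau_lip {h1 η : ℝ} (hη : 0 ≤ η) (t t' : ℝ) :
    |tau h1 η t - tau h1 η t'| ≤ η * |t - t'| := by
  unfold tau
  have e0 : |max 0 (min 1 (1 - η * (t - h1))) - max 0 (min 1 (1 - η * (t' - h1)))| ≤
      |min 1 (1 - η * (t - h1)) - min 1 (1 - η * (t' - h1))| := by
    rw [max_comm 0, max_comm 0]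
    exact abs_max_sub_max_le_abs _ _ _
  refine e0.trans ?_
  have : |min 1 (1 - η * (t - h1)) - min 1 (1 - η * (t' - h1))| ≤
      max |(1 : ℝ) - 1| |(1 - η * (t - h1)) - (1 - η * (t' - h1))| := abs_min_sub_min_le_max _ _ _ _
  refine this.trans ?_
  rw [sub_self, abs_zero, max_eq_right (abs_nonneg _)]
  have : (1 - η * (t - h1)) - (1 - η * (t' - h1)) = η * (t' - t) := by ring
  rw [this, abs_mul, abs_of_nonneg hη, abs_sub_comm]

variable {Y : Type v} [MulAction K Y]

theorem lip_ball {h : Y → ℝ} (hh : ∀ y l, |h (lval g l • y) - h y| ≤ 1) {n : ℕ} {y x : Y}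
    (hx : x ∈ Ball g n y) : |h x - h y| ≤ n := by
  obtain ⟨w, hw, rfl⟩ := hx
  have : ∀ w : List Lt, |h (wval g w • y) - h y| ≤ w.length := by
    intro w
    induction w using List.reverseRecOn with
    | nil => simp
    | append_singleton w l ih =>
      rw [wval_append, mul_smul]
      have h1 := hh (wval g w • y) l
      have h2 : wval g [l] = lval g l := by simp
      rw [h2, List.length_append]
      have := abs_sub_le (h (lval g l • wval g w • y)) (h (wval g w • y)) (h y)
      push_cast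
      simp only [List.length_cons, List.length_nil]
      push_cast
      linarith
  refine (this w).trans ?_
  exact_mod_cast hw

theorem abs_list_sum_le {α : Type*} (L : List α) (f e : α → ℝ) (h : ∀ p ∈ L, |f p| ≤ e p) :
    |(L.map f).sum| ≤ (L.map e).sum := by
  induction L with
  | nil => simp
  | cons p L ih =>
    simp only [List.map_cons, List.sum_cons]
    exact (abs_add_le _ _).trans (add_le_add (h p (List.mem_cons_self ..))
      (ih fun p hp => h p (List.mem_cons_of_mem _ hp)))

theorem list_sum_sub {α : Type*} (L : List α) (f e : α → ℝ) :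
    (L.map f).sum - (L.map e).sum = (L.map (fun p => f p - e p)).sum := by
  induction L with
  | nil => simp
  | cons p L ih =>
    simp only [List.map_cons, List.sum_cons]
    rw [← ih]; ring

theorem list_sum_mul {α : Type*} (L : List α) (c : ℝ) (f : α → ℝ) :
    (L.map (fun p => c * f p)).sum = c * (L.map f).sum := by
  induction L with
  | nil => simp
  | cons p L ih =>
    simp only [List.map_cons, List.sum_cons]
    rw [ih]; ring

/-- The pointwise bound for faded flows on the group, on directed edges. -/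
theorem fade_bound {D : K → Lt → ℝ} (hD : Antisym g D) {L : List ((K → ℝ) × List Lt)} {C : ℝ}
    (hC : 0 ≤ C) (hL : ∀ p ∈ L, ∀ x, |p.1 x| ≤ C)
    (hLD : ∀ y s, D y s = (L.map (fun p => conv g p.1 p.2 y s)).sum)
    {Q : Finset (List Lt)} {M : ℝ} (hM1 : 1 ≤ M) (hMQ : ∑ w ∈ Q, (w.length : ℝ) ≤ M)
    {b : List Lt → K → ℝ} (hb : ∀ w x, b w x = 0 ∨ (b w x = 1 ∧ Directed g D x w))
    (hQ : ∀ y l, D y l = 1 → ∃ w, (l :: w) ∈ Q ∧ b (l :: w) y = 1)
    {ℓ : ℕ} (hℓL : ∀ p ∈ L, p.2.length ≤ ℓ) (hℓQ : ∀ w ∈ Q, w.length ≤ ℓ)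
    {δ C1 : ℝ} (hδ : 0 ≤ δ) (hC1 : (L.map (fun p => (p.2.length : ℝ) * C)).sum ≤ C1)
    {t1 t2 : K → ℝ} (h1 : ∀ x, 0 ≤ t1 x ∧ t1 x ≤ 1) (h2 : ∀ x, 0 ≤ t2 x ∧ t2 x ≤ t1 x)
    {y : K} {l : Lt} (hl : D y l = 1) (hlip : ∀ x ∈ Ball g ℓ y, |t1 x - t1 y| ≤ δ)
    (hcase : (∀ x ∈ Ball g ℓ y, t1 x = 1) ∨ t2 y = t1 y)
    (hδ1 : δ * C1 * M ≤ 1) (hδ2 : δ * (C1 + 1) ≤ 1) :
    |(L.map (fun p => conv g (fun x => t1 x * p.1 x) p.2 y l)).sum -
      M⁻¹ * ∑ w ∈ Q, conv g (fun x => t2 x * b w x) w y l| ≤ 1 := by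
  have hbd : ∀ w x, 0 ≤ b w x ∧ b w x ≤ 1 := by
    intro w x
    rcases hb w x with h | h
    · rw [h]; exact ⟨le_rfl, zero_le_one⟩
    · rw [h.1]; exact ⟨zero_le_one, le_rfl⟩
  set T1 := (L.map (fun p => conv g (fun x => t1 x * p.1 x) p.2 y l)).sum with hT1
  set T2 := ∑ w ∈ Q, conv g (fun x => t2 x * b w x) w y l with hT2
  have hM0 : 0 < M := by linarith
  have hnn : ∀ w ∈ Q, 0 ≤ conv g (fun x => t2 x * b w x) w y l := by
    intro w hw
    have := conv_directed_nonneg hD w (fun x => t2 x * b w x)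
      (fun x => mul_nonneg (h2 x).1 (hbd w x).1) (fun x hx => by
        rcases hb w x with h | h
        · rw [h, mul_zero] at hx; exact absurd rfl hx
        · exact h.2) y l
    rwa [hl, one_mul] at this
  have hT2nn : 0 ≤ T2 := Finset.sum_nonneg hnn
  have hT2low : t2 y ≤ T2 := by
    obtain ⟨w, hw, hbw⟩ := hQ y l hl
    have h3 : conv g (fun x => t2 x * b (l :: w) x) (l :: w) y l ≤ T2 :=
      Finset.single_le_sum (f := fun w => conv g (fun x => t2 x * b w x) w y l) hnn hw
    have h4 := conv_directed_ge hD (l := l) (w := w) (a := fun x => t2 x * b (l :: w) x)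
      (fun x => mul_nonneg (h2 x).1 (hbd _ x).1) (fun x hx => by
        rcases hb (l :: w) x with h | h
        · rw [h, mul_zero] at hx; exact absurd rfl hx
        · exact h.2) y
    rcases h4 with h4 | h4
    · rw [hbw, mul_one] at h4
      linarith
    · exact absurd hl h4
  have hT2up : ∀ c, 0 ≤ c → (∀ x ∈ Ball g ℓ y, t2 x ≤ c) → T2 ≤ M * c := by
    intro c hc hcx
    have : T2 ≤ ∑ w ∈ Q, (w.length : ℝ) * c := by
      refine Finset.sum_le_sum fun w hw => ?_
      refine (le_abs_self _).trans (abs_conv_le hc w _ y (fun x hx => ?_) l)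
      have hx' := Ball.mono (hℓQ w hw) y hx
      rw [abs_of_nonneg (mul_nonneg (h2 x).1 (hbd w x).1)]
      have := hcx x hx'
      have h5 := hbd w x
      nlinarith [(h2 x).1]
    rw [← Finset.sum_mul] at this
    exact this.trans (mul_le_mul_of_nonneg_right hMQ hc)
  have hT1b : |T1 - t1 y| ≤ δ * C1 := by
    have e1 : t1 y = (L.map (fun p => t1 y * conv g p.1 p.2 y l)).sum := by
      rw [list_sum_mul, ← hLD, hl, mul_one]
    rw [hT1, e1, list_sum_sub]
    refine (abs_list_sum_le L _ (fun p => δ * ((p.2.length : ℝ) * C)) fun p hp => ?_).trans ?_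
    · have e2 : conv g (fun x => t1 x * p.1 x) p.2 y l - t1 y * conv g p.1 p.2 y l =
          conv g (fun x => (t1 x - t1 y) * p.1 x) p.2 y l := by
        rw [← conv_smul]
        have := conv_add (g := g) (fun x => (t1 x - t1 y) * p.1 x) (fun x => t1 y * p.1 x) p.2 y l
        have e3 : (fun x => (t1 x - t1 y) * p.1 x + t1 y * p.1 x) = fun x => t1 x * p.1 x := by
          funext x; ring
        rw [e3] at this
        rw [this]; ring
      rw [e2]
      have := abs_conv_le (g := g) (mul_nonneg hδ hC) p.2 (fun x => (t1 x - t1 y) * p.1 x) y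
        (fun x hx => by
          rw [abs_mul]
          exact mul_le_mul (hlip x (Ball.mono (hℓL p hp) y hx)) (hL p hp x) (abs_nonneg _) hδ) l
      refine this.trans_eq ?_
      ring
    · rw [list_sum_mul]
      exact mul_le_mul_of_nonneg_left hC1 hδ
  have hC1' : 0 ≤ C1 := by
    refine le_trans ?_ hC1
    apply List.sum_nonneg
    intro x hx
    obtain ⟨p, _, rfl⟩ := List.mem_map.mp hx
    positivity
  have hδC : δ * C1 ≤ M⁻¹ := by
    rw [← one_div, le_div_iff₀ hM0]
    exact hδ1
  have hMi : 0 < M⁻¹ := by positivity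
  have hMi1 : M⁻¹ ≤ 1 := inv_le_one_of_one_le₀ hM1
  have hV0 : 0 ≤ M⁻¹ * T2 := mul_nonneg hMi.le hT2nn
  have hVup : ∀ c, 0 ≤ c → (∀ x ∈ Ball g ℓ y, t2 x ≤ c) → M⁻¹ * T2 ≤ c := by
    intro c hc hcx
    have h5 := hT2up c hc hcx
    calc M⁻¹ * T2 ≤ M⁻¹ * (M * c) := mul_le_mul_of_nonneg_left h5 hMi.le
      _ = c := by rw [← mul_assoc, inv_mul_cancel₀ hM0.ne', one_mul]
  rcases hcase with hA | hB
  · have hT11 : T1 = 1 := by
      rw [hT1, ← hl, hLD]
      congr 1
      refine List.map_congr_left fun p hp => ?_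
      apply conv_congr
      intro x hx
      rw [hA x (Ball.mono (hℓL p hp) y hx), one_mul]
    have := hVup 1 zero_le_one (fun x _ => (h2 x).2.trans (h1 x).2)
    rw [hT11, abs_le]
    constructor <;> linarith
  · have h5 := hVup (t1 y + δ) (by have := (h1 y).1; linarith) (fun x hx => by
      have h6 := abs_le.mp (hlip x hx)
      have := (h2 x).2
      linarith [h6.2])
    have h7 : M⁻¹ * t1 y ≤ M⁻¹ * T2 := by
      rw [hB] at hT2low
      exact mul_le_mul_of_nonneg_left hT2low hMi.le
    have h8 := abs_le.mp hT1b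
    have h9 := h1 y
    rw [abs_le]
    constructor
    · linarith [h8.1]
    · have : t1 y * (1 - M⁻¹) ≤ 1 - M⁻¹ := by nlinarith
      nlinarith [h8.2]

/-- The faded flow. -/
noncomputable def fade {Γ : Type v} [Group Γ] {X : Type w} [MulAction Γ X] (g' : Bool → Γ)
    (L : List ((K → ℝ) × List Lt)) (Q : Finset (List Lt)) (M : ℝ) (b : List Lt → K → ℝ)
    (q : X → K) (t1 t2 : X → ℝ) (y : X) (l : Lt) : ℝ :=
  (L.map (fun p => conv g' (fun x => t1 x * p.1 (q x)) p.2 y l)).sum -
    M⁻¹ * ∑ w ∈ Q, conv g' (fun x => t2 x * b w (q x)) w y l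

theorem fade_antisym {Γ : Type v} [Group Γ] {X : Type w} [MulAction Γ X] (g' : Bool → Γ)
    (L : List ((K → ℝ) × List Lt)) (Q : Finset (List Lt)) (M : ℝ) (b : List Lt → K → ℝ)
    (q : X → K) (t1 t2 : X → ℝ) : Antisym g' (fade g' L Q M b q t1 t2) := by
  intro y s
  unfold fade
  have e1 : (L.map (fun p => conv g' (fun x => t1 x * p.1 (q x)) p.2 (lval g' s • y)
      (linv s))).sum = - (L.map (fun p => conv g' (fun x => t1 x * p.1 (q x)) p.2 y s)).sum := by
    rw [← list_sum_neg]
    congr 1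
    exact List.map_congr_left fun p _ => conv_antisym _ _ y s
  have e2 : ∑ w ∈ Q, conv g' (fun x => t2 x * b w (q x)) w (lval g' s • y) (linv s) =
      - ∑ w ∈ Q, conv g' (fun x => t2 x * b w (q x)) w y s := by
    rw [← Finset.sum_neg_distrib]
    exact Finset.sum_congr rfl fun w _ => conv_antisym _ _ y s
  rw [e1, e2]
  ring

theorem fade_div {Γ : Type v} [Group Γ] {X : Type w} [MulAction Γ X] (g' : Bool → Γ)
    (L : List ((K → ℝ) × List Lt)) (Q : Finset (List Lt)) (M : ℝ) (b : List Lt → K → ℝ)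
    (q : X → K) (t1 t2 : X → ℝ) (hL : ∀ p ∈ L, wval g' p.2 = 1) (hQ : ∀ w ∈ Q, wval g' w = 1)
    (y : X) : ∑ s, fade g' L Q M b q t1 t2 y s = 0 := by
  unfold fade
  rw [Finset.sum_sub_distrib, ← Finset.mul_sum, Finset.sum_comm]
  have e1 : ∀ L' : List ((K → ℝ) × List Lt), (∀ p ∈ L', wval g' p.2 = 1) →
      ∑ s, (L'.map (fun p => conv g' (fun x => t1 x * p.1 (q x)) p.2 y s)).sum = 0 := by
    intro L' hL'
    induction L' with
    | nil => simp
    | cons p L' ih =>
      simp only [List.map_cons, List.sum_cons]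
      rw [Finset.sum_add_distrib, ih (fun p hp => hL' p (List.mem_cons_of_mem _ hp)), add_zero,
        conv_div, hL' p (List.mem_cons_self ..)]
      simp
  rw [e1 L hL]
  have e2 : ∑ w ∈ Q, ∑ s, conv g' (fun x => t2 x * b w (q x)) w y s = 0 := by
    refine Finset.sum_eq_zero fun w hw => ?_
    rw [conv_div, hQ w hw]
    simp
  rw [e2]
  ring

/-- **Interpolation theorem**. -/
theorem exists_interp {D : K → Lt → ℝ} (hpm : ∀ y l, D y l = 1 ∨ D y l = -1)
    (hD : Antisym g D) (hnull : Null g D) (hmob : Mobile g D) : ∃ H R0 : ℕ,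
    ∀ {Γ : Type v} [Group Γ] {X : Type w} [MulAction Γ X] (ι : K →* Γ) (h : X → ℝ)
      (_ : ∀ y l, |h (lval (fun i => ι (g i)) l • y) - h y| ≤ 1) (q : X → K),
      ∃ f : X → Lt → ℝ, Antisym (fun i => ι (g i)) f ∧ (∀ y, ∑ s, f y s = 0) ∧
        (∀ y, (∀ x ∈ Ball (fun i => ι (g i)) R0 y, ∀ l,
          q (lval (fun i => ι (g i)) l • x) = lval g l * q x) →
          (∀ l, |f y l| ≤ 1) ∧ (h y ≤ 0 → ∀ l, f y l = D (q y) l)) ∧
        ∀ y, (H : ℝ) ≤ h y → ∀ l, f y l = 0 := by
  classical
  obtain ⟨L, C, hC, hL, hLD⟩ := hnull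
  obtain ⟨N, hN⟩ := hmob
  let Q : Finset (List Lt) := (List.finite_length_le Lt (N + 1)).toFinset.filter
    (fun w => wval g w = 1)
  let ℓ : ℕ := (L.map (fun p => p.2.length)).sum + (N + 1)
  let M : ℝ := 1 + ∑ w ∈ Q, (w.length : ℝ)
  let C1 : ℝ := (L.map (fun p => (p.2.length : ℝ) * C)).sum
  let b : List Lt → K → ℝ := fun w x => if Directed g D x w then 1 else 0
  have hb : ∀ w x, b w x = 0 ∨ (b w x = 1 ∧ Directed g D x w) := by
    intro w x
    simp only [b]
    split_ifs with h
    · exact Or.inr ⟨rfl, h⟩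
    · exact Or.inl rfl
  have hQ : ∀ y l, D y l = 1 → ∃ w, (l :: w) ∈ Q ∧ b (l :: w) y = 1 := by
    intro y l hl
    obtain ⟨w, h1, h2, h3⟩ := hN y l hl
    refine ⟨w, ?_, ?_⟩
    · simp only [Q, Finset.mem_filter, Set.Finite.mem_toFinset, mem_ofPred_eq]
      exact ⟨by simp; omega, h2⟩
    · simp only [b]
      rw [if_pos h3]
  have hQ1 : ∀ w ∈ Q, wval g w = 1 ∧ w.length ≤ N + 1 := by
    intro w hw
    simp only [Q, Finset.mem_filter, Set.Finite.mem_toFinset, mem_ofPred_eq] at hw
    exact ⟨hw.2, hw.1⟩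
  have hℓQ : ∀ w ∈ Q, w.length ≤ ℓ := fun w hw => by
    have := (hQ1 w hw).2
    simp only [ℓ]
    omega
  have hℓL : ∀ p ∈ L, p.2.length ≤ ℓ := by
    intro p hp
    have : p.2.length ≤ (L.map (fun p => p.2.length)).sum :=
      List.single_le_sum (by intro x _; exact Nat.zero_le _) _ (List.mem_map.mpr ⟨p, hp, rfl⟩)
    simp only [ℓ]
    omega
  have hM1 : 1 ≤ M := by
    have : 0 ≤ ∑ w ∈ Q, (w.length : ℝ) := Finset.sum_nonneg fun w _ => by positivity
    simp only [M]
    linarith
  have hMQ : ∑ w ∈ Q, (w.length : ℝ) ≤ M := by simp only [M]; linarith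
  have hC1 : 0 ≤ C1 := by
    apply List.sum_nonneg
    intro x hx
    obtain ⟨p, _, rfl⟩ := List.mem_map.mp hx
    positivity
  obtain ⟨Z, hZ⟩ := exists_nat_ge ((ℓ + 1) * (C1 + 1) * M)
  have hℓ0 : (0 : ℝ) ≤ ℓ := by positivity
  have hZ1 : 0 < (Z : ℝ) := by
    have : 0 < (ℓ + 1) * (C1 + 1) * M := by positivity
    linarith
  set η : ℝ := 1 / Z with hη
  have hη0 : 0 ≤ η := by positivity
  set δ : ℝ := η * ℓ with hδ
  have hδ0 : 0 ≤ δ := by positivity
  have hδ1 : δ * C1 * M ≤ 1 := by
    have : δ * C1 * M = (ℓ * C1 * M) / Z := by rw [hδ, hη]; ring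
    rw [this, div_le_one hZ1]
    refine le_trans ?_ hZ
    have : (ℓ : ℝ) * C1 ≤ (ℓ + 1) * (C1 + 1) := by nlinarith
    exact mul_le_mul_of_nonneg_right this (by linarith)
  have hδ2 : δ * (C1 + 1) ≤ 1 := by
    have : δ * (C1 + 1) = (ℓ * (C1 + 1)) / Z := by rw [hδ, hη]; ring
    rw [this, div_le_one hZ1]
    refine le_trans ?_ hZ
    have h1 : (ℓ : ℝ) * (C1 + 1) ≤ (ℓ + 1) * (C1 + 1) := by nlinarith
    have h2 : 0 ≤ ((ℓ : ℝ) + 1) * (C1 + 1) := by positivity
    nlinarith
  -- the flow on the group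
  have key : ∀ h : K → ℝ, (∀ y l, |h (lval g l • y) - h y| ≤ 1) →
      let t1 : K → ℝ := fun x => tau (2 * ℓ) η (h x)
      let t2 : K → ℝ := fun x => if h x ≤ ℓ then 0 else t1 x
      (∀ y l, |fade g L Q M b (fun x : K => x) t1 t2 y l| ≤ 1) ∧
      (∀ y, h y ≤ 0 → ∀ l, fade g L Q M b (fun x : K => x) t1 t2 y l = D y l) := by
    intro h hh t1 t2
    have ht1 : ∀ x, 0 ≤ t1 x ∧ t1 x ≤ 1 := fun x => ⟨tau_nonneg _ _ _, tau_le_one _ _ _⟩
    have ht2 : ∀ x, 0 ≤ t2 x ∧ t2 x ≤ t1 x := by
      intro x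
      simp only [t2]
      split_ifs
      · exact ⟨le_rfl, (ht1 x).1⟩
      · exact ⟨(ht1 x).1, le_rfl⟩
    have hone : ∀ y, h y ≤ ℓ → ∀ x ∈ Ball g ℓ y, t1 x = 1 := by
      intro y hy x hx
      apply tau_eq_one hη0
      have := abs_le.mp (lip_ball hh hx)
      linarith [this.2]
    have hdir : ∀ y l, D y l = 1 → |fade g L Q M b (fun x : K => x) t1 t2 y l| ≤ 1 := by
      intro y l hl
      refine fade_bound (δ := δ) (C1 := C1) (ℓ := ℓ) hD hC (fun p hp => (hL p hp).2) hLD hM1 hMQ hb
        hQ hℓL hℓQ hδ0 le_rfl ht1 ht2 hl ?_ ?_ hδ1 hδ2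
      · intro x hx
        refine (tau_lip hη0 _ _).trans ?_
        rw [hδ]
        exact mul_le_mul_of_nonneg_left (lip_ball hh hx) hη0
      · by_cases hy : h y ≤ ℓ
        · exact Or.inl (hone y hy)
        · right
          simp only [t2]
          rw [if_neg hy]
    refine ⟨?_, ?_⟩
    · intro y l
      rcases hpm y l with hl | hl
      · exact hdir y l hl
      · have h1 : D (lval g l • y) (linv l) = 1 := by rw [hD, hl]; ring
        have h2 := hdir _ _ h1
        rw [fade_antisym, abs_neg] at h2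
        exact h2
    · intro y hy l
      have h1 : ∀ x ∈ Ball g ℓ y, h x ≤ ℓ := by
        intro x hx
        have := abs_le.mp (lip_ball hh hx)
        linarith [this.2]
      unfold fade
      have e1 : (L.map (fun p => conv g (fun x => t1 x * p.1 x) p.2 y l)).sum = D y l := by
        rw [hLD]
        congr 1
        refine List.map_congr_left fun p hp => ?_
        apply conv_congr
        intro x hx
        rw [hone y (by linarith) x (Ball.mono (hℓL p hp) y hx), one_mul]
      have e2 : ∑ w ∈ Q, conv g (fun x => t2 x * b w x) w y l = 0 := by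
        refine Finset.sum_eq_zero fun w hw => ?_
        rw [← conv_zero (g := g) w y l]
        apply conv_congr
        intro x hx
        simp only [t2]
        rw [if_pos (h1 x (Ball.mono (hℓQ w hw) y hx)), zero_mul]
      rw [e1, e2]
      ring
  refine ⟨3 * ℓ + Z, ℓ, ?_⟩
  intro Γ _ X _ ι h hh q
  let t1 : X → ℝ := fun x => tau (2 * ℓ) η (h x)
  let t2 : X → ℝ := fun x => if h x ≤ ℓ then 0 else t1 x
  have hmv : ∀ w, wval (fun i => ι (g i)) w = ι (wval g w) := fun w => (map_wval ι w).symm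
  refine ⟨fade (fun i => ι (g i)) L Q M b q t1 t2, fade_antisym _ _ _ _ _ _ _ _, ?_, ?_, ?_⟩
  · intro y
    refine fade_div _ _ _ _ _ _ _ _ (fun p hp => ?_) (fun w hw => ?_) y
    · rw [hmv, (hL p hp).1, map_one]
    · rw [hmv, (hQ1 w hw).1, map_one]
  · intro y hy
    let o : K → X := fun k => ι (k * (q y)⁻¹) • y
    have ho : ∀ k l, o (lval g l • k) = lval (fun i => ι (g i)) l • o k := by
      intro k l
      simp only [o, smul_eq_mul]
      rw [mul_assoc, map_mul, mul_smul, map_lval]
    have hoy : o (q y) = y := by simp [o]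
    have hqo : ∀ k ∈ Ball g ℓ (q y), q (o k) = k := by
      rintro _ ⟨w, hw, rfl⟩
      have : ∀ w : List Lt, w.length ≤ ℓ → q (wval (fun i => ι (g i)) w • y) = wval g w * q y := by
        intro w
        induction w using List.reverseRecOn with
        | nil => intro _; simp
        | append_singleton w l ih =>
          intro hw
          rw [List.length_append] at hw
          simp only [List.length_cons, List.length_nil] at hw
          have e1 : wval (fun i => ι (g i)) [l] = lval (fun i => ι (g i)) l := by simp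
          have e2 : wval g [l] = lval g l := by simp
          rw [wval_append, wval_append, mul_smul, e1, e2, hy _ ⟨w, by omega, rfl⟩,
            ih (by omega), mul_assoc]
      simp only [o, smul_eq_mul]
      rw [mul_inv_cancel_right, ← hmv, this w hw]
    have hlip : ∀ k l, |(h ∘ o) (lval g l • k) - (h ∘ o) k| ≤ 1 := by
      intro k l
      simp only [Function.comp]
      rw [ho]
      exact hh _ _
    obtain ⟨k1, k2⟩ := key (h ∘ o) hlip
    have htr : ∀ l, fade (fun i => ι (g i)) L Q M b q t1 t2 y l =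
        fade g L Q M b (fun x : K => x) (fun x => tau (2 * ℓ) η ((h ∘ o) x))
          (fun x => if (h ∘ o) x ≤ ℓ then 0 else tau (2 * ℓ) η ((h ∘ o) x)) (q y) l := by
      intro l
      have gen : ∀ (a : X → ℝ) (c : K → ℝ) (w : List Lt), w.length ≤ ℓ →
          (∀ k ∈ Ball g ℓ (q y), a (o k) = c k) →
          conv (fun i => ι (g i)) a w y l = conv g c w (q y) l := by
        intro a c w hw hac
        have h1 := conv_transport (g := g) (g' := fun i => ι (g i)) (q := o) 1 w c a (q y)
          (fun x hx => by rw [one_mul, hac x (Ball.mono hw _ hx)]) (fun x _ l' => ho x l') l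
        rw [h1, one_mul, hoy]
      unfold fade
      congr 1
      · congr 1
        refine List.map_congr_left fun p hp => ?_
        refine gen _ _ p.2 (hℓL p hp) fun k hk => ?_
        simp only [t1, Function.comp]
        rw [hqo k hk]
      · congr 1
        refine Finset.sum_congr rfl fun w hw => ?_
        refine gen _ _ w (hℓQ w hw) fun k hk => ?_
        simp only [t2, t1, Function.comp]
        rw [hqo k hk]
    refine ⟨fun l => ?_, fun hy0 l => ?_⟩
    · rw [htr]
      exact k1 _ _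
    · rw [htr]
      refine k2 _ ?_ l
      simp only [Function.comp]
      rw [hoy]
      exact hy0
  · intro y hy l
    have hz : ∀ x ∈ Ball (fun i => ι (g i)) ℓ y, t1 x = 0 := by
      intro x hx
      apply tau_eq_zero
      have h1 := abs_le.mp (lip_ball hh hx)
      have h2 : (Z : ℝ) ≤ h x - 2 * ℓ := by
        push_cast at hy
        linarith [h1.1]
      rw [hη, one_div]
      calc (1 : ℝ) = (Z : ℝ)⁻¹ * Z := (inv_mul_cancel₀ hZ1.ne').symm
        _ ≤ (Z : ℝ)⁻¹ * (h x - 2 * ℓ) := mul_le_mul_of_nonneg_left h2 (by positivity)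
    unfold fade
    have e1 : (L.map (fun p => conv (fun i => ι (g i)) (fun x => t1 x * p.1 (q x)) p.2 y l)).sum
        = 0 := by
      apply List.sum_eq_zero
      intro r hr
      obtain ⟨p, hp, rfl⟩ := List.mem_map.mp hr
      rw [← conv_zero (g := fun i => ι (g i)) p.2 y l]
      apply conv_congr
      intro x hx
      rw [hz x (Ball.mono (hℓL p hp) y hx), zero_mul]
    have e2 : ∑ w ∈ Q, conv (fun i => ι (g i)) (fun x => t2 x * b w (q x)) w y l = 0 := by
      refine Finset.sum_eq_zero fun w hw => ?_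
      rw [← conv_zero (g := fun i => ι (g i)) w y l]
      apply conv_congr
      intro x hx
      simp only [t2]
      rw [hz x (Ball.mono (hℓQ w hw) y hx)]
      simp
    rw [e1, e2]
    ring

end Run7.h916
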