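import Pool.Agent.Run7.h916.MobilityH
import Pool.Agent.Run7.h916.Interp

set_option autoImplicit false
set_option linter.unusedSectionVars false
set_option linter.unusedVariables false

/-!
Interpolation of null flows in a set of admissible edges.
-/

namespace Run7.h916

open Set

universe u v w

variable {K : Type u} [Group K] {g : Bool → K}

/-- The pointwise bound for faded flows on the group, on directed edges. -/
theorem fade_boundH {D : K → Lt → ℝ} (hD : Antisym g D) {L : List ((K → ℝ) × List Lt)} {C : ℝ}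
    (hC : 0 ≤ C) (hL : ∀ p ∈ L, ∀ x, |p.1 x| ≤ C)
    (hLD : ∀ y s, D y s = (L.map (fun p => conv g p.1 p.2 y s)).sum)
    {κ : ℝ} (hκ : 0 < κ) (hκ1 : κ ≤ 1) (hκD : ∀ y l, 0 < D y l → κ ≤ D y l ∧ D y l ≤ 1 - κ)
    {Q : Finset (List Lt)} {M : ℝ} (hM1 : 1 ≤ M) (hMQ : ∑ w ∈ Q, (w.length : ℝ) ≤ M)
    {b : List Lt → K → ℝ} (hb : ∀ w x, b w x = 0 ∨ (b w x = 1 ∧ Directed g (sg D) x w))
    (hQ : ∀ y l, sg D y l = 1 → ∃ w, (l :: w) ∈ Q ∧ b (l :: w) y = 1)
    {ℓ : ℕ} (hℓL : ∀ p ∈ L, p.2.length ≤ ℓ) (hℓQ : ∀ w ∈ Q, w.length ≤ ℓ)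
    {δ C1 : ℝ} (hδ : 0 ≤ δ) (hC1 : (L.map (fun p => (p.2.length : ℝ) * C)).sum ≤ C1)
    {t1 t2 : K → ℝ} (h1 : ∀ x, 0 ≤ t1 x ∧ t1 x ≤ 1) (h2 : ∀ x, 0 ≤ t2 x ∧ t2 x ≤ t1 x)
    {y : K} {l : Lt} (hl : 0 < D y l) (hlip : ∀ x ∈ Ball g ℓ y, |t1 x - t1 y| ≤ δ)
    (hcase : (∀ x ∈ Ball g ℓ y, t1 x = 1) ∨ t2 y = t1 y)
    (hδ1 : δ * C1 * M ≤ κ) (hδ2 : δ * (C1 + 1) ≤ κ) :
    D y l - 1 ≤ (L.map (fun p => conv g (fun x => t1 x * p.1 x) p.2 y l)).sum -
      κ * M⁻¹ * ∑ w ∈ Q, conv g (fun x => t2 x * b w x) w y l ∧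
    (L.map (fun p => conv g (fun x => t1 x * p.1 x) p.2 y l)).sum -
      κ * M⁻¹ * ∑ w ∈ Q, conv g (fun x => t2 x * b w x) w y l ≤ D y l := by
  have hsD := sg_antisym hD
  have hsl : sg D y l = 1 := sg_eq_one.mpr hl
  have hbd : ∀ w x, 0 ≤ b w x ∧ b w x ≤ 1 := by
    intro w x
    rcases hb w x with h | h
    · rw [h]; exact ⟨le_rfl, zero_le_one⟩
    · rw [h.1]; exact ⟨zero_le_one, le_rfl⟩
  set T1 := (L.map (fun p => conv g (fun x => t1 x * p.1 x) p.2 y l)).sum with hT1
  set T2 := ∑ w ∈ Q, conv g (fun x => t2 x * b w x) w y l with hT2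
  have hM0 : 0 < M := by linarith
  have hnn : ∀ w ∈ Q, 0 ≤ conv g (fun x => t2 x * b w x) w y l := by
    intro w hw
    have := conv_directed_nonneg hsD w (fun x => t2 x * b w x)
      (fun x => mul_nonneg (h2 x).1 (hbd w x).1) (fun x hx => by
        rcases hb w x with h | h
        · rw [h, mul_zero] at hx; exact absurd rfl hx
        · exact h.2) y l
    rwa [hsl, one_mul] at this
  have hT2nn : 0 ≤ T2 := Finset.sum_nonneg hnn
  have hT2low : t2 y ≤ T2 := by
    obtain ⟨w, hw, hbw⟩ := hQ y l hsl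
    have h3 : conv g (fun x => t2 x * b (l :: w) x) (l :: w) y l ≤ T2 :=
      Finset.single_le_sum (f := fun w => conv g (fun x => t2 x * b w x) w y l) hnn hw
    have h4 := conv_directed_ge hsD (l := l) (w := w) (a := fun x => t2 x * b (l :: w) x)
      (fun x => mul_nonneg (h2 x).1 (hbd _ x).1) (fun x hx => by
        rcases hb (l :: w) x with h | h
        · rw [h, mul_zero] at hx; exact absurd rfl hx
        · exact h.2) y
    rcases h4 with h4 | h4
    · rw [hbw, mul_one] at h4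
      linarith
    · exact absurd hsl h4
  have hT2up : ∀ c, 0 ≤ c → (∀ x ∈ Ball g ℓ y, t2 x ≤ c) → T2 ≤ M * c := by
    intro c hc hcx
    have : T2 ≤ ∑ w ∈ Q, (w.length : ℝ) * c := by
      refine Finset.sum_le_sum fun w hw => ?_
      refine (le_abs_self _).trans (abs_conv_le hc w _ y (fun x hx => ?_) l)
      have hx' := Ball.mono (hℓQ w hw) y hx
      rw [abs_of_nonneg (mul_nonneg (h2 x).1 (hbd w x).1)]
      have := hcx x hx'
      have h5 := hbd w x
      nlinarith [(h2 x).1]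
    rw [← Finset.sum_mul] at this
    exact this.trans (mul_le_mul_of_nonneg_right hMQ hc)
  have hT1b : |T1 - t1 y * D y l| ≤ δ * C1 := by
    have e1 : t1 y * D y l = (L.map (fun p => t1 y * conv g p.1 p.2 y l)).sum := by
      rw [list_sum_mul, ← hLD]
    rw [hT1, e1, list_sum_sub]
    refine (abs_list_sum_le L _ (fun p => δ * ((p.2.length : ℝ) * C)) fun p hp => ?_).trans ?_
    · have e2 : conv g (fun x => t1 x * p.1 x) p.2 y l - t1 y * conv g p.1 p.2 y l =
          conv g (fun x => (t1 x - t1 y) * p.1 x) p.2 y l := by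
        rw [← conv_smul]
        have := conv_add (g := g) (fun x => (t1 x - t1 y) * p.1 x) (fun x => t1 y * p.1 x) p.2 y l
        have e3 : (fun x => (t1 x - t1 y) * p.1 x + t1 y * p.1 x) = fun x => t1 x * p.1 x := by
          funext x; ring
        rw [e3] at this
        rw [this]; ring
      rw [e2]
      have := abs_conv_le (g := g) (mul_nonneg hδ hC) p.2 (fun x => (t1 x - t1 y) * p.1 x) y
        (fun x hx => by
          rw [abs_mul]
          exact mul_le_mul (hlip x (Ball.mono (hℓL p hp) y hx)) (hL p hp x) (abs_nonneg _) hδ) l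
      refine this.trans_eq ?_
      ring
    · rw [list_sum_mul]
      exact mul_le_mul_of_nonneg_left hC1 hδ
  have hC1' : 0 ≤ C1 := by
    refine le_trans ?_ hC1
    apply List.sum_nonneg
    intro x hx
    obtain ⟨p, _, rfl⟩ := List.mem_map.mp hx
    positivity
  have hδC : δ * C1 ≤ κ * M⁻¹ := by
    rw [← div_eq_mul_inv, le_div_iff₀ hM0]
    exact hδ1
  have hMi : 0 < M⁻¹ := by positivity
  have hMi1 : M⁻¹ ≤ 1 := inv_le_one_of_one_le₀ hM1
  have hV0 : 0 ≤ κ * M⁻¹ * T2 := by positivity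
  have hVup : ∀ c, 0 ≤ c → (∀ x ∈ Ball g ℓ y, t2 x ≤ c) → κ * M⁻¹ * T2 ≤ κ * c := by
    intro c hc hcx
    have h5 := hT2up c hc hcx
    calc κ * M⁻¹ * T2 ≤ κ * M⁻¹ * (M * c) := mul_le_mul_of_nonneg_left h5 (by positivity)
      _ = κ * c := by
        rw [mul_assoc, ← mul_assoc M⁻¹, inv_mul_cancel₀ hM0.ne', one_mul]
  obtain ⟨hd1, hd2⟩ := hκD y l hl
  rcases hcase with hA | hB
  · have hT11 : T1 = D y l := by
      rw [hT1, hLD]
      congr 1
      refine List.map_congr_left fun p hp => ?_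
      apply conv_congr
      intro x hx
      rw [hA x (Ball.mono (hℓL p hp) y hx), one_mul]
    have := hVup 1 zero_le_one (fun x _ => (h2 x).2.trans (h1 x).2)
    rw [hT11]
    constructor <;> linarith
  · have h5 := hVup (t1 y + δ) (by have := (h1 y).1; linarith) (fun x hx => by
      have h6 := abs_le.mp (hlip x hx)
      have := (h2 x).2
      linarith [h6.2])
    have h7 : κ * M⁻¹ * t1 y ≤ κ * M⁻¹ * T2 := by
      rw [hB] at hT2low
      exact mul_le_mul_of_nonneg_left hT2low (by positivity)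
    have h8 := abs_le.mp hT1b
    have h9 := h1 y
    constructor
    · have h10 : κ * t1 y ≤ t1 y * D y l := by nlinarith
      have h11 : κ * δ ≤ δ := by nlinarith
      have h12 : δ * (C1 + 1) = δ * C1 + δ := by ring
      nlinarith [h8.1]
    · have h10 : κ * M⁻¹ ≤ κ := by nlinarith
      have h11 : (1 - t1 y) * (κ * M⁻¹) ≤ (1 - t1 y) * D y l :=
        mul_le_mul_of_nonneg_left (by linarith) (by linarith [h9.2])
      nlinarith [h8.2]

theorem directed_adm {H : K → Lt → Prop} {D : K → Lt → ℝ} (hD0 : ∀ y l, ¬ H y l → D y l = 0)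
    (w : List Lt) : ∀ y, Directed g (sg D) y w → Adm g H y w := by
  induction w with
  | nil => intro y _; trivial
  | cons l w ih =>
    intro y h
    refine ⟨?_, ih _ h.2⟩
    by_contra hH
    have h0 := hD0 y l hH
    have h1 := sg_eq_one.mp h.1
    rw [h0] at h1
    exact lt_irrefl _ h1

/-- **Interpolation theorem**. -/
theorem exists_interpH {H : K → Lt → Prop} (hH : SymmE g H) {D : K → Lt → ℝ} {κ : ℝ}
    (hκ : 0 < κ) (hκ1 : κ ≤ 1) (hD0 : ∀ y l, ¬ H y l → D y l = 0)
    (hDκ : ∀ y l, H y l → κ ≤ |D y l| ∧ |D y l| ≤ 1 - κ)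
    (hD : Antisym g D) (hnull : NullH g H D) (hmob : Mobile g (sg D)) : ∃ H0 R0 : ℕ,
    ∀ {Γ : Type v} [Group Γ] {X : Type w} [MulAction Γ X] (ι : K →* Γ) (h : X → ℝ)
      (_ : ∀ y l, |h (lval (fun i => ι (g i)) l • y) - h y| ≤ 1) (q : X → K),
      ∃ f : X → Lt → ℝ, Antisym (fun i => ι (g i)) f ∧ (∀ y, ∑ s, f y s = 0) ∧
        (∀ y, (∀ x ∈ Ball (fun i => ι (g i)) R0 y, ∀ l,
          q (lval (fun i => ι (g i)) l • x) = lval g l * q x) →
          (∀ l, 0 < D (q y) l → D (q y) l - 1 ≤ f y l ∧ f y l ≤ D (q y) l) ∧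
          (∀ l, D (q y) l < 0 → D (q y) l ≤ f y l ∧ f y l ≤ D (q y) l + 1) ∧
          (∀ l, ¬ H (q y) l → f y l = 0) ∧
          (h y ≤ 0 → ∀ l, f y l = D (q y) l)) ∧
        ∀ y, (H0 : ℝ) ≤ h y → ∀ l, f y l = 0 := by
  classical
  obtain ⟨L, C, hC, hL, hLD⟩ := hnull
  have hκD : ∀ y l, 0 < D y l → κ ≤ D y l ∧ D y l ≤ 1 - κ := by
    intro y l hl
    by_cases hHl : H y l
    · have := hDκ y l hHl
      rwa [abs_of_pos hl] at this
    · rw [hD0 y l hHl] at hl
      exact absurd hl (lt_irrefl _)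
  obtain ⟨N, hN⟩ := hmob
  let Q : Finset (List Lt) := (List.finite_length_le Lt (N + 1)).toFinset.filter
    (fun w => wval g w = 1)
  let ℓ : ℕ := (L.map (fun p => p.2.length)).sum + (N + 1)
  let M : ℝ := 1 + ∑ w ∈ Q, (w.length : ℝ)
  let C1 : ℝ := (L.map (fun p => (p.2.length : ℝ) * C)).sum
  let b : List Lt → K → ℝ := fun w x => if Directed g (sg D) x w then 1 else 0
  have hb : ∀ w x, b w x = 0 ∨ (b w x = 1 ∧ Directed g (sg D) x w) := by
    intro w x
    simp only [b]
    split_ifs with h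
    · exact Or.inr ⟨rfl, h⟩
    · exact Or.inl rfl
  have hQ : ∀ y l, sg D y l = 1 → ∃ w, (l :: w) ∈ Q ∧ b (l :: w) y = 1 := by
    intro y l hl
    obtain ⟨w, h1, h2, h3⟩ := hN y l hl
    refine ⟨w, ?_, ?_⟩
    · simp only [Q, Finset.mem_filter, Set.Finite.mem_toFinset, mem_ofPred_eq]
      exact ⟨by simp; omega, h2⟩
    · simp only [b]
      rw [if_pos h3]
  have hQ1 : ∀ w ∈ Q, wval g w = 1 ∧ w.length ≤ N + 1 := by
    intro w hw
    simp only [Q, Finset.mem_filter, Set.Finite.mem_toFinset, mem_ofPred_eq] at hw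
    exact ⟨hw.2, hw.1⟩
  have hℓQ : ∀ w ∈ Q, w.length ≤ ℓ := fun w hw => by
    have := (hQ1 w hw).2
    simp only [ℓ]
    omega
  have hℓL : ∀ p ∈ L, p.2.length ≤ ℓ := by
    intro p hp
    have : p.2.length ≤ (L.map (fun p => p.2.length)).sum :=
      List.single_le_sum (by intro x _; exact Nat.zero_le _) _ (List.mem_map.mpr ⟨p, hp, rfl⟩)
    simp only [ℓ]
    omega
  have hM1 : 1 ≤ M := by
    have : 0 ≤ ∑ w ∈ Q, (w.length : ℝ) := Finset.sum_nonneg fun w _ => by positivity
    simp only [M]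
    linarith
  have hMQ : ∑ w ∈ Q, (w.length : ℝ) ≤ M := by simp only [M]; linarith
  have hC1 : 0 ≤ C1 := by
    apply List.sum_nonneg
    intro x hx
    obtain ⟨p, _, rfl⟩ := List.mem_map.mp hx
    positivity
  obtain ⟨Z, hZ⟩ := exists_nat_ge ((ℓ + 1) * (C1 + 1) * M / κ)
  have hℓ0 : (0 : ℝ) ≤ ℓ := by positivity
  have hZ1 : 0 < (Z : ℝ) := by
    have : 0 < (ℓ + 1) * (C1 + 1) * M / κ := by positivity
    linarith
  have hZκ : (ℓ + 1) * (C1 + 1) * M ≤ κ * Z := by
    rw [div_le_iff₀ hκ] at hZ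
    linarith
  set η : ℝ := 1 / Z with hη
  have hη0 : 0 ≤ η := by positivity
  set δ : ℝ := η * ℓ with hδ
  have hδ0 : 0 ≤ δ := by positivity
  have hδ1 : δ * C1 * M ≤ κ := by
    have : δ * C1 * M = (ℓ * C1 * M) / Z := by rw [hδ, hη]; ring
    rw [this, div_le_iff₀ hZ1]
    refine le_trans ?_ hZκ
    have : (ℓ : ℝ) * C1 ≤ (ℓ + 1) * (C1 + 1) := by nlinarith
    exact mul_le_mul_of_nonneg_right this (by linarith)
  have hδ2 : δ * (C1 + 1) ≤ κ := by
    have : δ * (C1 + 1) = (ℓ * (C1 + 1)) / Z := by rw [hδ, hη]; ring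
    rw [this, div_le_iff₀ hZ1]
    refine le_trans ?_ hZκ
    have h1 : (ℓ : ℝ) * (C1 + 1) ≤ (ℓ + 1) * (C1 + 1) := by nlinarith
    have h2 : 0 ≤ ((ℓ : ℝ) + 1) * (C1 + 1) := by positivity
    nlinarith
  -- the flow on the group
  have key : ∀ h : K → ℝ, (∀ y l, |h (lval g l • y) - h y| ≤ 1) →
      let t1 : K → ℝ := fun x => tau (2 * ℓ) η (h x)
      let t2 : K → ℝ := fun x => if h x ≤ ℓ then 0 else t1 x
      (∀ y l, 0 < D y l → D y l - 1 ≤ fade g L Q (M / κ) b (fun x : K => x) t1 t2 y l ∧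
        fade g L Q (M / κ) b (fun x : K => x) t1 t2 y l ≤ D y l) ∧
      (∀ y l, ¬ H y l → fade g L Q (M / κ) b (fun x : K => x) t1 t2 y l = 0) ∧
      (∀ y, h y ≤ 0 → ∀ l, fade g L Q (M / κ) b (fun x : K => x) t1 t2 y l = D y l) := by
    intro h hh t1 t2
    have ht1 : ∀ x, 0 ≤ t1 x ∧ t1 x ≤ 1 := fun x => ⟨tau_nonneg _ _ _, tau_le_one _ _ _⟩
    have ht2 : ∀ x, 0 ≤ t2 x ∧ t2 x ≤ t1 x := by
      intro x
      simp only [t2]
      split_ifs
      · exact ⟨le_rfl, (ht1 x).1⟩
      · exact ⟨(ht1 x).1, le_rfl⟩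
    have hone : ∀ y, h y ≤ ℓ → ∀ x ∈ Ball g ℓ y, t1 x = 1 := by
      intro y hy x hx
      apply tau_eq_one hη0
      have := abs_le.mp (lip_ball hh hx)
      linarith [this.2]
    refine ⟨?_, ?_, ?_⟩
    · intro y l hl
      have hfe : fade g L Q (M / κ) b (fun x : K => x) t1 t2 y l =
          (L.map (fun p => conv g (fun x => t1 x * p.1 x) p.2 y l)).sum -
            κ * M⁻¹ * ∑ w ∈ Q, conv g (fun x => t2 x * b w x) w y l := by
        unfold fade
        rw [inv_div, div_eq_mul_inv]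
      rw [hfe]
      refine fade_boundH (δ := δ) (C1 := C1) (ℓ := ℓ) hD hC (fun p hp => (hL p hp).2.1) hLD hκ hκ1
        hκD hM1 hMQ hb hQ hℓL hℓQ hδ0 le_rfl ht1 ht2 hl ?_ ?_ hδ1 hδ2
      · intro x hx
        refine (tau_lip hη0 _ _).trans ?_
        rw [hδ]
        exact mul_le_mul_of_nonneg_left (lip_ball hh hx) hη0
      · by_cases hy : h y ≤ ℓ
        · exact Or.inl (hone y hy)
        · right
          simp only [t2]
          rw [if_neg hy]
    · intro y l hHl
      unfold fade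
      have e1 : (L.map (fun p => conv g (fun x => t1 x * p.1 x) p.2 y l)).sum = 0 := by
        apply List.sum_eq_zero
        intro r hr
        obtain ⟨p, hp, rfl⟩ := List.mem_map.mp hr
        refine conv_adm hH p.2 _ (fun x hx => (hL p hp).2.2 x (fun h0 => hx ?_)) y l hHl
        rw [h0, mul_zero]
      have e2 : ∑ w ∈ Q, conv g (fun x => t2 x * b w x) w y l = 0 := by
        refine Finset.sum_eq_zero fun w hw => ?_
        refine conv_adm hH w _ (fun x hx => ?_) y l hHl
        rcases hb w x with h | h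
        · rw [h, mul_zero] at hx
          exact absurd rfl hx
        · exact directed_adm hD0 w x h.2
      rw [e1, e2]
      ring
    · intro y hy l
      have h1 : ∀ x ∈ Ball g ℓ y, h x ≤ ℓ := by
        intro x hx
        have := abs_le.mp (lip_ball hh hx)
        linarith [this.2]
      unfold fade
      have e1 : (L.map (fun p => conv g (fun x => t1 x * p.1 x) p.2 y l)).sum = D y l := by
        rw [hLD]
        congr 1
        refine List.map_congr_left fun p hp => ?_
        apply conv_congr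
        intro x hx
        rw [hone y (by linarith) x (Ball.mono (hℓL p hp) y hx), one_mul]
      have e2 : ∑ w ∈ Q, conv g (fun x => t2 x * b w x) w y l = 0 := by
        refine Finset.sum_eq_zero fun w hw => ?_
        rw [← conv_zero (g := g) w y l]
        apply conv_congr
        intro x hx
        simp only [t2]
        rw [if_pos (h1 x (Ball.mono (hℓQ w hw) y hx)), zero_mul]
      rw [e1, e2]
      ring
  refine ⟨3 * ℓ + Z, ℓ, ?_⟩
  intro Γ _ X _ ι h hh q
  let t1 : X → ℝ := fun x => tau (2 * ℓ) η (h x)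
  let t2 : X → ℝ := fun x => if h x ≤ ℓ then 0 else t1 x
  have hmv : ∀ w, wval (fun i => ι (g i)) w = ι (wval g w) := fun w => (map_wval ι w).symm
  refine ⟨fade (fun i => ι (g i)) L Q (M / κ) b q t1 t2, fade_antisym _ _ _ _ _ _ _ _, ?_, ?_, ?_⟩
  · intro y
    refine fade_div _ _ _ _ _ _ _ _ (fun p hp => ?_) (fun w hw => ?_) y
    · rw [hmv, (hL p hp).1, map_one]
    · rw [hmv, (hQ1 w hw).1, map_one]
  · intro y hy
    let o : K → X := fun k => ι (k * (q y)⁻¹) • y
    have ho : ∀ k l, o (lval g l • k) = lval (fun i => ι (g i)) l • o k := by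
      intro k l
      simp only [o, smul_eq_mul]
      rw [mul_assoc, map_mul, mul_smul, map_lval]
    have hoy : o (q y) = y := by simp [o]
    have hqo : ∀ k ∈ Ball g ℓ (q y), q (o k) = k := by
      rintro _ ⟨w, hw, rfl⟩
      have : ∀ w : List Lt, w.length ≤ ℓ → q (wval (fun i => ι (g i)) w • y) = wval g w * q y := by
        intro w
        induction w using List.reverseRecOn with
        | nil => intro _; simp
        | append_singleton w l ih =>
          intro hw
          rw [List.length_append] at hw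
          simp only [List.length_cons, List.length_nil] at hw
          have e1 : wval (fun i => ι (g i)) [l] = lval (fun i => ι (g i)) l := by simp
          have e2 : wval g [l] = lval g l := by simp
          rw [wval_append, wval_append, mul_smul, e1, e2, hy _ ⟨w, by omega, rfl⟩,
            ih (by omega), mul_assoc]
      simp only [o, smul_eq_mul]
      rw [mul_inv_cancel_right, ← hmv, this w hw]
    have hlip : ∀ k l, |(h ∘ o) (lval g l • k) - (h ∘ o) k| ≤ 1 := by
      intro k l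
      simp only [Function.comp]
      rw [ho]
      exact hh _ _
    obtain ⟨k1, k3, k2⟩ := key (h ∘ o) hlip
    have htr : ∀ l, fade (fun i => ι (g i)) L Q (M / κ) b q t1 t2 y l =
        fade g L Q (M / κ) b (fun x : K => x) (fun x => tau (2 * ℓ) η ((h ∘ o) x))
          (fun x => if (h ∘ o) x ≤ ℓ then 0 else tau (2 * ℓ) η ((h ∘ o) x)) (q y) l := by
      intro l
      have gen : ∀ (a : X → ℝ) (c : K → ℝ) (w : List Lt), w.length ≤ ℓ →
          (∀ k ∈ Ball g ℓ (q y), a (o k) = c k) →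
          conv (fun i => ι (g i)) a w y l = conv g c w (q y) l := by
        intro a c w hw hac
        have h1 := conv_transport (g := g) (g' := fun i => ι (g i)) (q := o) 1 w c a (q y)
          (fun x hx => by rw [one_mul, hac x (Ball.mono hw _ hx)]) (fun x _ l' => ho x l') l
        rw [h1, one_mul, hoy]
      unfold fade
      congr 1
      · congr 1
        refine List.map_congr_left fun p hp => ?_
        refine gen _ _ p.2 (hℓL p hp) fun k hk => ?_
        simp only [t1, Function.comp]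
        rw [hqo k hk]
      · congr 1
        refine Finset.sum_congr rfl fun w hw => ?_
        refine gen _ _ w (hℓQ w hw) fun k hk => ?_
        simp only [t2, t1, Function.comp]
        rw [hqo k hk]
    refine ⟨fun l hl => ?_, fun l hl => ?_, fun l hl => ?_, fun hy0 l => ?_⟩
    · rw [htr]
      exact k1 _ _ hl
    · rw [htr]
      have h1 : D (lval g l • q y) (linv l) = - D (q y) l := hD _ _
      have h2 := k1 (lval g l • q y) (linv l) (by rw [h1]; linarith)
      rw [fade_antisym, h1] at h2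
      constructor <;> linarith [h2.1, h2.2]
    · rw [htr]
      exact k3 _ _ hl
    · rw [htr]
      refine k2 _ ?_ l
      simp only [Function.comp]
      rw [hoy]
      exact hy0
  · intro y hy l
    have hz : ∀ x ∈ Ball (fun i => ι (g i)) ℓ y, t1 x = 0 := by
      intro x hx
      apply tau_eq_zero
      have h1 := abs_le.mp (lip_ball hh hx)
      have h2 : (Z : ℝ) ≤ h x - 2 * ℓ := by
        push_cast at hy
        linarith [h1.1]
      rw [hη, one_div]
      calc (1 : ℝ) = (Z : ℝ)⁻¹ * Z := (inv_mul_cancel₀ hZ1.ne').symm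
        _ ≤ (Z : ℝ)⁻¹ * (h x - 2 * ℓ) := mul_le_mul_of_nonneg_left h2 (by positivity)
    unfold fade
    have e1 : (L.map (fun p => conv (fun i => ι (g i)) (fun x => t1 x * p.1 (q x)) p.2 y l)).sum
        = 0 := by
      apply List.sum_eq_zero
      intro r hr
      obtain ⟨p, hp, rfl⟩ := List.mem_map.mp hr
      rw [← conv_zero (g := fun i => ι (g i)) p.2 y l]
      apply conv_congr
      intro x hx
      rw [hz x (Ball.mono (hℓL p hp) y hx), zero_mul]
    have e2 : ∑ w ∈ Q, conv (fun i => ι (g i)) (fun x => t2 x * b w (q x)) w y l = 0 := by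
      refine Finset.sum_eq_zero fun w hw => ?_
      rw [← conv_zero (g := fun i => ι (g i)) w y l]
      apply conv_congr
      intro x hx
      simp only [t2]
      rw [hz x (Ball.mono (hℓQ w hw) y hx)]
      simp
    rw [e1, e2]
    ring

end Run7.h916
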