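import Pool.Agent.Run7.h916.Assemble

set_option autoImplicit false
set_option linter.unusedSectionVars false

/-!
Permuting colours on sets which are closed under the edges of the colours concerned, and the
colourings given by phases.
-/

namespace Run7.h916

open Set Relation
open scoped Pointwise

universe u v

variable {Γ : Type u} [Group Γ]

open Classical in
/-- The colouring obtained from `κ` by applying the permutation `π` to the colours of the edges at
the points of `Λ`. -/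
noncomputable def permOn (π : Equiv.Perm Γ) (Λ : Set Γ) (κ : Γ → Γ → Γ) : Γ → Γ → Γ :=
  fun γ s => if γ ∈ Λ then π (κ γ s) else κ γ s

theorem permOn_mem {π : Equiv.Perm Γ} {Λ : Set Γ} {κ : Γ → Γ → Γ} {γ : Γ} (h : γ ∈ Λ) (s : Γ) :
    permOn π Λ κ γ s = π (κ γ s) := by unfold permOn; rw [if_pos h]

theorem permOn_notMem {π : Equiv.Perm Γ} {Λ : Set Γ} {κ : Γ → Γ → Γ} {γ : Γ} (h : γ ∉ Λ) (s : Γ) :
    permOn π Λ κ γ s = κ γ s := by unfold permOn; rw [if_neg h]

theorem LocCol.permOn {B : Set Γ} {κ : Γ → Γ → Γ} (hκ : LocCol B κ) {π : Equiv.Perm Γ}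
    {Λ : Set Γ} (hπ : ∀ c ∈ B, π c ∈ B)
    (hΛ : ∀ γ, ∀ s ∈ B, π (κ γ s) ≠ κ γ s → (γ ∈ Λ ↔ s * γ ∈ Λ)) :
    LocCol B (permOn π Λ κ) where
  mem γ s hs := by
    by_cases h : γ ∈ Λ
    · rw [permOn_mem h]; exact hπ _ (hκ.mem γ s hs)
    · rw [permOn_notMem h]; exact hκ.mem γ s hs
  inj γ := by
    intro a ha b hb hab
    by_cases h : γ ∈ Λ
    · rw [permOn_mem h, permOn_mem h] at hab
      exact hκ.inj γ ha hb (π.injective hab)
    · rw [permOn_notMem h, permOn_notMem h] at hab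
      exact hκ.inj γ ha hb hab
  symm γ s hs := by
    by_cases hfix : π (κ γ s) = κ γ s
    · have h1 : Run7.h916.permOn π Λ κ γ s = κ γ s := by
        by_cases h : γ ∈ Λ
        · rw [permOn_mem h, hfix]
        · rw [permOn_notMem h]
      have h2 : Run7.h916.permOn π Λ κ (s * γ) s⁻¹ = κ γ s := by
        by_cases h : s * γ ∈ Λ
        · rw [permOn_mem h, hκ.symm γ s hs, hfix]
        · rw [permOn_notMem h, hκ.symm γ s hs]
      rw [h1, h2]
    · have h3 := hΛ γ s hs hfix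
      by_cases h : γ ∈ Λ
      · rw [permOn_mem h, permOn_mem (h3.mp h), hκ.symm γ s hs]
      · rw [permOn_notMem h, permOn_notMem (fun h' => h (h3.mpr h')), hκ.symm γ s hs]

/-- A map constant on the components of the difference, at bounded distance from the identity. -/
theorem Step.of_origin {B E F : Set Γ} {κ κ' : Γ → Γ → Γ} (o : Γ → Γ)
    (h1 : ∀ γ γ', DiffRel B κ κ' γ γ' → o γ' = o γ) (h2 : ∀ γ, γ * (o γ)⁻¹ ∈ F)
    (hE : ∀ a ∈ F, ∀ b ∈ F, a * b⁻¹ ∈ E) : Step B E κ κ' := by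
  intro γ γ' hr
  have ho : o γ' = o γ := by
    induction hr with
    | refl => rfl
    | tail _ hc ih => rw [h1 _ _ hc, ih]
  have := hE _ (h2 γ') _ (h2 γ)
  rw [ho] at this
  simpa using this

open Classical in
/-- The local change which composes a colour permutation on `Λ` with a transposition `(i j)`. -/
theorem step_perm {B E F : Set Γ} {κ : Γ → Γ → Γ} {π : Equiv.Perm Γ} {i j : Γ} {Λ : Set Γ}
    (h1F : (1 : Γ) ∈ F) (hE : ∀ a ∈ F, ∀ b ∈ F, a * b⁻¹ ∈ E)
    (hΛ : ∀ γ, ∀ s ∈ B, (κ γ s = i ∨ κ γ s = j) → (γ ∈ Λ ↔ s * γ ∈ Λ))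
    (o : Γ → Γ) (ho : ∀ γ ∈ Λ, ∀ s ∈ B, (κ γ s = i ∨ κ γ s = j) → o (s * γ) = o γ)
    (hoF : ∀ γ ∈ Λ, γ * (o γ)⁻¹ ∈ F) :
    Step B E (permOn π Λ κ) (permOn (π * Equiv.swap i j) Λ κ) := by
  refine Step.of_origin (fun γ => if γ ∈ Λ then o γ else γ) ?_ ?_ hE
  · rintro γ γ' ⟨s, hs, rfl, hne⟩
    have hγ : γ ∈ Λ := by
      by_contra h
      rw [permOn_notMem h, permOn_notMem h] at hne
      exact hne rfl
    rw [permOn_mem hγ, permOn_mem hγ] at hne
    have hc : κ γ s = i ∨ κ γ s = j := by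
      by_contra h
      push Not at h
      apply hne
      rw [Equiv.Perm.mul_apply, Equiv.swap_apply_of_ne_of_ne h.1 h.2]
    have hγ' := (hΛ γ s hs hc).mp hγ
    simp only [if_pos hγ, if_pos hγ']
    exact ho γ hγ s hs hc
  · intro γ
    by_cases h : γ ∈ Λ
    · simp only [if_pos h]; exact hoF γ h
    · simp only [if_neg h]; simpa using h1F

theorem permOn_one {Λ : Set Γ} {κ : Γ → Γ → Γ} : permOn 1 Λ κ = κ := by
  funext γ s
  by_cases h : γ ∈ Λ
  · rw [permOn_mem h]; rfl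
  · rw [permOn_notMem h]

open Classical in
/-- Exchange of two colours with the help of a third one. -/
theorem reach_swap {B E F : Set Γ} {κ : Γ → Γ → Γ} (hκ : LocCol B κ) {a b m : Γ}
    (ha : a ∈ B) (hb : b ∈ B) (hm : m ∈ B) (hab : a ≠ b) (ham : a ≠ m) (hbm : b ≠ m)
    {Λ : Set Γ} (h1F : (1 : Γ) ∈ F) (hE : ∀ a ∈ F, ∀ b ∈ F, a * b⁻¹ ∈ E)
    (hΛ : ∀ γ, ∀ s ∈ B, (κ γ s = a ∨ κ γ s = b ∨ κ γ s = m) → (γ ∈ Λ ↔ s * γ ∈ Λ))
    (o : Γ → Γ) (ho : ∀ γ ∈ Λ, ∀ s ∈ B, (κ γ s = a ∨ κ γ s = m) → o (s * γ) = o γ)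
    (hoF : ∀ γ ∈ Λ, γ * (o γ)⁻¹ ∈ F)
    (o' : Γ → Γ) (ho' : ∀ γ ∈ Λ, ∀ s ∈ B, (κ γ s = b ∨ κ γ s = m) → o' (s * γ) = o' γ)
    (hoF' : ∀ γ ∈ Λ, γ * (o' γ)⁻¹ ∈ F) :
    Reach B E 3 κ (permOn (Equiv.swap a b) Λ κ) := by
  have h1E : (1 : Γ) ∈ E := by simpa using hE 1 h1F 1 h1F
  have hsB : ∀ i j : Γ, i ∈ B → j ∈ B → ∀ c ∈ B, Equiv.swap i j c ∈ B := by
    intro i j hi hj c hc
    rcases eq_or_ne c i with h | h
    · rw [h, Equiv.swap_apply_left]; exact hj
    · rcases eq_or_ne c j with h' | h'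
      · rw [h', Equiv.swap_apply_right]; exact hi
      · rw [Equiv.swap_apply_of_ne_of_ne h h']; exact hc
  -- supports
  have hfix : ∀ (π : Equiv.Perm Γ), (∀ c, c ≠ a → c ≠ b → c ≠ m → π c = c) →
      (∀ c ∈ B, π c ∈ B) → LocCol B (permOn π Λ κ) := by
    intro π hπ hπB
    refine hκ.permOn hπB fun γ s hs hne => hΛ γ s hs ?_
    by_contra h
    push Not at h
    exact hne (hπ _ h.1 h.2.1 h.2.2)
  set π1 : Equiv.Perm Γ := 1 * Equiv.swap a m with hπ1
  set π2 : Equiv.Perm Γ := π1 * Equiv.swap b m with hπ2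
  set π3 : Equiv.Perm Γ := π2 * Equiv.swap a m with hπ3
  have e3 : π3 = Equiv.swap a b := by
    ext c
    simp only [hπ3, hπ2, hπ1, Equiv.Perm.mul_apply, Equiv.Perm.coe_one, id]
    rcases eq_or_ne c a with h | h
    · subst h
      rw [Equiv.swap_apply_left, Equiv.swap_apply_right, Equiv.swap_apply_left,
        Equiv.swap_apply_of_ne_of_ne hab.symm hbm]
    · rcases eq_or_ne c b with h' | h'
      · subst h'
        rw [Equiv.swap_apply_of_ne_of_ne h hbm, Equiv.swap_apply_left, Equiv.swap_apply_right,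
          Equiv.swap_apply_right]
      · rcases eq_or_ne c m with h'' | h''
        · subst h''
          rw [Equiv.swap_apply_right, Equiv.swap_apply_of_ne_of_ne hab ham,
            Equiv.swap_apply_left, Equiv.swap_apply_of_ne_of_ne h h']
        · rw [Equiv.swap_apply_of_ne_of_ne h h'', Equiv.swap_apply_of_ne_of_ne h' h'',
            Equiv.swap_apply_of_ne_of_ne h h'', Equiv.swap_apply_of_ne_of_ne h h']
  have hc1 : ∀ c, c ≠ a → c ≠ b → c ≠ m → π1 c = c := by
    intro c h1 h2 h3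
    simp only [hπ1, Equiv.Perm.mul_apply, Equiv.Perm.coe_one, id]
    exact Equiv.swap_apply_of_ne_of_ne h1 h3
  have hc2 : ∀ c, c ≠ a → c ≠ b → c ≠ m → π2 c = c := by
    intro c h1 h2 h3
    simp only [hπ2, Equiv.Perm.mul_apply]
    rw [Equiv.swap_apply_of_ne_of_ne h2 h3]
    exact hc1 c h1 h2 h3
  have hB1 : ∀ c ∈ B, π1 c ∈ B := by
    intro c hc
    simp only [hπ1, Equiv.Perm.mul_apply, Equiv.Perm.coe_one, id]
    exact hsB a m ha hm c hc
  have hB2 : ∀ c ∈ B, π2 c ∈ B := by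
    intro c hc
    simp only [hπ2, Equiv.Perm.mul_apply]
    exact hB1 _ (hsB b m hb hm c hc)
  have hc3 : ∀ c, c ≠ a → c ≠ b → c ≠ m → π3 c = c := by
    intro c h1 h2 h3
    rw [e3]
    exact Equiv.swap_apply_of_ne_of_ne h1 h2
  have hB3 : ∀ c ∈ B, π3 c ∈ B := by
    intro c hc
    rw [e3]
    exact hsB a b ha hb c hc
  have s1 : Step B E κ (permOn π1 Λ κ) := by
    have := step_perm (π := 1) (B := B) (κ := κ) h1F hE
      (fun γ s hs h => hΛ γ s hs (by tauto)) o ho hoF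
    rwa [permOn_one] at this
  have s2 : Step B E (permOn π1 Λ κ) (permOn π2 Λ κ) :=
    step_perm h1F hE (fun γ s hs h => hΛ γ s hs (by tauto)) o' ho' hoF'
  have s3 : Step B E (permOn π2 Λ κ) (permOn π3 Λ κ) :=
    step_perm h1F hE (fun γ s hs h => hΛ γ s hs (by tauto)) o ho hoF
  have r1 := Reach.single h1E hκ (hfix π1 hc1 hB1) s1
  have r2 := Reach.single h1E (hfix π1 hc1 hB1) (hfix π2 hc2 hB2) s2
  have r3 := Reach.single h1E (hfix π2 hc2 hB2) (hfix π3 hc3 hB3) s3
  have := (r1.trans r2).trans r3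
  rwa [e3] at this

/-! ### Colourings given by phases -/

/-- The colouring given by phases: the edge from `γ` in the direction `s` has colour `s` if the
phase of `s` at `γ` is `0`, and colour `s⁻¹` otherwise. -/
def kap (f : Γ → Γ → ZMod 2) : Γ → Γ → Γ := fun γ s => if f s γ = 0 then s else s⁻¹

/-- A family of phases for the block `B`. -/
structure IsPhase (B : Set Γ) (f : Γ → Γ → ZMod 2) : Prop where
  inv : ∀ s ∈ B, f s⁻¹ = f s
  step : ∀ s ∈ B, s ≠ s⁻¹ → ∀ γ, f s (s * γ) = f s γ + 1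

theorem zmod2_cases (a : ZMod 2) : a = 0 ∨ a = 1 := by
  fin_cases a
  · exact Or.inl rfl
  · exact Or.inr rfl

theorem zmod2_ne_zero {a : ZMod 2} : a ≠ 0 ↔ a = 1 := by
  rcases zmod2_cases a with h | h <;> simp [h]

theorem zmod2_add_one {a : ZMod 2} : a + 1 = 0 ↔ a ≠ 0 := by
  rcases zmod2_cases a with h | h <;> rw [h] <;> decide

theorem IsPhase.locCol {B : Set Γ} (hB : ∀ s ∈ B, s⁻¹ ∈ B) {f : Γ → Γ → ZMod 2}
    (hf : IsPhase B f) : LocCol B (kap f) where
  mem γ s hs := by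
    unfold kap
    split_ifs
    · exact hs
    · exact hB s hs
  inj γ := by
    intro a ha b hb hab
    unfold kap at hab
    split_ifs at hab with h1 h2 h2
    · exact hab
    · -- a = b⁻¹
      exfalso
      rw [hab, hf.inv b hb] at h1
      exact h2 h1
    · exfalso
      rw [← hab, hf.inv a ha] at h2
      exact h1 h2
    · exact inv_injective hab
  symm γ s hs := by
    unfold kap
    rw [hf.inv s hs]
    by_cases hss : s = s⁻¹
    · rw [← hss]
      simp only [ite_self, ite_eq_left_iff]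
      exact fun _ => hss.symm
    · rw [hf.step s hs hss γ, inv_inv]
      rcases zmod2_cases (f s γ) with h | h
      · rw [h]
        norm_num
      · rw [h]
        have : (1 : ZMod 2) + 1 = 0 := by decide
        rw [this]
        norm_num

/-- The neighbour in the colour `c` of a colouring given by phases. -/
def nb (c : Γ) (φ : Γ → ZMod 2) (γ : Γ) : Γ := if φ γ = 0 then c * γ else c⁻¹ * γ

theorem kap_eq {B : Set Γ} {f : Γ → Γ → ZMod 2} (hf : IsPhase B f) {γ s c : Γ} (hs : s ∈ B)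
    (h : kap f γ s = c) : s * γ = nb c (f c) γ := by
  unfold kap at h
  unfold nb
  split_ifs at h with h1
  · rw [← h, if_pos h1]
  · rw [← h, hf.inv s hs, if_neg h1, inv_inv]

open Classical in
/-- The family of phases `f` with the phase of `v` replaced by `φ`. -/
noncomputable def setPhase (f : Γ → Γ → ZMod 2) (v : Γ) (φ : Γ → ZMod 2) : Γ → Γ → ZMod 2 :=
  fun s => if s = v ∨ s = v⁻¹ then φ else f s

open Classical in
theorem permOn_kap {B : Set Γ} {f : Γ → Γ → ZMod 2} (hf : IsPhase B f) {v : Γ} (hv : v ∈ B)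
    (Λ : Set Γ) (φ : Γ → ZMod 2) (hφ : ∀ γ, γ ∈ Λ ↔ φ γ ≠ f v γ) :
    EqB B (permOn (Equiv.swap v v⁻¹) Λ (kap f)) (kap (setPhase f v φ)) := by
  intro γ s hs
  unfold kap setPhase
  by_cases hsv : s = v ∨ s = v⁻¹
  · simp only [if_pos hsv]
    have hfs : f s = f v := by
      rcases hsv with h | h
      · rw [h]
      · rw [h, hf.inv v hv]
    by_cases hΛ : γ ∈ Λ
    · rw [permOn_mem hΛ]
      have hne := (hφ γ).mp hΛ
      rw [hfs]
      rcases zmod2_cases (f v γ) with h0 | h0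
      · rw [if_pos h0, if_neg (by rw [← h0]; exact hne)]
        rcases hsv with h | h
        · rw [h, Equiv.swap_apply_left]
        · rw [h, Equiv.swap_apply_right, inv_inv]
      · have hφ0 : φ γ = 0 := by
          rcases zmod2_cases (φ γ) with h | h
          · exact h
          · exact absurd (h.trans h0.symm) hne
        rw [if_neg (by rw [h0]; decide), if_pos hφ0]
        rcases hsv with h | h
        · rw [h, Equiv.swap_apply_right]
        · rw [h, inv_inv, Equiv.swap_apply_left]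
    · rw [permOn_notMem hΛ]
      have he : φ γ = f v γ := by
        by_contra h
        exact hΛ ((hφ γ).mpr h)
      rw [hfs, he]
  · simp only [if_neg hsv]
    push Not at hsv
    have h1 : s⁻¹ ≠ v := fun h => hsv.2 (by rw [← h, inv_inv])
    have h2 : s⁻¹ ≠ v⁻¹ := fun h => hsv.1 (inv_injective h)
    by_cases hΛ : γ ∈ Λ
    · rw [permOn_mem hΛ]
      split_ifs
      · exact Equiv.swap_apply_of_ne_of_ne hsv.1 hsv.2
      · exact Equiv.swap_apply_of_ne_of_ne h1 h2
    · rw [permOn_notMem hΛ]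

end Run7.h916
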