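import Pool.Agent.Run7.h916.TorCom

set_option autoImplicit false
set_option linter.unusedSectionVars false
set_option linter.unusedVariables false

/-!
Groups which are locally finite by virtually infinite cyclic.
-/

namespace Run7.h916

open Subgroup

universe u v

theorem lf_comap {G : Type u} [Group G] {L : Subgroup G} [L.Normal] (hL : IsLocallyFinite L)
    {D : Subgroup (G ⧸ L)} (hD : IsLocallyFinite D) :
    IsLocallyFinite (D.comap (QuotientGroup.mk' L)) := by
  intro F hF hfg
  refine finite_of_finite_map hL hfg ?_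
  have h1 : F.map (QuotientGroup.mk' L) ≤ D := by
    rw [Subgroup.map_le_iff_le_comap]
    exact hF
  have h2 : (F.map (QuotientGroup.mk' L)).FG := by
    classical
    obtain ⟨s, hs⟩ := hfg
    refine ⟨s.image (QuotientGroup.mk' L), ?_⟩
    rw [Finset.coe_image, ← MonoidHom.map_closure, hs]
  have := hD _ h1 h2
  exact Set.toFinite _

theorem isOfFinOrder_of_quotient {G : Type u} [Group G] {L : Subgroup G} [L.Normal]
    (hL : IsLocallyFinite L) {x : G} (h : IsOfFinOrder (QuotientGroup.mk' L x)) :
    IsOfFinOrder x := by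
  obtain ⟨n, hn, h⟩ := isOfFinOrder_iff_pow_eq_one.mp h
  rw [← map_pow] at h
  have h1 : x ^ n ∈ L := (QuotientGroup.eq_one_iff _).mp h
  have h2 := hL.isOfFinOrder h1
  rw [isOfFinOrder_pow] at h2
  rcases h2 with h2 | h2
  · exact h2
  · omega

theorem lf_two_ended {G : Type u} [Group G] {L : Subgroup G} [L.Normal] (hL : IsLocallyFinite L)
    (h : VirtuallyInfiniteCyclic (G ⧸ L)) {S : Set G} (hS : closure S = ⊤) :
    (∃ K : Subgroup G, ∃ _ : K.Normal, IsLocallyFinite K ∧ IsCyclic (G ⧸ K) ∧
      ∀ z, IsOfFinOrder z → z ∈ K) ∨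
    ∃ K : Subgroup G, K.Normal ∧ IsLocallyFinite K ∧ ∃ z ∈ S, IsOfFinOrder z ∧
      ∀ v : G, ¬ IsOfFinOrder v → z * v * z⁻¹ * v ∈ K := by
  by_cases hfe : FiniteExtensionOfInt (G ⧸ L)
  · left
    obtain ⟨D, hDn, hDf, ⟨e⟩⟩ := hfe
    let ψ : G →* Multiplicative ℤ :=
      e.toMonoidHom.comp ((QuotientGroup.mk' D).comp (QuotientGroup.mk' L))
    have hψs : Function.Surjective ψ :=
      e.surjective.comp ((QuotientGroup.mk'_surjective D).comp (QuotientGroup.mk'_surjective L))
    have hψ : ∀ x, ψ x = e (QuotientGroup.mk' D (QuotientGroup.mk' L x)) := fun _ => rfl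
    refine ⟨ψ.ker, inferInstance, ?_, ?_, ?_⟩
    · have h1 : IsLocallyFinite D := by
        intro K hK _
        exact Finite.of_injective (Subgroup.inclusion hK) (Subgroup.inclusion_injective hK)
      have h2 : ψ.ker ≤ D.comap (QuotientGroup.mk' L) := by
        intro x hx
        rw [MonoidHom.mem_ker, hψ] at hx
        have h3 : QuotientGroup.mk' D (QuotientGroup.mk' L x) = 1 := by
          have := congrArg e.symm hx
          simpa using this
        exact (QuotientGroup.eq_one_iff (N := D) (QuotientGroup.mk' L x)).mp h3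
      intro F hF hfg
      exact lf_comap hL h1 F (hF.trans h2) hfg
    · let e2 := QuotientGroup.quotientKerEquivOfSurjective ψ hψs
      exact isCyclic_of_surjective e2.symm.toMonoidHom e2.symm.surjective
    · intro z hz
      have h1 : IsOfFinOrder (ψ z) := MonoidHom.isOfFinOrder ψ hz
      rw [MonoidHom.mem_ker]
      rw [isOfFinOrder_iff_pow_eq_one] at h1
      obtain ⟨n, hn', h1⟩ := h1
      have := congrArg Multiplicative.toAdd h1
      rw [toAdd_pow, toAdd_one] at this
      have h3 : Multiplicative.toAdd (ψ z) = 0 := by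
        rw [nsmul_eq_mul] at this
        rcases mul_eq_zero.mp this with h | h
        · exfalso
          have : n = 0 := by exact_mod_cast h
          omega
        · exact h
      exact h3
  · right
    have hgen : closure (QuotientGroup.mk' L '' S) = ⊤ := by
      rw [← MonoidHom.map_closure, hS, ← MonoidHom.range_eq_map]
      exact MonoidHom.range_eq_top.mpr (QuotientGroup.mk'_surjective L)
    obtain ⟨L1, hn, hL1, z', hz', hzf, hrel⟩ := two_ended_structure hgen h hfe
    obtain ⟨z, hzS, rfl⟩ := hz'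
    refine ⟨L1.comap (QuotientGroup.mk' L), hn.comap _, lf_comap hL hL1, z, hzS,
      isOfFinOrder_of_quotient hL hzf, fun v hv => ?_⟩
    have := hrel (QuotientGroup.mk' L v) (fun h => hv (isOfFinOrder_of_quotient hL h))
    rw [Subgroup.mem_comap, map_mul, map_mul, map_mul, map_inv]
    exact this

/-- **The chromatic index for groups which are locally finite by virtually infinite cyclic.** -/
theorem chromaticIndex_lf_twoEnded {Γ : Type u} [Group Γ] {X : Type v} [MulAction Γ X]
    [MeasurableSpace X] [StandardBorelSpace X] {S : Finset Γ} (hS : IsMarking S) (hH : HypH S X)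
    {L : Subgroup Γ} (hLn : L.Normal) (hL : IsLocallyFinite L)
    (hvc : VirtuallyInfiniteCyclic (Γ ⧸ L))
    (hcyc : ∀ (K : Subgroup Γ) (_ : K.Normal), IsLocallyFinite K → ¬ IsCyclic (Γ ⧸ K)) :
    borelChromaticIndex (schreierGraph S X) = S.card := by
  rcases lf_two_ended hL hvc (S := (S : Set Γ)) hS.closure_eq with
    ⟨K, hKn, hK, hKc, _⟩ | ⟨K, hKn, hK, z, hz, hzf, hrel⟩
  · exact absurd hKc (hcyc K hKn hK)
  · exact chromaticIndex_pivot hS hH hK (by exact_mod_cast hz) hzf
      fun v _ hv => Or.inr (hrel v hv)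

/-- Every element `v` of `B` has a partner `z` in `S` of finite order such that `⟨v, z⟩` has a
locally finite normal subgroup with virtually infinite cyclic quotient. -/
def TorsionBlock' {Γ : Type u} [Group Γ] (S : Finset Γ) (B : Set Γ) : Prop :=
  ∀ v ∈ B, ∃ z ∈ S, IsOfFinOrder z ∧
    ∃ (L : Subgroup (Subgroup.closure {v, z} : Subgroup Γ)) (_ : L.Normal), IsLocallyFinite L ∧
      VirtuallyInfiniteCyclic ((Subgroup.closure {v, z} : Subgroup Γ) ⧸ L)

theorem partnerData_of_torsionBlock' {Γ : Type u} [Group Γ] {S : Finset Γ} {B : Set Γ}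
    (h : TorsionBlock' S B) {v : Γ} (hv : v ∈ B) (hvi : ¬ IsOfFinOrder v) :
    ∃ z ∈ S, IsOfFinOrder z ∧ ∃ ε, PartnerData v z ε := by
  obtain ⟨z, hz, hzf, L, hLn, hL, hvc⟩ := h v hv
  refine ⟨z, hz, hzf, ?_⟩
  set H : Subgroup Γ := Subgroup.closure {v, z} with hHdef
  have hvH : v ∈ H := Subgroup.subset_closure (by simp)
  have hzH : z ∈ H := Subgroup.subset_closure (by simp)
  let v' : H := ⟨v, hvH⟩
  let z' : H := ⟨z, hzH⟩
  have hv' : ¬ IsOfFinOrder v' := fun h => hvi (isOfFinOrder_subgroup.mp h)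
  have hz' : IsOfFinOrder z' := isOfFinOrder_subgroup.mpr hzf
  have hgen : Subgroup.closure ({v', z'} : Set H) = ⊤ := by
    have h1 : ({v', z'} : Set H) = Subtype.val ⁻¹' ({v, z} : Set Γ) := by
      ext x
      simp only [Set.mem_insert_iff, Set.mem_singleton_iff, Set.mem_preimage]
      constructor
      · rintro (rfl | rfl)
        · exact Or.inl rfl
        · exact Or.inr rfl
      · rintro (h | h)
        · exact Or.inl (Subtype.ext h)
        · exact Or.inr (Subtype.ext h)
    rw [h1]
    exact Subgroup.closure_closure_coe_preimage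
  rcases lf_two_ended hL hvc hgen with ⟨K, hKn, hK, _, hmem⟩ | ⟨K, hKn, hK, z1, hz1, hz1f, hrel⟩
  · have hzK := hmem z' hz'
    obtain ⟨ε, hε⟩ := partnerData_of_normal hK hz' hv' (Or.inl (by
      have := K.mul_mem hzK (hKn.conj_mem _ (K.inv_mem hzK) v')
      have e : z' * v' * z'⁻¹ * v'⁻¹ = z' * (v' * z'⁻¹ * v'⁻¹) := by group
      rw [e]; exact this))
    exact ⟨ε, hε.of_subgroup⟩
  · have : z1 = z' := by
      rcases hz1 with h | h
      · exact absurd (h ▸ hz1f) hv'
      · exact h
    rw [this] at hrel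
    obtain ⟨ε, hε⟩ := partnerData_of_normal hK hz' hv' (Or.inr (hrel v' hv'))
    exact ⟨ε, hε.of_subgroup⟩

end Run7.h916
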