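import Pool.Agent.Run7.h916.LFTwoEnded

set_option autoImplicit false
set_option linter.unusedSectionVars false
set_option linter.unusedVariables false

/-!
Groups which are locally finite by virtually infinite cyclic, markings with an element of finite
order.
-/

namespace Run7.h916

open Subgroup

universe u v

/-- **The chromatic index for groups which are locally finite by virtually infinite cyclic.** -/
theorem chromaticIndex_lf_twoEndedS {Γ : Type u} [Group Γ] {X : Type v} [MulAction Γ X]
    [MeasurableSpace X] [StandardBorelSpace X] {S : Finset Γ} (hS : IsMarking S) (hH : HypH S X)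
    {L : Subgroup Γ} (hLn : L.Normal) (hL : IsLocallyFinite L)
    (hvc : VirtuallyInfiniteCyclic (Γ ⧸ L))
    (hex : (∃ z ∈ S, IsOfFinOrder z) ∨
      ∀ (K : Subgroup Γ) (_ : K.Normal), IsLocallyFinite K → ¬ IsCyclic (Γ ⧸ K)) :
    borelChromaticIndex (schreierGraph S X) = S.card := by
  rcases lf_two_ended hL hvc (S := (S : Set Γ)) hS.closure_eq with
    ⟨K, hKn, hK, hKc, hmem⟩ | ⟨K, hKn, hK, z, hz, hzf, hrel⟩
  · rcases hex with ⟨z, hz, hzf⟩ | hcyc
    · have hzK := hmem z hzf
      exact chromaticIndex_pivot hS hH hK hz hzf fun v _ hv => Or.inl (by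
        have := K.mul_mem hzK (hKn.conj_mem _ (K.inv_mem hzK) v)
        have e : z * v * z⁻¹ * v⁻¹ = z * (v * z⁻¹ * v⁻¹) := by group
        rw [e]; exact this)
    · exact absurd hKc (hcyc K hKn hK)
  · exact chromaticIndex_pivot hS hH hK (by exact_mod_cast hz) hzf
      fun v _ hv => Or.inr (hrel v hv)

end Run7.h916
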