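import Pool.Agent.Run7.h916.Table

set_option autoImplicit false
set_option linter.unusedSectionVars false

/-!
Changing the phase of a direction on one of two sheets only.
-/

namespace Run7.h916

open Set Relation
open scoped Pointwise

universe u v

/-- The states: a flag, two coordinates and the sheet. -/
abbrev LState : Type := Bool × ZMod 4 × ZMod 2 × ZMod 2

/-- Next state along an edge with the given colour. -/
def lnx (c : Fin 3) (q : LState) : LState :=
  if c = 2 then (q.1, q.2.1, q.2.2.1, q.2.2.2 + 1)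
  else if q.2.2.2 = 0 then
    (q.1, if (c = 0 ↔ (q.2.1 = 0 ∨ q.2.1 = 2)) then q.2.1 + 1 else q.2.1 - 1, q.2.2.1, q.2.2.2)
  else (q.1, q.2.1, q.2.2.1 + 1, q.2.2.2)

/-- Horizontal displacement along an edge with the given colour. -/
def ldx (c : Fin 3) (q : LState) : ℤ :=
  if c = 2 then 0
  else if q.2.2.2 = 0 then if (c = 0 ↔ (q.2.1 = 0 ∨ q.2.1 = 2)) then 1 else -1
  else 0

/-- Vertical displacement along an edge with the given colour. -/
def ldy (c : Fin 3) (q : LState) : ℤ :=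
  if c = 2 then 0
  else if q.2.2.2 = 0 then 0
  else if (c = 0 ↔ q.2.2.1 = 0) then 1 else -1

/-- A table from the colours of the edges. -/
def mkTab (h s v0 v1 : ZMod 4 → Fin 3) (q : LState) (c : Fin 3) : Fin 3 :=
  if q.1 = false then c
  else if c = 2 then s q.2.1
  else if q.2.2.2 = 0 then
    if c = 0 then (if q.2.1 = 0 ∨ q.2.1 = 1 then h 0 else h 2)
    else (if q.2.1 = 1 ∨ q.2.1 = 2 then h 1 else h 3)
  else if c = 0 then v0 q.2.1 else v1 q.2.1

/-- A function on `ZMod 4` from its values. -/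
def arr4 {α : Type} (a b c d : α) (x : ZMod 4) : α :=
  if x = 0 then a else if x = 1 then b else if x = 2 then c else d

/-- The tables. -/
def ltab (k : ℕ) : LState → Fin 3 → Fin 3 :=
  if k = 0 then mkTab (arr4 0 1 0 1) (arr4 2 2 2 2) (arr4 0 0 0 0) (arr4 1 1 1 1)
  else if k = 1 then mkTab (arr4 0 1 0 2) (arr4 1 2 2 1) (arr4 0 0 0 0) (arr4 2 1 1 2)
  else if k = 2 then mkTab (arr4 2 1 2 0) (arr4 1 0 0 1) (arr4 0 2 2 0) (arr4 2 1 1 2)
  else if k = 3 then mkTab (arr4 1 2 1 0) (arr4 2 0 0 2) (arr4 0 2 2 0) (arr4 1 1 1 1)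
  else mkTab (arr4 1 0 1 0) (arr4 2 2 2 2) (arr4 0 0 0 0) (arr4 1 1 1 1)

/-- Horizontal offsets of the blocks. -/
def loffx (k : ℕ) : ZMod 4 → ℤ :=
  if k = 0 then arr4 1 0 0 0
  else if k = 1 then arr4 2 3 0 1
  else if k = 2 then arr4 0 1 2 3
  else arr4 0 0 1 0

/-- Vertical offsets of the blocks. -/
def loffy (k : ℕ) (y : ZMod 2) : ℤ :=
  if k = 0 ∨ k = 2 then (if y = 0 then 1 else 0) else (if y = 0 then 0 else 1)

theorem ltab_id : ∀ q i, ltab 0 q i = i := by decide

theorem ltab_inj : ∀ k < 5, ∀ q, Function.Injective (ltab k q) := by decide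

theorem ltab_cons : ∀ k < 5, ∀ i q, ltab k (lnx i q) i = ltab k q i := by decide

theorem ltab_off : ∀ k < 4, ∀ i q, ltab k q i ≠ ltab (k + 1) q i →
    loffx k (lnx i q).2.1 = loffx k q.2.1 + ldx i q ∧
    loffy k (lnx i q).2.2.1 = loffy k q.2.2.1 + ldy i q := by decide

theorem loffx_bound : ∀ k < 4, ∀ x, 0 ≤ loffx k x ∧ loffx k x ≤ 3 := by decide

theorem loffy_bound : ∀ k < 4, ∀ y, 0 ≤ loffy k y ∧ loffy k y ≤ 1 := by decide

theorem ltab_last : ∀ q i, ltab 4 q i = if q.1 = true ∧ q.2.2.2 = 0 then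
    (if i = 0 then 1 else if i = 1 then 0 else 2) else i := by decide

section

variable {Γ : Type u} [Group Γ]

/-- The bound for the changes on one sheet. -/
def leafSet {G : Type u} [Group G] (V Z : G) : Set G :=
  {g | ∃ (e i j : Fin 4), g = Z ^ (e : ℕ) * (V ^ (i : ℕ) * (Z⁻¹ * V * Z) ^ (j : ℕ))}

theorem leafSet_finite {G : Type u} [Group G] (V Z : G) : (leafSet V Z).Finite := by
  have : leafSet V Z = Set.range (fun p : Fin 4 × Fin 4 × Fin 4 =>
      Z ^ (p.1 : ℕ) * (V ^ (p.2.1 : ℕ) * (Z⁻¹ * V * Z) ^ (p.2.2 : ℕ))) := by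
    ext g
    constructor
    · rintro ⟨e, i, j, rfl⟩
      exact ⟨(e, i, j), rfl⟩
    · rintro ⟨⟨e, i, j⟩, rfl⟩
      exact ⟨e, i, j, rfl⟩
  rw [this]
  exact Set.finite_range _

open Classical in
/-- **Change of the phase of a direction on one sheet.** -/
theorem flip_sheet {L : Subgroup Γ} [hLn : L.Normal] {B : Set Γ} (hB : ∀ s ∈ B, s⁻¹ ∈ B)
    {f : Γ → Γ → ZMod 2} (hf : IsPhase B f) {v z : Γ} (hv : v ∈ B) (hz : z ∈ B)
    (hvv : v ≠ v⁻¹) (hvz : v ≠ z) (hvz' : v⁻¹ ≠ z) {V Z : Γ ⧸ L} (hV : V = QuotientGroup.mk v)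
    (hZ : Z = QuotientGroup.mk z) {fv fz : Γ ⧸ L → ZMod 2}
    (hfv : f v = fun γ => fv (QuotientGroup.mk γ)) (hfz : f z = fun γ => fz (QuotientGroup.mk γ))
    (h1 : ∀ g, fv (V * g) = fv g + 1) (h2 : ∀ g, fz (Z * g) = fz g + 1)
    (h3 : ∀ g, fz (V * g) = fz g) (h4 : ∀ g, fz g = 1 → fv (Z * V * Z⁻¹ * g) = fv g)
    (hc : V * (Z⁻¹ * V * Z) = (Z⁻¹ * V * Z) * V) {X : Γ ⧸ L → ZMod 4}
    (hX1 : ∀ g, X (V * g) = X g + 1) (hX2 : ∀ g, X (Z⁻¹ * V * Z * g) = X g)
    (hX3 : ∀ g, fz g = 0 → (fv g = 0 ↔ (X g = 0 ∨ X g = 2))) {H : Set (Γ ⧸ L)}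
    (hH1 : ∀ g, V * g ∈ H ↔ g ∈ H) (hH2 : ∀ g, fz g = 0 → (Z * g ∈ H ↔ g ∈ H))
    {φ : Γ → ZMod 2}
    (hφ : ∀ γ, φ γ ≠ f v γ ↔
      ((QuotientGroup.mk γ : Γ ⧸ L) ∈ H ∧ fz (QuotientGroup.mk γ) = 0)) :
    Reach B (pre L (leafSet V Z * (leafSet V Z)⁻¹)) 4 (kap f) (kap (setPhase f v φ)) := by
  have one_add : (1 : ZMod 2) + 1 = 0 := by decide
  have hne : (1 : ZMod 2) ≠ 0 := by decide
  -- inverse versions
  have h1' : ∀ g, fv (V⁻¹ * g) = fv g + 1 := by
    intro g
    have := h1 (V⁻¹ * g)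
    rw [mul_inv_cancel_left] at this
    rw [this, add_assoc, one_add, add_zero]
  have h2' : ∀ g, fz (Z⁻¹ * g) = fz g + 1 := by
    intro g
    have := h2 (Z⁻¹ * g)
    rw [mul_inv_cancel_left] at this
    rw [this, add_assoc, one_add, add_zero]
  have h3' : ∀ g, fz (V⁻¹ * g) = fz g := by
    intro g
    have := h3 (V⁻¹ * g)
    rw [mul_inv_cancel_left] at this
    exact this.symm
  have hX1' : ∀ g, X (V⁻¹ * g) = X g - 1 := by
    intro g
    have := hX1 (V⁻¹ * g)
    rw [mul_inv_cancel_left] at this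
    rw [this]; ring
  set U : Γ ⧸ L := Z⁻¹ * V * Z with hU
  have hX2' : ∀ g, X (U⁻¹ * g) = X g := by
    intro g
    have := hX2 (U⁻¹ * g)
    rw [mul_inv_cancel_left] at this
    exact this.symm
  have hH1' : ∀ g, V⁻¹ * g ∈ H ↔ g ∈ H := by
    intro g
    have := hH1 (V⁻¹ * g)
    rw [mul_inv_cancel_left] at this
    exact this.symm
  have hH2' : ∀ g, fz g = 1 → (Z⁻¹ * g ∈ H ↔ g ∈ H) := by
    intro g hg
    have := hH2 (Z⁻¹ * g) (by rw [h2', hg, one_add])
    rw [mul_inv_cancel_left] at this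
    exact this.symm
  -- the vertical phase
  let Y : Γ ⧸ L → ZMod 2 := fun g => fv (Z * g)
  have hY1 : ∀ g, fz g = 0 → Y (V * g) = Y g := by
    intro g hg
    have : Z * (V * g) = Z * V * Z⁻¹ * (Z * g) := by group
    show fv (Z * (V * g)) = fv (Z * g)
    rw [this, h4]
    rw [h2, hg, zero_add]
  have hY1' : ∀ g, fz g = 0 → Y (V⁻¹ * g) = Y g := by
    intro g hg
    have := hY1 (V⁻¹ * g) (by rw [h3', hg])
    rw [mul_inv_cancel_left] at this
    exact this.symm
  have hY2 : ∀ g, Y (U * g) = Y g + 1 := by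
    intro g
    have : Z * (U * g) = V * (Z * g) := by rw [hU]; group
    show fv (Z * (U * g)) = fv (Z * g) + 1
    rw [this, h1]
  have hY2' : ∀ g, Y (U⁻¹ * g) = Y g + 1 := by
    intro g
    have := hY2 (U⁻¹ * g)
    rw [mul_inv_cancel_left] at this
    rw [this, add_assoc, one_add, add_zero]
  -- base points
  let b : Γ ⧸ L → Γ ⧸ L := fun g => if fz g = 0 then g else Z⁻¹ * g
  have hb0 : ∀ g, fz g = 0 → b g = g := fun g h => if_pos h
  have hb1 : ∀ g, fz g = 1 → b g = Z⁻¹ * g := fun g h => if_neg (by rw [h]; exact hne)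
  have hfb : ∀ g, fz (b g) = 0 := by
    intro g
    rcases zmod2_cases (fz g) with h | h
    · rw [hb0 g h, h]
    · rw [hb1 g h, h2', h, one_add]
  have hYb : ∀ g, fz g = 1 → Y (b g) = fv g := by
    intro g h
    show fv (Z * b g) = fv g
    rw [hb1 g h, mul_inv_cancel_left]
  let st : Γ → LState := fun γ =>
    (decide ((QuotientGroup.mk γ : Γ ⧸ L) ∈ H), X (b (QuotientGroup.mk γ)),
      Y (b (QuotientGroup.mk γ)), fz (QuotientGroup.mk γ))
  let col : Fin 3 → Γ := ![v, v⁻¹, z]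
  have hcol : Function.Injective col := by
    intro i j hij
    fin_cases i <;> fin_cases j <;> simp [col] at hij ⊢
    · exact hvv hij
    · exact hvz hij
    · exact hvv hij.symm
    · exact hvz' hij
    · exact hvz hij.symm
    · exact hvz' hij.symm
  have hcB : ∀ i, col i ∈ B := by
    intro i
    fin_cases i
    · exact hv
    · exact hB v hv
    · exact hz
  -- the displacement
  have hmk : ∀ a b : Γ, (QuotientGroup.mk (a * b) : Γ ⧸ L) =
      QuotientGroup.mk a * QuotientGroup.mk b := fun _ _ => rfl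
  have hmki : ∀ a : Γ, (QuotientGroup.mk a⁻¹ : Γ ⧸ L) = (QuotientGroup.mk a)⁻¹ := fun _ => rfl
  have hUV : ∀ g, V⁻¹ * (U⁻¹ * g) = U⁻¹ * (V⁻¹ * g) := by
    intro g
    rw [← mul_assoc, ← mul_assoc, ← mul_inv_rev, ← mul_inv_rev, hc]
  -- displacement of base points and states
  have hmove : ∀ γ, ∀ s ∈ B, ∀ i, kap f γ s = col i →
      st (s * γ) = lnx i (st γ) ∧ b (QuotientGroup.mk (s * γ)) =
        V ^ (ldx i (st γ)) * (U ^ (ldy i (st γ)) * b (QuotientGroup.mk γ)) := by
    intro γ s hs i hi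
    have hsγ := kap_eq hf hs hi
    set g : Γ ⧸ L := QuotientGroup.mk γ with hg
    -- moves along V and V⁻¹
    have mvV : s * γ = v * γ → fz g = 0 → st (s * γ) =
        (decide (g ∈ H), X (b g) + 1, Y (b g), fz g) ∧ b (QuotientGroup.mk (s * γ)) = V * b g := by
      intro h hz0
      have e : (QuotientGroup.mk (s * γ) : Γ ⧸ L) = V * g := by rw [h, hmk, hV]
      have e2 : b (V * g) = V * g := hb0 _ (by rw [h3, hz0])
      refine ⟨?_, ?_⟩
      · simp only [st, e, e2, hb0 g hz0, hX1, hY1 g hz0, h3, hH1]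
      · rw [e, e2, hb0 g hz0]
    have mvV' : s * γ = v⁻¹ * γ → fz g = 0 → st (s * γ) =
        (decide (g ∈ H), X (b g) - 1, Y (b g), fz g) ∧
          b (QuotientGroup.mk (s * γ)) = V⁻¹ * b g := by
      intro h hz0
      have e : (QuotientGroup.mk (s * γ) : Γ ⧸ L) = V⁻¹ * g := by rw [h, hmk, hmki, hV]
      have e2 : b (V⁻¹ * g) = V⁻¹ * g := hb0 _ (by rw [h3', hz0])
      refine ⟨?_, ?_⟩
      · simp only [st, e, e2, hb0 g hz0, hX1', hY1' g hz0, h3', hH1']
      · rw [e, e2, hb0 g hz0]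
    have mvU : s * γ = v * γ → fz g = 1 → st (s * γ) =
        (decide (g ∈ H), X (b g), Y (b g) + 1, fz g) ∧ b (QuotientGroup.mk (s * γ)) = U * b g := by
      intro h hz0
      have e : (QuotientGroup.mk (s * γ) : Γ ⧸ L) = V * g := by rw [h, hmk, hV]
      have e2 : b (V * g) = U * (Z⁻¹ * g) := by
        rw [hb1 _ (by rw [h3, hz0]), hU]; group
      refine ⟨?_, ?_⟩
      · simp only [st, e, e2, hb1 g hz0, hX2, hY2, h3, hH1]
      · rw [e, e2, hb1 g hz0]
    have mvU' : s * γ = v⁻¹ * γ → fz g = 1 → st (s * γ) =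
        (decide (g ∈ H), X (b g), Y (b g) + 1, fz g) ∧
          b (QuotientGroup.mk (s * γ)) = U⁻¹ * b g := by
      intro h hz0
      have e : (QuotientGroup.mk (s * γ) : Γ ⧸ L) = V⁻¹ * g := by rw [h, hmk, hmki, hV]
      have e2 : b (V⁻¹ * g) = U⁻¹ * (Z⁻¹ * g) := by
        rw [hb1 _ (by rw [h3', hz0]), hU]; group
      refine ⟨?_, ?_⟩
      · simp only [st, e, e2, hb1 g hz0, hX2', hY2', h3', hH1']
      · rw [e, e2, hb1 g hz0]
    have hfvγ : f v γ = fv g := by rw [hfv]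
    have hfzγ : f z γ = fz g := by rw [hfz]
    have hfvi : f v⁻¹ γ = fv g := by rw [hf.inv v hv, hfv]
    -- parity on the two sheets
    have hpar0 : fz g = 0 → (fv g = 0 ↔ (X (b g) = 0 ∨ X (b g) = 2)) := by
      intro h
      rw [hb0 g h]
      exact hX3 g h
    have hpar1 : fz g = 1 → (fv g = 0 ↔ Y (b g) = 0) := by
      intro h
      rw [hYb g h]
    fin_cases i
    · -- colour v
      simp only [col, Matrix.cons_val_zero, Fin.zero_eta] at hsγ ⊢
      unfold nb at hsγ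
      rw [hfvγ] at hsγ
      rcases zmod2_cases (fz g) with hz0 | hz0
      · rcases zmod2_cases (fv g) with hv0 | hv0
        · rw [if_pos hv0] at hsγ
          obtain ⟨m1, m2⟩ := mvV hsγ hz0
          have hp := (hpar0 hz0).mp hv0
          refine ⟨?_, ?_⟩
          · rw [m1]; simp [lnx, st, ← hg, hz0, hp]
          · rw [m2]; simp [ldx, ldy, st, ← hg, hz0, hp]
        · rw [if_neg (by rw [hv0]; exact hne)] at hsγ
          obtain ⟨m1, m2⟩ := mvV' hsγ hz0
          have hp : ¬ (X (b g) = 0 ∨ X (b g) = 2) := fun h => by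
            rw [(hpar0 hz0).mpr h] at hv0; exact hne hv0.symm
          refine ⟨?_, ?_⟩
          · rw [m1]; simp [lnx, st, ← hg, hz0, hp]
          · rw [m2]; simp [ldx, ldy, st, ← hg, hz0, hp]
      · rcases zmod2_cases (fv g) with hv0 | hv0
        · rw [if_pos hv0] at hsγ
          obtain ⟨m1, m2⟩ := mvU hsγ hz0
          have hp := (hpar1 hz0).mp hv0
          refine ⟨?_, ?_⟩
          · rw [m1]; simp [lnx, st, ← hg, hz0]
          · rw [m2]; simp [ldx, ldy, st, ← hg, hz0, hp]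
        · rw [if_neg (by rw [hv0]; exact hne)] at hsγ
          obtain ⟨m1, m2⟩ := mvU' hsγ hz0
          have hp : ¬ (Y (b g) = 0) := fun h => by
            rw [(hpar1 hz0).mpr h] at hv0; exact hne hv0.symm
          refine ⟨?_, ?_⟩
          · rw [m1]; simp [lnx, st, ← hg, hz0]
          · rw [m2]; simp [ldx, ldy, st, ← hg, hz0, hp]
    · -- colour v⁻¹
      simp only [col, Matrix.cons_val_one, Fin.mk_one, Matrix.cons_val_zero] at hsγ ⊢
      unfold nb at hsγ
      rw [hfvi, inv_inv] at hsγ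
      rcases zmod2_cases (fz g) with hz0 | hz0
      · rcases zmod2_cases (fv g) with hv0 | hv0
        · rw [if_pos hv0] at hsγ
          obtain ⟨m1, m2⟩ := mvV' hsγ hz0
          have hp := (hpar0 hz0).mp hv0
          refine ⟨?_, ?_⟩
          · rw [m1]; simp [lnx, st, ← hg, hz0, hp]
          · rw [m2]; simp [ldx, ldy, st, ← hg, hz0, hp]
        · rw [if_neg (by rw [hv0]; exact hne)] at hsγ
          obtain ⟨m1, m2⟩ := mvV hsγ hz0
          have hp : ¬ (X (b g) = 0 ∨ X (b g) = 2) := fun h => by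
            rw [(hpar0 hz0).mpr h] at hv0; exact hne hv0.symm
          refine ⟨?_, ?_⟩
          · rw [m1]; simp [lnx, st, ← hg, hz0, hp]
          · rw [m2]; simp [ldx, ldy, st, ← hg, hz0, hp]
      · rcases zmod2_cases (fv g) with hv0 | hv0
        · rw [if_pos hv0] at hsγ
          obtain ⟨m1, m2⟩ := mvU' hsγ hz0
          have hp := (hpar1 hz0).mp hv0
          refine ⟨?_, ?_⟩
          · rw [m1]; simp [lnx, st, ← hg, hz0]
          · rw [m2]; simp [ldx, ldy, st, ← hg, hz0, hp]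
        · rw [if_neg (by rw [hv0]; exact hne)] at hsγ
          obtain ⟨m1, m2⟩ := mvU hsγ hz0
          have hp : ¬ (Y (b g) = 0) := fun h => by
            rw [(hpar1 hz0).mpr h] at hv0; exact hne hv0.symm
          refine ⟨?_, ?_⟩
          · rw [m1]; simp [lnx, st, ← hg, hz0]
          · rw [m2]; simp [ldx, ldy, st, ← hg, hz0, hp]
    · -- colour z
      simp only [col, Fin.reduceFinMk, Matrix.cons_val] at hsγ ⊢
      unfold nb at hsγ
      rw [hfzγ] at hsγ
      rcases zmod2_cases (fz g) with hz0 | hz0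
      · rw [if_pos hz0] at hsγ
        have e : (QuotientGroup.mk (s * γ) : Γ ⧸ L) = Z * g := by rw [hsγ, hmk, hZ]
        have e2 : b (Z * g) = b g := by
          rw [hb1 _ (by rw [h2, hz0, zero_add]), hb0 g hz0, inv_mul_cancel_left]
        refine ⟨?_, ?_⟩
        · simp [lnx, st, e, e2, ← hg, h2, hH2 g hz0]
        · rw [e, e2]; simp [ldx, ldy]
      · rw [if_neg (by rw [hz0]; exact hne)] at hsγ
        have e : (QuotientGroup.mk (s * γ) : Γ ⧸ L) = Z⁻¹ * g := by rw [hsγ, hmk, hmki, hZ]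
        have e2 : b (Z⁻¹ * g) = b g := by
          rw [hb0 _ (by rw [h2', hz0, one_add]), hb1 g hz0]
        refine ⟨?_, ?_⟩
        · simp [lnx, st, e, e2, ← hg, h2', hH2' g hz0]
        · rw [e, e2]; simp [ldx, ldy]
  have htr : Tracks B col st (kap f) lnx := fun γ s hs i hi => (hmove γ s hs i hi).1
  -- the origins
  have hVUz : ∀ i j : ℤ, V ^ i * U ^ j = U ^ j * V ^ i := by
    intro i j
    exact ((show Commute V U from hc).zpow_zpow i j).eq
  let og : ℕ → Γ → Γ ⧸ L := fun k γ =>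
    U ^ (-(loffy k (st γ).2.2.1)) * (V ^ (-(loffx k (st γ).2.1)) * b (QuotientGroup.mk γ))
  have hog : ∀ k < 4, ∀ γ, ∀ s ∈ B, ∀ i, kap f γ s = col i →
      ltab k (st γ) i ≠ ltab (k + 1) (st γ) i → og k (s * γ) = og k γ := by
    intro k hk γ s hs i hi hne'
    obtain ⟨m1, m2⟩ := hmove γ s hs i hi
    obtain ⟨o1, o2⟩ := ltab_off k hk i (st γ) hne'
    simp only [og]
    rw [m2, m1, o1, o2]
    set x := loffx k (st γ).2.1
    set y := loffy k (st γ).2.2.1
    set p := ldx i (st γ)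
    set q := ldy i (st γ)
    have e : U ^ (-(y + q)) * (V ^ (-(x + p)) * (V ^ p * (U ^ q * b (QuotientGroup.mk γ)))) =
        U ^ (-(y + q)) * (V ^ (-(x + p)) * V ^ p * U ^ q) * b (QuotientGroup.mk γ) := by
      simp only [mul_assoc]
    rw [e, ← zpow_add, hVUz, ← mul_assoc (U ^ (-(y + q))), ← zpow_add]
    have e1 : -(y + q) + q = -y := by ring
    have e2 : -(x + p) + p = -x := by ring
    rw [e1, e2, mul_assoc]
  have hogF : ∀ k < 4, ∀ γ : Γ, (QuotientGroup.mk γ : Γ ⧸ L) * (og k γ)⁻¹ ∈ leafSet V Z := by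
    intro k hk γ
    set g : Γ ⧸ L := QuotientGroup.mk γ with hg
    have hx := loffx_bound k hk (st γ).2.1
    have hy := loffy_bound k hk (st γ).2.2.1
    set x := loffx k (st γ).2.1 with hxdef
    set y := loffy k (st γ).2.2.1 with hydef
    have e0 : g * (og k γ)⁻¹ = g * (b g)⁻¹ * (V ^ x * U ^ y) := by
      simp only [og, ← hxdef, ← hydef, ← hg]
      rw [mul_inv_rev, mul_inv_rev, ← zpow_neg, ← zpow_neg, neg_neg, neg_neg]
      simp only [mul_assoc]
    have hbZ : ∃ e : Fin 4, g * (b g)⁻¹ = Z ^ (e : ℕ) := by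
      rcases zmod2_cases (fz g) with h | h
      · exact ⟨0, by rw [hb0 g h]; simp⟩
      · exact ⟨1, by rw [hb1 g h]; simp⟩
    obtain ⟨e, he⟩ := hbZ
    refine ⟨e, ⟨x.toNat, by omega⟩, ⟨y.toNat, by omega⟩, ?_⟩
    rw [e0, he]
    congr 1
    rw [← zpow_natCast, ← zpow_natCast]
    simp only
    rw [Int.toNat_of_nonneg hx.1, Int.toNat_of_nonneg hy.1]
  -- the colourings
  have hloc : ∀ k < 5, LocCol B (tcol col st (kap f) (ltab k)) := fun k hk =>
    (hf.locCol hB).tcol hB hcol hcB htr (ltab_inj k hk) (ltab_cons k hk)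
  have h1F : (1 : Γ) ∈ pre L (leafSet V Z * (leafSet V Z)⁻¹) := by
    refine ⟨1, ⟨0, 0, 0, by simp⟩, 1, ?_, by simp⟩
    rw [Set.mem_inv]
    exact ⟨0, 0, 0, by simp⟩
  have hstep : ∀ k < 4, Step B (pre L (leafSet V Z * (leafSet V Z)⁻¹))
      (tcol col st (kap f) (ltab k)) (tcol col st (kap f) (ltab (k + 1))) := by
    intro k hk
    refine step_tcol (F := pre L (leafSet V Z)) hcol (fun γ => Quotient.out (og k γ)) ?_ ?_ ?_
    · intro γ s hs i hi hne'
      rw [hog k hk γ s hs i hi hne']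
    · intro γ
      have e : (QuotientGroup.mk (Quotient.out (og k γ)) : Γ ⧸ L) = og k γ := Quotient.out_eq _
      rw [mem_pre, hmk, hmki, e]
      exact hogF k hk γ
    · intro a ha c hc
      rw [mem_pre, hmk, hmki]
      exact Set.mul_mem_mul ha (by rw [Set.mem_inv, inv_inv]; exact hc)
  have hr : ∀ k < 4, Reach B (pre L (leafSet V Z * (leafSet V Z)⁻¹)) 1
      (tcol col st (kap f) (ltab k)) (tcol col st (kap f) (ltab (k + 1))) := fun k hk =>
    Reach.single h1F (hloc k (by omega)) (hloc (k + 1) (by omega)) (hstep k hk)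
  have htot := ((((hr 0 (by norm_num)).trans (hr 1 (by norm_num))).trans
    (hr 2 (by norm_num))).trans (hr 3 (by norm_num)))
  have e0 : tcol col st (kap f) (ltab 0) = kap f := tcol_id hcol ltab_id
  rw [e0] at htot
  refine htot.congr_right hB ?_
  refine EqB.trans ?_ (permOn_kap hf hv {γ | φ γ ≠ f v γ} φ (fun γ => Iff.rfl))
  intro γ s hs
  by_cases hγ : φ γ ≠ f v γ
  · rw [permOn_mem (show γ ∈ {γ | φ γ ≠ f v γ} from hγ)]
    have hst := (hφ γ).mp hγ
    unfold tcol
    have htab : ltab (3 + 1) (st γ) = fun i => if i = 0 then 1 else if i = 1 then 0 else 2 := by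
      funext i
      rw [ltab_last]
      rw [if_pos]
      exact ⟨by simp [st, hst.1], by simp [st, hst.2]⟩
    rw [htab]
    by_cases hx : ∃ i, col i = kap f γ s
    · obtain ⟨i, hi⟩ := hx
      rw [← hi, recol_col hcol]
      fin_cases i
      · simp [col]
      · simp [col]
      · simp only [col]
        rw [Equiv.swap_apply_of_ne_of_ne]
        · rfl
        · exact fun h => hvz h.symm
        · exact fun h => hvz' h.symm
    · push Not at hx
      rw [recol_other hx, Equiv.swap_apply_of_ne_of_ne]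
      · exact fun h => hx 0 h.symm
      · exact fun h => hx 1 h.symm
  · rw [permOn_notMem (show γ ∉ {γ | φ γ ≠ f v γ} from hγ)]
    have hst : ¬ ((st γ).1 = true ∧ (st γ).2.2.2 = 0) := by
      intro h
      apply hγ
      rw [hφ]
      refine ⟨?_, h.2⟩
      simpa [st] using h.1
    unfold tcol
    have htab : ltab (3 + 1) (st γ) = fun i => i := by
      funext i
      rw [ltab_last, if_neg hst]
    rw [htab]
    by_cases hx : ∃ i, col i = kap f γ s
    · obtain ⟨i, hi⟩ := hx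
      rw [← hi, recol_col hcol]
    · push Not at hx
      rw [recol_other hx]

end

end Run7.h916
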