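import Pool.Agent.Run7.h916.PivotThm

set_option autoImplicit false
set_option linter.unusedSectionVars false

/-!
Local changes which are controlled modulo a locally finite normal subgroup.
-/

namespace Run7.h916

open Set Relation
open scoped Pointwise

universe u v

variable {Γ : Type u} [Group Γ]

/-- The preimage in the group of a set of elements of the quotient. -/
def pre (L : Subgroup Γ) (A : Set (Γ ⧸ L)) : Set Γ := {γ | (QuotientGroup.mk γ : Γ ⧸ L) ∈ A}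

theorem mem_pre {L : Subgroup Γ} {A : Set (Γ ⧸ L)} {γ : Γ} :
    γ ∈ pre L A ↔ (QuotientGroup.mk γ : Γ ⧸ L) ∈ A := Iff.rfl

/-- Local changes bounded modulo a locally finite normal subgroup are bounded. -/
theorem step_bound {L : Subgroup Γ} [hLn : L.Normal] (hL : IsLocallyFinite L) {B : Set Γ}
    (hB : B.Finite) {A : Set (Γ ⧸ L)} (hA : A.Finite) :
    ∃ E : Set Γ, E.Finite ∧ ∀ κ κ' : Γ → Γ → Γ, Step B (pre L A) κ κ' → Step B E κ κ' := by
  classical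
  let t : Γ ⧸ L → Γ := Quotient.out
  have ht : ∀ q : Γ ⧸ L, (QuotientGroup.mk (t q) : Γ ⧸ L) = q := fun q => Quotient.out_eq q
  let T : Set Γ := t '' A
  have hT : T.Finite := hA.image t
  let F0 : Set Γ := ((T⁻¹ * B * T) ∪ T⁻¹) ∩ L
  have hF0 : F0.Finite := by
    refine Set.Finite.inter_of_left ?_ _
    exact ((hT.inv.mul hB).mul hT).union hT.inv
  let K : Subgroup Γ := Subgroup.closure F0
  have hKL : K ≤ L := (Subgroup.closure_le _).mpr Set.inter_subset_right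
  have hKfg : K.FG := ⟨hF0.toFinset, by rw [hF0.coe_toFinset]⟩
  have hKfin : Finite K := hL K hKL hKfg
  refine ⟨T * (K : Set Γ), hT.mul (Set.toFinite _), fun κ κ' h => ?_⟩
  intro γ γ' hr
  -- the invariant
  have hinv : ∃ k ∈ K, γ' = t (QuotientGroup.mk (γ' * γ⁻¹)) * k * γ := by
    induction hr with
    | refl =>
      refine ⟨(t (QuotientGroup.mk (γ * γ⁻¹)))⁻¹, ?_, by group⟩
      apply Subgroup.subset_closure
      have h1 : (QuotientGroup.mk (γ * γ⁻¹) : Γ ⧸ L) ∈ A := h γ γ ReflTransGen.refl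
      refine ⟨Or.inr ?_, ?_⟩
      · rw [Set.mem_inv, inv_inv]
        exact ⟨_, h1, rfl⟩
      · apply inv_mem
        rw [← QuotientGroup.eq_one_iff, ht, mul_inv_cancel]
        rfl
    | @tail b c hb hc ih =>
      obtain ⟨k, hk, hbk⟩ := ih
      obtain ⟨s, hs, rfl, _⟩ := hc
      have h1 : (QuotientGroup.mk (b * γ⁻¹) : Γ ⧸ L) ∈ A := h γ b hb
      have h2 : (QuotientGroup.mk (s * b * γ⁻¹) : Γ ⧸ L) ∈ A :=
        h γ (s * b) (hb.tail ⟨s, hs, rfl, by assumption⟩)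
      set t1 := t (QuotientGroup.mk (b * γ⁻¹)) with ht1
      set t2 := t (QuotientGroup.mk (s * b * γ⁻¹)) with ht2
      have hx : t2⁻¹ * s * t1 ∈ K := by
        apply Subgroup.subset_closure
        refine ⟨Or.inl ?_, ?_⟩
        · refine ⟨t2⁻¹ * s, ⟨t2⁻¹, ?_, s, hs, rfl⟩, t1, ⟨_, h1, rfl⟩, rfl⟩
          rw [Set.mem_inv, inv_inv]
          exact ⟨_, h2, rfl⟩
        · show t2⁻¹ * s * t1 ∈ L
          rw [← QuotientGroup.eq_one_iff, QuotientGroup.mk_mul, QuotientGroup.mk_mul,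
            QuotientGroup.mk_inv, ht1, ht2, ht, ht, ← QuotientGroup.mk_inv,
            ← QuotientGroup.mk_mul, ← QuotientGroup.mk_mul, QuotientGroup.eq_one_iff]
          have : (s * b * γ⁻¹)⁻¹ * s * (b * γ⁻¹) = 1 := by group
          rw [this]
          exact L.one_mem
      refine ⟨t2⁻¹ * s * t1 * k, K.mul_mem hx hk, ?_⟩
      conv_lhs => rw [hbk]
      group
  obtain ⟨k, hk, hγ'⟩ := hinv
  refine ⟨t (QuotientGroup.mk (γ' * γ⁻¹)), ⟨_, h γ γ' hr, rfl⟩, k, hk, ?_⟩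
  simp only
  rw [eq_mul_inv_iff_mul_eq]
  exact hγ'.symm

theorem reach_bound {L : Subgroup Γ} [hLn : L.Normal] (hL : IsLocallyFinite L) {B : Set Γ}
    (hB : B.Finite) {A : Set (Γ ⧸ L)} (hA : A.Finite) :
    ∃ E : Set Γ, E.Finite ∧ ∀ (n : ℕ) (κ κ' : Γ → Γ → Γ), Reach B (pre L A) n κ κ' →
      Reach B E n κ κ' := by
  obtain ⟨E, hE, h⟩ := step_bound hL hB hA
  refine ⟨E, hE, fun n κ κ' hr => ?_⟩
  obtain ⟨p, h0, h1, h2, h3⟩ := hr
  exact ⟨p, h0, h1, h2, fun i => h _ _ (h3 i)⟩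

/-- Alternating paths which are bounded modulo `L`. -/
theorem CrossOK.pull {L : Subgroup Γ} [hLn : L.Normal] {c d : Γ} {φ ψ : Γ ⧸ L → ZMod 2}
    {F Λ : Set (Γ ⧸ L)}
    (h : CrossOK (QuotientGroup.mk c : Γ ⧸ L) (QuotientGroup.mk d : Γ ⧸ L) φ ψ F Λ) :
    CrossOK c d (fun γ => φ (QuotientGroup.mk γ)) (fun γ => ψ (QuotientGroup.mk γ)) (pre L F)
      (pre L Λ) := by
  obtain ⟨o, ho⟩ := h
  have hnb : ∀ (c : Γ) (φ : Γ ⧸ L → ZMod 2) (γ : Γ),
      (QuotientGroup.mk (nb c (fun γ => φ (QuotientGroup.mk γ)) γ) : Γ ⧸ L) =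
        nb (QuotientGroup.mk c) φ (QuotientGroup.mk γ) := by
    intro c φ γ
    unfold nb
    split_ifs <;> rfl
  refine ⟨fun γ => Quotient.out (o (QuotientGroup.mk γ)), fun γ hγ => ⟨?_, ?_, ?_⟩⟩
  · simp only
    rw [hnb, (ho _ hγ).1]
  · simp only
    rw [hnb, (ho _ hγ).2.1]
  · show (QuotientGroup.mk (γ * (Quotient.out (o (QuotientGroup.mk γ)))⁻¹) : Γ ⧸ L) ∈ F
    have h1 : (QuotientGroup.mk (Quotient.out (o (QuotientGroup.mk γ))) : Γ ⧸ L) =
        o (QuotientGroup.mk γ) := Quotient.out_eq _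
    rw [QuotientGroup.mk_mul, QuotientGroup.mk_inv, h1]
    exact (ho _ hγ).2.2

theorem one_mem_pre {L : Subgroup Γ} {F : Set (Γ ⧸ L)}
    (h : (QuotientGroup.mk (1 : Γ) : Γ ⧸ L) ∈ F) : (1 : Γ) ∈ pre L F := h

end Run7.h916
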