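import Pool.Agent.Run7.h916.Glue

set_option autoImplicit false
set_option linter.unusedSectionVars false

/-!
The gluing theorem: flexible blocks have Borel colourings for actions which can be separated.
-/

namespace Run7.h916

open Set Relation
open scoped Pointwise

universe u v

variable {Γ : Type u} [Group Γ] {X : Type v} [MulAction Γ X]

/-- The space can be divided, for every `N`, in two Borel sets with finite pieces for steps in
`T ^ N`. -/
def SepAct (T : Set Γ) (X : Type v) [MeasurableSpace X] [MulAction Γ X] : Prop :=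
  ∀ N : ℕ, ∃ U : Set X, MeasurableSet U ∧ (∀ x ∈ U, {y | Conn (T ^ N) U x y}.Finite) ∧
    ∀ x ∈ Uᶜ, {y | Conn (T ^ N) Uᶜ x y}.Finite

/-- Every finite set is contained in a ball. -/
theorem exists_subset_pow {T : Set Γ} (h1 : (1 : Γ) ∈ T) (hT : ∀ m ∈ T, m⁻¹ ∈ T)
    (hgen : Subgroup.closure T = ⊤) {E : Set Γ} (hE : E.Finite) : ∃ D, E ⊆ T ^ D := by
  have hmem : ∀ g : Γ, ∃ D, g ∈ T ^ D := by
    intro g
    have hg : g ∈ Subgroup.closure T := by rw [hgen]; trivial
    induction hg using Subgroup.closure_induction with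
    | mem x hx => exact ⟨1, by simpa using hx⟩
    | one => exact ⟨0, by simp⟩
    | mul x y _ _ hx hy =>
      obtain ⟨a, ha⟩ := hx
      obtain ⟨b, hb⟩ := hy
      exact ⟨a + b, mul_mem_pow ha hb⟩
    | inv x _ hx =>
      obtain ⟨a, ha⟩ := hx
      exact ⟨a, inv_mem_pow hT ha⟩
  induction E, hE using Set.Finite.induction_on with
  | empty => exact ⟨0, Set.empty_subset _⟩
  | @insert a s _ _ ih =>
    obtain ⟨D, hD⟩ := ih
    obtain ⟨D', hD'⟩ := hmem a
    refine ⟨D + D', ?_⟩
    intro x hx
    rcases hx with rfl | hx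
    · exact mem_pow_mono h1 (by omega) hD'
    · exact mem_pow_mono h1 (by omega) (hD hx)

theorem measurableSet_far [MeasurableSpace X] [Countable Γ]
    (hmeas : ∀ γ : Γ, Measurable (fun x : X => γ • x)) (T : Set Γ) {U : Set X}
    (hU : MeasurableSet U) (r : ℕ) (g : Γ) : MeasurableSet {x : X | Far T U r (g • x)} := by
  have : {x : X | Far T U r (g • x)} = ⋂ m : (T ^ r : Set Γ),
      (fun x => ((m : Γ) * g) • x) ⁻¹' Uᶜ := by
    ext x
    simp [Far, mul_smul]
  rw [this]
  exact MeasurableSet.iInter fun m => (hmeas _) hU.compl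

theorem measurableSet_act [MeasurableSpace X] [Countable Γ]
    (hmeas : ∀ γ : Γ, Measurable (fun x : X => γ • x)) (B T : Set Γ) {U : Set X}
    (hU : MeasurableSet U) (D : ℕ) (p : Γ → ℕ → Γ → Γ → Γ) (g γ : Γ) (i : ℕ) :
    MeasurableSet {x : X | Act B T U D p g γ i x} := by
  have : {x : X | Act B T U D p g γ i x} = ⋂ γ' : Γ, ({x : X |
      ReflTransGen (DiffRel B (p g i) (p g (i + 1))) γ γ' →
      Far T U ((i + 1) * (D + 1)) ((γ' * γ⁻¹) • x)}) := by
    ext x
    simp [Act]
  rw [this]
  refine MeasurableSet.iInter fun γ' => ?_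
  by_cases h : ReflTransGen (DiffRel B (p g i) (p g (i + 1))) γ γ'
  · simp only [h, forall_const]
    exact measurableSet_far hmeas T hU _ _
  · simp [h]

theorem measurableSet_lev [MeasurableSpace X] [Countable Γ]
    (hmeas : ∀ γ : Γ, Measurable (fun x : X => γ • x)) (B T : Set Γ) {U : Set X}
    (hU : MeasurableSet U) (D n : ℕ) (p : Γ → ℕ → Γ → Γ → Γ) (g γ : Γ) (k : ℕ) :
    MeasurableSet {x : X | lev B T U D n p g γ x = k} := by
  classical
  have hle : ∀ k, MeasurableSet {x : X | k ≤ lev B T U D n p g γ x} := by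
    intro k
    by_cases hk : k ≤ n
    · have : {x : X | k ≤ lev B T U D n p g γ x} =
          ⋂ i : Fin k, {x : X | Act B T U D p g γ i x} := by
        ext x
        simp only [mem_ofPred_eq, mem_iInter]
        constructor
        · intro h i
          exact lev_spec B T U D n p g γ x i (lt_of_lt_of_le i.2 h)
        · intro h
          exact le_lev hk fun i hi => h ⟨i, hi⟩
      rw [this]
      exact MeasurableSet.iInter fun i => measurableSet_act hmeas B T hU D p g γ i
    · have : {x : X | k ≤ lev B T U D n p g γ x} = ∅ := by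
        ext x
        simp only [mem_ofPred_eq, mem_empty_iff_false, iff_false]
        have := lev_le B T U D n p g γ x
        omega
      rw [this]
      exact MeasurableSet.empty
  have : {x : X | lev B T U D n p g γ x = k} =
      {x : X | k ≤ lev B T U D n p g γ x} \ {x : X | k + 1 ≤ lev B T U D n p g γ x} := by
    ext x
    simp only [mem_ofPred_eq, mem_sdiff]
    omega
  rw [this]
  exact (hle k).diff (hle (k+1))

/-- **Gluing theorem.** -/
theorem borelBlock_of_flexible [MeasurableSpace X] [StandardBorelSpace X] [Countable Γ]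
    (hX : IsFreeBorel Γ X) {T : Set Γ} (h1 : (1 : Γ) ∈ T) (hT : ∀ m ∈ T, m⁻¹ ∈ T)
    (hgen : Subgroup.closure T = ⊤) (hsep : SepAct T X) {B : Set Γ} (hB : ∀ s ∈ B, s⁻¹ ∈ B)
    (hBT : B ⊆ T) (hflex : Flexible B) : BorelBlock B X := by
  classical
  obtain ⟨κ, n, E, hE, hreach⟩ := hflex
  have hmeas := hX.measurable_smul
  have hfree := hX.free
  obtain ⟨D, hD⟩ := exists_subset_pow h1 hT hgen hE
  have hreach' : ∀ g, Reach B (T ^ D) n κ (rtrans κ g) := fun g => (hreach g).mono hD le_rfl
  choose p hp0 hpn hloc hstep using hreach'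
  have hκ : LocCol B κ := (hreach 1).locCol hB
  -- the parameters
  set ρ : ℕ := (n + 1) * (D + 1) with hρ
  obtain ⟨U, hU, hfin0, hfin1⟩ := hsep (2 * ρ + 1)
  have hMinv : ∀ m ∈ T ^ (2 * ρ + 1), m⁻¹ ∈ T ^ (2 * ρ + 1) := fun m hm => inv_mem_pow hT hm
  obtain ⟨β0, hβ0m, hβ0⟩ := exists_base hmeas hfree (T ^ (2 * ρ + 1)) hMinv hU hfin0
  obtain ⟨β1, hβ1m, hβ1⟩ := exists_base hmeas hfree (T ^ (2 * ρ + 1)) hMinv hU.compl hfin1
  -- the map `δ0`
  have hwd : ∀ x : X, ∀ m ∈ T ^ ρ, m • x ∈ U → ∀ m' ∈ T ^ ρ, ∀ h ∈ T ^ 1, m' • h • x ∈ U →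
      β0 (m' • h • x) * m' * h = β0 (m • x) * m := by
    intro x m hm hmx m' hm' h hh hmx'
    have e : m' • h • x = (m' * h * m⁻¹) • (m • x) := by
      simp [mul_smul]
    have hmem : m' * h * m⁻¹ ∈ T ^ (2 * ρ + 1) := by
      have := mul_mem_pow (mul_mem_pow hm' hh) (inv_mem_pow hT hm)
      exact mem_pow_mono h1 (by omega) this
    have := hβ0 (m • x) hmx (m' * h * m⁻¹) hmem (by rw [← e]; exact hmx')
    rw [← e] at this
    rw [← this]
    group
  have hnear : ∀ x : X, ¬ Far T U ρ x → ∃ γ : Γ, ∀ m ∈ T ^ ρ, m • x ∈ U →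
      β0 (m • x) * m = γ := by
    intro x hx
    unfold Far at hx
    push Not at hx
    obtain ⟨m, hm, hmx⟩ := hx
    refine ⟨β0 (m • x) * m, fun m' hm' hmx' => ?_⟩
    have := hwd x m hm hmx m' hm' 1 (one_mem_pow h1 1) (by rwa [one_smul])
    rwa [one_smul, mul_one] at this
  let δ : X → Γ := fun x => if h : ∃ m ∈ T ^ ρ, m • x ∈ U then β0 (h.choose • x) * h.choose else 1
  have hδ : ∀ x : X, ∀ m ∈ T ^ ρ, m • x ∈ U → δ x = β0 (m • x) * m := by
    intro x m hm hmx
    have h : ∃ m ∈ T ^ ρ, m • x ∈ U := ⟨m, hm, hmx⟩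
    have e : δ x = β0 (h.choose • x) * h.choose := by
      simp only [δ]
      rw [dif_pos h]
    rw [e]
    have := hwd x m hm hmx h.choose h.choose_spec.1 1 (one_mem_pow h1 1)
      (by rw [one_smul]; exact h.choose_spec.2)
    rwa [one_smul, mul_one] at this
  have hδedge : ∀ x : X, ∀ h ∈ T, ¬ Far T U ρ x → ¬ Far T U ρ (h • x) → δ (h • x) * h = δ x := by
    intro x h hh hx hhx
    unfold Far at hx hhx
    push Not at hx hhx
    obtain ⟨m, hm, hmx⟩ := hx
    obtain ⟨m', hm', hmx'⟩ := hhx
    rw [hδ x m hm hmx, hδ (h • x) m' hm' hmx']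
    exact hwd x m hm hmx m' hm' h (by simpa using hh) hmx'
  have hfarm : MeasurableSet {x : X | Far T U ρ x} := by
    have := measurableSet_far hmeas T hU ρ (1 : Γ)
    simpa using this
  have hδm : ∀ γ, MeasurableSet {x | δ x = γ} := by
    intro γ
    have : {x | δ x = γ} = (⋃ m : (T ^ ρ : Set Γ), ((fun x => (m : Γ) • x) ⁻¹' U) ∩
        ((fun x => (m : Γ) • x) ⁻¹' {x | β0 x = γ * (m : Γ)⁻¹})) ∪
        ({x : X | Far T U ρ x} ∩ {x | (1 : Γ) = γ}) := by
      ext x
      simp only [mem_ofPred_eq, mem_union, mem_iUnion, mem_inter_iff, mem_preimage]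
      by_cases hx : Far T U ρ x
      · have e : δ x = 1 := by
          simp only [δ]
          rw [dif_neg]
          rintro ⟨m, hm, hmx⟩
          exact hx m hm hmx
        rw [e]
        constructor
        · intro h
          exact Or.inr ⟨hx, h⟩
        · rintro (⟨m, hm, _⟩ | h)
          · exact absurd hm (hx m m.2)
          · exact h.2
      · have hx' := hx
        unfold Far at hx'
        push Not at hx'
        obtain ⟨m, hm, hmx⟩ := hx'
        constructor
        · intro h
          left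
          refine ⟨⟨m, hm⟩, hmx, ?_⟩
          rw [← h, hδ x m hm hmx]
          simp
        · rintro (⟨m, hm, hm2⟩ | h)
          · rw [hδ x m m.2 hm, hm2]
            simp
          · exact absurd h.1 hx
    rw [this]
    refine MeasurableSet.union (MeasurableSet.iUnion fun m => ?_) (hfarm.inter
      (MeasurableSet.const _))
    exact ((hmeas _) hU).inter ((hmeas _) (hβ0m _))
  -- the colouring
  let G : X → Γ := fun x => δ x * (β1 x)⁻¹
  let L : X → ℕ := fun x => lev B T U D n p (G x) (δ x)⁻¹ x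
  let c : X → Γ → Γ := fun x s => if Far T U ρ x then κ (β1 x)⁻¹ s else p (G x) (L x) (δ x)⁻¹ s
  have hcfar : ∀ x s, Far T U ρ x → c x s = κ (β1 x)⁻¹ s := fun x s h => by
    simp only [c]; rw [if_pos h]
  have hcnear : ∀ x s, ¬ Far T U ρ x → c x s = p (G x) (L x) (δ x)⁻¹ s := fun x s h => by
    simp only [c]; rw [if_neg h]
  refine ⟨c, ?_, ?_, ?_, ?_⟩
  · -- measurability
    intro s a
    have : {x | c x s = a} = ({x | Far T U ρ x} ∩ ⋃ γ : Γ, {x | β1 x = γ} ∩ {x | κ γ⁻¹ s = a}) ∪
        ({x | Far T U ρ x}ᶜ ∩ ⋃ γ : Γ, ⋃ γ' : Γ, ⋃ k : ℕ, {x | β1 x = γ} ∩ {x | δ x = γ'} ∩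
          {x | lev B T U D n p (γ' * γ⁻¹) γ'⁻¹ x = k} ∩
          {x | p (γ' * γ⁻¹) k γ'⁻¹ s = a}) := by
      ext x
      simp only [mem_union, mem_inter_iff, mem_iUnion, mem_ofPred_eq, mem_compl_iff]
      by_cases hx : Far T U ρ x
      · rw [hcfar x s hx]
        constructor
        · intro h
          exact Or.inl ⟨hx, β1 x, rfl, h⟩
        · rintro (⟨_, γ, rfl, h⟩ | ⟨h, _⟩)
          · exact h
          · exact absurd hx h
      · rw [hcnear x s hx]
        constructor
        · intro h
          exact Or.inr ⟨hx, β1 x, δ x, L x, ⟨⟨rfl, rfl⟩, rfl⟩, h⟩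
        · rintro (⟨h, _⟩ | ⟨_, γ, γ', k, ⟨⟨rfl, rfl⟩, rfl⟩, h⟩)
          · exact absurd h hx
          · exact h
    rw [this]
    refine MeasurableSet.union (hfarm.inter (MeasurableSet.iUnion fun γ => ?_))
      (hfarm.compl.inter (MeasurableSet.iUnion fun γ => MeasurableSet.iUnion fun γ' =>
        MeasurableSet.iUnion fun k => ?_))
    · exact (hβ1m γ).inter (MeasurableSet.const _)
    · exact (((hβ1m γ).inter (hδm γ')).inter
        (measurableSet_lev hmeas B T hU D n p _ _ k)).inter (MeasurableSet.const _)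
  · -- values
    intro x s hs
    by_cases hx : Far T U ρ x
    · rw [hcfar x s hx]
      exact hκ.mem _ s hs
    · rw [hcnear x s hx]
      exact (hloc _ _).mem _ s hs
  · intro x
    by_cases hx : Far T U ρ x
    · have : c x = κ (β1 x)⁻¹ := by
        funext s; exact hcfar x s hx
      rw [this]
      exact hκ.inj _
    · have : c x = p (G x) (L x) (δ x)⁻¹ := by
        funext s; exact hcnear x s hx
      rw [this]
      exact (hloc _ _).inj _
  · -- consistency along edges
    have hone : ∀ r, (1 : Γ) ∈ T ^ r := fun r => one_mem_pow h1 r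
    have hTT : ∀ m ∈ T, ∀ r, 1 ≤ r → m ∈ T ^ r := fun m hm r hr =>
      mem_pow_mono h1 hr (by simpa using hm)
    have hρ1 : 1 ≤ ρ := by rw [hρ]; exact Nat.mul_pos (by omega) (by omega)
    -- points of U have level zero, and so have their neighbours
    have hlev0 : ∀ x : X, ∀ m ∈ T, m • x ∈ U → L x = 0 := by
      intro x m hm hmx
      by_contra hne
      have hpos : 0 < L x := Nat.pos_of_ne_zero hne
      have := lev_spec B T U D n p (G x) (δ x)⁻¹ x 0 hpos (δ x)⁻¹ ReflTransGen.refl
      rw [mul_inv_cancel, one_smul] at this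
      exact this m (hTT m hm _ (by omega)) hmx
    -- the far/near interface
    have hint : ∀ x : X, ∀ s ∈ B, ¬ Far T U ρ x → Far T U ρ (s • x) →
        c (s • x) s⁻¹ = c x s := by
      intro x s hs hx hsx
      have hsT : s ∈ T := hBT hs
      have hsiT : s⁻¹ ∈ T := hBT (hB s hs)
      have hxU : x ∉ U := by
        have := hsx s⁻¹ (hTT _ hsiT ρ hρ1)
        rwa [inv_smul_smul] at this
      have hsxU : s • x ∉ U := by
        have := hsx 1 (hone ρ)
        rwa [one_smul] at this
      have hL : L x = n := by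
        apply le_antisymm (lev_le _ _ _ _ _ _ _ _ _)
        refine le_lev le_rfl fun i hi γ' hγ' => ?_
        have he : γ' * ((δ x)⁻¹)⁻¹ ∈ T ^ D := hstep _ i _ _ hγ'
        have hm : (γ' * ((δ x)⁻¹)⁻¹) * s⁻¹ ∈ T ^ (D + 1) := mul_mem_pow he (by simpa using hsiT)
        have hsx' : Far T U ((i + 1) * (D + 1) + (D + 1)) (s • x) := by
          refine hsx.mono h1 ?_
          rw [hρ]
          have : i + 1 ≤ n := hi
          nlinarith
        have := hsx'.smul hm
        rwa [mul_smul, inv_smul_smul] at this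
      have hβ : β1 (s • x) * s = β1 x :=
        hβ1 x hxU s (hTT s hsT _ (by omega)) hsxU
      rw [hcfar _ _ hsx, hcnear _ _ hx, hL, hpn (G x) n le_rfl _ s hs]
      simp only [rtrans, G]
      have e1 : (δ x)⁻¹ * (δ x * (β1 x)⁻¹) = (β1 x)⁻¹ := by group
      have e2 : (β1 (s • x))⁻¹ = s * (β1 x)⁻¹ := by
        rw [← hβ]; group
      rw [e1, e2]
      exact hκ.symm _ s hs
    intro x s hs
    have hsT : s ∈ T := hBT hs
    have hsiT : s⁻¹ ∈ T := hBT (hB s hs)
    by_cases hx : Far T U ρ x
    · by_cases hsx : Far T U ρ (s • x)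
      · have hxU : x ∉ U := by
          have := hx 1 (hone ρ)
          rwa [one_smul] at this
        have hsxU : s • x ∉ U := by
          have := hsx 1 (hone ρ)
          rwa [one_smul] at this
        have hβ : β1 (s • x) * s = β1 x :=
          hβ1 x hxU s (hTT s hsT _ (by omega)) hsxU
        rw [hcfar _ _ hx, hcfar _ _ hsx]
        have e2 : (β1 (s • x))⁻¹ = s * (β1 x)⁻¹ := by
          rw [← hβ]; group
        rw [e2]
        exact hκ.symm _ s hs
      · have := hint (s • x) s⁻¹ (hB s hs) hsx (by rwa [inv_smul_smul])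
        rw [inv_smul_smul, inv_inv] at this
        exact this.symm
    · by_cases hsx : Far T U ρ (s • x)
      · exact hint x s hs hx hsx
      · -- both are near
        have hδe : δ (s • x) * s = δ x := hδedge x s hsT hx hsx
        have e2 : (δ (s • x))⁻¹ = s * (δ x)⁻¹ := by
          rw [← hδe]; group
        rw [hcnear _ _ hx, hcnear _ _ hsx]
        by_cases hUU : x ∈ U ∨ s • x ∈ U
        · have hL1 : L x = 0 := by
            rcases hUU with h | h
            · exact hlev0 x 1 h1 (by rwa [one_smul])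
            · exact hlev0 x s hsT h
          have hL2 : L (s • x) = 0 := by
            rcases hUU with h | h
            · exact hlev0 (s • x) s⁻¹ hsiT (by rwa [inv_smul_smul])
            · exact hlev0 (s • x) 1 h1 (by rwa [one_smul])
          rw [hL1, hL2, hp0 (G x) _ s hs, hp0 (G (s • x)) _ s⁻¹ (hB s hs), e2]
          exact hκ.symm _ s hs
        · push Not at hUU
          have hβ : β1 (s • x) * s = β1 x :=
            hβ1 x hUU.1 s (hTT s hsT _ (by omega)) hUU.2
          have hG : G (s • x) = G x := by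
            simp only [G]
            rw [← hδe, ← hβ]
            group
          have hedge := lev_edge (U := U) (D := D) (n := n) (p := p) (g := G x)
            (γ := (δ x)⁻¹) (x := x) (s := s) h1 hB hBT (hloc _) (hstep _) hs
          have hLs : L (s • x) = lev B T U D n p (G x) (s * (δ x)⁻¹) (s • x) := by
            simp only [L]
            rw [hG, e2]
          rw [hLs, hG, e2, (hloc _ _).symm _ s hs]
          exact hedge.symm

end Run7.h916
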