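import Pool.Agent.Run7.h916.Null

set_option autoImplicit false
set_option linter.unusedSectionVars false

/-!
Mobility: in a group of polynomial growth, every directed edge of a null flow with values `1, -1`
lies in a directed closed word of bounded length.
-/

namespace Run7.h916

open Set

universe u v w

variable {K : Type u} [Group K] {g : Bool → K} {Y : Type v} [MulAction K Y]

/-- Every directed edge lies in a directed closed word of bounded length. -/
def Mobile (g : Bool → K) (D : K → Lt → ℝ) : Prop :=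
  ∃ N : ℕ, ∀ y l, D y l = 1 → ∃ w : List Lt, w.length ≤ N ∧ wval g (l :: w) = 1 ∧
    Directed g D y (l :: w)

theorem ball_finite (n : ℕ) (y : Y) : (Ball g n y).Finite := by
  have : Ball g n y = (fun w => wval g w • y) '' {w : List Lt | w.length ≤ n} := by
    ext x
    simp only [Ball, mem_ofPred_eq, mem_image]
  rw [this]
  exact (List.finite_length_le Lt n).image _

theorem Directed.append {D : Y → Lt → ℝ} {u w : List Lt} {y : Y} (h : Directed g D y u)
    (h' : Directed g D (wval g u • y) w) : Directed g D y (u ++ w) := by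
  induction u generalizing y with
  | nil => simpa using h'
  | cons l u ih =>
    refine ⟨h.1, ih h.2 ?_⟩
    rw [wval_cons, mul_smul] at h'
    exact h'

theorem flux_zero {φ : Y → Lt → ℝ} (hφ : Antisym g φ) (hdiv : ∀ y, ∑ s, φ y s = 0)
    (F : Finset Y) (hF : ∀ y s, φ y s ≠ 0 → y ∈ F) (A : Set Y) [DecidablePred (· ∈ A)] :
    ∑ p ∈ (F ×ˢ (Finset.univ : Finset Lt)).filter
      (fun p => p.1 ∈ A ∧ lval g p.2 • p.1 ∉ A), φ p.1 p.2 = 0 := by
  classical
  have h1 : ∑ p ∈ (F ×ˢ (Finset.univ : Finset Lt)).filter (fun p => p.1 ∈ A), φ p.1 p.2 = 0 := by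
    rw [Finset.sum_filter, Finset.sum_product]
    refine Finset.sum_eq_zero fun z _ => ?_
    by_cases hz : z ∈ A
    · simp only [hz, if_true]
      exact hdiv z
    · simp [hz]
  have h2 : ∑ p ∈ (F ×ˢ (Finset.univ : Finset Lt)).filter
      (fun p => p.1 ∈ A ∧ lval g p.2 • p.1 ∈ A), φ p.1 p.2 = 0 := by
    have h3 : ∑ p ∈ (F ×ˢ (Finset.univ : Finset Lt)).filter
        (fun p => (p.1 ∈ A ∧ lval g p.2 • p.1 ∈ A) ∧ φ p.1 p.2 ≠ 0), φ p.1 p.2 = 0 := by
      refine Finset.sum_involution (fun p _ => (lval g p.2 • p.1, linv p.2)) ?_ ?_ ?_ ?_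
      · intro p _
        simp only
        rw [hφ]
        ring
      · intro p _ hne heq
        have := congrArg Prod.snd heq
        exact linv_ne _ this
      · intro p hp
        rw [Finset.mem_filter] at hp ⊢
        obtain ⟨hp1, ⟨hp2, hp3⟩, hp4⟩ := hp
        have h5 : φ (lval g p.2 • p.1) (linv p.2) ≠ 0 := by
          rw [hφ]
          exact neg_ne_zero.mpr hp4
        refine ⟨Finset.mem_product.mpr ⟨hF _ _ h5, Finset.mem_univ _⟩, ⟨hp3, ?_⟩, h5⟩
        simpa using hp2
      · intro p _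
        simp
    rw [← h3]
    symm
    apply Finset.sum_subset
    · intro p hp
      rw [Finset.mem_filter] at hp ⊢
      exact ⟨hp.1, hp.2.1⟩
    · intro p hp hp'
      rw [Finset.mem_filter] at hp hp'
      by_contra hne
      exact hp' ⟨hp.1, hp.2, hne⟩
  have h4 : (F ×ˢ (Finset.univ : Finset Lt)).filter (fun p => p.1 ∈ A) =
      (F ×ˢ (Finset.univ : Finset Lt)).filter (fun p => p.1 ∈ A ∧ lval g p.2 • p.1 ∉ A) ∪
      (F ×ˢ (Finset.univ : Finset Lt)).filter (fun p => p.1 ∈ A ∧ lval g p.2 • p.1 ∈ A) := by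
    ext p
    simp only [Finset.mem_union, Finset.mem_filter]
    tauto
  rw [h4, Finset.sum_union, h2, add_zero] at h1
  · exact h1
  · rw [Finset.disjoint_filter]
    intro p _ h h'
    exact h.2 h'.2

/-- A monotone sequence of subsets of a finite set is stationary early. -/
theorem exists_stationary {F : Finset K} {A : ℕ → Finset K} (hsub : ∀ j, A j ⊆ F)
    (hne : (A 0).Nonempty) (hmono : ∀ j, A j ⊆ A (j + 1)) :
    ∃ j, j ≤ F.card ∧ A (j + 1) = A j := by
  by_contra hcon
  push Not at hcon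
  have : ∀ j, j ≤ F.card + 1 → j + 1 ≤ (A j).card := by
    intro j
    induction j with
    | zero => intro _; exact hne.card_pos
    | succ j ih =>
      intro hj
      have h1 := ih (by omega)
      have h2 : A j ⊂ A (j + 1) :=
        (hmono j).ssubset_of_ne (hcon j (by omega)).symm
      have := Finset.card_lt_card h2
      omega
  have h1 := this (F.card + 1) le_rfl
  have h2 := Finset.card_le_card (hsub (F.card + 1))
  omega

theorem list_sum_neg {α : Type*} (L : List α) (f : α → ℝ) :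
    (L.map (fun p => - f p)).sum = - (L.map f).sum := by
  induction L with
  | nil => simp
  | cons p L ih => simp [ih]; ring

/-- Truncations of null flows. -/
theorem Null.trunc {D : K → Lt → ℝ} (h : Null g D) : ∃ (ℓ : ℕ) (C : ℝ), 1 ≤ C ∧ 1 ≤ ℓ ∧
    ∀ (x : K) (R : ℕ), ∃ φ : K → Lt → ℝ, Antisym g φ ∧ (∀ y, ∑ s, φ y s = 0) ∧
      (∀ y s, |φ y s| ≤ C) ∧ (∀ y ∈ Ball g R x, ∀ s, φ y s = D y s) ∧
      ∀ y s, φ y s ≠ 0 → y ∈ Ball g (R + 2 * ℓ) x := by
  classical
  obtain ⟨L, C, h0, h1, h2⟩ := h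
  let ℓ : ℕ := (L.map (fun p => p.2.length)).sum + 1
  have hℓ : ∀ p ∈ L, p.2.length ≤ ℓ := by
    intro p hp
    have : p.2.length ≤ (L.map (fun p => p.2.length)).sum :=
      List.single_le_sum (by intro x _; exact Nat.zero_le _) _ (List.mem_map.mpr ⟨p, hp, rfl⟩)
    omega
  refine ⟨ℓ, ℓ * (C + 1) * (L.length + 1), ?_, by simp [ℓ], ?_⟩
  · have : (1 : ℝ) ≤ ℓ := by
      have : 1 ≤ ℓ := by simp [ℓ]
      exact_mod_cast this
    have h3 : (0 : ℝ) ≤ L.length := by positivity
    have h4 : (1 : ℝ) ≤ ℓ * (C + 1) := by nlinarith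
    nlinarith
  intro x R
  let φ : K → Lt → ℝ := fun y s => (L.map (fun p =>
    conv g (fun z => if z ∈ Ball g (R + ℓ) x then p.1 z else 0) p.2 y s)).sum
  refine ⟨φ, ?_, ?_, ?_, ?_, ?_⟩
  · intro y s
    simp only [φ]
    rw [← list_sum_neg]
    congr 1
    exact List.map_congr_left fun p _ => conv_antisym _ _ y s
  · intro y
    simp only [φ]
    rw [← Finset.sum_congr rfl (fun s _ => rfl)]
    have : ∀ L' : List ((K → ℝ) × List Lt), (∀ p ∈ L', wval g p.2 = 1) →
        ∑ s, (L'.map (fun p =>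
          conv g (fun z => if z ∈ Ball g (R + ℓ) x then p.1 z else 0) p.2 y s)).sum = 0 := by
      intro L' hL'
      induction L' with
      | nil => simp
      | cons p L' ih =>
        simp only [List.map_cons, List.sum_cons]
        rw [Finset.sum_add_distrib, ih (fun p hp => hL' p (List.mem_cons_of_mem _ hp)), add_zero,
          conv_div, hL' p (List.mem_cons_self ..)]
        simp
    exact this L fun p hp => (h1 p hp).1
  · intro y s
    simp only [φ]
    have : ∀ L' : List ((K → ℝ) × List Lt), (∀ p ∈ L', p ∈ L) →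
        |(L'.map (fun p =>
          conv g (fun z => if z ∈ Ball g (R + ℓ) x then p.1 z else 0) p.2 y s)).sum| ≤
          ℓ * (C + 1) * L'.length := by
      intro L' hL'
      induction L' with
      | nil => simp
      | cons p L' ih =>
        simp only [List.map_cons, List.sum_cons, List.length_cons]
        have h3 := ih (fun p hp => hL' p (List.mem_cons_of_mem _ hp))
        have hp := hL' p (List.mem_cons_self ..)
        have h4 := abs_conv_le (g := g) h0 p.2
          (fun z => if z ∈ Ball g (R + ℓ) x then p.1 z else 0) y (fun z _ => by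
            split_ifs
            · exact (h1 p hp).2 z
            · simpa using h0) s
        have h5 : (p.2.length : ℝ) ≤ ℓ := by exact_mod_cast hℓ p hp
        have h6 : (p.2.length : ℝ) * C ≤ ℓ * (C + 1) := by
          have : (0 : ℝ) ≤ p.2.length := by positivity
          nlinarith
        refine (abs_add_le _ _).trans ?_
        push_cast
        nlinarith
    refine (this L fun p hp => hp).trans ?_
    have : (0 : ℝ) ≤ ℓ * (C + 1) := by positivity
    nlinarith
  · intro y hy s
    simp only [φ]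
    rw [h2]
    congr 1
    refine List.map_congr_left fun p hp => ?_
    apply conv_congr
    intro z hz
    rw [if_pos]
    exact Ball.mono (by have := hℓ p hp; omega) x (Ball.trans hy hz)
  · intro y s hne
    by_contra hy
    apply hne
    simp only [φ]
    apply List.sum_eq_zero
    intro r hr
    obtain ⟨p, hp, rfl⟩ := List.mem_map.mp hr
    have : conv g (fun z => if z ∈ Ball g (R + ℓ) x then p.1 z else 0) p.2 y s =
        conv g (fun _ => (0 : ℝ)) p.2 y s := by
      apply conv_congr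
      intro z hz
      rw [if_neg]
      intro hz'
      apply hy
      have := Ball.trans hz' (Ball.symm hz)
      exact Ball.mono (by have := hℓ p hp; omega) x this
    rw [this, conv_zero]

/-- Polynomial growth with respect to two generators. -/
def PolyGrowth (g : Bool → K) : Prop :=
  ∃ C d : ℕ, ∀ n, (Ball g n (1 : K)).ncard ≤ C * (n + 1) ^ d

theorem ball_eq_image (n : ℕ) (x : K) : Ball g n x = (fun z => z * x) '' Ball g n (1 : K) := by
  ext y
  simp only [Ball, mem_ofPred_eq, mem_image, smul_eq_mul, mul_one]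
  constructor
  · rintro ⟨w, hw, rfl⟩
    exact ⟨_, ⟨w, hw, rfl⟩, rfl⟩
  · rintro ⟨_, ⟨w, hw, rfl⟩, rfl⟩
    exact ⟨w, hw, rfl⟩

theorem ncard_ball (n : ℕ) (x : K) : (Ball g n x).ncard = (Ball g n (1 : K)).ncard := by
  rw [ball_eq_image]
  exact Set.ncard_image_of_injective _ (mul_left_injective x)

theorem exists_lt_pow {θ : ℝ} (hθ : 1 < θ) (C d s : ℕ) :
    ∃ k : ℕ, (4 : ℝ) * (C * (s * k + 1) ^ d) < θ ^ k := by
  have h := tendsto_pow_const_div_const_pow_of_one_lt d hθ
  have hpos : (0 : ℝ) < 1 / (4 * (C + 1) * (s + 1) ^ d * θ * 1) := by positivity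
  have h2 := (h.eventually (gt_mem_nhds hpos)).exists_forall_of_atTop
  obtain ⟨n, hn⟩ := h2
  have h3 := hn (n + 1) (by omega)
  refine ⟨n, ?_⟩
  have hθn : 0 < θ ^ (n + 1) := by positivity
  rw [div_lt_div_iff₀ hθn (by positivity), one_mul] at h3
  have h4 : ((s : ℝ) * n + 1) ≤ (s + 1) * ((n + 1 : ℕ) : ℝ) := by
    push_cast
    have : (0 : ℝ) ≤ s := by positivity
    have : (0 : ℝ) ≤ n := by positivity
    nlinarith
  have h5 : ((s : ℝ) * n + 1) ^ d ≤ (s + 1) ^ d * ((n + 1 : ℕ) : ℝ) ^ d := by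
    rw [← mul_pow]
    exact pow_le_pow_left₀ (by positivity) h4 d
  rw [pow_succ] at h3
  have hθ0 : 0 < θ := by linarith
  have h6 : (4 * (C + 1) * (s + 1) ^ d * ((n + 1 : ℕ) : ℝ) ^ d) * θ < θ ^ n * θ := by
    calc (4 * (C + 1) * (s + 1) ^ d * ((n + 1 : ℕ) : ℝ) ^ d) * θ
        = ((n + 1 : ℕ) : ℝ) ^ d * (4 * (C + 1) * (s + 1) ^ d * θ * 1) := by ring
      _ < θ ^ n * θ := h3
  have h7 := lt_of_mul_lt_mul_right h6 hθ0.le
  refine lt_of_le_of_lt ?_ h7
  have h8 : (0 : ℝ) ≤ C := by positivity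
  have h9 : (0 : ℝ) ≤ (s + 1) ^ d * ((n + 1 : ℕ) : ℝ) ^ d := by positivity
  nlinarith [mul_le_mul_of_nonneg_left h5 h8]

theorem mobile_of_null {D : K → Lt → ℝ} (hpm : ∀ y l, D y l = 1 ∨ D y l = -1)
    (hD : Antisym g D) (hnull : Null g D) (hgr : PolyGrowth g) : Mobile g D := by
  classical
  obtain ⟨ℓ, C, hC1, hℓ1, htr⟩ := hnull.trunc
  obtain ⟨C0, d, hgr⟩ := hgr
  have hθ : 1 < 1 + 1 / C := by
    have : 0 < 1 / C := by positivity
    linarith
  obtain ⟨k, hk⟩ := exists_lt_pow hθ C0 d (2 * ℓ)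
  set N : ℕ := 2 * ℓ * k + 1 with hN
  refine ⟨(Ball g N (1 : K)).ncard, ?_⟩
  intro y l hyl
  set x : K := lval g l * y with hx
  let F : Finset K := (ball_finite (g := g) N x).toFinset
  have hF : ∀ z, z ∈ F ↔ z ∈ Ball g N x := fun z => by simp [F]
  have hFcard : F.card = (Ball g N (1 : K)).ncard := by
    rw [← ncard_ball N x, Set.ncard_eq_toFinset_card _ (ball_finite N x)]
  -- the reachable sets
  let nx : Finset K → Finset K := fun B => F.filter (fun z' => z' ∈ B ∨
    ∃ z ∈ B, ∃ s, D z s = 1 ∧ lval g s * z = z')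
  have hnx : ∀ B z', z' ∈ nx B ↔ z' ∈ F ∧ (z' ∈ B ∨
    ∃ z ∈ B, ∃ s, D z s = 1 ∧ lval g s * z = z') := by
    intro B z'
    simp only [nx]
    rw [Finset.mem_filter]
  let A : ℕ → Finset K := fun j => nx^[j] {x}
  have hA0 : A 0 = {x} := rfl
  have hAs : ∀ j, A (j + 1) = nx (A j) := fun j => Function.iterate_succ_apply' nx j {x}
  have hAF : ∀ j, A j ⊆ F := by
    intro j
    cases j with
    | zero =>
      rw [hA0]
      intro z hz
      rw [Finset.mem_singleton] at hz
      rw [hz, hF]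
      exact mem_ball_self _ _
    | succ j => rw [hAs]; exact Finset.filter_subset _ _
  have hmono : ∀ j, A j ⊆ A (j + 1) := by
    intro j z hz
    rw [hAs, hnx]
    exact ⟨hAF j hz, Or.inl hz⟩
  obtain ⟨j, hj, hstat⟩ := exists_stationary hAF (by rw [hA0]; simp) hmono
  have hxA : x ∈ A j := by
    have : ∀ i, x ∈ A i := by
      intro i
      induction i with
      | zero => rw [hA0]; simp
      | succ i ih => exact hmono i ih
    exact this j
  have hpath : ∀ i, ∀ z ∈ A i, ∃ w : List Lt, w.length ≤ i ∧ wval g w * x = z ∧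
      Directed g D x w := by
    intro i
    induction i with
    | zero =>
      intro z hz
      rw [hA0, Finset.mem_singleton] at hz
      exact ⟨[], by simp, by simp [hz], trivial⟩
    | succ i ih =>
      intro z hz
      rw [hAs, hnx] at hz
      rcases hz.2 with h | ⟨z', hz', s, hs, rfl⟩
      · obtain ⟨w, h1, h2, h3⟩ := ih z h
        exact ⟨w, by omega, h2, h3⟩
      · obtain ⟨w, h1, h2, h3⟩ := ih z' hz'
        refine ⟨w ++ [s], by simp; omega, ?_, ?_⟩
        · rw [wval_append, wval_cons, wval_nil, one_mul, mul_assoc, h2]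
        · refine h3.append ⟨?_, trivial⟩
          rw [smul_eq_mul, h2]
          exact hs
  have hclosed : ∀ z ∈ A j, ∀ s, D z s = 1 → lval g s * z ∈ F → lval g s * z ∈ A j := by
    intro z hz s hs hF'
    rw [← hstat, hAs, hnx]
    exact ⟨hF', Or.inr ⟨z, hz, s, hs, rfl⟩⟩
  by_cases hy : y ∈ A j
  · obtain ⟨w, h1, h2, h3⟩ := hpath j y hy
    refine ⟨w, by omega, ?_, hyl, ?_⟩
    · rw [wval_cons]
      rw [hx, ← mul_assoc] at h2
      exact mul_eq_right.mp h2
    · exact h3
  exfalso
  -- the crossing edges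
  let E : ℕ → Finset (K × Lt) := fun r => ((ball_finite (g := g) r x).toFinset ×ˢ
    (Finset.univ : Finset Lt)).filter (fun p => p.1 ∈ (A j : Set K) ∧
      lval g p.2 • p.1 ∉ (A j : Set K))
  have hE : ∀ r p, p ∈ E r ↔ p.1 ∈ Ball g r x ∧ p.1 ∈ A j ∧ lval g p.2 • p.1 ∉ A j := by
    intro r p
    simp only [E, Finset.mem_filter, Finset.mem_product, Set.Finite.mem_toFinset,
      Finset.mem_univ, and_true, Finset.mem_coe]
  have hEm : ∀ r r', r ≤ r' → E r ⊆ E r' := by
    intro r r' h p hp
    rw [hE] at hp ⊢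
    exact ⟨Ball.mono h x hp.1, hp.2⟩
  have hstep : ∀ R, R + 1 ≤ N → (1 + 1 / C) * (E R).card ≤ (E (R + 2 * ℓ)).card := by
    intro R hR
    obtain ⟨φ, h1, h2, h3, h4, h5⟩ := htr x R
    have hz := flux_zero h1 h2 (ball_finite (g := g) (R + 2 * ℓ) x).toFinset
      (fun y s h => by simpa using h5 y s h) (A j : Set K)
    have hz' : ∑ p ∈ E (R + 2 * ℓ), φ p.1 p.2 = 0 := by
      convert hz using 1
    rw [← Finset.sum_sdiff (hEm R (R + 2 * ℓ) (by omega))] at hz'
    have h6 : ∑ p ∈ E R, φ p.1 p.2 = - (E R).card := by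
      have : ∀ p ∈ E R, φ p.1 p.2 = -1 := by
        intro p hp
        rw [hE] at hp
        rw [h4 _ hp.1]
        rcases hpm p.1 p.2 with h | h
        · exfalso
          apply hp.2.2
          apply hclosed _ hp.2.1 _ h
          rw [hF]
          exact Ball.mono hR x (Ball.step hp.1 p.2)
        · exact h
      rw [Finset.sum_congr rfl this]
      simp
    have h7 : ∑ p ∈ E (R + 2 * ℓ) \ E R, φ p.1 p.2 ≤ C * (E (R + 2 * ℓ) \ E R).card := by
      have : ∑ p ∈ E (R + 2 * ℓ) \ E R, φ p.1 p.2 ≤ ∑ p ∈ E (R + 2 * ℓ) \ E R, C :=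
        Finset.sum_le_sum fun p _ => (le_abs_self _).trans (h3 _ _)
      rw [Finset.sum_const, nsmul_eq_mul] at this
      exact this.trans_eq (mul_comm _ _)
    have h8 : (((E (R + 2 * ℓ) \ E R).card : ℕ) : ℝ) = (E (R + 2 * ℓ)).card - (E R).card := by
      rw [Finset.cast_card_sdiff (hEm R (R + 2 * ℓ) (by omega))]
    rw [h8] at h7
    have hC0 : 0 < C := by linarith
    have h9 : ((E R).card : ℝ) ≤ C * ((E (R + 2 * ℓ)).card - (E R).card) := by linarith
    have h10 : ((E R).card : ℝ) / C ≤ (E (R + 2 * ℓ)).card - (E R).card := by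
      rw [div_le_iff₀ hC0]
      linarith
    have : (1 + 1 / C) * ((E R).card : ℝ) = (E R).card + (E R).card / C := by ring
    linarith
  have hpow : ∀ i, i ≤ k → (1 + 1 / C) ^ i ≤ ((E (2 * ℓ * i)).card : ℝ) := by
    intro i
    induction i with
    | zero =>
      intro _
      simp only [pow_zero, mul_zero]
      have : (x, linv l) ∈ E 0 := by
        rw [hE]
        refine ⟨mem_ball_self _ _, hxA, ?_⟩
        simp only [smul_eq_mul, lval_linv, hx, inv_mul_cancel_left]
        exact hy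
      have : 0 < (E 0).card := Finset.card_pos.mpr ⟨_, this⟩
      exact_mod_cast this
    | succ i ih =>
      intro hi
      have h1 := ih (by omega)
      have h2 := hstep (2 * ℓ * i) (by
        rw [hN]
        have : 2 * ℓ * i ≤ 2 * ℓ * k := Nat.mul_le_mul_left _ (by omega)
        omega)
      have h3 : 2 * ℓ * i + 2 * ℓ = 2 * ℓ * (i + 1) := by ring
      rw [h3] at h2
      rw [pow_succ]
      have : 0 < 1 + 1 / C := by linarith
      nlinarith
  have h1 := hpow k le_rfl
  have h2 : ((E (2 * ℓ * k)).card : ℝ) ≤ 4 * (C0 * (2 * ℓ * k + 1) ^ d) := by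
    have h3 : (E (2 * ℓ * k)).card ≤ (Ball g (2 * ℓ * k) (1 : K)).ncard * 4 := by
      refine (Finset.card_filter_le _ _).trans ?_
      rw [Finset.card_product, ← ncard_ball (g := g) (2 * ℓ * k) x,
        Set.ncard_eq_toFinset_card _ (ball_finite _ x)]
      simp
    have h4 := hgr (2 * ℓ * k)
    have h5 : (E (2 * ℓ * k)).card ≤ 4 * (C0 * (2 * ℓ * k + 1) ^ d) := by nlinarith
    exact_mod_cast h5
  have h3 : (2 * ℓ : ℕ) = (2 : ℝ) * ℓ := by push_cast; ring
  rw [h3] at hk
  linarith

end Run7.h916
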