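import Pool.Agent.Run7.h916.ConvH
import Pool.Agent.Run7.h916.Mobility

set_option autoImplicit false
set_option linter.unusedSectionVars false
set_option linter.unusedVariables false

/-!
Mobility of null flows in a set of admissible edges.
-/

namespace Run7.h916

open Set

universe u v w

variable {K : Type u} [Group K] {g : Bool → K}

open Classical in
/-- The sign of a flow. -/
noncomputable def sg {Y : Type v} (D : Y → Lt → ℝ) (y : Y) (l : Lt) : ℝ :=
  if 0 < D y l then 1 else if D y l < 0 then -1 else 0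

theorem sg_eq_one {Y : Type v} {D : Y → Lt → ℝ} {y : Y} {l : Lt} : sg D y l = 1 ↔ 0 < D y l := by
  unfold sg
  split_ifs with h1 h2
  · simp [h1]
  · simp only [h1, iff_false]; norm_num
  · simp [h1]

theorem sg_antisym {D : K → Lt → ℝ} (hD : Antisym g D) : Antisym g (sg D) := by
  intro y s
  unfold sg
  rw [hD y s]
  rcases lt_trichotomy (D y s) 0 with h | h | h
  · rw [if_pos (by linarith), if_neg (by linarith), if_pos h]; norm_num
  · rw [if_neg (by linarith), if_neg (by linarith), if_neg (by linarith), if_neg (by linarith)]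
    norm_num
  · rw [if_neg (by linarith), if_pos (by linarith), if_pos h]

/-- Truncations of null flows. -/
theorem NullH.trunc {H : K → Lt → Prop} (hH : SymmE g H) {D : K → Lt → ℝ}
    (h : NullH g H D) : ∃ (ℓ : ℕ) (C : ℝ), 1 ≤ C ∧ 1 ≤ ℓ ∧
    ∀ (x : K) (R : ℕ), ∃ φ : K → Lt → ℝ, Antisym g φ ∧ (∀ y, ∑ s, φ y s = 0) ∧
      (∀ y s, |φ y s| ≤ C) ∧ (∀ y ∈ Ball g R x, ∀ s, φ y s = D y s) ∧
      (∀ y s, φ y s ≠ 0 → y ∈ Ball g (R + 2 * ℓ) x) ∧ ∀ y s, ¬ H y s → φ y s = 0 := by
  classical
  obtain ⟨L, C, h0, h1, h2⟩ := h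
  let ℓ : ℕ := (L.map (fun p => p.2.length)).sum + 1
  have hℓ : ∀ p ∈ L, p.2.length ≤ ℓ := by
    intro p hp
    have : p.2.length ≤ (L.map (fun p => p.2.length)).sum :=
      List.single_le_sum (by intro x _; exact Nat.zero_le _) _ (List.mem_map.mpr ⟨p, hp, rfl⟩)
    omega
  refine ⟨ℓ, ℓ * (C + 1) * (L.length + 1), ?_, by simp [ℓ], ?_⟩
  · have : (1 : ℝ) ≤ ℓ := by
      have : 1 ≤ ℓ := by simp [ℓ]
      exact_mod_cast this
    have h3 : (0 : ℝ) ≤ L.length := by positivity
    have h4 : (1 : ℝ) ≤ ℓ * (C + 1) := by nlinarith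
    nlinarith
  intro x R
  let φ : K → Lt → ℝ := fun y s => (L.map (fun p =>
    conv g (fun z => if z ∈ Ball g (R + ℓ) x then p.1 z else 0) p.2 y s)).sum
  refine ⟨φ, ?_, ?_, ?_, ?_, ?_, ?_⟩
  · intro y s
    simp only [φ]
    rw [← list_sum_neg]
    congr 1
    exact List.map_congr_left fun p _ => conv_antisym _ _ y s
  · intro y
    simp only [φ]
    rw [← Finset.sum_congr rfl (fun s _ => rfl)]
    have : ∀ L' : List ((K → ℝ) × List Lt), (∀ p ∈ L', wval g p.2 = 1) →
        ∑ s, (L'.map (fun p =>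
          conv g (fun z => if z ∈ Ball g (R + ℓ) x then p.1 z else 0) p.2 y s)).sum = 0 := by
      intro L' hL'
      induction L' with
      | nil => simp
      | cons p L' ih =>
        simp only [List.map_cons, List.sum_cons]
        rw [Finset.sum_add_distrib, ih (fun p hp => hL' p (List.mem_cons_of_mem _ hp)), add_zero,
          conv_div, hL' p (List.mem_cons_self ..)]
        simp
    exact this L fun p hp => (h1 p hp).1
  · intro y s
    simp only [φ]
    have : ∀ L' : List ((K → ℝ) × List Lt), (∀ p ∈ L', p ∈ L) →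
        |(L'.map (fun p =>
          conv g (fun z => if z ∈ Ball g (R + ℓ) x then p.1 z else 0) p.2 y s)).sum| ≤
          ℓ * (C + 1) * L'.length := by
      intro L' hL'
      induction L' with
      | nil => simp
      | cons p L' ih =>
        simp only [List.map_cons, List.sum_cons, List.length_cons]
        have h3 := ih (fun p hp => hL' p (List.mem_cons_of_mem _ hp))
        have hp := hL' p (List.mem_cons_self ..)
        have h4 := abs_conv_le (g := g) h0 p.2
          (fun z => if z ∈ Ball g (R + ℓ) x then p.1 z else 0) y (fun z _ => by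
            split_ifs
            · exact (h1 p hp).2.1 z
            · simpa using h0) s
        have h5 : (p.2.length : ℝ) ≤ ℓ := by exact_mod_cast hℓ p hp
        have h6 : (p.2.length : ℝ) * C ≤ ℓ * (C + 1) := by
          have : (0 : ℝ) ≤ p.2.length := by positivity
          nlinarith
        refine (abs_add_le _ _).trans ?_
        push_cast
        nlinarith
    refine (this L fun p hp => hp).trans ?_
    have : (0 : ℝ) ≤ ℓ * (C + 1) := by positivity
    nlinarith
  · intro y hy s
    simp only [φ]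
    rw [h2]
    congr 1
    refine List.map_congr_left fun p hp => ?_
    apply conv_congr
    intro z hz
    rw [if_pos]
    exact Ball.mono (by have := hℓ p hp; omega) x (Ball.trans hy hz)
  · intro y s hne
    by_contra hy
    apply hne
    simp only [φ]
    apply List.sum_eq_zero
    intro r hr
    obtain ⟨p, hp, rfl⟩ := List.mem_map.mp hr
    have : conv g (fun z => if z ∈ Ball g (R + ℓ) x then p.1 z else 0) p.2 y s =
        conv g (fun _ => (0 : ℝ)) p.2 y s := by
      apply conv_congr
      intro z hz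
      rw [if_neg]
      intro hz'
      apply hy
      have := Ball.trans hz' (Ball.symm hz)
      exact Ball.mono (by have := hℓ p hp; omega) x this
    rw [this, conv_zero]
  · intro y s hs
    simp only [φ]
    apply List.sum_eq_zero
    intro r hr
    obtain ⟨p, hp, rfl⟩ := List.mem_map.mp hr
    refine conv_adm hH p.2 _ (fun z hz => ?_) y s hs
    refine (h1 p hp).2.2 z (fun h3 => hz ?_)
    rw [h3]
    split_ifs <;> rfl

theorem mobile_of_nullH {H : K → Lt → Prop} (hH : SymmE g H) {D : K → Lt → ℝ} {κ : ℝ}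
    (hκ : 0 < κ) (hD0 : ∀ y l, ¬ H y l → D y l = 0) (hDκ : ∀ y l, H y l → κ ≤ |D y l|)
    (hD : Antisym g D) (hnull : NullH g H D) (hgr : PolyGrowth g) : Mobile g (sg D) := by
  classical
  obtain ⟨ℓ, C, hC1, hℓ1, htr⟩ := hnull.trunc hH
  obtain ⟨C0, d, hgr⟩ := hgr
  have hθ : 1 < 1 + κ / C := by
    have : 0 < κ / C := by positivity
    linarith
  obtain ⟨k, hk⟩ := exists_lt_pow hθ C0 d (2 * ℓ)
  set N : ℕ := 2 * ℓ * k + 1 with hN
  refine ⟨(Ball g N (1 : K)).ncard, ?_⟩
  intro y l hyl
  set x : K := lval g l * y with hx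
  let F : Finset K := (ball_finite (g := g) N x).toFinset
  have hF : ∀ z, z ∈ F ↔ z ∈ Ball g N x := fun z => by simp [F]
  have hFcard : F.card = (Ball g N (1 : K)).ncard := by
    rw [← ncard_ball N x, Set.ncard_eq_toFinset_card _ (ball_finite N x)]
  -- the reachable sets
  let nx : Finset K → Finset K := fun B => F.filter (fun z' => z' ∈ B ∨
    ∃ z ∈ B, ∃ s, sg D z s = 1 ∧ lval g s * z = z')
  have hnx : ∀ B z', z' ∈ nx B ↔ z' ∈ F ∧ (z' ∈ B ∨
    ∃ z ∈ B, ∃ s, sg D z s = 1 ∧ lval g s * z = z') := by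
    intro B z'
    simp only [nx]
    rw [Finset.mem_filter]
  let A : ℕ → Finset K := fun j => nx^[j] {x}
  have hA0 : A 0 = {x} := rfl
  have hAs : ∀ j, A (j + 1) = nx (A j) := fun j => Function.iterate_succ_apply' nx j {x}
  have hAF : ∀ j, A j ⊆ F := by
    intro j
    cases j with
    | zero =>
      rw [hA0]
      intro z hz
      rw [Finset.mem_singleton] at hz
      rw [hz, hF]
      exact mem_ball_self _ _
    | succ j => rw [hAs]; exact Finset.filter_subset _ _
  have hmono : ∀ j, A j ⊆ A (j + 1) := by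
    intro j z hz
    rw [hAs, hnx]
    exact ⟨hAF j hz, Or.inl hz⟩
  obtain ⟨j, hj, hstat⟩ := exists_stationary hAF (by rw [hA0]; simp) hmono
  have hxA : x ∈ A j := by
    have : ∀ i, x ∈ A i := by
      intro i
      induction i with
      | zero => rw [hA0]; simp
      | succ i ih => exact hmono i ih
    exact this j
  have hpath : ∀ i, ∀ z ∈ A i, ∃ w : List Lt, w.length ≤ i ∧ wval g w * x = z ∧
      Directed g (sg D) x w := by
    intro i
    induction i with
    | zero =>
      intro z hz
      rw [hA0, Finset.mem_singleton] at hz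
      exact ⟨[], by simp, by simp [hz], trivial⟩
    | succ i ih =>
      intro z hz
      rw [hAs, hnx] at hz
      rcases hz.2 with h | ⟨z', hz', s, hs, rfl⟩
      · obtain ⟨w, h1, h2, h3⟩ := ih z h
        exact ⟨w, by omega, h2, h3⟩
      · obtain ⟨w, h1, h2, h3⟩ := ih z' hz'
        refine ⟨w ++ [s], by simp; omega, ?_, ?_⟩
        · rw [wval_append, wval_cons, wval_nil, one_mul, mul_assoc, h2]
        · refine h3.append ⟨?_, trivial⟩
          rw [smul_eq_mul, h2]
          exact hs
  have hclosed : ∀ z ∈ A j, ∀ s, sg D z s = 1 → lval g s * z ∈ F → lval g s * z ∈ A j := by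
    intro z hz s hs hF'
    rw [← hstat, hAs, hnx]
    exact ⟨hF', Or.inr ⟨z, hz, s, hs, rfl⟩⟩
  by_cases hy : y ∈ A j
  · obtain ⟨w, h1, h2, h3⟩ := hpath j y hy
    refine ⟨w, by omega, ?_, hyl, ?_⟩
    · rw [wval_cons]
      rw [hx, ← mul_assoc] at h2
      exact mul_eq_right.mp h2
    · exact h3
  exfalso
  -- the crossing edges
  let E : ℕ → Finset (K × Lt) := fun r => ((ball_finite (g := g) r x).toFinset ×ˢ
    (Finset.univ : Finset Lt)).filter (fun p => p.1 ∈ A j ∧
      lval g p.2 • p.1 ∉ A j ∧ H p.1 p.2)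
  have hE : ∀ r p, p ∈ E r ↔ p.1 ∈ Ball g r x ∧ p.1 ∈ A j ∧ lval g p.2 • p.1 ∉ A j ∧
      H p.1 p.2 := by
    intro r p
    simp only [E, Finset.mem_filter, Finset.mem_product, Set.Finite.mem_toFinset,
      Finset.mem_univ, and_true]
  have hEm : ∀ r r', r ≤ r' → E r ⊆ E r' := by
    intro r r' h p hp
    rw [hE] at hp ⊢
    exact ⟨Ball.mono h x hp.1, hp.2⟩
  have hstep : ∀ R, R + 1 ≤ N → (1 + κ / C) * (E R).card ≤ (E (R + 2 * ℓ)).card := by
    intro R hR
    obtain ⟨φ, h1, h2, h3, h4, h5, h6'⟩ := htr x R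
    have hz := flux_zero h1 h2 (ball_finite (g := g) (R + 2 * ℓ) x).toFinset
      (fun y s h => by simpa using h5 y s h) (A j : Set K)
    have hz' : ∑ p ∈ E (R + 2 * ℓ), φ p.1 p.2 = 0 := by
      rw [← hz]
      refine Finset.sum_subset ?_ ?_
      · intro p hp
        rw [hE] at hp
        simp only [Finset.mem_filter, Finset.mem_product, Set.Finite.mem_toFinset,
          Finset.mem_univ, and_true, Finset.mem_coe]
        exact ⟨hp.1, hp.2.1, hp.2.2.1⟩
      · intro p hp hp2
        apply h6'
        intro hHp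
        apply hp2
        simp only [Finset.mem_filter, Finset.mem_product, Set.Finite.mem_toFinset,
          Finset.mem_univ, and_true, Finset.mem_coe] at hp
        rw [hE]
        exact ⟨hp.1, hp.2.1, hp.2.2, hHp⟩
    rw [← Finset.sum_sdiff (hEm R (R + 2 * ℓ) (by omega))] at hz'
    have h6 : ∑ p ∈ E R, φ p.1 p.2 ≤ - (κ * (E R).card) := by
      have : ∀ p ∈ E R, φ p.1 p.2 ≤ - κ := by
        intro p hp
        rw [hE] at hp
        rw [h4 _ hp.1]
        have hk := hDκ p.1 p.2 hp.2.2.2
        by_contra hcon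
        push Not at hcon
        have hpos : 0 < D p.1 p.2 := by
          by_contra hneg
          push Not at hneg
          rw [abs_of_nonpos hneg] at hk
          linarith
        apply hp.2.2.1
        apply hclosed _ hp.2.1 _ (sg_eq_one.mpr hpos)
        rw [hF]
        exact Ball.mono hR x (Ball.step hp.1 p.2)
      refine (Finset.sum_le_sum this).trans_eq ?_
      rw [Finset.sum_const, nsmul_eq_mul]
      ring
    have h7 : ∑ p ∈ E (R + 2 * ℓ) \ E R, φ p.1 p.2 ≤ C * (E (R + 2 * ℓ) \ E R).card := by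
      have : ∑ p ∈ E (R + 2 * ℓ) \ E R, φ p.1 p.2 ≤ ∑ p ∈ E (R + 2 * ℓ) \ E R, C :=
        Finset.sum_le_sum fun p _ => (le_abs_self _).trans (h3 _ _)
      rw [Finset.sum_const, nsmul_eq_mul] at this
      exact this.trans_eq (mul_comm _ _)
    have h8 : (((E (R + 2 * ℓ) \ E R).card : ℕ) : ℝ) = (E (R + 2 * ℓ)).card - (E R).card := by
      rw [Finset.cast_card_sdiff (hEm R (R + 2 * ℓ) (by omega))]
    rw [h8] at h7
    have hC0 : 0 < C := by linarith
    have h9 : κ * ((E R).card : ℝ) ≤ C * ((E (R + 2 * ℓ)).card - (E R).card) := by linarith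
    have h10 : κ * ((E R).card : ℝ) / C ≤ (E (R + 2 * ℓ)).card - (E R).card := by
      rw [div_le_iff₀ hC0]
      linarith
    have : (1 + κ / C) * ((E R).card : ℝ) = (E R).card + κ * (E R).card / C := by ring
    linarith
  have hpow : ∀ i, i ≤ k → (1 + κ / C) ^ i ≤ ((E (2 * ℓ * i)).card : ℝ) := by
    intro i
    induction i with
    | zero =>
      intro _
      simp only [pow_zero, mul_zero]
      have hHyl : H y l := by
        by_contra hcon
        have h0 := hD0 y l hcon
        have h1 := sg_eq_one.mp hyl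
        rw [h0] at h1
        exact lt_irrefl _ h1
      have : (x, linv l) ∈ E 0 := by
        rw [hE]
        refine ⟨mem_ball_self _ _, hxA, ?_, ?_⟩
        · simp only [smul_eq_mul, lval_linv, hx, inv_mul_cancel_left]
          exact hy
        · exact (hH y l).mp hHyl
      have : 0 < (E 0).card := Finset.card_pos.mpr ⟨_, this⟩
      exact_mod_cast this
    | succ i ih =>
      intro hi
      have h1 := ih (by omega)
      have h2 := hstep (2 * ℓ * i) (by
        rw [hN]
        have : 2 * ℓ * i ≤ 2 * ℓ * k := Nat.mul_le_mul_left _ (by omega)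
        omega)
      have h3 : 2 * ℓ * i + 2 * ℓ = 2 * ℓ * (i + 1) := by ring
      rw [h3] at h2
      rw [pow_succ]
      have : 0 < 1 + κ / C := by linarith
      nlinarith
  have h1 := hpow k le_rfl
  have h2 : ((E (2 * ℓ * k)).card : ℝ) ≤ 4 * (C0 * (2 * ℓ * k + 1) ^ d) := by
    have h3 : (E (2 * ℓ * k)).card ≤ (Ball g (2 * ℓ * k) (1 : K)).ncard * 4 := by
      refine (Finset.card_filter_le _ _).trans ?_
      rw [Finset.card_product, ← ncard_ball (g := g) (2 * ℓ * k) x,
        Set.ncard_eq_toFinset_card _ (ball_finite _ x)]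
      simp
    have h4 := hgr (2 * ℓ * k)
    have h5 : (E (2 * ℓ * k)).card ≤ 4 * (C0 * (2 * ℓ * k + 1) ^ d) := by nlinarith
    exact_mod_cast h5
  have h3 : (2 * ℓ : ℕ) = (2 : ℝ) * ℓ := by push_cast; ring
  rw [h3] at hk
  linarith

end Run7.h916
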