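import Pool.Agent.Run7.h916.NilThm

set_option autoImplicit false
set_option linter.unusedSectionVars false
set_option linter.unusedVariables false

/-!
Blocks of directions which generate a group that is locally finite by nilpotent.
-/

namespace Run7.h916

open Subgroup
open scoped Pointwise commutatorElement

universe u v

section restrict

variable {Γ : Type u} [Group Γ] {X : Type v} [MulAction Γ X] [MeasurableSpace X]

/-- Colourings for the action of a subgroup. -/
theorem BorelBlock.of_subgroup {N : Subgroup Γ} {B : Set N} (h : BorelBlock B X) :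
    BorelBlock (Subtype.val '' B : Set Γ) X := by
  classical
  obtain ⟨c, h1, h2, h3, h4⟩ := h
  let c' : X → Γ → Γ := fun x γ => if hγ : γ ∈ N then (c x ⟨γ, hγ⟩ : Γ) else 1
  have hc' : ∀ x (s : N), c' x s = c x s := by
    intro x s
    simp only [c']
    rw [dif_pos s.2]
  refine ⟨c', ?_, ?_, ?_, ?_⟩
  · intro s γ
    by_cases hs : s ∈ N
    · have e : ∀ x, c' x s = c x ⟨s, hs⟩ := fun x => hc' x ⟨s, hs⟩
      by_cases hγ : γ ∈ N
      · have : {x | c' x s = γ} = {x | c x ⟨s, hs⟩ = ⟨γ, hγ⟩} := by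
          ext x
          simp only [Set.mem_ofPred_eq, e]
          exact ⟨fun h => Subtype.ext h, fun h => congrArg Subtype.val h⟩
        rw [this]
        exact h1 _ _
      · have : {x | c' x s = γ} = ∅ := by
          ext x
          simp only [Set.mem_ofPred_eq, Set.mem_empty_iff_false, iff_false, e]
          intro h
          exact hγ (h ▸ (c x ⟨s, hs⟩).2)
        rw [this]
        exact MeasurableSet.empty
    · have e : ∀ x, c' x s = 1 := by
        intro x
        simp only [c']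
        rw [dif_neg hs]
      simp only [e]
      exact MeasurableSet.const _
  · rintro x _ ⟨s, hs, rfl⟩
    rw [hc']
    exact ⟨_, h2 x s hs, rfl⟩
  · rintro x _ ⟨s, hs, rfl⟩ _ ⟨t, ht, rfl⟩ h
    rw [hc', hc'] at h
    exact congrArg Subtype.val (h3 x hs ht (Subtype.ext h))
  · rintro x _ ⟨s, hs, rfl⟩
    have := h4 x s hs
    rw [hc' x s]
    have e := hc' ((s : Γ) • x) s⁻¹
    rw [Subgroup.coe_inv] at e
    rw [e]
    exact congrArg Subtype.val this

theorem IsFreeBorel.restrict (hX : IsFreeBorel Γ X) (N : Subgroup Γ) : IsFreeBorel N X :=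
  ⟨fun γ => hX.measurable_smul (γ : Γ), fun γ x h => Subtype.ext (hX.free (γ : Γ) x h)⟩

theorem SepAct.restrict {T : Set Γ} (h : SepAct T X) (N : Subgroup Γ) {T' : Set N}
    (hT' : ∀ t ∈ T', (t : Γ) ∈ T) : SepAct T' X := by
  intro n
  obtain ⟨U, hU, h1, h2⟩ := h n
  have hpow : ∀ (n : ℕ) (t : N), t ∈ T' ^ n → (t : Γ) ∈ T ^ n := by
    intro n
    induction n with
    | zero =>
      intro t ht
      rw [pow_zero, Set.mem_one] at ht ⊢
      rw [ht]
      rfl
    | succ n ih =>
      intro t ht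
      rw [pow_succ] at ht ⊢
      obtain ⟨a, ha, b, hb, rfl⟩ := ht
      exact ⟨a, ih a ha, b, hT' b hb, rfl⟩
  have hmono : ∀ (V : Set X) (x y : X), Conn (T' ^ n) V x y → Conn (T ^ n) V x y := by
    intro V x y hxy
    refine rtg_mono ?_ hxy
    rintro a b ⟨hb, m, hm, hab⟩
    exact ⟨hb, m, hpow n m hm, hab⟩
  exact ⟨U, hU, fun x hx => (h1 x hx).subset fun y hy => hmono U x y hy,
    fun x hx => (h2 x hx).subset fun y hy => hmono Uᶜ x y hy⟩

end restrict

section blocks

variable {Γ : Type u} [Group Γ] {X : Type v} [MulAction Γ X] [MeasurableSpace X]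
  [StandardBorelSpace X] [Countable Γ]

theorem block_of_splitsB {S R : Finset Γ} (hRS : ∀ s ∈ R, s ∈ S) (hSinv : ∀ s ∈ S, s⁻¹ ∈ S)
    (hcases : ∀ s ∈ S, s ∈ R ∨ s⁻¹ ∈ R) (hRinv : ∀ s ∈ R, s⁻¹ ∉ R) (h : SplitsB X R) :
    BorelBlock (S : Set Γ) X := by
  obtain ⟨col, hcol⟩ := h
  have hBall : (⋃ n : ℕ, ({x | x ∈ R ∧ col x = n} ∪ ({x | x ∈ R ∧ col x = n} : Set Γ)⁻¹)) =
      (S : Set Γ) := by
    ext s
    simp only [Set.mem_iUnion, Finset.mem_coe]
    constructor
    · rintro ⟨i, ⟨h1, _⟩ | ⟨h1, _⟩⟩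
      · exact hRS s h1
      · have := hSinv _ (hRS _ h1)
        rwa [inv_inv] at this
    · intro hs
      rcases hcases s hs with h | h
      · exact ⟨col s, Or.inl ⟨h, rfl⟩⟩
      · exact ⟨col s⁻¹, Or.inr ⟨h, rfl⟩⟩
  rw [← hBall]
  refine BorelBlock.iUnion ?_ ?_ hcol
  · rintro i j s (⟨h1, h2⟩ | ⟨h1, h2⟩) (⟨h3, h4⟩ | ⟨h3, h4⟩)
    · rw [← h2, ← h4]
    · exact absurd h3 (hRinv s h1)
    · exact absurd h1 (hRinv s h3)
    · rw [← h2, ← h4]
  · rintro i s (hs | hs)
    · right; rw [Set.mem_inv, inv_inv]; exact hs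
    · left; exact hs

open Classical in
/-- Blocks which generate the group. -/
theorem block_nilpotent (hX : IsFreeBorel Γ X) {S : Finset Γ} (hSinv : ∀ s ∈ S, s⁻¹ ∈ S)
    (hSgen : Subgroup.closure (S : Set Γ) = ⊤) (hSinf : ∀ s ∈ S, ¬ IsOfFinOrder s)
    (hsep : SepAct (insert 1 (S : Set Γ)) X) {L : Subgroup Γ} (hLn : L.Normal)
    (hL : IsLocallyFinite L) (hnil : Group.IsNilpotent (Γ ⧸ L))
    (hcyc : ∀ (K : Subgroup Γ) (_ : K.Normal), IsLocallyFinite K → ¬ IsCyclic (Γ ⧸ K))
    (hex : S.card ≠ 6 ∨ (∀ x y w : Γ, ⁅⁅x, y⁆, w⁆ ∈ L)) : BorelBlock (S : Set Γ) X := by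
  set T : Set Γ := insert 1 (S : Set Γ) with hTdef
  have hT1 : (1 : Γ) ∈ T := Set.mem_insert _ _
  have hT : ∀ m ∈ T, m⁻¹ ∈ T := by
    rintro m (rfl | hm)
    · left; simp
    · right; exact hSinv m hm
  have hTfin : T.Finite := S.finite_toSet.insert 1
  have hgen : Subgroup.closure T = ⊤ := by
    rw [eq_top_iff, ← hSgen]
    exact Subgroup.closure_mono (Set.subset_insert _ _)
  have hST : ∀ s ∈ S, s ∈ T := fun s hs => Set.mem_insert_of_mem _ hs
  -- representatives
  let R : Finset Γ := S.filter (fun s => WellOrderingRel s s⁻¹)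
  have hRS : ∀ s ∈ R, s ∈ S := fun s hs => (Finset.mem_filter.mp hs).1
  have hcases : ∀ s ∈ S, s ∈ R ∨ s⁻¹ ∈ R := by
    intro s hs
    rcases trichotomous_of WellOrderingRel s s⁻¹ with h | h | h
    · exact Or.inl (Finset.mem_filter.mpr ⟨hs, h⟩)
    · exact absurd h (not_isOfFinOrder_ne_inv (hSinf s hs))
    · exact Or.inr (Finset.mem_filter.mpr ⟨hSinv s hs, by rwa [inv_inv]⟩)
  have hRinv : ∀ s ∈ R, s⁻¹ ∉ R := by
    intro s hs hs'
    have h1 := (Finset.mem_filter.mp hs).2
    have h2 := (Finset.mem_filter.mp hs').2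
    rw [inv_inv] at h2
    exact asymm_of WellOrderingRel h1 h2
  have hgenq : ∀ (K : Subgroup Γ) [K.Normal],
      closure ((S.image (QuotientGroup.mk : Γ → Γ ⧸ K) : Finset (Γ ⧸ K)) : Set (Γ ⧸ K)) = ⊤ := by
    intro K _
    rw [Finset.coe_image]
    have h1 := MonoidHom.map_closure (QuotientGroup.mk' K) (S : Set Γ)
    rw [hSgen, ← MonoidHom.range_eq_map, MonoidHom.range_eq_top.mpr
      (QuotientGroup.mk'_surjective K)] at h1
    exact h1.symm
  by_cases hS6 : S.card = 6
  · -- class at most two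
    have h2 := hex.resolve_left (fun h => h hS6)
    obtain ⟨K, hKn, hK, hG⟩ := exists_isolator hL h2
    have hmki : ∀ a : Γ, (QuotientGroup.mk a⁻¹ : Γ ⧸ K) = (QuotientGroup.mk a)⁻¹ := fun _ => rfl
    have hS1 : ∀ s ∈ S, (QuotientGroup.mk s : Γ ⧸ K) ≠ 1 := by
      intro s hs h
      exact hSinf s hs (hK.isOfFinOrder ((QuotientGroup.eq_one_iff s).mp h))
    have hnp : ∃ x ∈ R, ∃ y ∈ R, ¬ Par (QuotientGroup.mk x : Γ ⧸ K) (QuotientGroup.mk y) := by
      by_contra hcon
      push Not at hcon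
      apply hcyc K hKn hK
      by_cases hemp : ∃ s0, s0 ∈ R
      · obtain ⟨s0, hs0⟩ := hemp
        refine hG.cyclic_of_par (s0 := QuotientGroup.mk s0) _ ?_ (hgenq K)
        intro x hx
        obtain ⟨s, hs, rfl⟩ := Finset.mem_image.mp hx
        rcases hcases s hs with h | h
        · exact hcon s h s0 hs0
        · have := hcon _ h s0 hs0
          rw [hmki] at this
          exact par_inv_left.mp this
      · push Not at hemp
        refine hG.cyclic_of_par (s0 := 1) _ ?_ (hgenq K)
        intro x hx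
        obtain ⟨s, hs, rfl⟩ := Finset.mem_image.mp hx
        rcases hcases s hs with h | h
        · exact absurd h (hemp s)
        · exact absurd h (hemp _)
    obtain ⟨col, hcol⟩ := splits_of_not_par hK hG _ R rfl (fun x hx => hS1 x (hRS x hx)) hnp
    refine block_of_splitsB hRS hSinv hcases hRinv ⟨col, fun n => ?_⟩
    refine borelBlock_of_flexible hX hT1 hT hgen hsep ?_ ?_ (hcol n)
    · rintro s (hs | hs)
      · right; rw [Set.mem_inv, inv_inv]; exact hs
      · left; exact hs
    · rintro s (hs | hs)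
      · exact hST s (hRS s hs.1)
      · have := hT _ (hST _ (hRS _ hs.1))
        rwa [inv_inv] at this
  · obtain ⟨K, hKn, hK, hnilK, hTF, hKmem⟩ := exists_isolator_nil hL hnil
    have hmki : ∀ a : Γ, (QuotientGroup.mk a⁻¹ : Γ ⧸ K) = (QuotientGroup.mk a)⁻¹ := fun _ => rfl
    have hS1 : ∀ s ∈ S, (QuotientGroup.mk s : Γ ⧸ K) ≠ 1 := by
      intro s hs h
      exact hSinf s hs (hK.isOfFinOrder ((QuotientGroup.eq_one_iff s).mp h))
    have hnp : ∃ x ∈ R, ∃ y ∈ R, ¬ Par (QuotientGroup.mk x : Γ ⧸ K) (QuotientGroup.mk y) := by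
      by_contra hcon
      push Not at hcon
      apply hcyc K hKn hK
      by_cases hemp : ∃ s0, s0 ∈ R
      · obtain ⟨s0, hs0⟩ := hemp
        refine cyclic_of_par_nil hTF (s0 := QuotientGroup.mk s0) _ ?_ (hgenq K)
        intro x hx
        obtain ⟨s, hs, rfl⟩ := Finset.mem_image.mp hx
        rcases hcases s hs with h | h
        · exact hcon s h s0 hs0
        · have := hcon _ h s0 hs0
          rw [hmki] at this
          exact par_inv_left.mp this
      · push Not at hemp
        refine cyclic_of_par_nil hTF (s0 := 1) _ ?_ (hgenq K)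
        intro x hx
        obtain ⟨s, hs, rfl⟩ := Finset.mem_image.mp hx
        rcases hcases s hs with h | h
        · exact absurd h (hemp s)
        · exact absurd h (hemp _)
    have h3 : R.card = 3 → ∃ x ∈ R, ∃ y ∈ R, x ≠ y ∧
        Par (QuotientGroup.mk x : Γ ⧸ K) (QuotientGroup.mk y) := by
      intro hR3
      exfalso
      apply hS6
      have h1 : S = R ∪ R.image (fun s => s⁻¹) := by
        ext s
        simp only [Finset.mem_union, Finset.mem_image]
        constructor
        · intro h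
          rcases hcases s h with h' | h'
          · exact Or.inl h'
          · exact Or.inr ⟨s⁻¹, h', inv_inv s⟩
        · rintro (h | ⟨t, h, rfl⟩)
          · exact hRS s h
          · exact hSinv t (hRS t h)
      have h2 : Disjoint R (R.image (fun s => s⁻¹)) := by
        rw [Finset.disjoint_left]
        intro s hs hs'
        obtain ⟨t, ht, rfl⟩ := Finset.mem_image.mp hs'
        exact hRinv t ht hs
      rw [h1, Finset.card_union_of_disjoint h2, Finset.card_image_of_injective _ inv_injective,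
        hR3]
    exact block_of_splitsB hRS hSinv hcases hRinv
      (splits_nil hX hT1 hT hTfin hsep hK hTF _ R rfl (fun x hx => hS1 x (hRS x hx))
        (fun x hx => hST x (hRS x hx)) hnp h3)

end blocks

end Run7.h916
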