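import Pool.Agent.Run7.h916.NilHom
import Pool.Agent.Run7.h916.ClassTwo

set_option autoImplicit false
set_option linter.unusedSectionVars false
set_option linter.unusedVariables false

/-!
Nilpotent groups: torsion elements, parallel elements, homomorphisms to the integers.
-/

namespace Run7.h916

open Subgroup
open scoped Pointwise commutatorElement

universe u v

/-- Nilpotent groups generated by finitely many elements of finite order are finite. -/
theorem finite_of_torsion_gen (G : Type u) [Group G] [Group.IsNilpotent G] :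
    ∀ s : Finset G, closure (s : Set G) = ⊤ → (∀ x ∈ s, IsOfFinOrder x) → Finite G := by
  classical
  refine Group.nilpotent_center_quotient_ind (P := fun G _ _ =>
    ∀ s : Finset G, closure (s : Set G) = ⊤ → (∀ x ∈ s, IsOfFinOrder x) → Finite G) G ?_ ?_
  · intro G _ _ s _ _
    infer_instance
  · intro G _ _ ih s hs hfin
    have hsurj := QuotientGroup.mk'_surjective (center G)
    have h1 : Finite (G ⧸ center G) := by
      refine ih (s.image (QuotientGroup.mk' (center G))) ?_ ?_
      · rw [Finset.coe_image, ← MonoidHom.map_closure, hs, ← MonoidHom.range_eq_map]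
        exact MonoidHom.range_eq_top.mpr hsurj
      · intro x hx
        obtain ⟨y, hy, rfl⟩ := Finset.mem_image.mp hx
        exact MonoidHom.isOfFinOrder _ (hfin y hy)
    have h2 : Finite (commutatorSet G) := by
      have hsub : commutatorSet G ⊆ Set.range (fun p : (G ⧸ center G) × (G ⧸ center G) =>
          ⁅p.1.out, p.2.out⁆) := by
        rintro _ ⟨a, b, rfl⟩
        refine ⟨(QuotientGroup.mk a, QuotientGroup.mk b), ?_⟩
        have ha : ∃ z ∈ center G, (QuotientGroup.mk a : G ⧸ center G).out = a * z := by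
          have : ((QuotientGroup.mk a : G ⧸ center G).out : G ⧸ center G) = QuotientGroup.mk a :=
            Quotient.out_eq' _
          refine ⟨a⁻¹ * (QuotientGroup.mk a : G ⧸ center G).out, ?_, by group⟩
          exact QuotientGroup.eq.mp this.symm
        have hb : ∃ z ∈ center G, (QuotientGroup.mk b : G ⧸ center G).out = b * z := by
          have : ((QuotientGroup.mk b : G ⧸ center G).out : G ⧸ center G) = QuotientGroup.mk b :=
            Quotient.out_eq' _
          refine ⟨b⁻¹ * (QuotientGroup.mk b : G ⧸ center G).out, ?_, by group⟩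
          exact QuotientGroup.eq.mp this.symm
        obtain ⟨z, hz, hz'⟩ := ha
        obtain ⟨w, hw, hw'⟩ := hb
        simp only
        rw [hz', hw']
        have hzc := mem_center_iff.mp hz
        have hwc := mem_center_iff.mp hw
        rw [commutatorElement_def, commutatorElement_def]
        have e1 : (a * z)⁻¹ = z⁻¹ * a⁻¹ := by group
        have e2 : (b * w)⁻¹ = w⁻¹ * b⁻¹ := by group
        rw [e1, e2]
        calc a * z * (b * w) * (z⁻¹ * a⁻¹) * (w⁻¹ * b⁻¹)
            = a * (z * (b * w)) * z⁻¹ * a⁻¹ * w⁻¹ * b⁻¹ := by group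
          _ = a * ((b * w) * z) * z⁻¹ * a⁻¹ * w⁻¹ * b⁻¹ := by rw [hzc (b * w)]
          _ = a * b * (w * a⁻¹) * w⁻¹ * b⁻¹ := by group
          _ = a * b * (a⁻¹ * w) * w⁻¹ * b⁻¹ := by rw [hwc a⁻¹]
          _ = a * b * a⁻¹ * b⁻¹ := by group
      exact Set.finite_coe_iff.mpr ((Set.finite_range _).subset hsub)
    have h3 : Finite (_root_.commutator G) := inferInstance
    have h4 : Finite (Abelianization G) := by
      have hfg : Group.FG G := (Group.fg_iff).mpr ⟨s, hs, s.finite_toSet⟩
      have hfga : Group.FG (Abelianization G) := QuotientGroup.fg (_root_.commutator G)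
      refine CommGroup.finite_of_fg_isMulTorsion _ ?_
      intro x
      have hle : closure ((s.image Abelianization.of : Finset (Abelianization G)) :
          Set (Abelianization G)) ≤ CommGroup.torsion (Abelianization G) := by
        rw [closure_le]
        intro y hy
        rw [Finset.coe_image] at hy
        obtain ⟨z, hz, rfl⟩ := hy
        exact MonoidHom.isOfFinOrder _ (hfin z hz)
      have htop : closure ((s.image Abelianization.of : Finset (Abelianization G)) :
          Set (Abelianization G)) = ⊤ := by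
        rw [Finset.coe_image, ← MonoidHom.map_closure, hs, ← MonoidHom.range_eq_map]
        exact MonoidHom.range_eq_top.mpr (QuotientGroup.mk'_surjective (_root_.commutator G))
      rw [htop] at hle
      exact hle (mem_top x)
    have h4' : Finite (G ⧸ _root_.commutator G) := h4
    exact Finite.of_equiv _
      (Subgroup.groupEquivQuotientProdSubgroup (s := _root_.commutator G)).symm

theorem torsion_mul_nil {G : Type u} [Group G] [Group.IsNilpotent G] {x y : G}
    (hx : IsOfFinOrder x) (hy : IsOfFinOrder y) : IsOfFinOrder (x * y) := by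
  classical
  set H : Subgroup G := closure {x, y} with hH
  have hxH : x ∈ H := subset_closure (by simp)
  have hyH : y ∈ H := subset_closure (by simp)
  have hfin : Finite H := by
    refine finite_of_torsion_gen H {⟨x, hxH⟩, ⟨y, hyH⟩} ?_ ?_
    · have h1 : ((({⟨x, hxH⟩, ⟨y, hyH⟩} : Finset H) : Set H)) =
          Subtype.val ⁻¹' ({x, y} : Set G) := by
        ext z
        simp only [Finset.coe_insert, Finset.coe_singleton, Set.mem_insert_iff,
          Set.mem_singleton_iff, Set.mem_preimage]
        constructor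
        · rintro (rfl | rfl)
          · exact Or.inl rfl
          · exact Or.inr rfl
        · rintro (h | h)
          · exact Or.inl (Subtype.ext h)
          · exact Or.inr (Subtype.ext h)
      rw [h1]
      exact Subgroup.closure_closure_coe_preimage
    · intro z hz
      simp only [Finset.mem_insert, Finset.mem_singleton] at hz
      rcases hz with rfl | rfl
      · exact isOfFinOrder_subgroup.mpr hx
      · exact isOfFinOrder_subgroup.mpr hy
  have h := isOfFinOrder_of_finite (⟨x, hxH⟩ * ⟨y, hyH⟩ : H)
  exact isOfFinOrder_subgroup.mp h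

variable {Γ : Type u} [Group Γ]

/-- The isolator of a locally finite normal subgroup with nilpotent quotient. -/
theorem exists_isolator_nil {L : Subgroup Γ} [hLn : L.Normal] (hL : IsLocallyFinite L)
    (hnil : Group.IsNilpotent (Γ ⧸ L)) :
    ∃ K : Subgroup Γ, ∃ _ : K.Normal, IsLocallyFinite K ∧ Group.IsNilpotent (Γ ⧸ K) ∧
      TF (Γ ⧸ K) ∧ ∀ x, x ∈ K ↔ IsOfFinOrder x := by
  let K : Subgroup Γ :=
    { carrier := {x | IsOfFinOrder (QuotientGroup.mk x : Γ ⧸ L)}
      one_mem' := by
        show IsOfFinOrder (QuotientGroup.mk 1 : Γ ⧸ L)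
        exact IsOfFinOrder.one
      mul_mem' := fun {a b} ha hb => torsion_mul_nil ha hb
      inv_mem' := fun {a} ha => by
        show IsOfFinOrder (QuotientGroup.mk a : Γ ⧸ L)⁻¹
        exact isOfFinOrder_inv_iff.mpr ha }
  have hKmem : ∀ x, x ∈ K ↔ IsOfFinOrder (QuotientGroup.mk x : Γ ⧸ L) := fun x => Iff.rfl
  have hKn : K.Normal := ⟨fun a ha g => by
    rw [hKmem] at ha ⊢
    obtain ⟨n, hn, h⟩ := isOfFinOrder_iff_pow_eq_one.mp ha
    rw [isOfFinOrder_iff_pow_eq_one]
    refine ⟨n, hn, ?_⟩
    show ((QuotientGroup.mk g : Γ ⧸ L) * QuotientGroup.mk a * (QuotientGroup.mk g)⁻¹) ^ n = 1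
    rw [conj_pow, h, mul_one, mul_inv_cancel]⟩
  have hLK : ∀ x ∈ L, x ∈ K := by
    intro x hx
    rw [hKmem, (QuotientGroup.eq_one_iff x).mpr hx]
    exact IsOfFinOrder.one
  have hKL : IsLocallyFinite K := by
    intro F hFK hF
    refine finite_of_finite_map hL hF ?_
    obtain ⟨s, hs⟩ := hF
    classical
    have hmap : F.map (QuotientGroup.mk' L) =
        closure ((s.image (QuotientGroup.mk' L) : Finset (Γ ⧸ L)) : Set (Γ ⧸ L)) := by
      rw [Finset.coe_image, ← MonoidHom.map_closure, hs]
    have hnilF : Group.IsNilpotent (F.map (QuotientGroup.mk' L)) := inferInstance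
    have hmem : ∀ x ∈ s.image (QuotientGroup.mk' L), x ∈ F.map (QuotientGroup.mk' L) := by
      intro x hx
      rw [hmap]
      exact subset_closure (by exact_mod_cast hx)
    have hfin : Finite (F.map (QuotientGroup.mk' L)) := by
      refine finite_of_torsion_gen _ ((s.image (QuotientGroup.mk' L)).attach.image
        (fun x => (⟨x.1, hmem x.1 x.2⟩ : F.map (QuotientGroup.mk' L)))) ?_ ?_
      · rw [eq_top_iff]
        rintro ⟨x, hx⟩ -
        have hx' := hx
        rw [hmap] at hx'
        have key : ∀ y (hy : y ∈ closure ((s.image (QuotientGroup.mk' L) : Finset (Γ ⧸ L)) :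
            Set (Γ ⧸ L))) (hy' : y ∈ F.map (QuotientGroup.mk' L)),
            (⟨y, hy'⟩ : F.map (QuotientGroup.mk' L)) ∈ closure
              (((s.image (QuotientGroup.mk' L)).attach.image
              (fun x => (⟨x.1, hmem x.1 x.2⟩ : F.map (QuotientGroup.mk' L))) :
              Finset (F.map (QuotientGroup.mk' L))) : Set (F.map (QuotientGroup.mk' L))) := by
          intro y hy
          induction hy using Subgroup.closure_induction with
          | mem y hy =>
            intro hy'
            apply Subgroup.subset_closure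
            rw [Finset.mem_coe, Finset.mem_image]
            exact ⟨⟨y, by exact_mod_cast hy⟩, Finset.mem_attach _ _, rfl⟩
          | one => intro hy'; exact one_mem _
          | mul a b ha hb iha ihb =>
            intro hy'
            have ha' : a ∈ F.map (QuotientGroup.mk' L) := by rw [hmap]; exact ha
            have hb' : b ∈ F.map (QuotientGroup.mk' L) := by rw [hmap]; exact hb
            exact mul_mem (iha ha') (ihb hb')
          | inv a ha iha =>
            intro hy'
            have ha' : a ∈ F.map (QuotientGroup.mk' L) := by rw [hmap]; exact ha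
            exact inv_mem (iha ha')
        exact key x hx' hx
      · intro x hx
        rw [Finset.mem_image] at hx
        obtain ⟨⟨y, hy⟩, _, rfl⟩ := hx
        rw [isOfFinOrder_subgroup]
        obtain ⟨z, hz, rfl⟩ := Finset.mem_image.mp hy
        have hzF : z ∈ F := by
          rw [← hs]
          exact subset_closure (by exact_mod_cast hz)
        exact (hKmem z).mp (hFK hzF)
    exact Set.toFinite _
  refine ⟨K, hKn, hKL, ?_, ?_, ?_⟩
  · refine Group.nilpotent_of_surjective (QuotientGroup.map L K (MonoidHom.id Γ) (fun x hx => ?_))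
      ?_
    · exact hLK x hx
    · intro x
      obtain ⟨x, rfl⟩ := QuotientGroup.mk_surjective x
      exact ⟨QuotientGroup.mk x, rfl⟩
  · intro g n hn hg
    obtain ⟨x, rfl⟩ := QuotientGroup.mk_surjective g
    have h1 : x ^ n ∈ K := by
      rw [← QuotientGroup.eq_one_iff]
      exact hg
    rw [QuotientGroup.eq_one_iff, hKmem]
    rw [hKmem] at h1
    obtain ⟨m, hm, h⟩ := isOfFinOrder_iff_pow_eq_one.mp h1
    rw [isOfFinOrder_iff_pow_eq_one]
    refine ⟨n * m, Nat.mul_pos hn hm, ?_⟩
    rw [pow_mul]
    exact h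
  · intro x
    constructor
    · intro hx
      exact hKL.isOfFinOrder hx
    · intro hx
      rw [hKmem]
      exact MonoidHom.isOfFinOrder (QuotientGroup.mk' L) hx

section par

variable {G : Type u} [Group G] [Group.IsNilpotent G] (hTF : TF G)

include hTF in
theorem par_comm_nil {x y : G} (h : Par x y) : Commute x y := by
  obtain ⟨m, n, hm, hn, h⟩ := h
  have h1 : (y⁻¹ * x * y) ^ m = x ^ m := by
    have e : y⁻¹ * x * y = y⁻¹ * x * (y⁻¹)⁻¹ := by rw [inv_inv]
    rw [e, conj_zpow, h, inv_inv]
    have : Commute y (y ^ n) := (Commute.refl y).zpow_right n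
    rw [mul_assoc, ← this.eq, inv_mul_cancel_left]
  have h2 : y⁻¹ * x * y = x := by
    have hpos : 0 < m.natAbs := Int.natAbs_pos.mpr hm
    refine unique_roots G hTF _ _ m.natAbs hpos ?_
    rcases Int.natAbs_eq m with h3 | h3
    · rw [h3, zpow_natCast, zpow_natCast] at h1
      exact h1
    · rw [h3, zpow_neg, zpow_neg, zpow_natCast, zpow_natCast, inv_inj] at h1
      exact h1
  have h3 : x * y = y * x := by
    calc x * y = y * (y⁻¹ * x * y) := by group
      _ = y * x := by rw [h2]
  exact h3

include hTF in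
theorem par_two_nil {x y : G} (h : Par x y) :
    ∃ w, x ∈ zpowers w ∧ y ∈ zpowers w ∧ Par w x ∧ w ∈ closure ({x, y} : Set G) := by
  have hc : Commute x y := par_comm_nil hTF h
  obtain ⟨m, n, hm, hn, h⟩ := h
  have hpos : 0 < Int.gcd m n := Int.gcd_pos_of_ne_zero_left _ hm
  obtain ⟨m', n', hg, hm', hn'⟩ := Int.exists_gcd_one hpos
  obtain ⟨u, v, huv⟩ := Int.isCoprime_iff_gcd_eq_one.mpr hg
  have hg0 : (Int.gcd m n : ℤ) ≠ 0 := by exact_mod_cast hpos.ne'
  have e : x ^ m' = y ^ n' := by
    have h1 : (x ^ m' * y ^ (-n')) ^ (Int.gcd m n : ℤ) = 1 := by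
      rw [(hc.zpow_zpow m' (-n')).mul_zpow, ← zpow_mul, ← zpow_mul, ← hm', neg_mul, ← hn', h,
        zpow_neg, mul_inv_cancel]
    have h2 := hTF.zpow hg0 h1
    rw [zpow_neg] at h2
    exact mul_inv_eq_one.mp h2
  have hn0 : n' ≠ 0 := by
    intro h0
    rw [h0, zero_mul] at hn'
    exact hn hn'
  have hw1 : (x ^ v * y ^ u) ^ n' = x := by
    rw [(hc.zpow_zpow v u).mul_zpow, ← zpow_mul y, mul_comm u n', zpow_mul y, ← e, ← zpow_mul,
      ← zpow_mul, ← zpow_add]
    have : v * n' + m' * u = 1 := by linarith
    rw [this, zpow_one]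
  have hw2 : (x ^ v * y ^ u) ^ m' = y := by
    rw [(hc.zpow_zpow v u).mul_zpow, ← zpow_mul x, mul_comm v m', zpow_mul x, e, ← zpow_mul,
      ← zpow_mul, ← zpow_add]
    have : n' * v + u * m' = 1 := by linarith
    rw [this, zpow_one]
  refine ⟨x ^ v * y ^ u, ⟨n', hw1⟩, ⟨m', hw2⟩, ⟨n', 1, hn0, one_ne_zero, by rw [hw1, zpow_one]⟩,
    ?_⟩
  exact mul_mem (zpow_mem (subset_closure (by simp)) _) (zpow_mem (subset_closure (by simp)) _)

include hTF in
theorem par_finset_nil {s0 : G} (T : Finset G) (h : ∀ x ∈ T, Par x s0) :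
    ∃ w, Par w s0 ∧ ∀ x ∈ T, x ∈ zpowers w := by
  classical
  induction T using Finset.induction_on with
  | empty => exact ⟨s0, Par.refl _, fun x hx => absurd hx (Finset.notMem_empty _)⟩
  | @insert a T _ ih =>
    obtain ⟨w, hw, hw'⟩ := ih fun x hx => h x (Finset.mem_insert_of_mem hx)
    obtain ⟨w', h1, h2, h3, _⟩ := par_two_nil hTF
      ((h a (Finset.mem_insert_self _ _)).trans hw.symm)
    refine ⟨w', h3.trans (h a (Finset.mem_insert_self _ _)), fun x hx => ?_⟩
    rcases Finset.mem_insert.mp hx with rfl | hx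
    · exact h1
    · exact (zpowers_le.mpr h2) (hw' x hx)

include hTF in
/-- A torsion-free nilpotent group generated by parallel elements is cyclic. -/
theorem cyclic_of_par_nil {s0 : G} (T : Finset G) (h : ∀ x ∈ T, Par x s0)
    (hT : closure (T : Set G) = ⊤) : IsCyclic G := by
  obtain ⟨w, _, hw⟩ := par_finset_nil hTF T h
  refine ⟨w, fun x => ?_⟩
  have : (⊤ : Subgroup G) ≤ zpowers w := by
    rw [← hT, closure_le]
    exact hw
  exact this (mem_top x)

theorem not_cyclic_of_not_par {x y : G} (hx : x ≠ 1) (hy : y ≠ 1) (h : ¬ Par x y) :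
    ¬ IsCyclic (closure ({x, y} : Set G) : Subgroup G) := by
  intro hc
  obtain ⟨⟨c, hcm⟩, hc⟩ := hc.exists_generator
  have hxm : x ∈ closure ({x, y} : Set G) := subset_closure (by simp)
  have hym : y ∈ closure ({x, y} : Set G) := subset_closure (by simp)
  obtain ⟨i, hi⟩ := mem_zpowers_iff.mp (hc ⟨x, hxm⟩)
  obtain ⟨j, hj⟩ := mem_zpowers_iff.mp (hc ⟨y, hym⟩)
  have hi' : c ^ i = x := congrArg Subtype.val hi
  have hj' : c ^ j = y := congrArg Subtype.val hj
  apply h
  refine ⟨j, i, ?_, ?_, ?_⟩
  · rintro rfl
    exact hy (by rw [← hj', zpow_zero])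
  · rintro rfl
    exact hx (by rw [← hi', zpow_zero])
  · rw [← hi', ← hj', ← zpow_mul, ← zpow_mul, mul_comm]

end par

theorem exists_hom_int_comm (G : Type u) [CommGroup G] [Group.FG G] (hTF : TF G)
    [Nontrivial G] :
    ∃ φ : G →* Multiplicative ℤ, ∃ x, φ x = Multiplicative.ofAdd 1 := by
  classical
  obtain ⟨ι, j, _, _, p, hp, e, ⟨f⟩⟩ := CommGroup.equiv_free_prod_prod_multiplicative_zmod G
  have hfin : ∀ i, NeZero (p i ^ e i) := fun i => ⟨pow_ne_zero _ (hp i).ne_zero⟩
  have hfin' : ∀ i, Finite (Multiplicative (ZMod (p i ^ e i))) := fun i =>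
    Finite.of_equiv (ZMod (p i ^ e i)) Multiplicative.ofAdd
  have hfin2 : Finite ((i : ι) → Multiplicative (ZMod (p i ^ e i))) := Pi.finite
  have hsnd : ∀ b : (i : ι) → Multiplicative (ZMod (p i ^ e i)), b = 1 := by
    intro b
    obtain ⟨n, hn, h⟩ := isOfFinOrder_iff_pow_eq_one.mp (isOfFinOrder_of_finite b)
    have h1 : f.symm (1, b) = 1 := by
      refine hTF _ n hn ?_
      rw [← map_pow, Prod.pow_mk, one_pow, h]
      exact map_one _
    have h2 : ((1 : j → Multiplicative ℤ), b) = 1 := by
      rw [← f.apply_symm_apply (1, b), h1, map_one]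
    exact congrArg Prod.snd h2
  have hj : Nonempty j := by
    by_contra hj
    rw [not_nonempty_iff] at hj
    obtain ⟨x, hx⟩ := exists_ne (1 : G)
    apply hx
    rw [← f.symm_apply_apply x, ← map_one f.symm]
    congr 1
    exact Prod.ext (Subsingleton.elim _ _) (hsnd _)
  obtain ⟨j0⟩ := hj
  refine ⟨(Pi.evalMonoidHom (fun _ : j => Multiplicative ℤ) j0).comp
    ((MonoidHom.fst _ _).comp f.toMonoidHom),
    f.symm (fun _ => Multiplicative.ofAdd 1, 1), ?_⟩
  simp

/-- Finitely generated torsion-free nilpotent groups have nontrivial homomorphisms onto the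
integers. -/
theorem exists_hom_int (G : Type u) [Group G] [Group.IsNilpotent G] :
    TF G → Group.FG G → Nontrivial G →
      ∃ φ : G →* Multiplicative ℤ, ∃ x, φ x = Multiplicative.ofAdd 1 := by
  refine Group.nilpotent_center_quotient_ind (P := fun G _ _ =>
    TF G → Group.FG G → Nontrivial G →
      ∃ φ : G →* Multiplicative ℤ, ∃ x, φ x = Multiplicative.ofAdd 1) G ?_ ?_
  · intro G _ _ _ _ hnt
    exact absurd hnt (not_nontrivial G)
  · intro G _ _ ih hTF hfg hnt
    by_cases hq : Nontrivial (G ⧸ center G)
    · obtain ⟨φ, x, hx⟩ := ih hTF.quotient_center (QuotientGroup.fg (center G)) hq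
      obtain ⟨y, rfl⟩ := QuotientGroup.mk'_surjective (center G) x
      exact ⟨φ.comp (QuotientGroup.mk' (center G)), y, hx⟩
    · rw [not_nontrivial_iff_subsingleton] at hq
      have hcomm : ∀ a b : G, a * b = b * a := by
        intro a b
        have : a ∈ center G := by
          rw [← QuotientGroup.eq_one_iff]
          exact Subsingleton.elim _ _
        exact (mem_center_iff.mp this b).symm
      let _ : CommGroup G := { (inferInstance : Group G) with mul_comm := hcomm }
      exact exists_hom_int_comm G hTF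

end Run7.h916
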