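import Pool.Agent.Run7.h916.Growth

set_option autoImplicit false
set_option linter.unusedSectionVars false
set_option linter.unusedVariables false

/-!
Torsion-free nilpotent groups: roots, and homomorphisms onto the integers.
-/

namespace Run7.h916

open Set
open scoped commutatorElement

universe u v w

/-- The group has no nontrivial elements of finite order. -/
def TF (K : Type u) [Group K] : Prop := ∀ (x : K) (n : ℕ), 0 < n → x ^ n = 1 → x = 1

variable {K : Type u} [Group K]

theorem TF.zpow (h : TF K) {x : K} {n : ℤ} (hn : n ≠ 0) (hx : x ^ n = 1) : x = 1 := by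
  refine h x n.natAbs (Int.natAbs_pos.mpr hn) ?_
  rcases Int.natAbs_eq n with h' | h'
  · rw [h'] at hx
    simpa using hx
  · rw [h'] at hx
    simpa using hx

theorem ucs_step (hTF : TF K) (i : ℕ) : ∀ (x : K) (n : ℕ), 0 < n →
    x ∈ Subgroup.upperCentralSeries K (i + 1) → x ^ n ∈ Subgroup.upperCentralSeries K i →
    x ∈ Subgroup.upperCentralSeries K i := by
  induction i with
  | zero =>
    intro x n hn _ hx
    rw [Subgroup.upperCentralSeries_zero, Subgroup.mem_bot] at hx ⊢
    exact hTF x n hn hx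
  | succ i ih =>
    intro x n hn hx hxn
    rw [Subgroup.mem_upperCentralSeries_succ_iff] at hxn ⊢
    intro y
    have hu : ⁅x, y⁆ ∈ Subgroup.upperCentralSeries K (i + 1) :=
      Subgroup.mem_upperCentralSeries_succ_iff.mp hx y
    refine ih _ n hn hu ?_
    have key : ∀ k : ℕ, ((⁅x ^ k, y⁆ : K) : K ⧸ Subgroup.upperCentralSeries K i) =
        ((⁅x, y⁆ ^ k : K) : K ⧸ Subgroup.upperCentralSeries K i) := by
      intro k
      induction k with
      | zero => simp
      | succ k ihk =>
        have e1 : ⁅x ^ (k + 1), y⁆ = (x ^ k * ⁅x, y⁆ * (x ^ k)⁻¹) * ⁅x ^ k, y⁆ := by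
          simp only [commutatorElement_def, pow_succ]
          group
        have h2 := (Subgroup.mem_upperCentralSeries_succ_iff.mp hu) (x ^ k)⁻¹
        have h3 : ((⁅x, y⁆ : K) : K ⧸ Subgroup.upperCentralSeries K i) =
            ((x ^ k * ⁅x, y⁆ * (x ^ k)⁻¹ : K) : K ⧸ Subgroup.upperCentralSeries K i) := by
          rw [QuotientGroup.eq]
          have h4 := (Subgroup.mem_upperCentralSeries_succ_iff.mp (inv_mem hu)) (x ^ k)
          have e2 : ⁅x, y⁆⁻¹ * (x ^ k * ⁅x, y⁆ * (x ^ k)⁻¹) = ⁅⁅x, y⁆⁻¹, x ^ k⁆ := by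
            rw [commutatorElement_def (⁅x, y⁆⁻¹)]; group
          rw [e2]
          exact h4
        rw [e1, QuotientGroup.mk_mul, ← h3, ihk, ← QuotientGroup.mk_mul, ← pow_succ']
    have h5 := key n
    rw [QuotientGroup.eq] at h5
    have h6 := hxn y
    have : ⁅x, y⁆ ^ n = ⁅x ^ n, y⁆ * (⁅x ^ n, y⁆⁻¹ * ⁅x, y⁆ ^ n) := by group
    rw [this]
    exact mul_mem h6 h5

theorem ucs_root [Group.IsNilpotent K] (hTF : TF K) {x : K} {n i : ℕ} (hn : 0 < n)
    (hx : x ^ n ∈ Subgroup.upperCentralSeries K i) : x ∈ Subgroup.upperCentralSeries K i := by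
  obtain ⟨c, hc⟩ := Group.IsNilpotent.nilpotent K
  have key : ∀ j, x ∈ Subgroup.upperCentralSeries K (i + (c - j)) := by
    intro j
    induction j with
    | zero =>
      have : x ∈ Subgroup.upperCentralSeries K c := by rw [hc]; trivial
      exact Subgroup.upperCentralSeries_mono K (by omega) this
    | succ j ih =>
      by_cases hj : c - j = 0
      · have : c - (j + 1) = c - j := by omega
        rw [this]; exact ih
      · have h1 : i + (c - j) = i + (c - (j + 1)) + 1 := by omega
        rw [h1] at ih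
        exact ucs_step hTF _ x n hn ih (Subgroup.upperCentralSeries_mono K (by omega) hx)
  have := key c
  simpa using this

theorem TF.quotient_center [Group.IsNilpotent K] (hTF : TF K) : TF (K ⧸ Subgroup.center K) := by
  intro x n hn hx
  obtain ⟨x, rfl⟩ := QuotientGroup.mk_surjective x
  rw [← QuotientGroup.mk_pow, QuotientGroup.eq_one_iff, ← Subgroup.upperCentralSeries_one] at hx
  rw [QuotientGroup.eq_one_iff, ← Subgroup.upperCentralSeries_one]
  exact ucs_root hTF hn hx

theorem unique_roots (K : Type u) [Group K] [Group.IsNilpotent K] :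
    TF K → ∀ (x y : K) (n : ℕ), 0 < n → x ^ n = y ^ n → x = y := by
  refine Group.nilpotent_center_quotient_ind (P := fun K _ _ =>
    TF K → ∀ (x y : K) (n : ℕ), 0 < n → x ^ n = y ^ n → x = y) K ?_ ?_
  · intro G _ _ _ x y _ _ _
    exact Subsingleton.elim _ _
  · intro G _ _ ih hTF x y n hn hxy
    have h1 := ih hTF.quotient_center (x : G ⧸ Subgroup.center G) y n hn (by
      rw [← QuotientGroup.mk_pow, hxy, QuotientGroup.mk_pow])
    rw [QuotientGroup.eq] at h1
    have h2 : y = x * (x⁻¹ * y) := by group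
    have hc : Commute x (x⁻¹ * y) := ((Subgroup.mem_center_iff.mp h1) x)
    rw [h2, hc.mul_pow] at hxy
    have h3 : (x⁻¹ * y) ^ n = 1 := by
      have := mul_eq_left.mp hxy.symm
      exact this
    have h4 := hTF _ n hn h3
    rw [h2, h4, mul_one]

/-- If `v` and a conjugate of `v` generate a cyclic group, then they are equal. -/
theorem commute_of_cyclic [Group.IsNilpotent K] (hTF : TF K) {v w : K}
    (h : IsCyclic (Subgroup.closure {v, w⁻¹ * v * w} : Subgroup K)) : w⁻¹ * v * w = v := by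
  by_cases hv : v = 1
  · rw [hv]; group
  obtain ⟨⟨c, hcm⟩, hc⟩ := h.exists_generator
  have hv' : v ∈ Subgroup.closure {v, w⁻¹ * v * w} := Subgroup.subset_closure (by simp)
  have hw' : w⁻¹ * v * w ∈ Subgroup.closure {v, w⁻¹ * v * w} := Subgroup.subset_closure (by simp)
  obtain ⟨i, hi⟩ := Subgroup.mem_zpowers_iff.mp (hc ⟨v, hv'⟩)
  obtain ⟨j, hj⟩ := Subgroup.mem_zpowers_iff.mp (hc ⟨_, hw'⟩)
  have hi' : c ^ i = v := congrArg Subtype.val hi
  have hj' : c ^ j = w⁻¹ * v * w := congrArg Subtype.val hj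
  have h1 : v ^ j = (w⁻¹ * v * w) ^ i := by
    rw [← hj', ← hi', ← zpow_mul, ← zpow_mul, mul_comm]
  have h2 : (w⁻¹ * v * w) ^ i = w⁻¹ * v ^ i * w := by
    have := conj_zpow (a := w⁻¹) (b := v) (i := i)
    rw [inv_inv] at this
    exact this
  have hi0 : i ≠ 0 := by
    rintro rfl
    rw [zpow_zero] at hi'
    exact hv hi'.symm
  classical
  obtain ⟨n0, hn0⟩ := Group.IsNilpotent.nilpotent K
  have hex : ∃ k, v ∈ Subgroup.upperCentralSeries K k := ⟨n0, by rw [hn0]; trivial⟩
  have hk := Nat.find_spec hex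
  have hkmin := fun m (hm : m < Nat.find hex) => Nat.find_min hex hm
  have hk0 : Nat.find hex ≠ 0 := by
    intro h0
    rw [h0, Subgroup.upperCentralSeries_zero, Subgroup.mem_bot] at hk
    exact hv hk
  obtain ⟨k, hkk⟩ : ∃ k, Nat.find hex = k + 1 := ⟨_, (Nat.succ_pred_eq_of_ne_zero hk0).symm⟩
  rw [hkk] at hk
  have hvk : v ∉ Subgroup.upperCentralSeries K k := hkmin k (by omega)
  have hij : i = j := by
    by_contra hne
    have hvi : v ^ (-i) ∈ Subgroup.upperCentralSeries K (k + 1) := zpow_mem hk _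
    have h3 : v ^ (j - i) ∈ Subgroup.upperCentralSeries K k := by
      have h4 := Subgroup.mem_upperCentralSeries_succ_iff.mp
        (show v ^ i ∈ Subgroup.upperCentralSeries K (k + 1) from zpow_mem hk _) w⁻¹
      have h5 := Subgroup.mem_upperCentralSeries_succ_iff.mp hvi w⁻¹
      have e : ⁅v ^ (-i), w⁻¹⁆ = v ^ (-i) * v ^ j := by
        rw [h1, h2, commutatorElement_def]
        simp only [zpow_neg, inv_inv]
        group
      rw [e, ← zpow_add] at h5
      rwa [show -i + j = j - i by ring] at h5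
    have h6 : v ^ (j - i).natAbs ∈ Subgroup.upperCentralSeries K k := by
      rcases Int.natAbs_eq (j - i) with h | h
      · rw [h, zpow_natCast] at h3
        exact h3
      · rw [h, zpow_neg, zpow_natCast] at h3
        exact inv_mem_iff.mp h3
    exact hvk (ucs_root hTF (Int.natAbs_pos.mpr (sub_ne_zero.mpr (Ne.symm hne))) h6)
  rw [← hij] at h1
  have h7 : v ^ i.natAbs = (w⁻¹ * v * w) ^ i.natAbs := by
    rcases Int.natAbs_eq i with h | h
    · rw [h, zpow_natCast, zpow_natCast] at h1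
      exact h1
    · rw [h, zpow_neg, zpow_neg, zpow_natCast, zpow_natCast] at h1
      exact inv_injective h1
  exact (unique_roots K hTF _ _ _ (Int.natAbs_pos.mpr hi0) h7).symm

theorem cyclic_of_rel (hTF : TF K) {v w : K} (hcomm : Commute v w)
    (hgen : Subgroup.closure {v, w} = ⊤) {i j : ℤ} (hij : ¬ (i = 0 ∧ j = 0))
    (hrel : v ^ i * w ^ j = 1) : IsCyclic K := by
  have hd : Int.gcd i j ≠ 0 := by
    intro h
    rw [Int.gcd_eq_zero_iff] at h
    exact hij h
  obtain ⟨i', hi'⟩ := Int.gcd_dvd_left i j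
  obtain ⟨j', hj'⟩ := Int.gcd_dvd_right i j
  have hb := Int.gcd_eq_gcd_ab i j
  set d : ℤ := (Int.gcd i j : ℤ) with hdd
  have hd0 : d ≠ 0 := by rw [hdd]; exact_mod_cast hd
  have hbez : i' * Int.gcdA i j + j' * Int.gcdB i j = 1 := by
    have : d * (i' * Int.gcdA i j + j' * Int.gcdB i j) = d * 1 := by
      calc d * (i' * Int.gcdA i j + j' * Int.gcdB i j) =
          (d * i') * Int.gcdA i j + (d * j') * Int.gcdB i j := by ring
        _ = i * Int.gcdA i j + j * Int.gcdB i j := by rw [← hi', ← hj']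
        _ = d * 1 := by rw [mul_one]; exact hb.symm
    exact mul_left_cancel₀ hd0 this
  set a := Int.gcdA i j
  set b := Int.gcdB i j
  have hrel' : v ^ i' * w ^ j' = 1 := by
    apply hTF.zpow hd0
    rw [(hcomm.zpow_zpow i' j').mul_zpow, ← zpow_mul, ← zpow_mul]
    rw [mul_comm i', mul_comm j', ← hi', ← hj']
    exact hrel
  have hcc : ∀ m n : ℤ, Commute (v ^ m) (w ^ n) := fun m n => hcomm.zpow_zpow m n
  set c := v ^ b * w ^ (-a) with hc
  have hrelm : ∀ m : ℤ, v ^ (i' * m) * w ^ (j' * m) = 1 := by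
    intro m
    rw [zpow_mul, zpow_mul, ← (hcc i' j').mul_zpow, hrel', one_zpow]
  have h1 : c ^ j' = v := by
    rw [hc, (hcc b (-a)).mul_zpow, ← zpow_mul, ← zpow_mul]
    have h2 := hrelm (-a)
    have e1 : b * j' = 1 + i' * (-a) := by linarith
    have e2 : -a * j' = j' * (-a) := by ring
    rw [e1, e2, zpow_add, zpow_one, mul_assoc, h2, mul_one]
  have h2 : c ^ (-i') = w := by
    rw [hc, (hcc b (-a)).mul_zpow, ← zpow_mul, ← zpow_mul]
    have h2 := hrelm (-b)
    have e1 : b * -i' = i' * (-b) := by ring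
    have e2 : -a * -i' = j' * (-b) + 1 := by linarith
    rw [e1, e2, zpow_add, zpow_one, ← mul_assoc, h2, one_mul]
  refine ⟨c, fun x => ?_⟩
  have hx : x ∈ Subgroup.closure {v, w} := by rw [hgen]; trivial
  have hle : Subgroup.closure {v, w} ≤ Subgroup.zpowers c := by
    rw [Subgroup.closure_le]
    rintro y (rfl | rfl)
    · exact Subgroup.mem_zpowers_iff.mpr ⟨j', h1⟩
    · exact Subgroup.mem_zpowers_iff.mpr ⟨-i', h2⟩
  exact hle hx

theorem exists_homs_comm (hTF : TF K) {v w : K} (hcomm : ∀ x y : K, x * y = y * x)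
    (hgen : Subgroup.closure {v, w} = ⊤) (hnc : ¬ IsCyclic K) :
    ∃ φ ψ : K →* Multiplicative ℤ, φ v = Multiplicative.ofAdd 1 ∧ φ w = 1 ∧
      ψ v = 1 ∧ ψ w = Multiplicative.ofAdd 1 := by
  have hvw : Commute v w := hcomm v w
  let f : Multiplicative (ℤ × ℤ) →* K :=
    { toFun := fun p => v ^ (p.toAdd.1) * w ^ (p.toAdd.2)
      map_one' := by simp
      map_mul' := by
        intro p q
        simp only [toAdd_mul, Prod.fst_add, Prod.snd_add, zpow_add]
        have := (hvw.zpow_zpow q.toAdd.1 p.toAdd.2).eq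
        simp only [mul_assoc]
        rw [← mul_assoc (v ^ q.toAdd.1) (w ^ p.toAdd.2), this]
        simp only [mul_assoc] }
  have hf : ∀ p, f p = v ^ (p.toAdd.1) * w ^ (p.toAdd.2) := fun _ => rfl
  have hinj : Function.Injective f := by
    rw [injective_iff_map_eq_one]
    intro p hp
    by_contra hne
    refine hnc (cyclic_of_rel (i := p.toAdd.1) (j := p.toAdd.2) hTF hvw hgen ?_ (by rw [← hf, hp]))
    rintro ⟨h1, h2⟩
    apply hne
    have : p.toAdd = 0 := Prod.ext h1 h2
    exact (ofAdd_toAdd p).symm.trans (by rw [this]; rfl)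
  have hsurj : Function.Surjective f := by
    rw [← MonoidHom.range_eq_top, eq_top_iff, ← hgen, Subgroup.closure_le]
    rintro y (rfl | rfl)
    · exact ⟨Multiplicative.ofAdd (1, 0), by rw [hf]; simp⟩
    · exact ⟨Multiplicative.ofAdd (0, 1), by rw [hf]; simp⟩
  let e : Multiplicative (ℤ × ℤ) ≃* K := MulEquiv.ofBijective f ⟨hinj, hsurj⟩
  have hev : e.symm v = Multiplicative.ofAdd (1, 0) := by
    rw [MulEquiv.symm_apply_eq]
    change v = f _
    rw [hf]; simp
  have hew : e.symm w = Multiplicative.ofAdd (0, 1) := by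
    rw [MulEquiv.symm_apply_eq]
    change w = f _
    rw [hf]; simp
  refine ⟨(AddMonoidHom.toMultiplicative (AddMonoidHom.fst ℤ ℤ)).comp e.symm.toMonoidHom,
    (AddMonoidHom.toMultiplicative (AddMonoidHom.snd ℤ ℤ)).comp e.symm.toMonoidHom, ?_, ?_, ?_, ?_⟩
  · simp [hev]
  · simp [hew]
  · simp [hev]
  · simp [hew]

theorem exists_homs (K : Type u) [Group K] [Group.IsNilpotent K] :
    TF K → ∀ v w : K, Subgroup.closure {v, w} = ⊤ → ¬ IsCyclic K →
    ∃ φ ψ : K →* Multiplicative ℤ, φ v = Multiplicative.ofAdd 1 ∧ φ w = 1 ∧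
      ψ v = 1 ∧ ψ w = Multiplicative.ofAdd 1 := by
  refine Group.nilpotent_center_quotient_ind (P := fun K _ _ =>
    TF K → ∀ v w : K, Subgroup.closure {v, w} = ⊤ → ¬ IsCyclic K →
    ∃ φ ψ : K →* Multiplicative ℤ, φ v = Multiplicative.ofAdd 1 ∧ φ w = 1 ∧
      ψ v = 1 ∧ ψ w = Multiplicative.ofAdd 1) K ?_ ?_
  · intro G _ _ _ v w _ hnc
    exact absurd (isCyclic_of_subsingleton (α := G)) hnc
  · intro G _ _ ih hTF v w hgen hnc
    by_cases hcyc : IsCyclic (G ⧸ Subgroup.center G)
    · have hcomm : ∀ x y : G, x * y = y * x :=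
        ((QuotientGroup.mk' (Subgroup.center G)).isMulCommutative_of_isCyclic_of_ker_le_center (by simp)).is_comm.comm
      exact exists_homs_comm hTF hcomm hgen hnc
    · obtain ⟨φ, ψ, h1, h2, h3, h4⟩ := ih hTF.quotient_center (v : G ⧸ Subgroup.center G) w (by
        have : Subgroup.map (QuotientGroup.mk' (Subgroup.center G)) (Subgroup.closure {v, w}) =
            ⊤ := by
          rw [hgen, ← MonoidHom.range_eq_map, MonoidHom.range_eq_top]
          exact QuotientGroup.mk'_surjective _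
        rw [MonoidHom.map_closure, Set.image_pair] at this
        exact this) hcyc
      exact ⟨φ.comp (QuotientGroup.mk' _), ψ.comp (QuotientGroup.mk' _), h1, h2, h3, h4⟩

end Run7.h916
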