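import Pool.Agent.Run7.h916.NilSplit

set_option autoImplicit false
set_option linter.unusedSectionVars false
set_option linter.unusedVariables false

/-!
The Borel chromatic index of groups which are locally finite by nilpotent.
-/

namespace Run7.h916

open Subgroup
open scoped Pointwise commutatorElement

universe u v

variable {Γ : Type u} [Group Γ]

section split

variable {X : Type v} [MulAction Γ X] [MeasurableSpace X] [StandardBorelSpace X] [Countable Γ]
  (hX : IsFreeBorel Γ X) {T : Set Γ} (hT1 : (1 : Γ) ∈ T) (hT : ∀ m ∈ T, m⁻¹ ∈ T)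
  (hTfin : T.Finite) (hsep : SepAct T X) {L : Subgroup Γ} [hLn : L.Normal]
  (hL : IsLocallyFinite L) [hnil : Group.IsNilpotent (Γ ⧸ L)] (hTF : TF (Γ ⧸ L))

include hX hT1 hT hTfin hsep hL hTF in
open Classical in
/-- Four pairwise non-parallel directions contain a good triple. -/
theorem four_split_nil {F : Finset Γ} (hF1 : ∀ x ∈ F, (QuotientGroup.mk x : Γ ⧸ L) ≠ 1)
    (hFT : ∀ x ∈ F, x ∈ T) (hcard : F.card = 4)
    (hnp : ∀ x ∈ F, ∀ y ∈ F, x ≠ y → ¬ Par (QuotientGroup.mk x : Γ ⧸ L) (QuotientGroup.mk y)) :
    ∃ R ⊆ F, R.card = 3 ∧ SplitsB X R := by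
  set H : Subgroup (Γ ⧸ L) := closure ((F.image (QuotientGroup.mk : Γ → Γ ⧸ L) :
    Finset (Γ ⧸ L)) : Set (Γ ⧸ L)) with hH
  have hmemH : ∀ x ∈ F, (QuotientGroup.mk x : Γ ⧸ L) ∈ H := by
    intro x hx
    apply Subgroup.subset_closure
    rw [Finset.mem_coe]
    exact Finset.mem_image_of_mem _ hx
  have hTFH : TF H := by
    intro x n hn hx
    apply Subtype.ext
    exact hTF _ n hn (congrArg Subtype.val hx)
  have hfgH : Group.FG H := (Group.fg_iff_subgroup_fg _).mpr ⟨_, rfl⟩
  obtain ⟨x0, hx0⟩ : F.Nonempty := Finset.card_pos.mp (by omega)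
  have hnt : Nontrivial H :=
    ⟨⟨⟨_, hmemH x0 hx0⟩, 1, fun h => hF1 x0 hx0 (congrArg Subtype.val h)⟩⟩
  obtain ⟨φ, ⟨x1, hx1⟩⟩ := exists_hom_int H hTFH hfgH hnt
  obtain ⟨s, hs1, hs2, hs3⟩ := exists_sign_par H φ
  -- some generator is odd
  have hodd : ∃ x, ∃ hx : x ∈ F, ¬ Even (Multiplicative.toAdd (φ ⟨_, hmemH x hx⟩)) := by
    by_contra hcon
    push Not at hcon
    have key : ∀ y (hy : y ∈ H), Even (Multiplicative.toAdd (φ ⟨y, hy⟩)) := by
      intro y hy
      induction hy using Subgroup.closure_induction with
      | mem y hy' =>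
        rw [Finset.mem_coe] at hy'
        obtain ⟨x, hx, rfl⟩ := Finset.mem_image.mp hy'
        exact hcon x hx
      | one =>
        have : (⟨1, Subgroup.one_mem _⟩ : H) = 1 := rfl
        rw [this, map_one]
        exact Even.zero
      | mul a b ha hb iha ihb =>
        have : (⟨a * b, Subgroup.mul_mem _ ha hb⟩ : H) = ⟨a, ha⟩ * ⟨b, hb⟩ := rfl
        rw [this, map_mul, toAdd_mul]
        exact iha.add ihb
      | inv a ha iha =>
        have : (⟨a⁻¹, Subgroup.inv_mem _ ha⟩ : H) = (⟨a, ha⟩ : H)⁻¹ := rfl
        rw [this, map_inv, toAdd_inv]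
        exact iha.neg
    have h1 := key x1.1 x1.2
    have h2 : (⟨x1.1, x1.2⟩ : H) = x1 := rfl
    rw [h2, hx1] at h1
    exact absurd h1 (by decide)
  -- odd and even directions
  let O : Finset Γ := F.filter (fun x => ∀ k, s (QuotientGroup.mk x * k) = - s k)
  have hOmem : ∀ x, x ∈ O ↔ x ∈ F ∧ ∀ k, s (QuotientGroup.mk x * k) = - s k := fun x =>
    Finset.mem_filter
  have hev : ∀ x ∈ F, x ∉ O → ∀ k, s (QuotientGroup.mk x * k) = s k := by
    intro x hx hxO k
    by_cases h : Even (Multiplicative.toAdd (φ ⟨_, hmemH x hx⟩))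
    · exact hs2 ⟨_, hmemH x hx⟩ k h
    · exact absurd ((hOmem x).mpr ⟨hx, fun k => hs3 ⟨_, hmemH x hx⟩ k h⟩) hxO
  have hO1 : 1 ≤ O.card := by
    obtain ⟨x, hx, h⟩ := hodd
    exact Finset.card_pos.mpr ⟨x, (hOmem x).mpr ⟨hx, fun k => hs3 ⟨_, hmemH x hx⟩ k h⟩⟩
  have hOF : O ⊆ F := Finset.filter_subset _ _
  by_cases h3 : 3 ≤ O.card
  · obtain ⟨R, hRO, hR⟩ := Finset.exists_subset_card_eq h3
    refine ⟨R, hRO.trans hOF, hR, splitsB_of_block ?_⟩
    refine triple_block_nil hX hT1 hT hTfin hsep hL hTF (fun x hx => hF1 x (hOF (hRO hx)))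
      (fun x hx => hFT x (hOF (hRO hx))) (by omega)
      (fun x hx y hy => hnp x (hOF (hRO hx)) y (hOF (hRO hy))) s hs1 (Or.inl fun x hx =>
      ((hOmem x).mp (hRO hx)).2)
  · obtain ⟨y, hy⟩ : O.Nonempty := Finset.card_pos.mp (by omega)
    have h4 : (F \ O).card = 4 - O.card := by
      rw [Finset.card_sdiff_of_subset hOF, hcard]
    obtain ⟨R', hR'O, hR'⟩ := Finset.exists_subset_card_eq (show 2 ≤ (F \ O).card by omega)
    have hR'F : ∀ x ∈ R', x ∈ F ∧ x ∉ O := fun x hx => Finset.mem_sdiff.mp (hR'O hx)
    have hyR' : y ∉ R' := fun h => (hR'F y h).2 hy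
    have hsub : insert y R' ⊆ F := by
      intro x hx
      rcases Finset.mem_insert.mp hx with rfl | hx
      · exact hOF hy
      · exact (hR'F x hx).1
    refine ⟨insert y R', hsub, by rw [Finset.card_insert_of_notMem hyR', hR'],
      splitsB_of_block ?_⟩
    refine triple_block_nil hX hT1 hT hTfin hsep hL hTF (fun x hx => hF1 x (hsub hx))
      (fun x hx => hFT x (hsub hx)) (by rw [Finset.card_insert_of_notMem hyR']; omega)
      (fun x hx z hz => hnp x (hsub hx) z (hsub hz)) s hs1 (Or.inr
      ⟨y, Finset.mem_insert_self _ _, ((hOmem y).mp hy).2, ?_⟩)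
    intro x hx hxy
    rcases Finset.mem_insert.mp hx with h | h
    · exact absurd h hxy
    · exact hev x (hR'F x h).1 (hR'F x h).2

include hX hT1 hT hTfin hsep hL hTF in
open Classical in
/-- Two non-parallel directions. -/
theorem two_split_nil {F : Finset Γ} (hF1 : ∀ x ∈ F, (QuotientGroup.mk x : Γ ⧸ L) ≠ 1)
    (hFT : ∀ x ∈ F, x ∈ T) (hcard : F.card = 2)
    (hnp : ∀ x ∈ F, ∀ y ∈ F, x ≠ y → ¬ Par (QuotientGroup.mk x : Γ ⧸ L) (QuotientGroup.mk y)) :
    SplitsB X F := by
  obtain ⟨a, b, hab, rfl⟩ := Finset.card_eq_two.mp hcard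
  have ha : a ∈ ({a, b} : Finset Γ) := by simp
  have hb : b ∈ ({a, b} : Finset Γ) := by simp
  exact pair_splits_nil hX hT1 hT hTfin hsep hL hTF (hF1 a ha) (hF1 b hb) (hFT a ha) (hFT b hb)
    (hnp a ha b hb hab)

include hX hT1 hT hTfin hsep hL hTF in
open Classical in
/-- The splitting of a set of directions. -/
theorem splits_nil : ∀ (N : ℕ) (R : Finset Γ), R.card = N →
    (∀ x ∈ R, (QuotientGroup.mk x : Γ ⧸ L) ≠ 1) → (∀ x ∈ R, x ∈ T) →
    (∃ x ∈ R, ∃ y ∈ R, ¬ Par (QuotientGroup.mk x : Γ ⧸ L) (QuotientGroup.mk y)) →
    (R.card = 3 → ∃ x ∈ R, ∃ y ∈ R, x ≠ y ∧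
      Par (QuotientGroup.mk x : Γ ⧸ L) (QuotientGroup.mk y)) →
    SplitsB X R := by
  intro N
  induction N using Nat.strong_induction_on with
  | _ N ih =>
    intro R hR hR1 hRT hnp h3
    -- a removable pair
    by_cases hrem : ∃ a ∈ R, ∃ b ∈ R, ¬ Par (QuotientGroup.mk a : Γ ⧸ L) (QuotientGroup.mk b) ∧
        ∃ x ∈ (R.erase a).erase b, ∃ y ∈ (R.erase a).erase b,
          ¬ Par (QuotientGroup.mk x : Γ ⧸ L) (QuotientGroup.mk y)
    · obtain ⟨a, ha, b, hb, hab, hrest⟩ := hrem
      have hne : a ≠ b := fun h => hab (by rw [h]; exact Par.refl _)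
      set R' := (R.erase a).erase b with hR'
      have hmemR' : ∀ x, x ∈ R' ↔ x ≠ b ∧ x ≠ a ∧ x ∈ R := by
        intro x
        rw [hR', Finset.mem_erase, Finset.mem_erase]
      have hsub : ∀ x ∈ R', x ∈ R := fun x hx => ((hmemR' x).mp hx).2.2
      have hcard : R'.card + 2 = N := by
        have h1 : (R.erase a).card + 1 = R.card := Finset.card_erase_add_one ha
        have h2 : R'.card + 1 = (R.erase a).card :=
          Finset.card_erase_add_one (Finset.mem_erase.mpr ⟨hne.symm, hb⟩)
        omega
      by_cases h3' : R'.card = 3 → ∃ x ∈ R', ∃ y ∈ R', x ≠ y ∧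
          Par (QuotientGroup.mk x : Γ ⧸ L) (QuotientGroup.mk y)
      · refine SplitsB.union (R1 := {a, b}) (R2 := R')
          (pair_splits_nil hX hT1 hT hTfin hsep hL hTF (hR1 a ha) (hR1 b hb) (hRT a ha)
            (hRT b hb) hab)
          (ih _ (by omega) R' rfl (fun x hx => hR1 x (hsub x hx)) (fun x hx => hRT x (hsub x hx))
            hrest h3') ?_ ?_
        · intro x hx h
          have := (hmemR' x).mp hx
          simp only [Finset.mem_insert, Finset.mem_singleton] at h
          tauto
        · intro x
          rw [hmemR']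
          simp only [Finset.mem_insert, Finset.mem_singleton]
          constructor
          · intro h; tauto
          · rintro ((rfl | rfl) | h)
            · exact ha
            · exact hb
            · exact h.2.2
      · push Not at h3'
        obtain ⟨hc3, hpw⟩ := h3'
        -- a star and a pair
        have hstar : ∀ p ∈ R, ∀ q ∈ R, p ≠ q → p ∉ R' → q ∉ R' →
            (∀ x, x ∈ R ↔ x = p ∨ x = q ∨ x ∈ R') →
            ¬ Par (QuotientGroup.mk p : Γ ⧸ L) (QuotientGroup.mk q) → ∀ c ∈ R',
            Par (QuotientGroup.mk p : Γ ⧸ L) (QuotientGroup.mk c) → SplitsB X R := by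
          intro p hp q hq hpq hpR hqR hall hnp' c hc hpc
          have hcp : c ≠ p := fun h => hpR (h ▸ hc)
          have hcq : c ≠ q := fun h => hqR (h ▸ hc)
          refine SplitsB.union (R1 := {q, p, c}) (R2 := R'.erase c) (splitsB_of_block
            (star_block_nil hX hT1 hT hTfin hsep hL hTF (z := q) (v0 := p) ?_ ?_ (by simp)
              (by simp) hnp' ?_))
            (two_split_nil hX hT1 hT hTfin hsep hL hTF ?_ ?_ ?_ ?_) ?_ ?_
          · intro x hx
            simp only [Finset.mem_insert, Finset.mem_singleton] at hx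
            rcases hx with rfl | rfl | rfl
            · exact hR1 _ hq
            · exact hR1 _ hp
            · exact hR1 _ (hsub _ hc)
          · intro x hx
            simp only [Finset.mem_insert, Finset.mem_singleton] at hx
            rcases hx with rfl | rfl | rfl
            · exact hRT _ hq
            · exact hRT _ hp
            · exact hRT _ (hsub _ hc)
          · intro v hv hvq
            simp only [Finset.mem_insert, Finset.mem_singleton] at hv
            rcases hv with rfl | rfl | rfl
            · exact absurd rfl hvq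
            · exact Par.refl _
            · exact hpc.symm
          · intro x hx
            exact hR1 x (hsub x (Finset.mem_of_mem_erase hx))
          · intro x hx
            exact hRT x (hsub x (Finset.mem_of_mem_erase hx))
          · rw [Finset.card_erase_of_mem hc, hc3]
          · intro x hx y hy hxy
            exact hpw x (Finset.mem_of_mem_erase hx) y (Finset.mem_of_mem_erase hy) hxy
          · intro x hx h
            obtain ⟨h1, h2⟩ := Finset.mem_erase.mp hx
            simp only [Finset.mem_insert, Finset.mem_singleton] at h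
            rcases h with rfl | rfl | rfl
            · exact hqR h2
            · exact hpR h2
            · exact h1 rfl
          · intro x
            rw [hall]
            simp only [Finset.mem_insert, Finset.mem_singleton, Finset.mem_erase]
            constructor
            · rintro (h | h | h)
              · tauto
              · tauto
              · by_cases hxc : x = c
                · tauto
                · tauto
            · rintro ((h | h | h) | h)
              · tauto
              · tauto
              · right; right; rw [h]; exact hc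
              · tauto
        have haR' : a ∉ R' := fun h => ((hmemR' a).mp h).2.1 rfl
        have hbR' : b ∉ R' := fun h => ((hmemR' b).mp h).1 rfl
        by_cases hpa : ∃ c ∈ R', Par (QuotientGroup.mk a : Γ ⧸ L) (QuotientGroup.mk c)
        · obtain ⟨c, hc, hac⟩ := hpa
          refine hstar a ha b hb hne haR' hbR' ?_ hab c hc hac
          intro x
          rw [hmemR']
          constructor
          · intro h; tauto
          · rintro (rfl | rfl | h)
            · exact ha
            · exact hb
            · exact h.2.2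
        by_cases hpb : ∃ c ∈ R', Par (QuotientGroup.mk b : Γ ⧸ L) (QuotientGroup.mk c)
        · obtain ⟨c, hc, hbc⟩ := hpb
          refine hstar b hb a ha hne.symm hbR' haR' ?_ (fun h => hab h.symm) c hc hbc
          intro x
          rw [hmemR']
          constructor
          · intro h; tauto
          · rintro (rfl | rfl | h)
            · exact hb
            · exact ha
            · exact h.2.2
        push Not at hpa hpb
        -- five pairwise non-parallel directions
        have hpw5 : ∀ x ∈ R, ∀ y ∈ R, x ≠ y →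
            ¬ Par (QuotientGroup.mk x : Γ ⧸ L) (QuotientGroup.mk y) := by
          intro x hx y hy hxy
          by_cases hxa : x = a
          · by_cases hyb : y = b
            · rw [hxa, hyb]; exact hab
            · have hy' : y ∈ R' := (hmemR' y).mpr ⟨hyb, fun h => hxy (by rw [hxa, h]), hy⟩
              rw [hxa]; exact hpa y hy'
          by_cases hxb : x = b
          · by_cases hya : y = a
            · rw [hxb, hya]; exact fun h => hab h.symm
            · have hy' : y ∈ R' := (hmemR' y).mpr ⟨fun h => hxy (by rw [hxb, h]), hya, hy⟩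
              rw [hxb]; exact hpb y hy'
          have hx' : x ∈ R' := (hmemR' x).mpr ⟨hxb, hxa, hx⟩
          by_cases hya : y = a
          · rw [hya]; exact fun h => hpa x hx' h.symm
          by_cases hyb : y = b
          · rw [hyb]; exact fun h => hpb x hx' h.symm
          exact hpw x hx' y ((hmemR' y).mpr ⟨hyb, hya, hy⟩) hxy
        obtain ⟨R3, hR3, hR3c, hR3s⟩ := four_split_nil hX hT1 hT hTfin hsep hL hTF
          (F := R.erase a) (fun x hx => hR1 x (Finset.mem_of_mem_erase hx))
          (fun x hx => hRT x (Finset.mem_of_mem_erase hx))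
          (by rw [Finset.card_erase_of_mem ha]; omega)
          (fun x hx y hy => hpw5 x (Finset.mem_of_mem_erase hx) y (Finset.mem_of_mem_erase hy))
        have hR3R : R3 ⊆ R := hR3.trans (Finset.erase_subset _ _)
        refine SplitsB.union (R1 := R3) (R2 := R \ R3) hR3s
          (two_split_nil hX hT1 hT hTfin hsep hL hTF ?_ ?_ ?_ ?_) ?_ ?_
        · intro x hx
          exact hR1 x (Finset.mem_sdiff.mp hx).1
        · intro x hx
          exact hRT x (Finset.mem_sdiff.mp hx).1
        · rw [Finset.card_sdiff_of_subset hR3R]; omega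
        · intro x hx y hy
          exact hpw5 x (Finset.mem_sdiff.mp hx).1 y (Finset.mem_sdiff.mp hy).1
        · intro x hx
          exact (Finset.mem_sdiff.mp hx).2
        · intro x
          rw [Finset.mem_sdiff]
          constructor
          · intro h; tauto
          · rintro (h | h)
            · exact hR3R h
            · exact h.1
    · push Not at hrem
      -- a star
      obtain ⟨a, ha, b, hb, hab⟩ := hnp
      have hne : a ≠ b := fun h => hab (by rw [h]; exact Par.refl _)
      have hrest := hrem a ha b hb hab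
      have hstar : ∀ z ∈ R, ∀ v0 ∈ R, ¬ Par (QuotientGroup.mk v0 : Γ ⧸ L)
          (QuotientGroup.mk z) → (∀ v ∈ R, v ≠ z → Par (QuotientGroup.mk v : Γ ⧸ L)
            (QuotientGroup.mk v0)) → SplitsB X R := by
        intro z hz v0 hv0 hnp hpar
        exact splitsB_of_block (star_block_nil hX hT1 hT hTfin hsep hL hTF hR1 hRT hz hv0 hnp hpar)
      by_cases hc : ∃ c ∈ (R.erase a).erase b, True
      · obtain ⟨c, hc, _⟩ := hc
        have hcR : c ∈ R := Finset.mem_of_mem_erase (Finset.mem_of_mem_erase hc)
        have hcb : c ≠ b := (Finset.mem_erase.mp hc).1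
        have hca : c ≠ a := (Finset.mem_erase.mp (Finset.mem_erase.mp hc).2).1
        by_cases hac : Par (QuotientGroup.mk c : Γ ⧸ L) (QuotientGroup.mk a)
        · -- all but `b` are parallel to `a`
          refine hstar b hb a ha hab fun v hvR hvb => ?_
          by_cases hva : v = a
          · rw [hva]; exact Par.refl _
          · have hv' : v ∈ (R.erase a).erase b :=
              Finset.mem_erase.mpr ⟨hvb, Finset.mem_erase.mpr ⟨hva, hvR⟩⟩
            exact (hrest v hv' c hc).trans hac
        by_cases hbc : Par (QuotientGroup.mk c : Γ ⧸ L) (QuotientGroup.mk b)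
        · refine hstar a ha b hb (fun h => hab h.symm) fun v hvR hva => ?_
          by_cases hvb : v = b
          · rw [hvb]; exact Par.refl _
          · have hv' : v ∈ (R.erase a).erase b :=
              Finset.mem_erase.mpr ⟨hvb, Finset.mem_erase.mpr ⟨hva, hvR⟩⟩
            exact (hrest v hv' c hc).trans hbc
        -- `a`, `b`, `c` pairwise not parallel; there is nothing else
        exfalso
        have hall : ∀ d ∈ R, d = a ∨ d = b ∨ d = c := by
          intro d hd
          by_contra hcon
          push Not at hcon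
          obtain ⟨hda, hdb, hdc⟩ := hcon
          have hac' : ¬ Par (QuotientGroup.mk a : Γ ⧸ L) (QuotientGroup.mk c) :=
            fun h => hac h.symm
          have h1 := hrem a ha c hcR hac'
          have hb' : b ∈ (R.erase a).erase c :=
            Finset.mem_erase.mpr ⟨hcb.symm, Finset.mem_erase.mpr ⟨hne.symm, hb⟩⟩
          have hd' : d ∈ (R.erase a).erase c :=
            Finset.mem_erase.mpr ⟨hdc, Finset.mem_erase.mpr ⟨hda, hd⟩⟩
          have hd'' : d ∈ (R.erase a).erase b :=
            Finset.mem_erase.mpr ⟨hdb, Finset.mem_erase.mpr ⟨hda, hd⟩⟩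
          have h2 := h1 b hb' d hd'
          have h3 := hrest d hd'' c hc
          exact hbc (h2.trans h3).symm
        have e : R = {a, b, c} := by
          ext d
          simp only [Finset.mem_insert, Finset.mem_singleton]
          constructor
          · exact hall d
          · rintro (h | h | h)
            · rw [h]; exact ha
            · rw [h]; exact hb
            · rw [h]; exact hcR
        have hcard3 : R.card = 3 := by
          rw [e]
          exact Finset.card_eq_three.mpr ⟨a, b, c, hne, hca.symm, hcb.symm, rfl⟩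
        obtain ⟨x, hx, y, hy, hxy, hpxy⟩ := h3 hcard3
        rw [e] at hx hy
        simp only [Finset.mem_insert, Finset.mem_singleton] at hx hy
        rcases hx with rfl | rfl | rfl <;> rcases hy with rfl | rfl | rfl
        · exact hxy rfl
        · exact hab hpxy
        · exact hac hpxy.symm
        · exact hab hpxy.symm
        · exact hxy rfl
        · exact hbc hpxy.symm
        · exact hac hpxy
        · exact hbc hpxy
        · exact hxy rfl
      · -- only `a` and `b`
        push Not at hc
        refine hstar b hb a ha hab fun v hvR hvb => ?_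
        by_cases hva : v = a
        · rw [hva]; exact Par.refl _
        · have hv' : v ∈ (R.erase a).erase b :=
            Finset.mem_erase.mpr ⟨hvb, Finset.mem_erase.mpr ⟨hva, hvR⟩⟩
          exact (hc v hv').elim

end split

/-- The data of the action used to colour blocks. -/
theorem exists_setup {X : Type v} [MulAction Γ X] [MeasurableSpace X] [StandardBorelSpace X]
    {S : Finset Γ} (hS : IsMarking S) (hH : HypH S X) :
    IsFreeBorel Γ X ∧ Countable Γ ∧ ∃ T : Set Γ, (1 : Γ) ∈ T ∧ (∀ m ∈ T, m⁻¹ ∈ T) ∧ T.Finite ∧
      Subgroup.closure T = ⊤ ∧ (∀ s ∈ S, s ∈ T) ∧ SepAct T X := by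
  classical
  have hX := hH.freeBorel
  have hne := nonempty_of_asiB hH.asi
  have hsep := sepAct_of_hasSeparation hS.inv_mem (hasSeparation_one_of_asiB hH.asi)
  set T : Set Γ := insert 1 (S : Set Γ) with hTdef
  have hT1 : (1 : Γ) ∈ T := Set.mem_insert _ _
  have hT : ∀ m ∈ T, m⁻¹ ∈ T := by
    rintro m (rfl | hm)
    · left; simp
    · right; exact hS.inv_mem m hm
  have hTfin : T.Finite := S.finite_toSet.insert 1
  have hgen : Subgroup.closure T = ⊤ := by
    rw [eq_top_iff, ← hS.closure_eq]
    exact Subgroup.closure_mono (Set.subset_insert _ _)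
  have hcount : Countable Γ := by
    have hfin : ∀ D : ℕ, (T ^ D).Finite := by
      intro D
      induction D with
      | zero => simp
      | succ k ih =>
        rw [pow_succ]
        exact ih.mul hTfin
    have hc : (⋃ D : ℕ, T ^ D).Countable :=
      Set.countable_iUnion fun D => (hfin D).countable
    refine Set.countable_univ_iff.mp (hc.mono fun g _ => ?_)
    obtain ⟨D, hD⟩ := exists_subset_pow hT1 hT hgen (Set.finite_singleton g)
    exact Set.mem_iUnion.mpr ⟨D, hD rfl⟩
  exact ⟨hX, hcount, T, hT1, hT, hTfin, hgen, fun s hs => Set.mem_insert_of_mem _ hs, hsep⟩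

theorem chromaticIndex_of_borelBlocks {X : Type v} [MulAction Γ X] [MeasurableSpace X]
    [StandardBorelSpace X] {S : Finset Γ} (hS : IsMarking S) (hH : HypH S X) {ι : Type*}
    {B : ι → Set Γ} (hdisj : ∀ i j s, s ∈ B i → s ∈ B j → i = j)
    (hinv : ∀ i, ∀ s ∈ B i, s⁻¹ ∈ B i) (hBall : (⋃ i, B i) = (S : Set Γ))
    (hblock : ∀ i, BorelBlock (B i) X) :
    borelChromaticIndex (schreierGraph S X) = S.card := by
  have hX := hH.freeBorel
  have hne := nonempty_of_asiB hH.asi
  have hall : BorelBlock (S : Set Γ) X := by
    rw [← hBall]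
    exact BorelBlock.iUnion hdisj hinv hblock
  have hcol := borelEdgeColorable_of_block hX hS.inv_mem hall
  unfold borelChromaticIndex
  apply le_antisymm
  · exact (iInf_le _ S.card).trans (iInf_le _ hcol)
  · refine le_iInf fun n => le_iInf fun hn => ?_
    exact_mod_cast card_le_of_colorable hX hS.inv_mem hS.one_notMem hn

end Run7.h916
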