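import Pool.Agent.Run7.h916.HubData
import Pool.Agent.Run7.h916.NilGen

set_option autoImplicit false
set_option linter.unusedSectionVars false
set_option linter.unusedVariables false

/-!
Splitting of sets of directions in locally finite by (torsion-free nilpotent) groups.
-/

namespace Run7.h916

open Subgroup
open scoped Pointwise commutatorElement

universe u v

theorem exists_sign_par {G : Type u} [Group G] (H : Subgroup G) (φ : H →* Multiplicative ℤ) :
    ∃ s : G → ℝ, (∀ x, s x = 1 ∨ s x = -1) ∧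
    (∀ (h : H) x, Even (Multiplicative.toAdd (φ h)) → s (h * x) = s x) ∧
    (∀ (h : H) x, ¬ Even (Multiplicative.toAdd (φ h)) → s (h * x) = - s x) := by
  classical
  obtain ⟨ρ, hρ⟩ := exists_coord H
  refine ⟨fun x => if Even (Multiplicative.toAdd (φ (ρ x))) then 1 else -1, ?_, ?_, ?_⟩
  · intro x
    by_cases h : Even (Multiplicative.toAdd (φ (ρ x)))
    · exact Or.inl (if_pos h)
    · exact Or.inr (if_neg h)
  · intro h x hh
    simp only
    rw [hρ, map_mul, toAdd_mul]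
    by_cases h' : Even (Multiplicative.toAdd (φ (ρ x)))
    · rw [if_pos (Int.even_add.mpr (by tauto)), if_pos h']
    · rw [if_neg (fun h2 => h' ((Int.even_add.mp h2).mp hh)), if_neg h']
  · intro h x hh
    simp only
    rw [hρ, map_mul, toAdd_mul]
    by_cases h' : Even (Multiplicative.toAdd (φ (ρ x)))
    · rw [if_neg (fun h2 => hh ((Int.even_add.mp h2).mpr h')), if_pos h']
    · rw [if_pos (Int.even_add.mpr (by tauto)), if_neg h', neg_neg]

variable {Γ : Type u} [Group Γ]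

/-- A set of representatives can be partitioned into colourable blocks. -/
def SplitsB (X : Type v) [MulAction Γ X] [MeasurableSpace X] (R : Finset Γ) : Prop :=
  ∃ col : Γ → ℕ, ∀ n, BorelBlock ({x | x ∈ R ∧ col x = n} ∪ ({x | x ∈ R ∧ col x = n} : Set Γ)⁻¹) X

theorem borelBlock_empty (X : Type v) [MulAction Γ X] [MeasurableSpace X] :
    BorelBlock (∅ : Set Γ) X := by
  refine ⟨fun _ s => s, fun s γ => ?_, fun x s hs => absurd hs (Set.notMem_empty s),
    fun x s hs => absurd hs (Set.notMem_empty s), fun x s hs => absurd hs (Set.notMem_empty s)⟩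
  exact MeasurableSet.const _

theorem splitsB_of_block {X : Type v} [MulAction Γ X] [MeasurableSpace X] {R : Finset Γ}
    (h : BorelBlock ((R : Set Γ) ∪ (R : Set Γ)⁻¹) X) : SplitsB X R := by
  refine ⟨fun _ => 0, fun n => ?_⟩
  by_cases hn : n = 0
  · have : {x | x ∈ R ∧ 0 = n} = (R : Set Γ) := by
      ext x
      simp [hn]
    rw [this]
    exact h
  · have : ({x | x ∈ R ∧ 0 = n} : Set Γ) = ∅ := by
      ext x
      simp only [Set.mem_ofPred_eq, Set.mem_empty_iff_false, iff_false, not_and]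
      exact fun _ h => hn h.symm
    rw [this]
    simpa using borelBlock_empty X

open Classical in
theorem SplitsB.union {X : Type v} [MulAction Γ X] [MeasurableSpace X] {R1 R2 R : Finset Γ}
    (h1 : SplitsB X R1) (h2 : SplitsB X R2) (hd : ∀ x ∈ R2, x ∉ R1)
    (hR : ∀ x, x ∈ R ↔ x ∈ R1 ∨ x ∈ R2) : SplitsB X R := by
  obtain ⟨c1, hc1⟩ := h1
  obtain ⟨c2, hc2⟩ := h2
  refine ⟨fun x => if x ∈ R1 then 2 * c1 x else 2 * c2 x + 1, fun n => ?_⟩
  rcases Nat.even_or_odd' n with ⟨m, rfl | rfl⟩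
  · have e : {x | x ∈ R ∧ (if x ∈ R1 then 2 * c1 x else 2 * c2 x + 1) = 2 * m} =
        {x | x ∈ R1 ∧ c1 x = m} := by
      ext x
      simp only [Set.mem_ofPred_eq, hR]
      by_cases hx : x ∈ R1
      · simp only [hx, true_or, if_true, true_and]
        omega
      · simp only [hx, false_or, if_false, false_and, iff_false, not_and]
        intro _
        omega
    rw [e]
    exact hc1 m
  · have e : {x | x ∈ R ∧ (if x ∈ R1 then 2 * c1 x else 2 * c2 x + 1) = 2 * m + 1} =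
        {x | x ∈ R2 ∧ c2 x = m} := by
      ext x
      simp only [Set.mem_ofPred_eq, hR]
      by_cases hx : x ∈ R1
      · have hx2 : x ∉ R2 := fun h => hd x h hx
        simp only [hx, hx2, true_or, if_true, true_and, false_and, iff_false]
        omega
      · simp only [hx, false_or, if_false]
        constructor
        · rintro ⟨h1, h2⟩
          exact ⟨h1, by omega⟩
        · rintro ⟨h1, h2⟩
          exact ⟨h1, by omega⟩
    rw [e]
    exact hc2 m

section split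

variable {X : Type v} [MulAction Γ X] [MeasurableSpace X] [StandardBorelSpace X] [Countable Γ]
  (hX : IsFreeBorel Γ X) {T : Set Γ} (hT1 : (1 : Γ) ∈ T) (hT : ∀ m ∈ T, m⁻¹ ∈ T)
  (hTfin : T.Finite) (hsep : SepAct T X) {L : Subgroup Γ} [hLn : L.Normal]
  (hL : IsLocallyFinite L) [hnil : Group.IsNilpotent (Γ ⧸ L)] (hTF : TF (Γ ⧸ L))

include hTF in
theorem ne_inv_of_mk {s : Γ} (h : (QuotientGroup.mk s : Γ ⧸ L) ≠ 1) : s ≠ s⁻¹ := by
  intro h1
  apply h
  refine hTF _ 2 (by norm_num) ?_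
  rw [pow_two]
  have h2 : (QuotientGroup.mk s : Γ ⧸ L) * QuotientGroup.mk s =
      QuotientGroup.mk s * (QuotientGroup.mk s)⁻¹ := by
    congr 1
    exact congrArg _ h1
  rw [h2, mul_inv_cancel]

include hX hT1 hT hTfin hsep hL hTF in
open Classical in
/-- Hub blocks. -/
theorem hub_block_R {R : Finset Γ} (hR1 : ∀ x ∈ R, (QuotientGroup.mk x : Γ ⧸ L) ≠ 1)
    (hRT : ∀ x ∈ R, x ∈ T) {y : Γ} (hy : y ∈ R) (hx : ∃ x ∈ R, x ≠ y)
    (hnp : ∀ c ∈ R, c ≠ y → ¬ Par (QuotientGroup.mk c : Γ ⧸ L) (QuotientGroup.mk y))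
    (Q : Γ ⧸ L → ℝ) (hQ1 : ∀ k, Q k = 1 ∨ Q k = -1)
    (hQy : ∀ k, Q (QuotientGroup.mk y * k) = - Q k)
    (hQc : ∀ c ∈ R, c ≠ y → ∀ k, Q (QuotientGroup.mk c * k) = Q k) :
    BorelBlock ((R : Set Γ) ∪ (R : Set Γ)⁻¹) X := by
  have hmki : ∀ a : Γ, (QuotientGroup.mk a⁻¹ : Γ ⧸ L) = (QuotientGroup.mk a)⁻¹ := fun _ => rfl
  set B : Finset Γ := R ∪ R.image (fun s => s⁻¹) with hBdef
  have hmem : ∀ s, s ∈ B ↔ s ∈ R ∨ s⁻¹ ∈ R := by
    intro s
    rw [hBdef, Finset.mem_union, Finset.mem_image]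
    constructor
    · rintro (h | ⟨t, ht, rfl⟩)
      · exact Or.inl h
      · right; rwa [inv_inv]
    · rintro (h | h)
      · exact Or.inl h
      · exact Or.inr ⟨s⁻¹, h, inv_inv s⟩
  have hBR : (B : Set Γ) = (R : Set Γ) ∪ (R : Set Γ)⁻¹ := by
    ext s
    rw [Finset.mem_coe, hmem]
    rfl
  have hB1 : ∀ s ∈ B, (QuotientGroup.mk s : Γ ⧸ L) ≠ 1 := by
    intro s hs
    rcases (hmem s).mp hs with h | h
    · exact hR1 s h
    · have := hR1 _ h
      rw [hmki] at this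
      exact fun h' => this (by rw [h', inv_one])
  rw [← hBR]
  obtain ⟨x, hxR, hxy⟩ := hx
  have hcR : ∀ c ∈ B, c ≠ y → c ≠ y⁻¹ → ∃ d ∈ R, d ≠ y ∧ (c = d ∨ c = d⁻¹) := by
    intro c hc h1 h2
    rcases (hmem c).mp hc with h | h
    · exact ⟨c, h, h1, Or.inl rfl⟩
    · exact ⟨c⁻¹, h, fun h' => h2 (by rw [← h', inv_inv]), Or.inr (inv_inv c).symm⟩
  refine hub_block_of_data hX hT (MonoidHom.id Γ) (fun γ => γ) (fun _ _ => rfl) hTF
    (QuotientGroup.mk' L) (QuotientGroup.mk'_surjective L) (fun k hk =>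
      hL.isOfFinOrder ((QuotientGroup.eq_one_iff k).mp hk)) hT1 hTfin hsep (B := B) ?_ ?_ ?_
    (fun γ => γ) (fun _ _ => rfl) (y := y) ?_ ?_ Q hQ1 hQy ?_ ?_
  · intro s hs
    rcases (hmem s).mp hs with h | h
    · exact hRT s h
    · have := hT _ (hRT _ h)
      rwa [inv_inv] at this
  · intro s hs
    rw [hmem, inv_inv]
    exact ((hmem s).mp hs).symm
  · intro s hs
    exact ne_inv_of_mk hTF (hB1 s hs)
  · exact (hmem y).mpr (Or.inl hy)
  · refine ⟨x, (hmem x).mpr (Or.inl hxR), hxy, fun h => ?_⟩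
    apply hnp x hxR hxy
    rw [h, hmki]
    exact (Par.refl _).inv_left
  · intro c hc h1 h2 k
    obtain ⟨d, hd, hdy, rfl | rfl⟩ := hcR c hc h1 h2
    · exact hQc _ hd hdy k
    · exact even_inv (hQc _ hd hdy) k
  · intro c hc h1 h2
    obtain ⟨d, hd, hdy, h3⟩ := hcR c hc h1 h2
    refine not_cyclic_of_not_par (hB1 c hc) (hR1 y hy) ?_
    rcases h3 with rfl | rfl
    · exact hnp _ hd hdy
    · intro h4
      apply hnp d hd hdy
      rw [QuotientGroup.mk'_apply, hmki] at h4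
      exact par_inv_left.mp h4

include hX hT1 hT hTfin hsep hL hTF in
open Classical in
/-- Parity blocks. -/
theorem parity_block_R {R : Finset Γ} (hR1 : ∀ x ∈ R, (QuotientGroup.mk x : Γ ⧸ L) ≠ 1)
    (hRT : ∀ x ∈ R, x ∈ T)
    (hnp : ∀ x ∈ R, ∃ t ∈ R, ¬ Par (QuotientGroup.mk x : Γ ⧸ L) (QuotientGroup.mk t))
    (S : Γ → ℝ) (hS1 : ∀ k, S k = 1 ∨ S k = -1) (hSo : ∀ c ∈ R, ∀ k, S (c * k) = - S k) :
    BorelBlock ((R : Set Γ) ∪ (R : Set Γ)⁻¹) X := by
  have hmki : ∀ a : Γ, (QuotientGroup.mk a⁻¹ : Γ ⧸ L) = (QuotientGroup.mk a)⁻¹ := fun _ => rfl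
  set B : Finset Γ := R ∪ R.image (fun s => s⁻¹) with hBdef
  have hmem : ∀ s, s ∈ B ↔ s ∈ R ∨ s⁻¹ ∈ R := by
    intro s
    rw [hBdef, Finset.mem_union, Finset.mem_image]
    constructor
    · rintro (h | ⟨t, ht, rfl⟩)
      · exact Or.inl h
      · right; rwa [inv_inv]
    · rintro (h | h)
      · exact Or.inl h
      · exact Or.inr ⟨s⁻¹, h, inv_inv s⟩
  have hBR : (B : Set Γ) = (R : Set Γ) ∪ (R : Set Γ)⁻¹ := by
    ext s
    rw [Finset.mem_coe, hmem]
    rfl
  have hB1 : ∀ s ∈ B, (QuotientGroup.mk s : Γ ⧸ L) ≠ 1 := by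
    intro s hs
    rcases (hmem s).mp hs with h | h
    · exact hR1 s h
    · have := hR1 _ h
      rw [hmki] at this
      exact fun h' => this (by rw [h', inv_one])
  rw [← hBR]
  refine parity_block_of_data hX hT (MonoidHom.id Γ) (fun γ => γ) (fun _ _ => rfl) hTF
    (QuotientGroup.mk' L) (QuotientGroup.mk'_surjective L) (fun k hk =>
      hL.isOfFinOrder ((QuotientGroup.eq_one_iff k).mp hk)) hT1 hTfin hsep (B := B) ?_ ?_ ?_
    (fun γ => γ) (fun _ _ => rfl) S hS1 ?_ ?_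
  · intro s hs
    rcases (hmem s).mp hs with h | h
    · exact hRT s h
    · have := hT _ (hRT _ h)
      rwa [inv_inv] at this
  · intro s hs
    rw [hmem, inv_inv]
    exact ((hmem s).mp hs).symm
  · intro s hs
    exact ne_inv_of_mk hTF (hB1 s hs)
  · intro s hs k
    rcases (hmem s).mp hs with h | h
    · exact hSo s h k
    · have := hSo _ h (s * k)
      rw [inv_mul_cancel_left] at this
      linarith
  · have key : ∀ s ∈ R, ∃ t ∈ R, t ≠ s ∧ t ≠ s⁻¹ ∧
        ¬ Par (QuotientGroup.mk s : Γ ⧸ L) (QuotientGroup.mk t) := by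
      intro s hs
      obtain ⟨t, ht, h⟩ := hnp s hs
      refine ⟨t, ht, fun h' => h (by rw [h']; exact Par.refl _), fun h' => h ?_, h⟩
      rw [h', hmki]
      exact par_inv_right.mpr (Par.refl _)
    intro s hs
    rcases (hmem s).mp hs with h | h
    · obtain ⟨t, ht, h1, h2, h3⟩ := key s h
      exact ⟨t, (hmem t).mpr (Or.inl ht), h1, h2, not_cyclic_of_not_par (hB1 s hs) (hR1 t ht) h3⟩
    · obtain ⟨t, ht, h1, h2, h3⟩ := key _ h
      rw [inv_inv] at h2
      refine ⟨t, (hmem t).mpr (Or.inl ht), h2, h1, not_cyclic_of_not_par (hB1 s hs) (hR1 t ht) ?_⟩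
      intro h4
      apply h3
      rw [hmki]
      exact h4.inv_left

include hX hT1 hT hTfin hsep hL hTF in
open Classical in
/-- Stars. -/
theorem star_block_nil {z v0 : Γ} {R : Finset Γ}
    (hR1 : ∀ x ∈ R, (QuotientGroup.mk x : Γ ⧸ L) ≠ 1) (hRT : ∀ x ∈ R, x ∈ T) (hz : z ∈ R)
    (hv0 : v0 ∈ R) (hnp : ¬ Par (QuotientGroup.mk v0 : Γ ⧸ L) (QuotientGroup.mk z))
    (hpar : ∀ v ∈ R, v ≠ z → Par (QuotientGroup.mk v : Γ ⧸ L) (QuotientGroup.mk v0)) :
    BorelBlock ((R : Set Γ) ∪ (R : Set Γ)⁻¹) X := by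
  obtain ⟨w, hw, hw'⟩ := par_finset_nil hTF
    ((R.erase z).image (QuotientGroup.mk : Γ → Γ ⧸ L)) (s0 := QuotientGroup.mk v0) (by
      intro x hx
      obtain ⟨v, hv, rfl⟩ := Finset.mem_image.mp hx
      exact hpar v (Finset.mem_of_mem_erase hv) (Finset.ne_of_mem_erase hv))
  have hwv : ∀ v ∈ R, v ≠ z → (QuotientGroup.mk v : Γ ⧸ L) ∈ zpowers w := fun v hv hvz =>
    hw' _ (Finset.mem_image.mpr ⟨v, Finset.mem_erase.mpr ⟨hvz, hv⟩, rfl⟩)
  have hvz : v0 ≠ z := fun h => hnp (by rw [h]; exact Par.refl _)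
  have hw1 : w ≠ 1 := by
    rintro rfl
    have := hwv v0 hv0 hvz
    rw [zpowers_one_eq_bot, mem_bot] at this
    exact hR1 v0 hv0 this
  have hwz : ¬ Par w (QuotientGroup.mk z : Γ ⧸ L) := fun h => hnp (hw.symm.trans h)
  obtain ⟨φ, ψ, h1, h2, h3, h4⟩ := exists_homs_closure hTF
    (not_cyclic_of_not_par hw1 (hR1 z hz) hwz)
  obtain ⟨Q, hQ1, hQ2, hQ3⟩ := exists_sign _ ψ
  have hQw : ∀ k, Q (w * k) = Q k := fun k => hQ2 _ k h3
  have hQwn : ∀ (n : ℤ) k, Q (w ^ n * k) = Q k := by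
    intro n
    induction n using Int.induction_on with
    | zero => intro k; simp
    | succ i ih =>
      intro k
      rw [zpow_add_one, mul_assoc, ih, hQw]
    | pred i ih =>
      intro k
      rw [zpow_sub_one, mul_assoc, ih]
      exact even_inv hQw k
  refine hub_block_R hX hT1 hT hTfin hsep hL hTF hR1 hRT hz ⟨v0, hv0, hvz⟩ ?_ Q hQ1
    (fun k => hQ3 _ k h4) ?_
  · intro c hc hcz h
    exact hnp ((hpar c hc hcz).symm.trans h)
  · intro c hc hcz k
    obtain ⟨n, hn⟩ := mem_zpowers_iff.mp (hwv c hc hcz)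
    rw [← hn]
    exact hQwn n k

include hX hT1 hT hTfin hsep hL hTF in
open Classical in
theorem pair_splits_nil {a b : Γ} (ha : (QuotientGroup.mk a : Γ ⧸ L) ≠ 1)
    (hb : (QuotientGroup.mk b : Γ ⧸ L) ≠ 1) (haT : a ∈ T) (hbT : b ∈ T)
    (hnp : ¬ Par (QuotientGroup.mk a : Γ ⧸ L) (QuotientGroup.mk b)) :
    SplitsB X ({a, b} : Finset Γ) := by
  apply splitsB_of_block
  refine star_block_nil hX hT1 hT hTfin hsep hL hTF (z := b) (v0 := a) ?_ ?_ (by simp) (by simp)
    hnp ?_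
  · intro x hx
    simp only [Finset.mem_insert, Finset.mem_singleton] at hx
    rcases hx with rfl | rfl
    · exact ha
    · exact hb
  · intro x hx
    simp only [Finset.mem_insert, Finset.mem_singleton] at hx
    rcases hx with rfl | rfl
    · exact haT
    · exact hbT
  · intro v hv hvb
    simp only [Finset.mem_insert, Finset.mem_singleton] at hv
    rcases hv with rfl | rfl
    · exact Par.refl _
    · exact absurd rfl hvb

include hX hT1 hT hTfin hsep hL hTF in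
open Classical in
/-- Good triples. -/
theorem triple_block_nil {R : Finset Γ} (hR1 : ∀ x ∈ R, (QuotientGroup.mk x : Γ ⧸ L) ≠ 1)
    (hRT : ∀ x ∈ R, x ∈ T) (hcard : 2 ≤ R.card)
    (hnp : ∀ x ∈ R, ∀ y ∈ R, x ≠ y → ¬ Par (QuotientGroup.mk x : Γ ⧸ L) (QuotientGroup.mk y))
    (s : Γ ⧸ L → ℝ) (hs1 : ∀ k, s k = 1 ∨ s k = -1)
    (hgood : (∀ x ∈ R, ∀ k, s (QuotientGroup.mk x * k) = - s k) ∨
      ∃ y ∈ R, (∀ k, s (QuotientGroup.mk y * k) = - s k) ∧
        ∀ x ∈ R, x ≠ y → ∀ k, s (QuotientGroup.mk x * k) = s k) :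
    BorelBlock ((R : Set Γ) ∪ (R : Set Γ)⁻¹) X := by
  have hother : ∀ x ∈ R, ∃ y ∈ R, y ≠ x := by
    intro x hx
    by_contra hcon
    push Not at hcon
    have : R ⊆ {x} := fun y hy => Finset.mem_singleton.mpr (hcon y hy)
    have := Finset.card_le_card this
    rw [Finset.card_singleton] at this
    omega
  rcases hgood with h | ⟨y, hy, h1, h2⟩
  · refine parity_block_R hX hT1 hT hTfin hsep hL hTF hR1 hRT ?_ (fun γ => s (QuotientGroup.mk γ))
      (fun k => hs1 _) (fun c hc k => h c hc (QuotientGroup.mk k))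
    intro x hx
    obtain ⟨y, hy, hyx⟩ := hother x hx
    exact ⟨y, hy, hnp x hx y hy hyx.symm⟩
  · exact hub_block_R hX hT1 hT hTfin hsep hL hTF hR1 hRT hy (hother y hy)
      (fun c hc hcy => hnp c hc y hy hcy) s hs1 h1 h2

end split

end Run7.h916
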