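import Pool.Agent.Run7.h916.NilMain

set_option autoImplicit false
set_option linter.unusedSectionVars false
set_option linter.unusedVariables false

/-!
The Borel chromatic index of groups which are locally finite by nilpotent.
-/

namespace Run7.h916

open Subgroup
open scoped Pointwise commutatorElement

universe u v

variable {Γ : Type u} [Group Γ]

/-- The sign of a homomorphism. -/
theorem exists_sign_two {G : Type u} [Group G] (χ : G →* Multiplicative (ZMod 2)) :
    ∃ s : G → ℝ, (∀ x, s x = 1 ∨ s x = -1) ∧ (∀ g, χ g = 1 → ∀ x, s (g * x) = s x) ∧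
      ∀ g, χ g ≠ 1 → ∀ x, s (g * x) = - s x := by
  classical
  have hone : Multiplicative.ofAdd (1 : ZMod 2) ≠ 1 := by decide
  have hone2 : Multiplicative.ofAdd (1 : ZMod 2) * Multiplicative.ofAdd (1 : ZMod 2) = 1 := by
    decide
  refine ⟨fun x => if χ x = 1 then 1 else -1, ?_, ?_, ?_⟩
  · intro x
    by_cases h : χ x = 1
    · exact Or.inl (if_pos h)
    · exact Or.inr (if_neg h)
  · intro g hg x
    simp only [map_mul, hg, one_mul]
  · intro g hg x
    have hg' : χ g = Multiplicative.ofAdd 1 := (mult_two_cases _).resolve_left hg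
    simp only [map_mul, hg']
    rcases mult_two_cases (χ x) with h | h
    · rw [h, mul_one, if_neg hone, if_pos rfl]
    · rw [h, hone2, if_pos rfl, if_neg hone, neg_neg]

open Classical in
/-- **The chromatic index for torsion-free nilpotent quotients.** -/
theorem chromaticIndex_tf_nil {X : Type v} [MulAction Γ X] [MeasurableSpace X]
    [StandardBorelSpace X] {S : Finset Γ} (hS : IsMarking S) (hH : HypH S X)
    {K : Subgroup Γ} [hKn : K.Normal] (hK : IsLocallyFinite K) (hnil : Group.IsNilpotent (Γ ⧸ K))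
    (hTF : TF (Γ ⧸ K)) (hcyc : ¬ IsCyclic (Γ ⧸ K))
    (hex : S.card ≠ 6 ∨ ∃ χ : Γ →* Multiplicative (ZMod 2), (∀ x ∈ K, χ x = 1) ∧
      ¬ 4 ∣ (S.filter (fun s => χ s ≠ 1)).card) :
    borelChromaticIndex (schreierGraph S X) = S.card := by
  have hmki : ∀ a : Γ, (QuotientGroup.mk a⁻¹ : Γ ⧸ K) = (QuotientGroup.mk a)⁻¹ := fun _ => rfl
  obtain ⟨hX, hcount, T, hT1, hT, hTfin, hgenT, hST, hsep⟩ := exists_setup hS hH
  by_cases hSL : ∃ z ∈ S, z ∈ K
  · obtain ⟨z, hz, hzL⟩ := hSL
    refine chromaticIndex_pivot hS hH hK hz (hK.isOfFinOrder hzL) fun v _ _ => Or.inl ?_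
    have h1 := K.mul_mem hzL (hKn.conj_mem _ (K.inv_mem hzL) v)
    have e : z * v * z⁻¹ * v⁻¹ = z * (v * z⁻¹ * v⁻¹) := by group
    rw [e]; exact h1
  · push Not at hSL
    have hS1 : ∀ s ∈ S, (QuotientGroup.mk s : Γ ⧸ K) ≠ 1 := by
      intro s hs h
      exact hSL s hs ((QuotientGroup.eq_one_iff s).mp h)
    -- representatives
    let R : Finset Γ := S.filter (fun s => WellOrderingRel s s⁻¹)
    have hRS : ∀ s ∈ R, s ∈ S := fun s hs => (Finset.mem_filter.mp hs).1
    have hcases : ∀ s ∈ S, s ∈ R ∨ s⁻¹ ∈ R := by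
      intro s hs
      rcases trichotomous_of WellOrderingRel s s⁻¹ with h | h | h
      · exact Or.inl (Finset.mem_filter.mpr ⟨hs, h⟩)
      · exact absurd h (ne_inv_of_mk hTF (hS1 s hs))
      · exact Or.inr (Finset.mem_filter.mpr ⟨hS.inv_mem s hs, by rwa [inv_inv]⟩)
    have hRinv : ∀ s ∈ R, s⁻¹ ∉ R := by
      intro s hs hs'
      have h1 := (Finset.mem_filter.mp hs).2
      have h2 := (Finset.mem_filter.mp hs').2
      rw [inv_inv] at h2
      exact asymm_of WellOrderingRel h1 h2
    have hnp : ∃ x ∈ R, ∃ y ∈ R, ¬ Par (QuotientGroup.mk x : Γ ⧸ K) (QuotientGroup.mk y) := by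
      by_contra hcon
      push Not at hcon
      apply hcyc
      have hgen : closure ((S.image (QuotientGroup.mk : Γ → Γ ⧸ K) : Finset (Γ ⧸ K)) :
          Set (Γ ⧸ K)) = ⊤ := by
        rw [Finset.coe_image]
        have h1 := MonoidHom.map_closure (QuotientGroup.mk' K) (S : Set Γ)
        rw [hS.closure_eq, ← MonoidHom.range_eq_map, MonoidHom.range_eq_top.mpr
          (QuotientGroup.mk'_surjective K)] at h1
        exact h1.symm
      by_cases hemp : ∃ s0, s0 ∈ R
      · obtain ⟨s0, hs0⟩ := hemp
        refine cyclic_of_par_nil hTF (s0 := QuotientGroup.mk s0) _ ?_ hgen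
        intro x hx
        obtain ⟨s, hs, rfl⟩ := Finset.mem_image.mp hx
        rcases hcases s hs with h | h
        · exact hcon s h s0 hs0
        · have := hcon _ h s0 hs0
          rw [hmki] at this
          exact par_inv_left.mp this
      · push Not at hemp
        refine cyclic_of_par_nil hTF (s0 := 1) _ ?_ hgen
        intro x hx
        obtain ⟨s, hs, rfl⟩ := Finset.mem_image.mp hx
        rcases hcases s hs with h | h
        · exact absurd h (hemp s)
        · exact absurd h (hemp _)
    -- counting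
    have hcount2 : ∀ P : Γ → Prop, (∀ s, P s⁻¹ ↔ P s) →
        (S.filter P).card = 2 * (R.filter P).card := by
      intro P hP
      have h1 : S.filter P = R.filter P ∪ (R.filter P).image (fun s => s⁻¹) := by
        ext s
        simp only [Finset.mem_union, Finset.mem_image, Finset.mem_filter]
        constructor
        · rintro ⟨h, hp⟩
          rcases hcases s h with h' | h'
          · exact Or.inl ⟨h', hp⟩
          · exact Or.inr ⟨s⁻¹, ⟨h', (hP s).mpr hp⟩, inv_inv s⟩
        · rintro (⟨h, hp⟩ | ⟨t, ⟨h, hp⟩, rfl⟩)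
          · exact ⟨hRS s h, hp⟩
          · exact ⟨hS.inv_mem t (hRS t h), (hP t).mpr hp⟩
      have h2 : Disjoint (R.filter P) ((R.filter P).image (fun s => s⁻¹)) := by
        rw [Finset.disjoint_left]
        intro s hs hs'
        obtain ⟨t, ht, rfl⟩ := Finset.mem_image.mp hs'
        exact hRinv t (Finset.mem_filter.mp ht).1 (Finset.mem_filter.mp hs).1
      rw [h1, Finset.card_union_of_disjoint h2, Finset.card_image_of_injective _ inv_injective]
      ring
    have hsplit : SplitsB X R := by
      by_cases h3 : R.card = 3 → ∃ x ∈ R, ∃ y ∈ R, x ≠ y ∧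
          Par (QuotientGroup.mk x : Γ ⧸ K) (QuotientGroup.mk y)
      · exact splits_nil hX hT1 hT hTfin hsep hK hTF _ R rfl (fun x hx => hS1 x (hRS x hx))
          (fun x hx => hST x (hRS x hx)) hnp h3
      · push Not at h3
        obtain ⟨hc3, hpw⟩ := h3
        have hS6 : S.card = 6 := by
          have := hcount2 (fun _ => True) (fun _ => Iff.rfl)
          rw [Finset.filter_true, Finset.filter_true] at this
          omega
        rcases hex with hex | ⟨χ, hχK, hχ⟩
        · exact absurd hS6 hex
        · have hχinv : ∀ s, χ s⁻¹ ≠ 1 ↔ χ s ≠ 1 := by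
            intro s
            rw [map_inv, ne_eq, inv_eq_one]
          have h5 : (S.filter (fun s => χ s ≠ 1)).card = 2 * (R.filter (fun s => χ s ≠ 1)).card := by
            convert hcount2 (fun s => χ s ≠ 1) hχinv
          rw [h5] at hχ
          obtain ⟨s, hs1, hs2, hs3⟩ := exists_sign_two (QuotientGroup.lift K χ hχK)
          have hlift : ∀ x : Γ, QuotientGroup.lift K χ hχK (QuotientGroup.mk x) = χ x :=
            fun x => rfl
          apply splitsB_of_block
          refine triple_block_nil hX hT1 hT hTfin hsep hK hTF (fun x hx => hS1 x (hRS x hx))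
            (fun x hx => hST x (hRS x hx)) (by omega) hpw s hs1 ?_
          have hle : (R.filter (fun s => χ s ≠ 1)).card ≤ 3 := by
            rw [← hc3]
            exact Finset.card_filter_le _ _
          have hcs : (R.filter (fun s => χ s ≠ 1)).card = 1 ∨
              (R.filter (fun s => χ s ≠ 1)).card = 3 := by
            omega
          rcases hcs with h1 | h1
          · right
            obtain ⟨y, hy⟩ := Finset.card_eq_one.mp h1
            have hyR := Finset.mem_filter.mp (hy ▸ Finset.mem_singleton_self y :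
              y ∈ R.filter (fun s => χ s ≠ 1))
            refine ⟨y, hyR.1, fun k => hs3 _ (by rw [hlift]; exact hyR.2) k, ?_⟩
            intro x hx hxy k
            refine hs2 _ ?_ k
            rw [hlift]
            by_contra hcon
            have : x ∈ R.filter (fun s => χ s ≠ 1) := Finset.mem_filter.mpr ⟨hx, hcon⟩
            rw [hy, Finset.mem_singleton] at this
            exact hxy this
          · left
            have hall : R.filter (fun s => χ s ≠ 1) = R :=
              Finset.eq_of_subset_of_card_le (Finset.filter_subset _ _) (by omega)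
            intro x hx k
            rw [← hall] at hx
            exact hs3 _ (by rw [hlift]; exact (Finset.mem_filter.mp hx).2) k
    obtain ⟨col, hcol⟩ := hsplit
    refine chromaticIndex_of_borelBlocks hS hH (ι := ℕ)
      (B := fun n => {x | x ∈ R ∧ col x = n} ∪ ({x | x ∈ R ∧ col x = n} : Set Γ)⁻¹)
      ?_ ?_ ?_ hcol
    · rintro i j s (⟨h1, h2⟩ | ⟨h1, h2⟩) (⟨h3, h4⟩ | ⟨h3, h4⟩)
      · rw [← h2, ← h4]
      · exact absurd h3 (hRinv s h1)
      · exact absurd h1 (hRinv s h3)
      · rw [← h2, ← h4]
    · rintro i s (hs | hs)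
      · right; rw [Set.mem_inv, inv_inv]; exact hs
      · left; exact hs
    · ext s
      simp only [Set.mem_iUnion, Finset.mem_coe]
      constructor
      · rintro ⟨i, ⟨h1, _⟩ | ⟨h1, _⟩⟩
        · exact hRS s h1
        · have := hS.inv_mem _ (hRS _ h1)
          rwa [inv_inv] at this
      · intro hs
        rcases hcases s hs with h | h
        · exact ⟨col s, Or.inl ⟨h, rfl⟩⟩
        · exact ⟨col s⁻¹, Or.inr ⟨h, rfl⟩⟩

/-- **The chromatic index for groups which are locally finite by nilpotent.** -/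
theorem chromaticIndex_nilpotent {X : Type v} [MulAction Γ X] [MeasurableSpace X]
    [StandardBorelSpace X] {S : Finset Γ} (hS : IsMarking S) (hH : HypH S X)
    {L : Subgroup Γ} (hLn : L.Normal) (hL : IsLocallyFinite L)
    (hnil : Group.IsNilpotent (Γ ⧸ L))
    (hcyc : ∀ (K : Subgroup Γ) (_ : K.Normal), IsLocallyFinite K → ¬ IsCyclic (Γ ⧸ K))
    (hex : S.card ≠ 6 ∨ (∀ x y w : Γ, ⁅⁅x, y⁆, w⁆ ∈ L) ∨
      ∃ χ : Γ →* Multiplicative (ZMod 2), (∀ x, IsOfFinOrder x → χ x = 1) ∧
        ¬ 4 ∣ Set.ncard {s : Γ | s ∈ S ∧ χ s ≠ 1}) :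
    borelChromaticIndex (schreierGraph S X) = S.card := by
  have key : (S.card ≠ 6 ∨ ∃ χ : Γ →* Multiplicative (ZMod 2), (∀ x, IsOfFinOrder x → χ x = 1) ∧
        ¬ 4 ∣ Set.ncard {s : Γ | s ∈ S ∧ χ s ≠ 1}) →
      borelChromaticIndex (schreierGraph S X) = S.card := by
    intro hex
    obtain ⟨K, hKn, hK, hnilK, hTF, hKmem⟩ := exists_isolator_nil hL hnil
    refine chromaticIndex_tf_nil hS hH hK hnilK hTF (hcyc K hKn hK) ?_
    rcases hex with h | ⟨χ, h1, h2⟩
    · exact Or.inl h
    · refine Or.inr ⟨χ, fun x hx => h1 x ((hKmem x).mp hx), ?_⟩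
      have e : {s : Γ | s ∈ S ∧ χ s ≠ 1} = ((S.filter (fun s => χ s ≠ 1) : Finset Γ) : Set Γ) := by
        ext s
        simp
      rw [e, Set.ncard_coe_finset] at h2
      convert h2
  rcases hex with h | h | h
  · exact key (Or.inl h)
  · exact chromaticIndex_class2 hS hH hLn hL h hcyc
  · exact key (Or.inr h)

end Run7.h916
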