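import Pool.Agent.Run7.h916.Conv

set_option autoImplicit false
set_option linter.unusedSectionVars false

/-!
Null flows: bounded sums of flows of closed words; the crossing lemma.
-/

namespace Run7.h916

open Set
open scoped commutatorElement

universe u v w

variable {K : Type u} [Group K] {g : Bool → K}

/-- A flow on the group is null if it is a finite sum of flows of closed words with bounded
weights. -/
def Null (g : Bool → K) (D : K → Lt → ℝ) : Prop :=
  ∃ (L : List ((K → ℝ) × List Lt)) (C : ℝ), 0 ≤ C ∧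
    (∀ p ∈ L, wval g p.2 = 1 ∧ ∀ x, |p.1 x| ≤ C) ∧
    ∀ y s, D y s = (L.map (fun p => conv g p.1 p.2 y s)).sum

theorem Null.congr {D E : K → Lt → ℝ} (h : Null g D) (hE : ∀ y s, E y s = D y s) : Null g E := by
  obtain ⟨L, C, h0, h1, h2⟩ := h
  exact ⟨L, C, h0, h1, fun y s => by rw [hE, h2]⟩

theorem Null.add {D E : K → Lt → ℝ} (h : Null g D) (h' : Null g E) :
    Null g (fun y s => D y s + E y s) := by
  obtain ⟨L, C, h0, h1, h2⟩ := h
  obtain ⟨L', C', h0', h1', h2'⟩ := h'
  refine ⟨L ++ L', C + C', by positivity, ?_, ?_⟩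
  · intro p hp
    rcases List.mem_append.mp hp with hp | hp
    · exact ⟨(h1 p hp).1, fun x => ((h1 p hp).2 x).trans (by linarith)⟩
    · exact ⟨(h1' p hp).1, fun x => ((h1' p hp).2 x).trans (by linarith)⟩
  · intro y s
    simp only [List.map_append, List.sum_append]
    rw [h2, h2']

theorem null_closed {a : K → ℝ} {w : List Lt} {C : ℝ} (hC : 0 ≤ C) (hw : wval g w = 1)
    (ha : ∀ x, |a x| ≤ C) : Null g (conv g a w) := by
  refine ⟨[(a, w)], C, hC, ?_, ?_⟩
  · intro p hp
    simp only [List.mem_singleton] at hp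
    subst hp
    exact ⟨hw, ha⟩
  · intro y s; simp

/-- The words of the crossing lemma. -/
def hseq (Wt : List Lt) (H : List Lt) : ℕ → List Lt
  | 0 => H
  | k + 1 => winv Wt ++ (hseq Wt H k ++ (Wt ++ winv (hseq Wt H k)))

theorem wval_hseq_succ (Wt H : List Lt) (k : ℕ) :
    wval g (hseq Wt H (k + 1)) = ⁅(wval g (hseq Wt H k))⁻¹, wval g Wt⁆ := by
  rw [hseq, wval_append, wval_append, wval_append, wval_winv, wval_winv, commutatorElement_def]
  simp [mul_assoc]

theorem hseq_mem (Wt H : List Lt) (k : ℕ) :
    wval g (hseq Wt H k) ∈ (⊤ : Subgroup K).lowerCentralSeries k := by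
  induction k with
  | zero => simp
  | succ k ih =>
    rw [wval_hseq_succ]
    exact Subgroup.commutator_mem_commutator (inv_mem ih) (Subgroup.mem_top _)

theorem hseq_inv {Y : Type v} [MulAction K Y] {Wt H : List Lt} {a : Y → ℝ}
    (hh : ∀ x, a (wval g H • x) = a x) (ht : ∀ x, a (wval g Wt • x) = - a x) (k : ℕ) :
    ∀ x, a (wval g (hseq Wt H k) • x) = a x := by
  induction k with
  | zero => exact hh
  | succ k ih =>
    intro x
    have ihi : ∀ x, a ((wval g (hseq Wt H k))⁻¹ • x) = a x := fun x => by
      rw [← ih ((wval g (hseq Wt H k))⁻¹ • x), smul_inv_smul]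
    have hti : ∀ x, a ((wval g Wt)⁻¹ • x) = - a x := fun x => by
      have := ht ((wval g Wt)⁻¹ • x)
      rw [smul_inv_smul] at this
      linarith
    rw [wval_hseq_succ, commutatorElement_def, inv_inv]
    simp only [mul_smul]
    rw [ihi, ht, ih, hti]
    ring

theorem conv_hseq {Y : Type v} [MulAction K Y] {Wt H : List Lt} {a : Y → ℝ}
    (hh : ∀ x, a (wval g H • x) = a x) (ht : ∀ x, a (wval g Wt • x) = - a x) (k : ℕ) (y : Y)
    (s : Lt) : conv g a (hseq Wt H (k + 1)) y s = - 2 * conv g a (hseq Wt H k) y s := by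
  have ih := hseq_inv hh ht k
  have ihi : ∀ x, a ((wval g (hseq Wt H k))⁻¹ • x) = a x := fun x => by
    rw [← ih ((wval g (hseq Wt H k))⁻¹ • x), smul_inv_smul]
  have hti : ∀ x, a ((wval g Wt)⁻¹ • x) = - a x := fun x => by
    have := ht ((wval g Wt)⁻¹ • x)
    rw [smul_inv_smul] at this
    linarith
  rw [hseq, conv_append, conv_append, conv_append, conv_winv, conv_winv]
  simp only [wval_winv, inv_inv]
  simp only [ht, hti, ih, ihi, neg_neg]
  have e1 : conv g (fun x => - a x) Wt y s = - conv g a Wt y s := by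
    have := conv_smul (g := g) (-1) a Wt y s
    simpa using this
  have e2 : conv g (fun x => - a x) (hseq Wt H k) y s = - conv g a (hseq Wt H k) y s := by
    have := conv_smul (g := g) (-1) a (hseq Wt H k) y s
    simpa using this
  rw [e1, e2]
  ring

theorem conv_hseq' {Y : Type v} [MulAction K Y] {Wt H : List Lt} {a : Y → ℝ}
    (hh : ∀ x, a (wval g H • x) = a x) (ht : ∀ x, a (wval g Wt • x) = - a x) (k : ℕ) (y : Y)
    (s : Lt) : conv g a H y s = conv g (fun x => (-1 / 2) ^ k * a x) (hseq Wt H k) y s := by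
  rw [conv_smul]
  induction k with
  | zero => simp [hseq]
  | succ k ih =>
    rw [conv_hseq hh ht, ih, pow_succ]
    ring

/-- **Crossing lemma**: the flow of a word `H` with weights invariant under the value of `H` and
odd for some element of the group is null, in nilpotent groups. -/
theorem null_crossing [Group.IsNilpotent K] {Wt H : List Lt} {a : K → ℝ} {C : ℝ}
    (hC : 0 ≤ C) (ha : ∀ x, |a x| ≤ C)
    (hh : ∀ x, a (wval g H * x) = a x) (ht : ∀ x, a (wval g Wt * x) = - a x) :
    Null g (conv g a H) := by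
  obtain ⟨n, hn⟩ := Subgroup.nilpotent_iff_lowerCentralSeries.mp (inferInstance : Group.IsNilpotent K)
  have h1 : wval g (hseq Wt H n) = 1 := by
    have := hseq_mem (g := g) Wt H n
    rw [hn] at this
    simpa using this
  refine (null_closed (a := fun x => (-1 / 2) ^ n * a x) hC h1 ?_).congr ?_
  · intro x
    rw [abs_mul, abs_pow]
    have : |(-1 / 2 : ℝ)| ^ n ≤ 1 := by
      apply pow_le_one₀ (abs_nonneg _)
      rw [abs_le]; constructor <;> norm_num
    have h0 := abs_nonneg (a x)
    have := ha x
    nlinarith [abs_nonneg (a x)]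
  · intro y s
    exact conv_hseq' hh ht n y s

theorem conv_wpow {Y : Type v} [MulAction K Y] {W : List Lt} {a : Y → ℝ}
    (hh : ∀ x, a (wval g W • x) = a x) (m : ℕ) (y : Y) (s : Lt) :
    conv g a (wpow W m) y s = m * conv g a W y s := by
  have hhi : ∀ x, a ((wval g W)⁻¹ • x) = a x := fun x => by
    rw [← hh ((wval g W)⁻¹ • x), smul_inv_smul]
  induction m with
  | zero => simp [wpow]
  | succ m ih =>
    rw [wpow, conv_append]
    simp only [hhi]
    rw [ih]
    push_cast
    ring

theorem map_lval {G : Type w} [Group G] (π : K →* G) (l : Lt) :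
    π (lval g l) = lval (fun i => π (g i)) l := by
  unfold lval
  split_ifs <;> simp

theorem map_wval {G : Type w} [Group G] (π : K →* G) (w : List Lt) :
    π (wval g w) = wval (fun i => π (g i)) w := by
  induction w with
  | nil => simp
  | cons l w ih => simp [ih, map_lval]

/-- Null flows can be lifted along homomorphisms whose kernel is a torsion group. -/
theorem Null.lift {G : Type w} [Group G] {π : K →* G} (hπ : ∀ k, π k = 1 → IsOfFinOrder k)
    {D : G → Lt → ℝ} (h : Null (fun i => π (g i)) D) : Null g (fun k s => D (π k) s) := by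
  classical
  obtain ⟨L, C, h0, h1, h2⟩ := h
  let m : List Lt → ℕ := fun W => if IsOfFinOrder (wval g W) then orderOf (wval g W) else 1
  have hm : ∀ W, 1 ≤ m W := by
    intro W
    simp only [m]
    split_ifs with h
    · exact h.orderOf_pos
    · exact le_rfl
  refine ⟨L.map (fun p => (fun k => (m p.2 : ℝ)⁻¹ * p.1 (π k), wpow p.2 (m p.2))), C, h0, ?_, ?_⟩
  · intro p hp
    obtain ⟨p', hp', rfl⟩ := List.mem_map.mp hp
    obtain ⟨h3, h4⟩ := h1 p' hp'
    have hf : IsOfFinOrder (wval g p'.2) := hπ _ (by rw [map_wval]; exact h3)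
    refine ⟨?_, ?_⟩
    · simp only
      rw [wval_wpow]
      simp only [m]
      rw [if_pos hf, pow_orderOf_eq_one]
    · intro x
      simp only
      rw [abs_mul]
      have h5 : |((m p'.2 : ℝ))⁻¹| ≤ 1 := by
        rw [abs_of_nonneg (by positivity)]
        apply inv_le_one_of_one_le₀
        exact_mod_cast hm p'.2
      have h6 := h4 (π x)
      nlinarith [abs_nonneg (p'.1 (π x)), abs_nonneg ((m p'.2 : ℝ))⁻¹]
  · intro y s
    simp only
    rw [h2, List.map_map]
    congr 1
    refine List.map_congr_left fun p hp => ?_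
    obtain ⟨h3, h4⟩ := h1 p hp
    simp only [Function.comp]
    rw [conv_smul, conv_wpow (a := fun k : K => p.1 (π k))]
    · have hne : (m p.2 : ℝ) ≠ 0 := by
        have := hm p.2
        positivity
      rw [← mul_assoc, inv_mul_cancel₀ hne, one_mul]
      have := conv_transport (g := g) (g' := fun i => π (g i)) (q := fun k : K => π k) 1 p.2
        (fun k => p.1 (π k)) p.1 y (fun x _ => by rw [one_mul])
        (fun x _ l => by rw [smul_eq_mul, smul_eq_mul, map_mul, map_lval]) s
      rw [one_mul] at this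
      exact this.symm
    · intro x
      rw [smul_eq_mul, map_mul, map_wval, h3, one_mul]

end Run7.h916
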