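import Pool.Agent.Run7.h916.Hub

set_option autoImplicit false
set_option linter.unusedSectionVars false

/-!
The odd triple of commuting directions.
-/

namespace Run7.h916

open Set Relation
open scoped Pointwise commutatorElement

universe u v

/-- Alternating paths for two commuting directions, local version. -/
theorem cross_loc {Γ : Type u} [Group Γ] {v z : Γ} {φ ψ : Γ → ZMod 2}
    (hφv : ∀ γ, φ (v * γ) = φ γ + 1) (hψz : ∀ γ, ψ (z * γ) = ψ γ + 1) {Λ : Set Γ}
    (hc : v * z = z * v) (hψv : ∀ γ ∈ Λ, ψ (v * γ) = ψ γ)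
    (hψv' : ∀ γ ∈ Λ, ψ (v⁻¹ * γ) = ψ γ)
    (hloc : ∀ γ ∈ Λ, ψ γ = 1 → φ (z⁻¹ * γ) = φ γ) :
    CrossOK v z φ ψ {1, v, z, z * v} Λ := by
  classical
  have one_add : (1 : ZMod 2) + 1 = 0 := by decide
  have hne : (1 : ZMod 2) ≠ 0 := by decide
  have hφv' : ∀ γ, φ (v⁻¹ * γ) = φ γ + 1 := phase_inv hφv
  have hψz' : ∀ γ, ψ (z⁻¹ * γ) = ψ γ + 1 := phase_inv hψz
  let g : Γ → Γ := fun γ => if ψ γ = 0 then γ else z⁻¹ * γ
  let o : Γ → Γ := fun γ => if φ (g γ) = 0 then g γ else v⁻¹ * g γ
  have ho_of : ∀ γ γ' : Γ, g γ' = g γ → o γ' = o γ := fun γ γ' h => by simp only [o, h]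
  have ho_v : ∀ γ γ' : Γ, φ (g γ) = 0 → g γ' = v * g γ → o γ' = o γ := by
    intro γ γ' h0 h
    simp only [o, h, hφv, h0, zero_add, if_true, if_neg hne]
    rw [inv_mul_cancel_left]
  refine ⟨o, fun γ hγ => ⟨?_, ?_, ?_⟩⟩
  · -- the colour `v`
    unfold nb
    rcases zmod2_cases (ψ γ) with hq | hq
    · have hg : g γ = γ := by simp only [g, hq, if_true]
      rcases zmod2_cases (φ γ) with hp | hp
      · rw [if_pos hp]
        refine ho_v _ _ (by rw [hg]; exact hp) ?_
        simp only [g, hψv γ hγ, hq, if_true]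
      · rw [if_neg (by rw [hp]; exact hne)]
        symm
        have hg' : g (v⁻¹ * γ) = v⁻¹ * γ := by simp only [g, hψv' γ hγ, hq, if_true]
        refine ho_v _ _ (by rw [hg', hφv', hp, one_add]) ?_
        rw [hg, hg', mul_inv_cancel_left]
    · have hg : g γ = z⁻¹ * γ := by simp only [g, hq, if_neg hne]
      have hg1 : g (v * γ) = z⁻¹ * (v * γ) := by simp only [g, hψv γ hγ, hq, if_neg hne]
      have hg2 : g (v⁻¹ * γ) = z⁻¹ * (v⁻¹ * γ) := by simp only [g, hψv' γ hγ, hq, if_neg hne]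
      have hz1 : z⁻¹ * v = v * z⁻¹ := by
        rw [inv_mul_eq_iff_eq_mul, ← mul_assoc, ← hc, mul_assoc, mul_inv_cancel, mul_one]
      have hc1 : z⁻¹ * (v * γ) = v * (z⁻¹ * γ) := by
        rw [← mul_assoc, hz1, mul_assoc]
      have hc2 : v * (z⁻¹ * (v⁻¹ * γ)) = z⁻¹ * γ := by
        rw [← mul_assoc v, ← hz1]
        group
      have hl := hloc γ hγ hq
      rcases zmod2_cases (φ γ) with hp | hp
      · rw [if_pos hp]
        refine ho_v _ _ (by rw [hg, hl, hp]) ?_
        rw [hg, hg1, hc1]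
      · rw [if_neg (by rw [hp]; exact hne)]
        symm
        have hl2 : φ (g (v⁻¹ * γ)) = 0 := by
          have h3 := hφv (g (v⁻¹ * γ))
          rw [hg2, hc2, hl, hp] at h3
          rw [hg2]
          rcases zmod2_cases (φ (z⁻¹ * (v⁻¹ * γ))) with h4 | h4
          · exact h4
          · rw [h4, one_add] at h3
            exact absurd h3 hne
        refine ho_v _ _ hl2 ?_
        rw [hg, hg2, hc2]
  · -- the colour `z`
    unfold nb
    rcases zmod2_cases (ψ γ) with hq | hq
    · rw [if_pos hq]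
      apply ho_of
      simp only [g, hψz, hq, zero_add, if_neg hne, if_true, inv_mul_cancel_left]
    · rw [if_neg (by rw [hq]; exact hne)]
      apply ho_of
      simp only [g, hψz', hq, one_add, if_true, if_neg hne]
  · have hgo : g γ = o γ ∨ g γ = v * o γ := by
      simp only [o]
      split_ifs
      · exact Or.inl rfl
      · right; rw [mul_inv_cancel_left]
    have hγg : γ = g γ ∨ γ = z * g γ := by
      simp only [g]
      split_ifs
      · exact Or.inl rfl
      · right; rw [mul_inv_cancel_left]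
    simp only [mem_insert_iff, mem_singleton_iff]
    rcases hγg with h | h <;> rcases hgo with h' | h'
    · left; rw [← h', ← h, mul_inv_cancel]
    · right; left
      rw [mul_inv_eq_iff_eq_mul, ← h', ← h]
    · right; right; left
      rw [mul_inv_eq_iff_eq_mul, ← h', ← h]
    · right; right; right
      rw [mul_inv_eq_iff_eq_mul, mul_assoc, ← h', ← h]

variable {Γ : Type u} [Group Γ]

/-- Change of a phase with the help of a commuting direction, local version. -/
theorem flip_loc {L : Subgroup Γ} [hLn : L.Normal] {B : Set Γ} (hB : ∀ s ∈ B, s⁻¹ ∈ B)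
    {f : Γ → Γ → ZMod 2} (hf : IsPhase B f) {v z : Γ} (hv : v ∈ B) (hz : z ∈ B)
    (hvv : v ≠ v⁻¹) (hvz : v ≠ z) (hvz' : v⁻¹ ≠ z) (hzz : z ≠ z⁻¹) {V Z : Γ ⧸ L}
    (hV : V = QuotientGroup.mk v) (hZ : Z = QuotientGroup.mk z) {fv fz : Γ ⧸ L → ZMod 2}
    (hfv : f v = fun γ => fv (QuotientGroup.mk γ)) (hfz : f z = fun γ => fz (QuotientGroup.mk γ))
    (hc : V * Z = Z * V) {φ : Γ ⧸ L → ZMod 2} (hφ : ∀ g, φ (V * g) = φ g + 1)
    (h1 : ∀ g, fv (V * g) = fv g + 1) (h2 : ∀ g, fz (Z * g) = fz g + 1)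
    (c1 : ∀ g, φ g ≠ fv g → fz (V * g) = fz g)
    (c2 : ∀ g, fz g = 0 → (φ (Z * g) ≠ fv (Z * g) ↔ φ g ≠ fv g))
    (c3 : ∀ g, φ g ≠ fv g → fz g = 1 → fv (Z⁻¹ * g) = fv g)
    {F : Set (Γ ⧸ L)} (hF1 : (1 : Γ ⧸ L) ∈ F) (hFV : V ∈ F) (hFV' : V⁻¹ ∈ F) (hFZ : Z ∈ F)
    (hFZV : Z * V ∈ F) (hFZV' : Z * V⁻¹ ∈ F) :
    Reach B (pre L (F * F⁻¹)) 3 (kap f)
      (kap (setPhase f v (fun γ => φ (QuotientGroup.mk γ)))) := by
  have hmk : ∀ a b : Γ, (QuotientGroup.mk (a * b) : Γ ⧸ L) =
      QuotientGroup.mk a * QuotientGroup.mk b := fun _ _ => rfl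
  have hmki : ∀ a : Γ, (QuotientGroup.mk a⁻¹ : Γ ⧸ L) = (QuotientGroup.mk a)⁻¹ := fun _ => rfl
  have hΛV : ∀ g, φ (V⁻¹ * g) ≠ fv (V⁻¹ * g) ↔ φ g ≠ fv g := by
    intro g
    rw [phase_inv hφ, phase_inv h1]
    constructor
    · intro h h'; exact h (by rw [h'])
    · intro h h'; exact h (add_right_cancel h')
  have hΛV' : ∀ g, φ (V * g) ≠ fv (V * g) ↔ φ g ≠ fv g := by
    intro g
    rw [hφ, h1]
    constructor
    · intro h h'; exact h (by rw [h'])
    · intro h h'; exact h (add_right_cancel h')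
  have c1' : ∀ g, φ g ≠ fv g → fz (V⁻¹ * g) = fz g := by
    intro g hg
    have := c1 (V⁻¹ * g) ((hΛV g).mpr hg)
    rw [mul_inv_cancel_left] at this
    exact this.symm
  refine flip_perm' (F := pre L F) hB hf hv hz hvv hvz hvz' hzz ?_ ?_ ?_ ?_ ?_ ?_
  · intro γ
    simp only [hmk, ← hV]
    rw [hφ]
  · exact hF1
  · intro a ha c hc
    rw [mem_pre, hmk, hmki]
    exact Set.mul_mem_mul ha (by rw [Set.mem_inv, inv_inv]; exact hc)
  · intro γ hγ
    rw [hfz] at hγ
    simp only [hfv, hmk, ← hZ]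
    exact c2 _ hγ
  · have := CrossOK.pull (L := L) (c := v) (d := z) (φ := fv) (ψ := fz)
      (Λ := {g | φ g ≠ fv g}) (F := {1, V, Z, Z * V}) (by
        rw [← hV, ← hZ]
        exact cross_loc h1 h2 hc c1 c1' c3)
    rw [hfv, hfz]
    refine this.mono ?_ (fun γ h => h)
    intro γ h
    rw [mem_pre] at h ⊢
    rcases h with h | h | h | h
    · rw [h]; exact hF1
    · rw [h]; exact hFV
    · rw [h]; exact hFZ
    · rw [h]; exact hFZV
  · have hc' : V⁻¹ * Z = Z * V⁻¹ := by
      rw [inv_mul_eq_iff_eq_mul, ← mul_assoc, hc, mul_assoc, mul_inv_cancel, mul_one]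
    have := CrossOK.pull (L := L) (c := v⁻¹) (d := z) (φ := fv) (ψ := fz)
      (Λ := {g | φ g ≠ fv g}) (F := {1, V⁻¹, Z, Z * V⁻¹}) (by
        rw [hmki, ← hV, ← hZ]
        exact cross_loc (phase_inv h1) h2 hc' c1' (fun g hg => by rw [inv_inv]; exact c1 g hg)
          c3)
    rw [hfv, hfz]
    refine this.mono ?_ (fun γ h => h)
    intro γ h
    rw [mem_pre] at h ⊢
    rcases h with h | h | h | h
    · rw [h]; exact hF1
    · rw [h]; exact hFV'
    · rw [h]; exact hFZ
    · rw [h]; exact hFZV'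

theorem invariant_inv' {G α : Type*} [Group G] {v : G} {φ : G → α}
    (h : ∀ γ, φ (v * γ) = φ γ) (γ : G) : φ (v⁻¹ * γ) = φ γ := by
  have := h (v⁻¹ * γ)
  rw [mul_inv_cancel_left] at this
  exact this.symm

theorem add_inv' {G : Type*} [Group G] {v : G} {φ : G → ZMod 4}
    (h : ∀ γ, φ (v * γ) = φ γ + 1) (γ : G) : φ (v⁻¹ * γ) = φ γ - 1 := by
  have := h (v⁻¹ * γ)
  rw [mul_inv_cancel_left] at this
  rw [this]; ring

/-- The parity of an element of `ZMod 4`. -/
def par4 (x : ZMod 4) : ZMod 2 := if x = 0 ∨ x = 2 then 0 else 1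

/-- The indicator of `{0, 1}`. -/
def i01 (x : ZMod 4) : ZMod 2 := if x = 0 ∨ x = 1 then 1 else 0

theorem par4_add (x y : ZMod 4) : par4 (x + y) = par4 x + par4 y := by
  revert x y; decide

open Classical in
/-- The phases of a triple. -/
noncomputable def trip {L : Subgroup Γ} (a b c : Γ) (fa fb fc : Γ ⧸ L → ZMod 2) :
    Γ → Γ → ZMod 2 :=
  fun s γ => if s = a ∨ s = a⁻¹ then fa (QuotientGroup.mk γ)
    else if s = b ∨ s = b⁻¹ then fb (QuotientGroup.mk γ)
    else if s = c ∨ s = c⁻¹ then fc (QuotientGroup.mk γ) else 0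

open Classical in
/-- **The odd triple of commuting directions is flexible.** -/
theorem flexible_odd {L : Subgroup Γ} [hLn : L.Normal] (hL : IsLocallyFinite L) {a b c : Γ}
    {A B C : Γ ⧸ L} (hA : A = QuotientGroup.mk a) (hB : B = QuotientGroup.mk b)
    (hC : C = QuotientGroup.mk c) (haa : a ≠ a⁻¹) (hAB : A * B = B * A) (hAC : A * C = C * A)
    {ν : Γ ⧸ L → ZMod 4} {μ : Γ ⧸ L → ZMod 2} (νA : ∀ g, ν (A * g) = ν g)
    (νB : ∀ g, ν (B * g) = ν g + 1) (νC : ∀ g, ν (C * g) = ν g + 1)
    (μA : ∀ g, μ (A * g) = μ g + 1) (μB : ∀ g, μ (B * g) = μ g)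
    (μC : ∀ g, μ (C * g) = μ g + 1) :
    Flexible (({a, b, c} : Set Γ) ∪ ({a, b, c} : Set Γ)⁻¹) := by
  have hmk : ∀ a b : Γ, (QuotientGroup.mk (a * b) : Γ ⧸ L) =
      QuotientGroup.mk a * QuotientGroup.mk b := fun _ _ => rfl
  have hmki : ∀ a : Γ, (QuotientGroup.mk a⁻¹ : Γ ⧸ L) = (QuotientGroup.mk a)⁻¹ := fun _ => rfl
  -- inverse versions
  have νA' : ∀ g, ν (A⁻¹ * g) = ν g := invariant_inv' νA
  have νB' : ∀ g, ν (B⁻¹ * g) = ν g - 1 := add_inv' νB
  have νC' : ∀ g, ν (C⁻¹ * g) = ν g - 1 := add_inv' νC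
  have μA' : ∀ g, μ (A⁻¹ * g) = μ g + 1 := phase_inv μA
  have μB' : ∀ g, μ (B⁻¹ * g) = μ g := invariant_inv μB
  have μC' : ∀ g, μ (C⁻¹ * g) = μ g + 1 := phase_inv μC
  have n1 : ∀ x : ZMod 4, x ≠ x + 1 := by decide
  have n2 : ∀ x : ZMod 4, x ≠ x - 1 := by decide
  have n3 : ∀ x : ZMod 4, x + 1 ≠ x - 1 := by decide
  have n4 : ∀ x : ZMod 2, x ≠ x + 1 := by decide
  -- the directions are different
  have hAB1 : A ≠ B := fun h => n1 (ν 1) (by rw [← νB 1, ← h, νA 1])
  have hAB2 : A⁻¹ ≠ B := fun h => n1 (ν 1) (by rw [← νB 1, ← h, νA' 1])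
  have hAC1 : A ≠ C := fun h => n1 (ν 1) (by rw [← νC 1, ← h, νA 1])
  have hAC2 : A⁻¹ ≠ C := fun h => n1 (ν 1) (by rw [← νC 1, ← h, νA' 1])
  have hBC1 : B ≠ C := fun h => n4 (μ 1) (by rw [← μC 1, ← h, μB 1])
  have hBC2 : B⁻¹ ≠ C := fun h => n4 (μ 1) (by rw [← μC 1, ← h, μB' 1])
  have hab : a ≠ b := fun h => hAB1 (by rw [hA, hB, h])
  have hab' : a⁻¹ ≠ b := fun h => hAB2 (by rw [hA, hB, ← h, hmki])
  have hac : a ≠ c := fun h => hAC1 (by rw [hA, hC, h])
  have hac' : a⁻¹ ≠ c := fun h => hAC2 (by rw [hA, hC, ← h, hmki])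
  have hbc : b ≠ c := fun h => hBC1 (by rw [hB, hC, h])
  have hbc' : b⁻¹ ≠ c := fun h => hBC2 (by rw [hB, hC, ← h, hmki])
  have hBB : B ≠ B⁻¹ := fun h => n3 (ν 1) (by rw [← νB 1, ← νB' 1, ← h])
  have hCC : C ≠ C⁻¹ := fun h => n3 (ν 1) (by rw [← νC 1, ← νC' 1, ← h])
  have hbb : b ≠ b⁻¹ := fun h => hBB (by rw [hB, ← hmki, ← h])
  have hcc : c ≠ c⁻¹ := fun h => hCC (by rw [hC, ← hmki, ← h])
  have flipinv : ∀ x y : Γ, x⁻¹ ≠ y → y⁻¹ ≠ x := fun x y h h' => h (by rw [← h', inv_inv])
  have flipinv2 : ∀ x y : Γ, x ≠ y → x⁻¹ ≠ y⁻¹ := fun x y h h' => h (inv_injective h')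
  have flipinv3 : ∀ x y : Γ, x⁻¹ ≠ y → x ≠ y⁻¹ := fun x y h h' => h (by rw [h', inv_inv])
  set S : Set Γ := ({a, b, c} : Set Γ) ∪ ({a, b, c} : Set Γ)⁻¹ with hS
  have hSfin : S.Finite := (Set.toFinite _).union (Set.toFinite _).inv
  have haS : a ∈ S := Or.inl (Or.inl rfl)
  have hbS : b ∈ S := Or.inl (Or.inr (Or.inl rfl))
  have hcS : c ∈ S := Or.inl (Or.inr (Or.inr rfl))
  have hSinv : ∀ s ∈ S, s⁻¹ ∈ S := by
    rintro s (hs | hs)
    · right; rw [Set.mem_inv, inv_inv]; exact hs
    · left; exact hs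
  have hcS' : c⁻¹ ∈ S := hSinv c hcS
  have hScases : ∀ s ∈ S, (s = a ∨ s = a⁻¹) ∨ (s = b ∨ s = b⁻¹) ∨ (s = c ∨ s = c⁻¹) := by
    rintro s (hs | hs)
    · rcases hs with h | h | h
      · exact Or.inl (Or.inl h)
      · exact Or.inr (Or.inl (Or.inl h))
      · exact Or.inr (Or.inr (Or.inl h))
    · rw [Set.mem_inv] at hs
      rcases hs with h | h | h
      · exact Or.inl (Or.inr (by rw [← h, inv_inv]))
      · exact Or.inr (Or.inl (Or.inr (by rw [← h, inv_inv])))
      · exact Or.inr (Or.inr (Or.inr (by rw [← h, inv_inv])))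
  have iffinv : ∀ s x : Γ, (s⁻¹ = x ∨ s⁻¹ = x⁻¹) ↔ (s = x ∨ s = x⁻¹) := by
    intro s x
    constructor
    · rintro (h | h)
      · right; rw [← h, inv_inv]
      · left; exact inv_injective h
    · rintro (h | h)
      · right; rw [h]
      · left; rw [h, inv_inv]
  have hbna : ¬ (b = a ∨ b = a⁻¹) := by
    rintro (h | h)
    · exact hab h.symm
    · exact hab' h.symm
  have hcna : ¬ (c = a ∨ c = a⁻¹) := by
    rintro (h | h)
    · exact hac h.symm
    · exact hac' h.symm
  have hcnb : ¬ (c = b ∨ c = b⁻¹) := by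
    rintro (h | h)
    · exact hbc h.symm
    · exact hbc' h.symm
  have exclb : ∀ s : Γ, (s = b ∨ s = b⁻¹) → ¬ (s = a ∨ s = a⁻¹) := by
    rintro s (rfl | rfl)
    · exact hbna
    · rw [iffinv]; exact hbna
  have exclc : ∀ s : Γ, (s = c ∨ s = c⁻¹) → ¬ (s = a ∨ s = a⁻¹) := by
    rintro s (rfl | rfl)
    · exact hcna
    · rw [iffinv]; exact hcna
  have exclcb : ∀ s : Γ, (s = c ∨ s = c⁻¹) → ¬ (s = b ∨ s = b⁻¹) := by
    rintro s (rfl | rfl)
    · exact hcnb
    · rw [iffinv]; exact hcnb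
  -- evaluation of the triple of phases
  have ta : ∀ (fa fb fc : Γ ⧸ L → ZMod 2) (s : Γ), (s = a ∨ s = a⁻¹) →
      trip a b c fa fb fc s = fun γ => fa (QuotientGroup.mk γ) := by
    intro fa fb fc s h
    unfold trip
    simp only [if_pos h]
  have tb : ∀ (fa fb fc : Γ ⧸ L → ZMod 2) (s : Γ), (s = b ∨ s = b⁻¹) →
      trip a b c fa fb fc s = fun γ => fb (QuotientGroup.mk γ) := by
    intro fa fb fc s h
    unfold trip
    simp only [if_pos h, if_neg (exclb s h)]
  have tc : ∀ (fa fb fc : Γ ⧸ L → ZMod 2) (s : Γ), (s = c ∨ s = c⁻¹) →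
      trip a b c fa fb fc s = fun γ => fc (QuotientGroup.mk γ) := by
    intro fa fb fc s h
    unfold trip
    simp only [if_pos h, if_neg (exclc s h), if_neg (exclcb s h)]
  have t0 : ∀ (fa fb fc : Γ ⧸ L → ZMod 2) (s : Γ), ¬ (s = a ∨ s = a⁻¹) → ¬ (s = b ∨ s = b⁻¹) →
      ¬ (s = c ∨ s = c⁻¹) → trip a b c fa fb fc s = fun _ => 0 := by
    intro fa fb fc s h h' h''
    unfold trip
    simp only [if_neg h, if_neg h', if_neg h'']
  have sa : ∀ fa fb fc fa' : Γ ⧸ L → ZMod 2, setPhase (trip a b c fa fb fc) a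
      (fun γ => fa' (QuotientGroup.mk γ)) = trip a b c fa' fb fc := by
    intro fa fb fc fa'
    funext s
    by_cases h : s = a ∨ s = a⁻¹
    · rw [setPhase_self h, ta _ _ _ s h]
    · rw [setPhase_other h]
      unfold trip
      simp only [if_neg h]
  have sb : ∀ fa fb fc fb' : Γ ⧸ L → ZMod 2, setPhase (trip a b c fa fb fc) b
      (fun γ => fb' (QuotientGroup.mk γ)) = trip a b c fa fb' fc := by
    intro fa fb fc fb'
    funext s
    by_cases h : s = b ∨ s = b⁻¹
    · rw [setPhase_self h, tb _ _ _ s h]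
    · rw [setPhase_other h]
      unfold trip
      simp only [if_neg h]
  have sc : ∀ fa fb fc fc' : Γ ⧸ L → ZMod 2, setPhase (trip a b c fa fb fc) c
      (fun γ => fc' (QuotientGroup.mk γ)) = trip a b c fa fb fc' := by
    intro fa fb fc fc'
    funext s
    by_cases h : s = c ∨ s = c⁻¹
    · rw [setPhase_self h, tc _ _ _ s h]
    · rw [setPhase_other h]
      unfold trip
      simp only [if_neg h]
  have hph : ∀ fa fb fc : Γ ⧸ L → ZMod 2, (∀ g, fa (A * g) = fa g + 1) →
      (∀ g, fb (B * g) = fb g + 1) → (∀ g, fc (C * g) = fc g + 1) →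
      IsPhase S (trip a b c fa fb fc) := by
    intro fa fb fc pa pb pc
    refine ⟨fun s _ => ?_, fun s hs _ γ => ?_⟩
    · unfold trip
      simp only [iffinv]
    · rcases hScases s hs with h | h | h
      · rw [ta _ _ _ s h]
        rcases h with h | h
        · simp only [h, hmk, ← hA]; exact pa _
        · simp only [h, hmk, hmki, ← hA]; exact phase_inv pa _
      · rw [tb _ _ _ s h]
        rcases h with h | h
        · simp only [h, hmk, ← hB]; exact pb _
        · simp only [h, hmk, hmki, ← hB]; exact phase_inv pb _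
      · rw [tc _ _ _ s h]
        rcases h with h | h
        · simp only [h, hmk, ← hC]; exact pc _
        · simp only [h, hmk, hmki, ← hC]; exact phase_inv pc _
  -- the bound
  let T : Set (Γ ⧸ L) := {1, A, A⁻¹, B, B⁻¹, C, C⁻¹}
  let F : Set (Γ ⧸ L) := T * T
  have hF : F.Finite := (Set.toFinite T).mul (Set.toFinite T)
  have T1 : (1 : Γ ⧸ L) ∈ T := by simp [T]
  have TA : A ∈ T := by simp [T]
  have TA' : A⁻¹ ∈ T := by simp [T]
  have TB : B ∈ T := by simp [T]
  have TB' : B⁻¹ ∈ T := by simp [T]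
  have TC : C ∈ T := by simp [T]
  have TC' : C⁻¹ ∈ T := by simp [T]
  have F1 : ∀ x ∈ T, x ∈ F := fun x hx => ⟨1, T1, x, hx, by simp⟩
  have F2 : ∀ x ∈ T, ∀ y ∈ T, x * y ∈ F := fun x hx y hy => Set.mul_mem_mul hx hy
  -- the main claim
  have main : ∀ k m : Γ ⧸ L → ZMod 2, (∀ g, k (A * g) = k g) → (∀ g, k (B * g) = k g) →
      (∀ g, k (C * g) = k g) → (∀ g, m (A * g) = m g) → (∀ g, m (B * g) = m g) →
      Reach S (pre L (F * F⁻¹)) 21
        (kap (trip a b c μ (fun g => par4 (ν g)) (fun g => par4 (ν g))))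
        (kap (trip a b c (fun g => μ g + m g) (fun g => par4 (ν g) + k g)
          (fun g => par4 (ν g) + k g))) := by
    intro k m kA kB kC mA mB
    have kB' := invariant_inv' kB
    have kC' := invariant_inv' kC
    have kA' := invariant_inv' kA
    have mB' := invariant_inv' mB
    have pP1 : ∀ x : ZMod 4, par4 (x + 1) = par4 x + 1 := by decide
    have pP2 : ∀ x : ZMod 4, par4 (x - 1) = par4 x + 1 := by decide
    have one_add : (1 : ZMod 2) + 1 = 0 := by decide
    -- F1
    have r1 : Reach S (pre L (F * F⁻¹)) 3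
        (kap (trip a b c μ (fun g => par4 (ν g)) (fun g => par4 (ν g))))
        (kap (trip a b c (fun g => μ g + k g * i01 (ν g)) (fun g => par4 (ν g))
          (fun g => par4 (ν g)))) := by
      rw [← sa μ (fun g => par4 (ν g)) (fun g => par4 (ν g))
        (fun g => μ g + k g * i01 (ν g))]
      refine flip_loc (φ := fun g => μ g + k g * i01 (ν g))
        (fv := μ) (fz := fun g => par4 (ν g)) hSinv (hph μ
        (fun g => par4 (ν g))
        (fun g => par4 (ν g)) μA ?_ ?_) haS hbS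
        haa hab hab' hbb hA hB (ta μ
        (fun g => par4 (ν g))
        (fun g => par4 (ν g)) a (Or.inl rfl)) (tb μ
        (fun g => par4 (ν g))
        (fun g => par4 (ν g)) b (Or.inl rfl)) hAB ?_ μA ?_
        ?_ ?_ ?_ (F1 _ T1) (F1 _ TA) (F1 _ TA') (F1 _ TB) (F2 _ TB _ TA) (F2 _ TB _ TA')
      · intro g; simp only [νB, pP1]
      · intro g; simp only [νC, pP1]
      · intro g; simp only [μA, kA, νA]; ring
      · intro g; simp only [νB, pP1]
      · intro g _; simp only [νA]
      · intro g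
        simp only [μB, kB, νB]
        generalize μ g = x, k g = y, ν g = z
        revert x y z; decide
      · intro g _ _
        exact μB' g
    -- F2
    have r2 : Reach S (pre L (F * F⁻¹)) 3
        (kap (trip a b c (fun g => μ g + k g * i01 (ν g)) (fun g => par4 (ν g))
          (fun g => par4 (ν g))))
        (kap (trip a b c (fun g => μ g + k g * par4 (ν g)) (fun g => par4 (ν g))
          (fun g => par4 (ν g)))) := by
      rw [← sa (fun g => μ g + k g * i01 (ν g)) (fun g => par4 (ν g)) (fun g => par4 (ν g))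
        (fun g => μ g + k g * par4 (ν g))]
      refine flip_loc (φ := fun g => μ g + k g * par4 (ν g))
        (z := c⁻¹) (Z := C⁻¹) (fv := fun g => μ g + k g * i01 (ν g))
        (fz := fun g => par4 (ν g)) hSinv (hph (fun g => μ g + k g * i01 (ν g))
        (fun g => par4 (ν g))
        (fun g => par4 (ν g)) ?_ ?_ ?_) haS hcS'
        haa (flipinv3 _ _ hac') (flipinv2 _ _ hac) (fun h => hcc (inv_injective h)) hA
        (by rw [hmki, ← hC]) (ta (fun g => μ g + k g * i01 (ν g))
        (fun g => par4 (ν g))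
        (fun g => par4 (ν g)) a (Or.inl rfl)) (tc (fun g => μ g + k g * i01 (ν g))
        (fun g => par4 (ν g))
        (fun g => par4 (ν g)) c⁻¹ (Or.inr rfl)) ?_ ?_ ?_ ?_
        ?_ ?_ ?_ (F1 _ T1) (F1 _ TA) (F1 _ TA') (F1 _ TC') (F2 _ TC' _ TA) (F2 _ TC' _ TA')
      · intro g; simp only [μA, kA, νA]; ring
      · intro g; simp only [νB, pP1]
      · intro g; simp only [νC, pP1]
      · exact (show Commute A C from hAC).inv_right.eq
      · intro g; simp only [μA, kA, νA]; ring
      · intro g; simp only [μA, kA, νA]; ring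
      · intro g; simp only [νC', pP2]
      · intro g _; simp only [νA]
      · intro g
        simp only [μC', kC', νC']
        generalize μ g = x, k g = y, ν g = z
        revert x y z; decide
      · intro g
        rw [inv_inv]
        simp only [μC, kC, νC]
        generalize μ g = x, k g = y, ν g = z
        revert x y z; decide
    -- F3
    have r3 : Reach S (pre L (F * F⁻¹)) 3
        (kap (trip a b c (fun g => μ g + k g * par4 (ν g)) (fun g => par4 (ν g))
          (fun g => par4 (ν g))))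
        (kap (trip a b c (fun g => μ g + k g * par4 (ν g)) (fun g => par4 (ν g))
          (fun g => par4 (ν g) + k g))) := by
      rw [← sc (fun g => μ g + k g * par4 (ν g)) (fun g => par4 (ν g)) (fun g => par4 (ν g))
        (fun g => par4 (ν g) + k g)]
      refine flip_loc (φ := fun g => par4 (ν g) + k g)
        (v := c) (z := a) (V := C) (Z := A) (fv := fun g => par4 (ν g))
        (fz := fun g => μ g + k g * par4 (ν g)) hSinv (hph (fun g => μ g + k g * par4 (ν g))
        (fun g => par4 (ν g))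
        (fun g => par4 (ν g)) ?_ ?_ ?_) hcS haS
        hcc hac.symm (flipinv _ _ hac') haa hC hA
        (tc (fun g => μ g + k g * par4 (ν g))
        (fun g => par4 (ν g))
        (fun g => par4 (ν g)) c (Or.inl rfl)) (ta (fun g => μ g + k g * par4 (ν g))
        (fun g => par4 (ν g))
        (fun g => par4 (ν g)) a (Or.inl rfl)) hAC.symm ?_ ?_ ?_
        ?_ ?_ ?_ (F1 _ T1) (F1 _ TC) (F1 _ TC') (F1 _ TA) (F2 _ TA _ TC) (F2 _ TA _ TC')
      · intro g; simp only [μA, kA, νA]; ring
      · intro g; simp only [νB, pP1]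
      · intro g; simp only [νC, pP1]
      · intro g; simp only [νC, pP1, kC]; ring
      · intro g; simp only [νC, pP1]
      · intro g; simp only [μA, kA, νA]; ring
      · intro g
        simp only [μC, kC, νC]
        generalize μ g = x, k g = y, ν g = z
        revert x y z; decide
      · intro g _
        simp only [kA, νA]
      · intro g _ _
        simp only [νA']
    -- F4
    have r4 : Reach S (pre L (F * F⁻¹)) 3
        (kap (trip a b c (fun g => μ g + k g * par4 (ν g)) (fun g => par4 (ν g))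
          (fun g => par4 (ν g) + k g)))
        (kap (trip a b c (fun g => μ g + k g * i01 (ν g)) (fun g => par4 (ν g))
          (fun g => par4 (ν g) + k g))) := by
      rw [← sa (fun g => μ g + k g * par4 (ν g)) (fun g => par4 (ν g))
        (fun g => par4 (ν g) + k g) (fun g => μ g + k g * i01 (ν g))]
      refine flip_loc (φ := fun g => μ g + k g * i01 (ν g))
        (z := c) (Z := C) (fv := fun g => μ g + k g * par4 (ν g))
        (fz := fun g => par4 (ν g) + k g) hSinv (hph (fun g => μ g + k g * par4 (ν g))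
        (fun g => par4 (ν g))
        (fun g => par4 (ν g) + k g) ?_ ?_ ?_) haS hcS
        haa hac hac' hcc hA hC (ta (fun g => μ g + k g * par4 (ν g))
        (fun g => par4 (ν g))
        (fun g => par4 (ν g) + k g) a (Or.inl rfl)) (tc (fun g => μ g + k g * par4 (ν g))
        (fun g => par4 (ν g))
        (fun g => par4 (ν g) + k g) c (Or.inl rfl)) hAC ?_ ?_ ?_
        ?_ ?_ ?_ (F1 _ T1) (F1 _ TA) (F1 _ TA') (F1 _ TC) (F2 _ TC _ TA) (F2 _ TC _ TA')
      · intro g; simp only [μA, kA, νA]; ring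
      · intro g; simp only [νB, pP1]
      · intro g; simp only [νC, pP1, kC]; ring
      · intro g; simp only [μA, kA, νA]; ring
      · intro g; simp only [μA, kA, νA]; ring
      · intro g; simp only [νC, pP1, kC]; ring
      · intro g _; simp only [νA, kA]
      · intro g
        simp only [μC, kC, νC]
        generalize μ g = x, k g = y, ν g = z
        revert x y z; decide
      · intro g
        simp only [μC', kC', νC']
        generalize μ g = x, k g = y, ν g = z
        revert x y z; decide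
    -- F5
    have r5 : Reach S (pre L (F * F⁻¹)) 3
        (kap (trip a b c (fun g => μ g + k g * i01 (ν g)) (fun g => par4 (ν g))
          (fun g => par4 (ν g) + k g)))
        (kap (trip a b c μ (fun g => par4 (ν g)) (fun g => par4 (ν g) + k g))) := by
      rw [← sa (fun g => μ g + k g * i01 (ν g)) (fun g => par4 (ν g))
        (fun g => par4 (ν g) + k g) μ]
      refine flip_loc (φ := μ)
        (z := b) (Z := B) (fv := fun g => μ g + k g * i01 (ν g))
        (fz := fun g => par4 (ν g)) hSinv (hph (fun g => μ g + k g * i01 (ν g))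
        (fun g => par4 (ν g))
        (fun g => par4 (ν g) + k g) ?_ ?_ ?_) haS hbS
        haa hab hab' hbb hA hB (ta (fun g => μ g + k g * i01 (ν g))
        (fun g => par4 (ν g))
        (fun g => par4 (ν g) + k g) a (Or.inl rfl)) (tb (fun g => μ g + k g * i01 (ν g))
        (fun g => par4 (ν g))
        (fun g => par4 (ν g) + k g) b (Or.inl rfl)) hAB μA ?_
        ?_ ?_ ?_ ?_ (F1 _ T1) (F1 _ TA) (F1 _ TA') (F1 _ TB) (F2 _ TB _ TA) (F2 _ TB _ TA')
      · intro g; simp only [μA, kA, νA]; ring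
      · intro g; simp only [νB, pP1]
      · intro g; simp only [νC, pP1, kC]; ring
      · intro g; simp only [μA, kA, νA]; ring
      · intro g; simp only [νB, pP1]
      · intro g _; simp only [νA]
      · intro g
        simp only [μB, kB, νB]
        generalize μ g = x, k g = y, ν g = z
        revert x y z; decide
      · intro g
        simp only [μB', kB', νB']
        generalize μ g = x, k g = y, ν g = z
        revert x y z; decide
    -- F6
    have r6 : Reach S (pre L (F * F⁻¹)) 3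
        (kap (trip a b c μ (fun g => par4 (ν g)) (fun g => par4 (ν g) + k g)))
        (kap (trip a b c μ (fun g => par4 (ν g) + k g) (fun g => par4 (ν g) + k g))) := by
      rw [← sb μ (fun g => par4 (ν g)) (fun g => par4 (ν g) + k g) (fun g => par4 (ν g) + k g)]
      refine flip_loc (φ := fun g => par4 (ν g) + k g)
        (v := b) (z := a) (V := B) (Z := A) (fv := fun g => par4 (ν g))
        (fz := μ) hSinv (hph μ
        (fun g => par4 (ν g))
        (fun g => par4 (ν g) + k g) μA ?_ ?_) hbS haS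
        hbb hab.symm (flipinv _ _ hab') haa hB hA
        (tb μ
        (fun g => par4 (ν g))
        (fun g => par4 (ν g) + k g) b (Or.inl rfl)) (ta μ
        (fun g => par4 (ν g))
        (fun g => par4 (ν g) + k g) a (Or.inl rfl)) hAB.symm ?_ ?_ μA
        ?_ ?_ ?_ (F1 _ T1) (F1 _ TB) (F1 _ TB') (F1 _ TA) (F2 _ TA _ TB) (F2 _ TA _ TB')
      · intro g; simp only [νB, pP1]
      · intro g; simp only [νC, pP1, kC]; ring
      · intro g; simp only [νB, pP1, kB]; ring
      · intro g; simp only [νB, pP1]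
      · intro g _; exact μB g
      · intro g _
        simp only [kA, νA]
      · intro g _ _
        simp only [νA']
    -- F7
    have r7 : Reach S (pre L (F * F⁻¹)) 3
        (kap (trip a b c μ (fun g => par4 (ν g) + k g) (fun g => par4 (ν g) + k g)))
        (kap (trip a b c (fun g => μ g + m g) (fun g => par4 (ν g) + k g)
          (fun g => par4 (ν g) + k g))) := by
      rw [← sa μ (fun g => par4 (ν g) + k g) (fun g => par4 (ν g) + k g)
        (fun g => μ g + m g)]
      refine flip_loc (φ := fun g => μ g + m g)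
        (z := b) (Z := B) (fv := μ)
        (fz := fun g => par4 (ν g) + k g) hSinv (hph μ
        (fun g => par4 (ν g) + k g)
        (fun g => par4 (ν g) + k g) μA ?_ ?_) haS hbS
        haa hab hab' hbb hA hB (ta μ
        (fun g => par4 (ν g) + k g)
        (fun g => par4 (ν g) + k g) a (Or.inl rfl)) (tb μ
        (fun g => par4 (ν g) + k g)
        (fun g => par4 (ν g) + k g) b (Or.inl rfl)) hAB ?_ μA
        ?_ ?_ ?_ ?_ (F1 _ T1) (F1 _ TA) (F1 _ TA') (F1 _ TB) (F2 _ TB _ TA) (F2 _ TB _ TA')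
      · intro g; simp only [νB, pP1, kB]; ring
      · intro g; simp only [νC, pP1, kC]; ring
      · intro g; simp only [μA, mA]; ring
      · intro g; simp only [νB, pP1, kB]; ring
      · intro g _; simp only [νA, kA]
      · intro g _
        simp only [μB, mB]
      · intro g _ _
        exact μB' g
    exact (((((r1.trans r2).trans r3).trans r4).trans r5).trans r6).trans r7
  obtain ⟨E, hE, hEr⟩ := reach_bound hL hSfin (hF.mul hF.inv)
  refine ⟨kap (trip a b c μ (fun g => par4 (ν g)) (fun g => par4 (ν g))), 21, E, hE,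
    fun g => ?_⟩
  set h : Γ ⧸ L := QuotientGroup.mk g with hh
  have e := main (fun q => par4 (ν (q * h) - ν q)) (fun q => μ (q * h) + μ q)
    (fun q => by simp only [mul_assoc, νA])
    (fun q => by simp only [mul_assoc, νB]; congr 1; ring)
    (fun q => by simp only [mul_assoc, νC]; congr 1; ring)
    (fun q => by
      simp only [mul_assoc, μA]
      have one_add : (1 : ZMod 2) + 1 = 0 := by decide
      have : μ (q * h) + 1 + (μ q + 1) = μ (q * h) + μ q + (1 + 1) := by ring
      rw [this, one_add, add_zero])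
    (fun q => by simp only [mul_assoc, μB])
  refine (hEr _ _ _ e).congr_right hSinv ?_
  have hadd : ∀ x y : ZMod 2, x + (y + x) = y := by decide
  have hadd4 : ∀ x y : ZMod 4, par4 x + par4 (y - x) = par4 y := by decide
  intro γ s _
  unfold rtrans kap
  have : trip a b c (fun g => μ g + (μ (g * h) + μ g))
      (fun g => par4 (ν g) + par4 (ν (g * h) - ν g))
      (fun g => par4 (ν g) + par4 (ν (g * h) - ν g)) s γ =
      trip a b c μ (fun g => par4 (ν g)) (fun g => par4 (ν g)) s (γ * g) := by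
    unfold trip
    simp only [hadd, hadd4, hmk, ← hh]
  rw [this]

end Run7.h916
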