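import Pool.Agent.Run7.h916.Pattern

set_option autoImplicit false
set_option linter.unusedSectionVars false
set_option linter.unusedVariables false

/-!
The data on the group generated by a pair: parity, pattern, and the flows of the pattern and of the
lines.
-/

namespace Run7.h916

open Set
open scoped commutatorElement

universe u v w

variable {K : Type u} [Group K] {g : Bool → K}

/-- The flow of the lines. -/
noncomputable def DL (E : K → ℝ) (x : K) (l : Lt) : ℝ := E x * (if l.1 then -1 else 1)

/-- The flow of the pattern. -/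
noncomputable def DA (E F Q : K → ℝ) (x : K) (l : Lt) : ℝ :=
  E x * ((if l.2 then -1 else 1) * (if l.1 then Q x else F x))

/-- The data on the group generated by a pair. -/
structure Package (g : Bool → K) (E F Q : K → ℝ) : Prop where
  /-- The parity is a sign. -/
  E1 : ∀ x, E x = 1 ∨ E x = -1
  /-- `F` is a sign. -/
  F1 : ∀ x, F x = 1 ∨ F x = -1
  /-- `Q` is a sign. -/
  Q1 : ∀ x, Q x = 1 ∨ Q x = -1
  /-- The parity is odd. -/
  Eg : ∀ i x, E (g i * x) = - E x
  /-- `F` is odd for the first generator. -/
  Fv : ∀ x, F (g false * x) = - F x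
  /-- `Q` is invariant for the first generator. -/
  Qv : ∀ x, Q (g false * x) = Q x
  /-- `Q` is odd for the second generator. -/
  Qw : ∀ x, Q (g true * x) = - Q x
  /-- The cycles are bounded. -/
  per : ∃ N, 1 ≤ N ∧ ∀ x, (fun x => pst (g true) Q (pst (g false) F x))^[N] x = x
  /-- The flow of the lines is null. -/
  nullL : Null g (DL E)
  /-- The flow of the pattern is null. -/
  nullA : Null g (DA E F Q)
  /-- The flow of the lines is mobile. -/
  mobL : Mobile g (DL E)
  /-- The flow of the pattern is mobile. -/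
  mobA : Mobile g (DA E F Q)

theorem odd_inv {v : K} {E : K → ℝ} (h : ∀ x, E (v * x) = - E x) (x : K) :
    E (v⁻¹ * x) = - E x := by
  have := h (v⁻¹ * x)
  rw [mul_inv_cancel_left] at this
  linarith

theorem even_inv {v : K} {E : K → ℝ} (h : ∀ x, E (v * x) = E x) (x : K) :
    E (v⁻¹ * x) = E x := by
  rw [← h (v⁻¹ * x), mul_inv_cancel_left]

theorem odd_lval {E : K → ℝ} (h : ∀ i x, E (g i * x) = - E x) (l : Lt) (x : K) :
    E (lval g l * x) = - E x := by
  unfold lval
  split_ifs
  · exact odd_inv (h l.1) x
  · exact h l.1 x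

theorem DL_antisym {E : K → ℝ} (h : ∀ i x, E (g i * x) = - E x) : Antisym g (DL E) := by
  intro y s
  unfold DL
  rw [smul_eq_mul, odd_lval h]
  obtain ⟨i, j⟩ := s
  cases i <;> simp [linv]

theorem DL_pm {E : K → ℝ} (h : ∀ x, E x = 1 ∨ E x = -1) (x : K) (l : Lt) :
    DL E x l = 1 ∨ DL E x l = -1 := by
  unfold DL
  rcases h x with h | h <;> rw [h] <;> split_ifs <;> norm_num

theorem DA_pm {E F Q : K → ℝ} (hE : ∀ x, E x = 1 ∨ E x = -1) (hF : ∀ x, F x = 1 ∨ F x = -1)
    (hQ : ∀ x, Q x = 1 ∨ Q x = -1) (x : K) (l : Lt) :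
    DA E F Q x l = 1 ∨ DA E F Q x l = -1 := by
  unfold DA
  rcases hE x with h1 | h1 <;> rcases hF x with h2 | h2 <;> rcases hQ x with h3 | h3 <;>
    rw [h1, h2, h3] <;> split_ifs <;> norm_num

theorem DA_eq {E F Q : K → ℝ} (hEg : ∀ i x, E (g i * x) = - E x)
    (hFv : ∀ x, F (g false * x) = - F x) (hQw : ∀ x, Q (g true * x) = - Q x) (y : K) (s : Lt) :
    DA E F Q y s = conv g (fun x => 1 * (F x * E x)) [(false, false)] y s +
      conv g (fun x => Q x * E x) [(true, false)] y s := by
  have h1 := odd_inv (hEg false) y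
  have h2 := odd_inv (hEg true) y
  have h3 := odd_inv hFv y
  have h4 := odd_inv hQw y
  rw [conv_cons, conv_cons, conv_nil, conv_nil]
  unfold DA
  obtain ⟨i, j⟩ := s
  cases i <;> cases j <;> simp [linv, lval, h1, h2, h3, h4] <;> ring

theorem DA_antisym {E F Q : K → ℝ} (hEg : ∀ i x, E (g i * x) = - E x)
    (hFv : ∀ x, F (g false * x) = - F x) (hQw : ∀ x, Q (g true * x) = - Q x) :
    Antisym g (DA E F Q) := by
  intro y s
  rw [DA_eq hEg hFv hQw, DA_eq hEg hFv hQw, conv_antisym, conv_antisym]
  ring

/-- The flow of lines is the flow of a commutator word. -/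
theorem DL_eq {E : K → ℝ} (hEg : ∀ i x, E (g i * x) = - E x) (y : K) (s : Lt) :
    DL E y s = conv g (fun x => (1 / 2) * E x)
      [(false, false), (true, false), (false, true), (true, true)] y s := by
  have h1 := hEg false y
  have h2 := hEg true y
  have h3 := odd_inv (hEg false)
  have h4 := odd_inv (hEg true)
  have h5 := hEg false
  have h6 := hEg true
  simp only [conv_cons, conv_nil, smul_eq_mul]
  unfold DL
  obtain ⟨i, j⟩ := s
  cases i <;> cases j <;> simp [linv, lval, h1, h2, h3, h4, h5, h6] <;> ring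

theorem package_of_pattern [Group.IsNilpotent K] {E F Q : K → ℝ}
    (hE1 : ∀ x, E x = 1 ∨ E x = -1) (hEg : ∀ i x, E (g i * x) = - E x)
    (hP : IsPat g (g true) E F Q) : Package g E F Q := by
  have habs : ∀ {E : K → ℝ}, (∀ x, E x = 1 ∨ E x = -1) → ∀ x, |E x| = 1 := by
    intro E h x
    rcases h x with h | h <;> rw [h] <;> norm_num
  have hnL : Null g (DL E) := by
    refine (null_crossing (g := g) (Wt := [(false, false)])
      (H := [(false, false), (true, false), (false, true), (true, true)])
      (a := fun x => (1 / 2) * E x) (C := 1) zero_le_one ?_ ?_ ?_).congr (DL_eq hEg)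
    · intro x
      rw [abs_mul, habs hE1, abs_of_nonneg (by norm_num)]
      norm_num
    · intro x
      have e : wval g [(false, false), (true, false), (false, true), (true, true)] =
          (g true)⁻¹ * (g false)⁻¹ * g true * g false := by
        simp [lval, mul_assoc]
      rw [e]
      simp only [mul_assoc]
      rw [odd_inv (hEg true), odd_inv (hEg false), hEg true, hEg false]
      ring
    · intro x
      have e : wval g [(false, false)] = g false := by simp [lval]
      rw [e, hEg]
      ring
  have hnA : Null g (DA E F Q) := by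
    have h1 := hP.null (fun _ => 1) ⟨1, zero_le_one, fun x => by simp⟩ (fun _ => rfl) (fun _ => rfl)
    have h2 : Null g (conv g (fun x => Q x * E x) [(true, false)]) := by
      refine null_crossing (Wt := [(false, false)]) (C := 1) zero_le_one ?_ ?_ ?_
      · intro x
        rw [abs_mul, habs hE1, habs hP.Q1]
        norm_num
      · intro x
        have e : wval g [(true, false)] = g true := by simp [lval]
        rw [e, hP.Qw, hEg]
        ring
      · intro x
        have e : wval g [(false, false)] = g false := by simp [lval]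
        rw [e, hP.Qv, hEg]
        ring
    exact (h1.add h2).congr (DA_eq hEg hP.Fv hP.Qw)
  exact ⟨hE1, hP.F1, hP.Q1, hEg, hP.Fv, hP.Qv, hP.Qw, hP.per, hnL, hnA,
    mobile_of_null (DL_pm hE1) (DL_antisym hEg) hnL (polyGrowth_of_nilpotent g),
    mobile_of_null (DA_pm hE1 hP.F1 hP.Q1) (DA_antisym hEg hP.Fv hP.Qw) hnA
      (polyGrowth_of_nilpotent g)⟩

/-- Torsion-free nilpotent groups generated by two elements have the data, if they are not
cyclic. -/
theorem exists_package_tf [Group.IsNilpotent K] (hTF : TF K)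
    (hnc : ¬ IsCyclic (Subgroup.closure {g false, g true} : Subgroup K)) :
    ∃ E F Q, Package g E F Q := by
  obtain ⟨φ, ψ, h1, h2, h3, h4⟩ := exists_homs_closure hTF hnc
  obtain ⟨E, hE1, hE2, hE3⟩ := exists_sign _ (φ * ψ)
  have hEv : ∀ x, E (g false * x) = - E x := fun x => hE3 _ x (by
    rw [MonoidHom.mul_apply, h1, h3, mul_one])
  have hEw : ∀ x, E (g true * x) = - E x := fun x => hE3 _ x (by
    rw [MonoidHom.mul_apply, h2, h4, one_mul])
  have hEg : ∀ i x, E (g i * x) = - E x := by
    intro i x
    cases i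
    · exact hEv x
    · exact hEw x
  have habs : ∀ x, |E x| ≤ 1 := by
    intro x
    rcases hE1 x with h | h <;> rw [h] <;> norm_num
  obtain ⟨c, hc⟩ := Subgroup.nilpotent_iff_lowerCentralSeries.mp (inferInstance :
    Group.IsNilpotent K)
  obtain ⟨F, Q, hP⟩ := exists_pattern hTF habs hEv hc c 0 (by omega) [(true, false)] (g true)
    (by simp [lval]) (by simp) hnc hEw
  exact ⟨E, F, Q, package_of_pattern hE1 hEg hP⟩

theorem iterate_lift {G : Type w} [Group G] {π : K →* G} {F Q : G → ℝ} {v w : K} (n : ℕ) :
    ∃ u : G → K, (∀ k : K, (fun x => pst w (fun k => Q (π k)) (pst v (fun k => F (π k)) x))^[n] k =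
      u (π k) * k) ∧ (∀ k : K, π (u (π k) * k) =
        (fun x => pst (π w) Q (pst (π v) F x))^[n] (π k)) ∧ (Set.range u).Finite := by
  classical
  induction n with
  | zero =>
    refine ⟨fun _ => 1, fun k => by simp, fun k => by simp, ?_⟩
    exact (Set.finite_singleton (1 : K)).subset (by rintro _ ⟨y, rfl⟩; rfl)
  | succ n ih =>
    obtain ⟨u, h1, h2, h3⟩ := ih
    set σ : K → K := fun x => pst w (fun k => Q (π k)) (pst v (fun k => F (π k)) x) with hσ
    set σ' : G → G := fun x => pst (π w) Q (pst (π v) F x) with hσ'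
    let s1 : G → K := fun y => if F y = 1 then v else v⁻¹
    let s2 : G → K := fun y => if Q y = 1 then w else w⁻¹
    have hs1 : ∀ k : K, pst v (fun k => F (π k)) k = s1 (π k) * k := by
      intro k
      unfold pst
      simp only [s1]
      split_ifs <;> rfl
    have hs2 : ∀ k : K, pst w (fun k => Q (π k)) k = s2 (π k) * k := by
      intro k
      unfold pst
      simp only [s2]
      split_ifs <;> rfl
    have hp1 : ∀ y : G, pst (π v) F y = π (s1 y) * y := by
      intro y
      unfold pst
      simp only [s1]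
      split_ifs <;> simp
    have hp2 : ∀ y : G, pst (π w) Q y = π (s2 y) * y := by
      intro y
      unfold pst
      simp only [s2]
      split_ifs <;> simp
    let s : G → K := fun y => s2 (π (s1 y) * y) * s1 y
    have hs : ∀ k : K, σ k = s (π k) * k := by
      intro k
      simp only [hσ, s]
      rw [hs1, hs2, map_mul, mul_assoc]
    have hsσ : ∀ y : G, σ' y = π (s y) * y := by
      intro y
      simp only [hσ', s]
      rw [hp1, hp2, map_mul, mul_assoc]
    refine ⟨fun y => s (σ'^[n] y) * u y, ?_, ?_, ?_⟩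
    · intro k
      rw [Function.iterate_succ_apply', h1, hs, h2]
      simp only [mul_assoc]
    · intro k
      rw [Function.iterate_succ_apply', hsσ, mul_assoc, map_mul, h2]
    · have hfs : (Set.range s).Finite := by
        refine Set.Finite.subset (Set.Finite.mul (Set.toFinite ({w, w⁻¹} : Set K))
          (Set.toFinite ({v, v⁻¹} : Set K))) ?_
        rintro _ ⟨y, rfl⟩
        refine Set.mul_mem_mul ?_ ?_
        · simp only [s2]
          split_ifs <;> simp
        · simp only [s1]
          split_ifs <;> simp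
      refine (hfs.mul h3).subset ?_
      rintro _ ⟨y, rfl⟩
      exact Set.mul_mem_mul ⟨_, rfl⟩ ⟨_, rfl⟩

theorem per_lift {G : Type w} [Group G] {π : K →* G} (hsurj : Function.Surjective π)
    (hπ : ∀ k, π k = 1 → IsOfFinOrder k) {F Q : G → ℝ} {v w : K}
    (h : ∃ N, 1 ≤ N ∧ ∀ x, (fun x => pst (π w) Q (pst (π v) F x))^[N] x = x) :
    ∃ N, 1 ≤ N ∧ ∀ x : K,
      (fun x => pst w (fun k => Q (π k)) (pst v (fun k => F (π k)) x))^[N] x = x := by
  classical
  obtain ⟨N, hN, hper⟩ := h
  obtain ⟨u, h1, h2, h3⟩ := iterate_lift (π := π) (F := F) (Q := Q) (v := v) (w := w) N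
  let M : ℕ := ∏ t ∈ h3.toFinset.filter (fun t => IsOfFinOrder t), orderOf t
  have hM : 1 ≤ M := by
    apply Nat.one_le_iff_ne_zero.mpr
    apply Finset.prod_ne_zero_iff.mpr
    intro t ht
    rw [Finset.mem_filter] at ht
    exact ht.2.orderOf_pos.ne'
  refine ⟨N * M, Nat.mul_pos (by omega) (by omega), ?_⟩
  intro k
  have hu1 : π (u (π k)) = 1 := by
    have := h2 k
    rw [hper, map_mul] at this
    exact mul_eq_right.mp this
  have hfin := hπ _ hu1
  have hdvd : orderOf (u (π k)) ∣ M := by
    apply Finset.dvd_prod_of_mem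
    rw [Finset.mem_filter, Set.Finite.mem_toFinset]
    exact ⟨⟨_, rfl⟩, hfin⟩
  have hit : ∀ j : ℕ, ((fun x => pst w (fun k => Q (π k)) (pst v (fun k => F (π k)) x))^[N])^[j] k =
      (u (π k)) ^ j * k := by
    intro j
    induction j with
    | zero => simp
    | succ j ih =>
      rw [Function.iterate_succ_apply', ih, h1]
      have : π ((u (π k)) ^ j * k) = π k := by
        rw [map_mul, map_pow, hu1, one_pow, one_mul]
      rw [this, pow_succ', mul_assoc]
  rw [Function.iterate_mul, hit, orderOf_dvd_iff_pow_eq_one.mp hdvd, one_mul]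

/-- The data can be lifted along surjective homomorphisms with torsion kernel. -/
theorem Package.lift {G : Type w} [Group G] {π : K →* G} (hsurj : Function.Surjective π)
    (hπ : ∀ k, π k = 1 → IsOfFinOrder k) {E F Q : G → ℝ}
    (h : Package (fun i => π (g i)) E F Q) :
    Package g (fun k => E (π k)) (fun k => F (π k)) (fun k => Q (π k)) := by
  refine ⟨fun x => h.E1 _, fun x => h.F1 _, fun x => h.Q1 _, fun i x => ?_, fun x => ?_,
    fun x => ?_, fun x => ?_, per_lift hsurj hπ h.per, ?_, ?_, ?_, ?_⟩
  · simp only [map_mul]; exact h.Eg i _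
  · simp only [map_mul]; exact h.Fv _
  · simp only [map_mul]; exact h.Qv _
  · simp only [map_mul]; exact h.Qw _
  · exact Null.lift hπ h.nullL
  · exact Null.lift hπ h.nullA
  · exact Mobile.lift hπ h.mobL
  · exact Mobile.lift hπ h.mobA

end Run7.h916
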