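import Pool.Agent.Run7.h916.Triple

set_option autoImplicit false
set_option linter.unusedSectionVars false

/-!
Partition of the generating set into flexible blocks.
-/

namespace Run7.h916

open Subgroup
open scoped Pointwise commutatorElement

universe u v

section

variable {G : Type u} [Group G]

theorem TF2.par_two (hG : TF2 G) {x y : G} (h : Par x y) :
    ∃ w, x ∈ zpowers w ∧ y ∈ zpowers w ∧ Par w x := by
  have hc : Commute x y := (hG.comm_iff x y).mpr (hG.par_comm h)
  obtain ⟨m, n, hm, hn, h⟩ := h
  have hpos : 0 < Int.gcd m n := Int.gcd_pos_of_ne_zero_left _ hm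
  obtain ⟨m', n', hg, hm', hn'⟩ := Int.exists_gcd_one hpos
  obtain ⟨u, v, huv⟩ := Int.isCoprime_iff_gcd_eq_one.mpr hg
  have hg0 : (Int.gcd m n : ℤ) ≠ 0 := by exact_mod_cast hpos.ne'
  have e : x ^ m' = y ^ n' := by
    have h1 : (x ^ m' * y ^ (-n')) ^ (Int.gcd m n : ℤ) = 1 := by
      rw [(hc.zpow_zpow m' (-n')).mul_zpow, ← zpow_mul, ← zpow_mul, ← hm', neg_mul, ← hn', h,
        zpow_neg, mul_inv_cancel]
    have h2 := hG.tf _ _ h1 hg0
    rw [zpow_neg] at h2
    exact mul_inv_eq_one.mp h2
  have hn0 : n' ≠ 0 := by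
    intro h0
    rw [h0, zero_mul] at hn'
    exact hn hn'
  have hw1 : (x ^ v * y ^ u) ^ n' = x := by
    rw [(hc.zpow_zpow v u).mul_zpow, ← zpow_mul y, mul_comm u n', zpow_mul y, ← e, ← zpow_mul,
      ← zpow_mul, ← zpow_add]
    have : v * n' + m' * u = 1 := by linarith
    rw [this, zpow_one]
  have hw2 : (x ^ v * y ^ u) ^ m' = y := by
    rw [(hc.zpow_zpow v u).mul_zpow, ← zpow_mul x, mul_comm v m', zpow_mul x, e, ← zpow_mul,
      ← zpow_mul, ← zpow_add]
    have : n' * v + u * m' = 1 := by linarith
    rw [this, zpow_one]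
  exact ⟨x ^ v * y ^ u, ⟨n', hw1⟩, ⟨m', hw2⟩, n', 1, hn0, one_ne_zero, by rw [hw1, zpow_one]⟩

theorem TF2.par_finset (hG : TF2 G) {s0 : G} (T : Finset G) (h : ∀ x ∈ T, Par x s0) :
    ∃ w, Par w s0 ∧ ∀ x ∈ T, x ∈ zpowers w := by
  classical
  induction T using Finset.induction_on with
  | empty => exact ⟨s0, Par.refl _, fun x hx => absurd hx (Finset.notMem_empty _)⟩
  | @insert a T _ ih =>
    obtain ⟨w, hw, hw'⟩ := ih fun x hx => h x (Finset.mem_insert_of_mem hx)
    obtain ⟨w', h1, h2, h3⟩ := hG.par_two ((h a (Finset.mem_insert_self _ _)).trans hw.symm)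
    refine ⟨w', h3.trans (h a (Finset.mem_insert_self _ _)), fun x hx => ?_⟩
    rcases Finset.mem_insert.mp hx with rfl | hx
    · exact h1
    · exact (zpowers_le.mpr h2) (hw' x hx)

/-- A torsion-free group of class at most two generated by parallel elements is cyclic. -/
theorem TF2.cyclic_of_par (hG : TF2 G) {s0 : G} (T : Finset G) (h : ∀ x ∈ T, Par x s0)
    (hT : closure (T : Set G) = ⊤) : IsCyclic G := by
  obtain ⟨w, _, hw⟩ := hG.par_finset T h
  refine ⟨w, fun x => ?_⟩
  have : (⊤ : Subgroup G) ≤ zpowers w := by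
    rw [← hT, closure_le]
    exact hw
  exact this (mem_top x)

end

variable {Γ : Type u} [Group Γ]

/-- A set of representatives can be partitioned into flexible blocks. -/
def Splits (R : Finset Γ) : Prop :=
  ∃ col : Γ → ℕ, ∀ n, Flexible ({x | x ∈ R ∧ col x = n} ∪ ({x | x ∈ R ∧ col x = n} : Set Γ)⁻¹)

theorem flexible_empty : Flexible (∅ : Set Γ) := by
  refine ⟨fun _ s => s, 0, {1}, Set.finite_singleton _, fun g => ?_⟩
  refine Reach.refl (Set.mem_singleton _) ?_ ?_
  · exact ⟨fun _ s hs => absurd hs (Set.notMem_empty s), fun _ s hs => absurd hs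
      (Set.notMem_empty s), fun _ s hs => absurd hs (Set.notMem_empty s)⟩
  · intro _ s hs
    exact absurd hs (Set.notMem_empty s)

theorem splits_of_flexible {R : Finset Γ} (h : Flexible ((R : Set Γ) ∪ (R : Set Γ)⁻¹)) :
    Splits R := by
  refine ⟨fun _ => 0, fun n => ?_⟩
  by_cases hn : n = 0
  · have : {x | x ∈ R ∧ 0 = n} = (R : Set Γ) := by
      ext x
      simp [hn]
    rw [this]
    exact h
  · have : ({x | x ∈ R ∧ 0 = n} : Set Γ) = ∅ := by
      ext x
      simp only [Set.mem_ofPred_eq, Set.mem_empty_iff_false, iff_false, not_and]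
      exact fun _ h => hn h.symm
    rw [this]
    simpa using flexible_empty

open Classical in
/-- The splitting of a set of directions. -/
theorem splits_of_not_par {L : Subgroup Γ} [hLn : L.Normal] (hL : IsLocallyFinite L)
    (hG : TF2 (Γ ⧸ L)) : ∀ (N : ℕ) (R : Finset Γ), R.card = N →
    (∀ x ∈ R, (QuotientGroup.mk x : Γ ⧸ L) ≠ 1) →
    (∃ x ∈ R, ∃ y ∈ R, ¬ Par (QuotientGroup.mk x : Γ ⧸ L) (QuotientGroup.mk y)) →
    Splits R := by
  intro N
  induction N using Nat.strong_induction_on with
  | _ N ih =>
    intro R hR hR1 hnp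
    -- a removable pair
    by_cases hrem : ∃ a ∈ R, ∃ b ∈ R, ¬ Par (QuotientGroup.mk a : Γ ⧸ L) (QuotientGroup.mk b) ∧
        ∃ x ∈ (R.erase a).erase b, ∃ y ∈ (R.erase a).erase b,
          ¬ Par (QuotientGroup.mk x : Γ ⧸ L) (QuotientGroup.mk y)
    · obtain ⟨a, ha, b, hb, hab, hrest⟩ := hrem
      have hne : a ≠ b := fun h => hab (by rw [h]; exact Par.refl _)
      have hsub : ∀ x ∈ (R.erase a).erase b, x ∈ R := fun x hx =>
        Finset.mem_of_mem_erase (Finset.mem_of_mem_erase hx)
      have hcard : ((R.erase a).erase b).card < N := by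
        rw [← hR]
        calc ((R.erase a).erase b).card ≤ (R.erase a).card := Finset.card_erase_le
          _ < R.card := Finset.card_erase_lt_of_mem ha
      obtain ⟨col, hcol⟩ := ih _ hcard _ rfl (fun x hx => hR1 x (hsub x hx)) hrest
      refine ⟨fun x => if x = a ∨ x = b then 0 else col x + 1, fun n => ?_⟩
      cases n with
      | zero =>
        have e : {x | x ∈ R ∧ (if x = a ∨ x = b then 0 else col x + 1) = 0} =
            (insert b {a} : Set Γ) := by
          ext x
          simp only [Set.mem_ofPred_eq, Set.mem_insert_iff, Set.mem_singleton_iff]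
          constructor
          · rintro ⟨_, h⟩
            by_cases hx : x = a ∨ x = b
            · tauto
            · rw [if_neg hx] at h
              omega
          · intro h
            have hx : x = a ∨ x = b := by tauto
            refine ⟨?_, if_pos hx⟩
            rcases hx with h | h
            · rw [h]; exact ha
            · rw [h]; exact hb
        rw [e]
        exact flexible_star hL hG (z := b) (v0 := a) (Vs := {a}) (Set.finite_singleton _) rfl
          (hR1 b hb) (hR1 a ha) (fun v hv => by
            rw [Set.mem_singleton_iff.mp hv]; exact Par.refl _) hab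
      | succ n =>
        have e : {x | x ∈ R ∧ (if x = a ∨ x = b then 0 else col x + 1) = n + 1} =
            {x | x ∈ (R.erase a).erase b ∧ col x = n} := by
          ext x
          simp only [Set.mem_ofPred_eq, Finset.mem_erase]
          constructor
          · rintro ⟨h1, h2⟩
            by_cases hx : x = a ∨ x = b
            · rw [if_pos hx] at h2
              omega
            · rw [if_neg hx] at h2
              push Not at hx
              exact ⟨⟨hx.2, hx.1, h1⟩, by omega⟩
          · rintro ⟨⟨h1, h2, h3⟩, h4⟩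
            refine ⟨h3, ?_⟩
            rw [if_neg (by push Not; exact ⟨h2, h1⟩)]
            omega
        rw [e]
        exact hcol n
    · push Not at hrem
      -- a star or a triple
      obtain ⟨a, ha, b, hb, hab⟩ := hnp
      have hne : a ≠ b := fun h => hab (by rw [h]; exact Par.refl _)
      have hrest := hrem a ha b hb hab
      -- stars
      have hstar : ∀ z ∈ R, ∀ v0 ∈ R, ¬ Par (QuotientGroup.mk v0 : Γ ⧸ L)
          (QuotientGroup.mk z) → (∀ v ∈ R.erase z, Par (QuotientGroup.mk v : Γ ⧸ L)
            (QuotientGroup.mk v0)) → Splits R := by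
        intro z hz v0 hv0 hnp hpar
        have hv0z : v0 ≠ z := fun h => hnp (by rw [h]; exact Par.refl _)
        apply splits_of_flexible
        have := flexible_star hL hG (z := z) (v0 := v0) (Vs := (R.erase z : Set Γ))
          (Finset.finite_toSet _) (by simp [hv0z, hv0]) (hR1 z hz) (hR1 v0 hv0)
          (fun v hv => hpar v (by exact_mod_cast hv)) hnp
        have e : (insert z (R.erase z : Set Γ) : Set Γ) = (R : Set Γ) := by
          rw [← Finset.coe_insert, Finset.insert_erase hz]
        rwa [e] at this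
      by_cases hc : ∃ c ∈ (R.erase a).erase b, True
      · obtain ⟨c, hc, _⟩ := hc
        have hcR : c ∈ R := Finset.mem_of_mem_erase (Finset.mem_of_mem_erase hc)
        have hcb : c ≠ b := (Finset.mem_erase.mp hc).1
        have hca : c ≠ a := (Finset.mem_erase.mp (Finset.mem_erase.mp hc).2).1
        by_cases hac : Par (QuotientGroup.mk c : Γ ⧸ L) (QuotientGroup.mk a)
        · -- all but `b` are parallel to `a`
          refine hstar b hb a ha hab fun v hv => ?_
          obtain ⟨hvb, hvR⟩ := Finset.mem_erase.mp hv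
          by_cases hva : v = a
          · rw [hva]; exact Par.refl _
          · have hv' : v ∈ (R.erase a).erase b :=
              Finset.mem_erase.mpr ⟨hvb, Finset.mem_erase.mpr ⟨hva, hvR⟩⟩
            exact (hrest v hv' c hc).trans hac
        by_cases hbc : Par (QuotientGroup.mk c : Γ ⧸ L) (QuotientGroup.mk b)
        · refine hstar a ha b hb (fun h => hab h.symm) fun v hv => ?_
          obtain ⟨hva, hvR⟩ := Finset.mem_erase.mp hv
          by_cases hvb : v = b
          · rw [hvb]; exact Par.refl _
          · have hv' : v ∈ (R.erase a).erase b :=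
              Finset.mem_erase.mpr ⟨hvb, Finset.mem_erase.mpr ⟨hva, hvR⟩⟩
            exact (hrest v hv' c hc).trans hbc
        -- `a`, `b`, `c` pairwise not parallel; there is nothing else
        have hall : ∀ d ∈ R, d = a ∨ d = b ∨ d = c := by
          intro d hd
          by_contra hcon
          push Not at hcon
          obtain ⟨hda, hdb, hdc⟩ := hcon
          -- the pair `a`, `c`
          have hac' : ¬ Par (QuotientGroup.mk a : Γ ⧸ L) (QuotientGroup.mk c) :=
            fun h => hac h.symm
          have h1 := hrem a ha c hcR hac'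
          have hb' : b ∈ (R.erase a).erase c :=
            Finset.mem_erase.mpr ⟨hcb.symm, Finset.mem_erase.mpr ⟨hne.symm, hb⟩⟩
          have hd' : d ∈ (R.erase a).erase c :=
            Finset.mem_erase.mpr ⟨hdc, Finset.mem_erase.mpr ⟨hda, hd⟩⟩
          have hd'' : d ∈ (R.erase a).erase b :=
            Finset.mem_erase.mpr ⟨hdb, Finset.mem_erase.mpr ⟨hda, hd⟩⟩
          have h2 := h1 b hb' d hd'
          have h3 := hrest d hd'' c hc
          exact hbc (h2.trans h3).symm
        apply splits_of_flexible
        have e : (R : Set Γ) = {a, b, c} := by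
          ext d
          simp only [Finset.mem_coe, Set.mem_insert_iff, Set.mem_singleton_iff]
          constructor
          · exact hall d
          · rintro (h | h | h)
            · rw [h]; exact ha
            · rw [h]; exact hb
            · rw [h]; exact hcR
        rw [e]
        exact flexible_triple hL hG rfl rfl rfl (hR1 a ha) (hR1 b hb) (hR1 c hcR) hab
          (fun h => hac h.symm) (fun h => hbc h.symm)
      · -- only `a` and `b`
        push Not at hc
        refine hstar b hb a ha hab fun v hv => ?_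
        obtain ⟨hvb, hvR⟩ := Finset.mem_erase.mp hv
        by_cases hva : v = a
        · rw [hva]; exact Par.refl _
        · have hv' : v ∈ (R.erase a).erase b :=
            Finset.mem_erase.mpr ⟨hvb, Finset.mem_erase.mpr ⟨hva, hvR⟩⟩
          exact (hc v hv').elim

open Classical in
/-- **The chromatic index for torsion-free quotients of class at most two.** -/
theorem chromaticIndex_tf2 {X : Type v} [MulAction Γ X] [MeasurableSpace X]
    [StandardBorelSpace X] {S : Finset Γ} (hS : IsMarking S) (hH : HypH S X)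
    {L : Subgroup Γ} [hLn : L.Normal] (hL : IsLocallyFinite L) (hG : TF2 (Γ ⧸ L))
    (hcyc : ¬ IsCyclic (Γ ⧸ L)) :
    borelChromaticIndex (schreierGraph S X) = S.card := by
  have hmki : ∀ a : Γ, (QuotientGroup.mk a⁻¹ : Γ ⧸ L) = (QuotientGroup.mk a)⁻¹ := fun _ => rfl
  by_cases hSL : ∃ z ∈ S, z ∈ L
  · obtain ⟨z, hz, hzL⟩ := hSL
    refine chromaticIndex_pivot hS hH hL hz (hL.isOfFinOrder hzL) fun v _ _ => Or.inl ?_
    have h1 := L.mul_mem hzL (hLn.conj_mem _ (L.inv_mem hzL) v)
    have e : z * v * z⁻¹ * v⁻¹ = z * (v * z⁻¹ * v⁻¹) := by group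
    rw [e]; exact h1
  · push Not at hSL
    have hS1 : ∀ s ∈ S, (QuotientGroup.mk s : Γ ⧸ L) ≠ 1 := by
      intro s hs h
      exact hSL s hs ((QuotientGroup.eq_one_iff s).mp h)
    -- representatives
    let R : Finset Γ := S.filter (fun s => WellOrderingRel s s⁻¹)
    have hRS : ∀ s ∈ R, s ∈ S := fun s hs => (Finset.mem_filter.mp hs).1
    have hcases : ∀ s ∈ S, s ∈ R ∨ s⁻¹ ∈ R := by
      intro s hs
      rcases trichotomous_of WellOrderingRel s s⁻¹ with h | h | h
      · exact Or.inl (Finset.mem_filter.mpr ⟨hs, h⟩)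
      · exact absurd h (not_isOfFinOrder_ne_inv (not_isOfFinOrder_of_mk hG (hS1 s hs)))
      · exact Or.inr (Finset.mem_filter.mpr ⟨hS.inv_mem s hs, by rwa [inv_inv]⟩)
    have hRinv : ∀ s ∈ R, s⁻¹ ∉ R := by
      intro s hs hs'
      have h1 := (Finset.mem_filter.mp hs).2
      have h2 := (Finset.mem_filter.mp hs').2
      rw [inv_inv] at h2
      exact asymm_of WellOrderingRel h1 h2
    have hnp : ∃ x ∈ R, ∃ y ∈ R, ¬ Par (QuotientGroup.mk x : Γ ⧸ L) (QuotientGroup.mk y) := by
      by_contra hcon
      push Not at hcon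
      apply hcyc
      have hgen : closure ((S.image (QuotientGroup.mk : Γ → Γ ⧸ L) : Finset (Γ ⧸ L)) :
          Set (Γ ⧸ L)) = ⊤ := by
        rw [Finset.coe_image]
        have h1 := MonoidHom.map_closure (QuotientGroup.mk' L) (S : Set Γ)
        rw [hS.closure_eq, ← MonoidHom.range_eq_map, MonoidHom.range_eq_top.mpr
          (QuotientGroup.mk'_surjective L)] at h1
        exact h1.symm
      by_cases hemp : ∃ s0, s0 ∈ R
      · obtain ⟨s0, hs0⟩ := hemp
        refine hG.cyclic_of_par (s0 := QuotientGroup.mk s0) _ ?_ hgen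
        intro x hx
        obtain ⟨s, hs, rfl⟩ := Finset.mem_image.mp hx
        rcases hcases s hs with h | h
        · exact hcon s h s0 hs0
        · have := hcon _ h s0 hs0
          rw [hmki] at this
          exact par_inv_left.mp this
      · push Not at hemp
        refine hG.cyclic_of_par (s0 := 1) _ ?_ hgen
        intro x hx
        obtain ⟨s, hs, rfl⟩ := Finset.mem_image.mp hx
        rcases hcases s hs with h | h
        · exact absurd h (hemp s)
        · exact absurd h (hemp _)
    obtain ⟨col, hcol⟩ := splits_of_not_par hL hG _ R rfl (fun x hx => hS1 x (hRS x hx)) hnp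
    refine chromaticIndex_eq_of_blocks hS hH (ι := ℕ)
      (B := fun n => {x | x ∈ R ∧ col x = n} ∪ ({x | x ∈ R ∧ col x = n} : Set Γ)⁻¹)
      ?_ ?_ ?_ hcol
    · rintro i j s (⟨h1, h2⟩ | ⟨h1, h2⟩) (⟨h3, h4⟩ | ⟨h3, h4⟩)
      · rw [← h2, ← h4]
      · exact absurd h3 (hRinv s h1)
      · exact absurd h1 (hRinv s h3)
      · rw [← h2, ← h4]
    · rintro i s (hs | hs)
      · right; rw [Set.mem_inv, inv_inv]; exact hs
      · left; exact hs
    · ext s
      simp only [Set.mem_iUnion, Finset.mem_coe]
      constructor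
      · rintro ⟨i, ⟨h1, _⟩ | ⟨h1, _⟩⟩
        · exact hRS s h1
        · have := hS.inv_mem _ (hRS _ h1)
          rwa [inv_inv] at this
      · intro hs
        rcases hcases s hs with h | h
        · exact ⟨col s, Or.inl ⟨h, rfl⟩⟩
        · exact ⟨col s⁻¹, Or.inr ⟨h, rfl⟩⟩

end Run7.h916
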