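import Pool.Agent.Run7.h916.NilHom
import Pool.Agent.Run7.h916.Partner

set_option autoImplicit false
set_option linter.unusedSectionVars false
set_option linter.unusedVariables false

/-!
The pattern of bounded cycles in the Cayley graph of a torsion-free nilpotent group with two
generators.
-/

namespace Run7.h916

open Set
open scoped commutatorElement

universe u v w

variable {G : Type u} [Group G]

open Classical in
/-- The partner of a point in direction `v`. -/
noncomputable def pst (v : G) (F : G → ℝ) (x : G) : G := if F x = 1 then v * x else v⁻¹ * x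

theorem pst_pst {v : G} {F : G → ℝ} (h1 : ∀ x, F x = 1 ∨ F x = -1)
    (hv : ∀ x, F (v * x) = - F x) (x : G) : pst v F (pst v F x) = x := by
  have hvi : F (v⁻¹ * x) = - F x := by
    have := hv (v⁻¹ * x)
    rw [mul_inv_cancel_left] at this
    linarith
  unfold pst
  rcases h1 x with h | h
  · rw [if_pos h, if_neg]
    · group
    · rw [hv, h]; norm_num
  · have h' : ¬ F x = 1 := by rw [h]; norm_num
    rw [if_neg h', if_pos]
    · group
    · rw [hvi, h]; norm_num

theorem pst_mem {v : G} {F Q : G → ℝ} (hv : ∀ x, Q (v * x) = Q x) (x : G) :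
    Q (pst v F x) = Q x := by
  have hvi : Q (v⁻¹ * x) = Q x := by
    have := hv (v⁻¹ * x)
    rw [mul_inv_cancel_left] at this
    exact this.symm
  unfold pst
  split_ifs
  · exact hv x
  · exact hvi

theorem pst_neg {v : G} {F Q : G → ℝ} (hv : ∀ x, Q (v * x) = - Q x) (x : G) :
    Q (pst v F x) = - Q x := by
  have hvi : Q (v⁻¹ * x) = - Q x := by
    have := hv (v⁻¹ * x)
    rw [mul_inv_cancel_left] at this
    linarith
  unfold pst
  split_ifs
  · exact hv x
  · exact hvi

/-- Patterns. -/
structure IsPat (g : Bool → G) (w : G) (E F Q : G → ℝ) : Prop where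
  /-- `F` is a sign. -/
  F1 : ∀ x, F x = 1 ∨ F x = -1
  /-- `Q` is a sign. -/
  Q1 : ∀ x, Q x = 1 ∨ Q x = -1
  /-- `F` is odd for `v`. -/
  Fv : ∀ x, F (g false * x) = - F x
  /-- `Q` is invariant for `v`. -/
  Qv : ∀ x, Q (g false * x) = Q x
  /-- `Q` is odd for `w`. -/
  Qw : ∀ x, Q (w * x) = - Q x
  /-- The cycles are bounded. -/
  per : ∃ N, 1 ≤ N ∧ ∀ x, (fun x => pst w Q (pst (g false) F x))^[N] x = x
  /-- The flow along `v` is null. -/
  null : ∀ χ : G → ℝ, (∃ C, 0 ≤ C ∧ ∀ x, |χ x| ≤ C) → (∀ x, χ (g false * x) = χ x) →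
    (∀ x, χ (w * x) = χ x) → Null g (conv g (fun x => χ x * (F x * E x)) [(false, false)])

variable {g : Bool → G}

theorem isPat_base [Group.IsNilpotent G] {Ww : List Lt} {w : G} (hw : wval g Ww = w)
    (hcomm : Commute (g false) w) {E F Q : G → ℝ} (hE1 : ∀ x, |E x| ≤ 1)
    (hEv : ∀ x, E (g false * x) = - E x) (hEw : ∀ x, E (w * x) = - E x)
    (hF1 : ∀ x, F x = 1 ∨ F x = -1) (hQ1 : ∀ x, Q x = 1 ∨ Q x = -1)
    (hFv : ∀ x, F (g false * x) = - F x) (hFw : ∀ x, F (w * x) = F x)
    (hQv : ∀ x, Q (g false * x) = Q x) (hQw : ∀ x, Q (w * x) = - Q x) : IsPat g w E F Q := by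
  refine ⟨hF1, hQ1, hFv, hQv, hQw, ⟨2, by norm_num, ?_⟩, ?_⟩
  · intro x
    have hc : g false * w = w * g false := hcomm.eq
    simp only [Function.iterate_succ, Function.iterate_zero, Function.comp, id]
    set y := pst (g false) F x with hy
    have hQy : Q y = Q x := pst_mem hQv x
    have hFy : F y = - F x := pst_neg hFv x
    set z := pst w Q y with hz
    have hFz : F z = - F x := by rw [hz, pst_mem hFw y, hFy]
    have hQz : Q z = - Q x := by rw [hz, pst_neg hQw y, hQy]
    set t := pst (g false) F z with ht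
    have hQt : Q t = - Q x := by rw [ht, pst_mem hQv z, hQz]
    have hci : ∀ a : G, (g false)⁻¹ * (w * a) = w * ((g false)⁻¹ * a) := by
      intro a
      rw [inv_mul_eq_iff_eq_mul, ← mul_assoc (g false) w, hc, mul_assoc w, mul_inv_cancel_left]
    have hci2 : ∀ a : G, g false * (w * a) = w * (g false * a) := by
      intro a
      rw [← mul_assoc, hc, mul_assoc]
    have hci3 : ∀ a : G, g false * (w⁻¹ * a) = w⁻¹ * (g false * a) := by
      intro a
      rw [eq_inv_mul_iff_mul_eq, ← hci2, mul_inv_cancel_left]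
    have hci4 : ∀ a : G, (g false)⁻¹ * (w⁻¹ * a) = w⁻¹ * ((g false)⁻¹ * a) := by
      intro a
      rw [eq_inv_mul_iff_mul_eq, ← hci, mul_inv_cancel_left]
    unfold pst at *
    rcases hF1 x with h1 | h1 <;> rcases hQ1 x with h2 | h2
    · rw [if_pos h1] at hy
      rw [hQy, if_pos h2] at hz
      rw [hFz, h1, if_neg (by norm_num)] at ht
      rw [hQt, h2, if_neg (by norm_num), ht, hz, hy, hci, inv_mul_cancel_left,
        inv_mul_cancel_left]
    · rw [if_pos h1] at hy
      rw [hQy, h2, if_neg (by norm_num)] at hz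
      rw [hFz, h1, if_neg (by norm_num)] at ht
      rw [hQt, h2, if_pos (by norm_num), ht, hz, hy, hci4, inv_mul_cancel_left,
        mul_inv_cancel_left]
    · rw [h1, if_neg (by norm_num)] at hy
      rw [hQy, if_pos h2] at hz
      rw [hFz, h1, if_pos (by norm_num)] at ht
      rw [hQt, h2, if_neg (by norm_num), ht, hz, hy, hci2, inv_mul_cancel_left,
        mul_inv_cancel_left]
    · rw [h1, if_neg (by norm_num)] at hy
      rw [hQy, h2, if_neg (by norm_num)] at hz
      rw [hFz, h1, if_pos (by norm_num)] at ht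
      rw [hQt, h2, if_pos (by norm_num), ht, hz, hy, hci3, mul_inv_cancel_left,
        mul_inv_cancel_left]
  · rintro χ ⟨C, hC, hχ⟩ hχv hχw
    refine null_crossing (Wt := Ww) (C := C) hC ?_ ?_ ?_
    · intro x
      rw [abs_mul, abs_mul]
      have h1 : |F x| = 1 := by rcases hF1 x with h | h <;> rw [h] <;> norm_num
      rw [h1, one_mul]
      have := hχ x
      have := hE1 x
      nlinarith [abs_nonneg (χ x), abs_nonneg (E x)]
    · intro x
      have e : wval g [(false, false)] = g false := by simp [lval]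
      rw [e, hχv, hFv, hEv]
      ring
    · intro x
      rw [hw, hχw, hFw, hEw]
      ring

theorem isPat_step [Group.IsNilpotent G] {Ww : List Lt} {w : G} (hw : wval g Ww = w)
    {E F' Q' Q : G → ℝ} (hE1 : ∀ x, |E x| ≤ 1)
    (hEv : ∀ x, E (g false * x) = - E x) (hEw : ∀ x, E (w * x) = - E x)
    (hP : IsPat g (w⁻¹ * g false * w) E F' Q')
    (hQ1 : ∀ x, Q x = 1 ∨ Q x = -1)
    (hQv : ∀ x, Q (g false * x) = Q x) (hQw : ∀ x, Q (w * x) = - Q x) :
    ∃ F, IsPat g w E F Q := by
  classical
  set v := g false with hv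
  set w' := w⁻¹ * v * w with hw'
  let F : G → ℝ := fun x => if Q x = 1 then F' x else Q' (w⁻¹ * x)
  have hFp : ∀ x, Q x = 1 → F x = F' x := fun x h => by simp only [F]; rw [if_pos h]
  have hFn : ∀ x, Q x = -1 → F x = Q' (w⁻¹ * x) := fun x h => by
    simp only [F]; rw [if_neg (by rw [h]; norm_num)]
  have hQwi : ∀ x, Q (w⁻¹ * x) = - Q x := by
    intro x
    have := hQw (w⁻¹ * x)
    rw [mul_inv_cancel_left] at this
    linarith
  have hQw' : ∀ x, Q (w' * x) = Q x := by
    intro x
    rw [hw', mul_assoc, mul_assoc, hQwi, hQv, hQw]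
    ring
  have hEwi : ∀ x, E (w⁻¹ * x) = - E x := by
    intro x
    have := hEw (w⁻¹ * x)
    rw [mul_inv_cancel_left] at this
    linarith
  have hconj : ∀ x, w⁻¹ * (v * x) = w' * (w⁻¹ * x) := by
    intro x
    rw [hw']; group
  have hconji : ∀ x, w⁻¹ * (v⁻¹ * x) = w'⁻¹ * (w⁻¹ * x) := by
    intro x
    rw [hw']; group
  have hF1 : ∀ x, F x = 1 ∨ F x = -1 := by
    intro x
    simp only [F]
    split_ifs
    · exact hP.F1 x
    · exact hP.Q1 _
  have hFv : ∀ x, F (v * x) = - F x := by
    intro x
    rcases hQ1 x with h | h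
    · rw [hFp x h, hFp _ (by rw [hQv, h])]
      exact hP.Fv x
    · rw [hFn x h, hFn _ (by rw [hQv, h]), hconj]
      exact hP.Qw _
  refine ⟨F, hF1, hQ1, hFv, hQv, hQw, ?_, ?_⟩
  · obtain ⟨N, hN, hper⟩ := hP.per
    refine ⟨2 * N, by omega, ?_⟩
    set σ : G → G := fun x => pst w Q (pst v F x) with hσ
    set σ' : G → G := fun x => pst w' Q' (pst v F' x) with hσ'
    have hσσ : ∀ x, Q x = 1 → σ (σ x) = σ' x := by
      intro x hx
      have e1 : pst v F x = pst v F' x := by unfold pst; rw [hFp x hx]
      set y := pst v F' x with hy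
      have hQy : Q y = 1 := by rw [hy, pst_mem hQv x, hx]
      have e2 : σ x = w * y := by
        simp only [hσ]
        rw [e1]
        unfold pst
        rw [if_pos hQy]
      have hQwy : Q (w * y) = -1 := by rw [hQw, hQy]
      have e3 : pst v F (w * y) = w * pst w' Q' y := by
        unfold pst
        rw [hFn _ hQwy, inv_mul_cancel_left]
        split_ifs
        · rw [hw']; group
        · rw [hw']; group
      have hQ3 : Q (w * pst w' Q' y) = -1 := by
        rw [hQw, pst_mem hQw' y, hQy]
      rw [e2]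
      simp only [hσ, hσ']
      rw [e3]
      have : ¬ Q (w * pst w' Q' y) = 1 := by rw [hQ3]; norm_num
      have e4 : pst w Q (w * pst w' Q' y) = w⁻¹ * (w * pst w' Q' y) := by
        conv_lhs => unfold pst
        rw [if_neg]
        · rfl
        · exact this
      rw [e4, inv_mul_cancel_left]
    have hQσ' : ∀ x, Q (σ' x) = Q x := by
      intro x
      simp only [hσ']
      rw [pst_mem hQw', pst_mem hQv]
    have hit : ∀ n x, Q x = 1 → σ^[2 * n] x = σ'^[n] x := by
      intro n
      induction n with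
      | zero => intro x _; rfl
      | succ n ih =>
        intro x hx
        have : 2 * (n + 1) = 2 * n + 1 + 1 := by ring
        rw [this, Function.iterate_succ_apply, Function.iterate_succ_apply, hσσ x hx,
          Function.iterate_succ_apply, ih _ (by rw [hQσ', hx])]
    have hinj : Function.Injective σ := by
      intro x y hxy
      simp only [hσ] at hxy
      have h1 := congrArg (pst w Q) hxy
      rw [pst_pst hQ1 hQw, pst_pst hQ1 hQw] at h1
      have h2 := congrArg (pst v F) h1
      rwa [pst_pst hF1 hFv, pst_pst hF1 hFv] at h2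
    intro x
    rcases hQ1 x with h | h
    · rw [hit N x h, hper x]
    · apply hinj
      have hQs : Q (σ x) = 1 := by
        simp only [hσ]
        rw [pst_neg hQw, pst_mem hQv, h]
        norm_num
      rw [← Function.iterate_succ_apply' σ, Function.iterate_succ_apply, hit N _ hQs, hper]
  · rintro χ ⟨C, hC, hχ⟩ hχv hχw
    simp only [← hv] at hχv
    have hχwi : ∀ x, χ (w⁻¹ * x) = χ x := by
      intro x
      rw [← hχw (w⁻¹ * x), mul_inv_cancel_left]
    have h1 := hP.null (fun x => if Q x = 1 then χ x else 0) ⟨C, hC, fun x => by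
        split_ifs
        · exact hχ x
        · simpa using hC⟩ (fun x => by simp only [← hv, hQv, hχv]) (fun x => by
          simp only [hQw']
          have : χ (w' * x) = χ x := by
            rw [hw', mul_assoc, mul_assoc, hχwi, hχv, hχw]
          rw [this])
    have h2 : Null g (conv g (fun x => if Q x = 1 then 0 else χ x * (Q' (w⁻¹ * x) * E x))
        [(false, false)]) := by
      refine null_crossing (Wt := winv Ww ++ ([(false, false)] ++ Ww)) (C := C) hC ?_ ?_ ?_
      · intro x
        split_ifs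
        · simpa using hC
        · rw [abs_mul, abs_mul]
          have h1 : |Q' (w⁻¹ * x)| = 1 := by
            rcases hP.Q1 (w⁻¹ * x) with h | h <;> rw [h] <;> norm_num
          rw [h1, one_mul]
          have := hχ x
          have := hE1 x
          nlinarith [abs_nonneg (χ x), abs_nonneg (E x)]
      · intro x
        have e : wval g [(false, false)] = v := by simp [lval, hv]
        rw [e, hQv, hχv, hconj, hP.Qw, hEv]
        simp only [neg_mul_neg]
      · intro x
        have e : wval g (winv Ww ++ ([(false, false)] ++ Ww)) = w * v * w⁻¹ := by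
          rw [wval_append, wval_append, wval_winv, hw]
          simp [lval, hv]
        have hQt : Q (w * v * w⁻¹ * x) = Q x := by
          rw [mul_assoc, mul_assoc, hQw, hQv, hQwi]; ring
        have hχt : χ (w * v * w⁻¹ * x) = χ x := by
          rw [mul_assoc, mul_assoc, hχw, hχv, hχwi]
        have hQ't : Q' (w⁻¹ * (w * v * w⁻¹ * x)) = Q' (w⁻¹ * x) := by
          have : w⁻¹ * (w * v * w⁻¹ * x) = v * (w⁻¹ * x) := by group
          rw [this]
          exact hP.Qv _
        have hEt : E (w * v * w⁻¹ * x) = - E x := by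
          rw [mul_assoc, mul_assoc, hEw, hEv, hEwi]; ring
        rw [e, hQt, hχt, hQ't, hEt]
        split_ifs
        · ring
        · ring
    refine (h1.add h2).congr fun y s => ?_
    rw [← conv_add]
    apply conv_congr
    intro x _
    rcases hQ1 x with h | h
    · rw [if_pos h, if_pos h, hFp x h]; ring
    · have h' : ¬ Q x = 1 := by rw [h]; norm_num
      rw [if_neg h', if_neg h', hFn x h]; ring

/-- Signs coming from homomorphisms of subgroups. -/
theorem exists_sign (H : Subgroup G) (φ : H →* Multiplicative ℤ) : ∃ s : G → ℝ,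
    (∀ x, s x = 1 ∨ s x = -1) ∧
    (∀ (h : H) x, φ h = 1 → s (h * x) = s x) ∧
    (∀ (h : H) x, φ h = Multiplicative.ofAdd 1 → s (h * x) = - s x) := by
  classical
  obtain ⟨ρ, hρ⟩ := exists_coord H
  refine ⟨fun x => if Even (φ (ρ x)).toAdd then 1 else -1, ?_, ?_, ?_⟩
  · intro x
    by_cases h : Even (φ (ρ x)).toAdd
    · exact Or.inl (if_pos h)
    · exact Or.inr (if_neg h)
  · intro h x hh
    simp only [hρ, map_mul, hh, one_mul]
  · intro h x hh
    simp only [hρ, map_mul, hh, toAdd_mul, toAdd_ofAdd]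
    by_cases he : Even (φ (ρ x)).toAdd
    · rw [if_pos he, if_neg]
      intro h2
      have := h2.sub he
      rw [add_sub_cancel_right] at this
      exact absurd this (by decide)
    · rw [if_neg he, if_pos]
      · norm_num
      · rw [Int.not_even_iff_odd] at he
        exact (odd_one).add_odd he

theorem nilpotent_closure [Group.IsNilpotent G] (S : Set G) :
    Group.IsNilpotent (Subgroup.closure S) := inferInstance

/-- Homomorphisms from the subgroup generated by two elements. -/
theorem exists_homs_closure [Group.IsNilpotent G] (hTF : TF G) {v w : G}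
    (hnc : ¬ IsCyclic (Subgroup.closure {v, w} : Subgroup G)) :
    ∃ φ ψ : (Subgroup.closure {v, w} : Subgroup G) →* Multiplicative ℤ,
      φ ⟨v, Subgroup.subset_closure (by simp)⟩ = Multiplicative.ofAdd 1 ∧
      φ ⟨w, Subgroup.subset_closure (by simp)⟩ = 1 ∧
      ψ ⟨v, Subgroup.subset_closure (by simp)⟩ = 1 ∧
      ψ ⟨w, Subgroup.subset_closure (by simp)⟩ = Multiplicative.ofAdd 1 := by
  have hTF' : TF (Subgroup.closure {v, w} : Subgroup G) := by
    intro x n hn hx
    apply Subtype.ext
    exact hTF x n hn (by simpa using congrArg Subtype.val hx)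
  refine exists_homs _ hTF' _ _ ?_ hnc
  have : (Subtype.val '' ({⟨v, Subgroup.subset_closure (by simp)⟩,
      ⟨w, Subgroup.subset_closure (by simp)⟩} : Set (Subgroup.closure {v, w} : Subgroup G))) =
      {v, w} := by
    rw [Set.image_pair]
  rw [eq_top_iff]
  rintro ⟨x, hx⟩ -
  induction hx using Subgroup.closure_induction with
  | mem x hx =>
    rcases hx with rfl | rfl
    · exact Subgroup.subset_closure (by simp)
    · exact Subgroup.subset_closure (by simp)
  | one => exact one_mem _
  | mul x y hx hy h1 h2 => exact mul_mem h1 h2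
  | inv x hx h1 => exact inv_mem h1

theorem comm_conj_mem {v w : G} {i : ℕ}
    (h : ⁅v, w⁆ ∈ (⊤ : Subgroup G).lowerCentralSeries i) :
    ⁅v, w⁻¹ * v * w⁆ ∈ (⊤ : Subgroup G).lowerCentralSeries (i + 1) := by
  have hn : ((⊤ : Subgroup G).lowerCentralSeries i).Normal := inferInstance
  have hn' : ((⊤ : Subgroup G).lowerCentralSeries (i + 1)).Normal := inferInstance
  have h1 := hn.conj_mem _ h (w * v)⁻¹
  set u := (w * v)⁻¹ * ⁅v, w⁆ * ((w * v)⁻¹)⁻¹ with hu
  have h2 : ⁅u, v⁆ ∈ (⊤ : Subgroup G).lowerCentralSeries (i + 1) :=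
    Subgroup.commutator_mem_commutator h1 (Subgroup.mem_top _)
  have h3 := hn'.conj_mem _ (inv_mem h2) v
  have e : ⁅v, w⁻¹ * v * w⁆ = v * ⁅u, v⁆⁻¹ * v⁻¹ := by
    rw [hu]
    simp only [commutatorElement_def]
    group
  rw [e]
  exact h3

theorem exists_pattern [Group.IsNilpotent G] (hTF : TF G) {E : G → ℝ} (hE1 : ∀ x, |E x| ≤ 1)
    (hEv : ∀ x, E (g false * x) = - E x) {c : ℕ}
    (hc : (⊤ : Subgroup G).lowerCentralSeries c = ⊥) (n : ℕ) :
    ∀ (i : ℕ), i + n = c → ∀ (Ww : List Lt) (w : G), wval g Ww = w →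
      ⁅g false, w⁆ ∈ (⊤ : Subgroup G).lowerCentralSeries i →
      ¬ IsCyclic (Subgroup.closure {g false, w} : Subgroup G) →
      (∀ x, E (w * x) = - E x) → ∃ F Q, IsPat g w E F Q := by
  induction n with
  | zero =>
    intro i hi Ww w hw hcom hnc hEw
    obtain ⟨φ, ψ, h1, h2, h3, h4⟩ := exists_homs_closure hTF hnc
    obtain ⟨F, hF1, hF2, hF3⟩ := exists_sign _ φ
    obtain ⟨Q, hQ1, hQ2, hQ3⟩ := exists_sign _ ψ
    have hcomm : Commute (g false) w := by
      rw [show i = c by omega, hc, Subgroup.mem_bot, commutatorElement_eq_one_iff_commute] at hcom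
      exact hcom
    exact ⟨F, Q, isPat_base hw hcomm hE1 hEv hEw hF1 hQ1 (fun x => hF3 _ x h1)
      (fun x => hF2 _ x h2) (fun x => hQ2 _ x h3) (fun x => hQ3 _ x h4)⟩
  | succ n ih =>
    intro i hi Ww w hw hcom hnc hEw
    obtain ⟨φ, ψ, h1, h2, h3, h4⟩ := exists_homs_closure hTF hnc
    obtain ⟨F, hF1, hF2, hF3⟩ := exists_sign _ φ
    obtain ⟨Q, hQ1, hQ2, hQ3⟩ := exists_sign _ ψ
    by_cases hcomm : Commute (g false) w
    · exact ⟨F, Q, isPat_base hw hcomm hE1 hEv hEw hF1 hQ1 (fun x => hF3 _ x h1)
        (fun x => hF2 _ x h2) (fun x => hQ2 _ x h3) (fun x => hQ3 _ x h4)⟩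
    · have hEwi : ∀ x, E (w⁻¹ * x) = - E x := by
        intro x
        have := hEw (w⁻¹ * x)
        rw [mul_inv_cancel_left] at this
        linarith
      obtain ⟨F', Q', hP⟩ := ih (i + 1) (by omega) (Ww ++ ([(false, false)] ++ winv Ww))
        (w⁻¹ * g false * w) (by
          rw [wval_append, wval_append, wval_winv, hw]
          simp [lval]) (by
          exact comm_conj_mem hcom) (fun hcyc => by
          apply hcomm
          have h5 := commute_of_cyclic hTF hcyc
          have h6 : g false * w = w * g false := by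
            calc g false * w = w * (w⁻¹ * g false * w) := by group
              _ = w * g false := by rw [h5]
          exact h6) (fun x => by
          rw [mul_assoc, mul_assoc, hEwi, hEv, hEw]; ring)
      obtain ⟨F2, hF2⟩ := isPat_step hw hE1 hEv hEw hP hQ1 (fun x => hQ2 _ x h3)
        (fun x => hQ3 _ x h4)
      exact ⟨F2, Q, hF2⟩

end Run7.h916
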