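import Pool.Agent.Run7.h916.InterpH
import Pool.Agent.Run7.h916.Package

set_option autoImplicit false
set_option linter.unusedSectionVars false
set_option linter.unusedVariables false

/-!
Patterns with null flows in sets of admissible edges.
-/

namespace Run7.h916

open Set
open scoped commutatorElement

universe u v w

variable {G : Type u} [Group G]

/-- Patterns whose flows are null in sets of admissible edges. -/
structure IsPatH (g : Bool → G) (Ww : List Lt) (w : G) (E F Q : G → ℝ) : Prop where
  /-- `F` is a sign. -/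
  F1 : ∀ x, F x = 1 ∨ F x = -1
  /-- `Q` is a sign. -/
  Q1 : ∀ x, Q x = 1 ∨ Q x = -1
  /-- `F` is odd for `v`. -/
  Fv : ∀ x, F (g false * x) = - F x
  /-- `Q` is invariant for `v`. -/
  Qv : ∀ x, Q (g false * x) = Q x
  /-- `Q` is odd for `w`. -/
  Qw : ∀ x, Q (w * x) = - Q x
  /-- The cycles are bounded. -/
  per : ∃ N, 1 ≤ N ∧ ∀ x, (fun x => pst w Q (pst (g false) F x))^[N] x = x
  /-- The flow along `v` is null. -/
  null : ∀ (H : G → Lt → Prop), SymmE g H → ∀ Z : G → Prop, Loop g H Z [(false, false)] →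
    Loop g H Z Ww → ∀ χ : G → ℝ, (∃ C, 0 ≤ C ∧ ∀ x, |χ x| ≤ C) → (∀ x, χ x ≠ 0 → Z x) →
    (∀ x, χ (g false * x) = χ x) → (∀ x, χ (w * x) = χ x) →
    NullH g H (conv g (fun x => χ x * (F x * E x)) [(false, false)])

variable {g : Bool → G}

theorem isPatH_base [Group.IsNilpotent G] {Ww : List Lt} {w : G} (hw : wval g Ww = w)
    (hcomm : Commute (g false) w) {E F Q : G → ℝ} (hE1 : ∀ x, |E x| ≤ 1)
    (hEv : ∀ x, E (g false * x) = - E x) (hEw : ∀ x, E (w * x) = - E x)
    (hF1 : ∀ x, F x = 1 ∨ F x = -1) (hQ1 : ∀ x, Q x = 1 ∨ Q x = -1)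
    (hFv : ∀ x, F (g false * x) = - F x) (hFw : ∀ x, F (w * x) = F x)
    (hQv : ∀ x, Q (g false * x) = Q x) (hQw : ∀ x, Q (w * x) = - Q x) :
    IsPatH g Ww w E F Q := by
  refine ⟨hF1, hQ1, hFv, hQv, hQw,
    (isPat_base hw hcomm hE1 hEv hEw hF1 hQ1 hFv hFw hQv hQw).per, ?_⟩
  rintro H hH Z hZv hZw χ ⟨C, hC, hχ⟩ hχZ hχv hχw
  refine nullH_crossing hH (Z := Z) (Wt := Ww) (C := C) hC ?_ ?_ hZw hZv ?_ ?_
  · intro x
    rw [abs_mul, abs_mul]
    have h1 : |F x| = 1 := by rcases hF1 x with h | h <;> rw [h] <;> norm_num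
    rw [h1, one_mul]
    have := hχ x
    have := hE1 x
    nlinarith [abs_nonneg (χ x), abs_nonneg (E x)]
  · intro x hx
    exact hχZ x (fun h => hx (by rw [h, zero_mul]))
  · intro x
    have e : wval g [(false, false)] = g false := by simp [lval]
    rw [e, hχv, hFv, hEv]
    ring
  · intro x
    rw [hw, hχw, hFw, hEw]
    ring

/-- The inductive pattern. -/
noncomputable def Fst (w : G) (F' Q' Q : G → ℝ) : G → ℝ := by
  classical
  exact fun x => if Q x = 1 then F' x else Q' (w⁻¹ * x)

theorem isPatH_step [Group.IsNilpotent G] {Ww Ww' : List Lt} {w : G} (hw : wval g Ww = w)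
    {E F' Q' Q : G → ℝ} (hE1 : ∀ x, |E x| ≤ 1)
    (hEv : ∀ x, E (g false * x) = - E x) (hEw : ∀ x, E (w * x) = - E x)
    (hWw' : Ww' = Ww ++ ([(false, false)] ++ winv Ww))
    (hP : IsPatH g Ww' (w⁻¹ * g false * w) E F' Q')
    (hQ1 : ∀ x, Q x = 1 ∨ Q x = -1)
    (hQv : ∀ x, Q (g false * x) = Q x) (hQw : ∀ x, Q (w * x) = - Q x) :
    IsPatH g Ww w E (Fst w F' Q' Q) Q := by
  classical
  set v := g false with hv
  set w' := w⁻¹ * v * w with hw'
  set F : G → ℝ := Fst w F' Q' Q with hFdef
  have hFp : ∀ x, Q x = 1 → F x = F' x := fun x h => by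
    simp only [hFdef, Fst]; rw [if_pos h]
  have hFn : ∀ x, Q x = -1 → F x = Q' (w⁻¹ * x) := fun x h => by
    simp only [hFdef, Fst]; rw [if_neg (by rw [h]; norm_num)]
  have hQwi : ∀ x, Q (w⁻¹ * x) = - Q x := by
    intro x
    have := hQw (w⁻¹ * x)
    rw [mul_inv_cancel_left] at this
    linarith
  have hQw' : ∀ x, Q (w' * x) = Q x := by
    intro x
    rw [hw', mul_assoc, mul_assoc, hQwi, hQv, hQw]
    ring
  have hEwi : ∀ x, E (w⁻¹ * x) = - E x := by
    intro x
    have := hEw (w⁻¹ * x)
    rw [mul_inv_cancel_left] at this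
    linarith
  have hconj : ∀ x, w⁻¹ * (v * x) = w' * (w⁻¹ * x) := by
    intro x
    rw [hw']; group
  have hconji : ∀ x, w⁻¹ * (v⁻¹ * x) = w'⁻¹ * (w⁻¹ * x) := by
    intro x
    rw [hw']; group
  have hF1 : ∀ x, F x = 1 ∨ F x = -1 := by
    intro x
    simp only [hFdef, Fst]
    split_ifs
    · exact hP.F1 x
    · exact hP.Q1 _
  have hFv : ∀ x, F (v * x) = - F x := by
    intro x
    rcases hQ1 x with h | h
    · rw [hFp x h, hFp _ (by rw [hQv, h])]
      exact hP.Fv x
    · rw [hFn x h, hFn _ (by rw [hQv, h]), hconj]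
      exact hP.Qw _
  refine ⟨hF1, hQ1, hFv, hQv, hQw, ?_, ?_⟩
  · obtain ⟨N, hN, hper⟩ := hP.per
    refine ⟨2 * N, by omega, ?_⟩
    set σ : G → G := fun x => pst w Q (pst v F x) with hσ
    set σ' : G → G := fun x => pst w' Q' (pst v F' x) with hσ'
    have hσσ : ∀ x, Q x = 1 → σ (σ x) = σ' x := by
      intro x hx
      have e1 : pst v F x = pst v F' x := by unfold pst; rw [hFp x hx]
      set y := pst v F' x with hy
      have hQy : Q y = 1 := by rw [hy, pst_mem hQv x, hx]
      have e2 : σ x = w * y := by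
        simp only [hσ]
        rw [e1]
        unfold pst
        rw [if_pos hQy]
      have hQwy : Q (w * y) = -1 := by rw [hQw, hQy]
      have e3 : pst v F (w * y) = w * pst w' Q' y := by
        unfold pst
        rw [hFn _ hQwy, inv_mul_cancel_left]
        split_ifs
        · rw [hw']; group
        · rw [hw']; group
      have hQ3 : Q (w * pst w' Q' y) = -1 := by
        rw [hQw, pst_mem hQw' y, hQy]
      rw [e2]
      simp only [hσ, hσ']
      rw [e3]
      have : ¬ Q (w * pst w' Q' y) = 1 := by rw [hQ3]; norm_num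
      have e4 : pst w Q (w * pst w' Q' y) = w⁻¹ * (w * pst w' Q' y) := by
        conv_lhs => unfold pst
        rw [if_neg]
        · rfl
        · exact this
      rw [e4, inv_mul_cancel_left]
    have hQσ' : ∀ x, Q (σ' x) = Q x := by
      intro x
      simp only [hσ']
      rw [pst_mem hQw', pst_mem hQv]
    have hit : ∀ n x, Q x = 1 → σ^[2 * n] x = σ'^[n] x := by
      intro n
      induction n with
      | zero => intro x _; rfl
      | succ n ih =>
        intro x hx
        have : 2 * (n + 1) = 2 * n + 1 + 1 := by ring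
        rw [this, Function.iterate_succ_apply, Function.iterate_succ_apply, hσσ x hx,
          Function.iterate_succ_apply, ih _ (by rw [hQσ', hx])]
    have hinj : Function.Injective σ := by
      intro x y hxy
      simp only [hσ] at hxy
      have h1 := congrArg (pst w Q) hxy
      rw [pst_pst hQ1 hQw, pst_pst hQ1 hQw] at h1
      have h2 := congrArg (pst v F) h1
      rwa [pst_pst hF1 hFv, pst_pst hF1 hFv] at h2
    intro x
    rcases hQ1 x with h | h
    · rw [hit N x h, hper x]
    · apply hinj
      have hQs : Q (σ x) = 1 := by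
        simp only [hσ]
        rw [pst_neg hQw, pst_mem hQv, h]
        norm_num
      rw [← Function.iterate_succ_apply' σ, Function.iterate_succ_apply, hit N _ hQs, hper]
  · rintro H hH Z hZv hZw χ ⟨C, hC, hχ⟩ hχZ hχv hχw
    simp only [← hv] at hχv
    have hχwi : ∀ x, χ (w⁻¹ * x) = χ x := by
      intro x
      rw [← hχw (w⁻¹ * x), mul_inv_cancel_left]
    have h1 := hP.null H hH Z hZv (by
        rw [hWw']
        exact hZw.append (hZv.append (hZw.winv hH)))
        (fun x => if Q x = 1 then χ x else 0) ⟨C, hC, fun x => by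
        split_ifs
        · exact hχ x
        · simpa using hC⟩ (fun x hx => hχZ x (fun h => hx (by simp [h])))
        (fun x => by simp only [← hv, hQv, hχv]) (fun x => by
          simp only [hQw']
          have : χ (w' * x) = χ x := by
            rw [hw', mul_assoc, mul_assoc, hχwi, hχv, hχw]
          rw [this])
    have h2 : NullH g H (conv g (fun x => if Q x = 1 then 0 else χ x * (Q' (w⁻¹ * x) * E x))
        [(false, false)]) := by
      refine nullH_crossing hH (Z := Z) (Wt := winv Ww ++ ([(false, false)] ++ Ww)) (C := C) hC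
        ?_ ?_ ((hZw.winv hH).append (hZv.append hZw)) hZv ?_ ?_
      · intro x
        split_ifs
        · simpa using hC
        · rw [abs_mul, abs_mul]
          have h1 : |Q' (w⁻¹ * x)| = 1 := by
            rcases hP.Q1 (w⁻¹ * x) with h | h <;> rw [h] <;> norm_num
          rw [h1, one_mul]
          have := hχ x
          have := hE1 x
          nlinarith [abs_nonneg (χ x), abs_nonneg (E x)]
      · intro x hx
        refine hχZ x (fun h => hx ?_)
        simp [h]
      · intro x
        have e : wval g [(false, false)] = v := by simp [lval, hv]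
        rw [e, hQv, hχv, hconj, hP.Qw, hEv]
        simp only [neg_mul_neg]
      · intro x
        have e : wval g (winv Ww ++ ([(false, false)] ++ Ww)) = w * v * w⁻¹ := by
          rw [wval_append, wval_append, wval_winv, hw]
          simp [lval, hv]
        have hQt : Q (w * v * w⁻¹ * x) = Q x := by
          rw [mul_assoc, mul_assoc, hQw, hQv, hQwi]; ring
        have hχt : χ (w * v * w⁻¹ * x) = χ x := by
          rw [mul_assoc, mul_assoc, hχw, hχv, hχwi]
        have hQ't : Q' (w⁻¹ * (w * v * w⁻¹ * x)) = Q' (w⁻¹ * x) := by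
          have : w⁻¹ * (w * v * w⁻¹ * x) = v * (w⁻¹ * x) := by group
          rw [this]
          exact hP.Qv _
        have hEt : E (w * v * w⁻¹ * x) = - E x := by
          rw [mul_assoc, mul_assoc, hEw, hEv, hEwi]; ring
        rw [e, hQt, hχt, hQ't, hEt]
        split_ifs
        · ring
        · ring
    refine (h1.add h2).congr fun y s => ?_
    rw [← conv_add]
    apply conv_congr
    intro x _
    rcases hQ1 x with h | h
    · rw [if_pos h, if_pos h, hFp x h]; ring
    · have h' : ¬ Q x = 1 := by rw [h]; norm_num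
      rw [if_neg h', if_neg h', hFn x h]; ring

/-- A sign which is invariant for the first element and odd for the second one. -/
theorem exists_Q [Group.IsNilpotent G] (hTF : TF G) {v w : G}
    (hnc : ¬ IsCyclic (Subgroup.closure {v, w} : Subgroup G)) : ∃ Q : G → ℝ,
      (∀ x, Q x = 1 ∨ Q x = -1) ∧ (∀ x, Q (v * x) = Q x) ∧ ∀ x, Q (w * x) = - Q x := by
  obtain ⟨φ, ψ, h1, h2, h3, h4⟩ := exists_homs_closure hTF hnc
  obtain ⟨Q, hQ1, hQ2, hQ3⟩ := exists_sign _ ψ
  exact ⟨Q, hQ1, fun x => hQ2 _ x h3, fun x => hQ3 _ x h4⟩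

theorem noncyclic_conj [Group.IsNilpotent G] (hTF : TF G) {v w : G} (hcomm : ¬ Commute v w) :
    ¬ IsCyclic (Subgroup.closure {v, w⁻¹ * v * w} : Subgroup G) := by
  intro hcyc
  apply hcomm
  have h5 := commute_of_cyclic hTF hcyc
  have h6 : v * w = w * v := by
    calc v * w = w * (w⁻¹ * v * w) := by group
      _ = w * v := by rw [h5]
  exact h6

theorem exists_patternH [Group.IsNilpotent G] (hTF : TF G) {E : G → ℝ} (hE1 : ∀ x, |E x| ≤ 1)
    (hEv : ∀ x, E (g false * x) = - E x) {c : ℕ}
    (hc : (⊤ : Subgroup G).lowerCentralSeries c = ⊥) (n : ℕ) :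
    ∀ (i : ℕ), i + n = c → ∀ (Ww : List Lt) (w : G), wval g Ww = w →
      ⁅g false, w⁆ ∈ (⊤ : Subgroup G).lowerCentralSeries i →
      ¬ IsCyclic (Subgroup.closure {g false, w} : Subgroup G) →
      (∀ x, E (w * x) = - E x) → ∀ Q : G → ℝ, (∀ x, Q x = 1 ∨ Q x = -1) →
      (∀ x, Q (g false * x) = Q x) → (∀ x, Q (w * x) = - Q x) →
      ∃ F, IsPatH g Ww w E F Q := by
  induction n with
  | zero =>
    intro i hi Ww w hw hcom hnc hEw Q hQ1 hQv hQw
    obtain ⟨φ, ψ, h1, h2, h3, h4⟩ := exists_homs_closure hTF hnc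
    obtain ⟨F, hF1, hF2, hF3⟩ := exists_sign _ φ
    have hcomm : Commute (g false) w := by
      rw [show i = c by omega, hc, Subgroup.mem_bot, commutatorElement_eq_one_iff_commute] at hcom
      exact hcom
    exact ⟨F, isPatH_base hw hcomm hE1 hEv hEw hF1 hQ1 (fun x => hF3 _ x h1)
      (fun x => hF2 _ x h2) hQv hQw⟩
  | succ n ih =>
    intro i hi Ww w hw hcom hnc hEw Q hQ1 hQv hQw
    by_cases hcomm : Commute (g false) w
    · obtain ⟨φ, ψ, h1, h2, h3, h4⟩ := exists_homs_closure hTF hnc
      obtain ⟨F, hF1, hF2, hF3⟩ := exists_sign _ φ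
      exact ⟨F, isPatH_base hw hcomm hE1 hEv hEw hF1 hQ1 (fun x => hF3 _ x h1)
        (fun x => hF2 _ x h2) hQv hQw⟩
    · have hEwi : ∀ x, E (w⁻¹ * x) = - E x := by
        intro x
        have := hEw (w⁻¹ * x)
        rw [mul_inv_cancel_left] at this
        linarith
      have hnc' := noncyclic_conj hTF hcomm
      obtain ⟨Q', hQ'1, hQ'v, hQ'w⟩ := exists_Q hTF hnc'
      obtain ⟨F', hP⟩ := ih (i + 1) (by omega) (Ww ++ ([(false, false)] ++ winv Ww))
        (w⁻¹ * g false * w) (by
          rw [wval_append, wval_append, wval_winv, hw]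
          simp [lval]) (comm_conj_mem hcom) hnc' (fun x => by
          rw [mul_assoc, mul_assoc, hEwi, hEv, hEw]; ring) Q' hQ'1 hQ'v hQ'w
      exact ⟨_, isPatH_step hw hE1 hEv hEw rfl hP hQ1 hQv hQw⟩

/-- The edges of the cubic graph. -/
def Hc (Q : G → ℝ) (k : G) (l : Lt) : Prop := l.1 = false ∨ (if l.2 then (-1 : ℝ) else 1) * Q k = 1

theorem Hc_symm {Q : G → ℝ} (hQw : ∀ x, Q (g true * x) = - Q x) : SymmE g (Hc Q) := by
  intro y l
  have h2 := odd_inv hQw y
  unfold Hc
  obtain ⟨i, j⟩ := l
  cases i <;> cases j <;> simp [linv, lval, hQw y, h2]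

/-- The function of the cubic pattern. -/
theorem exists_cubic [Group.IsNilpotent G] (hTF : TF G) {E Q : G → ℝ}
    (hE1 : ∀ x, E x = 1 ∨ E x = -1) (hEg : ∀ i x, E (g i * x) = - E x)
    (hQ1 : ∀ x, Q x = 1 ∨ Q x = -1) (hQv : ∀ x, Q (g false * x) = Q x)
    (hQw : ∀ x, Q (g true * x) = - Q x)
    (hnc : ¬ IsCyclic (Subgroup.closure {g false, g true} : Subgroup G)) :
    ∃ F : G → ℝ, (∀ x, F x = 1 ∨ F x = -1) ∧ (∀ x, F (g false * x) = - F x) ∧
      (∃ N, 1 ≤ N ∧ ∀ x, (fun x => pst (g true) Q (pst (g false) F x))^[N] x = x) ∧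
      NullH g (Hc Q) (conv g (fun x => F x * E x) [(false, false)]) := by
  classical
  have habs : ∀ x, |E x| ≤ 1 := by
    intro x
    rcases hE1 x with h | h <;> rw [h] <;> norm_num
  have hEv := hEg false
  have hEw := hEg true
  have hH := Hc_symm (g := g) hQw
  have hQwi := odd_inv hQw
  have hEwi := odd_inv hEw
  have hQvi := even_inv hQv
  have ht : wval g [(true, false)] = g true := by simp [lval]
  have e0 : wval g [(false, false)] = g false := by simp [lval]
  by_cases hcomm : Commute (g false) (g true)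
  · obtain ⟨φ, ψ, h1, h2, h3, h4⟩ := exists_homs_closure hTF hnc
    obtain ⟨F, hF1, hF2, hF3⟩ := exists_sign _ φ
    have hFv : ∀ x, F (g false * x) = - F x := fun x => hF3 _ x h1
    have hFw : ∀ x, F (g true * x) = F x := fun x => hF2 _ x h2
    refine ⟨F, hF1, hFv, (isPat_base ht hcomm habs hEv hEw hF1 hQ1 hFv hFw hQv hQw).per, ?_⟩
    have hFwi := even_inv hFw
    have hcl : NullH g (Hc Q) (conv g (fun x => if Q x = 1 then F x * E x else 0)
        [(false, false), (true, false), (false, true), (true, true)]) := by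
      refine nullH_closed zero_le_one ?_ ?_ ?_
      · have hc := hcomm.eq
        simp only [wval_cons, wval_nil, lval, one_mul]
        simp only [Bool.false_eq_true, if_false, if_true]
        rw [mul_assoc, ← hc]
        group
      · intro x
        split_ifs
        · rw [abs_mul]
          have h1 : |F x| = 1 := by rcases hF1 x with h | h <;> rw [h] <;> norm_num
          rw [h1, one_mul]
          exact habs x
        · norm_num
      · intro x hx
        have hQx : Q x = 1 := by
          by_contra h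
          rw [if_neg h] at hx
          exact hx rfl
        refine ⟨Or.inl rfl, Or.inr ?_, Or.inl rfl, Or.inr ?_, trivial⟩
        · simp [lval, hQv, hQx]
        · simp [lval, hQvi, hQw, hQv, hQx]
    refine hcl.congr fun y s => ?_
    have hc := hcomm.eq
    have hQ4 : ∀ x, Q ((g true)⁻¹ * ((g false)⁻¹ * (g true * (g false * x)))) = Q x := by
      intro x; rw [hQwi, hQvi, hQw, hQv]; ring
    simp only [conv_cons, conv_nil, smul_eq_mul]
    have hcom2 : ∀ x, (g false)⁻¹ * (g true * x) = g true * ((g false)⁻¹ * x) := by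
      intro x
      rw [inv_mul_eq_iff_eq_mul, ← mul_assoc (g false) (g true), hc, mul_assoc (g true),
        mul_inv_cancel_left]
    have hcom3 : ∀ x, (g false)⁻¹ * ((g true)⁻¹ * x) = (g true)⁻¹ * ((g false)⁻¹ * x) := by
      intro x
      rw [eq_inv_mul_iff_mul_eq, ← hcom2, mul_inv_cancel_left]
    have hEvi := odd_inv hEv
    have hFvi := odd_inv hFv
    obtain ⟨i, j⟩ := s
    have hy := hQ1 y
    cases i <;> cases j <;>
      rcases hy with hy | hy <;>
      simp [linv, lval, hQv, hQvi, hQw, hQwi, hEv, hEvi, hEw, hEwi, hFv, hFvi, hFw, hFwi, hy] <;>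
      norm_num
  · have hnc' := noncyclic_conj hTF hcomm
    obtain ⟨Q', hQ'1, hQ'v, hQ'w⟩ := exists_Q hTF hnc'
    obtain ⟨c, hc⟩ := Subgroup.nilpotent_iff_lowerCentralSeries.mp (inferInstance :
      Group.IsNilpotent G)
    obtain ⟨F', hP⟩ := exists_patternH (g := g) hTF habs hEv hc c 0 (by omega)
      ([(true, false)] ++ ([(false, false)] ++ winv [(true, false)]))
      ((g true)⁻¹ * g false * g true) (by
        rw [wval_append, wval_append, wval_winv, ht]
        simp [lval]) (by simp) hnc' (fun x => by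
        rw [mul_assoc, mul_assoc, hEwi, hEv, hEw]; ring) Q' hQ'1 hQ'v hQ'w
    have hF := isPatH_step (Q := Q) ht habs hEv hEw rfl hP hQ1 hQv hQw
    refine ⟨Fst (g true) F' Q' Q, hF.F1, hF.Fv, hF.per, ?_⟩
    have hLv : ∀ ε : ℝ, Loop g (Hc Q) (fun x => Q x = ε) [(false, false)] := by
      intro ε
      refine ⟨fun x _ => ⟨Or.inl rfl, trivial⟩, fun x => ?_⟩
      rw [e0, hQv]
    have hL1 : Loop g (Hc Q) (fun x => Q x = 1)
        ([(true, false)] ++ ([(false, false)] ++ winv [(true, false)])) := by
      refine ⟨fun x hx => ?_, fun x => ?_⟩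
      · refine ⟨Or.inr ?_, Or.inl rfl, Or.inr ?_, trivial⟩
        · simp [hx]
        · simp [linv, lval, hQv, hQw, hx]
      · have e : wval g ([(true, false)] ++ ([(false, false)] ++ winv [(true, false)])) =
            (g true)⁻¹ * (g false * g true) := by
          rw [wval_append, wval_append, wval_winv, ht]
          simp [lval, mul_assoc]
        rw [e]
        simp only [mul_assoc]
        rw [hQwi, hQv, hQw, neg_neg]
    have hL2 : Loop g (Hc Q) (fun x => Q x = -1)
        ([(true, true)] ++ ([(false, false)] ++ [(true, false)])) := by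
      refine ⟨fun x hx => ?_, fun x => ?_⟩
      · refine ⟨Or.inr ?_, Or.inl rfl, Or.inr ?_, trivial⟩
        · simp [hx]
        · simp [lval, hQv, hQwi, hx]
      · have e : wval g ([(true, true)] ++ ([(false, false)] ++ [(true, false)])) =
            g true * (g false * (g true)⁻¹) := by
          simp [lval, mul_assoc]
        rw [e]
        simp only [mul_assoc]
        rw [hQw, hQv, hQwi, neg_neg]
    have h1 := hP.null (Hc Q) hH (fun x => Q x = 1) (hLv 1) hL1
      (fun x => if Q x = 1 then 1 else 0) ⟨1, zero_le_one, fun x => by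
        split_ifs <;> norm_num⟩ (fun x hx => by
        by_contra h
        simp only [if_neg h] at hx
        exact hx rfl) (fun x => by simp only [hQv]) (fun x => by
        simp only [mul_assoc, hQwi, hQv, hQw, neg_neg])
    have h2 : NullH g (Hc Q) (conv g (fun x => if Q x = 1 then 0 else
        Q' ((g true)⁻¹ * x) * E x) [(false, false)]) := by
      have hconj : ∀ x, (g true)⁻¹ * (g false * x) =
          ((g true)⁻¹ * g false * g true) * ((g true)⁻¹ * x) := by
        intro x; group
      refine nullH_crossing hH (Z := fun x => Q x = -1)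
        (Wt := [(true, true)] ++ ([(false, false)] ++ [(true, false)])) (C := 1) zero_le_one
        ?_ ?_ hL2 (hLv (-1)) ?_ ?_
      · intro x
        split_ifs
        · norm_num
        · rw [abs_mul]
          have h1 : |Q' ((g true)⁻¹ * x)| = 1 := by
            rcases hQ'1 ((g true)⁻¹ * x) with h | h <;> rw [h] <;> norm_num
          rw [h1, one_mul]
          exact habs x
      · intro x hx
        rcases hQ1 x with h | h
        · rw [if_pos h] at hx
          exact absurd rfl hx
        · exact h
      · intro x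
        rw [e0, hQv, hconj, hQ'w, hEv]
        simp only [neg_mul_neg]
      · intro x
        have e : wval g ([(true, true)] ++ ([(false, false)] ++ [(true, false)])) =
            g true * g false * (g true)⁻¹ := by
          simp [lval, mul_assoc]
        have hQt : Q (g true * g false * (g true)⁻¹ * x) = Q x := by
          rw [mul_assoc, mul_assoc, hQw, hQv, hQwi]; ring
        have hQ't : Q' ((g true)⁻¹ * (g true * g false * (g true)⁻¹ * x)) =
            Q' ((g true)⁻¹ * x) := by
          have : (g true)⁻¹ * (g true * g false * (g true)⁻¹ * x) =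
            g false * ((g true)⁻¹ * x) := by group
          rw [this]
          exact hQ'v _
        have hEt : E (g true * g false * (g true)⁻¹ * x) = - E x := by
          rw [mul_assoc, mul_assoc, hEw, hEv, hEwi]; ring
        rw [e, hQt, hQ't, hEt]
        split_ifs
        · ring
        · ring
    refine (h1.add h2).congr fun y s => ?_
    rw [← conv_add]
    apply conv_congr
    intro x _
    unfold Fst
    rcases hQ1 x with h | h
    · rw [if_pos h, if_pos h, if_pos h]; ring
    · have h' : ¬ Q x = 1 := by rw [h]; norm_num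
      rw [if_neg h', if_neg h', if_neg h']; ring

end Run7.h916
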