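import Pool.Agent.Run7.h916.Flip

set_option autoImplicit false
set_option linter.unusedSectionVars false

/-!
Existence of phase functions, and some group theory.
-/

namespace Run7.h916

open Set Relation
open scoped Pointwise

universe u v

variable {Γ : Type u} [Group Γ]

/-- Phase functions: if `v` normalises `M` and `v ^ k ∈ M` only if `n ∣ k`, there is a function
which increases by one under `v` and is invariant under `M`. -/
theorem exists_phase (M : Subgroup Γ) (v : Γ) (n : ℕ) (h1 : ∀ m ∈ M, v * m * v⁻¹ ∈ M)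
    (h2 : ∀ m ∈ M, v⁻¹ * m * v ∈ M) (hn : ∀ k : ℤ, v ^ k ∈ M → (n : ℤ) ∣ k) :
    ∃ F : Γ → ZMod n, (∀ γ, F (v * γ) = F γ + 1) ∧ ∀ m ∈ M, ∀ γ, F (m * γ) = F γ := by
  classical
  -- conjugation by powers of v
  have hconj : ∀ (k : ℤ), ∀ m ∈ M, v ^ k * m * v ^ (-k) ∈ M := by
    intro k
    induction k using Int.induction_on with
    | zero => intro m hm; simpa using hm
    | succ i ih =>
      intro m hm
      have := h1 _ (ih m hm)
      have e : v ^ ((i : ℤ) + 1) * m * v ^ (-((i : ℤ) + 1)) = v * (v ^ (i : ℤ) * m * v ^ (-(i : ℤ))) * v⁻¹ := by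
        rw [zpow_add, zpow_one, neg_add, zpow_add, zpow_neg_one]
        have : v ^ (i : ℤ) * v = v * v ^ (i : ℤ) := by
          rw [← zpow_add_one, ← zpow_one_add, add_comm]
        rw [this]
        simp only [mul_assoc]
      rw [e]; exact this
    | pred i ih =>
      intro m hm
      have := h2 _ (ih m hm)
      have e : v ^ (-(i : ℤ) - 1) * m * v ^ (-(-(i : ℤ) - 1)) = v⁻¹ * (v ^ (-(i : ℤ)) * m * v ^ (-(-(i : ℤ)))) * v := by
        rw [sub_eq_add_neg, zpow_add, zpow_neg_one, neg_add, neg_neg, neg_neg, zpow_add, zpow_one]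
        have : v ^ (-(i : ℤ)) * v⁻¹ = v⁻¹ * v ^ (-(i : ℤ)) := by
          rw [← zpow_sub_one, ← zpow_neg_one, ← zpow_add]
          congr 1; ring
        rw [this]
        simp only [mul_assoc]
      rw [e]; exact this
  let r : Setoid Γ :=
    { r := fun γ γ' => ∃ k : ℤ, ∃ m ∈ M, γ' = v ^ k * m * γ
      iseqv := by
        refine ⟨?_, ?_, ?_⟩
        · intro γ
          exact ⟨0, 1, M.one_mem, by simp⟩
        · rintro γ γ' ⟨k, m, hm, rfl⟩
          refine ⟨-k, v ^ k * m⁻¹ * v ^ (-k), hconj k _ (M.inv_mem hm), ?_⟩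
          simp only [zpow_neg]
          group
        · rintro γ γ' γ'' ⟨k, m, hm, rfl⟩ ⟨k', m', hm', rfl⟩
          refine ⟨k' + k, v ^ (-k) * m' * v ^ (- -k) * m, M.mul_mem (hconj (-k) _ hm') hm, ?_⟩
          rw [zpow_add]
          simp only [zpow_neg, inv_inv]
          group }
  have hrep : ∀ γ : Γ, ∃ k : ℤ, ∃ m ∈ M, γ = v ^ k * m * (Quotient.out (Quotient.mk r γ)) := by
    intro γ
    have : r.r (Quotient.out (Quotient.mk r γ)) γ := Quotient.exact (Quotient.out_eq (Quotient.mk r γ))
    exact this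
  choose K m hm hK using hrep
  have hcomp : ∀ (γ : Γ) (k : ℤ) (m' : Γ), m' ∈ M →
      γ = v ^ k * m' * (Quotient.out (Quotient.mk r γ)) → ((K γ : ℤ) : ZMod n) = (k : ZMod n) := by
    intro γ k m' hm' h
    have h' := hK γ
    rw [h'] at h
    have h3 : v ^ (K γ) * m γ = v ^ k * m' := by
      have := mul_right_cancel (a := v ^ (K γ) * m γ) (b := Quotient.out (Quotient.mk r γ))
        (c := v ^ k * m') (by
          conv_rhs at h => rw [← h']
          exact h)
      exact this
    have h4 : v ^ (K γ - k) ∈ M := by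
      have : v ^ (K γ - k) = v ^ (-k) * (v ^ (K γ) * m γ * (m γ)⁻¹) := by
        rw [mul_inv_cancel_right, ← zpow_add]; congr 1; ring
      rw [this, h3]
      have : v ^ (-k) * (v ^ k * m' * (m γ)⁻¹) = m' * (m γ)⁻¹ := by
        rw [zpow_neg]; group
      rw [this]
      exact M.mul_mem hm' (M.inv_mem (hm γ))
    have h5 := hn _ h4
    rw [← sub_eq_zero, ← Int.cast_sub]
    exact (ZMod.intCast_zmod_eq_zero_iff_dvd _ n).mpr h5
  refine ⟨fun γ => ((K γ : ℤ) : ZMod n), ?_, ?_⟩
  · intro γ
    have hq : Quotient.mk r (v * γ) = Quotient.mk r γ := by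
      apply Quotient.sound
      refine r.symm ?_
      exact ⟨1, 1, M.one_mem, by simp⟩
    have := hcomp (v * γ) (K γ + 1) (m γ) (hm γ) (by
      rw [hq]
      conv_lhs => rw [hK γ]
      rw [add_comm, zpow_add, zpow_one]
      simp only [mul_assoc])
    simp only
    rw [this]; push_cast; ring
  · intro m' hm' γ
    have hq : Quotient.mk r (m' * γ) = Quotient.mk r γ := by
      apply Quotient.sound
      refine r.symm ?_
      exact ⟨0, m', hm', by simp⟩
    refine hcomp (m' * γ) (K γ) (v ^ (-(K γ)) * m' * v ^ (- -(K γ)) * m γ)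
      (M.mul_mem (hconj _ _ hm') (hm γ)) ?_
    rw [hq]
    conv_lhs => rw [hK γ]
    simp only [zpow_neg, inv_inv]
    group

theorem IsLocallyFinite.isOfFinOrder {L : Subgroup Γ} (hL : IsLocallyFinite L) {g : Γ}
    (hg : g ∈ L) : IsOfFinOrder g := by
  have h1 : Subgroup.zpowers g ≤ L := by
    rw [Subgroup.zpowers_le]; exact hg
  have h2 : (Subgroup.zpowers g).FG := ⟨{g}, by
    rw [Finset.coe_singleton, Subgroup.zpowers_eq_closure]⟩
  have := hL _ h1 h2
  exact finite_zpowers.mp (Set.toFinite _)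

/-- A finitely generated subgroup with finite image modulo a locally finite normal subgroup is
finite. -/
theorem finite_of_finite_map {L : Subgroup Γ} [L.Normal] (hL : IsLocallyFinite L)
    {F : Subgroup Γ} (hF : F.FG) (hmap : (F.map (QuotientGroup.mk' L) : Set (Γ ⧸ L)).Finite) :
    Finite F := by
  -- the intersection with `L` has finite index in `F`
  let φ : F →* (Γ ⧸ L) := (QuotientGroup.mk' L).comp F.subtype
  have hrange : (φ.range : Set (Γ ⧸ L)).Finite := by
    refine hmap.subset ?_
    rintro _ ⟨x, rfl⟩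
    exact ⟨x, x.2, rfl⟩
  have hfi : φ.ker.FiniteIndex := by
    have : Finite φ.range := hrange.to_subtype
    have e : Finite (F ⧸ φ.ker) := Finite.of_equiv _ (QuotientGroup.quotientKerEquivRange φ).symm.toEquiv
    exact Subgroup.finiteIndex_of_finite_quotient
  have : Group.FG F := (Group.fg_iff_subgroup_fg F).mpr hF
  have hkfg : Group.FG φ.ker := by
    exact Subgroup.fg_of_index_ne_zero φ.ker
  have hkfg' : φ.ker.FG := (Group.fg_iff_subgroup_fg _).mp hkfg
  have hkm : (φ.ker.map F.subtype).FG := by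
    obtain ⟨s, hs⟩ := hkfg'
    classical
    refine ⟨s.image F.subtype, ?_⟩
    rw [Finset.coe_image, ← MonoidHom.map_closure, hs]
  have hle : φ.ker.map F.subtype ≤ L := by
    rintro _ ⟨x, hx, rfl⟩
    have : φ x = 1 := hx
    exact (QuotientGroup.eq_one_iff _).mp this
  have hfin := hL _ hle hkm
  have hkfin : Finite φ.ker := by
    have hinj : Function.Injective F.subtype := Subtype.val_injective
    exact Finite.of_equiv _ (φ.ker.equivMapOfInjective F.subtype hinj).symm.toEquiv
  have : Finite (F ⧸ φ.ker) := by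
    have : Finite φ.range := hrange.to_subtype
    exact Finite.of_equiv _ (QuotientGroup.quotientKerEquivRange φ).symm.toEquiv
  have e : F ≃ (F ⧸ φ.ker) × φ.ker := Subgroup.groupEquivQuotientProdSubgroup
  exact Finite.of_equiv _ e.symm

end Run7.h916
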