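import Pool.Agent.Run7.h916.Blocks

set_option autoImplicit false
set_option linter.unusedSectionVars false

/-!
The torsion pivot: one direction of finite order which commutes with, or inverts, all directions of
infinite order modulo a locally finite normal subgroup.
-/

namespace Run7.h916

open Set Relation
open scoped Pointwise

universe u v

variable {Γ : Type u} [Group Γ]

theorem pivot_finite_comm {L : Subgroup Γ} [L.Normal] (hL : IsLocallyFinite L) {v z : Γ}
    (hz : IsOfFinOrder z) (h : z * v * z⁻¹ * v⁻¹ ∈ L) :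
    Finite (Subgroup.closure {z, v⁻¹ * z * v} : Subgroup Γ) := by
  classical
  refine finite_of_finite_map hL ⟨{z, v⁻¹ * z * v}, by simp⟩ ?_
  have hle : (Subgroup.closure {z, v⁻¹ * z * v} : Subgroup Γ).map (QuotientGroup.mk' L) ≤
      Subgroup.zpowers (QuotientGroup.mk' L z) := by
    rw [MonoidHom.map_closure, Subgroup.closure_le]
    rintro _ ⟨a, ha, rfl⟩
    rcases ha with rfl | ha
    · exact Subgroup.mem_zpowers _
    · rw [mem_singleton_iff] at ha
      rw [ha]
      have : (QuotientGroup.mk' L) (v⁻¹ * z * v) = QuotientGroup.mk' L z := by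
        have h1 : (QuotientGroup.mk' L) (z * v * z⁻¹ * v⁻¹) = 1 :=
          (QuotientGroup.eq_one_iff _).mpr h
        simp only [map_mul, map_inv] at h1 ⊢
        have h2 := mul_inv_eq_one.mp h1
        have h3 := mul_inv_eq_iff_eq_mul.mp h2
        rw [mul_assoc, h3]; group
      rw [this]
      exact Subgroup.mem_zpowers _
  have hfin : (Subgroup.zpowers (QuotientGroup.mk' L z) : Set (Γ ⧸ L)).Finite :=
    finite_zpowers.mpr (MonoidHom.isOfFinOrder _ hz)
  exact hfin.subset hle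

theorem pivot_finite_inv {L : Subgroup Γ} [L.Normal] (hL : IsLocallyFinite L) {v z : Γ}
    (hz : IsOfFinOrder z) (h : z * v * z⁻¹ * v ∈ L) :
    Finite (Subgroup.closure {z * v, z⁻¹ * v} : Subgroup Γ) := by
  classical
  refine finite_of_finite_map hL ⟨{z * v, z⁻¹ * v}, by simp⟩ ?_
  set Z := QuotientGroup.mk' L z with hZ
  set V := QuotientGroup.mk' L v with hV
  have h1 : Z * V * Z⁻¹ = V⁻¹ := by
    have : (QuotientGroup.mk' L) (z * v * z⁻¹ * v) = 1 := (QuotientGroup.eq_one_iff _).mpr h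
    simp only [map_mul, map_inv] at this
    exact eq_inv_of_mul_eq_one_left this
  have h2 : Z * V = V⁻¹ * Z := mul_inv_eq_iff_eq_mul.mp h1
  have h3 : Z * V⁻¹ = V * Z := by
    have : V * (Z * V) * V⁻¹ = V * (V⁻¹ * Z) * V⁻¹ := by rw [h2]
    rw [mul_inv_cancel_left, mul_assoc, mul_assoc, mul_inv_cancel, mul_one] at this
    exact this.symm
  have h4 : Z⁻¹ * V = (Z * V)⁻¹ := by
    rw [mul_inv_rev, eq_comm]
    rw [← mul_left_inj Z, inv_mul_cancel_right]
    rw [eq_comm, mul_assoc, ← h3, inv_mul_cancel_left]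
  have h5 : (Z * V) * (Z * V) = Z * Z := by
    calc (Z * V) * (Z * V) = (V⁻¹ * Z) * (Z * V) := by rw [h2]
      _ = V⁻¹ * (Z * (Z * V)) := by rw [mul_assoc]
      _ = V⁻¹ * (Z * (V⁻¹ * Z)) := by rw [h2]
      _ = V⁻¹ * ((Z * V⁻¹) * Z) := by rw [mul_assoc Z]
      _ = V⁻¹ * ((V * Z) * Z) := by rw [h3]
      _ = Z * Z := by group
  have hle : (Subgroup.closure {z * v, z⁻¹ * v} : Subgroup Γ).map (QuotientGroup.mk' L) ≤
      Subgroup.zpowers (Z * V) := by
    rw [MonoidHom.map_closure, Subgroup.closure_le]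
    rintro _ ⟨a, ha, rfl⟩
    rcases ha with rfl | ha
    · rw [map_mul]
      exact Subgroup.mem_zpowers _
    · rw [mem_singleton_iff] at ha
      rw [ha, map_mul, map_inv, ← hZ, ← hV, h4]
      exact inv_mem (Subgroup.mem_zpowers _)
  have hZfin : IsOfFinOrder Z := MonoidHom.isOfFinOrder _ hz
  have hfin : IsOfFinOrder (Z * V) := by
    rw [isOfFinOrder_iff_pow_eq_one] at hZfin ⊢
    obtain ⟨n, hn, hZn⟩ := hZfin
    refine ⟨2 * n, by omega, ?_⟩
    rw [pow_mul, pow_two, h5, ← pow_two, ← pow_mul, mul_comm, pow_mul, hZn, one_pow]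
  exact (finite_zpowers.mpr hfin).subset hle

/-- Phases for a direction commuting with the pivot modulo `L`. -/
theorem pivot_phase_comm {L : Subgroup Γ} [hLn : L.Normal] (hL : IsLocallyFinite L) {v z : Γ}
    (hz : IsOfFinOrder z) (hv : ¬ IsOfFinOrder v) (h : z * v * z⁻¹ * v⁻¹ ∈ L) :
    ∃ φ : Γ → ZMod 2, (∀ γ, φ (v * γ) = φ γ + 1) ∧ ∀ γ, φ (z * γ) = φ γ := by
  classical
  -- the subgroup `M = ⟨z⟩ L`
  set M : Subgroup Γ := Subgroup.zpowers z ⊔ L with hM
  have hzM : z ∈ M := Subgroup.mem_sup_left (Subgroup.mem_zpowers z)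
  have hLM : L ≤ M := le_sup_right
  have hMmem : ∀ m ∈ M, ∃ k : ℤ, ∃ l ∈ L, m = z ^ k * l := by
    intro m hm
    obtain ⟨a, ha, b, hb, rfl⟩ := Subgroup.mem_sup_of_normal_right.mp hm
    obtain ⟨k, rfl⟩ := Subgroup.mem_zpowers_iff.mp ha
    exact ⟨k, b, hb, rfl⟩
  have hM_of : ∀ (k : ℤ), ∀ l ∈ L, z ^ k * l ∈ M := fun k l hl =>
    M.mul_mem (M.zpow_mem hzM k) (hLM hl)
  have hcomm : ∀ a b : Γ, a * b * a⁻¹ * b⁻¹ ∈ L → ∀ k : ℤ, b * a ^ k * b⁻¹ * (a ^ k)⁻¹ ∈ L := by
    intro a b hab k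
    have h1 : (QuotientGroup.mk' L a) * (QuotientGroup.mk' L b) =
        (QuotientGroup.mk' L b) * (QuotientGroup.mk' L a) := by
      have : (QuotientGroup.mk' L) (a * b * a⁻¹ * b⁻¹) = 1 := (QuotientGroup.eq_one_iff _).mpr hab
      simp only [map_mul, map_inv] at this
      exact mul_inv_eq_iff_eq_mul.mp (mul_inv_eq_one.mp this)
    have h2 : Commute (QuotientGroup.mk' L b) ((QuotientGroup.mk' L a) ^ k) :=
      Commute.zpow_right (show Commute _ _ from h1.symm) k
    rw [← QuotientGroup.eq_one_iff]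
    change QuotientGroup.mk' L (b * a ^ k * b⁻¹ * (a ^ k)⁻¹) = 1
    simp only [map_mul, map_inv, map_zpow]
    rw [h2.eq]; group
  obtain ⟨F, hF1, hF2⟩ := exists_phase M v 2 (by
    intro m hm
    obtain ⟨k, l, hl, rfl⟩ := hMmem m hm
    have h1 := hcomm z v h k
    have e : v * (z ^ k * l) * v⁻¹ = z ^ k * ((z ^ k)⁻¹ * (v * z ^ k * v⁻¹ * (z ^ k)⁻¹) * (z ^ k)⁻¹⁻¹ *
        (v * l * v⁻¹)) := by group
    rw [e]
    exact hM_of k _ (L.mul_mem (hLn.conj_mem _ h1 _) (hLn.conj_mem _ hl _))) (by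
    intro m hm
    obtain ⟨k, l, hl, rfl⟩ := hMmem m hm
    have h0 : z * v⁻¹ * z⁻¹ * v⁻¹⁻¹ ∈ L := by
      have := hLn.conj_mem _ (inv_mem h) v⁻¹
      have e : z * v⁻¹ * z⁻¹ * v⁻¹⁻¹ = v⁻¹ * (z * v * z⁻¹ * v⁻¹)⁻¹ * v⁻¹⁻¹ := by group
      rw [e]; exact this
    have h1 := hcomm z v⁻¹ h0 k
    have e : v⁻¹ * (z ^ k * l) * v = z ^ k * ((z ^ k)⁻¹ * (v⁻¹ * z ^ k * v⁻¹⁻¹ * (z ^ k)⁻¹) *
        (z ^ k)⁻¹⁻¹ * (v⁻¹ * l * v⁻¹⁻¹)) := by group
    rw [e]
    exact hM_of k _ (L.mul_mem (hLn.conj_mem _ h1 _) (hLn.conj_mem _ hl _))) (by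
    intro k hk
    obtain ⟨e, l, hl, hkl⟩ := hMmem _ hk
    -- `v ^ k` has finite order
    have hfin : IsOfFinOrder (v ^ k) := by
      rw [isOfFinOrder_iff_pow_eq_one] at hz
      obtain ⟨n, hn, hzn⟩ := hz
      have hml : (v ^ k) ^ n ∈ L := by
        rw [← QuotientGroup.eq_one_iff]
        change QuotientGroup.mk' L ((v ^ k) ^ n) = 1
        have hl1 : QuotientGroup.mk' L l = 1 := (QuotientGroup.eq_one_iff _).mpr hl
        rw [hkl, map_pow, map_mul, map_zpow, hl1, mul_one, ← zpow_natCast, ← zpow_mul,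
          mul_comm, zpow_mul, zpow_natCast, ← map_pow, hzn, map_one, one_zpow]
      have := hL.isOfFinOrder hml
      exact (isOfFinOrder_pow).mp this |>.resolve_right (by omega)
    have hk0 : k = 0 := by
      by_contra hk0
      apply hv
      rcases Int.natAbs_eq k with h' | h'
      · rw [h', zpow_natCast, isOfFinOrder_pow] at hfin
        exact hfin.resolve_right (by omega)
      · rw [h', zpow_neg, zpow_natCast, isOfFinOrder_inv_iff, isOfFinOrder_pow] at hfin
        exact hfin.resolve_right (by omega)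
    rw [hk0]
    exact dvd_zero _)
  exact ⟨F, hF1, fun γ => hF2 z hzM γ⟩

/-- Powers of an element which inverts another one. -/
theorem inverting_powers {Q : Type*} [Group Q] {Z V : Q} (h : Z * V * Z⁻¹ = V⁻¹) (e : ℤ) :
    (Even e → ∀ k : ℤ, Z ^ e * V ^ k = V ^ k * Z ^ e) ∧
      (¬ Even e → ∀ k : ℤ, Z ^ e * V ^ k = V ^ (-k) * Z ^ e) := by
  have h1 : ∀ k : ℤ, Z * V ^ k = V ^ (-k) * Z := by
    intro k
    rw [← mul_inv_eq_iff_eq_mul, ← conj_zpow, h, inv_zpow, zpow_neg]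
  have h2 : ∀ k : ℤ, Z⁻¹ * V ^ k = V ^ (-k) * Z⁻¹ := by
    intro k
    rw [inv_mul_eq_iff_eq_mul, ← mul_assoc, h1, neg_neg, mul_assoc, mul_inv_cancel, mul_one]
  induction e using Int.induction_on with
  | zero => exact ⟨fun _ k => by simp, fun h => absurd (by simp) h⟩
  | succ i ih =>
    refine ⟨fun he k => ?_, fun he k => ?_⟩
    · have hne : ¬ Even (i : ℤ) := by
        intro h'; rw [Int.even_add_one] at he; exact he h'
      rw [add_comm, zpow_add, zpow_one, mul_assoc, ih.2 hne, ← mul_assoc, h1, neg_neg, mul_assoc]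
    · have hev : Even (i : ℤ) := by
        rw [Int.even_add_one, not_not] at he; exact he
      rw [add_comm, zpow_add, zpow_one, mul_assoc, ih.1 hev, ← mul_assoc, h1, mul_assoc]
  | pred i ih =>
    have hpar : Even (-(i : ℤ) - 1) ↔ ¬ Even (-(i : ℤ)) := by
      rw [Int.even_sub_one]
    have e1 : Z ^ (-(i : ℤ) - 1) = Z⁻¹ * Z ^ (-(i : ℤ)) := by
      rw [sub_eq_add_neg, add_comm, zpow_add, zpow_neg_one]
    refine ⟨fun he k => ?_, fun he k => ?_⟩
    · have hne := hpar.mp he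
      rw [e1, mul_assoc, ih.2 hne, ← mul_assoc, h2, neg_neg, mul_assoc]
    · have hev : Even (-(i : ℤ)) := by
        rw [hpar, not_not] at he; exact he
      rw [e1, mul_assoc, ih.1 hev, ← mul_assoc, h2, mul_assoc]

/-- Phases for a direction inverted by the pivot modulo `L`. -/
theorem pivot_phase_inv {L : Subgroup Γ} [hLn : L.Normal] (hL : IsLocallyFinite L) {v z : Γ}
    (hz : IsOfFinOrder z) (hv : ¬ IsOfFinOrder v) (h : z * v * z⁻¹ * v ∈ L) :
    ∃ φ : Γ → ZMod 2, (∀ γ, φ (v * γ) = φ γ + 1) ∧ ∀ γ, φ (z * γ) = φ γ + 1 := by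
  classical
  set Z := QuotientGroup.mk' L z with hZ
  set V := QuotientGroup.mk' L v with hV
  have h1 : Z * V * Z⁻¹ = V⁻¹ := by
    have : (QuotientGroup.mk' L) (z * v * z⁻¹ * v) = 1 := (QuotientGroup.eq_one_iff _).mpr h
    simp only [map_mul, map_inv] at this
    exact eq_inv_of_mul_eq_one_left this
  have hinv := inverting_powers h1
  have hswap : ∀ e k : ℤ, ∃ k' : ℤ, (Even k' ↔ Even k) ∧ Z ^ e * V ^ k = V ^ k' * Z ^ e := by
    intro e k
    by_cases he : Even e
    · exact ⟨k, Iff.rfl, (hinv e).1 he k⟩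
    · exact ⟨-k, even_neg, (hinv e).2 he k⟩
  let M : Subgroup Γ :=
    { carrier := {g | ∃ k e : ℤ, Even (k + e) ∧ QuotientGroup.mk' L g = V ^ k * Z ^ e}
      one_mem' := ⟨0, 0, by simp, by simp⟩
      mul_mem' := by
        rintro a b ⟨k, e, he, ha⟩ ⟨k', e', he', hb⟩
        obtain ⟨k'', hk'', hs⟩ := hswap e k'
        refine ⟨k + k'', e + e', ?_, ?_⟩
        · rw [Int.even_add] at he he' ⊢
          rw [Int.even_add, Int.even_add, hk'', he, he']
        · rw [map_mul, ha, hb, zpow_add, zpow_add, mul_assoc, ← mul_assoc (Z ^ e), hs]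
          simp only [mul_assoc]
      inv_mem' := by
        rintro a ⟨k, e, he, ha⟩
        obtain ⟨k', hk', hs⟩ := hswap (-e) (-k)
        refine ⟨k', -e, ?_, ?_⟩
        · rw [Int.even_add] at he ⊢
          rw [hk', even_neg, even_neg, he]
        · rw [map_inv, ha, mul_inv_rev, ← zpow_neg, ← zpow_neg, hs] }
  have hMdef : ∀ g, g ∈ M ↔ ∃ k e : ℤ, Even (k + e) ∧ QuotientGroup.mk' L g = V ^ k * Z ^ e :=
    fun g => Iff.rfl
  have hVinf : ∀ k : ℤ, IsOfFinOrder (V ^ k) → k = 0 := by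
    intro k hk
    by_contra hk0
    apply hv
    have h2 : IsOfFinOrder (QuotientGroup.mk' L (v ^ k)) := by rw [map_zpow]; exact hk
    rw [isOfFinOrder_iff_pow_eq_one] at h2
    obtain ⟨n, hn, hzn⟩ := h2
    rw [← map_pow] at hzn
    have hml : (v ^ k) ^ n ∈ L := (QuotientGroup.eq_one_iff _).mp hzn
    have h3 := hL.isOfFinOrder hml
    have h4 : IsOfFinOrder (v ^ k) := (isOfFinOrder_pow).mp h3 |>.resolve_right (by omega)
    rcases Int.natAbs_eq k with h' | h'
    · rw [h', zpow_natCast, isOfFinOrder_pow] at h4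
      exact h4.resolve_right (by omega)
    · rw [h', zpow_neg, zpow_natCast, isOfFinOrder_inv_iff, isOfFinOrder_pow] at h4
      exact h4.resolve_right (by omega)
  have hZfin : ∀ e : ℤ, IsOfFinOrder (Z ^ e) := by
    intro e
    have : IsOfFinOrder Z := MonoidHom.isOfFinOrder _ hz
    exact this.zpow
  obtain ⟨F, hF1, hF2⟩ := exists_phase M v 2 (by
    rintro m ⟨k, e, he, hm⟩
    obtain ⟨k', hk', hs⟩ := hswap e (-1)
    refine ⟨1 + k + k', e, ?_, ?_⟩
    · rw [Int.even_add] at he ⊢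
      rw [Int.even_add, Int.even_add, hk', ← he]
      simp only [Int.not_even_one, even_neg]
      tauto
    · rw [map_mul, map_mul, map_inv, hm, ← hV]
      have : V * (V ^ k * Z ^ e) * V⁻¹ = V * V ^ k * (Z ^ e * V ^ (-1 : ℤ)) := by
        rw [zpow_neg_one]; simp only [mul_assoc]
      rw [this, hs, zpow_add, zpow_add, zpow_one]
      simp only [mul_assoc]) (by
    rintro m ⟨k, e, he, hm⟩
    obtain ⟨k', hk', hs⟩ := hswap e 1
    refine ⟨-1 + k + k', e, ?_, ?_⟩
    · rw [Int.even_add] at he ⊢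
      rw [Int.even_add, Int.even_add, hk', ← he]
      simp only [Int.not_even_one, even_neg]
      tauto
    · rw [map_mul, map_mul, map_inv, hm, ← hV]
      have : V⁻¹ * (V ^ k * Z ^ e) * V = V⁻¹ * V ^ k * (Z ^ e * V ^ (1 : ℤ)) := by
        rw [zpow_one]; simp only [mul_assoc]
      rw [this, hs, zpow_add, zpow_add, zpow_neg_one]
      simp only [mul_assoc]) (by
    rintro n ⟨k, e, he, hn⟩
    rw [map_zpow, ← hV] at hn
    have h2 : V ^ (-k + n) = Z ^ e := by rw [zpow_add, hn, ← mul_assoc, ← zpow_add]; simp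
    have h3 : -k + n = 0 := hVinf _ (by rw [h2]; exact hZfin e)
    have hnk : n = k := by omega
    rw [h3, zpow_zero] at h2
    have hee : Even e := by
      by_contra hne
      have := (hinv e).2 hne 1
      rw [← h2, one_mul, mul_one, zpow_one] at this
      have h5 : V ^ (2 : ℤ) = 1 := by
        rw [show (2 : ℤ) = 1 + 1 by norm_num, zpow_add, zpow_one]
        nth_rewrite 1 [this]
        rw [zpow_neg_one, inv_mul_cancel]
      have := hVinf 2 (by rw [h5]; exact IsOfFinOrder.one)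
      omega
    have : Even n := by
      rw [hnk]
      rw [Int.even_add] at he
      exact he.mpr hee
    exact_mod_cast this.two_dvd)
  refine ⟨F, hF1, fun γ => ?_⟩
  have hzv : z * v ∈ M := ⟨-1, 1, by simp, by
    rw [map_mul, zpow_neg_one, zpow_one]
    exact mul_inv_eq_iff_eq_mul.mp h1⟩
  have h2 := hF2 _ hzv (v⁻¹ * γ)
  have h3 := hF1 (v⁻¹ * γ)
  rw [mul_inv_cancel_left] at h3
  rw [mul_assoc, mul_inv_cancel_left] at h2
  rw [h2, h3, add_assoc]
  have : (1 : ZMod 2) + 1 = 0 := by decide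
  rw [this, add_zero]

end Run7.h916
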