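import Pool.Agent.Run7.h916.Pivot

set_option autoImplicit false
set_option linter.unusedSectionVars false

/-!
The torsion pivot theorem.
-/

namespace Run7.h916

open Set Relation
open scoped Pointwise

universe u v

variable {Γ : Type u} [Group Γ]

theorem phase_inv {v : Γ} {φ : Γ → ZMod 2} (h : ∀ γ, φ (v * γ) = φ γ + 1) (γ : Γ) :
    φ (v⁻¹ * γ) = φ γ + 1 := by
  have one_add : (1 : ZMod 2) + 1 = 0 := by decide
  have := h (v⁻¹ * γ)
  rw [mul_inv_cancel_left] at this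
  rw [this, add_assoc, one_add, add_zero]

theorem phase_inv_iff {v : Γ} {φ : Γ → ZMod 2} :
    (∀ γ, φ (v⁻¹ * γ) = φ γ + 1) ↔ ∀ γ, φ (v * γ) = φ γ + 1 := by
  constructor
  · intro h γ
    have := phase_inv h γ
    rwa [inv_inv] at this
  · intro h γ
    exact phase_inv h γ

theorem invariant_inv {v : Γ} {φ : Γ → ZMod 2} (h : ∀ γ, φ (v * γ) = φ γ) (γ : Γ) :
    φ (v⁻¹ * γ) = φ γ := by
  have := h (v⁻¹ * γ)
  rw [mul_inv_cancel_left] at this
  exact this.symm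

theorem comm_mem_inv {L : Subgroup Γ} [hLn : L.Normal] {z s : Γ} (h : z * s * z⁻¹ * s⁻¹ ∈ L) :
    z * s⁻¹ * z⁻¹ * s⁻¹⁻¹ ∈ L := by
  have := hLn.conj_mem _ (inv_mem h) s⁻¹
  have e : z * s⁻¹ * z⁻¹ * s⁻¹⁻¹ = s⁻¹ * (z * s * z⁻¹ * s⁻¹)⁻¹ * s⁻¹⁻¹ := by group
  rw [e]; exact this

theorem comm_mem_inv_iff {L : Subgroup Γ} [hLn : L.Normal] {z s : Γ} :
    z * s⁻¹ * z⁻¹ * s⁻¹⁻¹ ∈ L ↔ z * s * z⁻¹ * s⁻¹ ∈ L := by
  constructor
  · intro h
    have := comm_mem_inv h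
    rwa [inv_inv] at this
  · exact comm_mem_inv

theorem inv_mem_inv {L : Subgroup Γ} [hLn : L.Normal] {z s : Γ} (h : z * s * z⁻¹ * s ∈ L) :
    z * s⁻¹ * z⁻¹ * s⁻¹ ∈ L := by
  have := hLn.conj_mem _ (inv_mem h) s
  have e : z * s⁻¹ * z⁻¹ * s⁻¹ = s * (z * s * z⁻¹ * s)⁻¹ * s⁻¹ := by group
  rw [e]; exact this

/-- The set of quotients of elements of a finite set is finite. -/
theorem finite_quot {F : Set Γ} (hF : F.Finite) : {c : Γ | ∃ a ∈ F, ∃ b ∈ F, c = a * b⁻¹}.Finite := by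
  have : {c : Γ | ∃ a ∈ F, ∃ b ∈ F, c = a * b⁻¹} = F * F⁻¹ := by
    ext c
    constructor
    · rintro ⟨a, ha, b, hb, rfl⟩
      exact ⟨a, ha, b⁻¹, by simpa using hb, rfl⟩
    · rintro ⟨a, ha, b, hb, rfl⟩
      exact ⟨a, ha, b⁻¹, by simpa using hb, by simp⟩
  rw [this]
  exact hF.mul hF.inv

theorem not_isOfFinOrder_ne_inv {v : Γ} (hv : ¬ IsOfFinOrder v) : v ≠ v⁻¹ := by
  intro h
  apply hv
  rw [isOfFinOrder_iff_pow_eq_one]
  refine ⟨2, by norm_num, ?_⟩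
  rw [pow_two]
  nth_rewrite 1 [h]
  exact inv_mul_cancel v

/-- Phases for a direction whose order is not odd. -/
theorem torsion_phase {s : Γ} (hs : ¬ Odd (orderOf s)) :
    ∃ φ : Γ → ZMod 2, ∀ γ, φ (s * γ) = φ γ + 1 := by
  obtain ⟨F, hF1, _⟩ := exists_phase (⊥ : Subgroup Γ) s 2 (by
    intro m hm
    rw [Subgroup.mem_bot] at hm ⊢
    rw [hm]; group) (by
    intro m hm
    rw [Subgroup.mem_bot] at hm ⊢
    rw [hm]; group) (by
    intro k hk
    rw [Subgroup.mem_bot] at hk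
    have h1 : (orderOf s : ℤ) ∣ k := orderOf_dvd_iff_zpow_eq_one.mpr hk
    have h2 : 2 ∣ orderOf s := by
      rw [Nat.not_odd_iff_even] at hs
      exact hs.two_dvd
    exact (Int.natCast_dvd_natCast.mpr h2).trans h1)
  exact ⟨F, hF1⟩

/-- **The torsion pivot.** -/
theorem flexible_pivot {S : Set Γ} (hSf : S.Finite) (hS : ∀ s ∈ S, s⁻¹ ∈ S)
    (hodd : ∀ s ∈ S, ¬ Odd (orderOf s)) {L : Subgroup Γ} [hLn : L.Normal]
    (hL : IsLocallyFinite L) {z : Γ} (hz : z ∈ S) (hzf : IsOfFinOrder z)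
    (hrel : ∀ v ∈ S, ¬ IsOfFinOrder v → z * v * z⁻¹ * v⁻¹ ∈ L ∨ z * v * z⁻¹ * v ∈ L) :
    Flexible S := by
  classical
  have one_add : (1 : ZMod 2) + 1 = 0 := by decide
  let P : Γ → Set (Γ → ZMod 2) := fun s => {φ | (s ≠ s⁻¹ → ∀ γ, φ (s * γ) = φ γ + 1) ∧
    (¬ IsOfFinOrder s → if z * s * z⁻¹ * s⁻¹ ∈ L then ∀ γ, φ (z * γ) = φ γ else
      ∀ γ, φ (z * γ) = φ γ + 1)}
  have hPdef : ∀ s φ, φ ∈ P s ↔ (s ≠ s⁻¹ → ∀ γ, φ (s * γ) = φ γ + 1) ∧
    (¬ IsOfFinOrder s → if z * s * z⁻¹ * s⁻¹ ∈ L then ∀ γ, φ (z * γ) = φ γ else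
      ∀ γ, φ (z * γ) = φ γ + 1) := fun s φ => Iff.rfl
  refine flexible_of_flips hSf hS P (fun s hs φ hφ => hφ.1) ?_ ?_ ?_ ?_
  · intro s hs
    ext φ
    rw [hPdef, hPdef, inv_inv, isOfFinOrder_inv_iff]
    have e1 : (z * s⁻¹ * z⁻¹ * s ∈ L) ↔ (z * s * z⁻¹ * s⁻¹ ∈ L) := by
      have := comm_mem_inv_iff (L := L) (z := z) (s := s)
      rwa [inv_inv] at this
    rw [if_congr e1 rfl rfl]
    constructor
    · rintro ⟨h1, h2⟩
      exact ⟨fun hs' => phase_inv_iff.mp (h1 (Ne.symm hs')), h2⟩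
    · rintro ⟨h1, h2⟩
      exact ⟨fun hs' => phase_inv_iff.mpr (h1 (Ne.symm hs')), h2⟩
  · intro s hs φ hφ g
    rw [hPdef] at hφ ⊢
    refine ⟨fun h γ => ?_, fun h => ?_⟩
    · rw [mul_assoc, hφ.1 h]
    · have := hφ.2 h
      split_ifs at this ⊢ with h'
      · intro γ
        rw [mul_assoc, this]
      · intro γ
        rw [mul_assoc, this]
  · intro s hs
    by_cases hs1 : IsOfFinOrder s
    · obtain ⟨φ, hφ⟩ := torsion_phase (hodd s hs)
      exact ⟨φ, fun _ => hφ, fun h => absurd hs1 h⟩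
    · by_cases h : z * s * z⁻¹ * s⁻¹ ∈ L
      · obtain ⟨φ, h1, h2⟩ := pivot_phase_comm hL hzf hs1 h
        exact ⟨φ, fun _ => h1, fun _ => by rw [if_pos h]; exact h2⟩
      · obtain ⟨φ, h1, h2⟩ := pivot_phase_inv hL hzf hs1 ((hrel s hs hs1).resolve_left h)
        exact ⟨φ, fun _ => h1, fun _ => by rw [if_neg h]; exact h2⟩
  · intro v hv hvv
    by_cases hv1 : IsOfFinOrder v
    · refine ⟨1, Subgroup.zpowers v, finite_zpowers.mpr hv1, fun f hf φ hφ => ?_⟩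
      refine flip_torsion hS ⟨hf.inv, fun s hs hss γ => (hf.mem s hs).1 hss γ⟩ hv hvv (hφ.1 hvv)
    · -- the finite subgroups
      have hvz : v ≠ z := fun h => hv1 (h ▸ hzf)
      have hvz' : v⁻¹ ≠ z := fun h => hv1 (isOfFinOrder_inv_iff.mp (h ▸ hzf))
      -- for each of v, v⁻¹ a finite subgroup
      have hK : ∀ w : Γ, (w = v ∨ w = v⁻¹) → ∃ K : Subgroup Γ, Finite K ∧
          ∀ φ : Γ → ZMod 2, φ ∈ P v → ((∀ γ, φ (z * γ) = φ γ) ∧ z ∈ K ∧ w⁻¹ * z * w ∈ K) ∨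
            ((∀ γ, φ (z * γ) = φ γ + 1) ∧ z * w ∈ K ∧ z⁻¹ * w ∈ K) := by
        intro w hw
        by_cases h : z * v * z⁻¹ * v⁻¹ ∈ L
        · have hw' : z * w * z⁻¹ * w⁻¹ ∈ L := by
            rcases hw with rfl | rfl
            · exact h
            · exact comm_mem_inv h
          refine ⟨_, pivot_finite_comm hL hzf hw', fun φ hφ => Or.inl ⟨?_, ?_, ?_⟩⟩
          · have := hφ.2 hv1
            rwa [if_pos h] at this
          · exact Subgroup.subset_closure (by simp)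
          · exact Subgroup.subset_closure (by simp)
        · have h' := (hrel v hv hv1).resolve_left h
          have hw' : z * w * z⁻¹ * w ∈ L := by
            rcases hw with rfl | rfl
            · exact h'
            · exact inv_mem_inv h'
          refine ⟨_, pivot_finite_inv hL hzf hw', fun φ hφ => Or.inr ⟨?_, ?_, ?_⟩⟩
          · have := hφ.2 hv1
            rwa [if_neg h] at this
          · exact Subgroup.subset_closure (by simp)
          · exact Subgroup.subset_closure (by simp)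
      obtain ⟨K1, hK1, hK1'⟩ := hK v (Or.inl rfl)
      obtain ⟨K2, hK2, hK2'⟩ := hK v⁻¹ (Or.inr rfl)
      set F : Set Γ := ({1, v} * (K1 : Set Γ)) ∪ ({1, v⁻¹} * (K2 : Set Γ)) with hFdef
      have hFfin : F.Finite := by
        refine Set.Finite.union ?_ ?_
        · exact (Set.toFinite _).mul (Set.toFinite _)
        · exact (Set.toFinite _).mul (Set.toFinite _)
      have h1F : (1 : Γ) ∈ F := Or.inl ⟨1, by simp, 1, K1.one_mem, by simp⟩
      refine ⟨3, _, finite_quot hFfin, fun f hf φ hφ => ?_⟩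
      have hph : IsPhase S f := ⟨hf.inv, fun s hs hss γ => (hf.mem s hs).1 hss γ⟩
      have hfv := hf.mem v hv
      refine flip_perm (F := F) hS hph hv hz hvv hvz hvz' (hφ.1 hvv) h1F
        (fun a ha b hb => ⟨a, ha, b, hb, rfl⟩) ?_ ?_ ?_
      · intro γ
        have h1 := hφ.2 hv1
        have h2 := hfv.2 hv1
        split_ifs at h1 h2 with h
        · rw [h1, h2]
        · rw [h1, h2]
          constructor
          · intro h3 h4; exact h3 (by rw [h4])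
          · intro h3 h4; exact h3 (add_right_cancel h4)
      · exact (cross_fin (hfv.1 hvv) K1 (hK1' _ hfv) _).mono Set.subset_union_left le_rfl
      · exact (cross_fin (phase_inv (hfv.1 hvv)) K2 (hK2' _ hfv) _).mono
          Set.subset_union_right le_rfl

/-- The Borel chromatic index when there is a torsion pivot. -/
theorem chromaticIndex_pivot {X : Type v} [MulAction Γ X] [MeasurableSpace X]
    [StandardBorelSpace X] {S : Finset Γ} (hS : IsMarking S) (hH : HypH S X)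
    {L : Subgroup Γ} [hLn : L.Normal]
    (hL : IsLocallyFinite L) {z : Γ} (hz : z ∈ S) (hzf : IsOfFinOrder z)
    (hrel : ∀ v ∈ S, ¬ IsOfFinOrder v → z * v * z⁻¹ * v⁻¹ ∈ L ∨ z * v * z⁻¹ * v ∈ L) :
    borelChromaticIndex (schreierGraph S X) = S.card := by
  refine chromaticIndex_eq_of_blocks hS hH (ι := Unit) (B := fun _ => (S : Set Γ)) ?_ ?_ ?_ ?_
  · intro i j s _ _
    rfl
  · intro _ s hs
    exact hS.inv_mem s hs
  · exact Set.iUnion_const _
  · intro _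
    exact flexible_pivot S.finite_toSet hS.inv_mem hH.not_odd hL hz hzf hrel

end Run7.h916
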