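import Pool.Agent.Run7.h916.Class2

set_option autoImplicit false
set_option linter.unusedSectionVars false

/-!
Stars are flexible.
-/

namespace Run7.h916

open Subgroup
open scoped Pointwise commutatorElement

universe u v

theorem IsHelper.inv {G : Type u} [Group G] {M N : Subgroup G} {V T : G}
    (h : IsHelper M V N T) : IsHelper M V⁻¹ N T := by
  rcases h with ⟨h1, h2, h3⟩ | ⟨h1, h2, h3, h4⟩ | ⟨h1, h2, h3, h4, X, h5, h6⟩
  · refine Or.inl ⟨?_, h2, inv_mem h3⟩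
    rw [inv_mul_eq_iff_eq_mul, ← mul_assoc, h1, mul_assoc, mul_inv_cancel, mul_one]
  · refine Or.inr (Or.inl ⟨?_, h2, by rw [inv_inv]; exact h4, by rw [inv_inv]; exact h3⟩)
    have e1 : T * (V⁻¹⁻¹ * T * V⁻¹) = V * ((V⁻¹ * T * V) * T) * V⁻¹ := by group
    have e2 : (V⁻¹⁻¹ * T * V⁻¹) * T = V * (T * (V⁻¹ * T * V)) * V⁻¹ := by group
    rw [e1, e2, h1]
  · refine Or.inr (Or.inr ⟨?_, inv_mem h2, ?_, ?_, fun g => -X g, ?_, ?_⟩)
    · have e1 : V⁻¹ * (T⁻¹ * V⁻¹ * T) = ((T⁻¹ * V * T) * V)⁻¹ := by group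
      have e2 : (T⁻¹ * V⁻¹ * T) * V⁻¹ = (V * (T⁻¹ * V * T))⁻¹ := by group
      rw [e1, e2, h1]
    · have e : T⁻¹ * V⁻¹ * T = (T⁻¹ * V * T)⁻¹ := by group
      rw [e]; exact inv_mem h3
    · have e : T * V⁻¹ * T⁻¹ = (T * V * T⁻¹)⁻¹ := by group
      rw [e]; exact inv_mem h4
    · intro g
      have := h5 (V⁻¹ * g)
      rw [mul_inv_cancel_left] at this
      simp only
      rw [this]; ring
    · intro g
      have := h6 ((T⁻¹ * V * T)⁻¹ * g)
      rw [mul_inv_cancel_left] at this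
      have e : T⁻¹ * V⁻¹ * T * g = (T⁻¹ * V * T)⁻¹ * g := by group
      simp only
      rw [e, this]

variable {Γ : Type u} [Group Γ]

theorem not_isOfFinOrder_of_mk {L : Subgroup Γ} [hLn : L.Normal] (hG : TF2 (Γ ⧸ L)) {s : Γ}
    (hs : (QuotientGroup.mk s : Γ ⧸ L) ≠ 1) : ¬ IsOfFinOrder s := by
  intro h
  obtain ⟨n, hn, h⟩ := isOfFinOrder_iff_pow_eq_one.mp h
  apply hs
  refine hG.tf _ n ?_ (by exact_mod_cast hn.ne')
  rw [zpow_natCast, ← QuotientGroup.mk_pow, h]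
  rfl

theorem conjSub_inv {G : Type u} [Group G] (V : G) (Zs : Set G) :
    conjSub V⁻¹ Zs = conjSub V Zs := by
  unfold conjSub
  rw [← closure_inv]
  congr 1
  ext x
  simp only [Set.mem_inv, Set.mem_ofPred_eq]
  constructor
  · rintro ⟨Z, hZ, h⟩
    refine ⟨Z, hZ, ?_⟩
    rcases h with h | h
    · left
      rw [← inv_inv x, h]; group
    · right
      rw [← inv_inv x, h]; group
  · rintro ⟨Z, hZ, h⟩
    refine ⟨Z, hZ, ?_⟩
    rcases h with h | h
    · left; rw [h]; group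
    · right; rw [h]; group

/-- A helper system gives flexibility, version with a set of representatives. -/
theorem flexible_of_reps {L : Subgroup Γ} [hLn : L.Normal] (hL : IsLocallyFinite L)
    (hG : TF2 (Γ ⧸ L)) {R : Set Γ} (hR : R.Finite)
    (hR1 : ∀ s ∈ R, (QuotientGroup.mk s : Γ ⧸ L) ≠ 1)
    (M : Γ → Subgroup (Γ ⧸ L)) (hM : ∀ s ∈ R ∪ R⁻¹, M s⁻¹ = M s)
    (hne : ∀ s ∈ R, ∃ φ, PhaseOn (M s) (QuotientGroup.mk s) φ)
    (hhelp : ∀ s ∈ R, ∃ t ∈ R,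
      IsHelper (M s) (QuotientGroup.mk s) (M t) (QuotientGroup.mk t)) :
    Flexible (R ∪ R⁻¹) := by
  have hmki : ∀ a : Γ, (QuotientGroup.mk a⁻¹ : Γ ⧸ L) = (QuotientGroup.mk a)⁻¹ := fun _ => rfl
  have hB : ∀ s ∈ R ∪ R⁻¹, s⁻¹ ∈ R ∪ R⁻¹ := by
    rintro s (hs | hs)
    · right; rw [Set.mem_inv, inv_inv]; exact hs
    · left; exact hs
  have hnf : ∀ s ∈ R ∪ R⁻¹, ¬ IsOfFinOrder s := by
    rintro s (hs | hs)
    · exact not_isOfFinOrder_of_mk hG (hR1 s hs)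
    · intro h
      exact not_isOfFinOrder_of_mk hG (hR1 _ hs) (isOfFinOrder_inv_iff.mpr h)
  refine flexible_helpers hL (hR.union hR.inv) hB (fun s hs hodd => ?_) M hM
    (fun s hs _ => ?_) (fun s hs _ => ?_)
  · have := hnf s hs
    rw [← orderOf_eq_zero_iff] at this
    rw [this] at hodd
    exact absurd hodd (by decide)
  · rcases hs with hs | hs
    · exact hne s hs
    · obtain ⟨φ, hφ⟩ := hne _ hs
      refine ⟨φ, ?_⟩
      have h1 := hφ.inv
      rw [hmki, inv_inv, hM s (Or.inr hs)] at h1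
      exact h1
  · rcases hs with hs | hs
    · obtain ⟨t, ht, hh⟩ := hhelp s hs
      exact ⟨t, Or.inl ht, hnf t (Or.inl ht), hh⟩
    · obtain ⟨t, ht, hh⟩ := hhelp _ hs
      refine ⟨t, Or.inl ht, hnf t (Or.inl ht), ?_⟩
      have h1 := hh.inv
      rw [hmki, inv_inv, hM s (Or.inr hs)] at h1
      exact h1

open Classical in
/-- **Stars are flexible.** -/
theorem flexible_star' {L : Subgroup Γ} [hLn : L.Normal] (hL : IsLocallyFinite L)
    (hG : TF2 (Γ ⧸ L)) {z v0 : Γ} {Vs : Set Γ} (hVf : Vs.Finite) (hv0 : v0 ∈ Vs)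
    (hz1 : (QuotientGroup.mk z : Γ ⧸ L) ≠ 1)
    (hv1 : ∀ v ∈ Vs, (QuotientGroup.mk v : Γ ⧸ L) ≠ 1)
    (hnpv : ∀ v ∈ Vs, ¬ Par (QuotientGroup.mk v : Γ ⧸ L) (QuotientGroup.mk z))
    (hcen : ∃ φ, PhaseOn (cenSub (QuotientGroup.mk z : Γ ⧸ L) (QuotientGroup.mk '' Vs))
      (QuotientGroup.mk z) φ) :
    Flexible (insert z Vs ∪ (insert z Vs)⁻¹) := by
  have hmki : ∀ a : Γ, (QuotientGroup.mk a⁻¹ : Γ ⧸ L) = (QuotientGroup.mk a)⁻¹ := fun _ => rfl
  set Z : Γ ⧸ L := QuotientGroup.mk z with hZ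
  set V0 : Γ ⧸ L := QuotientGroup.mk v0 with hV0
  set W : Set (Γ ⧸ L) := QuotientGroup.mk '' Vs with hW
  let M : Γ → Subgroup (Γ ⧸ L) := fun s =>
    if s = z ∨ s = z⁻¹ then cenSub Z W
    else if (QuotientGroup.mk s : Γ ⧸ L) * Z = Z * QuotientGroup.mk s then zpowers Z
    else conjSub (QuotientGroup.mk s) {Z}
  have hMz : M z = cenSub Z W := if_pos (Or.inl rfl)
  have hvz : ∀ v ∈ Vs, ¬ (v = z ∨ v = z⁻¹) := by
    rintro v hv (h | h)
    · exact hnpv v hv (by rw [h]; exact Par.refl _)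
    · exact hnpv v hv (by rw [h, hmki]; exact (Par.refl _).inv_left)
  have hMc : ∀ v ∈ Vs, (QuotientGroup.mk v : Γ ⧸ L) * Z = Z * QuotientGroup.mk v →
      M v = zpowers Z := by
    intro v hv h
    simp only [M, if_neg (hvz v hv), if_pos h]
  have hMh : ∀ v ∈ Vs, ¬ (QuotientGroup.mk v : Γ ⧸ L) * Z = Z * QuotientGroup.mk v →
      M v = conjSub (QuotientGroup.mk v) {Z} := by
    intro v hv h
    simp only [M, if_neg (hvz v hv), if_neg h]
  have hcomm : ∀ V : Γ ⧸ L, ¬ V * Z = Z * V → ⁅Z, V⁆ ≠ 1 := by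
    intro V h h'
    exact h ((hG.comm_iff Z V).mpr h').symm
  have hmemW : ∀ v ∈ Vs, (QuotientGroup.mk v : Γ ⧸ L) ∈ cenSub Z W := fun v hv =>
    subset_closure (Or.inl ⟨v, hv, rfl⟩)
  refine flexible_of_reps hL hG (hVf.insert z) ?_ M ?_ ?_ ?_
  · rintro s (rfl | hs)
    · exact hz1
    · exact hv1 s hs
  · intro s _
    simp only [M, hmki]
    have e1 : (s⁻¹ = z ∨ s⁻¹ = z⁻¹) ↔ (s = z ∨ s = z⁻¹) := by
      constructor
      · rintro (h | h)
        · right; rw [← h, inv_inv]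
        · left; exact inv_injective h
      · rintro (h | h)
        · right; rw [h]
        · left; rw [h, inv_inv]
    have e2 : ((QuotientGroup.mk s : Γ ⧸ L)⁻¹ * Z = Z * (QuotientGroup.mk s)⁻¹) ↔
        ((QuotientGroup.mk s : Γ ⧸ L) * Z = Z * QuotientGroup.mk s) := by
      constructor
      · intro h
        have := (show Commute (QuotientGroup.mk s : Γ ⧸ L)⁻¹ Z from h).inv_left
        rw [inv_inv] at this
        exact this.eq
      · intro h
        exact (show Commute (QuotientGroup.mk s : Γ ⧸ L) Z from h).inv_left.eq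
    simp only [e1, e2, conjSub_inv]
  · rintro s (rfl | hs)
    · rw [hMz]
      exact hcen
    · by_cases hc : (QuotientGroup.mk s : Γ ⧸ L) * Z = Z * QuotientGroup.mk s
      · rw [hMc s hs hc]
        exact hG.phase_comm (hv1 s hs) hz1 (hnpv s hs) hc
      · rw [hMh s hs hc]
        exact hG.phase_conj (hcomm _ hc)
  · rintro s (rfl | hs)
    · refine ⟨v0, Or.inr hv0, ?_⟩
      rw [hMz]
      by_cases hc : V0 * Z = Z * V0
      · rw [hMc v0 hv0 hc]
        exact Or.inl ⟨hc.symm, hmemW v0 hv0, mem_zpowers _⟩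
      · rw [hMh v0 hv0 hc]
        refine Or.inr (Or.inl ⟨?_, hmemW v0 hv0, ?_, ?_⟩)
        · rw [hG.conj_eq'']
          exact ((Commute.refl V0).mul_right
            ((show Commute V0 ⁅Z, V0⁆ from hG.cen Z V0 V0).inv_right)).eq
        · exact subset_closure ⟨Z, rfl, Or.inl rfl⟩
        · exact subset_closure ⟨Z, rfl, Or.inr rfl⟩
    · refine ⟨z, Or.inl rfl, ?_⟩
      rw [hMz]
      by_cases hc : (QuotientGroup.mk s : Γ ⧸ L) * Z = Z * QuotientGroup.mk s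
      · rw [hMc s hs hc]
        exact Or.inl ⟨hc, mem_zpowers _, hmemW s hs⟩
      · rw [hMh s hs hc]
        refine Or.inr (Or.inr ⟨?_, hmemW s hs, ?_, ?_, hG.phase_four (hcomm _ hc)⟩)
        · rw [hG.conj_eq'']
          exact ((Commute.refl _).mul_right
            ((show Commute (QuotientGroup.mk s : Γ ⧸ L) ⁅Z, (QuotientGroup.mk s : Γ ⧸ L)⁆ from
              hG.cen Z _ _).inv_right)).eq
        · exact subset_closure ⟨Z, rfl, Or.inl rfl⟩
        · exact subset_closure ⟨Z, rfl, Or.inr rfl⟩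

/-- Stars with parallel leaves are flexible. -/
theorem flexible_star {L : Subgroup Γ} [hLn : L.Normal] (hL : IsLocallyFinite L)
    (hG : TF2 (Γ ⧸ L)) {z v0 : Γ} {Vs : Set Γ} (hVf : Vs.Finite) (hv0 : v0 ∈ Vs)
    (hz1 : (QuotientGroup.mk z : Γ ⧸ L) ≠ 1) (hv01 : (QuotientGroup.mk v0 : Γ ⧸ L) ≠ 1)
    (hpar : ∀ v ∈ Vs, Par (QuotientGroup.mk v : Γ ⧸ L) (QuotientGroup.mk v0))
    (hnp : ¬ Par (QuotientGroup.mk v0 : Γ ⧸ L) (QuotientGroup.mk z)) :
    Flexible (insert z Vs ∪ (insert z Vs)⁻¹) := by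
  refine flexible_star' hL hG hVf hv0 hz1 ?_ ?_ ?_
  · intro v hv h
    obtain ⟨m, n, hm, hn, e⟩ := hpar v hv
    rw [h, one_zpow] at e
    exact hv01 (hG.tf _ _ e.symm hn)
  · exact fun v hv h => hnp ((hpar v hv).symm.trans h)
  · refine hG.phase_cen hz1 (V0 := QuotientGroup.mk v0) ⟨v0, hv0, rfl⟩ hv01 ?_ hnp
    rintro V ⟨v, hv, rfl⟩
    exact hpar v hv

end Run7.h916
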