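import Pool.Agent.Run7.h916.Lift

set_option autoImplicit false
set_option linter.unusedSectionVars false

/-!
Recolourings given by tables.
-/

namespace Run7.h916

open Set Relation
open scoped Pointwise

universe u v

variable {Γ : Type u} [Group Γ]

open Classical in
/-- The recolouring of colours: the colour `col i` is replaced by `col (τ i)`. -/
noncomputable def recol {C : Type} (col : C → Γ) (τ : C → C) (x : Γ) : Γ :=
  if h : ∃ i, col i = x then col (τ h.choose) else x

theorem recol_col {C : Type} {col : C → Γ} (hcol : Function.Injective col) (τ : C → C) (i : C) :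
    recol col τ (col i) = col (τ i) := by
  have h : ∃ j, col j = col i := ⟨i, rfl⟩
  unfold recol
  rw [dif_pos h]
  congr 2
  exact hcol h.choose_spec

theorem recol_other {C : Type} {col : C → Γ} {τ : C → C} {x : Γ} (h : ∀ i, col i ≠ x) :
    recol col τ x = x := by
  unfold recol
  rw [dif_neg]
  rintro ⟨i, hi⟩
  exact h i hi

theorem recol_injective {C : Type} {col : C → Γ} (hcol : Function.Injective col) {τ : C → C}
    (hτ : Function.Injective τ) : Function.Injective (recol col τ) := by
  intro x y hxy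
  by_cases hx : ∃ i, col i = x
  · obtain ⟨i, rfl⟩ := hx
    rw [recol_col hcol] at hxy
    by_cases hy : ∃ j, col j = y
    · obtain ⟨j, rfl⟩ := hy
      rw [recol_col hcol] at hxy
      rw [hτ (hcol hxy)]
    · push Not at hy
      rw [recol_other hy] at hxy
      exact absurd hxy (hy _)
  · push Not at hx
    rw [recol_other hx] at hxy
    by_cases hy : ∃ j, col j = y
    · obtain ⟨j, rfl⟩ := hy
      rw [recol_col hcol] at hxy
      exact absurd hxy.symm (hx _)
    · push Not at hy
      rwa [recol_other hy] at hxy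

/-- The colouring obtained from `κ` by the table `τ` evaluated at the states `st`. -/
noncomputable def tcol {C Q : Type} (col : C → Γ) (st : Γ → Q) (κ : Γ → Γ → Γ) (τ : Q → C → C) :
    Γ → Γ → Γ := fun γ s => recol col (τ (st γ)) (κ γ s)

theorem tcol_id {C Q : Type} {col : C → Γ} (hcol : Function.Injective col) {st : Γ → Q}
    {κ : Γ → Γ → Γ} {τ : Q → C → C} (h : ∀ q i, τ q i = i) : tcol col st κ τ = κ := by
  funext γ s
  unfold tcol
  by_cases hx : ∃ i, col i = κ γ s
  · obtain ⟨i, hi⟩ := hx
    rw [← hi, recol_col hcol, h]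
  · push Not at hx
    exact recol_other hx

/-- The states change along the edges according to `nx`. -/
def Tracks {C Q : Type} (B : Set Γ) (col : C → Γ) (st : Γ → Q) (κ : Γ → Γ → Γ)
    (nx : C → Q → Q) : Prop :=
  ∀ γ, ∀ s ∈ B, ∀ i, κ γ s = col i → st (s * γ) = nx i (st γ)

theorem LocCol.tcol {C Q : Type} {B : Set Γ} {col : C → Γ} {st : Γ → Q} {κ : Γ → Γ → Γ}
    {nx : C → Q → Q} (hB : ∀ s ∈ B, s⁻¹ ∈ B) (hcol : Function.Injective col)
    (hcB : ∀ i, col i ∈ B) (hκ : LocCol B κ)
    (htr : Tracks B col st κ nx) {τ : Q → C → C} (hinj : ∀ q, Function.Injective (τ q))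
    (hcons : ∀ i q, τ (nx i q) i = τ q i) : LocCol B (tcol col st κ τ) where
  mem γ s hs := by
    unfold Run7.h916.tcol
    by_cases hx : ∃ i, col i = κ γ s
    · obtain ⟨i, hi⟩ := hx
      rw [← hi, recol_col hcol]
      exact hcB _
    · push Not at hx
      rw [recol_other hx]
      exact hκ.mem γ s hs
  inj γ := by
    intro a ha b hb hab
    exact hκ.inj γ ha hb (recol_injective hcol (hinj _) hab)
  symm γ s hs := by
    unfold Run7.h916.tcol
    rw [hκ.symm γ s hs]
    by_cases hx : ∃ i, col i = κ γ s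
    · obtain ⟨i, hi⟩ := hx
      rw [← hi, recol_col hcol, recol_col hcol, htr γ s hs i hi.symm, hcons]
    · push Not at hx
      rw [recol_other hx, recol_other hx]

/-- The step between two tables. -/
theorem step_tcol {C Q : Type} {B E F : Set Γ} {col : C → Γ} {st : Γ → Q} {κ : Γ → Γ → Γ}
    (hcol : Function.Injective col) {τ τ' : Q → C → C} (o : Γ → Γ)
    (ho : ∀ γ, ∀ s ∈ B, ∀ i, κ γ s = col i → τ (st γ) i ≠ τ' (st γ) i → o (s * γ) = o γ)
    (hoF : ∀ γ, γ * (o γ)⁻¹ ∈ F) (hE : ∀ a ∈ F, ∀ b ∈ F, a * b⁻¹ ∈ E) :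
    Step B E (tcol col st κ τ) (tcol col st κ τ') := by
  refine Step.of_origin o ?_ hoF hE
  rintro γ γ' ⟨s, hs, rfl, hne⟩
  unfold tcol at hne
  by_cases hx : ∃ i, col i = κ γ s
  · obtain ⟨i, hi⟩ := hx
    refine ho γ s hs i hi.symm fun h => hne ?_
    rw [← hi, recol_col hcol, recol_col hcol, h]
  · push Not at hx
    rw [recol_other hx, recol_other hx] at hne
    exact absurd rfl hne

end Run7.h916
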