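import Pool.Agent.Run7.h916.TorZone

set_option autoImplicit false
set_option linter.unusedSectionVars false
set_option linter.unusedVariables false

/-!
Blocks with a hub of finite order.
-/

namespace Run7.h916

open Set Relation
open scoped Pointwise

universe u v w

variable {Γ : Type u} [Group Γ] {X : Type v} [MulAction Γ X]

theorem block_of_names' [MeasurableSpace X] [StandardBorelSpace X] [Countable Γ]
    (hX : IsFreeBorel Γ X) {B : Finset Γ} (hB : ∀ s ∈ B, s⁻¹ ∈ B) {S1 : Set Γ}
    (hne : ∀ s ∈ B, s ∉ S1 → s ≠ s⁻¹)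
    (hS1 : ∀ s ∈ S1, s⁻¹ ∈ S1) {nm : X → Γ → Γ} (hc : Names B S1 X nm) :
    BorelBlock (B : Set Γ) X := by
  classical
  let inv : B → B := fun s => ⟨(s : Γ)⁻¹, hB s s.2⟩
  have hval : ∀ i : B, ((inv i : B) : Γ) = (i : Γ)⁻¹ := fun i => rfl
  have hinv : ∀ i, inv (inv i) = i := fun i => Subtype.ext (inv_inv _)
  have hround : ∀ c : Γ, ∃ M : X → B → Prop, (∀ i, MeasurableSet {x | M x i}) ∧
      (c ∈ B → c ∉ S1 → rep c = c → (∀ x i, M x i → nm x i = c) ∧
      (∀ x i, M x i ↔ M ((i : Γ) • x) (inv i)) ∧ ∀ x, {i | M x i}.ncard = 1) := by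
    intro c
    by_cases h : c ∈ B ∧ c ∉ S1 ∧ rep c = c
    · obtain ⟨hcB, hc1, hcr⟩ := h
      have hEs : ∀ x (i : B), nm x i = c → nm ((i : Γ) • x) (inv i) = c := by
        intro x i hi
        rw [hval, hc.symm x i i.2, hi]
      obtain ⟨M, h1, h2, h3, h4⟩ := borel_round hX.measurable_smul hX.free
        (val := fun s : B => (s : Γ)) (inv := inv) hval hinv (E := fun x i => nm x i = c)
        (fun i => hc.meas i c) hEs (hc.fin c hcB hc1 hcr) (fun _ => 1)
        (fun k => MeasurableSet.const _) (fun o => by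
          obtain ⟨par, hp⟩ := hc.par c hcB hc1 hcr o
          refine ⟨fun x i => if nm x i = c then 1 / 2 else 0, par, ?_, ?_, ?_, ?_, ?_, ?_⟩
          · intro x i _
            simp only
            split_ifs <;> norm_num
          · intro x i _
            simp only
            split_ifs <;> norm_num
          · intro x i _ hi
            simp only
            rw [if_pos hi, if_pos (hEs x i hi)]
          · intro x i _ hi
            simp only
            rw [if_neg hi]
          · intro x _
            rw [← Finset.sum_filter, Finset.sum_const, nsmul_eq_mul]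
            have h2 := hc.two x c hcB hc1 hcr
            have h3 : (Finset.univ.filter (fun i : B => nm x i = c)).card = 2 := by
              rw [← h2, ← Set.ncard_coe_finset]
              refine Set.ncard_congr (fun i _ => (i : Γ)) ?_ ?_ ?_
              · intro i hi
                rw [Finset.mem_coe, Finset.mem_filter] at hi
                exact ⟨i.2, hi.2⟩
              · intro i j _ _ hij
                exact Subtype.ext hij
              · rintro s ⟨hs1, hs2⟩
                refine ⟨⟨s, hs1⟩, ?_, rfl⟩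
                rw [Finset.mem_coe, Finset.mem_filter]
                exact ⟨Finset.mem_univ _, hs2⟩
            rw [h3]
            norm_num
          · intro x i hx hi
            exact hp x hx i i.2 hi)
      exact ⟨M, h1, fun _ _ _ => ⟨h2, h3, h4⟩⟩
    · refine ⟨fun _ _ => False, fun i => MeasurableSet.const _, fun h1 h2 h3 =>
        absurd ⟨h1, h2, h3⟩ h⟩
  choose M hMm hM using hround
  let κ : X → Γ → Γ := fun x s => if h : s ∈ B then
    (if nm x s ∈ S1 ∨ M (nm x s) x ⟨s, h⟩ then nm x s else (nm x s)⁻¹) else 1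
  have hκ : ∀ x s (h : s ∈ B), κ x s = if nm x s ∈ S1 ∨ M (nm x s) x ⟨s, h⟩ then nm x s
      else (nm x s)⁻¹ := by
    intro x s h
    simp only [κ]
    rw [dif_pos h]
  have hκ2 : ∀ x s, s ∈ B → κ x s = nm x s ∨ κ x s = (nm x s)⁻¹ := by
    intro x s h
    rw [hκ x s h]
    split_ifs
    · exact Or.inl rfl
    · exact Or.inr rfl
  have hκS : ∀ x s, s ∈ B → nm x s ∈ S1 → κ x s = nm x s := by
    intro x s h h1
    rw [hκ x s h, if_pos (Or.inl h1)]
  have hκN : ∀ x s, s ∈ B → nm x s ∉ S1 → κ x s ∉ S1 := by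
    intro x s h h1 h2
    rcases hκ2 x s h with h3 | h3
    · rw [h3] at h2; exact h1 h2
    · rw [h3] at h2
      have := hS1 _ h2
      rw [inv_inv] at this
      exact h1 this
  have hκrep : ∀ x s, s ∈ B → nm x s ∉ S1 → rep (κ x s) = nm x s := by
    intro x s h h0
    have h1 := (hc.mem x s h).2.resolve_left h0
    rcases hκ2 x s h with h2 | h2
    · rw [h2, h1]
    · rw [h2, rep_inv, h1]
  refine ⟨κ, ?_, ?_, ?_, ?_⟩
  · intro s γ
    by_cases h : s ∈ B
    · have : {x | κ x s = γ} = ⋃ c : Γ, {x | nm x s = c} ∩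
          ((({x | c ∈ S1} ∪ {x | M c x ⟨s, h⟩}) ∩ {x | c = γ}) ∪
          (({x | c ∈ S1} ∪ {x | M c x ⟨s, h⟩})ᶜ ∩ {x | c⁻¹ = γ})) := by
        ext x
        simp only [mem_ofPred_eq, mem_iUnion, mem_inter_iff, mem_union, mem_compl_iff]
        rw [hκ x s h]
        constructor
        · intro h2
          refine ⟨nm x s, rfl, ?_⟩
          by_cases h3 : nm x s ∈ S1 ∨ M (nm x s) x ⟨s, h⟩
          · rw [if_pos h3] at h2
            exact Or.inl ⟨h3, h2⟩
          · rw [if_neg h3] at h2
            exact Or.inr ⟨h3, h2⟩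
        · rintro ⟨c, rfl, ⟨h2, h3⟩ | ⟨h2, h3⟩⟩
          · rw [if_pos h2]; exact h3
          · rw [if_neg h2]; exact h3
      rw [this]
      have hm : ∀ c, MeasurableSet ({x : X | c ∈ S1} ∪ {x | M c x ⟨s, h⟩}) := fun c =>
        (MeasurableSet.const _).union (hMm c _)
      exact MeasurableSet.iUnion fun c => (hc.meas s c).inter
        (((hm c).inter (MeasurableSet.const _)).union
          ((hm c).compl.inter (MeasurableSet.const _)))
    · have : {x | κ x s = γ} = {x | (1 : Γ) = γ} := by
        ext x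
        simp only [mem_ofPred_eq, κ]
        rw [dif_neg h]
      rw [this]
      exact MeasurableSet.const _
  · intro x s hs
    have h1 := (hc.mem x s hs).1
    rcases hκ2 x s hs with h2 | h2
    · rw [h2]; exact h1
    · rw [h2]; exact hB _ h1
  · intro x s hs t ht hst
    have hsB : s ∈ B := hs
    have htB : t ∈ B := ht
    by_cases hs1 : nm x s ∈ S1
    · have ht1 : nm x t ∈ S1 := by
        by_contra h
        apply hκN x t htB h
        rw [← hst, hκS x s hsB hs1]
        exact hs1
      have h1 : nm x s = nm x t := by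
        rw [← hκS x s hsB hs1, ← hκS x t htB ht1, hst]
      obtain ⟨r, hr⟩ := Set.ncard_eq_one.mp (hc.one x _ (hc.mem x s hsB).1 hs1)
      have h2 : s ∈ {s' | s' ∈ B ∧ nm x s' = nm x s} := ⟨hsB, rfl⟩
      have h3 : t ∈ {s' | s' ∈ B ∧ nm x s' = nm x s} := ⟨htB, h1.symm⟩
      rw [hr] at h2 h3
      exact h2.trans h3.symm
    have ht1 : nm x t ∉ S1 := by
      intro h
      apply hκN x s hsB hs1
      rw [hst, hκS x t htB h]
      exact h
    have h1 : nm x s = nm x t := by
      rw [← hκrep x s hsB hs1, ← hκrep x t htB ht1, hst]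
    obtain ⟨hc1, hc2'⟩ := hc.mem x s hsB
    have hc2 := hc2'.resolve_left hs1
    set c := nm x s with hcdef
    obtain ⟨hM1, hM2, hM3⟩ := hM c hc1 hs1 hc2
    have h2 := hκ x s hsB
    have h3 := hκ x t htB
    rw [← hcdef] at h2
    rw [← h1] at h3
    have hcc := hne c hc1 hs1
    by_cases h4 : M c x ⟨s, hsB⟩
    · by_cases h5 : M c x ⟨t, htB⟩
      · obtain ⟨i, hi⟩ := Set.ncard_eq_one.mp (hM3 x)
        have h6 : (⟨s, hsB⟩ : B) ∈ {i | M c x i} := h4
        have h7 : (⟨t, htB⟩ : B) ∈ {i | M c x i} := h5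
        rw [hi] at h6 h7
        have := h6.trans h7.symm
        exact congrArg Subtype.val this
      · rw [if_pos (Or.inr h4)] at h2
        rw [if_neg (not_or.mpr ⟨hs1, h5⟩)] at h3
        exact absurd (h2.symm.trans (hst.trans h3)) hcc
    · by_cases h5 : M c x ⟨t, htB⟩
      · rw [if_neg (not_or.mpr ⟨hs1, h4⟩)] at h2
        rw [if_pos (Or.inr h5)] at h3
        exact absurd (h3.symm.trans (hst.symm.trans h2)) hcc
      · have h6 := hc.two x c hc1 hs1 hc2
        obtain ⟨i, hi⟩ := Set.ncard_eq_one.mp (hM3 x)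
        have h7 : M c x i := by
          have : i ∈ {i | M c x i} := by rw [hi]; rfl
          exact this
        have h8 : (i : Γ) ∈ {s | s ∈ B ∧ nm x s = c} := ⟨i.2, hM1 x i h7⟩
        have h9 : s ≠ i := by
          rintro rfl
          exact h4 h7
        have h10 : t ≠ i := by
          rintro rfl
          exact h5 h7
        by_contra h11
        have hsub : ({(i : Γ), s, t} : Set Γ) ⊆ {s | s ∈ B ∧ nm x s = c} := by
          rintro y (rfl | rfl | rfl)
          · exact h8
          · exact ⟨hsB, rfl⟩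
          · exact ⟨htB, h1.symm⟩
        have hfin : {s | s ∈ B ∧ nm x s = c}.Finite :=
          B.finite_toSet.subset fun y hy => hy.1
        have h12 := Set.ncard_le_ncard hsub hfin
        rw [h6, Set.ncard_eq_three.mpr ⟨_, _, _, Ne.symm h9, Ne.symm h10, h11, rfl⟩] at h12
        omega
  · intro x s hs
    have hsB : s ∈ B := hs
    have h1 := hc.symm x s hsB
    obtain ⟨hc1, hc2⟩ := hc.mem x s hsB
    rw [hκ x s hsB, hκ (s • x) s⁻¹ (hB s hsB), h1]
    by_cases hs1 : nm x s ∈ S1
    · rw [if_pos (Or.inl hs1), if_pos (Or.inl hs1)]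
    obtain ⟨hM1, hM2, hM3⟩ := hM _ hc1 hs1 (hc2.resolve_left hs1)
    have h2 := hM2 x ⟨s, hsB⟩
    have h3 : inv ⟨s, hsB⟩ = ⟨s⁻¹, hB s hsB⟩ := rfl
    rw [h3] at h2
    simp only at h2
    by_cases h4 : M (nm x s) x ⟨s, hsB⟩
    · rw [if_pos (Or.inr h4), if_pos (Or.inr (h2.mp h4))]
    · rw [if_neg (not_or.mpr ⟨hs1, h4⟩), if_neg (not_or.mpr ⟨hs1, fun h5 => h4 (h2.mpr h5)⟩)]


/-- A Borel sign on the cycles of an element of finite even order. -/
theorem exists_cycle_sign [MeasurableSpace X] [StandardBorelSpace X] [Countable Γ]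
    (hX : IsFreeBorel Γ X) {z : Γ} (hzf : IsOfFinOrder z) {Q : Γ → ℝ}
    (Q1 : ∀ x, Q x = 1 ∨ Q x = -1) (Qz : ∀ x, Q (z * x) = - Q x) :
    ∃ σ : X → Prop, MeasurableSet {x | σ x} ∧ ∀ x, (σ (z • x) ↔ ¬ σ x) := by
  classical
  let val : Bool → Γ := fun i => if i then z⁻¹ else z
  have hval : ∀ i, val (!i) = (val i)⁻¹ := by
    intro i
    cases i <;> simp [val]
  have Qzi : ∀ x, Q (z⁻¹ * x) = - Q x := fun x => odd_inv Qz x
  have hreach : ∀ x u : X, EConn val (fun _ _ => True) x u → ∃ t ∈ Subgroup.zpowers z,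
      t • x = u := by
    intro x u h
    induction h with
    | refl => exact ⟨1, Subgroup.one_mem _, one_smul _ _⟩
    | @tail a b ha hb ih =>
      obtain ⟨t, ht, rfl⟩ := ih
      obtain ⟨i, _, rfl⟩ := hb
      refine ⟨val i * t, Subgroup.mul_mem _ ?_ ht, mul_smul _ _ _⟩
      cases i
      · simp only [val, Bool.false_eq_true, if_false]
        exact Subgroup.mem_zpowers _
      · simp only [val, if_true]
        exact Subgroup.inv_mem _ (Subgroup.mem_zpowers _)
  obtain ⟨M, hMm, _, hMs, hM1⟩ := borel_round hX.measurable_smul hX.free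
    (val := val) (inv := fun i => !i) hval (fun i => Bool.not_not i)
    (E := fun _ _ => True) (fun i => MeasurableSet.const _) (fun _ _ _ => trivial)
    (fun x => by
      have hfin : ((Subgroup.zpowers z : Subgroup Γ) : Set Γ).Finite := finite_zpowers.mpr hzf
      refine (hfin.image (fun t => t • x)).subset ?_
      intro u hu
      obtain ⟨t, ht, h⟩ := hreach x u hu
      exact ⟨t, ht, h⟩)
    (fun _ => 1) (fun k => MeasurableSet.const _) (fun o => by
      have huniq : ∀ γ1 γ2 : Γ, γ1 • o = γ2 • o → γ1 = γ2 := by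
        intro γ1 γ2 h
        have h1 : (γ2⁻¹ * γ1) • o = o := by rw [mul_smul, h, inv_smul_smul]
        have := hX.free _ _ h1
        rw [inv_mul_eq_one] at this
        exact this.symm
      refine ⟨fun _ _ => 1 / 2, fun x => ∃ γ : Γ, γ • o = x ∧ Q γ = 1, ?_, ?_, ?_, ?_, ?_, ?_⟩
      · intro x i _; norm_num
      · intro x i _; norm_num
      · intro x i _ _; rfl
      · intro x i _ h; exact absurd trivial h
      · intro x _
        simp
      · intro x i hx _
        obtain ⟨t, _, rfl⟩ := hreach o x hx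
        have h1 : ∀ γ : Γ, (∃ γ' : Γ, γ' • o = γ • o ∧ Q γ' = 1) ↔ Q γ = 1 := by
          intro γ
          constructor
          · rintro ⟨γ', h2, h3⟩
            rw [← huniq _ _ h2]
            exact h3
          · intro h
            exact ⟨γ, rfl, h⟩
        have h2 : Q (val i * t) = - Q t := by
          cases i
          · simpa [val] using Qz t
          · simpa [val] using Qzi t
        rw [← mul_smul]
        simp only [h1, h2]
        rcases Q1 t with h | h <;> rw [h] <;> norm_num)
  have hex : ∀ x, (M x true ↔ ¬ M x false) := by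
    intro x
    obtain ⟨i, hi⟩ := Set.ncard_eq_one.mp (hM1 x)
    have h1 : ∀ j, M x j ↔ j = i := by
      intro j
      have := Set.ext_iff.mp hi j
      exact this
    rw [h1, h1]
    cases i <;> simp
  refine ⟨fun x => M x false, hMm false, fun x => ?_⟩
  have h1 := hMs x false
  have h2 : val false • x = z • x := by simp [val]
  rw [h2] at h1
  have h3 := hex (z • x)
  have h4 : (!false) = true := rfl
  rw [h4] at h1
  tauto

end Run7.h916
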