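import Pool.Agent.Run7.h916.TorNames

set_option autoImplicit false
set_option linter.unusedSectionVars false
set_option linter.unusedVariables false

/-!
Blocks with a hub of finite order.
-/

namespace Run7.h916

open Set Relation
open scoped Pointwise commutatorElement

universe u v w

variable {Γ : Type u} [Group Γ]

/-- The group `⟨s, z⟩` has a locally finite normal subgroup `L` such that in the quotient by `L`
the element `s` lies in a torsion-free nilpotent normal subgroup, `s` and `z⁻¹sz` do not generate a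
cyclic group, and there are homomorphisms to `ℤ/2` trivial at `s` and nontrivial at `z`,
respectively nontrivial at `s` and trivial at `z`. -/
def TorPair (s z : Γ) : Prop :=
  ∃ (L : Subgroup (Subgroup.closure {s, z} : Subgroup Γ)) (_ : L.Normal)
    (N : Subgroup ((Subgroup.closure {s, z} : Subgroup Γ) ⧸ L)), IsLocallyFinite L ∧ N.Normal ∧
    Group.IsNilpotent N ∧ (∀ (x : N) (n : ℕ), 0 < n → x ^ n = 1 → x = 1) ∧
    ∃ s' z' : (Subgroup.closure {s, z} : Subgroup Γ), (s' : Γ) = s ∧ (z' : Γ) = z ∧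
      QuotientGroup.mk' L s' ∈ N ∧
      ¬ IsCyclic (Subgroup.closure {QuotientGroup.mk' L s',
        (QuotientGroup.mk' L z')⁻¹ * QuotientGroup.mk' L s' * QuotientGroup.mk' L z'} :
          Subgroup ((Subgroup.closure {s, z} : Subgroup Γ) ⧸ L)) ∧
      ∃ φ ψ : ((Subgroup.closure {s, z} : Subgroup Γ) ⧸ L) →* Multiplicative (ZMod 2),
        φ (QuotientGroup.mk' L s') = 1 ∧ φ (QuotientGroup.mk' L z') ≠ 1 ∧
        ψ (QuotientGroup.mk' L s') ≠ 1 ∧ ψ (QuotientGroup.mk' L z') = 1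

theorem hasTor_of_torPair {X : Type v} [MulAction Γ X] [MeasurableSpace X] [StandardBorelSpace X]
    [Countable Γ] (hX : IsFreeBorel Γ X) {T : Set Γ} (hT : ∀ m ∈ T, m⁻¹ ∈ T) {s z : Γ}
    (hs : s ∈ T) (hz : z ∈ T) (hzf : IsOfFinOrder z) (h : TorPair s z) {Q : Γ → ℝ}
    (Q1 : ∀ x, Q x = 1 ∨ Q x = -1) (Qs : ∀ x, Q (s * x) = Q x) (Qz : ∀ x, Q (z * x) = - Q x) :
    HasTor X T z s Q ∧ ParOK X s z := by
  obtain ⟨L, hLn, N, hL, hNn, hnil, hTF, s', z', hs', hz', hsN, hnc, φ, ψ, h1, h2, h3, h4⟩ := h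
  have es : s' = ⟨s, Subgroup.subset_closure (by simp)⟩ := Subtype.ext hs'
  have ez : z' = ⟨z, Subgroup.subset_closure (by simp)⟩ := Subtype.ext hz'
  subst es
  subst ez
  set sK : (Subgroup.closure {s, z} : Subgroup Γ) := ⟨s, Subgroup.subset_closure (by simp)⟩
    with hsK
  set zK : (Subgroup.closure {s, z} : Subgroup Γ) := ⟨z, Subgroup.subset_closure (by simp)⟩
    with hzK
  set π : (Subgroup.closure {s, z} : Subgroup Γ) →* (Subgroup.closure {s, z} : Subgroup Γ) ⧸ L :=
    QuotientGroup.mk' L with hπdef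
  have hsurj : Function.Surjective π := QuotientGroup.mk'_surjective L
  have hπ : ∀ k, π k = 1 → IsOfFinOrder k := fun k hk =>
    hL.isOfFinOrder ((QuotientGroup.eq_one_iff k).mp hk)
  let g0 : Bool → (Subgroup.closure {s, z} : Subgroup Γ) := fun i => if i then zK else sK
  let g1 : Bool → (Subgroup.closure {s, z} : Subgroup Γ) ⧸ L := fun i => π (g0 i)
  have hg1f : g1 false = π sK := rfl
  have hg1t : g1 true = π zK := rfl
  obtain ⟨q, q1, q2, q3⟩ := exists_sign_two φ
  obtain ⟨p, p1, p2, p3⟩ := exists_sign_two ψ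
  have qs : ∀ x, q (π sK * x) = q x := q2 _ h1
  have qz : ∀ x, q (π zK * x) = - q x := q3 _ h2
  have ps : ∀ x, p (π sK * x) = - p x := p3 _ h3
  have pz : ∀ x, p (π zK * x) = p x := p2 _ h4
  let E : (Subgroup.closure {s, z} : Subgroup Γ) ⧸ L → ℝ := fun x => q x * p x
  have hE1 : ∀ x, E x = 1 ∨ E x = -1 := by
    intro x
    simp only [E]
    rcases q1 x with h | h <;> rcases p1 x with h' | h' <;> rw [h, h'] <;> norm_num
  have hEg : ∀ i x, E (g1 i * x) = - E x := by
    intro i x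
    cases i
    · simp only [E]
      rw [hg1f, qs, ps]
      ring
    · simp only [E]
      rw [hg1t, qz, pz]
      ring
  have hz1 : ∀ n ∈ N, g1 true * n * (g1 true)⁻¹ ∈ N := fun n hn => hNn.conj_mem n hn _
  have hz2 : ∀ n ∈ N, (g1 true)⁻¹ * n * g1 true ∈ N := by
    intro n hn
    have := hNn.conj_mem n hn (g1 true)⁻¹
    rwa [inv_inv] at this
  have hzfK : IsOfFinOrder zK := isOfFinOrder_subgroup.mpr hzf
  have hzfG : IsOfFinOrder (g1 true) := MonoidHom.isOfFinOrder π hzfK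
  obtain ⟨F, F1, Fv, Fper, Fnull⟩ := exists_cubicN (g := g1) (E := E) (Q := q) N hTF hsN hz1 hz2
    hE1 hEg q1 qs qz hnc
  have hfd := facData_cubicN (g := g1) N hsN hz2 (polyGrowthN N hsN hz1 hz2 hzfG) hE1 hEg F1 Fv
    q1 qs qz Fnull
  have hfd2 := hfd.lift (g := g0) (π := π) hπ
  obtain ⟨ρ, hρ, hQρ⟩ := exists_coord_sign (x := s) (y := z) π hsurj (s := q) q1 qs qz Q1 Qs Qz
  have hfd3 := FacData.coord (Subgroup.closure {s, z} : Subgroup Γ).subtype ρ (fun k γ => hρ k γ) hfd2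
  have hper2 := per_coord (Subgroup.closure {s, z} : Subgroup Γ).subtype ρ (fun k γ => hρ k γ) (v := sK) (w := zK)
    (F := fun k => F (π k)) (Q := fun k => q (π k)) (per_lift hsurj hπ Fper)
  have hQ : Q = fun γ => q (π (ρ γ)) := funext hQρ
  have hpr : (fun i => (Subgroup.closure {s, z} : Subgroup Γ).subtype (g0 i)) = pr s z := by
    funext i
    cases i <;> rfl
  have hfd4 : FacData (pr s z) (fun γ => E (π (ρ γ))) 3 1 (Hc Q) (PAc (fun γ => F (π (ρ γ))))
      (PLc Q) := by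
    rw [← hpr, hQ]
    exact hfd3
  refine ⟨exists_torZone hfd4 Q1 (fun γ => F1 _) ?_ Qz ?_ hX hT hz hs, ?_⟩
  · intro γ
    have := hρ sK γ
    have e : ρ (s * γ) = sK * ρ γ := this
    simp only [e, map_mul]
    exact Fv _
  · rw [hQ]
    exact hper2
  · refine parOK_of_sign hX.free (fun γ => E (π (ρ γ))) (fun γ => hE1 _) ?_ ?_
    · intro γ
      have e : ρ (s * γ) = sK * ρ γ := hρ sK γ
      simp only [e, map_mul]
      exact hEg false _
    · intro γ
      have e : ρ (z * γ) = zK * ρ γ := hρ zK γ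
      simp only [e, map_mul]
      exact hEg true _

/-- The element `z` has finite order, there is a homomorphism from `⟨B, z⟩` to `ℤ/2` which is trivial
on `B` and nontrivial at `z`, and every element of `B` forms a pair with `z`. -/
def TorsionStar (z : Γ) (B : Set Γ) : Prop :=
  IsOfFinOrder z ∧ (∃ ε : (Subgroup.closure (insert z B) : Subgroup Γ) →* Multiplicative (ZMod 2),
    ∀ (s : Γ) (hs : s ∈ insert z B), ε ⟨s, Subgroup.subset_closure hs⟩ ≠ 1 ↔ s = z) ∧
  ∀ s ∈ B, TorPair s z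

theorem tor_block_of_pairs {X : Type v} [MulAction Γ X] [MeasurableSpace X]
    [StandardBorelSpace X] [Countable Γ] (hX : IsFreeBorel Γ X) {T : Set Γ} (hT1 : (1 : Γ) ∈ T)
    (hT : ∀ m ∈ T, m⁻¹ ∈ T) (hTfin : T.Finite) (hsep : SepAct T X) {B : Finset Γ} {z : Γ}
    (hz : z ∈ B) (hBT : ∀ s ∈ B, s ∈ T) (hB : ∀ s ∈ B, s⁻¹ ∈ B)
    (hinf : ∀ s ∈ B, s ≠ z → s ≠ z⁻¹ → ¬ IsOfFinOrder s)
    {V : Set Γ} (hV : ∀ s ∈ B, s ≠ z → s ≠ z⁻¹ → s ∈ V) (h : TorsionStar z V) :
    BorelBlock (B : Set Γ) X := by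
  obtain ⟨hzf, ⟨ε, hε⟩, hpair⟩ := h
  obtain ⟨Q, Q1, Q2, Q3⟩ := exists_sign_sub _ ε
  have Qz : ∀ x, Q (z * x) = - Q x := by
    intro x
    exact Q3 ⟨z, Subgroup.subset_closure (Set.mem_insert _ _)⟩
      ((hε z (Set.mem_insert _ _)).mpr rfl) x
  have Qc : ∀ c ∈ B, c ≠ z → c ≠ z⁻¹ → ∀ x, Q (c * x) = Q x := by
    intro c hc h1 h2 x
    have h3 : c ∈ insert z V := Set.mem_insert_of_mem _ (hV c hc h1 h2)
    refine Q2 ⟨c, Subgroup.subset_closure h3⟩ ?_ x
    by_contra h4
    exact h1 ((hε c h3).mp h4)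
  have hpr : ∀ c ∈ B, rep c = c → c ≠ z → c ≠ z⁻¹ → HasTor X T z c Q ∧ ParOK X c z :=
    fun c hc _ h1 h2 => hasTor_of_torPair hX hT (hBT c hc) (hBT z hz) hzf
      (hpair c (hV c hc h1 h2)) Q1 (Qc c hc h1 h2) Qz
  exact tor_block hX hT1 hT hTfin hsep hBT hB hz hzf
    (fun s hs h1 h2 => not_isOfFinOrder_ne_inv (hinf s hs h1 h2)) Q1 Qz
    (fun c hc hr h1 h2 => (hpr c hc hr h1 h2).1) (fun c hc hr h1 h2 => (hpr c hc hr h1 h2).2)

/-- **The block theorem** with hubs of finite order. -/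
theorem chromaticIndex_types2 {X : Type v} [MulAction Γ X] [MeasurableSpace X]
    [StandardBorelSpace X] {S : Finset Γ} (hS : IsMarking S) (hH : HypH S X) (b : Γ → ℕ)
    (hb : ∀ s ∈ S, b s⁻¹ = b s)
    (h : ∀ n, TorsionBlock (S.filter fun s => b s = n) {s | s ∈ S ∧ ¬ IsOfFinOrder s ∧ b s = n} ∨
      ParityBlock {s | s ∈ S ∧ ¬ IsOfFinOrder s ∧ b s = n} ∨
      StarBlock {s | s ∈ S ∧ ¬ IsOfFinOrder s ∧ b s = n} ∨
      NilpotentBlock {s | s ∈ S ∧ ¬ IsOfFinOrder s ∧ b s = n} ∨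
      ∃ z ∈ S, b z = n ∧ TorsionStar z {s | s ∈ S ∧ ¬ IsOfFinOrder s ∧ b s = n}) :
    borelChromaticIndex (schreierGraph S X) = S.card := by
  classical
  obtain ⟨hX, hcount, T, hT1, hT, hTfin, hgen, hST, hsep⟩ := exists_setup hS hH
  let V : ℕ → Set Γ := fun n => {s | s ∈ S ∧ ¬ IsOfFinOrder s ∧ b s = n}
  let TT : ℕ → Prop := fun n => TorsionBlock (S.filter fun s => b s = n) (V n)
  let P : ℕ → Prop := fun n => ParityBlock (V n) ∨ StarBlock (V n) ∨ NilpotentBlock (V n)
  have hch : ∀ n, ∃ z, ¬ TT n → ¬ P n → z ∈ S ∧ b z = n ∧ TorsionStar z (V n) := by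
    intro n
    rcases h n with h1 | h1 | h1 | h1 | ⟨z, h1, h2, h3⟩
    · exact ⟨1, fun h => absurd h1 h⟩
    · exact ⟨1, fun _ h => absurd (Or.inl h1) h⟩
    · exact ⟨1, fun _ h => absurd (Or.inr (Or.inl h1)) h⟩
    · exact ⟨1, fun _ h => absurd (Or.inr (Or.inr h1)) h⟩
    · exact ⟨z, fun _ _ => ⟨h1, h2, h3⟩⟩
  choose zf hzf using hch
  let Hub : ℕ → Γ → Prop := fun n s => ¬ TT n ∧ ¬ P n ∧ (s = zf n ∨ s = (zf n)⁻¹)
  have hHub : ∀ n s, Hub n s → s ∈ S ∧ IsOfFinOrder s ∧ b s = n ∧ Hub n s⁻¹ := by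
    rintro n s ⟨h0, h1, h2⟩
    obtain ⟨h3, h4, h5⟩ := hzf n h0 h1
    rcases h2 with h2 | h2
    · rw [h2]
      exact ⟨h3, h5.1, h4, h0, h1, Or.inr rfl⟩
    · rw [h2]
      exact ⟨hS.inv_mem _ h3, isOfFinOrder_inv_iff.mpr h5.1, by rw [hb _ h3, h4], h0, h1,
        Or.inl (inv_inv _)⟩
  let B : Option ℕ → Set Γ := fun i => match i with
    | none => {s | s ∈ S ∧ ((IsOfFinOrder s ∧ ∀ n, ¬ Hub n s) ∨ (¬ IsOfFinOrder s ∧ TT (b s)))}
    | some n => {s | (s ∈ S ∧ ¬ IsOfFinOrder s ∧ b s = n ∧ ¬ TT n) ∨ Hub n s}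
  have hbB : ∀ n s, s ∈ B (some n) → b s = n := by
    rintro n s (h1 | h1)
    · exact h1.2.2.1
    · exact (hHub n s h1).2.2.1
  have hinvS : ∀ n, ∀ s ∈ B (some n), s⁻¹ ∈ B (some n) := by
    rintro n s (h1 | h1)
    · left
      refine ⟨hS.inv_mem s h1.1, ?_, ?_, h1.2.2.2⟩
      · rw [isOfFinOrder_inv_iff]; exact h1.2.1
      · rw [hb s h1.1]; exact h1.2.2.1
    · right
      exact (hHub n s h1).2.2.2
  have hinvN : ∀ s ∈ B none, s⁻¹ ∈ B none := by
    rintro s ⟨h1, ⟨h2, h3⟩ | ⟨h2, h3⟩⟩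
    · refine ⟨hS.inv_mem s h1, Or.inl ⟨isOfFinOrder_inv_iff.mpr h2, fun n h4 => ?_⟩⟩
      have := (hHub n _ h4).2.2.2
      rw [inv_inv] at this
      exact h3 n this
    · refine ⟨hS.inv_mem s h1, Or.inr ⟨?_, ?_⟩⟩
      · rw [isOfFinOrder_inv_iff]; exact h2
      · rw [hb s h1]; exact h3
  have hnone : ∀ n s, s ∈ B none → s ∈ B (some n) → False := by
    rintro n s ⟨_, ⟨h1, h2⟩ | ⟨h1, h2⟩⟩ (h3 | h3)
    · exact h3.2.1 h1
    · exact h2 n h3
    · have h4 := h3.2.2.1
      rw [h4] at h2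
      exact h3.2.2.2 h2
    · exact h1 (hHub n s h3).2.1
  refine chromaticIndex_of_borelBlocks hS hH (B := B) ?_ ?_ ?_ ?_
  · intro i j s hi hj
    cases i with
    | none =>
      cases j with
      | none => rfl
      | some n => exact (hnone n s hi hj).elim
    | some m =>
      cases j with
      | none => exact (hnone m s hj hi).elim
      | some n => rw [← hbB m s hi, hbB n s hj]
  · intro i s hs
    cases i with
    | none => exact hinvN s hs
    | some n => exact hinvS n s hs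
  · ext s
    simp only [Set.mem_iUnion]
    constructor
    · rintro ⟨i, hi⟩
      cases i with
      | none => exact hi.1
      | some n =>
        rcases hi with h1 | h1
        · exact h1.1
        · exact (hHub n s h1).1
    · intro hs
      by_cases h1 : IsOfFinOrder s
      · by_cases h2 : ∃ n, Hub n s
        · obtain ⟨n, h2⟩ := h2
          exact ⟨some n, Or.inr h2⟩
        · push Not at h2
          exact ⟨none, hs, Or.inl ⟨h1, h2⟩⟩
      · by_cases h2 : TT (b s)
        · exact ⟨none, hs, Or.inr ⟨h1, h2⟩⟩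
        · exact ⟨some (b s), Or.inl ⟨hs, h1, rfl, h2⟩⟩
  · intro i
    cases i with
    | none =>
      refine borelBlock_of_flexible hX hT1 hT hgen hsep hinvN (fun s hs => hST s hs.1) ?_
      refine flexible_partner (S.finite_toSet.subset fun s hs => hs.1) hinvN
        (fun s hs => hH.not_odd s hs.1) fun v hv hvi => ?_
      obtain ⟨h1, h2⟩ := hv
      have h3 : TT (b v) := by
        rcases h2 with h2 | h2
        · exact absurd h2.1 hvi
        · exact h2.2
      obtain ⟨z, hz, hzf', hε⟩ := partnerData_of_torsionBlock h3 (v := v) ⟨h1, hvi, rfl⟩ hvi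
      rw [Finset.mem_filter] at hz
      refine ⟨z, ⟨hz.1, Or.inl ⟨hzf', fun n hn => ?_⟩⟩, hzf', hε⟩
      have h4 := (hHub n z hn).2.2.1
      rw [hz.2] at h4
      rw [← h4] at hn
      exact hn.1 h3
    | some n =>
      by_cases hTn : TT n
      · have : B (some n) = ∅ := by
          ext s
          simp only [Set.mem_empty_iff_false, iff_false]
          rintro (h1 | h1)
          · exact h1.2.2.2 hTn
          · exact h1.1 hTn
        rw [this]
        exact borelBlock_empty X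
      by_cases hPn : P n
      · set B' : Finset Γ := S.filter (fun s => ¬ IsOfFinOrder s ∧ b s = n) with hB'
        have hmem : ∀ s, s ∈ B' ↔ s ∈ S ∧ ¬ IsOfFinOrder s ∧ b s = n := by
          intro s
          rw [hB', Finset.mem_filter]
        have hBB : B (some n) = (B' : Set Γ) := by
          ext s
          rw [Finset.mem_coe, hmem]
          constructor
          · rintro (h1 | h1)
            · exact ⟨h1.1, h1.2.1, h1.2.2.1⟩
            · exact absurd hPn h1.2.1
          · exact fun h => Or.inl ⟨h.1, h.2.1, h.2.2, hTn⟩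
        have hVB : V n = (B' : Set Γ) := by
          ext s
          rw [Finset.mem_coe, hmem]
          rfl
        have h3 : P n := hPn
        simp only [P] at h3
        rw [hVB] at h3
        rw [hBB]
        refine block_of_types hX hT1 hT hTfin hsep (fun s hs => hST s ((hmem s).mp hs).1) ?_
          (fun s hs => ((hmem s).mp hs).2.1) h3
        intro s hs
        rw [hmem] at hs ⊢
        refine ⟨hS.inv_mem s hs.1, ?_⟩
        rw [isOfFinOrder_inv_iff, hb s hs.1]
        exact hs.2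
      · obtain ⟨hz1, hz2, hz3⟩ := hzf n hTn hPn
        set B' : Finset Γ := S.filter (fun s => s ∈ B (some n)) with hB'
        have hsub : ∀ s ∈ B (some n), s ∈ S := by
          rintro s (h1 | h1)
          · exact h1.1
          · exact (hHub n s h1).1
        have hmem : ∀ s, s ∈ B' ↔ s ∈ B (some n) := by
          intro s
          rw [hB', Finset.mem_filter]
          exact ⟨fun h => h.2, fun h => ⟨hsub s h, h⟩⟩
        have hBB : B (some n) = (B' : Set Γ) := by
          ext s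
          rw [Finset.mem_coe, hmem]
        have hother : ∀ s ∈ B', s ≠ zf n → s ≠ (zf n)⁻¹ → s ∈ V n := by
          intro s hs h1 h2
          rcases (hmem s).mp hs with h3 | h3
          · exact ⟨h3.1, h3.2.1, h3.2.2.1⟩
          · rcases h3.2.2 with h4 | h4
            · exact absurd h4 h1
            · exact absurd h4 h2
        rw [hBB]
        refine tor_block_of_pairs hX hT1 hT hTfin hsep (z := zf n)
          ((hmem _).mpr (Or.inr ⟨hTn, hPn, Or.inl rfl⟩))
          (fun s hs => hST s (hsub s ((hmem s).mp hs)))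
          (fun s hs => (hmem _).mpr (hinvS n s ((hmem s).mp hs)))
          (fun s hs h1 h2 => (hother s hs h1 h2).2.1) hother hz3

end Run7.h916
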