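import Pool.Agent.Run7.h916.LFTwoEnded

set_option autoImplicit false
set_option linter.unusedSectionVars false
set_option linter.unusedVariables false

/-!
The block theorem with all types of blocks.
-/

namespace Run7.h916

open Set Relation
open scoped Pointwise commutatorElement

universe u v

variable {Γ : Type u} [Group Γ]

/-- **The block theorem** with hubs of finite order. -/
theorem chromaticIndex_types3_com {X : Type v} [MulAction Γ X] [MeasurableSpace X]
    [StandardBorelSpace X] {S : Finset Γ} (hS : IsMarking S) (hH : HypH S X) (b : Γ → ℕ)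
    (hb : ∀ s ∈ S, b s⁻¹ = b s)
    (h : ∀ n, TorsionBlock' (S.filter fun s => b s = n) {s | s ∈ S ∧ ¬ IsOfFinOrder s ∧ b s = n} ∨
      ParityBlock' {s | s ∈ S ∧ ¬ IsOfFinOrder s ∧ b s = n} ∨
      StarBlock' {s | s ∈ S ∧ ¬ IsOfFinOrder s ∧ b s = n} ∨
      NilpotentBlock {s | s ∈ S ∧ ¬ IsOfFinOrder s ∧ b s = n} ∨
      ∃ z ∈ S, b z = n ∧ TorsionStar' z {s | s ∈ S ∧ ¬ IsOfFinOrder s ∧ b s = n}) :
    borelChromaticIndex (schreierGraph S X) = S.card := by
  classical
  obtain ⟨hX, hcount, T, hT1, hT, hTfin, hgen, hST, hsep⟩ := exists_setup hS hH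
  let V : ℕ → Set Γ := fun n => {s | s ∈ S ∧ ¬ IsOfFinOrder s ∧ b s = n}
  let TT : ℕ → Prop := fun n => TorsionBlock' (S.filter fun s => b s = n) (V n)
  let P : ℕ → Prop := fun n => ParityBlock' (V n) ∨ StarBlock' (V n) ∨ NilpotentBlock (V n)
  have hch : ∀ n, ∃ z, ¬ TT n → ¬ P n → z ∈ S ∧ b z = n ∧ TorsionStar' z (V n) := by
    intro n
    rcases h n with h1 | h1 | h1 | h1 | ⟨z, h1, h2, h3⟩
    · exact ⟨1, fun h => absurd h1 h⟩
    · exact ⟨1, fun _ h => absurd (Or.inl h1) h⟩
    · exact ⟨1, fun _ h => absurd (Or.inr (Or.inl h1)) h⟩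
    · exact ⟨1, fun _ h => absurd (Or.inr (Or.inr h1)) h⟩
    · exact ⟨z, fun _ _ => ⟨h1, h2, h3⟩⟩
  choose zf hzf using hch
  let Hub : ℕ → Γ → Prop := fun n s => ¬ TT n ∧ ¬ P n ∧ (s = zf n ∨ s = (zf n)⁻¹)
  have hHub : ∀ n s, Hub n s → s ∈ S ∧ IsOfFinOrder s ∧ b s = n ∧ Hub n s⁻¹ := by
    rintro n s ⟨h0, h1, h2⟩
    obtain ⟨h3, h4, h5⟩ := hzf n h0 h1
    rcases h2 with h2 | h2
    · rw [h2]
      exact ⟨h3, h5.1, h4, h0, h1, Or.inr rfl⟩
    · rw [h2]
      exact ⟨hS.inv_mem _ h3, isOfFinOrder_inv_iff.mpr h5.1, by rw [hb _ h3, h4], h0, h1,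
        Or.inl (inv_inv _)⟩
  let B : Option ℕ → Set Γ := fun i => match i with
    | none => {s | s ∈ S ∧ ((IsOfFinOrder s ∧ ∀ n, ¬ Hub n s) ∨ (¬ IsOfFinOrder s ∧ TT (b s)))}
    | some n => {s | (s ∈ S ∧ ¬ IsOfFinOrder s ∧ b s = n ∧ ¬ TT n) ∨ Hub n s}
  have hbB : ∀ n s, s ∈ B (some n) → b s = n := by
    rintro n s (h1 | h1)
    · exact h1.2.2.1
    · exact (hHub n s h1).2.2.1
  have hinvS : ∀ n, ∀ s ∈ B (some n), s⁻¹ ∈ B (some n) := by
    rintro n s (h1 | h1)
    · left
      refine ⟨hS.inv_mem s h1.1, ?_, ?_, h1.2.2.2⟩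
      · rw [isOfFinOrder_inv_iff]; exact h1.2.1
      · rw [hb s h1.1]; exact h1.2.2.1
    · right
      exact (hHub n s h1).2.2.2
  have hinvN : ∀ s ∈ B none, s⁻¹ ∈ B none := by
    rintro s ⟨h1, ⟨h2, h3⟩ | ⟨h2, h3⟩⟩
    · refine ⟨hS.inv_mem s h1, Or.inl ⟨isOfFinOrder_inv_iff.mpr h2, fun n h4 => ?_⟩⟩
      have := (hHub n _ h4).2.2.2
      rw [inv_inv] at this
      exact h3 n this
    · refine ⟨hS.inv_mem s h1, Or.inr ⟨?_, ?_⟩⟩
      · rw [isOfFinOrder_inv_iff]; exact h2
      · rw [hb s h1]; exact h3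
  have hnone : ∀ n s, s ∈ B none → s ∈ B (some n) → False := by
    rintro n s ⟨_, ⟨h1, h2⟩ | ⟨h1, h2⟩⟩ (h3 | h3)
    · exact h3.2.1 h1
    · exact h2 n h3
    · have h4 := h3.2.2.1
      rw [h4] at h2
      exact h3.2.2.2 h2
    · exact h1 (hHub n s h3).2.1
  refine chromaticIndex_of_borelBlocks hS hH (B := B) ?_ ?_ ?_ ?_
  · intro i j s hi hj
    cases i with
    | none =>
      cases j with
      | none => rfl
      | some n => exact (hnone n s hi hj).elim
    | some m =>
      cases j with
      | none => exact (hnone m s hj hi).elim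
      | some n => rw [← hbB m s hi, hbB n s hj]
  · intro i s hs
    cases i with
    | none => exact hinvN s hs
    | some n => exact hinvS n s hs
  · ext s
    simp only [Set.mem_iUnion]
    constructor
    · rintro ⟨i, hi⟩
      cases i with
      | none => exact hi.1
      | some n =>
        rcases hi with h1 | h1
        · exact h1.1
        · exact (hHub n s h1).1
    · intro hs
      by_cases h1 : IsOfFinOrder s
      · by_cases h2 : ∃ n, Hub n s
        · obtain ⟨n, h2⟩ := h2
          exact ⟨some n, Or.inr h2⟩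
        · push Not at h2
          exact ⟨none, hs, Or.inl ⟨h1, h2⟩⟩
      · by_cases h2 : TT (b s)
        · exact ⟨none, hs, Or.inr ⟨h1, h2⟩⟩
        · exact ⟨some (b s), Or.inl ⟨hs, h1, rfl, h2⟩⟩
  · intro i
    cases i with
    | none =>
      refine borelBlock_of_flexible hX hT1 hT hgen hsep hinvN (fun s hs => hST s hs.1) ?_
      refine flexible_partner (S.finite_toSet.subset fun s hs => hs.1) hinvN
        (fun s hs => hH.not_odd s hs.1) fun v hv hvi => ?_
      obtain ⟨h1, h2⟩ := hv
      have h3 : TT (b v) := by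
        rcases h2 with h2 | h2
        · exact absurd h2.1 hvi
        · exact h2.2
      obtain ⟨z, hz, hzf', hε⟩ := partnerData_of_torsionBlock' h3 (v := v) ⟨h1, hvi, rfl⟩ hvi
      rw [Finset.mem_filter] at hz
      refine ⟨z, ⟨hz.1, Or.inl ⟨hzf', fun n hn => ?_⟩⟩, hzf', hε⟩
      have h4 := (hHub n z hn).2.2.1
      rw [hz.2] at h4
      rw [← h4] at hn
      exact hn.1 h3
    | some n =>
      by_cases hTn : TT n
      · have : B (some n) = ∅ := by
          ext s
          simp only [Set.mem_empty_iff_false, iff_false]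
          rintro (h1 | h1)
          · exact h1.2.2.2 hTn
          · exact h1.1 hTn
        rw [this]
        exact borelBlock_empty X
      by_cases hPn : P n
      · set B' : Finset Γ := S.filter (fun s => ¬ IsOfFinOrder s ∧ b s = n) with hB'
        have hmem : ∀ s, s ∈ B' ↔ s ∈ S ∧ ¬ IsOfFinOrder s ∧ b s = n := by
          intro s
          rw [hB', Finset.mem_filter]
        have hBB : B (some n) = (B' : Set Γ) := by
          ext s
          rw [Finset.mem_coe, hmem]
          constructor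
          · rintro (h1 | h1)
            · exact ⟨h1.1, h1.2.1, h1.2.2.1⟩
            · exact absurd hPn h1.2.1
          · exact fun h => Or.inl ⟨h.1, h.2.1, h.2.2, hTn⟩
        have hVB : V n = (B' : Set Γ) := by
          ext s
          rw [Finset.mem_coe, hmem]
          rfl
        have h3 : P n := hPn
        simp only [P] at h3
        rw [hVB] at h3
        rw [hBB]
        refine block_of_types_com hX hT1 hT hTfin hsep (fun s hs => hST s ((hmem s).mp hs).1) ?_
          (fun s hs => ((hmem s).mp hs).2.1) h3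
        intro s hs
        rw [hmem] at hs ⊢
        refine ⟨hS.inv_mem s hs.1, ?_⟩
        rw [isOfFinOrder_inv_iff, hb s hs.1]
        exact hs.2
      · obtain ⟨hz1, hz2, hz3⟩ := hzf n hTn hPn
        set B' : Finset Γ := S.filter (fun s => s ∈ B (some n)) with hB'
        have hsub : ∀ s ∈ B (some n), s ∈ S := by
          rintro s (h1 | h1)
          · exact h1.1
          · exact (hHub n s h1).1
        have hmem : ∀ s, s ∈ B' ↔ s ∈ B (some n) := by
          intro s
          rw [hB', Finset.mem_filter]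
          exact ⟨fun h => h.2, fun h => ⟨hsub s h, h⟩⟩
        have hBB : B (some n) = (B' : Set Γ) := by
          ext s
          rw [Finset.mem_coe, hmem]
        have hother : ∀ s ∈ B', s ≠ zf n → s ≠ (zf n)⁻¹ → s ∈ V n := by
          intro s hs h1 h2
          rcases (hmem s).mp hs with h3 | h3
          · exact ⟨h3.1, h3.2.1, h3.2.2.1⟩
          · rcases h3.2.2 with h4 | h4
            · exact absurd h4 h1
            · exact absurd h4 h2
        rw [hBB]
        refine tor_block_of_pairs' hX hT1 hT hTfin hsep (z := zf n)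
          ((hmem _).mpr (Or.inr ⟨hTn, hPn, Or.inl rfl⟩))
          (fun s hs => hST s (hsub s ((hmem s).mp hs)))
          (fun s hs => (hmem _).mpr (hinvS n s ((hmem s).mp hs)))
          (fun s hs h1 h2 => (hother s hs h1 h2).2.1) hother hz3

end Run7.h916
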