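import Pool.Agent.Run7.h916.TorAssemble

set_option autoImplicit false
set_option linter.unusedSectionVars false
set_option linter.unusedVariables false

/-!
The zones of a block with a hub of finite order.
-/

namespace Run7.h916

open Set Relation
open scoped Pointwise

universe u v w

variable {Γ : Type u} [Group Γ] {X : Type v} [MulAction Γ X]

/-- The zones of a block with the hub `z` of finite order. -/
structure TorGlobal [MeasurableSpace X] (B : Finset Γ) (z : Γ) (Q : Γ → ℝ) (R : ℕ)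
    (d : X → ℕ) (δ : X → Γ) (ctr V : Γ → ℕ) (σ : X → Prop) (N : Γ → X → Lt → Prop) : Prop where
  /-- The zones are disjoint. -/
  dis : ∀ a ∈ B, ∀ a' ∈ B, ∀ x, exc d (ctr a) x ≤ V a + 1 → exc d (ctr a') x ≤ V a' + 1 → a = a'
  /-- The centres. -/
  ctr1 : ∀ a ∈ B, 1 ≤ ctr a ∧ ctr a ≤ R
  /-- The zones of the leaves. -/
  zone : ∀ a ∈ B, rep a = a → a ≠ z → a ≠ z⁻¹ → TorZone z a Q d δ (ctr a) (V a) (N a)
  /-- The sign is Borel. -/
  σm : MeasurableSet {x | σ x}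
  /-- The sign is odd. -/
  σz : ∀ x, σ (z • x) ↔ ¬ σ x
  /-- The sign in the zones. -/
  σQ : ∀ a ∈ B, rep a = a → a ≠ z → a ≠ z⁻¹ → ∀ x, exc d (ctr a) x ≤ V a + 1 →
    (σ x ↔ Q ((δ x)⁻¹) = 1)

open Classical in
theorem exists_torGlobal [MeasurableSpace X] [StandardBorelSpace X] [Countable Γ]
    (hX : IsFreeBorel Γ X) {T : Set Γ} (hT1 : (1 : Γ) ∈ T) (hT : ∀ m ∈ T, m⁻¹ ∈ T)
    (hTfin : T.Finite) (hsep : SepAct T X) {B : Finset Γ} {z : Γ} (hzT : z ∈ T)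
    (hzf : IsOfFinOrder z) {Q : Γ → ℝ} (Q1 : ∀ x, Q x = 1 ∨ Q x = -1)
    (Qz : ∀ x, Q (z * x) = - Q x)
    (htor : ∀ c ∈ B, rep c = c → c ≠ z → c ≠ z⁻¹ → HasTor X T z c Q) :
    ∃ (R : ℕ) (d : X → ℕ) (δ : X → Γ) (ctr V : Γ → ℕ) (σ : X → Prop)
      (N : Γ → X → Lt → Prop), Radial T R d δ ∧ TorGlobal B z Q R d δ ctr V σ N := by
  have hch : ∀ a : Γ, ∃ (V M : ℕ), a ∈ B → rep a = a → a ≠ z → a ≠ z⁻¹ →
      ∀ (R : ℕ) (d : X → ℕ) (δ : X → Γ), Radial T R d δ → ∀ m : ℕ, V < m → m + M ≤ R →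
        ∃ N : X → Lt → Prop, TorZone z a Q d δ m V N := by
    intro a
    by_cases ha : a ∈ B ∧ rep a = a ∧ a ≠ z ∧ a ≠ z⁻¹
    · obtain ⟨V, M, h⟩ := htor a ha.1 ha.2.1 ha.2.2.1 ha.2.2.2
      exact ⟨V, M, fun _ _ _ _ => h⟩
    · exact ⟨0, 0, fun h1 h2 h3 h4 => absurd ⟨h1, h2, h3, h4⟩ ha⟩
  choose V M hVM using hch
  obtain ⟨V0, hV0⟩ : ∃ V0, ∀ a ∈ B, V a ≤ V0 :=
    ⟨∑ a ∈ B, V a, fun a ha => Finset.single_le_sum (fun _ _ => Nat.zero_le _) ha⟩
  obtain ⟨M0, hM0⟩ : ∃ M0, ∀ a ∈ B, M a ≤ M0 :=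
    ⟨∑ a ∈ B, M a, fun a ha => Finset.single_le_sum (fun _ _ => Nat.zero_le _) ha⟩
  obtain ⟨idx, hidx, hinj⟩ : ∃ idx : Γ → ℕ, (∀ s ∈ B, idx s + 1 ≤ B.card) ∧
      ∀ s ∈ B, ∀ t ∈ B, idx s = idx t → s = t := by
    refine ⟨fun s => if h : s ∈ B then (B.equivFin ⟨s, h⟩ : ℕ) else 0, ?_, ?_⟩
    · intro s hs
      simp only
      rw [dif_pos hs]
      exact (B.equivFin ⟨s, hs⟩).2
    · intro s hs t ht h
      simp only at h
      rw [dif_pos hs, dif_pos ht] at h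
      exact congrArg Subtype.val (B.equivFin.injective (Fin.ext h))
  set n := orderOf z with hn
  obtain ⟨q, hq⟩ : ∃ q, q = 2 * V0 + 4 := ⟨_, rfl⟩
  obtain ⟨ctr, hctr⟩ : ∃ ctr : Γ → ℕ, ∀ a, ctr a = (V0 + 1) + idx a * q := ⟨_, fun a => rfl⟩
  obtain ⟨R, hR⟩ : ∃ R, R = (V0 + 1) + B.card * q + M0 + V0 + n + 3 := ⟨_, rfl⟩
  obtain ⟨d, δ, hrad⟩ := exists_radial hX hT1 hT hTfin hsep R
  have hctr1 : ∀ a ∈ B, V a < ctr a := by
    intro a ha
    have := hV0 a ha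
    rw [hctr]
    have h2 := Nat.zero_le (idx a * q)
    omega
  have hctr3 : ∀ a ∈ B, ctr a + q ≤ (V0 + 1) + B.card * q := by
    intro a ha
    have h2 := Nat.mul_le_mul_right q (hidx a ha)
    rw [add_mul, one_mul] at h2
    rw [hctr]
    omega
  have hctr2 : ∀ a ∈ B, ctr a + M a ≤ R := by
    intro a ha
    have := hM0 a ha
    have h2 := hctr3 a ha
    omega
  have hNex : ∀ a : Γ, ∃ N : X → Lt → Prop,
      a ∈ B → rep a = a → a ≠ z → a ≠ z⁻¹ → TorZone z a Q d δ (ctr a) (V a) N := by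
    intro a
    by_cases ha : a ∈ B ∧ rep a = a ∧ a ≠ z ∧ a ≠ z⁻¹
    · obtain ⟨N, hN⟩ := hVM a ha.1 ha.2.1 ha.2.2.1 ha.2.2.2 R d δ hrad (ctr a) (hctr1 a ha.1)
        (hctr2 a ha.1)
      exact ⟨N, fun _ _ _ _ => hN⟩
    · exact ⟨fun _ _ => False, fun h1 h2 h3 h4 => absurd ⟨h1, h2, h3, h4⟩ ha⟩
  choose N hN using hNex
  have hdis : ∀ a ∈ B, ∀ a' ∈ B, ∀ x, exc d (ctr a) x ≤ V a + 1 →
      exc d (ctr a') x ≤ V a' + 1 → a = a' := by
    intro a ha a' ha' x h1 h2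
    apply hinj a ha a' ha'
    by_contra hne'
    have h3 := hV0 a ha
    have h4 := hV0 a' ha'
    have h5 := hctr a
    have h6 := hctr a'
    unfold exc at h1 h2
    rcases lt_or_gt_of_ne hne' with h | h
    · have h7 := Nat.mul_le_mul_right q (Nat.succ_le_of_lt h)
      rw [Nat.succ_mul] at h7
      omega
    · have h7 := Nat.mul_le_mul_right q (Nat.succ_le_of_lt h)
      rw [Nat.succ_mul] at h7
      omega
  have hem : ∀ m k, MeasurableSet {y | exc d m y ≤ k} := by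
    intro m k
    have : {y | exc d m y ≤ k} = ⋃ j : ℕ, {y | d y = j} ∩ {y | ((j : ℤ) - m).natAbs ≤ k} := by
      ext y
      simp only [mem_ofPred_eq, mem_iUnion, mem_inter_iff]
      constructor
      · intro h
        exact ⟨d y, rfl, h⟩
      · rintro ⟨j, rfl, h⟩
        exact h
    rw [this]
    exact MeasurableSet.iUnion fun j => (hrad.dm j).inter (MeasurableSet.const _)
  obtain ⟨σ0, hσ0m, hσ0⟩ := exists_cycle_sign hX hzf Q1 Qz
  -- cycles near the zones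
  let Zc : X → Prop := fun x => ∃ t ∈ Subgroup.zpowers z, ∃ a ∈ B, exc d (ctr a) (t • x) ≤ V a + 1
  have hZz : ∀ x, Zc (z • x) ↔ Zc x := by
    intro x
    constructor
    · rintro ⟨t, ht, a, ha, h⟩
      refine ⟨t * z, Subgroup.mul_mem _ ht (Subgroup.mem_zpowers _), a, ha, ?_⟩
      rwa [mul_smul]
    · rintro ⟨t, ht, a, ha, h⟩
      refine ⟨t * z⁻¹, Subgroup.mul_mem _ ht (Subgroup.inv_mem _ (Subgroup.mem_zpowers _)), a, ha, ?_⟩
      rwa [mul_smul, inv_smul_smul]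
  have hdz : ∀ t ∈ Subgroup.zpowers z, ∀ x, d (t • x) ≤ d x + n := by
    intro t ht x
    obtain ⟨k, hk, rfl⟩ : ∃ k, k < n ∧ z ^ k = t := by
      have := (hzf.mem_zpowers_iff_mem_range_orderOf).mp ht
      rw [Finset.mem_image] at this
      obtain ⟨k, hk, h⟩ := this
      exact ⟨k, Finset.mem_range.mp hk, h⟩
    have : ∀ k, d (z ^ k • x) ≤ d x + k := by
      intro k
      induction k with
      | zero => simp
      | succ k ih =>
        rw [pow_succ', mul_smul]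
        have := hrad.lip z hzT (z ^ k • x)
        omega
    have := this k
    omega
  have hZd : ∀ x, Zc x → d x + 1 ≤ R := by
    rintro x ⟨t, ht, a, ha, h⟩
    have h1 := hdz t⁻¹ (Subgroup.inv_mem _ ht) (t • x)
    rw [inv_smul_smul] at h1
    have h2 := hctr3 a ha
    have h3 := hV0 a ha
    unfold exc at h
    omega
  have hZm : MeasurableSet {x | Zc x} := by
    have : {x | Zc x} = ⋃ t : Γ, {x : X | t ∈ Subgroup.zpowers z} ∩
        (fun x => t • x) ⁻¹' (⋃ a : Γ, {x : X | a ∈ B} ∩ {x | exc d (ctr a) x ≤ V a + 1}) := by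
      ext x
      simp only [Zc, mem_ofPred_eq, mem_iUnion, mem_inter_iff, mem_preimage, exists_prop]
    rw [this]
    exact MeasurableSet.iUnion fun t => (MeasurableSet.const _).inter ((hX.measurable_smul t)
      (MeasurableSet.iUnion fun a => (MeasurableSet.const _).inter (hem _ _)))
  have hQm : MeasurableSet {x | Q ((δ x)⁻¹) = 1} := by
    have : {x | Q ((δ x)⁻¹) = 1} = ⋃ γ : Γ, {x | δ x = γ} ∩ {x : X | Q (γ⁻¹) = 1} := by
      ext x
      simp only [mem_ofPred_eq, mem_iUnion, mem_inter_iff]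
      constructor
      · intro h
        exact ⟨δ x, rfl, h⟩
      · rintro ⟨γ, rfl, h⟩
        exact h
    rw [this]
    exact MeasurableSet.iUnion fun γ => (hrad.δm γ).inter (MeasurableSet.const _)
  let σ : X → Prop := fun x => if Zc x then Q ((δ x)⁻¹) = 1 else σ0 x
  have hσ1 : ∀ x, Zc x → (σ x ↔ Q ((δ x)⁻¹) = 1) := fun x hx => by
    simp only [σ]; rw [if_pos hx]
  have hσ2 : ∀ x, ¬ Zc x → (σ x ↔ σ0 x) := fun x hx => by
    simp only [σ]; rw [if_neg hx]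
  refine ⟨R, d, δ, ctr, V, σ, N, hrad, hdis, ?_, hN, ?_, ?_, ?_⟩
  · intro a ha
    have h1 := hctr1 a ha
    have h2 := hctr3 a ha
    omega
  · have : {x | σ x} = ({x | Zc x} ∩ {x | Q ((δ x)⁻¹) = 1}) ∪ ({x | Zc x}ᶜ ∩ {x | σ0 x}) := by
      ext x
      simp only [mem_ofPred_eq, mem_union, mem_inter_iff, mem_compl_iff]
      by_cases hx : Zc x
      · rw [hσ1 x hx]
        exact ⟨fun h => Or.inl ⟨hx, h⟩, fun h => h.elim (fun h => h.2) (fun h => absurd hx h.1)⟩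
      · rw [hσ2 x hx]
        exact ⟨fun h => Or.inr ⟨hx, h⟩, fun h => h.elim (fun h => absurd h.1 hx) (fun h => h.2)⟩
    rw [this]
    exact (hZm.inter hQm).union (hZm.compl.inter hσ0m)
  · intro x
    by_cases hx : Zc x
    · rw [hσ1 x hx, hσ1 _ ((hZz x).mpr hx)]
      have h1 := hZd x hx
      have h2 := hZd _ ((hZz x).mpr hx)
      have h3 := hrad.coord z hzT x (by omega) (by omega)
      have h4 : (δ (z • x))⁻¹ = z * (δ x)⁻¹ := by
        rw [← h3]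
        group
      rw [h4, Qz]
      rcases Q1 ((δ x)⁻¹) with h | h <;> rw [h] <;> norm_num
    · rw [hσ2 x hx, hσ2 _ (fun h => hx ((hZz x).mp h))]
      exact hσ0 x
  · intro a ha _ _ _ x hx
    exact hσ1 x ⟨1, Subgroup.one_mem _, a, ha, by rwa [one_smul]⟩

end Run7.h916
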