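import Pool.Agent.Run7.h916.TorGlobal

set_option autoImplicit false
set_option linter.unusedSectionVars false
set_option linter.unusedVariables false

/-!
Blocks with a hub of finite order can be coloured.
-/

namespace Run7.h916

open Set Relation
open scoped Pointwise

universe u v w

variable {Γ : Type u} [Group Γ] {X : Type v} [MulAction Γ X]

theorem hc_ncard {K : Type w} {Q : K → ℝ} (hQ1 : ∀ x, Q x = 1 ∨ Q x = -1) (x : K) :
    {l | Hc Q x l}.ncard = 3 := by
  rcases hQ1 x with h | h
  · have : {l | Hc Q x l} = {((false, false) : Lt), ((false, true) : Lt), ((true, false) : Lt)} := by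
      ext ⟨i, j⟩
      cases i <;> cases j <;> simp [Hc, h]
      norm_num
    rw [this]
    refine Set.ncard_eq_three.mpr ⟨_, _, _, by simp, by simp, by simp, rfl⟩
  · have : {l | Hc Q x l} = {((false, false) : Lt), ((false, true) : Lt), ((true, true) : Lt)} := by
      ext ⟨i, j⟩
      cases i <;> cases j <;> simp [Hc, h]
      norm_num
    rw [this]
    refine Set.ncard_eq_three.mpr ⟨_, _, _, by simp, by simp, by simp, rfl⟩

theorem plc_unique {K : Type w} {Q : K → ℝ} {x : K} {l l' : Lt} (h : PLc Q x l)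
    (h' : PLc Q x l') : l = l' := by
  obtain ⟨i, j⟩ := l
  obtain ⟨i', j'⟩ := l'
  obtain ⟨h1, h2⟩ := h
  obtain ⟨h3, h4⟩ := h'
  simp only at h1 h3
  subst h1
  subst h3
  cases j <;> cases j' <;> simp at h2 h4 ⊢ <;> linarith

open Classical in
theorem exists_torNames [MeasurableSpace X] [StandardBorelSpace X] [Countable Γ]
    (hX : IsFreeBorel Γ X) {T : Set Γ} (hT : ∀ m ∈ T, m⁻¹ ∈ T) {B : Finset Γ}
    (hBT : ∀ s ∈ B, s ∈ T) (hB : ∀ s ∈ B, s⁻¹ ∈ B) {z : Γ} (hz : z ∈ B)
    (hne : ∀ s ∈ B, s ≠ z → s ≠ z⁻¹ → s ≠ s⁻¹)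
    {Q : Γ → ℝ} (Q1 : ∀ x, Q x = 1 ∨ Q x = -1)
    {R : ℕ} {d : X → ℕ} {δ : X → Γ} {ctr V : Γ → ℕ} {σ : X → Prop}
    {N : Γ → X → Lt → Prop} (hrad : Radial T R d δ)
    (hG : TorGlobal B z Q R d δ ctr V σ N)
    (hpc : ∀ c ∈ B, rep c = c → c ≠ z → c ≠ z⁻¹ → ParOK X c z) :
    ∃ nm, Names B {z, z⁻¹} X nm := by
  have hziB : z⁻¹ ∈ B := hB z hz
  set Lf : Γ → Prop := fun c => c ∈ B ∧ rep c = c ∧ c ≠ z ∧ c ≠ z⁻¹ with hLf
  have hLi : ∀ c, Lf c → c⁻¹ ≠ z ∧ c⁻¹ ≠ z⁻¹ := by
    rintro c ⟨_, _, h3, h4⟩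
    exact ⟨fun h => h4 (by rw [← h, inv_inv]), fun h => h3 (inv_injective h)⟩
  have hLne : ∀ c, Lf c → c ≠ c⁻¹ := fun c hc => hne c hc.1 hc.2.2.1 hc.2.2.2
  have hLlB : ∀ c, Lf c → ∀ l, lval (pr c z) l ∈ B := by
    rintro c hc ⟨i, j⟩
    cases i <;> cases j <;> simp [lval, pr, hc.1, hz, hB c hc.1, hB z hz]
  -- letters
  have hff : ∀ c, Lf c → ∀ l, l.1 = false → lval (pr c z) l ≠ z ∧ lval (pr c z) l ≠ z⁻¹ := by
    intro c hc l hl
    rcases lval_false (a := c) (b := z) hl with h | h <;> rw [h]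
    · exact ⟨hc.2.2.1, hc.2.2.2⟩
    · exact hLi c hc
  have hinjf : ∀ c, Lf c → ∀ l l', l.1 = false → lval (pr c z) l = lval (pr c z) l' → l = l' := by
    intro c hc l l' hl h
    by_cases hl' : l'.1 = false
    · have hcc := hLne c hc
      obtain ⟨i, j⟩ := l
      obtain ⟨i', j'⟩ := l'
      simp only at hl hl'
      subst hl
      subst hl'
      cases j <;> cases j' <;> simp [lval, pr] at h ⊢
      · exact hcc h
      · exact hcc h.symm
    · simp only [Bool.not_eq_false] at hl'
      have h1 := hff c hc l hl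
      rcases lval_true' (a := c) (b := z) hl' with h2 | h2 <;> rw [h2] at h
      · exact absurd h h1.1
      · exact absurd h h1.2
  have hHP : ∀ (k : Γ) (l : Lt), l.1 = true → Hc Q k l → PLc Q k l := by
    intro k l hl h
    refine ⟨hl, h.resolve_left ?_⟩
    rw [hl]
    decide
  have hPH : ∀ (k : Γ) (l : Lt), PLc Q k l → Hc Q k l := fun k l h => Or.inr h.2
  have hinjH : ∀ c, Lf c → ∀ (k : Γ) l l', Hc Q k l → Hc Q k l' →
      lval (pr c z) l = lval (pr c z) l' → l = l' := by
    intro c hc k l l' h1 h2 h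
    by_cases hl : l.1 = false
    · exact hinjf c hc l l' hl h
    · by_cases hl' : l'.1 = false
      · exact (hinjf c hc l' l hl' h.symm).symm
      · simp only [Bool.not_eq_false] at hl hl'
        exact plc_unique (hHP k l hl h1) (hHP k l' hl' h2)
  -- the sign
  have hσz : ∀ x, σ (z • x) ↔ ¬ σ x := hG.σz
  have hσzi : ∀ x, σ (z⁻¹ • x) ↔ ¬ σ x := by
    intro x
    have := hσz (z⁻¹ • x)
    rw [smul_inv_smul] at this
    tauto
  let β0 : X → Γ → Prop := fun x s => (s = z ∧ σ x) ∨ (s = z⁻¹ ∧ ¬ σ x)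
  have hβ0z : ∀ x s, β0 x s → s = z ∨ s = z⁻¹ := by
    rintro x s (⟨h, _⟩ | ⟨h, _⟩)
    · exact Or.inl h
    · exact Or.inr h
  have hβ0s : ∀ x s, β0 (s • x) s⁻¹ ↔ β0 x s := by
    intro x s
    constructor
    · rintro (⟨h1, h2⟩ | ⟨h1, h2⟩)
      · have hs : s = z⁻¹ := by rw [← h1, inv_inv]
        right
        refine ⟨hs, ?_⟩
        rw [hs, hσzi] at h2
        exact h2
      · have hs : s = z := inv_injective h1
        left
        refine ⟨hs, ?_⟩
        rw [hs, hσz] at h2
        exact not_not.mp h2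
    · rintro (⟨h1, h2⟩ | ⟨h1, h2⟩)
      · right
        rw [h1, hσz]
        exact ⟨rfl, not_not.mpr h2⟩
      · left
        rw [h1, hσzi, inv_inv]
        exact ⟨rfl, h2⟩
  have hPL : ∀ c x, Lf c → exc d (ctr c) x ≤ V c + 1 → ∀ s,
      ((∃ l, lval (pr c z) l = s ∧ PLc Q ((δ x)⁻¹) l) ↔ β0 x s) := by
    intro c x hc hx s
    have hσQ := hG.σQ c hc.1 hc.2.1 hc.2.2.1 hc.2.2.2 x hx
    constructor
    · rintro ⟨⟨i, j⟩, hl, h1, h2⟩
      simp only at h1
      subst h1
      cases j
      · left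
        refine ⟨?_, ?_⟩
        · rw [← hl]; simp [lval, pr]
        · rw [hσQ]
          simpa using h2
      · right
        refine ⟨?_, ?_⟩
        · rw [← hl]; simp [lval, pr]
        · rw [hσQ]
          intro h
          rw [h] at h2
          norm_num at h2
    · rintro (⟨h1, h2⟩ | ⟨h1, h2⟩)
      · refine ⟨(true, false), ?_, rfl, ?_⟩
        · rw [h1]; simp [lval, pr]
        · simpa using hσQ.mp h2
      · refine ⟨(true, true), ?_, rfl, ?_⟩
        · rw [h1]; simp [lval, pr]
        · have h3 : Q ((δ x)⁻¹) = -1 := (Q1 _).resolve_left (fun h => h2 (hσQ.mpr h))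
          rw [h3]
          norm_num
  -- the nested zones
  let nst : Γ → X → Prop := fun c x => Lf c ∧ exc d (ctr c) x ≤ V c
  have hzone : ∀ c, Lf c → TorZone z c Q d δ (ctr c) (V c) (N c) :=
    fun c hc => hG.zone c hc.1 hc.2.1 hc.2.2.1 hc.2.2.2
  have hnst_uniq : ∀ c c' x, nst c x → nst c' x → c = c' := by
    rintro c c' x ⟨h1, h2⟩ ⟨h3, h4⟩
    exact hG.dis c h1.1 c' h3.1 x (by omega) (by omega)
  have hnst_near : ∀ c x c', Lf c → exc d (ctr c) x ≤ V c + 1 → nst c' x → c' = c := by
    rintro c x c' h1 h2 ⟨h3, h4⟩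
    exact hG.dis c' h3.1 c h1.1 x (by omega) (by omega)
  let β : X → Γ → Prop := fun x s => (∃ c, nst c x ∧ ∃ l, lval (pr c z) l = s ∧ N c x l) ∨
    ((¬ ∃ c, nst c x) ∧ β0 x s)
  let hc : X → Γ := fun x => if h : ∃ c, nst c x then h.choose else 1
  have hhc : ∀ c x, nst c x → hc x = c := by
    intro c x h
    have h1 : ∃ c, nst c x := ⟨c, h⟩
    simp only [hc]
    rw [dif_pos h1]
    exact hnst_uniq _ _ x h1.choose_spec h
  have hβ2 : ∀ x, (¬ ∃ c, nst c x) → ∀ s, (β x s ↔ β0 x s) := by
    intro x hx s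
    constructor
    · rintro (⟨c, h, _⟩ | ⟨_, h⟩)
      · exact absurd ⟨c, h⟩ hx
      · exact h
    · intro h
      exact Or.inr ⟨hx, h⟩
  have hβ1 : ∀ c x, Lf c → exc d (ctr c) x ≤ V c + 1 → ∀ s,
      (β x s ↔ ∃ l, lval (pr c z) l = s ∧ N c x l) := by
    intro c x hcL hx s
    by_cases hn : nst c x
    · constructor
      · rintro (⟨c', h1, h2⟩ | ⟨h1, _⟩)
        · rw [hnst_uniq c c' x hn h1]
          exact h2
        · exact absurd ⟨c, hn⟩ h1
      · intro h
        exact Or.inl ⟨c, hn, h⟩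
    · have hno : ¬ ∃ c, nst c x := by
        rintro ⟨c', h⟩
        rw [hnst_near c x c' hcL hx h] at h
        exact hn h
      have hx' : exc d (ctr c) x = V c + 1 := by
        have : ¬ exc d (ctr c) x ≤ V c := fun h => hn ⟨hcL, h⟩
        omega
      rw [hβ2 x hno, ← hPL c x hcL hx]
      constructor
      · rintro ⟨l, h1, h2⟩
        exact ⟨l, h1, ((hzone c hcL).Nout x l hx').mpr h2⟩
      · rintro ⟨l, h1, h2⟩
        exact ⟨l, h1, ((hzone c hcL).Nout x l hx').mp h2⟩
  have hexc : ∀ (a s : Γ) (x : X), s ∈ T → exc d (ctr a) (s • x) ≤ exc d (ctr a) x + 1 ∧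
      exc d (ctr a) x ≤ exc d (ctr a) (s • x) + 1 := by
    intro a s x hs
    have := exc_step hrad hT (ctr a) hs x
    exact ⟨this.1, this.2.1⟩
  have hβs : ∀ x s, s ∈ T → (β (s • x) s⁻¹ ↔ β x s) := by
    intro x s hs
    by_cases h : ∃ c, nst c x ∨ nst c (s • x)
    · obtain ⟨c, h⟩ := h
      have hcL : Lf c := by
        rcases h with h | h
        · exact h.1
        · exact h.1
      have h1 := hexc c s x hs
      have h2 : exc d (ctr c) x ≤ V c + 1 ∧ exc d (ctr c) (s • x) ≤ V c + 1 := by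
        rcases h with h | h
        · have := h.2
          omega
        · have := h.2
          omega
      rw [hβ1 c x hcL h2.1, hβ1 c _ hcL h2.2]
      refine sym_exists fun l hl => ?_
      rw [← hl]
      exact (hzone c hcL).Nsymm x l h2.1
    · push Not at h
      rw [hβ2 x (fun ⟨c, h'⟩ => (h c).1 h'), hβ2 (s • x) (fun ⟨c, h'⟩ => (h c).2 h')]
      exact hβ0s x s
  have hββ0 : ∀ x s, β x s → (s = z ∨ s = z⁻¹) → β0 x s := by
    rintro x s (⟨c, h1, l, h2, h3⟩ | ⟨_, h⟩) hs
    · have hx : exc d (ctr c) x ≤ V c + 1 := by have := h1.2; omega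
      rw [← hPL c x h1.1 hx]
      by_cases hl : l.1 = false
      · have h4 := hff c h1.1 l hl
        rw [h2] at h4
        rcases hs with h5 | h5
        · exact absurd h5 h4.1
        · exact absurd h5 h4.2
      · simp only [Bool.not_eq_false] at hl
        exact ⟨l, h2, hHP _ l hl ((hzone c h1.1).Nsub x l hx h3)⟩
    · exact h
  -- the names
  let nm : X → Γ → Γ := fun x s => if β x s then z else if β0 x s then hc x else
    if s = z ∨ s = z⁻¹ then z⁻¹ else rep s
  have hn1 : ∀ x s, β x s → nm x s = z := fun x s h => by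
    simp only [nm]; rw [if_pos h]
  have hn2 : ∀ x s, ¬ β x s → β0 x s → ∃ c, nst c x ∧ nm x s = c := by
    intro x s h1 h2
    have h3 : ∃ c, nst c x := by
      by_contra hno
      exact h1 ((hβ2 x hno s).mpr h2)
    obtain ⟨c, h3⟩ := h3
    refine ⟨c, h3, ?_⟩
    simp only [nm]
    rw [if_neg h1, if_pos h2]
    exact hhc c x h3
  have hn3 : ∀ x s, ¬ β x s → ¬ β0 x s → (s = z ∨ s = z⁻¹) → nm x s = z⁻¹ := by
    intro x s h1 h2 h3
    simp only [nm]
    rw [if_neg h1, if_neg h2, if_pos h3]
  have hn4 : ∀ x s, ¬ β x s → ¬ β0 x s → ¬ (s = z ∨ s = z⁻¹) → nm x s = rep s := by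
    intro x s h1 h2 h3
    simp only [nm]
    rw [if_neg h1, if_neg h2, if_neg h3]
  have hrB : ∀ s ∈ B, rep s ∈ B := by
    intro s hs
    rcases rep_eq s with h | h
    · rw [h]; exact hs
    · rw [h]; exact hB s hs
  have hrepc : ∀ c, Lf c → ∀ s, rep s = c → s = c ∨ s = c⁻¹ := by
    intro c hc s h
    rcases rep_eq s with h1 | h1
    · left
      rw [← h, h1]
    · right
      rw [← h, h1, inv_inv]
  have hrepz : ∀ s, (rep s = z ∨ rep s = z⁻¹) → s = z ∨ s = z⁻¹ := by
    intro s h
    rcases rep_eq s with h1 | h1 <;> rw [h1] at h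
    · exact h
    · rcases h with h | h
      · right; rw [← h, inv_inv]
      · left; exact inv_injective h
  have hcz : ∀ x s, nm x s = z ↔ β x s := by
    intro x s
    refine ⟨fun h => ?_, hn1 x s⟩
    by_contra h1
    by_cases h2 : β0 x s
    · obtain ⟨c, h3, h4⟩ := hn2 x s h1 h2
      rw [h] at h4
      exact h3.1.2.2.1 h4.symm
    · by_cases h3 : s = z ∨ s = z⁻¹
      · have h4 := hn3 x s h1 h2 h3
        rw [h] at h4
        apply h2
        by_cases h5 : σ x
        · left
          refine ⟨?_, h5⟩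
          rcases h3 with h3 | h3
          · exact h3
          · rw [h3, ← h4]
        · right
          refine ⟨?_, h5⟩
          rcases h3 with h3 | h3
          · rw [h3, ← h4]
          · exact h3
      · have h4 := hn4 x s h1 h2 h3
        rw [h] at h4
        exact h3 (hrepz s (Or.inl h4.symm))
  have hczi : z⁻¹ ≠ z → ∀ x s, nm x s = z⁻¹ ↔ (s = z ∨ s = z⁻¹) ∧ ¬ β0 x s := by
    intro hzz x s
    constructor
    · intro h
      have h1 : ¬ β x s := by
        intro h1
        rw [hn1 x s h1] at h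
        exact hzz h.symm
      by_cases h2 : β0 x s
      · obtain ⟨c, h3, h4⟩ := hn2 x s h1 h2
        rw [h] at h4
        exact absurd h4.symm h3.1.2.2.2
      · refine ⟨?_, h2⟩
        by_contra h3
        have h4 := hn4 x s h1 h2 h3
        rw [h] at h4
        exact h3 (hrepz s (Or.inr h4.symm))
    · rintro ⟨h1, h2⟩
      exact hn3 x s (fun h => h2 (hββ0 x s h h1)) h2 h1
  have hcL1 : ∀ c x, nst c x → ∀ s, (nm x s = c ↔ ∃ l, lval (pr c z) l = s ∧
      (Hc Q ((δ x)⁻¹) l ∧ ¬ N c x l)) := by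
    intro c x hcx s
    have hcL := hcx.1
    have hx : exc d (ctr c) x ≤ V c + 1 := by have := hcx.2; omega
    have hb := hβ1 c x hcL hx s
    constructor
    · intro h
      have h1 : ¬ β x s := by
        intro h1
        rw [hn1 x s h1] at h
        exact hcL.2.2.1 h.symm
      by_cases h2 : β0 x s
      · obtain ⟨l, h3, h4⟩ := (hPL c x hcL hx s).mpr h2
        exact ⟨l, h3, hPH _ l h4, fun h5 => h1 (hb.mpr ⟨l, h3, h5⟩)⟩
      · by_cases h3 : s = z ∨ s = z⁻¹
        · have h4 := hn3 x s h1 h2 h3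
          rw [h] at h4
          exact absurd h4 hcL.2.2.2
        · have h4 := hn4 x s h1 h2 h3
          rw [h] at h4
          rcases hrepc c hcL s h4.symm with h5 | h5
          · have h6 : lval (pr c z) (false, false) = s := by rw [h5]; simp [lval, pr]
            exact ⟨(false, false), h6, Or.inl rfl, fun h7 => h1 (hb.mpr ⟨_, h6, h7⟩)⟩
          · have h6 : lval (pr c z) (false, true) = s := by rw [h5]; simp [lval, pr]
            exact ⟨(false, true), h6, Or.inl rfl, fun h7 => h1 (hb.mpr ⟨_, h6, h7⟩)⟩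
    · rintro ⟨l, h1, h2, h3⟩
      have h4 : ¬ β x s := by
        intro h5
        obtain ⟨l', h6, h7⟩ := hb.mp h5
        have h8 := (hzone c hcL).Nsub x l' hx h7
        have := hinjH c hcL _ l' l h8 h2 (h6.trans h1.symm)
        rw [this] at h7
        exact h3 h7
      by_cases hl : l.1 = false
      · have h5 := hff c hcL l hl
        rw [h1] at h5
        have h6 : ¬ (s = z ∨ s = z⁻¹) := by
          rintro (h | h)
          · exact h5.1 h
          · exact h5.2 h
        rw [hn4 x s h4 (fun h => h6 (hβ0z x s h)) h6]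
        rcases lval_false (a := c) (b := z) hl with h7 | h7 <;> rw [h7] at h1
        · rw [← h1]; exact hcL.2.1
        · rw [← h1, rep_inv]; exact hcL.2.1
      · simp only [Bool.not_eq_false] at hl
        have h5 : β0 x s := (hPL c x hcL hx s).mp ⟨l, h1, hHP _ l hl h2⟩
        obtain ⟨c', h6, h7⟩ := hn2 x s h4 h5
        rw [h7]
        exact hnst_uniq c' c x h6 hcx
  have hcL2 : ∀ c x, Lf c → ¬ nst c x → ∀ s, (nm x s = c ↔ s = c ∨ s = c⁻¹) := by
    intro c x hcL hcx s
    constructor
    · intro h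
      have h1 : ¬ β x s := by
        intro h1
        rw [hn1 x s h1] at h
        exact hcL.2.2.1 h.symm
      have h2 : ¬ β0 x s := by
        intro h2
        obtain ⟨c', h3, h4⟩ := hn2 x s h1 h2
        rw [h] at h4
        rw [← h4] at h3
        exact hcx h3
      by_cases h3 : s = z ∨ s = z⁻¹
      · have h4 := hn3 x s h1 h2 h3
        rw [h] at h4
        exact absurd h4 hcL.2.2.2
      · have h4 := hn4 x s h1 h2 h3
        rw [h] at h4
        exact hrepc c hcL s h4.symm
    · intro h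
      have h3 : ¬ (s = z ∨ s = z⁻¹) := by
        have h5 := hLi c hcL
        rcases h with h | h <;> rw [h]
        · rintro (h6 | h6)
          · exact hcL.2.2.1 h6
          · exact hcL.2.2.2 h6
        · rintro (h6 | h6)
          · exact h5.1 h6
          · exact h5.2 h6
      have h1 : ¬ β x s := by
        rintro (⟨c', h5, l', h6, h7⟩ | ⟨_, h6⟩)
        · by_cases h8 : l'.1 = false
          · have h9 : c' = c := by
              rcases lval_false (a := c') (b := z) h8 with h10 | h10 <;> rw [h6] at h10 <;>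
                rcases h with h11 | h11
              · rw [← h10, h11]
              · have h12 : c' = c⁻¹ := by rw [← h10, h11]
                have h13 := h5.1.2.1
                rw [h12, rep_inv, hcL.2.1] at h13
                exact absurd h13 (hLne c hcL)
              · have h12 : c'⁻¹ = c := by rw [← h10, h11]
                have h13 := hcL.2.1
                rw [← h12, rep_inv, h5.1.2.1] at h13
                exact absurd h13 (hLne c' h5.1)
              · exact inv_injective (by rw [← h10, h11])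
            rw [h9] at h5
            exact hcx h5
          · simp only [Bool.not_eq_false] at h8
            rcases lval_true' (a := c') (b := z) h8 with h9 | h9 <;> rw [h6] at h9
            · exact h3 (Or.inl h9)
            · exact h3 (Or.inr h9)
        · exact h3 (hβ0z x s h6)
      rw [hn4 x s h1 (fun h' => h3 (hβ0z x s h')) h3]
      rcases h with h | h <;> rw [h]
      · exact hcL.2.1
      · rw [rep_inv]; exact hcL.2.1
  -- measurability
  have hem : ∀ m k, MeasurableSet {y | exc d m y ≤ k} := by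
    intro m k
    have : {y | exc d m y ≤ k} = ⋃ j : ℕ, {y | d y = j} ∩ {y | ((j : ℤ) - m).natAbs ≤ k} := by
      ext y
      simp only [mem_ofPred_eq, mem_iUnion, mem_inter_iff]
      constructor
      · intro h
        exact ⟨d y, rfl, h⟩
      · rintro ⟨j, rfl, h⟩
        exact h
    rw [this]
    exact MeasurableSet.iUnion fun j => (hrad.dm j).inter (MeasurableSet.const _)
  have hβ0m : ∀ s, MeasurableSet {x | β0 x s} := by
    intro s
    have : {x | β0 x s} = ({x : X | s = z} ∩ {x | σ x}) ∪ ({x : X | s = z⁻¹} ∩ {x | σ x}ᶜ) := by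
      ext x
      simp only [β0, mem_ofPred_eq, mem_union, mem_inter_iff, mem_compl_iff]
    rw [this]
    exact ((MeasurableSet.const _).inter hG.σm).union ((MeasurableSet.const _).inter hG.σm.compl)
  have hnm0 : ∀ c, MeasurableSet {x | nst c x} := by
    intro c
    exact (MeasurableSet.const _).inter (hem _ _)
  have hnoM : MeasurableSet {x | ∃ c, nst c x} := by
    have : {x | ∃ c, nst c x} = ⋃ c : Γ, {x | nst c x} := by
      ext x
      simp only [mem_ofPred_eq, mem_iUnion]
    rw [this]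
    exact MeasurableSet.iUnion hnm0
  have hβm : ∀ s, MeasurableSet {x | β x s} := by
    intro s
    have : {x | β x s} = (⋃ c : {c // Lf c}, {x | nst c x} ∩
        ⋃ l : Lt, {x | lval (pr (c : Γ) z) l = s} ∩ {x | N c x l}) ∪
        ({x | ∃ c, nst c x}ᶜ ∩ {x | β0 x s}) := by
      ext x
      simp only [β, mem_ofPred_eq, mem_iUnion, mem_inter_iff, mem_compl_iff, mem_union,
        Subtype.exists]
      constructor
      · rintro (⟨c, h1, l, h2, h3⟩ | ⟨h1, h2⟩)
        · exact Or.inl ⟨c, h1.1, h1, l, h2, h3⟩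
        · exact Or.inr ⟨h1, h2⟩
      · rintro (⟨c, _, h1, l, h2, h3⟩ | ⟨h1, h2⟩)
        · exact Or.inl ⟨c, h1, l, h2, h3⟩
        · exact Or.inr ⟨h1, h2⟩
    rw [this]
    have hNm : ∀ (c : {c // Lf c}) (l : Lt), MeasurableSet {x | N (c : Γ) x l} := by
      intro c l
      exact (hzone c c.2).Nmeas l
    exact (MeasurableSet.iUnion fun c : {c // Lf c} => (hnm0 (c : Γ)).inter
      (MeasurableSet.iUnion fun l => (MeasurableSet.const _).inter (hNm c l))).union
      (hnoM.compl.inter (hβ0m s))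
  have hhcm : ∀ c', MeasurableSet {x | hc x = c'} := by
    intro c'
    have : {x | hc x = c'} = {x | nst c' x} ∪ ({x | ∃ c, nst c x}ᶜ ∩ {x | (1 : Γ) = c'}) := by
      ext x
      simp only [mem_ofPred_eq, mem_union, mem_inter_iff, mem_compl_iff]
      constructor
      · intro h
        by_cases h1 : ∃ c, nst c x
        · left
          obtain ⟨c, h1⟩ := h1
          rw [hhc c x h1] at h
          rw [← h]
          exact h1
        · right
          refine ⟨h1, ?_⟩
          simp only [hc] at h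
          rw [dif_neg h1] at h
          exact h
      · rintro (h | ⟨h1, h2⟩)
        · exact hhc c' x h
        · simp only [hc]
          rw [dif_neg h1]
          exact h2
    rw [this]
    exact (hnm0 c').union (hnoM.compl.inter (MeasurableSet.const _))
  have hnms : ∀ x, ∀ s ∈ B, nm (s • x) s⁻¹ = nm x s := by
    intro x s hs
    have hsT := hBT s hs
    by_cases h1 : β x s
    · rw [hn1 x s h1, hn1 _ _ ((hβs x s hsT).mpr h1)]
    have h1' : ¬ β (s • x) s⁻¹ := fun h => h1 ((hβs x s hsT).mp h)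
    by_cases h2 : β0 x s
    · obtain ⟨c, h5, h6⟩ := hn2 x s h1 h2
      obtain ⟨c', h5', h6'⟩ := hn2 _ _ h1' ((hβ0s x s).mpr h2)
      rw [h6, h6']
      have h7 := (hexc c' s x hsT).2
      have h8 := h5'.2
      exact (hnst_near c' x c h5'.1 (by omega) h5).symm
    have h2' : ¬ β0 (s • x) s⁻¹ := fun h => h2 ((hβ0s x s).mp h)
    by_cases h3 : s = z ∨ s = z⁻¹
    · have h3' : s⁻¹ = z ∨ s⁻¹ = z⁻¹ := by
        rcases h3 with h3 | h3
        · right; rw [h3]
        · left; rw [h3, inv_inv]
      rw [hn3 x s h1 h2 h3, hn3 _ _ h1' h2' h3']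
    · have h3' : ¬ (s⁻¹ = z ∨ s⁻¹ = z⁻¹) := by
        rintro (h | h)
        · exact h3 (Or.inr (by rw [← h, inv_inv]))
        · exact h3 (Or.inl (inv_injective h))
      rw [hn4 x s h1 h2 h3, hn4 _ _ h1' h2' h3', rep_inv]
  have hβB : ∀ x s, β x s → s ∈ B := by
    rintro x s (⟨c, h1, l, h2, _⟩ | ⟨_, h⟩)
    · rw [← h2]; exact hLlB c h1.1 l
    · rcases hβ0z x s h with h | h <;> rw [h]
      · exact hz
      · exact hziB
  have honez : ∀ x, {s | s ∈ B ∧ nm x s = z}.ncard = 1 := by
    intro x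
    have h0 : {s | s ∈ B ∧ nm x s = z} = {s | β x s} := by
      ext s
      simp only [mem_ofPred_eq, hcz]
      exact ⟨fun h => h.2, fun h => ⟨hβB x s h, h⟩⟩
    rw [h0]
    by_cases hn : ∃ c, nst c x
    · obtain ⟨c, hcx⟩ := hn
      obtain ⟨l0, hl0⟩ := Set.ncard_eq_one.mp ((hzone c hcx.1).Ncard x)
      have hN : ∀ l, N c x l ↔ l = l0 := fun l => Set.ext_iff.mp hl0 l
      rw [Set.ncard_eq_one]
      refine ⟨lval (pr c z) l0, ?_⟩
      ext s
      simp only [mem_ofPred_eq, mem_singleton_iff]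
      rw [hβ1 c x hcx.1 (by have := hcx.2; omega)]
      constructor
      · rintro ⟨l, h1, h2⟩
        rw [← h1, (hN l).mp h2]
      · intro h
        exact ⟨l0, h.symm, (hN l0).mpr rfl⟩
    · rw [Set.ncard_eq_one]
      by_cases h5 : σ x
      · refine ⟨z, ?_⟩
        ext s
        simp only [mem_ofPred_eq, mem_singleton_iff]
        rw [hβ2 x hn]
        constructor
        · rintro (⟨h, _⟩ | ⟨_, h⟩)
          · exact h
          · exact absurd h5 h
        · intro h
          exact Or.inl ⟨h, h5⟩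
      · refine ⟨z⁻¹, ?_⟩
        ext s
        simp only [mem_ofPred_eq, mem_singleton_iff]
        rw [hβ2 x hn]
        constructor
        · rintro (⟨_, h⟩ | ⟨h, _⟩)
          · exact absurd h h5
          · exact h
        · intro h
          exact Or.inr ⟨h, h5⟩
  refine ⟨nm, ?_, ?_, hnms, ?_, ?_, ?_, ?_⟩
  · intro s c
    have : {x | nm x s = c} = ({x | β x s} ∩ {x | z = c}) ∪ ({x | β x s}ᶜ ∩
        (({x | β0 x s} ∩ {x | hc x = c}) ∪ ({x | β0 x s}ᶜ ∩
        (({x | s = z ∨ s = z⁻¹} ∩ {x | z⁻¹ = c}) ∪ ({x | s = z ∨ s = z⁻¹}ᶜ ∩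
          {x | rep s = c}))))) := by
      ext x
      simp only [nm, mem_ofPred_eq, mem_union, mem_inter_iff, mem_compl_iff]
      by_cases h1 : β x s
      · simp [h1]
      · by_cases h2 : β0 x s
        · simp [h1, h2]
        · by_cases h3 : s = z ∨ s = z⁻¹
          · simp only [h1, h2, h3, if_false, if_true, false_and, not_false_eq_true,
              true_and, false_or, not_true_eq_false, or_false]
          · simp only [h1, h2, h3, if_false, false_and, not_false_eq_true,
              true_and, false_or]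
    rw [this]
    exact ((hβm s).inter (MeasurableSet.const _)).union ((hβm s).compl.inter
      (((hβ0m s).inter (hhcm c)).union ((hβ0m s).compl.inter
      (((MeasurableSet.const _).inter (MeasurableSet.const _)).union
        ((MeasurableSet.const _).compl.inter (MeasurableSet.const _))))))
  · intro x s hs
    by_cases h1 : β x s
    · rw [hn1 x s h1]
      exact ⟨hz, Or.inl (by simp)⟩
    by_cases h2 : β0 x s
    · obtain ⟨c, h5, h6⟩ := hn2 x s h1 h2
      rw [h6]
      exact ⟨h5.1.1, Or.inr h5.1.2.1⟩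
    by_cases h3 : s = z ∨ s = z⁻¹
    · rw [hn3 x s h1 h2 h3]
      exact ⟨hziB, Or.inl (by simp)⟩
    · rw [hn4 x s h1 h2 h3]
      exact ⟨hrB s hs, Or.inr (rep_rep s)⟩
  · intro x c hcB hc1
    rcases hc1 with rfl | hc1
    · exact honez x
    · rw [Set.mem_singleton_iff] at hc1
      subst hc1
      by_cases hzz : z⁻¹ = z
      · rw [hzz]
        exact honez x
      · have h0 : {s | s ∈ B ∧ nm x s = z⁻¹} = {s | (s = z ∨ s = z⁻¹) ∧ ¬ β0 x s} := by
          ext s
          simp only [mem_ofPred_eq]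
          rw [hczi hzz]
          constructor
          · exact fun h => h.2
          · intro h
            refine ⟨?_, h⟩
            rcases h.1 with h | h <;> rw [h]
            · exact hz
            · exact hziB
        rw [h0, Set.ncard_eq_one]
        by_cases h5 : σ x
        · refine ⟨z⁻¹, ?_⟩
          ext s
          simp only [mem_ofPred_eq, mem_singleton_iff]
          constructor
          · rintro ⟨h | h, h2⟩
            · exact absurd (Or.inl ⟨h, h5⟩) h2
            · exact h
          · intro h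
            refine ⟨Or.inr h, ?_⟩
            rintro (⟨h6, _⟩ | ⟨_, h6⟩)
            · exact hzz (h ▸ h6)
            · exact h6 h5
        · refine ⟨z, ?_⟩
          ext s
          simp only [mem_ofPred_eq, mem_singleton_iff]
          constructor
          · rintro ⟨h | h, h2⟩
            · exact h
            · exact absurd (Or.inr ⟨h, h5⟩) h2
          · intro h
            refine ⟨Or.inl h, ?_⟩
            rintro (⟨_, h6⟩ | ⟨h6, _⟩)
            · exact h5 h6
            · exact hzz (by rw [← h6, h])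
  · intro x c hcB hc1 hcr
    have hcL : Lf c := ⟨hcB, hcr, fun h => hc1 (by rw [h]; simp), fun h => hc1 (by rw [h]; simp)⟩
    by_cases hcx : nst c x
    · have hx : exc d (ctr c) x ≤ V c + 1 := by have := hcx.2; omega
      have h0 : {s | s ∈ B ∧ nm x s = c} =
          lval (pr c z) '' {l | Hc Q ((δ x)⁻¹) l ∧ ¬ N c x l} := by
        ext s
        simp only [mem_ofPred_eq, mem_image]
        rw [hcL1 c x hcx]
        constructor
        · rintro ⟨_, l, h1, h2⟩
          exact ⟨l, h2, h1⟩
        · rintro ⟨l, h2, h1⟩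
          exact ⟨by rw [← h1]; exact hLlB c hcL l, l, h1, h2⟩
      have h1 : {l | Hc Q ((δ x)⁻¹) l ∧ ¬ N c x l} =
          {l | Hc Q ((δ x)⁻¹) l} \ {l | N c x l} := by
        ext l
        simp only [mem_ofPred_eq, mem_sdiff]
      have h3 : {l | N c x l} ⊆ {l | Hc Q ((δ x)⁻¹) l} :=
        fun l hl => (hzone c hcL).Nsub x l hx hl
      rw [h0, Set.ncard_image_of_injOn (fun l hl l' hl' h => hinjH c hcL _ l l' hl.1 hl'.1 h), h1,
        Set.ncard_sdiff h3, hc_ncard Q1, (hzone c hcL).Ncard x]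
    · have : {s | s ∈ B ∧ nm x s = c} = {c, c⁻¹} := by
        ext s
        simp only [mem_ofPred_eq, mem_insert_iff, mem_singleton_iff]
        rw [hcL2 c x hcL hcx]
        constructor
        · exact fun h => h.2
        · intro h
          refine ⟨?_, h⟩
          rcases h with h | h <;> rw [h]
          · exact hcB
          · exact hB _ hcB
      rw [this, Set.ncard_pair (hLne c hcL)]
  · intro c hcB hc1 hcr x
    have hcL : Lf c := ⟨hcB, hcr, fun h => hc1 (by rw [h]; simp), fun h => hc1 (by rw [h]; simp)⟩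
    set val : B → Γ := fun s : B => (s : Γ) with hval
    set E : X → B → Prop := fun x (s : B) => nm x s = c with hE
    by_cases h : ∃ u, EConn val E x u ∧ d u = ctr c
    · obtain ⟨u, hxu, hu⟩ := h
      obtain ⟨h1, h2⟩ := (hzone c hcL).core u hu
      have hEs : ∀ x (i : B), E x i → E (val i • x) ⟨(i : Γ)⁻¹, hB i i.2⟩ := by
        intro x i hi
        have hi' : nm x i = c := hi
        change nm ((i : Γ) • x) (i : Γ)⁻¹ = c
        rw [hnms x i i.2]
        exact hi'
      have hux : EConn val E u x := hxu.symm (inv := fun i : B => ⟨(i : Γ)⁻¹, hB i i.2⟩)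
        (fun i => rfl) hEs
      refine h1.subset fun w hw => ?_
      have hw' : EConn val E u w := hux.trans hw
      clear hw
      change EConn (lval (pr c z)) (fun x l => Hc Q ((δ x)⁻¹) l ∧ ¬ N c x l) u w
      induction hw' with
      | refl => exact ReflTransGen.refl
      | @tail a b ha hb ih =>
        obtain ⟨i, hi, rfl⟩ := hb
        have h3 := h2 a ih
        obtain ⟨l, h4, h5⟩ := (hcL1 c a ⟨hcL, h3⟩ i).mp hi
        exact ReflTransGen.tail ih ⟨l, h5, by rw [h4]⟩
    · push Not at h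
      obtain ⟨h1, h2⟩ := hG.ctr1 c hcB
      exact side_finite hT (fun i : B => hBT i i.2) hrad h1 h2 h
  · intro c hcB hc1 hcr o
    have hcL : Lf c := ⟨hcB, hcr, fun h => hc1 (by rw [h]; simp), fun h => hc1 (by rw [h]; simp)⟩
    obtain ⟨par, hp⟩ := hpc c hcB hcr hcL.2.2.1 hcL.2.2.2 o
    refine ⟨par, fun x hx s hs hns => ?_⟩
    obtain ⟨l, h1⟩ : ∃ l, lval (pr c z) l = s := by
      by_cases hcx : nst c x
      · obtain ⟨l, h1, _⟩ := (hcL1 c x hcx s).mp hns
        exact ⟨l, h1⟩
      · rcases (hcL2 c x hcL hcx s).mp hns with h | h <;> rw [h]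
        · exact ⟨(false, false), by simp [lval, pr]⟩
        · exact ⟨(false, true), by simp [lval, pr]⟩
    rw [← h1]
    exact hp x hx.exists_smul l

/-- **Blocks with a hub of finite order can be coloured**. -/
theorem tor_block [MeasurableSpace X] [StandardBorelSpace X] [Countable Γ]
    (hX : IsFreeBorel Γ X) {T : Set Γ} (hT1 : (1 : Γ) ∈ T) (hT : ∀ m ∈ T, m⁻¹ ∈ T)
    (hTfin : T.Finite) (hsep : SepAct T X) {B : Finset Γ} (hBT : ∀ s ∈ B, s ∈ T)
    (hB : ∀ s ∈ B, s⁻¹ ∈ B) {z : Γ} (hz : z ∈ B) (hzf : IsOfFinOrder z)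
    (hne : ∀ s ∈ B, s ≠ z → s ≠ z⁻¹ → s ≠ s⁻¹)
    {Q : Γ → ℝ} (Q1 : ∀ x, Q x = 1 ∨ Q x = -1) (Qz : ∀ x, Q (z * x) = - Q x)
    (htor : ∀ c ∈ B, rep c = c → c ≠ z → c ≠ z⁻¹ → HasTor X T z c Q)
    (hpc : ∀ c ∈ B, rep c = c → c ≠ z → c ≠ z⁻¹ → ParOK X c z) :
    BorelBlock (B : Set Γ) X := by
  obtain ⟨R, d, δ, ctr, V, σ, N, hrad, hG⟩ := exists_torGlobal hX hT1 hT hTfin hsep
    (hBT z hz) hzf Q1 Qz htor
  obtain ⟨nm, hnm⟩ := exists_torNames hX hT hBT hB hz hne Q1 hrad hG hpc
  refine block_of_names' hX hB (S1 := {z, z⁻¹}) ?_ ?_ hnm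
  · intro s hs h1
    exact hne s hs (fun h => h1 (by rw [h]; simp)) (fun h => h1 (by rw [h]; simp))
  · rintro s (rfl | rfl)
    · simp
    · simp

end Run7.h916
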