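import Pool.Agent.Run7.h916.GenBlocks

set_option autoImplicit false
set_option linter.unusedSectionVars false
set_option linter.unusedVariables false

/-!
Cubic graphs of a direction of infinite order and a direction of finite order: patterns and null
flows when the first direction lies in a torsion-free nilpotent subgroup normalized by the second.
-/

namespace Run7.h916

open Set
open scoped commutatorElement Pointwise

universe u v w

variable {G : Type u} [Group G] {g : Bool → G}

theorem hseq_memN (N : Subgroup G) {Wt w : List Lt} (ht : wval g Wt ∈ N) (hw : wval g w ∈ N)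
    (k : ℕ) : ∃ n ∈ (⊤ : Subgroup N).lowerCentralSeries k, (n : G) = wval g (hseq Wt w k) := by
  induction k with
  | zero => exact ⟨⟨_, hw⟩, by simp, rfl⟩
  | succ k ih =>
    obtain ⟨n, hn, e⟩ := ih
    refine ⟨⁅n⁻¹, ⟨wval g Wt, ht⟩⁆,
      Subgroup.commutator_mem_commutator (inv_mem hn) (Subgroup.mem_top _), ?_⟩
    rw [wval_hseq_succ, ← e]
    rfl

theorem hseq_oneN (N : Subgroup G) [Group.IsNilpotent N] {Wt w : List Lt} (ht : wval g Wt ∈ N)
    (hw : wval g w ∈ N) : ∃ n, wval g (hseq Wt w n) = 1 := by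
  obtain ⟨c, hc⟩ := Subgroup.nilpotent_iff_lowerCentralSeries.mp
    (inferInstance : Group.IsNilpotent N)
  obtain ⟨n, hn, e⟩ := hseq_memN N ht hw c
  rw [hc, Subgroup.mem_bot] at hn
  exact ⟨c, by rw [← e, hn]; rfl⟩

/-- The crossing lemma for words whose iterated commutators are eventually trivial. -/
theorem nullH_crossingN {H : G → Lt → Prop} (hH : SymmE g H) {Z : G → Prop} {Wt w : List Lt}
    (hone : ∃ n, wval g (Run7.h916.hseq Wt w n) = 1)
    {a : G → ℝ} {C : ℝ} (hC : 0 ≤ C) (ha : ∀ x, |a x| ≤ C) (haZ : ∀ x, a x ≠ 0 → Z x)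
    (hLt : Loop g H Z Wt) (hLw : Loop g H Z w)
    (hh : ∀ x, a (wval g w * x) = a x) (ht : ∀ x, a (wval g Wt * x) = - a x) :
    NullH g H (conv g a w) := by
  obtain ⟨n, h1⟩ := hone
  refine ⟨[(fun x => (-1 / 2) ^ n * a x, Run7.h916.hseq Wt w n)], C, hC, ?_, ?_⟩
  · intro p hp
    simp only [List.mem_singleton] at hp
    subst hp
    refine ⟨h1, fun x => ?_, fun x hx => ?_⟩
    · simp only
      rw [abs_mul, abs_pow]
      have : |(-1 / 2 : ℝ)| ^ n ≤ 1 := by
        apply pow_le_one₀ (abs_nonneg _)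
        rw [abs_le]; constructor <;> norm_num
      have h0 := abs_nonneg (a x)
      have := ha x
      nlinarith [abs_nonneg (a x)]
    · have hax : a x ≠ 0 := fun h => hx (by simp only; rw [h, mul_zero])
      exact (Loop.hseq hH hLt hLw n).adm x (haZ x hax)
  · intro y s
    simp only [List.map_cons, List.map_nil, List.sum_cons, List.sum_nil, add_zero]
    exact conv_hseq' hh ht n y s

theorem per_comm {v w : G} (hcomm : Commute v w) {F Q : G → ℝ}
    (hF1 : ∀ x, F x = 1 ∨ F x = -1) (hQ1 : ∀ x, Q x = 1 ∨ Q x = -1)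
    (hFv : ∀ x, F (v * x) = - F x) (hFw : ∀ x, F (w * x) = F x)
    (hQv : ∀ x, Q (v * x) = Q x) (hQw : ∀ x, Q (w * x) = - Q x) :
    ∃ N, 1 ≤ N ∧ ∀ x, (fun x => pst w Q (pst v F x))^[N] x = x := by
  refine ⟨2, by norm_num, ?_⟩
  · intro x
    have hc : v * w = w * v := hcomm.eq
    simp only [Function.iterate_succ, Function.iterate_zero, Function.comp, id]
    set y := pst (v) F x with hy
    have hQy : Q y = Q x := pst_mem hQv x
    have hFy : F y = - F x := pst_neg hFv x
    set z := pst w Q y with hz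
    have hFz : F z = - F x := by rw [hz, pst_mem hFw y, hFy]
    have hQz : Q z = - Q x := by rw [hz, pst_neg hQw y, hQy]
    set t := pst (v) F z with ht
    have hQt : Q t = - Q x := by rw [ht, pst_mem hQv z, hQz]
    have hci : ∀ a : G, v⁻¹ * (w * a) = w * (v⁻¹ * a) := by
      intro a
      rw [inv_mul_eq_iff_eq_mul, ← mul_assoc (v) w, hc, mul_assoc w, mul_inv_cancel_left]
    have hci2 : ∀ a : G, v * (w * a) = w * (v * a) := by
      intro a
      rw [← mul_assoc, hc, mul_assoc]
    have hci3 : ∀ a : G, v * (w⁻¹ * a) = w⁻¹ * (v * a) := by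
      intro a
      rw [eq_inv_mul_iff_mul_eq, ← hci2, mul_inv_cancel_left]
    have hci4 : ∀ a : G, v⁻¹ * (w⁻¹ * a) = w⁻¹ * (v⁻¹ * a) := by
      intro a
      rw [eq_inv_mul_iff_mul_eq, ← hci, mul_inv_cancel_left]
    unfold pst at *
    rcases hF1 x with h1 | h1 <;> rcases hQ1 x with h2 | h2
    · rw [if_pos h1] at hy
      rw [hQy, if_pos h2] at hz
      rw [hFz, h1, if_neg (by norm_num)] at ht
      rw [hQt, h2, if_neg (by norm_num), ht, hz, hy, hci, inv_mul_cancel_left,
        inv_mul_cancel_left]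
    · rw [if_pos h1] at hy
      rw [hQy, h2, if_neg (by norm_num)] at hz
      rw [hFz, h1, if_neg (by norm_num)] at ht
      rw [hQt, h2, if_pos (by norm_num), ht, hz, hy, hci4, inv_mul_cancel_left,
        mul_inv_cancel_left]
    · rw [h1, if_neg (by norm_num)] at hy
      rw [hQy, if_pos h2] at hz
      rw [hFz, h1, if_pos (by norm_num)] at ht
      rw [hQt, h2, if_neg (by norm_num), ht, hz, hy, hci2, inv_mul_cancel_left,
        mul_inv_cancel_left]
    · rw [h1, if_neg (by norm_num)] at hy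
      rw [hQy, h2, if_neg (by norm_num)] at hz
      rw [hFz, h1, if_pos (by norm_num)] at ht
      rw [hQt, h2, if_pos (by norm_num), ht, hz, hy, hci3, mul_inv_cancel_left,
        mul_inv_cancel_left]

theorem isPatH_baseN (N : Subgroup G) [Group.IsNilpotent N] (hvN : g false ∈ N) {Ww : List Lt}
    {w : G} (hwN : w ∈ N) (hw : wval g Ww = w)
    (hcomm : Commute (g false) w) {E F Q : G → ℝ} (hE1 : ∀ x, |E x| ≤ 1)
    (hEv : ∀ x, E (g false * x) = - E x) (hEw : ∀ x, E (w * x) = - E x)
    (hF1 : ∀ x, F x = 1 ∨ F x = -1) (hQ1 : ∀ x, Q x = 1 ∨ Q x = -1)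
    (hFv : ∀ x, F (g false * x) = - F x) (hFw : ∀ x, F (w * x) = F x)
    (hQv : ∀ x, Q (g false * x) = Q x) (hQw : ∀ x, Q (w * x) = - Q x) :
    IsPatH g Ww w E F Q := by
  refine ⟨hF1, hQ1, hFv, hQv, hQw,
    per_comm hcomm hF1 hQ1 hFv hFw hQv hQw, ?_⟩
  rintro H hH Z hZv hZw χ ⟨C, hC, hχ⟩ hχZ hχv hχw
  refine nullH_crossingN hH (Z := Z) (Wt := Ww) (C := C) (hseq_oneN N (by rw [hw]; exact hwN)
    (by simpa [lval] using hvN)) hC ?_ ?_ hZw hZv ?_ ?_
  · intro x
    rw [abs_mul, abs_mul]
    have h1 : |F x| = 1 := by rcases hF1 x with h | h <;> rw [h] <;> norm_num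
    rw [h1, one_mul]
    have := hχ x
    have := hE1 x
    nlinarith [abs_nonneg (χ x), abs_nonneg (E x)]
  · intro x hx
    exact hχZ x (fun h => hx (by rw [h, zero_mul]))
  · intro x
    have e : wval g [(false, false)] = g false := by simp [lval]
    rw [e, hχv, hFv, hEv]
    ring
  · intro x
    rw [hw, hχw, hFw, hEw]
    ring

theorem isPatH_stepN (N0 : Subgroup G) [Group.IsNilpotent N0] (hvN : g false ∈ N0)
    {Ww Ww' : List Lt} {w : G} (hwN : w * g false * w⁻¹ ∈ N0) (hw : wval g Ww = w)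
    {E F' Q' Q : G → ℝ} (hE1 : ∀ x, |E x| ≤ 1)
    (hEv : ∀ x, E (g false * x) = - E x) (hEw : ∀ x, E (w * x) = - E x)
    (hWw' : Ww' = Ww ++ ([(false, false)] ++ winv Ww))
    (hP : IsPatH g Ww' (w⁻¹ * g false * w) E F' Q')
    (hQ1 : ∀ x, Q x = 1 ∨ Q x = -1)
    (hQv : ∀ x, Q (g false * x) = Q x) (hQw : ∀ x, Q (w * x) = - Q x) :
    IsPatH g Ww w E (Fst w F' Q' Q) Q := by
  classical
  set v := g false with hv
  set w' := w⁻¹ * v * w with hw'
  set F : G → ℝ := Fst w F' Q' Q with hFdef
  have hFp : ∀ x, Q x = 1 → F x = F' x := fun x h => by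
    simp only [hFdef, Fst]; rw [if_pos h]
  have hFn : ∀ x, Q x = -1 → F x = Q' (w⁻¹ * x) := fun x h => by
    simp only [hFdef, Fst]; rw [if_neg (by rw [h]; norm_num)]
  have hQwi : ∀ x, Q (w⁻¹ * x) = - Q x := by
    intro x
    have := hQw (w⁻¹ * x)
    rw [mul_inv_cancel_left] at this
    linarith
  have hQw' : ∀ x, Q (w' * x) = Q x := by
    intro x
    rw [hw', mul_assoc, mul_assoc, hQwi, hQv, hQw]
    ring
  have hEwi : ∀ x, E (w⁻¹ * x) = - E x := by
    intro x
    have := hEw (w⁻¹ * x)
    rw [mul_inv_cancel_left] at this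
    linarith
  have hconj : ∀ x, w⁻¹ * (v * x) = w' * (w⁻¹ * x) := by
    intro x
    rw [hw']; group
  have hconji : ∀ x, w⁻¹ * (v⁻¹ * x) = w'⁻¹ * (w⁻¹ * x) := by
    intro x
    rw [hw']; group
  have hF1 : ∀ x, F x = 1 ∨ F x = -1 := by
    intro x
    simp only [hFdef, Fst]
    split_ifs
    · exact hP.F1 x
    · exact hP.Q1 _
  have hFv : ∀ x, F (v * x) = - F x := by
    intro x
    rcases hQ1 x with h | h
    · rw [hFp x h, hFp _ (by rw [hQv, h])]
      exact hP.Fv x
    · rw [hFn x h, hFn _ (by rw [hQv, h]), hconj]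
      exact hP.Qw _
  refine ⟨hF1, hQ1, hFv, hQv, hQw, ?_, ?_⟩
  · obtain ⟨N, hN, hper⟩ := hP.per
    refine ⟨2 * N, by omega, ?_⟩
    set σ : G → G := fun x => pst w Q (pst v F x) with hσ
    set σ' : G → G := fun x => pst w' Q' (pst v F' x) with hσ'
    have hσσ : ∀ x, Q x = 1 → σ (σ x) = σ' x := by
      intro x hx
      have e1 : pst v F x = pst v F' x := by unfold pst; rw [hFp x hx]
      set y := pst v F' x with hy
      have hQy : Q y = 1 := by rw [hy, pst_mem hQv x, hx]
      have e2 : σ x = w * y := by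
        simp only [hσ]
        rw [e1]
        unfold pst
        rw [if_pos hQy]
      have hQwy : Q (w * y) = -1 := by rw [hQw, hQy]
      have e3 : pst v F (w * y) = w * pst w' Q' y := by
        unfold pst
        rw [hFn _ hQwy, inv_mul_cancel_left]
        split_ifs
        · rw [hw']; group
        · rw [hw']; group
      have hQ3 : Q (w * pst w' Q' y) = -1 := by
        rw [hQw, pst_mem hQw' y, hQy]
      rw [e2]
      simp only [hσ, hσ']
      rw [e3]
      have : ¬ Q (w * pst w' Q' y) = 1 := by rw [hQ3]; norm_num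
      have e4 : pst w Q (w * pst w' Q' y) = w⁻¹ * (w * pst w' Q' y) := by
        conv_lhs => unfold pst
        rw [if_neg]
        · rfl
        · exact this
      rw [e4, inv_mul_cancel_left]
    have hQσ' : ∀ x, Q (σ' x) = Q x := by
      intro x
      simp only [hσ']
      rw [pst_mem hQw', pst_mem hQv]
    have hit : ∀ n x, Q x = 1 → σ^[2 * n] x = σ'^[n] x := by
      intro n
      induction n with
      | zero => intro x _; rfl
      | succ n ih =>
        intro x hx
        have : 2 * (n + 1) = 2 * n + 1 + 1 := by ring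
        rw [this, Function.iterate_succ_apply, Function.iterate_succ_apply, hσσ x hx,
          Function.iterate_succ_apply, ih _ (by rw [hQσ', hx])]
    have hinj : Function.Injective σ := by
      intro x y hxy
      simp only [hσ] at hxy
      have h1 := congrArg (pst w Q) hxy
      rw [pst_pst hQ1 hQw, pst_pst hQ1 hQw] at h1
      have h2 := congrArg (pst v F) h1
      rwa [pst_pst hF1 hFv, pst_pst hF1 hFv] at h2
    intro x
    rcases hQ1 x with h | h
    · rw [hit N x h, hper x]
    · apply hinj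
      have hQs : Q (σ x) = 1 := by
        simp only [hσ]
        rw [pst_neg hQw, pst_mem hQv, h]
        norm_num
      rw [← Function.iterate_succ_apply' σ, Function.iterate_succ_apply, hit N _ hQs, hper]
  · rintro H hH Z hZv hZw χ ⟨C, hC, hχ⟩ hχZ hχv hχw
    simp only [← hv] at hχv
    have hχwi : ∀ x, χ (w⁻¹ * x) = χ x := by
      intro x
      rw [← hχw (w⁻¹ * x), mul_inv_cancel_left]
    have h1 := hP.null H hH Z hZv (by
        rw [hWw']
        exact hZw.append (hZv.append (hZw.winv hH)))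
        (fun x => if Q x = 1 then χ x else 0) ⟨C, hC, fun x => by
        split_ifs
        · exact hχ x
        · simpa using hC⟩ (fun x hx => hχZ x (fun h => hx (by simp [h])))
        (fun x => by simp only [← hv, hQv, hχv]) (fun x => by
          simp only [hQw']
          have : χ (w' * x) = χ x := by
            rw [hw', mul_assoc, mul_assoc, hχwi, hχv, hχw]
          rw [this])
    have h2 : NullH g H (conv g (fun x => if Q x = 1 then 0 else χ x * (Q' (w⁻¹ * x) * E x))
        [(false, false)]) := by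
      refine nullH_crossingN hH (Z := Z) (Wt := winv Ww ++ ([(false, false)] ++ Ww)) (C := C)
        (hseq_oneN N0 (by
          have e : wval g (winv Ww ++ ([(false, false)] ++ Ww)) = w * v * w⁻¹ := by
            rw [wval_append, wval_append, wval_winv, hw]
            simp [lval, hv]
          rw [e]
          exact hwN) (by simpa [lval] using hvN)) hC
        ?_ ?_ ((hZw.winv hH).append (hZv.append hZw)) hZv ?_ ?_
      · intro x
        split_ifs
        · simpa using hC
        · rw [abs_mul, abs_mul]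
          have h1 : |Q' (w⁻¹ * x)| = 1 := by
            rcases hP.Q1 (w⁻¹ * x) with h | h <;> rw [h] <;> norm_num
          rw [h1, one_mul]
          have := hχ x
          have := hE1 x
          nlinarith [abs_nonneg (χ x), abs_nonneg (E x)]
      · intro x hx
        refine hχZ x (fun h => hx ?_)
        simp [h]
      · intro x
        have e : wval g [(false, false)] = v := by simp [lval, hv]
        rw [e, hQv, hχv, hconj, hP.Qw, hEv]
        simp only [neg_mul_neg]
      · intro x
        have e : wval g (winv Ww ++ ([(false, false)] ++ Ww)) = w * v * w⁻¹ := by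
          rw [wval_append, wval_append, wval_winv, hw]
          simp [lval, hv]
        have hQt : Q (w * v * w⁻¹ * x) = Q x := by
          rw [mul_assoc, mul_assoc, hQw, hQv, hQwi]; ring
        have hχt : χ (w * v * w⁻¹ * x) = χ x := by
          rw [mul_assoc, mul_assoc, hχw, hχv, hχwi]
        have hQ't : Q' (w⁻¹ * (w * v * w⁻¹ * x)) = Q' (w⁻¹ * x) := by
          have : w⁻¹ * (w * v * w⁻¹ * x) = v * (w⁻¹ * x) := by group
          rw [this]
          exact hP.Qv _
        have hEt : E (w * v * w⁻¹ * x) = - E x := by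
          rw [mul_assoc, mul_assoc, hEw, hEv, hEwi]; ring
        rw [e, hQt, hχt, hQ't, hEt]
        split_ifs
        · ring
        · ring
    refine (h1.add h2).congr fun y s => ?_
    rw [← conv_add]
    apply conv_congr
    intro x _
    rcases hQ1 x with h | h
    · rw [if_pos h, if_pos h, hFp x h]; ring
    · have h' : ¬ Q x = 1 := by rw [h]; norm_num
      rw [if_neg h', if_neg h', hFn x h]; ring

theorem exists_signsN (N : Subgroup G) [Group.IsNilpotent N] (hTF : TF N) {v w : N}
    (hnc : ¬ IsCyclic (Subgroup.closure {v, w} : Subgroup N)) :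
    ∃ F Q : G → ℝ, (∀ x, F x = 1 ∨ F x = -1) ∧ (∀ x, Q x = 1 ∨ Q x = -1) ∧
      (∀ x, F ((v : G) * x) = - F x) ∧ (∀ x, F ((w : G) * x) = F x) ∧
      (∀ x, Q ((v : G) * x) = Q x) ∧ ∀ x, Q ((w : G) * x) = - Q x := by
  obtain ⟨φ, ψ, h1, h2, h3, h4⟩ := exists_homs_closure hTF hnc
  obtain ⟨F, hF1, hF2, hF3⟩ := exists_sign _ φ
  obtain ⟨Q, hQ1, hQ2, hQ3⟩ := exists_sign _ ψ
  obtain ⟨ρ, hρ⟩ := exists_coord N
  refine ⟨fun x => F (ρ x), fun x => Q (ρ x), fun x => hF1 _, fun x => hQ1 _, ?_, ?_, ?_, ?_⟩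
  · intro x
    simp only [hρ]
    exact hF3 _ _ h1
  · intro x
    simp only [hρ]
    exact hF2 _ _ h2
  · intro x
    simp only [hρ]
    exact hQ2 _ _ h3
  · intro x
    simp only [hρ]
    exact hQ3 _ _ h4

theorem exists_patternN (N : Subgroup G) [Group.IsNilpotent N] (hTF : TF N) {v : N}
    (hv : (v : G) = g false) {E : G → ℝ} (hE1 : ∀ x, |E x| ≤ 1)
    (hEv : ∀ x, E (g false * x) = - E x) {c : ℕ}
    (hc : (⊤ : Subgroup N).lowerCentralSeries c = ⊥) (n : ℕ) :
    ∀ (i : ℕ), i + n = c → ∀ (Ww : List Lt) (w : N), wval g Ww = (w : G) →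
      ⁅v, w⁆ ∈ (⊤ : Subgroup N).lowerCentralSeries i →
      ¬ IsCyclic (Subgroup.closure {v, w} : Subgroup N) →
      (∀ x, E ((w : G) * x) = - E x) → ∀ Q : G → ℝ, (∀ x, Q x = 1 ∨ Q x = -1) →
      (∀ x, Q (g false * x) = Q x) → (∀ x, Q ((w : G) * x) = - Q x) →
      ∃ F, IsPatH g Ww (w : G) E F Q := by
  have hvN : g false ∈ N := by rw [← hv]; exact v.2
  have hbase : ∀ (Ww : List Lt) (w : N), wval g Ww = (w : G) → Commute v w →
      ¬ IsCyclic (Subgroup.closure {v, w} : Subgroup N) →
      (∀ x, E ((w : G) * x) = - E x) → ∀ Q : G → ℝ, (∀ x, Q x = 1 ∨ Q x = -1) →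
      (∀ x, Q (g false * x) = Q x) → (∀ x, Q ((w : G) * x) = - Q x) →
      ∃ F, IsPatH g Ww (w : G) E F Q := by
    intro Ww w hw hcomm hnc hEw Q hQ1 hQv hQw
    obtain ⟨F, _, hF1, _, hFv, hFw, _, _⟩ := exists_signsN N hTF hnc
    rw [hv] at hFv
    have hcomm' : Commute (g false) (w : G) := by
      rw [← hv]
      have := congrArg (fun x : N => (x : G)) hcomm.eq
      exact this
    exact ⟨F, isPatH_baseN N hvN w.2 hw hcomm' hE1 hEv hEw hF1 hQ1 hFv hFw hQv hQw⟩
  induction n with
  | zero =>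
    intro i hi Ww w hw hcom hnc hEw Q hQ1 hQv hQw
    refine hbase Ww w hw ?_ hnc hEw Q hQ1 hQv hQw
    rw [show i = c by omega, hc, Subgroup.mem_bot, commutatorElement_eq_one_iff_commute] at hcom
    exact hcom
  | succ n ih =>
    intro i hi Ww w hw hcom hnc hEw Q hQ1 hQv hQw
    by_cases hcomm : Commute v w
    · exact hbase Ww w hw hcomm hnc hEw Q hQ1 hQv hQw
    · have hEwi : ∀ x, E ((w : G)⁻¹ * x) = - E x := by
        intro x
        have := hEw ((w : G)⁻¹ * x)
        rw [mul_inv_cancel_left] at this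
        linarith
      have hnc' := noncyclic_conj hTF hcomm
      obtain ⟨_, Q', _, hQ'1, _, _, hQ'v, hQ'w⟩ := exists_signsN N hTF hnc'
      rw [hv] at hQ'v
      have hcoe : ((w⁻¹ * v * w : N) : G) = (w : G)⁻¹ * g false * (w : G) := by
        rw [← hv]; rfl
      obtain ⟨F', hP⟩ := ih (i + 1) (by omega) (Ww ++ ([(false, false)] ++ winv Ww))
        (w⁻¹ * v * w) (by
          rw [wval_append, wval_append, wval_winv, hw, hcoe]
          simp [lval]) (comm_conj_mem hcom) hnc' (fun x => by
          rw [hcoe, mul_assoc, mul_assoc, hEwi, hEv, hEw]; ring) Q' hQ'1 hQ'v hQ'w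
      rw [hcoe] at hP
      exact ⟨_, isPatH_stepN N hvN (N.mul_mem (N.mul_mem w.2 hvN) (N.inv_mem w.2)) hw hE1 hEv hEw
        rfl hP hQ1 hQv hQw⟩

theorem isCyclic_map {M : Type v} [Group M] (φ : G →* M) (H : Subgroup G) (h : IsCyclic H) :
    IsCyclic (H.map φ) :=
  isCyclic_of_surjective (φ.subgroupMap H) (φ.subgroupMap_surjective H)

theorem noncyclic_sub (N : Subgroup G) {a b : G} (ha : a ∈ N) (hb : b ∈ N)
    (hnc : ¬ IsCyclic (Subgroup.closure {a, b} : Subgroup G)) :
    ¬ IsCyclic (Subgroup.closure {⟨a, ha⟩, ⟨b, hb⟩} : Subgroup N) := by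
  intro h
  apply hnc
  have h2 := isCyclic_map N.subtype _ h
  have h1 : (Subgroup.closure {⟨a, ha⟩, ⟨b, hb⟩} : Subgroup N).map N.subtype =
      Subgroup.closure {a, b} := by
    rw [MonoidHom.map_closure, Set.image_pair]
    rfl
  rwa [h1] at h2

theorem exists_cubicN (N0 : Subgroup G) [Group.IsNilpotent N0] (hTF : TF N0)
    (hvN : g false ∈ N0) (hz1 : ∀ n ∈ N0, g true * n * (g true)⁻¹ ∈ N0)
    (hz2 : ∀ n ∈ N0, (g true)⁻¹ * n * g true ∈ N0) {E Q : G → ℝ}
    (hE1 : ∀ x, E x = 1 ∨ E x = -1) (hEg : ∀ i x, E (g i * x) = - E x)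
    (hQ1 : ∀ x, Q x = 1 ∨ Q x = -1) (hQv : ∀ x, Q (g false * x) = Q x)
    (hQw : ∀ x, Q (g true * x) = - Q x)
    (hnc : ¬ IsCyclic (Subgroup.closure {g false, (g true)⁻¹ * g false * g true} : Subgroup G)) :
    ∃ F : G → ℝ, (∀ x, F x = 1 ∨ F x = -1) ∧ (∀ x, F (g false * x) = - F x) ∧
      (∃ N, 1 ≤ N ∧ ∀ x, (fun x => pst (g true) Q (pst (g false) F x))^[N] x = x) ∧
      NullH g (Hc Q) (conv g (fun x => F x * E x) [(false, false)]) := by
  classical
  have habs : ∀ x, |E x| ≤ 1 := by
    intro x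
    rcases hE1 x with h | h <;> rw [h] <;> norm_num
  have hEv := hEg false
  have hEw := hEg true
  have hH := Hc_symm (g := g) hQw
  have hQwi := odd_inv hQw
  have hEwi := odd_inv hEw
  have hQvi := even_inv hQv
  have ht : wval g [(true, false)] = g true := by simp [lval]
  have e0 : wval g [(false, false)] = g false := by simp [lval]
  have hwN : (g true)⁻¹ * g false * g true ∈ N0 := hz2 _ hvN
  have hnc' := noncyclic_sub N0 hvN hwN hnc
  obtain ⟨_, Q', _, hQ'1, _, _, hQ'v, hQ'w⟩ := exists_signsN N0 hTF hnc'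
  simp only at hQ'v hQ'w
  obtain ⟨c, hc⟩ := Subgroup.nilpotent_iff_lowerCentralSeries.mp (inferInstance :
    Group.IsNilpotent N0)
  obtain ⟨F', hP⟩ := exists_patternN (g := g) N0 hTF (v := ⟨g false, hvN⟩) rfl habs hEv hc
    c 0 (by omega) ([(true, false)] ++ ([(false, false)] ++ winv [(true, false)]))
    ⟨(g true)⁻¹ * g false * g true, hwN⟩ (by
      rw [wval_append, wval_append, wval_winv, ht]
      simp [lval]) (by simp) hnc' (fun x => by
      rw [mul_assoc, mul_assoc, hEwi, hEv, hEw]; ring) Q' hQ'1 hQ'v hQ'w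
  have hF := isPatH_stepN N0 hvN (hz1 _ hvN) (Q := Q) ht habs hEv hEw rfl hP hQ1 hQv hQw
  refine ⟨Fst (g true) F' Q' Q, hF.F1, hF.Fv, hF.per, ?_⟩
  have hLv : ∀ ε : ℝ, Loop g (Hc Q) (fun x => Q x = ε) [(false, false)] := by
    intro ε
    refine ⟨fun x _ => ⟨Or.inl rfl, trivial⟩, fun x => ?_⟩
    rw [e0, hQv]
  have hL1 : Loop g (Hc Q) (fun x => Q x = 1)
      ([(true, false)] ++ ([(false, false)] ++ winv [(true, false)])) := by
    refine ⟨fun x hx => ?_, fun x => ?_⟩
    · refine ⟨Or.inr ?_, Or.inl rfl, Or.inr ?_, trivial⟩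
      · simp [hx]
      · simp [linv, lval, hQv, hQw, hx]
    · have e : wval g ([(true, false)] ++ ([(false, false)] ++ winv [(true, false)])) =
          (g true)⁻¹ * (g false * g true) := by
        rw [wval_append, wval_append, wval_winv, ht]
        simp [lval, mul_assoc]
      rw [e]
      simp only [mul_assoc]
      rw [hQwi, hQv, hQw, neg_neg]
  have hL2 : Loop g (Hc Q) (fun x => Q x = -1)
      ([(true, true)] ++ ([(false, false)] ++ [(true, false)])) := by
    refine ⟨fun x hx => ?_, fun x => ?_⟩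
    · refine ⟨Or.inr ?_, Or.inl rfl, Or.inr ?_, trivial⟩
      · simp [hx]
      · simp [lval, hQv, hQwi, hx]
    · have e : wval g ([(true, true)] ++ ([(false, false)] ++ [(true, false)])) =
          g true * (g false * (g true)⁻¹) := by
        simp [lval, mul_assoc]
      rw [e]
      simp only [mul_assoc]
      rw [hQw, hQv, hQwi, neg_neg]
  have h1 := hP.null (Hc Q) hH (fun x => Q x = 1) (hLv 1) hL1
    (fun x => if Q x = 1 then 1 else 0) ⟨1, zero_le_one, fun x => by
      split_ifs <;> norm_num⟩ (fun x hx => by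
      by_contra h
      simp only [if_neg h] at hx
      exact hx rfl) (fun x => by simp only [hQv]) (fun x => by
      simp only [mul_assoc, hQwi, hQv, hQw, neg_neg])
  have h2 : NullH g (Hc Q) (conv g (fun x => if Q x = 1 then 0 else
      Q' ((g true)⁻¹ * x) * E x) [(false, false)]) := by
    have hconj : ∀ x, (g true)⁻¹ * (g false * x) =
        ((g true)⁻¹ * g false * g true) * ((g true)⁻¹ * x) := by
      intro x; group
    refine nullH_crossingN hH (Z := fun x => Q x = -1)
      (Wt := [(true, true)] ++ ([(false, false)] ++ [(true, false)])) (C := 1)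
      (hseq_oneN N0 (by
        have e : wval g ([(true, true)] ++ ([(false, false)] ++ [(true, false)])) =
            g true * g false * (g true)⁻¹ := by
          simp [lval, mul_assoc]
        rw [e]
        exact hz1 _ hvN) (by simpa [lval] using hvN)) zero_le_one
      ?_ ?_ hL2 (hLv (-1)) ?_ ?_
    · intro x
      split_ifs
      · norm_num
      · rw [abs_mul]
        have h1 : |Q' ((g true)⁻¹ * x)| = 1 := by
          rcases hQ'1 ((g true)⁻¹ * x) with h | h <;> rw [h] <;> norm_num
        rw [h1, one_mul]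
        exact habs x
    · intro x hx
      rcases hQ1 x with h | h
      · rw [if_pos h] at hx
        exact absurd rfl hx
      · exact h
    · intro x
      rw [e0, hQv, hconj, hQ'w, hEv]
      simp only [neg_mul_neg]
    · intro x
      have e : wval g ([(true, true)] ++ ([(false, false)] ++ [(true, false)])) =
          g true * g false * (g true)⁻¹ := by
        simp [lval, mul_assoc]
      have hQt : Q (g true * g false * (g true)⁻¹ * x) = Q x := by
        rw [mul_assoc, mul_assoc, hQw, hQv, hQwi]; ring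
      have hQ't : Q' ((g true)⁻¹ * (g true * g false * (g true)⁻¹ * x)) =
          Q' ((g true)⁻¹ * x) := by
        have : (g true)⁻¹ * (g true * g false * (g true)⁻¹ * x) =
          g false * ((g true)⁻¹ * x) := by group
        rw [this]
        exact hQ'v _
      have hEt : E (g true * g false * (g true)⁻¹ * x) = - E x := by
        rw [mul_assoc, mul_assoc, hEw, hEv, hEwi]; ring
      rw [e, hQt, hQ't, hEt]
      split_ifs
      · ring
      · ring
  refine (h1.add h2).congr fun y s => ?_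
  rw [← conv_add]
  apply conv_congr
  intro x _
  unfold Fst
  rcases hQ1 x with h | h
  · rw [if_pos h, if_pos h, if_pos h]; ring
  · have h' : ¬ Q x = 1 := by rw [h]; norm_num
    rw [if_neg h', if_neg h', if_neg h']; ring

theorem facData_cubicN (N0 : Subgroup G) [Group.IsNilpotent N0] (hvN : g false ∈ N0)
    (hz2 : ∀ n ∈ N0, (g true)⁻¹ * n * g true ∈ N0) (hpg : PolyGrowth g) {E F Q : G → ℝ} (hE1 : ∀ x, E x = 1 ∨ E x = -1)
    (hEg : ∀ i x, E (g i * x) = - E x) (hF1 : ∀ x, F x = 1 ∨ F x = -1)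
    (hFv : ∀ x, F (g false * x) = - F x)
    (hQ1 : ∀ x, Q x = 1 ∨ Q x = -1) (hQv : ∀ x, Q (g false * x) = Q x)
    (hQw : ∀ x, Q (g true * x) = - Q x)
    (hnull : NullH g (Hc Q) (conv g (fun x => F x * E x) [(false, false)])) :
    FacData g E 3 1 (Hc Q) (PAc F) (PLc Q) := by
  classical
  have hEv := hEg false
  have hEw := hEg true
  have hQwi := odd_inv hQw
  have hEwi := odd_inv hEw
  have hEvi := odd_inv hEv
  have hQvi := even_inv hQv
  have hFvi := odd_inv hFv
  have e0 : wval g [(false, false)] = g false := by simp [lval]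
  have hL : NullH g (Hc Q) (DP E ((1 : ℕ) / (3 : ℕ)) (Hc Q) (PLc Q)) := by
    refine NullH.congr ?_ (fun y s => DLc_eq hE1 hEg hQ1 hQv hQw y s)
    refine nullH_crossingN (Hc_symm hQw) (Z := fun x => Q x = 1) (Wt := [(false, false)]) (C := 1)
      (hseq_oneN N0 (by simpa [lval] using hvN) (by
        have e : wval g [(false, false), (true, false), (false, true), (true, true)] =
            ((g true)⁻¹ * (g false)⁻¹ * g true) * g false := by
          simp [lval, mul_assoc]
        rw [e]
        exact N0.mul_mem (hz2 _ (N0.inv_mem hvN)) hvN)) zero_le_one ?_ ?_ ?_ ?_ ?_ ?_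
    · intro x
      split_ifs
      · rcases hE1 x with h | h <;> rw [h] <;> norm_num
      · norm_num
    · intro x hx
      by_contra h
      rw [if_neg h, mul_zero] at hx
      exact hx rfl
    · refine ⟨fun x _ => ⟨Or.inl rfl, trivial⟩, fun x => ?_⟩
      rw [e0, hQv]
    · refine ⟨fun x hx => ⟨Or.inl rfl, Or.inr ?_, Or.inl rfl, Or.inr ?_, trivial⟩, fun x => ?_⟩
      · simp [lval, hQv, hx]
      · simp [lval, hQvi, hQw, hQv, hx]
      · simp only [wval_cons, wval_nil, lval, one_mul]
        simp only [Bool.false_eq_true, if_false, if_true, mul_assoc]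
        rw [hQwi, hQvi, hQw, hQv, neg_neg]
    · intro x
      simp only [wval_cons, wval_nil, lval, one_mul]
      simp only [Bool.false_eq_true, if_false, if_true, mul_assoc]
      simp only [hQwi, hQvi, hQw, hQv, neg_neg, hEwi, hEvi, hEw, hEv]
    · intro x
      rw [e0, hQv, hEv]
      split_ifs <;> ring
  have hA : NullH g (Hc Q) (DP E ((1 : ℕ) / (3 : ℕ)) (Hc Q) (PAc F)) := by
    exact ((hL.smul (-1 / 2)).add (hnull.smul (-1 / 2))).congr
      (DAc_eq hE1 hEg hF1 hFv hQ1 hQv hQw)
  refine FacData.mk' le_rfl (by norm_num) hE1 hEg (Hc_symm hQw) ?_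
    (fun x l h => Or.inl h.1) (fun x l h => Or.inr h.2) ?_ ?_ ?_ ?_ hA hL
    hpg
  · intro x
    rcases hQ1 x with h | h
    · have : {l | Hc Q x l} = {((false, false) : Lt), ((false, true) : Lt), ((true, false) : Lt)} := by
        ext ⟨i, j⟩
        cases i <;> cases j <;> simp [Hc, h]
        norm_num
      rw [this]
      refine Set.ncard_eq_three.mpr ⟨_, _, _, by simp, by simp, by simp, rfl⟩
    · have : {l | Hc Q x l} = {((false, false) : Lt), ((false, true) : Lt), ((true, true) : Lt)} := by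
        ext ⟨i, j⟩
        cases i <;> cases j <;> simp [Hc, h]
        norm_num
      rw [this]
      refine Set.ncard_eq_three.mpr ⟨_, _, _, by simp, by simp, by simp, rfl⟩
  · intro y l
    unfold PAc
    obtain ⟨i, j⟩ := l
    cases i <;> cases j <;> simp [linv, lval, hFv, hFvi]
  · intro y l
    unfold PLc
    obtain ⟨i, j⟩ := l
    cases i <;> cases j <;> simp [linv, lval, hQw, hQwi]
  · intro x
    rw [Set.ncard_eq_one]
    rcases hF1 x with h | h
    · refine ⟨(false, true), ?_⟩
      ext ⟨i, j⟩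
      cases i <;> cases j <;> simp [PAc, h]
      norm_num
    · refine ⟨(false, false), ?_⟩
      ext ⟨i, j⟩
      cases i <;> cases j <;> simp [PAc, h]
      norm_num
  · intro x
    rw [Set.ncard_eq_one]
    rcases hQ1 x with h | h
    · refine ⟨(true, false), ?_⟩
      ext ⟨i, j⟩
      cases i <;> cases j <;> simp [PLc, h]
      norm_num
    · refine ⟨(true, true), ?_⟩
      ext ⟨i, j⟩
      cases i <;> cases j <;> simp [PLc, h]
      norm_num


/-- Polynomial growth. -/
theorem polyGrowthN (N : Subgroup G) [Group.IsNilpotent N] (hvN : g false ∈ N)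
    (hz1 : ∀ n ∈ N, g true * n * (g true)⁻¹ ∈ N) (hz2 : ∀ n ∈ N, (g true)⁻¹ * n * g true ∈ N)
    (hzf : IsOfFinOrder (g true)) : PolyGrowth g := by
  classical
  set Zs : Set G := (Subgroup.zpowers (g true) : Set G) with hZs
  have hZfin : Zs.Finite := finite_zpowers.mpr hzf
  have hZmul : ∀ s ∈ Zs, ∀ t ∈ Zs, s * t ∈ Zs := fun s hs t ht =>
    (Subgroup.zpowers (g true)).mul_mem hs ht
  have hZone : (1 : G) ∈ Zs := (Subgroup.zpowers (g true)).one_mem
  have hZnorm : ∀ t ∈ Zs, ∀ n ∈ N, t⁻¹ * n * t ∈ N := by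
    have h1 : Subgroup.zpowers (g true) ≤ Subgroup.normalizer (N : Set G) := by
      rw [Subgroup.zpowers_le, Subgroup.mem_normalizer_iff]
      intro h
      constructor
      · exact hz1 h
      · intro h'
        have := hz2 _ h'
        have e : (g true)⁻¹ * (g true * h * (g true)⁻¹) * g true = h := by group
        rwa [e] at this
    intro t ht n hn
    have h2 := Subgroup.inv_mem _ (h1 ht)
    rw [Subgroup.mem_normalizer_iff] at h2
    have := (h2 n).mp hn
    rwa [inv_inv] at this
  set Y : Set G := insert 1 ((fun p : G × G => p.1⁻¹ * p.2 * p.1) ''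
    (Zs ×ˢ ({g false, (g false)⁻¹} : Set G))) with hY
  have hYfin : Y.Finite := ((hZfin.prod (Set.toFinite _)).image _).insert _
  have hY1 : (1 : G) ∈ Y := Set.mem_insert _ _
  have hYN : ∀ y ∈ Y, y ∈ N := by
    rintro y (rfl | ⟨⟨t, x⟩, ⟨ht, hx⟩, rfl⟩)
    · exact N.one_mem
    · refine hZnorm t ht x ?_
      rcases hx with rfl | hx
      · exact hvN
      · rw [Set.mem_singleton_iff] at hx
        simp only at hx
        rw [hx]
        exact N.inv_mem hvN
  have hYconj : ∀ s ∈ Zs, ∀ y ∈ Y, s⁻¹ * y * s ∈ Y := by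
    rintro s hs y (rfl | ⟨⟨t, x⟩, ⟨ht, hx⟩, rfl⟩)
    · left; group
    · right
      exact ⟨(t * s, x), ⟨hZmul t ht s hs, hx⟩, by simp only; group⟩
  have hYpconj : ∀ s ∈ Zs, ∀ n : ℕ, ∀ y ∈ Y ^ n, s⁻¹ * y * s ∈ Y ^ n := by
    intro s hs n
    induction n with
    | zero =>
      intro y hy
      rw [pow_zero, Set.mem_one] at hy ⊢
      rw [hy]; group
    | succ n ih =>
      intro y hy
      rw [pow_succ] at hy ⊢
      obtain ⟨a, ha, b, hb, rfl⟩ := hy
      exact ⟨_, ih a ha, _, hYconj s hs b hb, by simp only; group⟩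
  set YN : Set N := Subtype.val ⁻¹' Y with hYNdef
  have hYNfin : YN.Finite := hYfin.preimage Subtype.val_injective.injOn
  obtain ⟨C, d, hCd⟩ := pg_of_nilpotent hYNfin (show (1 : N) ∈ YN from hY1)
  have hYimg : N.subtype '' YN = Y := by
    ext y
    constructor
    · rintro ⟨x, hx, rfl⟩
      exact hx
    · intro hy
      exact ⟨⟨y, hYN y hy⟩, hy, rfl⟩
  have hYcard : ∀ n, (Y ^ n).ncard ≤ C * (n + 1) ^ d := by
    intro n
    have h1 : Y ^ n = N.subtype '' (YN ^ n) := by
      rw [Set.image_pow, hYimg]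
    rw [h1]
    exact (Set.ncard_image_le (finite_pow_set hYNfin n)).trans (hCd n)
  have hword : ∀ w : List Lt, ∃ t ∈ Zs, ∃ y ∈ Y ^ w.length, wval g w = t * y := by
    intro w
    induction w with
    | nil => exact ⟨1, hZone, 1, by simp, by simp⟩
    | cons l w ih =>
      obtain ⟨t, ht, y, hy, e⟩ := ih
      rw [wval_cons, e, List.length_cons]
      by_cases hl : l.1 = false
      · refine ⟨t, ht, y * lval g l, ?_, by rw [mul_assoc]⟩
        rw [pow_succ]
        refine Set.mul_mem_mul hy ?_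
        right
        refine ⟨(1, lval g l), ⟨hZone, ?_⟩, by simp⟩
        obtain ⟨i, j⟩ := l
        simp only at hl
        subst hl
        cases j <;> simp [lval]
      · have hs : lval g l ∈ Zs := by
          obtain ⟨i, j⟩ := l
          simp only [Bool.not_eq_false] at hl
          subst hl
          cases j
          · simp only [lval]
            exact Subgroup.mem_zpowers _
          · simp only [lval]
            exact (Subgroup.zpowers (g true)).inv_mem (Subgroup.mem_zpowers _)
        refine ⟨t * lval g l, hZmul t ht _ hs, (lval g l)⁻¹ * y * lval g l, ?_, by group⟩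
        exact pow_mono_set hY1 (Nat.le_succ _) (hYpconj _ hs _ y hy)
  refine ⟨Zs.ncard * C, d, fun n => ?_⟩
  have hsub : Ball g n (1 : G) ⊆ (fun p : G × G => p.1 * p.2) '' (Zs ×ˢ (Y ^ n)) := by
    rintro _ ⟨w, hw, rfl⟩
    obtain ⟨t, ht, y, hy, e⟩ := hword w
    refine ⟨(t, y), ⟨ht, pow_mono_set hY1 hw hy⟩, ?_⟩
    rw [smul_eq_mul, mul_one, e]
  have hfinp : (Zs ×ˢ (Y ^ n)).Finite := hZfin.prod (finite_pow_set hYfin n)
  have h2 := (Set.ncard_le_ncard hsub (hfinp.image _)).trans (Set.ncard_image_le hfinp)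
  rw [Set.ncard_prod] at h2
  calc (Ball g n (1 : G)).ncard ≤ Zs.ncard * (Y ^ n).ncard := h2
    _ ≤ Zs.ncard * (C * (n + 1) ^ d) := Nat.mul_le_mul_left _ (hYcard n)
    _ = Zs.ncard * C * (n + 1) ^ d := by ring

end Run7.h916
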