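import Pool.Agent.Run7.h916.TorNil

set_option autoImplicit false
set_option linter.unusedSectionVars false
set_option linter.unusedVariables false

/-!
Zones of a direction of infinite order with a hub of finite order.
-/

namespace Run7.h916

open Set Relation
open scoped Pointwise

universe u v w

variable {Γ : Type u} [Group Γ] {X : Type v} [MulAction Γ X]

/-- A zone of the direction `c` with the hub `z` of finite order: a perfect matching of a cubic
graph near a sphere. -/
structure TorZone [MeasurableSpace X] (z c : Γ) (Q : Γ → ℝ) (d : X → ℕ) (δ : X → Γ) (m V : ℕ)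
    (N : X → Lt → Prop) : Prop where
  /-- The matching is Borel. -/
  Nmeas : ∀ l, MeasurableSet {x | N x l}
  /-- The matching is symmetric. -/
  Nsymm : ∀ x l, exc d m x ≤ V + 1 → (N x l ↔ N (lval (pr c z) l • x) (linv l))
  /-- The matching is perfect. -/
  Ncard : ∀ x, {l | N x l}.ncard = 1
  /-- The matching is contained in the cubic graph. -/
  Nsub : ∀ x l, exc d m x ≤ V + 1 → N x l → Hc Q ((δ x)⁻¹) l
  /-- The matching outside. -/
  Nout : ∀ x l, exc d m x = V + 1 → (N x l ↔ PLc Q ((δ x)⁻¹) l)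
  /-- The components in the middle of the zone. -/
  core : ∀ x, d x = m →
    {u | EConn (lval (pr c z)) (fun x l => Hc Q ((δ x)⁻¹) l ∧ ¬ N x l) x u}.Finite ∧
    ∀ u, EConn (lval (pr c z)) (fun x l => Hc Q ((δ x)⁻¹) l ∧ ¬ N x l) x u → exc d m u ≤ V

/-- Zones exist. -/
def HasTor (X : Type v) [MulAction Γ X] [MeasurableSpace X] (T : Set Γ) (z c : Γ) (Q : Γ → ℝ) :
    Prop :=
  ∃ V M : ℕ, ∀ (R : ℕ) (d : X → ℕ) (δ : X → Γ), Radial T R d δ → ∀ m : ℕ, V < m → m + M ≤ R →
    ∃ N : X → Lt → Prop, TorZone z c Q d δ m V N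

theorem exists_torZone {z c : Γ} {E f Q : Γ → ℝ}
    (hfd : FacData (pr c z) E 3 1 (Hc Q) (PAc f) (PLc Q))
    (Q1 : ∀ x, Q x = 1 ∨ Q x = -1) (f1 : ∀ x, f x = 1 ∨ f x = -1)
    (fv : ∀ x, f (c * x) = - f x) (Qw : ∀ x, Q (z * x) = - Q x)
    (per : ∃ N, 1 ≤ N ∧ ∀ x, (fun x => pst z Q (pst c f x))^[N] x = x)
    [MeasurableSpace X] [StandardBorelSpace X] [Countable Γ] (hX : IsFreeBorel Γ X)
    {T : Set Γ} (hT : ∀ s ∈ T, s⁻¹ ∈ T) (hz : z ∈ T) (hc : c ∈ T) : HasTor X T z c Q := by
  classical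
  have hprT : ∀ l, lval (pr c z) l ∈ T := by
    intro l
    obtain ⟨i, j⟩ := l
    cases i <;> cases j <;> simp [lval, pr, hc, hz, hT c hc, hT z hz]
  have hg : (fun i => (MonoidHom.id Γ) (pr c z i)) = pr c z := rfl
  obtain ⟨N2, hN2, hper2⟩ := per
  obtain ⟨W2, M2, hw2, hz2⟩ := exists_zoneG (X := X) hfd (MonoidHom.id Γ) (fun γ => γ)
    (fun k γ => rfl) hX hT (by rw [hg]; exact hprT) (2 * N2)
  refine ⟨W2, M2 + W2 + 3, ?_⟩
  intro R d δ hrad m hm hmR
  obtain ⟨N, hN⟩ := hz2 R d δ hrad m hm (by omega)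
  rw [hg] at hN
  have hdR : ∀ x, exc d m x ≤ W2 + 1 → d x + 1 ≤ R := by
    intro x hx
    unfold exc at hx
    omega
  have hest : ∀ x l, exc d m (lval (fun i => (MonoidHom.id Γ) (pr c z i)) l • x) ≤
      exc d m x + 1 := by
    intro x l
    have := exc_step hrad hT m (s := lval (pr c z) l) (hprT l) x
    exact this.1
  have hq : ∀ x, exc d m x ≤ W2 + 1 → ∀ l,
      (δ (lval (fun i => (MonoidHom.id Γ) (pr c z i)) l • x))⁻¹ =
        lval (pr c z) l * (δ x)⁻¹ := by
    intro x hx l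
    exact coord_equiv (K := Γ) (g := pr c z) (MonoidHom.id Γ) (fun γ => γ) (fun k γ => rfl)
      (by rw [hg]; exact hprT) hrad (hdR x hx) l
  refine ⟨N, hN.meas, ?_, hN.card, ?_, ?_, ?_⟩
  · intro x l hx
    exact hN.symm x l (hdR x hx)
  · intro x l hx h
    exact hN.sub x l h
  · intro x l hx
    exact hN.out x l (by omega)
  · intro x hx
    have h0 : exc d m x = 0 := by unfold exc; omega
    have h1 := comp_pattern (g := pr c z) f1 Q1 (by simpa [pr] using fv) (by simpa [pr] using Qw)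
      hN2 (by simpa [pr] using hper2) (MonoidHom.id Γ) (q := fun x => (δ x)⁻¹) (w := 2 * N2)
      (FF := fun x l => Hc Q ((δ x)⁻¹) l ∧ ¬ N x l) (d := d) (m := m) hest
      (fun x hx => hq x (by omega)) (fun x l hx h => by
        rw [hN.inn x l hx] at h
        obtain ⟨h2, h3⟩ := h
        unfold PAc at h3
        unfold Hc at h2
        unfold APat
        obtain ⟨i, j⟩ := l
        cases i
        · rcases f1 ((δ x)⁻¹) with h4 | h4 <;> cases j <;> simp [h4] at h3 ⊢
        · simpa using h2) (z := x) (by omega)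
    rw [hg] at h1
    refine ⟨h1.1, fun u hu => ?_⟩
    have := h1.2 u hu
    omega

end Run7.h916
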