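import Pool.Agent.Run7.h916.OddTriple

set_option autoImplicit false
set_option linter.unusedSectionVars false

/-!
Triples of pairwise non-parallel directions are flexible.
-/

namespace Run7.h916

open Subgroup
open scoped Pointwise commutatorElement

universe u v

section

variable {G : Type u} [Group G]

theorem TF2.cen_form (hG : TF2 G) {A B C : G} : ∀ x ∈ cenSub A {B, C}, ∃ i j : ℤ,
    ∀ w : G, ⁅x, w⁆ = ⁅B, w⁆ ^ i * ⁅C, w⁆ ^ j := by
  intro x hx
  refine closure_induction (p := fun x _ => ∃ i j : ℤ,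
    ∀ w : G, ⁅x, w⁆ = ⁅B, w⁆ ^ i * ⁅C, w⁆ ^ j) ?_ ?_ ?_ ?_ hx
  · rintro x (hx | ⟨V, hV, rfl⟩)
    · rcases hx with hx | hx
      · exact ⟨1, 0, fun w => by rw [hx]; simp⟩
      · rw [Set.mem_singleton_iff] at hx
        exact ⟨0, 1, fun w => by rw [hx]; simp⟩
    · refine ⟨0, 0, fun w => ?_⟩
      rw [zpow_zero, zpow_zero, one_mul, ← hG.comm_iff]
      exact (hG.cen A V w).symm
  · exact ⟨0, 0, fun w => by simp⟩
  · rintro x y _ _ ⟨i, j, h1⟩ ⟨i', j', h2⟩
    refine ⟨i + i', j + j', fun w => ?_⟩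
    rw [hG.mul_left, h1, h2, zpow_add, zpow_add]
    have hc : ⁅C, w⁆ ^ j * ⁅B, w⁆ ^ i' = ⁅B, w⁆ ^ i' * ⁅C, w⁆ ^ j :=
      ((show Commute (⁅B, w⁆ ^ i') ⁅C, w⁆ from hG.cen C w _).zpow_right j).symm.eq
    calc ⁅B, w⁆ ^ i * ⁅C, w⁆ ^ j * (⁅B, w⁆ ^ i' * ⁅C, w⁆ ^ j')
        = ⁅B, w⁆ ^ i * (⁅C, w⁆ ^ j * ⁅B, w⁆ ^ i') * ⁅C, w⁆ ^ j' := by simp only [mul_assoc]
      _ = _ := by rw [hc]; simp only [mul_assoc]
  · rintro x _ ⟨i, j, h1⟩
    refine ⟨-i, -j, fun w => ?_⟩
    have h2 := hG.zpow_left x w (-1)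
    rw [zpow_neg_one, zpow_neg_one] at h2
    rw [h2, h1, mul_inv_rev, zpow_neg, zpow_neg]
    exact (((show Commute (⁅B, w⁆ ^ i) ⁅C, w⁆ from hG.cen C w _).zpow_right
      j).inv_inv.symm).eq

theorem cen_form_comm {A B C : G} (hAB : ⁅A, B⁆ = 1) (hAC : ⁅A, C⁆ = 1)
    (hBC : B * C = C * B) :
    ∀ x ∈ cenSub A {B, C}, ∃ i j : ℤ, x = B ^ i * C ^ j := by
  intro x hx
  have hc : ∀ i j : ℤ, C ^ j * B ^ i = B ^ i * C ^ j := fun i j =>
    ((show Commute B C from hBC).zpow_zpow i j).symm.eq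
  refine closure_induction (p := fun x _ => ∃ i j : ℤ, x = B ^ i * C ^ j) ?_ ?_ ?_ ?_ hx
  · rintro x (hx | ⟨V, hV, rfl⟩)
    · rcases hx with hx | hx
      · exact ⟨1, 0, by rw [hx]; simp⟩
      · rw [Set.mem_singleton_iff] at hx
        exact ⟨0, 1, by rw [hx]; simp⟩
    · refine ⟨0, 0, ?_⟩
      rcases hV with hV | hV
      · rw [hV, hAB]; simp
      · rw [Set.mem_singleton_iff] at hV
        rw [hV, hAC]; simp
  · exact ⟨0, 0, by simp⟩
  · rintro x y _ _ ⟨i, j, rfl⟩ ⟨i', j', rfl⟩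
    refine ⟨i + i', j + j', ?_⟩
    rw [zpow_add, zpow_add]
    calc B ^ i * C ^ j * (B ^ i' * C ^ j') = B ^ i * (C ^ j * B ^ i') * C ^ j' := by
          simp only [mul_assoc]
      _ = _ := by rw [hc]; simp only [mul_assoc]
  · rintro x _ ⟨i, j, rfl⟩
    refine ⟨-i, -j, ?_⟩
    rw [mul_inv_rev, ← zpow_neg, ← zpow_neg, hc]

/-- Elements of the subgroup generated by two commuting elements. -/
theorem closure_pair_form {X Y : G} (hXY : X * Y = Y * X) :
    ∀ x ∈ closure ({X, Y} : Set G), ∃ i j : ℤ, x = X ^ i * Y ^ j := by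
  intro x hx
  have hc : ∀ i j : ℤ, Y ^ j * X ^ i = X ^ i * Y ^ j := fun i j =>
    ((show Commute X Y from hXY).zpow_zpow i j).symm.eq
  refine closure_induction (p := fun x _ => ∃ i j : ℤ, x = X ^ i * Y ^ j) ?_ ?_ ?_ ?_ hx
  · rintro x (hx | hx)
    · exact ⟨1, 0, by rw [hx]; simp⟩
    · rw [Set.mem_singleton_iff] at hx
      exact ⟨0, 1, by rw [hx]; simp⟩
  · exact ⟨0, 0, by simp⟩
  · rintro x y _ _ ⟨i, j, rfl⟩ ⟨i', j', rfl⟩
    refine ⟨i + i', j + j', ?_⟩
    rw [zpow_add, zpow_add]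
    calc X ^ i * Y ^ j * (X ^ i' * Y ^ j') = X ^ i * (Y ^ j * X ^ i') * Y ^ j' := by
          simp only [mul_assoc]
      _ = _ := by rw [hc]; simp only [mul_assoc]
  · rintro x _ ⟨i, j, rfl⟩
    refine ⟨-i, -j, ?_⟩
    rw [mul_inv_rev, ← zpow_neg, ← zpow_neg, hc]

theorem odd_of_mul_eq {a b c d : ℤ} (ha : Odd a) (hb : Odd b) (h : a * b = c * d) :
    Odd c ∧ Odd d := by
  have : Odd (c * d) := h ▸ ha.mul hb
  exact Int.odd_mul.mp this

/-- The parity condition for a hub. -/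
theorem TF2.hub_odd (hG : TF2 G) {A B C : G} (hBA : ⁅B, A⁆ ≠ 1)
    {k i j k' i' j' : ℤ} (hk : Odd k) (hk' : Odd k')
    (h1 : ∀ w : G, ⁅B, w⁆ ^ k = ⁅A, w⁆ ^ i * ⁅C, w⁆ ^ j)
    (h2 : ∀ w : G, ⁅C, w⁆ ^ k' = ⁅A, w⁆ ^ i' * ⁅B, w⁆ ^ j') :
    ∀ m l : ℤ, ⁅B, A⁆ ^ m * ⁅C, A⁆ ^ l = 1 → Even (m + l) := by
  intro m l h
  have e1 : ⁅B, A⁆ ^ k = ⁅C, A⁆ ^ j := by
    have := h1 A
    rwa [commutatorElement_self, one_zpow, one_mul] at this
  have e2 : ⁅C, A⁆ ^ k' = ⁅B, A⁆ ^ j' := by
    have := h2 A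
    rwa [commutatorElement_self, one_zpow, one_mul] at this
  have hinj : ∀ x y : ℤ, ⁅B, A⁆ ^ x = ⁅B, A⁆ ^ y → x = y := by
    intro x y hxy
    by_contra hne
    apply hBA
    refine hG.tf _ (x - y) ?_ (sub_ne_zero.mpr hne)
    rw [zpow_sub, hxy, mul_inv_cancel]
  have e3 : k * k' = j * j' := by
    apply hinj
    rw [zpow_mul, e1, ← zpow_mul, mul_comm j k', zpow_mul, e2, ← zpow_mul, mul_comm j' j]
  obtain ⟨hj, hj'⟩ := odd_of_mul_eq hk hk' e3
  have e4 : m * k' + l * j' = 0 := by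
    apply hinj
    rw [zpow_zero, zpow_add, zpow_mul, mul_comm l j', zpow_mul, ← e2, ← zpow_mul ⁅C, A⁆,
      mul_comm k' l, zpow_mul ⁅C, A⁆]
    rw [← (show Commute (⁅B, A⁆ ^ m) (⁅C, A⁆ ^ l) from
      ((show Commute (⁅B, A⁆ ^ m) ⁅C, A⁆ from hG.cen C A _).zpow_right l)).mul_zpow, h,
      one_zpow]
  have h5 : Even (m * k' + l * j') := by rw [e4]; exact Even.zero
  rw [Int.even_add, Int.even_mul, Int.even_mul] at h5
  rw [Int.even_add]
  have h6 : ¬ Even k' := Int.not_even_iff_odd.mpr hk'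
  have h7 : ¬ Even j' := Int.not_even_iff_odd.mpr hj'
  tauto

/-- The functions for the odd triple. -/
theorem TF2.odd_functions (hG : TF2 G) {A B C : G} (hB1 : B ≠ 1) (hC1 : C ≠ 1)
    (hBCn : ¬ Par B C) (hAB : A * B = B * A) (hAC : A * C = C * A) (hBC : B * C = C * B)
    {k i j k' i' j' k'' i'' j'' : ℤ} (hk : Odd k) (hk' : Odd k') (hk'' : Odd k'')
    (h1 : A ^ k = B ^ i * C ^ j) (h2 : B ^ k' = A ^ i' * C ^ j')
    (h3 : C ^ k'' = A ^ i'' * B ^ j'') :
    (∃ μ : G → ZMod 2, (∀ g, μ (A * g) = μ g + 1) ∧ (∀ g, μ (B * g) = μ g) ∧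
      ∀ g, μ (C * g) = μ g + 1) ∧
    ((∃ ν : G → ZMod 4, (∀ g, ν (A * g) = ν g) ∧ (∀ g, ν (B * g) = ν g + 1) ∧
      ∀ g, ν (C * g) = ν g + 1) ∨
    (∃ ν : G → ZMod 4, (∀ g, ν (A * g) = ν g) ∧ (∀ g, ν (B * g) = ν g + 1) ∧
      ∀ g, ν (C * g) = ν g - 1)) := by
  have cAB : Commute A B := hAB
  have cAC : Commute A C := hAC
  have cBC : Commute B C := hBC
  -- relations
  have indep : ∀ y w : ℤ, B ^ y * C ^ w = 1 → y = 0 ∧ w = 0 := by
    intro y w h
    have : B ^ y = C ^ (-w) := by rw [zpow_neg]; exact eq_inv_of_mul_eq_one_left h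
    have := hG.indep hB1 hC1 hBCn this
    omega
  have rel : ∀ x y w : ℤ, A ^ x * (B ^ y * C ^ w) = 1 → i * x + k * y = 0 ∧ j * x + k * w = 0 := by
    intro x y w h
    apply indep
    have hcc : Commute (A ^ x) (B ^ y * C ^ w) :=
      ((cAB.zpow_zpow x y)).mul_right (cAC.zpow_zpow x w)
    have e := congrArg (fun t => t ^ k) h
    simp only [one_zpow] at e
    rw [hcc.mul_zpow, ← zpow_mul, mul_comm x k, zpow_mul, h1,
      (cBC.zpow_zpow i j).mul_zpow, (cBC.zpow_zpow y w).mul_zpow, ← zpow_mul, ← zpow_mul,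
      ← zpow_mul, ← zpow_mul] at e
    rw [zpow_add, zpow_add, ← e, mul_comm k y, mul_comm k w]
    have h4 : C ^ (j * x) * B ^ (y * k) = B ^ (y * k) * C ^ (j * x) :=
      (cBC.zpow_zpow (y * k) (j * x)).symm.eq
    calc B ^ (i * x) * B ^ (y * k) * (C ^ (j * x) * C ^ (w * k))
        = B ^ (i * x) * (B ^ (y * k) * C ^ (j * x)) * C ^ (w * k) := by simp only [mul_assoc]
      _ = _ := by rw [← h4]; simp only [mul_assoc]
  have hi : Odd i := by
    have h4 : A ^ i' * (B ^ (-k') * C ^ j') = 1 := by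
      rw [← mul_assoc, (cAB.zpow_zpow i' (-k')).eq, mul_assoc, ← h2, zpow_neg,
        inv_mul_cancel]
    have h5 := (rel _ _ _ h4).1
    have h6 : k * k' = i * i' := by linarith
    exact (odd_of_mul_eq hk hk' h6).1
  have hj : Odd j := by
    have h4 : A ^ i'' * (B ^ j'' * C ^ (-k'')) = 1 := by
      rw [← mul_assoc, ← h3, zpow_neg, mul_inv_cancel]
    have h5 := (rel _ _ _ h4).2
    have h6 : k * k'' = j * i'' := by linarith
    exact (odd_of_mul_eq hk hk'' h6).1
  have nrm : ∀ (V : G) (X Y : G), Commute V X → Commute V Y →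
      ∀ m ∈ closure ({X, Y} : Set G), V * m = m * V := by
    intro V X Y hX hY m hm
    have : closure ({X, Y} : Set G) ≤ centralizer {V} := by
      rw [closure_le]
      rintro x (hx | hx)
      · rw [hx]; exact mem_centralizer_singleton_iff.mpr hX.symm.eq
      · rw [Set.mem_singleton_iff] at hx
        rw [hx]; exact mem_centralizer_singleton_iff.mpr hY.symm.eq
    exact (mem_centralizer_singleton_iff.mp (this hm)).symm
  have nrm1 : ∀ (V : G) (X Y : G), Commute V X → Commute V Y →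
      ∀ m ∈ closure ({X, Y} : Set G), V * m * V⁻¹ ∈ closure ({X, Y} : Set G) := by
    intro V X Y hX hY m hm
    rw [nrm V X Y hX hY m hm, mul_inv_cancel_right]; exact hm
  have nrm2 : ∀ (V : G) (X Y : G), Commute V X → Commute V Y →
      ∀ m ∈ closure ({X, Y} : Set G), V⁻¹ * m * V ∈ closure ({X, Y} : Set G) := by
    intro V X Y hX hY m hm
    rw [mul_assoc, ← nrm V X Y hX hY m hm, inv_mul_cancel_left]; exact hm
  refine ⟨?_, ?_⟩
  · have cX : Commute A (C * A⁻¹) := cAC.mul_right (Commute.refl A).inv_right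
    have cY : Commute B (C * A⁻¹) := cBC.mul_right cAB.symm.inv_right
    obtain ⟨F, h4, h5⟩ := exists_phase (closure {B, C * A⁻¹}) A 2 (nrm1 A _ _ cAB cX)
      (nrm2 A _ _ cAB cX) (fun t ht => by
        obtain ⟨y, w, h⟩ := closure_pair_form cY.eq _ ht
        have e : A ^ (-t - w) * (B ^ y * C ^ w) = 1 := by
          rw [(cAC.symm.inv_right).mul_zpow, inv_zpow'] at h
          have h6 : B ^ y * (C ^ w * A ^ (-w)) = A ^ (-w) * (B ^ y * C ^ w) := by
            have := ((cAB.zpow_zpow (-w) y).mul_right (cAC.zpow_zpow (-w) w)).eq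
            rw [this, mul_assoc]
          rw [h6] at h
          have h7 : B ^ y * C ^ w = A ^ w * A ^ t := by
            rw [h, ← mul_assoc, ← zpow_add, add_neg_cancel, zpow_zero, one_mul]
          rw [h7, ← zpow_add, ← zpow_add]
          have : -t - w + (w + t) = 0 := by ring
          rw [this, zpow_zero]
        have h6 := (rel _ _ _ e).2
        have h7 : j * t = (k - j) * w := by linarith
        have h8 : Even (j * t) := by
          rw [h7]
          exact (hk.sub_odd hj).mul_right w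
        rcases Int.even_mul.mp h8 with h9 | h9
        · exact absurd h9 (Int.not_even_iff_odd.mpr hj)
        · exact_mod_cast h9.two_dvd)
    refine ⟨F, h4, fun g => h5 B (subset_closure (by simp)) g, fun g => ?_⟩
    have : C * g = C * A⁻¹ * (A * g) := by group
    rw [this, h5 _ (subset_closure (by simp)), h4]
  · have h4 : (4 : ℤ) ∣ i + j ∨ (4 : ℤ) ∣ i - j := by
      obtain ⟨x, hx⟩ := hi
      obtain ⟨y, hy⟩ := hj
      rcases Int.even_or_odd (x + y) with h | h
      · right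
        obtain ⟨z, hz⟩ := h
        exact ⟨z - y, by rw [hx, hy]; linarith⟩
      · left
        obtain ⟨z, hz⟩ := h
        exact ⟨z + 1, by rw [hx, hy]; linarith⟩
    have hdvd : ∀ t z : ℤ, k * t = 4 * z → (4 : ℤ) ∣ t := by
      intro t z h
      have hcop : IsCoprime (4 : ℤ) k := by
        have : IsCoprime (2 : ℤ) k := by
          rw [Int.isCoprime_iff_gcd_eq_one]
          obtain ⟨y, hy⟩ := hk
          have : Int.gcd 2 k = 1 := by
            rw [hy]
            have h1 : Int.gcd 2 (2 * y + 1) ∣ 1 := by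
              have a1 : (Int.gcd 2 (2 * y + 1) : ℤ) ∣ 2 := Int.gcd_dvd_left _ _
              have a2 : (Int.gcd 2 (2 * y + 1) : ℤ) ∣ 2 * y + 1 := Int.gcd_dvd_right _ _
              have a3 : (Int.gcd 2 (2 * y + 1) : ℤ) ∣ 1 := by
                have h9 := dvd_sub a2 (a1.mul_right y)
                have h10 : (2 * y + 1 : ℤ) - 2 * y = 1 := by ring
                rw [h10] at h9
                exact h9
              exact_mod_cast a3
            exact Nat.dvd_one.mp h1
          exact this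
        have h2 : (4 : ℤ) = 2 * 2 := by norm_num
        rw [h2]
        exact this.mul_left this
      exact hcop.dvd_of_dvd_mul_left ⟨z, h⟩
    rcases h4 with h4 | h4
    · left
      have cX : Commute B (C * B⁻¹) := cBC.mul_right (Commute.refl B).inv_right
      have cY : Commute A (C * B⁻¹) := cAC.mul_right cAB.inv_right
      obtain ⟨F, h5, h6⟩ := exists_phase (closure {A, C * B⁻¹}) B 4
        (nrm1 B _ _ cAB.symm cX) (nrm2 B _ _ cAB.symm cX) (fun t ht => by
          obtain ⟨x, w, h⟩ := closure_pair_form cY.eq _ ht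
          have e : A ^ x * (B ^ (-w - t) * C ^ w) = 1 := by
            rw [(cBC.symm.inv_right).mul_zpow, inv_zpow'] at h
            have h7 : A ^ x * (C ^ w * B ^ (-w)) = B ^ t := h.symm
            have h8 : A ^ x * (B ^ (-w - t) * C ^ w) = A ^ x * (C ^ w * B ^ (-w)) * B ^ (-t) := by
              have h9 : C ^ w * B ^ (-w) * B ^ (-t) = B ^ (-w - t) * C ^ w := by
                rw [mul_assoc, ← zpow_add, ← sub_eq_add_neg]
                exact (cBC.zpow_zpow (-w - t) w).symm.eq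
              rw [mul_assoc, h9]
            rw [h8, h7, ← zpow_add, add_neg_cancel, zpow_zero]
          obtain ⟨e1, e2⟩ := rel _ _ _ e
          obtain ⟨z, hz⟩ := h4
          have h9 : k * t = (i + j) * x := by linarith
          exact_mod_cast hdvd t (z * x) (by rw [h9, hz]; ring))
      refine ⟨F, fun g => h6 A (subset_closure (by simp)) g, h5, fun g => ?_⟩
      have : C * g = C * B⁻¹ * (B * g) := by group
      rw [this, h6 _ (subset_closure (by simp)), h5]
    · right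
      have cX : Commute B (C * B) := cBC.mul_right (Commute.refl B)
      have cY : Commute A (C * B) := cAC.mul_right cAB
      obtain ⟨F, h5, h6⟩ := exists_phase (closure {A, C * B}) B 4
        (nrm1 B _ _ cAB.symm cX) (nrm2 B _ _ cAB.symm cX) (fun t ht => by
          obtain ⟨x, w, h⟩ := closure_pair_form cY.eq _ ht
          have e : A ^ x * (B ^ (w - t) * C ^ w) = 1 := by
            rw [cBC.symm.mul_zpow] at h
            have h7 : A ^ x * (C ^ w * B ^ w) = B ^ t := h.symm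
            have h8 : A ^ x * (B ^ (w - t) * C ^ w) = A ^ x * (C ^ w * B ^ w) * B ^ (-t) := by
              have h9 : C ^ w * B ^ w * B ^ (-t) = B ^ (w - t) * C ^ w := by
                rw [mul_assoc, ← zpow_add, ← sub_eq_add_neg]
                exact (cBC.zpow_zpow (w - t) w).symm.eq
              rw [mul_assoc, h9]
            rw [h8, h7, ← zpow_add, add_neg_cancel, zpow_zero]
          obtain ⟨e1, e2⟩ := rel _ _ _ e
          obtain ⟨z, hz⟩ := h4
          have h9 : k * t = (i - j) * x := by linarith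
          exact_mod_cast hdvd t (z * x) (by rw [h9, hz]; ring))
      refine ⟨F, fun g => h6 A (subset_closure (by simp)) g, h5, fun g => ?_⟩
      have : C * g = C * B * (B⁻¹ * g) := by group
      rw [this, h6 _ (subset_closure (by simp)), add_inv' h5]

end

variable {Γ : Type u} [Group Γ]

/-- **Triples are flexible.** -/
theorem flexible_triple {L : Subgroup Γ} [hLn : L.Normal] (hL : IsLocallyFinite L)
    (hG : TF2 (Γ ⧸ L)) {a b c : Γ} {A B C : Γ ⧸ L} (hA : A = QuotientGroup.mk a)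
    (hB : B = QuotientGroup.mk b) (hC : C = QuotientGroup.mk c)
    (hA1 : A ≠ 1) (hB1 : B ≠ 1) (hC1 : C ≠ 1) (hAB : ¬ Par A B) (hAC : ¬ Par A C)
    (hBC : ¬ Par B C) : Flexible (({a, b, c} : Set Γ) ∪ ({a, b, c} : Set Γ)⁻¹) := by
  have hmki : ∀ a : Γ, (QuotientGroup.mk a⁻¹ : Γ ⧸ L) = (QuotientGroup.mk a)⁻¹ := fun _ => rfl
  have hBA : ¬ Par B A := fun h => hAB h.symm
  have hCA : ¬ Par C A := fun h => hAC h.symm
  have hCB : ¬ Par C B := fun h => hBC h.symm
  -- stars
  have star : ∀ (x y z : Γ) (X Y Z : Γ ⧸ L), X = QuotientGroup.mk x → Y = QuotientGroup.mk y →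
      Z = QuotientGroup.mk z → X ≠ 1 → Y ≠ 1 → Z ≠ 1 → ¬ Par Y X → ¬ Par Z X →
      (∀ k : ℤ, X ^ k ∈ cenSub X {Y, Z} → (2 : ℤ) ∣ k) →
      Flexible (({x, y, z} : Set Γ) ∪ ({x, y, z} : Set Γ)⁻¹) := by
    intro x y z X Y Z hX hY hZ hX1 hY1 hZ1 hYX hZX h
    have himg : (QuotientGroup.mk '' ({y, z} : Set Γ) : Set (Γ ⧸ L)) = {Y, Z} := by
      rw [Set.image_pair, ← hY, ← hZ]
    refine flexible_star' hL hG (z := x) (v0 := y) (Vs := {y, z}) (Set.toFinite _)
      (Or.inl rfl) (by rw [← hX]; exact hX1) ?_ ?_ ?_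
    · rintro v (hv | hv)
      · rw [hv, ← hY]; exact hY1
      · rw [Set.mem_singleton_iff] at hv
        rw [hv, ← hZ]; exact hZ1
    · rintro v (hv | hv)
      · rw [hv, ← hY, ← hX]; exact hYX
      · rw [Set.mem_singleton_iff] at hv
        rw [hv, ← hZ, ← hX]; exact hZX
    · rw [himg, ← hX]
      exact hG.phase_of_dvd h
  have e1 : ({b, a, c} : Set Γ) = {a, b, c} := Set.insert_comm b a {c}
  have e2 : ({c, a, b} : Set Γ) = {a, b, c} := by
    rw [Set.insert_comm c a, Set.pair_comm c b]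
  by_cases cA : ∀ k : ℤ, A ^ k ∈ cenSub A {B, C} → (2 : ℤ) ∣ k
  · exact star a b c A B C hA hB hC hA1 hB1 hC1 hBA hCA cA
  by_cases cB : ∀ k : ℤ, B ^ k ∈ cenSub B {A, C} → (2 : ℤ) ∣ k
  · have := star b a c B A C hB hA hC hB1 hA1 hC1 hAB hCB cB
    rwa [e1] at this
  by_cases cC : ∀ k : ℤ, C ^ k ∈ cenSub C {A, B} → (2 : ℤ) ∣ k
  · have := star c a b C A B hC hA hB hC1 hA1 hB1 hAC hBC cC
    rwa [e2] at this
  push Not at cA cB cC
  obtain ⟨k1, m1, d1⟩ := cA
  obtain ⟨k2, m2, d2⟩ := cB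
  obtain ⟨k3, m3, d3⟩ := cC
  have hodd : ∀ k : ℤ, ¬ (2 : ℤ) ∣ k → Odd k := by
    intro k hk
    rw [← Int.not_even_iff_odd]
    exact fun h => hk h.two_dvd
  have o1 := hodd k1 d1
  have o2 := hodd k2 d2
  have o3 := hodd k3 d3
  obtain ⟨i1, j1, r1⟩ := hG.cen_form _ m1
  obtain ⟨i2, j2, r2⟩ := hG.cen_form _ m2
  obtain ⟨i3, j3, r3⟩ := hG.cen_form _ m3
  simp only [hG.zpow_left] at r1 r2 r3
  -- hubs
  by_cases h1 : ⁅B, A⁆ = 1
  · by_cases h2 : ⁅C, A⁆ = 1
    · by_cases h3 : ⁅C, B⁆ = 1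
      · -- commuting
        have hab : A * B = B * A := ((hG.comm_iff B A).mpr h1).symm
        have hac : A * C = C * A := ((hG.comm_iff C A).mpr h2).symm
        have hbc : B * C = C * B := ((hG.comm_iff C B).mpr h3).symm
        have h1' := (hG.comm_iff A B).mp hab
        have h2' := (hG.comm_iff A C).mp hac
        have h3' := (hG.comm_iff B C).mp hbc
        obtain ⟨p1, q1, s1⟩ := cen_form_comm h1' h2' hbc _ m1
        obtain ⟨p2, q2, s2⟩ := cen_form_comm h1 h3' hac _ m2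
        obtain ⟨p3, q3, s3⟩ := cen_form_comm h2 h3 hab _ m3
        obtain ⟨⟨μ, μA, μB, μC⟩, hν⟩ := hG.odd_functions hB1 hC1 hBC hab hac hbc o1 o2 o3
          s1 s2 s3
        have haa : a ≠ a⁻¹ := by
          refine not_isOfFinOrder_ne_inv (not_isOfFinOrder_of_mk hG ?_)
          rw [← hA]; exact hA1
        rcases hν with ⟨ν, νA, νB, νC⟩ | ⟨ν, νA, νB, νC⟩
        · exact flexible_odd hL hA hB hC haa hab hac νA νB νC μA μB μC
        · have := flexible_odd hL (c := c⁻¹) (C := C⁻¹) hA hB (by rw [hmki, hC]) haa hab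
            (show Commute A C from hac).inv_right.eq (ν := ν) (μ := μ) νA νB (fun g => by
              have := νC (C⁻¹ * g)
              rw [mul_inv_cancel_left] at this
              rw [this]; ring) μA μB (phase_inv μC)
          have e3 : ({a, b, c⁻¹} : Set Γ) ∪ ({a, b, c⁻¹} : Set Γ)⁻¹ =
              ({a, b, c} : Set Γ) ∪ ({a, b, c} : Set Γ)⁻¹ := by
            ext x
            simp only [Set.mem_union, Set.mem_inv, Set.mem_insert_iff, Set.mem_singleton_iff]
            have : ∀ y : Γ, (x = y⁻¹ ↔ x⁻¹ = y) := by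
              intro y
              constructor
              · intro h; rw [h, inv_inv]
              · intro h; rw [← h, inv_inv]
            have h4 : (x⁻¹ = c⁻¹ ↔ x = c) := inv_inj
            rw [this c, h4]
            tauto
          rwa [e3] at this
      · -- hub with centre b
        have := flexible_hub hL hG (a := b) (b := c) (c := a) hB hC hA hB1 hC1 hA1 hBC hBA hCA
          h3 (hG.hub_odd h3 o3 o1 (i := j3) (j := i3) (i' := i1) (j' := j1) (fun w => by
            rw [r3 w]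
            exact (((show Commute (⁅A, w⁆ ^ i3) ⁅B, w⁆ from hG.cen B w _).zpow_right j3)).eq)
            (fun w => r1 w))
        have e3 : ({b, c, a} : Set Γ) = {a, b, c} := by
          rw [Set.pair_comm c a, Set.insert_comm b a]
        rwa [e3] at this
    · -- hub with centre a
      have := flexible_hub hL hG (a := a) (b := c) (c := b) hA hC hB hA1 hC1 hB1 hAC hAB hCB
        h2 (hG.hub_odd h2 o3 o2 (i := i3) (j := j3) (i' := i2) (j' := j2) (fun w => r3 w)
          (fun w => r2 w))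
      rwa [Set.pair_comm c b] at this
  · exact flexible_hub hL hG hA hB hC hA1 hB1 hC1 hAB hAC hBC
      h1 (hG.hub_odd h1 o2 o3 (i := i2) (j := j2) (i' := i3) (j' := j3) (fun w => r2 w)
        (fun w => r3 w))

end Run7.h916
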