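import Pool.Agent.Run7.h916.PivotThm

set_option autoImplicit false
set_option linter.unusedSectionVars false

/-!
Virtually infinite cyclic groups.
-/

namespace Run7.h916

open Subgroup
open scoped Pointwise

universe u v

/-- In a group with a central infinite cyclic subgroup of finite index some power map is a
homomorphism to that subgroup. -/
theorem power_hom {G : Type u} [Group G] {t : G} (ht : t ∈ center G)
    [hfi : (zpowers t).FiniteIndex] :
    ∃ M : ℕ, 0 < M ∧ (∀ a b : G, (a * b) ^ M = a ^ M * b ^ M) ∧ ∀ g : G, g ^ M ∈ zpowers t := by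
  have hle : zpowers t ≤ center G := by rw [zpowers_le]; exact ht
  have hci : (center G).FiniteIndex := finiteIndex_of_le hle
  have hn : (zpowers t).Normal := ⟨fun a ha g => by
    have := mem_center_iff.mp (hle ha) g
    rw [this, mul_inv_cancel_right]; exact ha⟩
  set n := (center G).index with hndef
  have hn0 : 0 < n := Nat.pos_of_ne_zero hci.index_ne_zero
  set m := (zpowers t).index with hmdef
  have hm0 : 0 < m := Nat.pos_of_ne_zero hfi.index_ne_zero
  have hhom : ∀ a b : G, (a * b) ^ n = a ^ n * b ^ n := by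
    intro a b
    have := congrArg Subtype.val (map_mul (MonoidHom.transferCenterPow G) a b)
    rw [Subgroup.coe_mul] at this
    rw [MonoidHom.transferCenterPow_apply, MonoidHom.transferCenterPow_apply,
      MonoidHom.transferCenterPow_apply] at this
    exact this
  have hcen : ∀ a : G, a ^ n ∈ center G := fun a => (center G).pow_index_mem a
  refine ⟨n * m, Nat.mul_pos hn0 hm0, fun a b => ?_, fun g => ?_⟩
  · rw [pow_mul, hhom, pow_mul, pow_mul]
    exact (show Commute (a ^ n) (b ^ n) from (mem_center_iff.mp (hcen a) (b ^ n)).symm).mul_pow m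
  · rw [pow_mul]
    exact (zpowers t).pow_index_mem _

theorem zpow_eq_one_of_infinite {G : Type u} [Group G] {t : G} (ht : ¬ IsOfFinOrder t) {k : ℤ}
    (h : t ^ k = 1) : k = 0 := by
  by_contra hk
  apply ht
  rw [isOfFinOrder_iff_zpow_eq_one]
  exact ⟨k, hk, h⟩

/-- A group with a central infinite cyclic subgroup of finite index is a finite extension of
`ℤ`. -/
theorem finiteExtension_of_central {G : Type u} [Group G] {t : G} (ht : t ∈ center G)
    (hinf : ¬ IsOfFinOrder t) [hfi : (zpowers t).FiniteIndex] : FiniteExtensionOfInt G := by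
  obtain ⟨M, hM, hhom, hmem⟩ := power_hom ht
  let θ : G →* G := { toFun := fun g => g ^ M, map_one' := one_pow M, map_mul' := hhom }
  have hθ : ∀ g, θ g = g ^ M := fun _ => rfl
  refine ⟨θ.ker, inferInstance, ?_, ?_⟩
  · -- finiteness of the kernel
    have : Finite (G ⧸ zpowers t) := inferInstance
    refine Finite.of_injective (fun a : θ.ker => (QuotientGroup.mk (s := zpowers t) (a : G))) ?_
    intro a b hab
    have h1 : (a : G)⁻¹ * b ∈ zpowers t := QuotientGroup.eq.mp hab
    obtain ⟨k, hk⟩ := mem_zpowers_iff.mp h1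
    have h2 : ((a : G)⁻¹ * b) ^ M = 1 := by
      have ha : (a : G) ^ M = 1 := a.2
      have hb : (b : G) ^ M = 1 := b.2
      rw [hhom, inv_pow, ha, hb]; simp
    rw [← hk, ← zpow_natCast, ← zpow_mul] at h2
    have h3 := zpow_eq_one_of_infinite hinf h2
    have hk0 : k = 0 := by
      rcases mul_eq_zero.mp h3 with h | h
      · exact h
      · exfalso; omega
    rw [hk0, zpow_zero] at hk
    apply Subtype.ext
    exact (inv_mul_eq_one.mp hk.symm)
  · have hrange : θ.range ≤ zpowers t := by
      rintro _ ⟨g, rfl⟩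
      exact hmem g
    have hcyc : IsCyclic θ.range := by
      have h1 : IsCyclic (θ.range.subgroupOf (zpowers t)) := inferInstance
      exact isCyclic_of_surjective (subgroupOfEquivOfLe hrange).toMonoidHom
        (subgroupOfEquivOfLe hrange).surjective
    have hinf' : Infinite θ.range := by
      rw [← not_finite_iff_infinite]
      intro hf
      have : IsOfFinOrder (θ t) := by
        have := isOfFinOrder_of_finite (⟨θ t, ⟨t, rfl⟩⟩ : θ.range)
        exact MonoidHom.isOfFinOrder θ.range.subtype this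
      rw [hθ, isOfFinOrder_pow] at this
      rcases this with h | h
      · exact hinf h
      · omega
    exact ⟨(QuotientGroup.quotientKerEquivRange θ).trans intCyclicMulEquiv.symm⟩

/-- A virtually infinite cyclic group has a normal infinite cyclic subgroup of finite index. -/
theorem exists_normal_zpowers {G : Type u} [Group G] (h : VirtuallyInfiniteCyclic G) :
    ∃ t : G, ¬ IsOfFinOrder t ∧ (zpowers t).FiniteIndex ∧ (zpowers t).Normal := by
  obtain ⟨N, hN, ⟨e⟩⟩ := h
  have hNc : IsCyclic N := isCyclic_of_surjective e.symm.toMonoidHom e.symm.surjective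
  have hle : N.normalCore ≤ N := N.normalCore_le
  have hcfi : N.normalCore.FiniteIndex := inferInstance
  have hcyc : IsCyclic N.normalCore := by
    have h1 : IsCyclic (N.normalCore.subgroupOf N) := inferInstance
    exact isCyclic_of_surjective (subgroupOfEquivOfLe hle).toMonoidHom
      (subgroupOfEquivOfLe hle).surjective
  obtain ⟨g, hg⟩ := hcyc.exists_generator
  have hz : zpowers (g : G) = N.normalCore := by
    apply le_antisymm
    · rw [zpowers_le]; exact g.2
    · intro x hx
      obtain ⟨k, hk⟩ := mem_zpowers_iff.mp (hg ⟨x, hx⟩)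
      exact mem_zpowers_iff.mpr ⟨k, by rw [← Subgroup.coe_zpow, hk]⟩
  refine ⟨g, ?_, ?_, ?_⟩
  · intro hfin
    have h1 : Finite (zpowers (g : G)) := (finite_zpowers.mpr hfin).to_subtype
    have hfi : (zpowers (g : G)).FiniteIndex := by rw [hz]; exact hcfi
    have h2 : Finite G := by
      have : Finite (G ⧸ zpowers (g : G)) := inferInstance
      exact Finite.of_equiv _ (Subgroup.groupEquivQuotientProdSubgroup (s := zpowers (g : G))).symm
    have h3 : Finite N := inferInstance
    have h4 : Finite (Multiplicative ℤ) := Finite.of_equiv _ e.toEquiv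
    exact not_finite (Multiplicative ℤ)
  · rw [hz]; exact hcfi
  · rw [hz]; infer_instance

/-- A generating set of a virtually infinite cyclic group which is not a finite extension of `ℤ`
contains an element of finite order which inverts, modulo a finite normal subgroup, every element
of infinite order. -/
theorem two_ended_structure {Γ : Type u} [Group Γ] {S : Set Γ} (hS : closure S = ⊤)
    (h : VirtuallyInfiniteCyclic Γ) (hne : ¬ FiniteExtensionOfInt Γ) :
    ∃ L : Subgroup Γ, L.Normal ∧ IsLocallyFinite L ∧ ∃ z ∈ S, IsOfFinOrder z ∧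
      ∀ v : Γ, ¬ IsOfFinOrder v → z * v * z⁻¹ * v ∈ L := by
  classical
  obtain ⟨t, ht, hfi, hn⟩ := exists_normal_zpowers h
  -- conjugation
  have hconj : ∀ g : Γ, g * t * g⁻¹ = t ∨ g * t * g⁻¹ = t⁻¹ := by
    intro g
    obtain ⟨k, hk⟩ := mem_zpowers_iff.mp (hn.conj_mem t (mem_zpowers t) g)
    obtain ⟨l, hl⟩ := mem_zpowers_iff.mp (hn.conj_mem t (mem_zpowers t) g⁻¹)
    have h1 : t ^ (k * l - 1) = 1 := by
      have h2 : g * t ^ l * g⁻¹ = t := by rw [hl]; group
      have h3 : (g * t * g⁻¹) ^ l = t := by rw [conj_zpow, h2]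
      rw [← hk, ← zpow_mul] at h3
      rw [zpow_sub, h3, zpow_one, mul_inv_cancel]
    have h2 : k * l = 1 := by
      have := zpow_eq_one_of_infinite ht h1
      omega
    rcases Int.eq_one_or_neg_one_of_mul_eq_one h2 with h | h
    · left; rw [← hk, h, zpow_one]
    · right; rw [← hk, h, zpow_neg_one]
  -- the centraliser of `t`
  set C : Subgroup Γ := centralizer {t} with hC
  have hCmem : ∀ g, g ∈ C ↔ g * t * g⁻¹ = t := by
    intro g
    rw [hC, mem_centralizer_singleton_iff, mul_inv_eq_iff_eq_mul]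
  have hCnot : ∀ g, g ∉ C → g * t * g⁻¹ = t⁻¹ := fun g hg =>
    (hconj g).resolve_left (fun h => hg ((hCmem g).mpr h))
  have hCnorm : C.Normal := ⟨fun c hc g => by
    rw [hCmem] at hc ⊢
    have e : g * c * g⁻¹ * t * (g * c * g⁻¹)⁻¹ = g * (c * (g⁻¹ * t * g) * c⁻¹) * g⁻¹ := by group
    rw [e]
    have hg := hconj g⁻¹
    rw [inv_inv] at hg
    rcases hg with hg | hg
    · have h1 : g * t * g⁻¹ = t := by
        have : g * (g⁻¹ * t * g) * g⁻¹ = t := by group
        rwa [hg] at this
      rw [hg, hc, h1]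
    · have hc' : c * t⁻¹ * c⁻¹ = t⁻¹ := by
        have : (c * t * c⁻¹)⁻¹ = c * t⁻¹ * c⁻¹ := by group
        rw [← this, hc]
      have h1 : g * t⁻¹ * g⁻¹ = t := by
        have : g * (g⁻¹ * t * g) * g⁻¹ = t := by group
        rwa [hg] at this
      rw [hg, hc', h1]⟩
  -- some element of `S` is not in `C`
  have hex : ∃ z ∈ S, z ∉ C := by
    by_contra hcon
    push Not at hcon
    have : (⊤ : Subgroup Γ) ≤ C := by rw [← hS, closure_le]; exact hcon
    have htc : t ∈ center Γ := by
      rw [mem_center_iff]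
      intro g
      have := (hCmem g).mp (this (mem_top g))
      exact mul_inv_eq_iff_eq_mul.mp this
    exact hne (finiteExtension_of_central htc ht)
  obtain ⟨z, hzS, hzC⟩ := hex
  -- elements outside `C` have finite order
  have hout : ∀ g, g ∉ C → IsOfFinOrder g := by
    intro g hg
    have h1 : g ^ (zpowers t).index ∈ zpowers t := (zpowers t).pow_index_mem g
    obtain ⟨k, hk⟩ := mem_zpowers_iff.mp h1
    have h2 : g * t ^ k * g⁻¹ = t ^ k := by
      rw [hk, ← pow_succ', pow_succ, mul_inv_cancel_right]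
    have h3 : g * t ^ k * g⁻¹ = t ^ (-k) := by
      rw [← conj_zpow, hCnot g hg, inv_zpow, zpow_neg]
    have h4 : t ^ (k - -k) = 1 := by
      rw [zpow_sub, ← h3, h2, mul_inv_cancel]
    have h5 := zpow_eq_one_of_infinite ht h4
    have hk0 : k = 0 := by omega
    rw [hk0, zpow_zero] at hk
    rw [isOfFinOrder_iff_pow_eq_one]
    exact ⟨_, Nat.pos_of_ne_zero hfi.index_ne_zero, hk.symm⟩
  -- the power homomorphism of `C`
  have htC : t ∈ C := by rw [hCmem]; group
  let t' : C := ⟨t, htC⟩
  have ht'c : t' ∈ center C := by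
    rw [mem_center_iff]
    intro g
    apply Subtype.ext
    have := (hCmem g).mp g.2
    exact mul_inv_eq_iff_eq_mul.mp this
  have hz' : zpowers t' = (zpowers t).subgroupOf C := by
    ext x
    rw [mem_subgroupOf, mem_zpowers_iff, mem_zpowers_iff]
    constructor
    · rintro ⟨k, rfl⟩
      exact ⟨k, by simp [t']⟩
    · rintro ⟨k, hk⟩
      refine ⟨k, Subtype.ext ?_⟩
      rw [← hk]; simp [t']
  have hfi' : (zpowers t').FiniteIndex := by rw [hz']; infer_instance
  obtain ⟨M, hM, hhom, hmem⟩ := power_hom ht'c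
  have hhomC : ∀ a ∈ C, ∀ b ∈ C, (a * b) ^ M = a ^ M * b ^ M := by
    intro a ha b hb
    have := congrArg Subtype.val (hhom ⟨a, ha⟩ ⟨b, hb⟩)
    simpa using this
  have hmemC : ∀ a ∈ C, ∃ k : ℤ, a ^ M = t ^ k := by
    intro a ha
    obtain ⟨k, hk⟩ := mem_zpowers_iff.mp (hmem ⟨a, ha⟩)
    refine ⟨k, ?_⟩
    have := congrArg Subtype.val hk
    simpa [t'] using this.symm
  let L : Subgroup Γ :=
    { carrier := {g | g ∈ C ∧ g ^ M = 1}
      one_mem' := ⟨C.one_mem, one_pow M⟩
      mul_mem' := by
        rintro a b ⟨ha, ha'⟩ ⟨hb, hb'⟩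
        exact ⟨C.mul_mem ha hb, by rw [hhomC a ha b hb, ha', hb', one_mul]⟩
      inv_mem' := by
        rintro a ⟨ha, ha'⟩
        exact ⟨C.inv_mem ha, by rw [inv_pow, ha', inv_one]⟩ }
  have hLmem : ∀ g, g ∈ L ↔ g ∈ C ∧ g ^ M = 1 := fun g => Iff.rfl
  have hLn : L.Normal := ⟨fun a ha g => by
    rw [hLmem] at ha ⊢
    exact ⟨hCnorm.conj_mem a ha.1 g, by rw [conj_pow, ha.2]; group⟩⟩
  have hLfin : Finite L := by
    have : Finite (Γ ⧸ zpowers t) := inferInstance
    refine Finite.of_injective (fun a : L => (QuotientGroup.mk (s := zpowers t) (a : Γ))) ?_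
    intro a b hab
    have h1 : (a : Γ)⁻¹ * b ∈ zpowers t := QuotientGroup.eq.mp hab
    obtain ⟨k, hk⟩ := mem_zpowers_iff.mp h1
    have ha := (hLmem _).mp a.2
    have hb := (hLmem _).mp b.2
    have h2 : ((a : Γ)⁻¹ * b) ^ M = 1 := by
      rw [hhomC _ (C.inv_mem ha.1) _ hb.1, inv_pow, ha.2, hb.2]; simp
    rw [← hk, ← zpow_natCast, ← zpow_mul] at h2
    have h3 := zpow_eq_one_of_infinite ht h2
    have hk0 : k = 0 := by
      rcases mul_eq_zero.mp h3 with h | h
      · exact h
      · exfalso; omega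
    rw [hk0, zpow_zero] at hk
    apply Subtype.ext
    exact (inv_mul_eq_one.mp hk.symm)
  refine ⟨L, hLn, ?_, z, hzS, hout z hzC, ?_⟩
  · intro K hK _
    exact Finite.of_injective (Subgroup.inclusion hK) (Subgroup.inclusion_injective hK)
  · intro v hv
    have hvC : v ∈ C := by
      by_contra h
      exact hv (hout v h)
    rw [hLmem]
    refine ⟨C.mul_mem (hCnorm.conj_mem v hvC z) hvC, ?_⟩
    rw [hhomC _ (hCnorm.conj_mem v hvC z) _ hvC, conj_pow]
    obtain ⟨k, hk⟩ := hmemC v hvC
    rw [hk, ← conj_zpow, hCnot z hzC, inv_zpow, inv_mul_cancel]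

end Run7.h916
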