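import Pool.Agent.Run7.h916.FacData

set_option autoImplicit false
set_option linter.unusedSectionVars false
set_option linter.unusedVariables false

/-!
Borel factors interpolating between two factors of a regular set of edges.
-/

namespace Run7.h916

open Set Relation
open scoped Pointwise

universe u v w

variable {Γ : Type u} [Group Γ] {X : Type v} [MulAction Γ X]

/-- A factor equal to `PL` outside a zone and to `PA` inside. -/
structure ZoneG {K : Type w} [MeasurableSpace X] (g' : Bool → Γ) (q : X → K) (d : X → ℕ)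
    (m W w1 R k : ℕ) (H PA PL : K → Lt → Prop) (FF : X → Lt → Prop) : Prop where
  /-- It is Borel. -/
  meas : ∀ l, MeasurableSet {y | FF y l}
  /-- It is symmetric. -/
  symm : ∀ y l, d y + 1 ≤ R → (FF y l ↔ FF (lval g' l • y) (linv l))
  /-- It is regular. -/
  card : ∀ y, {l | FF y l}.ncard = k
  /-- It is contained in the set of edges. -/
  sub : ∀ y l, FF y l → H (q y) l
  /-- Outside the zone. -/
  out : ∀ y l, W < exc d m y → (FF y l ↔ PL (q y) l)
  /-- Inside the zone. -/
  inn : ∀ y l, exc d m y ≤ w1 → (FF y l ↔ PA (q y) l)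

/-- The coordinates are equivariant near the centre. -/
theorem coord_equiv {K : Type w} [Group K] {g : Bool → K} (ι : K →* Γ) (ρ : Γ → K)
    (hρ : ∀ k γ, ρ (ι k * γ) = k * ρ γ) [MeasurableSpace X]
    {T : Set Γ} (hgT : ∀ l, lval (fun i => ι (g i)) l ∈ T) {R : ℕ} {d : X → ℕ} {δ : X → Γ}
    (hrad : Radial T R d δ) {x : X} (hx : d x + 1 ≤ R) (l : Lt) :
    ρ ((δ (lval (fun i => ι (g i)) l • x))⁻¹) = lval g l * ρ ((δ x)⁻¹) := by
  have h1 := hrad.lip _ (hgT l) x
  have h2 := hrad.coord _ (hgT l) x (by omega) (by omega)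
  rw [← h2]
  set g' : Bool → Γ := fun i => ι (g i) with hg'
  have h3 : (δ (lval g' l • x) * lval g' l)⁻¹ = (lval g' l)⁻¹ * (δ (lval g' l • x))⁻¹ := by
    group
  rw [h3]
  have h4 : (δ (lval g' l • x))⁻¹ = ι (lval g l) * ((lval g' l)⁻¹ * (δ (lval g' l • x))⁻¹) := by
    rw [map_lval]
    simp only [hg']
    group
  conv_lhs => rw [h4, hρ]

open Classical in
/-- **Factors exist**. -/
theorem exists_zoneG {K : Type w} [Group K] {g : Bool → K} {E : K → ℝ} {r k : ℕ}
    {H PA PL : K → Lt → Prop} (hfd : FacData g E r k H PA PL) (ι : K →* Γ) (ρ : Γ → K)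
    (hρ : ∀ k γ, ρ (ι k * γ) = k * ρ γ)
    [MeasurableSpace X] [StandardBorelSpace X] [Countable Γ] (hX : IsFreeBorel Γ X)
    {T : Set Γ} (hT : ∀ s ∈ T, s⁻¹ ∈ T) (hgT : ∀ l, lval (fun i => ι (g i)) l ∈ T) (w0 : ℕ) :
    ∃ W M : ℕ, w0 ≤ W ∧ ∀ (R : ℕ) (d : X → ℕ) (δ : X → Γ), Radial T R d δ → ∀ m : ℕ, W < m →
      m + M ≤ R → ∃ FF : X → Lt → Prop,
        ZoneG (fun i => ι (g i)) (fun x => ρ ((δ x)⁻¹)) d m W w0 R k H PA PL FF := by
  have hr0 : (0 : ℝ) < r := by
    have : 0 < r := by have := hfd.kr; omega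
    exact_mod_cast this
  have hκ : (0 : ℝ) < 1 / r := by positivity
  have hκ1 : (1 / r : ℝ) ≤ 1 := by
    rw [div_le_one hr0]
    have : 1 ≤ r := by have := hfd.kr; omega
    exact_mod_cast this
  set lam : ℝ := (k / r : ℝ) with hlam
  have hlamr : r * lam = k := by
    rw [hlam]; field_simp
  obtain ⟨HA, RA, hA⟩ := exists_interpH.{w, u, v} hfd.HS hκ hκ1 DP_off
    (fun y l h => DP_bound hfd.E1 hfd.k1 hfd.kr y l h) (DP_antisym hfd.Eg hfd.HS hfd.AS) hfd.nullA
    hfd.mobA
  obtain ⟨HL, RL, hL⟩ := exists_interpH.{w, u, v} hfd.HS hκ hκ1 DP_off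
    (fun y l h => DP_bound hfd.E1 hfd.k1 hfd.kr y l h) (DP_antisym hfd.Eg hfd.HS hfd.LS) hfd.nullL
    hfd.mobL
  set g' : Bool → Γ := fun i => ι (g i) with hg'
  let R0 : ℕ := max RA RL
  let Rc : ℕ := HA + HL + 1
  refine ⟨w0 + Rc, w0 + Rc + R0 + 3, by omega, ?_⟩
  intro R d δ hrad m hm hmR
  let e : X → ℕ := exc d m
  let q : X → K := fun x => ρ ((δ x)⁻¹)
  have hmeas := hX.measurable_smul
  have hfree := hX.free
  have hest : ∀ (y : X) (l : Lt), e (lval g' l • y) ≤ e y + 1 ∧ e y ≤ e (lval g' l • y) + 1 ∧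
      d (lval g' l • y) ≤ d y + 1 ∧ d y ≤ d (lval g' l • y) + 1 := fun y l =>
    exc_step hrad hT m (hgT l) y
  have hed : ∀ y, d y ≤ m + e y := fun y => by simp only [e, exc]; omega
  have hed2 : ∀ y, m ≤ d y + e y := fun y => by simp only [e, exc]; omega
  have hq : ∀ x, d x + 1 ≤ R → ∀ l, q (lval g' l • x) = lval g l * q x := fun x hx l =>
    coord_equiv ι ρ hρ hgT hrad hx l
  have hdball : ∀ n (y x : X), x ∈ Ball g' n y → d x ≤ d y + n ∧ e x ≤ e y + n := by
    intro n y x hx
    obtain ⟨w, hw, rfl⟩ := hx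
    have : ∀ w : List Lt, d (wval g' w • y) ≤ d y + w.length ∧
        e (wval g' w • y) ≤ e y + w.length := by
      intro w
      induction w using List.reverseRecOn with
      | nil => simp
      | append_singleton w l ih =>
        have h2 : wval g' [l] = lval g' l := by simp
        rw [wval_append, mul_smul, h2, List.length_append]
        have := hest (wval g' w • y) l
        simp only [List.length_cons, List.length_nil]
        omega
    have := this w
    omega
  -- the flows
  have hlipe : ∀ (y : X) (l : Lt), |((e (lval g' l • y) : ℕ) : ℝ) - (e y : ℝ)| ≤ 1 := by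
    intro y l
    have h1 := hest y l
    have h2 : ((e (lval g' l • y) : ℕ) : ℝ) ≤ e y + 1 := by exact_mod_cast h1.1
    have h3 : (e y : ℝ) ≤ (e (lval g' l • y) : ℕ) + 1 := by exact_mod_cast h1.2.1
    rw [abs_le]
    constructor <;> linarith
  obtain ⟨φA, hA1, hA2, hA3, hA4⟩ := hA ι (fun y => (e y : ℝ) - w0) (fun y l => by
    have := hlipe y l
    have e1 : ((e (lval g' l • y) : ℕ) : ℝ) - w0 - ((e y : ℝ) - w0) =
      ((e (lval g' l • y) : ℕ) : ℝ) - e y := by ring
    rw [e1]
    exact this) q
  obtain ⟨φL, hL1, hL2, hL3, hL4⟩ := hL ι (fun y => ((w0 + Rc + 1 : ℕ) : ℝ) - e y) (fun y l => by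
    have := hlipe y l
    have e1 : ((w0 + Rc + 1 : ℕ) : ℝ) - ((e (lval g' l • y) : ℕ) : ℝ) -
        (((w0 + Rc + 1 : ℕ) : ℝ) - (e y : ℝ)) = -(((e (lval g' l • y) : ℕ) : ℝ) - e y) := by ring
    rw [e1, abs_neg]
    exact this) q
  have hnear : ∀ y, e y ≤ w0 + Rc + 1 → ∀ n, n ≤ R0 → ∀ x ∈ Ball g' n y, ∀ l,
      q (lval g' l • x) = lval g l * q x := by
    intro y hy n hn x hx l
    apply hq
    have h1 := (hdball n y x hx).1
    have h2 := hed y
    omega
  have hrg : ∀ (P : K → Lt → Prop) (φ : Lt → ℝ) (y : X),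
      (∀ l, 0 < DP E lam H P (q y) l → DP E lam H P (q y) l - 1 ≤ φ l ∧
        φ l ≤ DP E lam H P (q y) l) →
      (∀ l, DP E lam H P (q y) l < 0 → DP E lam H P (q y) l ≤ φ l ∧
        φ l ≤ DP E lam H P (q y) l + 1) → ∀ l, H (q y) l →
      0 ≤ lam + E (q y) * φ l ∧ lam + E (q y) * φ l ≤ 1 := by
    intro P φ y h1 h2 l hHl
    have h3 := (DP_bound (H := H) (P := P) hfd.E1 hfd.k1 hfd.kr (q y) l hHl).1
    have h4 : DP E lam H P (q y) l = E (q y) * ((if P (q y) l then 1 else 0) - lam) := DP_on hHl
    have h5 : DP E lam H P (q y) l ≠ 0 := by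
      intro h0
      rw [← hlam, h0, abs_zero] at h3
      linarith
    rcases lt_or_gt_of_ne h5 with h6 | h6
    · obtain ⟨h7, h8⟩ := h2 l h6
      rcases hfd.E1 (q y) with h9 | h9 <;> rw [h9] at h4 ⊢ <;> rw [h4] at h6 h7 h8
      · by_cases hp : P (q y) l
        · rw [if_pos hp] at h6 h7 h8
          have hlam1 : lam < 1 := by
            rw [hlam, div_lt_one hr0]
            exact_mod_cast hfd.kr
          exfalso
          linarith
        · rw [if_neg hp] at h6 h7 h8
          constructor <;> linarith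
      · by_cases hp : P (q y) l
        · rw [if_pos hp] at h6 h7 h8
          constructor <;> linarith
        · rw [if_neg hp] at h6 h7 h8
          have hlam0 : 0 < lam := by
            rw [hlam]
            have : (0 : ℝ) < k := by exact_mod_cast hfd.k1
            positivity
          exfalso
          linarith
    · obtain ⟨h7, h8⟩ := h1 l h6
      rcases hfd.E1 (q y) with h9 | h9 <;> rw [h9] at h4 ⊢ <;> rw [h4] at h6 h7 h8
      · by_cases hp : P (q y) l
        · rw [if_pos hp] at h6 h7 h8
          constructor <;> linarith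
        · rw [if_neg hp] at h6 h7 h8
          have hlam0 : 0 < lam := by
            rw [hlam]
            have : (0 : ℝ) < k := by exact_mod_cast hfd.k1
            positivity
          exfalso
          linarith
      · by_cases hp : P (q y) l
        · rw [if_pos hp] at h6 h7 h8
          have hlam1 : lam < 1 := by
            rw [hlam, div_lt_one hr0]
            exact_mod_cast hfd.kr
          exfalso
          linarith
        · rw [if_neg hp] at h6 h7 h8
          constructor <;> linarith
  have hA5 : ∀ y, e y ≤ w0 + Rc + 1 →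
      (∀ l, H (q y) l → 0 ≤ lam + E (q y) * φA y l ∧ lam + E (q y) * φA y l ≤ 1) ∧
      (∀ l, ¬ H (q y) l → φA y l = 0) ∧
      (e y ≤ w0 → ∀ l, φA y l = DP E lam H PA (q y) l) := by
    intro y hy
    obtain ⟨h1, h1', h1'', h2⟩ := hA3 y (hnear y hy RA (le_max_left _ _))
    refine ⟨hrg PA _ y h1 h1', h1'', fun hy2 => h2 ?_⟩
    have : (e y : ℝ) ≤ w0 := by exact_mod_cast hy2
    linarith
  have hL5 : ∀ y, e y ≤ w0 + Rc + 1 →
      (∀ l, H (q y) l → 0 ≤ lam + E (q y) * φL y l ∧ lam + E (q y) * φL y l ≤ 1) ∧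
      (∀ l, ¬ H (q y) l → φL y l = 0) ∧
      (w0 + Rc + 1 ≤ e y → ∀ l, φL y l = DP E lam H PL (q y) l) := by
    intro y hy
    obtain ⟨h1, h1', h1'', h2⟩ := hL3 y (hnear y hy RL (le_max_right _ _))
    refine ⟨hrg PL _ y h1 h1', h1'', fun hy2 => h2 ?_⟩
    have : ((w0 + Rc + 1 : ℕ) : ℝ) ≤ e y := by exact_mod_cast hy2
    linarith
  have hA6 : ∀ y, w0 + HA ≤ e y → ∀ l, φA y l = 0 := by
    intro y hy
    apply hA4
    have : ((w0 + HA : ℕ) : ℝ) ≤ e y := by exact_mod_cast hy
    push_cast at this
    linarith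
  have hL6 : ∀ y, e y + HL ≤ w0 + Rc + 1 → ∀ l, φL y l = 0 := by
    intro y hy
    apply hL4
    have : ((e y + HL : ℕ) : ℝ) ≤ ((w0 + Rc + 1 : ℕ) : ℝ) := by exact_mod_cast hy
    push_cast at this ⊢
    linarith
  let f : X → Lt → ℝ := fun y l => φA y l + φL y l
  have hfabs : ∀ y, e y ≤ w0 + Rc + 1 → ∀ l, H (q y) l →
      0 ≤ lam + E (q y) * f y l ∧ lam + E (q y) * f y l ≤ 1 := by
    intro y hy l hHl
    simp only [f]
    by_cases h : w0 + HA ≤ e y
    · rw [hA6 y h, zero_add]
      exact (hL5 y hy).1 l hHl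
    · rw [hL6 y (by simp only [Rc]; omega), add_zero]
      exact (hA5 y hy).1 l hHl
  have hfH : ∀ y, e y ≤ w0 + Rc + 1 → ∀ l, ¬ H (q y) l → f y l = 0 := by
    intro y hy l hHl
    simp only [f]
    rw [(hA5 y hy).2.1 l hHl, (hL5 y hy).2.1 l hHl, add_zero]
  have hfanti : Antisym g' f := by
    intro y s
    simp only [f]
    rw [hA1, hL1]
    ring
  have hfdiv : ∀ y, ∑ s, f y s = 0 := by
    intro y
    simp only [f]
    rw [Finset.sum_add_distrib, hA2, hL2, add_zero]
  have hfA : ∀ y, e y ≤ w0 → ∀ l, f y l = DP E lam H PA (q y) l := by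
    intro y hy l
    simp only [f]
    rw [(hA5 y (by omega)).2.2 hy l, hL6 y (by simp only [Rc]; omega), add_zero]
  have hfL : ∀ y, e y = w0 + Rc + 1 → ∀ l, f y l = DP E lam H PL (q y) l := by
    intro y hy l
    simp only [f]
    rw [(hL5 y (by omega)).2.2 (by omega) l, hA6 y (by simp only [Rc] at hy ⊢; omega), zero_add]
  -- the fixed edges
  let fx : X → Lt → Prop := fun y l => if e y ≤ w0 ∨ e (lval g' l • y) ≤ w0 then
    PA (q y) l else PL (q y) l
  have hfxH : ∀ y l, fx y l → H (q y) l := by
    intro y l h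
    simp only [fx] at h
    split_ifs at h
    · exact hfd.AH _ _ h
    · exact hfd.LH _ _ h
  have hback : ∀ (y : X) (l : Lt), lval g' (linv l) • lval g' l • y = y := fun y l => by
    rw [lval_linv, inv_smul_smul]
  have hqn : ∀ y, e y ≤ w0 + Rc + 1 → ∀ l, q (lval g' l • y) = lval g l * q y := fun y hy l =>
    hnear y hy 0 (Nat.zero_le _) y (mem_ball_self _ _) l
  have hfxs : ∀ y l, d y + 1 ≤ R → (fx y l ↔ fx (lval g' l • y) (linv l)) := by
    intro y l hdy
    simp only [fx, hback]
    have h1 := hfd.AS (q y) l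
    have h2 := hfd.LS (q y) l
    rw [smul_eq_mul] at h1 h2
    by_cases h : e y ≤ w0 ∨ e (lval g' l • y) ≤ w0
    · have h' : e (lval g' l • y) ≤ w0 ∨ e y ≤ w0 := h.symm
      rw [if_pos h, if_pos h', hq y hdy l]
      exact h1
    · have h' : ¬ (e (lval g' l • y) ≤ w0 ∨ e y ≤ w0) := fun h2 => h h2.symm
      rw [if_neg h, if_neg h', hq y hdy l]
      exact h2
  -- the collar
  let C : Set X := {y | w0 < e y ∧ e y ≤ w0 + Rc}
  have hCR : ∀ y ∈ C, d y + 1 ≤ R := by
    intro y hy
    have h1 : w0 < e y ∧ e y ≤ w0 + Rc := hy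
    have h2 := hed y
    omega
  let Eg : X → Lt → Prop := fun y l => y ∈ C ∧ lval g' l • y ∈ C ∧ H (q y) l
  have hval : ∀ (y : X) (l : Lt), y ∈ C → lval g' l • y ∉ C → H (q y) l →
      lam + E (q y) * f y l = if fx y l then 1 else 0 := by
    intro y l hy hly hHl
    have hst := hest y l
    have hy' : w0 < e y ∧ e y ≤ w0 + Rc := hy
    have hly' : ¬ (w0 < e (lval g' l • y) ∧ e (lval g' l • y) ≤ w0 + Rc) := hly
    have hqy := hqn y (by omega) l
    have hanti : f y l = - f (lval g' l • y) (linv l) := by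
      rw [hfanti, neg_neg]
    have hEE : E (q y) * E (q y) = 1 := by
      rcases hfd.E1 (q y) with h | h <;> rw [h] <;> norm_num
    have hfin : ∀ P : K → Lt → Prop, lam + E (q y) * (E (q y) * ((if P (q y) l then 1 else 0) -
        lam)) = if P (q y) l then 1 else 0 := by
      intro P
      rw [← mul_assoc, hEE]; ring
    by_cases h : e (lval g' l • y) ≤ w0
    · have h2 : fx y l ↔ PA (q y) l := by
        simp only [fx]
        rw [if_pos (Or.inr h)]
      have h3 : f y l = DP E lam H PA (q y) l := by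
        rw [hanti, hfA _ h, hqy]
        have := DP_antisym (lam := lam) hfd.Eg hfd.HS hfd.AS (q y) l
        rw [smul_eq_mul] at this
        rw [this, neg_neg]
      rw [h3, DP_on hHl, hfin PA]
      simp only [h2]
    · have h4 : e (lval g' l • y) = w0 + Rc + 1 := by omega
      have h2 : fx y l ↔ PL (q y) l := by
        simp only [fx]
        rw [if_neg (by omega)]
      have h3 : f y l = DP E lam H PL (q y) l := by
        rw [hanti, hfL _ h4, hqy]
        have := DP_antisym (lam := lam) hfd.Eg hfd.HS hfd.LS (q y) l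
        rw [smul_eq_mul] at this
        rw [this, neg_neg]
      rw [h3, DP_on hHl, hfin PL]
      simp only [h2]
  let cnt : X → ℕ := fun y => (Finset.univ.filter (fun l => lval g' l • y ∉ C ∧ fx y l)).card
  let n : X → ℕ := fun y => if y ∈ C then k - cnt y else 0
  let ft : X → Lt → ℝ := fun y l => if Eg y l then lam + E (q y) * f y l else 0
  have hsumC : ∀ y ∈ C, ∑ l, ft y l + cnt y = k := by
    intro y hy
    have hy' : w0 < e y ∧ e y ≤ w0 + Rc := hy
    have h1 : ∑ l, (if H (q y) l then lam + E (q y) * f y l else 0) = k := by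
      have : ∀ l, (if H (q y) l then lam + E (q y) * f y l else 0) =
          (if H (q y) l then lam else 0) + E (q y) * f y l := fun l => by
        by_cases hl : H (q y) l
        · rw [if_pos hl, if_pos hl]
        · rw [if_neg hl, if_neg hl, hfH y (by omega) l hl]; ring
      simp only [this]
      rw [Finset.sum_add_distrib, ← Finset.mul_sum, hfdiv, mul_zero, add_zero,
        ← Finset.sum_filter, Finset.sum_const, nsmul_eq_mul]
      have h3 : (Finset.univ.filter (fun l => H (q y) l)).card = r := by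
        rw [← hfd.Hr (q y), Set.ncard_eq_toFinset_card']
        congr 1
        ext l
        simp
      rw [h3, hlamr]
    have h2 : (cnt y : ℝ) = ∑ l, if lval g' l • y ∉ C ∧ fx y l then (1 : ℝ) else 0 := by
      simp only [cnt]
      rw [Finset.natCast_card_filter]
    rw [h2, ← Finset.sum_add_distrib, ← h1]
    refine Finset.sum_congr rfl fun l _ => ?_
    simp only [ft, Eg]
    by_cases hHl : H (q y) l
    · rw [if_pos hHl]
      by_cases hl : lval g' l • y ∈ C
      · rw [if_pos ⟨hy, hl, hHl⟩, if_neg (fun h => h.1 hl), add_zero]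
      · rw [if_neg (fun h => hl h.2.1), zero_add, hval y l hy hl hHl]
        by_cases hfx : fx y l
        · rw [if_pos ⟨hl, hfx⟩, if_pos hfx]
        · rw [if_neg (fun h => hfx h.2), if_neg hfx]
    · rw [if_neg hHl, if_neg (fun h => hHl h.2.2), if_neg (fun h => hHl (hfxH _ _ h.2)), add_zero]
  have hrange : ∀ y, e y ≤ w0 + Rc + 1 → ∀ l, H (q y) l → 0 ≤ lam + E (q y) * f y l ∧
      lam + E (q y) * f y l ≤ 1 := hfabs
  have hcnt2 : ∀ y ∈ C, cnt y ≤ k := by
    intro y hy
    have h1 := hsumC y hy
    have hy' : w0 < e y ∧ e y ≤ w0 + Rc := hy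
    have h2 : 0 ≤ ∑ l, ft y l := by
      refine Finset.sum_nonneg fun l _ => ?_
      simp only [ft]
      split_ifs with hE
      · exact (hrange y (by omega) l hE.2.2).1
      · exact le_rfl
    have : (cnt y : ℝ) ≤ k := by linarith
    exact_mod_cast this
  -- measurability
  have hem : ∀ k, MeasurableSet {y | e y = k} := by
    intro k
    have : {y | e y = k} = ⋃ j : ℕ, {y | d y = j} ∩ {y | ((j : ℤ) - m).natAbs = k} := by
      ext y
      simp only [mem_ofPred_eq, mem_iUnion, mem_inter_iff]
      constructor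
      · intro h
        exact ⟨d y, rfl, h⟩
      · rintro ⟨j, rfl, h⟩
        exact h
    rw [this]
    exact MeasurableSet.iUnion fun j => (hrad.dm j).inter (MeasurableSet.const _)
  have hep : ∀ P : ℕ → Prop, MeasurableSet {y | P (e y)} := by
    intro P
    have : {y | P (e y)} = ⋃ j : ℕ, {y | e y = j} ∩ {y | P j} := by
      ext y
      simp only [mem_ofPred_eq, mem_iUnion, mem_inter_iff]
      constructor
      · intro h
        exact ⟨e y, rfl, h⟩
      · rintro ⟨j, rfl, h⟩
        exact h
    rw [this]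
    exact MeasurableSet.iUnion fun j => (hem j).inter (MeasurableSet.const _)
  have hCm : MeasurableSet C := hep (fun k => w0 < k ∧ k ≤ w0 + Rc)
  have hqm : ∀ P : K → Prop, MeasurableSet {y | P (q y)} := by
    intro P
    have : {y | P (q y)} = ⋃ γ : Γ, {y | δ y = γ} ∩ {y | P (ρ γ⁻¹)} := by
      ext y
      simp only [mem_ofPred_eq, mem_iUnion, mem_inter_iff]
      constructor
      · intro h
        exact ⟨δ y, rfl, h⟩
      · rintro ⟨γ, rfl, h⟩
        exact h
    rw [this]
    exact MeasurableSet.iUnion fun γ => (hrad.δm γ).inter (MeasurableSet.const _)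
  have hfxm : ∀ l, MeasurableSet {y | fx y l} := by
    intro l
    have : {y | fx y l} = (({y | e y ≤ w0} ∪ (fun y => lval g' l • y) ⁻¹' {y | e y ≤ w0}) ∩
        {y | PA (q y) l}) ∪ (({y | e y ≤ w0} ∪ (fun y => lval g' l • y) ⁻¹'
          {y | e y ≤ w0})ᶜ ∩ {y | PL (q y) l}) := by
      ext y
      simp only [fx, mem_ofPred_eq, mem_union, mem_inter_iff, mem_preimage, mem_compl_iff]
      by_cases h : e y ≤ w0 ∨ e (lval g' l • y) ≤ w0
      · rw [if_pos h]; tauto
      · rw [if_neg h]; tauto
    rw [this]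
    have h1 := (hep (fun k => k ≤ w0)).union ((hmeas (lval g' l)) (hep (fun k => k ≤ w0)))
    exact (h1.inter (hqm fun k => PA k l)).union (h1.compl.inter (hqm fun k => PL k l))
  have hEgm : ∀ l, MeasurableSet {y | Eg y l} := fun l =>
    hCm.inter (((hmeas _) hCm).inter (hqm fun k => H k l))
  have hnm : ∀ k, MeasurableSet {y | n y = k} := by
    have hcm : ∀ k, MeasurableSet {y | cnt y = k} := by
      intro k
      have : {y | cnt y = k} = ⋃ S : Finset Lt, {y | S.card = k} ∩
          ⋂ l : Lt, {y | (lval g' l • y ∉ C ∧ fx y l) ↔ l ∈ S} := by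
        ext y
        simp only [mem_ofPred_eq, mem_iUnion, mem_inter_iff, mem_iInter]
        constructor
        · intro h
          refine ⟨Finset.univ.filter (fun l => lval g' l • y ∉ C ∧ fx y l), h, fun l => ?_⟩
          rw [Finset.mem_filter]
          simp
        · rintro ⟨S, h1, h2⟩
          rw [← h1]
          simp only [cnt]
          congr 1
          ext l
          rw [Finset.mem_filter]
          simp [h2 l]
      rw [this]
      refine MeasurableSet.iUnion fun S => (MeasurableSet.const _).inter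
        (MeasurableSet.iInter fun l => ?_)
      have h1 : MeasurableSet {y | lval g' l • y ∉ C ∧ fx y l} :=
        ((hmeas _) hCm).compl.inter (hfxm l)
      by_cases hl : l ∈ S
      · simpa [hl] using h1
      · have h2 : {y | (lval g' l • y ∉ C ∧ fx y l) ↔ l ∈ S} =
            {y | lval g' l • y ∉ C ∧ fx y l}ᶜ := by
          ext y
          simp only [mem_ofPred_eq, mem_compl_iff, hl, iff_false]
        rw [h2]
        exact h1.compl
    intro k'
    have : {y | n y = k'} = (C ∩ ⋃ j : ℕ, {y | cnt y = j} ∩ {y | k - j = k'}) ∪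
        (Cᶜ ∩ {y | 0 = k'}) := by
      ext y
      simp only [n, mem_ofPred_eq, mem_union, mem_inter_iff, mem_iUnion, mem_compl_iff]
      by_cases h : y ∈ C
      · rw [if_pos h]
        constructor
        · intro h2
          exact Or.inl ⟨h, cnt y, rfl, h2⟩
        · rintro (⟨_, j, rfl, h2⟩ | ⟨h2, _⟩)
          · exact h2
          · exact absurd h h2
      · rw [if_neg h]
        tauto
    rw [this]
    exact (hCm.inter (MeasurableSet.iUnion fun j => (hcm j).inter (MeasurableSet.const _))).union
      (hCm.compl.inter (MeasurableSet.const _))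
  have hEgs : ∀ y l, Eg y l → Eg (lval g' l • y) (linv l) := by
    intro y l h
    have h1 : w0 < e y ∧ e y ≤ w0 + Rc := h.1
    refine ⟨h.2.1, ?_, ?_⟩
    · rw [hback]
      exact h.1
    · rw [hqn y (by omega) l]
      exact (hfd.HS (q y) l).mp h.2.2
  have hfin : ∀ y, {x | EConn (lval g') Eg y x}.Finite := by
    intro y
    by_cases hy : 1 ≤ d y
    · refine (hrad.fin1 y hy).subset ?_
      intro x hx
      have hx' : EConn (lval g') Eg y x := hx
      clear hx
      change Conn T {z | 1 ≤ d z} y x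
      refine rtg_mono ?_ hx'
      rintro a b ⟨l, hl, rfl⟩
      have h1 : w0 < e (lval g' l • a) ∧ e (lval g' l • a) ≤ w0 + Rc := hl.2.1
      refine ⟨?_, lval g' l, hgT l, rfl⟩
      have := hed2 (lval g' l • a)
      simp only [mem_ofPred_eq]
      omega
    · refine (Set.finite_singleton y).subset ?_
      intro x hx
      have hx' : EConn (lval g') Eg y x := hx
      clear hx
      rcases (ReflTransGen.cases_head hx') with h | ⟨b, ⟨l, hl, _⟩, _⟩
      · exact h.symm
      · exfalso
        have h1 : w0 < e y ∧ e y ≤ w0 + Rc := hl.1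
        have := hed2 y
        omega
  obtain ⟨FR, hFR1, hFR2, hFR3, hFR4⟩ := borel_round hmeas hfree
    (val := lval g') (inv := linv) (fun l => lval_linv g' l) (fun l => linv_linv l) hEgm hEgs hfin
    n hnm (fun o => ⟨ft, fun y => E (q y) = 1, by
      intro x l _
      simp only [ft]
      split_ifs with h
      · have h1 : w0 < e x ∧ e x ≤ w0 + Rc := h.1
        exact (hrange x (by omega) l h.2.2).1
      · exact le_rfl, by
      intro x l _
      simp only [ft]
      split_ifs with h
      · have h1 : w0 < e x ∧ e x ≤ w0 + Rc := h.1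
        exact (hrange x (by omega) l h.2.2).2
      · exact zero_le_one, by
      intro x l _ hl
      simp only [ft]
      have h1 : w0 < e x ∧ e x ≤ w0 + Rc := hl.1
      rw [if_pos hl, if_pos (hEgs x l hl), hfanti, hqn x (by omega), odd_lval hfd.Eg]
      ring, by
      intro x l _ hl
      simp only [ft]
      rw [if_neg hl], by
      intro x _
      simp only [n]
      by_cases hx : x ∈ C
      · rw [if_pos hx, Nat.cast_sub (hcnt2 x hx)]
        have := hsumC x hx
        linarith
      · rw [if_neg hx, Nat.cast_zero]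
        refine Finset.sum_eq_zero fun l _ => ?_
        simp only [ft]
        rw [if_neg (fun h => hx h.1)], by
      intro x l _ hl
      have h1 : w0 < e x ∧ e x ≤ w0 + Rc := hl.1
      simp only
      rw [hqn x (by omega), odd_lval hfd.Eg]
      rcases hfd.E1 (q x) with h | h <;> rw [h] <;> norm_num⟩)
  -- the factor
  let EC : X → Lt → Prop := fun y l => y ∈ C ∧ lval g' l • y ∈ C
  let FF : X → Lt → Prop := fun y l => FR y l ∨ (¬ EC y l ∧ fx y l)
  have hFFC : ∀ y l, y ∉ C → (FF y l ↔ fx y l) := by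
    intro y l hy
    simp only [FF]
    constructor
    · rintro (h | h)
      · exact absurd (hFR2 _ _ h).1 hy
      · exact h.2
    · intro h
      exact Or.inr ⟨fun h2 => hy h2.1, h⟩
  refine ⟨FF, ?_, ?_, ?_, ?_, ?_, ?_⟩
  · intro l
    have h1 : MeasurableSet {y | EC y l} := hCm.inter ((hmeas _) hCm)
    exact (hFR1 l).union (h1.compl.inter (hfxm l))
  · intro y l hdy
    simp only [FF]
    have h1 : EC y l ↔ EC (lval g' l • y) (linv l) := by
      simp only [EC, hback]
      exact and_comm
    rw [hFR3 y l, h1, hfxs y l hdy]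
  · intro y
    by_cases hy : y ∈ C
    · have hdisj : Disjoint {l | FR y l} {l | lval g' l • y ∉ C ∧ fx y l} := by
        rw [Set.disjoint_left]
        intro l h1 h2
        exact h2.1 (hFR2 _ _ h1).2.1
      have hu : {l | FF y l} = {l | FR y l} ∪ {l | lval g' l • y ∉ C ∧ fx y l} := by
        ext l
        simp only [FF, mem_ofPred_eq, mem_union]
        constructor
        · rintro (h | ⟨h1, h2⟩)
          · exact Or.inl h
          · exact Or.inr ⟨fun h3 => h1 ⟨hy, h3⟩, h2⟩
        · rintro (h | ⟨h1, h2⟩)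
          · exact Or.inl h
          · exact Or.inr ⟨fun h3 => h1 h3.2, h2⟩
      rw [hu, Set.ncard_union_eq hdisj, hFR4]
      have h3 : {l | lval g' l • y ∉ C ∧ fx y l}.ncard = cnt y := by
        rw [Set.ncard_eq_toFinset_card']
        simp only [cnt]
        congr 1
        ext l
        simp
      rw [h3]
      simp only [n]
      rw [if_pos hy]
      have := hcnt2 y hy
      omega
    · have hu : {l | FF y l} = {l | fx y l} := by
        ext l
        exact hFFC y l hy
      rw [hu]
      by_cases h : e y ≤ w0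
      · have : {l | fx y l} = {l | PA (q y) l} := by
          ext l
          simp only [fx, mem_ofPred_eq]
          rw [if_pos (Or.inl h)]
        rw [this]
        exact hfd.Ak _
      · have h2 : w0 + Rc < e y := by
          by_contra h3
          exact hy ⟨by omega, by omega⟩
        have : {l | fx y l} = {l | PL (q y) l} := by
          ext l
          simp only [fx, mem_ofPred_eq]
          have h4 := hest y l
          rw [if_neg (by simp only [Rc] at h2; omega)]
        rw [this]
        exact hfd.Lk _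
  · intro y l h
    rcases h with h | h
    · exact (hFR2 _ _ h).2.2
    · exact hfxH _ _ h.2
  · intro y l hy
    have hy' : w0 + Rc < e y := hy
    rw [hFFC y l (fun h => by have h1 : w0 < e y ∧ e y ≤ w0 + Rc := h; omega)]
    simp only [fx]
    have h4 := hest y l
    rw [if_neg (by simp only [Rc] at hy'; omega)]
  · intro y l hy
    have hy' : e y ≤ w0 := hy
    rw [hFFC y l (fun h => by have h1 : w0 < e y ∧ e y ≤ w0 + Rc := h; omega)]
    simp only [fx]
    rw [if_pos (Or.inl hy')]

end Run7.h916
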